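import Mathlib

set_option autoImplicit false

/-! EMT-Pure: three pure facts on finite sets.

1. `exists_greatest`: a nonempty finite set with a transitive total relation has a greatest element
   (Finset.induction: add `x` to `s` with greatest element `m`: if `R x m` (or `x = m`) keep `m`; otherwise `R m x` and
   for `z ∈ s`, `z ≠ m`: `R z m → R m x → R z x`.)

2. `class_count`.  `R` is a strict total order on `M`.  For `r ∈ M` put `N r = #{p ∈ M | R r p}`,
   `b r = #{p ∈ M | R r p ∧ bad r p}`.  Double counting: `∑_{r ∈ M} b r = ∑_{p ∈ M} #{r ∈ M | R r p ∧ bad r p} ≤ |M| t ≤ K t`.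
   If `M` is empty the claim is trivial; otherwise `K ≥ 1`.  Let `16 v r < K`.
   (i) if `16 b r ≤ K`: `8 N r ≤ 8 v r + 16 + 8 b r < K + 16`, and `N` is injective on `M` (for `R r r'`:
       `{p | R r' p} ⊂ {p | R r p}` strictly, as `r'` is in the second set only), so there are at most
       `(K + 15)/8 + 1` such `r` (natural number division), i.e. `8 * # ≤ K + 23`;
   (ii) the number of `r` with `16 b r > K` is at most `16 t`, because `# * K ≤ 16 ∑ b r ≤ 16 K t`.
   Together `8 * # ≤ K + 23 + 128 t`. -/

namespace ET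
open Finset
open scoped Classical

theorem exists_greatest {α : Type*} (s : Finset α) (hs : s.Nonempty) (R : α → α → Prop)
    (tr : ∀ x ∈ s, ∀ y ∈ s, ∀ z ∈ s, R x y → R y z → R x z)
    (tot : ∀ x ∈ s, ∀ y ∈ s, x ≠ y → R x y ∨ R y x) : ∃ m ∈ s, ∀ z ∈ s, z ≠ m → R z m := by
  induction hs using Finset.Nonempty.cons_induction with
  | singleton a => exact ⟨a, by simp, fun z hz h => absurd (by simpa using hz) h⟩
  | cons a s ha hs ih =>
    obtain ⟨m, hm, hm'⟩ := ih (fun x hx y hy z hz => tr x (mem_cons_of_mem hx) y (mem_cons_of_mem hy) z (mem_cons_of_mem hz))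
      (fun x hx y hy => tot x (mem_cons_of_mem hx) y (mem_cons_of_mem hy))
    have ham : a ≠ m := fun h => ha (h ▸ hm)
    have ha' : a ∈ cons a s ha := mem_cons_self a s
    rcases tot a ha' m (mem_cons_of_mem hm) ham with h | h
    · refine ⟨m, mem_cons_of_mem hm, fun z hz hne => ?_⟩
      rcases mem_cons.1 hz with rfl | hz
      · exact h
      · exact hm' z hz hne
    · refine ⟨a, ha', fun z hz hne => ?_⟩
      rcases mem_cons.1 hz with rfl | hz
      · exact absurd rfl hne
      · by_cases hzm : z = m
        · rw [hzm]; exact h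
        · exact tr z (mem_cons_of_mem hz) m (mem_cons_of_mem hm) a ha' (hm' z hz hzm) h

end ET
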