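import Pool.Agent.Lib.MP_4beb96_co.EMT.Sym
import Pool.Agent.Lib.MP_4beb96_co.EMT.Pure

set_option autoImplicit false

/-! EMT-Apex: apexes of empty triangles over a pair `l r`.

`q <_l q'` means `ccw l q q'` (points right of `l`, ordered by slope; transitive by `trL`, total by `total'`); for points
left of `r` the relation `ccw r q q'` is transitive by `trR`.  For `l < z < r`: `¬ U l z r` iff `ccw l z r`
(`ccw_iff1`), iff `ccw r l z` (`ccw_iff3`), i.e. `z` is below the segment.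

exists_AL_left: let `s = (Ioo l r).filter (fun z => ¬ U l z r)`, nonempty; `m` its greatest element for
`R x y := ccw l x y` (`exists_greatest`).  Then `m ∈ AL l r`: suppose `z` inside the triangle `l m r`.  As
`ccw l m r`, `Ins_iff` gives `ccw l m z`, `ccw m r z`, `ccw r l z`; `Ins_between` gives `l < z < r`;
`ccw r l z` says `z ∈ s` (`ccw_iff3`), `z ≠ m`, hence `ccw l z m`, contradiction (`asymm'`).

exists_AL_right: the same with `R x y := ccw r y x`; `m` = element with `ccw r m z` for all other `z ∈ s`; `z` inside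
gives `ccw m r z`, i.e. `ccw r z m`, contradiction.

good_of_card: `AL l r = {m}`.  The elements found by the two lemmas are both `m`, so all `z ≠ m` below satisfy
`ccw l z m` and `ccw r m z`.  The same for `AU l r = {w}` with `flip` (`AL_flip`, `ccw_flip`, `flip_U`):
`σ.flip.ccw l z w = σ.ccw z l w`, which is `σ.ccw l w z` cyclically, and `σ.flip.ccw r w z = σ.ccw w r z`, i.e. `σ.ccw r z w`. -/

namespace ET
open Finset
open scoped Classical

namespace Sig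
variable {σ : Sig}

theorem exists_AL_left {l r : ℤ} (h : ∃ z, l < z ∧ z < r ∧ ¬ σ.U l z r) :
    ∃ m ∈ σ.AL l r, ∀ z, l < z → z < r → ¬ σ.U l z r → z ≠ m → σ.ccw l z m := by
  obtain ⟨z0, hz1, hz2, hz3⟩ := h
  have hs : ((Ioo l r).filter (fun z => ¬ σ.U l z r)).Nonempty :=
    ⟨z0, by rw [mem_filter, mem_Ioo]; exact ⟨⟨hz1, hz2⟩, hz3⟩⟩
  obtain ⟨m, hm, hmax⟩ := exists_greatest ((Ioo l r).filter (fun z => ¬ σ.U l z r)) hs
    (fun x y => σ.ccw l x y)
    (fun x hx y hy z hz h1 h2 => by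
      rw [mem_filter, mem_Ioo] at hx hy hz
      exact trL hx.1.1 hy.1.1 hz.1.1 h1 h2)
    (fun x hx y hy hxy => by
      rw [mem_filter, mem_Ioo] at hx hy
      exact total' (ne_of_lt hx.1.1) (ne_of_lt hy.1.1) hxy)
  rw [mem_filter, mem_Ioo] at hm
  have key : ∀ z, l < z → z < r → ¬ σ.U l z r → z ≠ m → σ.ccw l z m := by
    intro z h1 h2 h3 h4
    exact hmax z (by rw [mem_filter, mem_Ioo]; exact ⟨⟨h1, h2⟩, h3⟩) h4
  refine ⟨m, ?_, key⟩
  unfold AL
  rw [mem_filter, mem_Ioo]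
  refine ⟨hm.1, hm.2, ?_⟩
  intro z hz
  have hb := Ins_between hz
  have hc : σ.ccw l m r := (ccw_iff1 hm.1.1 hm.1.2).2 hm.2
  rw [Ins_iff hc] at hz
  obtain ⟨i1, i2, i3⟩ := hz
  have hm1 := hm.1.1
  have hm2 := hm.1.2
  have hlz : l < z := by omega
  have hzr : z < r := by omega
  have hU : ¬ σ.U l z r := (ccw_iff3 hlz hzr).1 i3
  exact asymm' i1 (key z hlz hzr hU (ne23 i1).symm)

theorem exists_AL_right {l r : ℤ} (h : ∃ z, l < z ∧ z < r ∧ ¬ σ.U l z r) :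
    ∃ m ∈ σ.AL l r, ∀ z, l < z → z < r → ¬ σ.U l z r → z ≠ m → σ.ccw r m z := by
  obtain ⟨z0, hz1, hz2, hz3⟩ := h
  have hs : ((Ioo l r).filter (fun z => ¬ σ.U l z r)).Nonempty :=
    ⟨z0, by rw [mem_filter, mem_Ioo]; exact ⟨⟨hz1, hz2⟩, hz3⟩⟩
  obtain ⟨m, hm, hmax⟩ := exists_greatest ((Ioo l r).filter (fun z => ¬ σ.U l z r)) hs
    (fun x y => σ.ccw r y x)
    (fun x hx y hy z hz h1 h2 => by
      rw [mem_filter, mem_Ioo] at hx hy hz
      exact trR hz.1.2 hy.1.2 hx.1.2 h2 h1)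
    (fun x hx y hy hxy => by
      rw [mem_filter, mem_Ioo] at hx hy
      exact total' (ne_of_gt hy.1.2) (ne_of_gt hx.1.2) hxy.symm)
  rw [mem_filter, mem_Ioo] at hm
  have key : ∀ z, l < z → z < r → ¬ σ.U l z r → z ≠ m → σ.ccw r m z := by
    intro z h1 h2 h3 h4
    exact hmax z (by rw [mem_filter, mem_Ioo]; exact ⟨⟨h1, h2⟩, h3⟩) h4
  refine ⟨m, ?_, key⟩
  unfold AL
  rw [mem_filter, mem_Ioo]
  refine ⟨hm.1, hm.2, ?_⟩
  intro z hz
  have hb := Ins_between hz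
  have hc : σ.ccw l m r := (ccw_iff1 hm.1.1 hm.1.2).2 hm.2
  rw [Ins_iff hc] at hz
  obtain ⟨i1, i2, i3⟩ := hz
  have hm1 := hm.1.1
  have hm2 := hm.1.2
  have hlz : l < z := by omega
  have hzr : z < r := by omega
  have hU : ¬ σ.U l z r := (ccw_iff3 hlz hzr).1 i3
  exact asymm' (cyc i2) (key z hlz hzr hU (ne23 i1).symm)

theorem AL_nonempty_iff {l r : ℤ} : (σ.AL l r).Nonempty ↔ ¬ σ.NoLow l r := by
  constructor
  · rintro ⟨m, hm⟩ hN
    unfold AL at hm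
    rw [mem_filter, mem_Ioo] at hm
    exact hm.2.1 (hN m hm.1.1 hm.1.2)
  · intro hN
    unfold NoLow at hN
    push Not at hN
    obtain ⟨m, hm, _⟩ := exists_AL_left hN
    exact ⟨m, hm⟩

theorem AU_nonempty_iff {l r : ℤ} : (σ.AU l r).Nonempty ↔ ¬ σ.NoUp l r := by
  rw [← AL_flip, AL_nonempty_iff, NoLow_flip]

private theorem low_of_card {l r : ℤ} (h1 : (σ.AL l r).card = 1) : ∃ m, l < m ∧ m < r ∧ ¬ σ.U l m r ∧
    (∀ z, l < z → z < r → z ≠ m → ¬ σ.U l z r → σ.ccw l z m ∧ σ.ccw r m z) := by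
  obtain ⟨m, hm⟩ := card_eq_one.1 h1
  have hmem : m ∈ σ.AL l r := by rw [hm]; exact mem_singleton_self m
  have hmem' := hmem
  unfold AL at hmem'
  rw [mem_filter, mem_Ioo] at hmem'
  have hex : ∃ z, l < z ∧ z < r ∧ ¬ σ.U l z r := ⟨m, hmem'.1.1, hmem'.1.2, hmem'.2.1⟩
  obtain ⟨m1, hm1, k1⟩ := exists_AL_left hex
  obtain ⟨m2, hm2, k2⟩ := exists_AL_right hex
  rw [hm, mem_singleton] at hm1 hm2
  subst hm1
  subst hm2
  exact ⟨_, hmem'.1.1, hmem'.1.2, hmem'.2.1, fun z a b c d => ⟨k1 z a b d c, k2 z a b d c⟩⟩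

theorem good_of_card {l r : ℤ} (h1 : (σ.AL l r).card = 1) (h2 : (σ.AU l r).card = 1) : σ.good l r := by
  obtain ⟨m, a1, a2, a3, a4⟩ := low_of_card h1
  have h2' : (σ.flip.AL l r).card = 1 := by rw [AL_flip]; exact h2
  obtain ⟨w, b1, b2, b3, b4⟩ := low_of_card h2'
  rw [flip_U, not_not] at b3
  refine ⟨m, w, a1, a2, b1, b2, a3, b3, a4, ?_⟩
  intro z c1 c2 c3 c4
  obtain ⟨d1, d2⟩ := b4 z c1 c2 c3 (by rw [flip_U, not_not]; exact c4)
  rw [ccw_flip] at d1 d2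
  exact ⟨cyc d1, cyc d2⟩

end Sig
end ET
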