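import Mathlib

set_option autoImplicit false

/-! Empty triangles: combinatorial base.  A `Sig` is a (bi-infinite) signotope of rank 3:
points are the integers in the order of their x-coordinates, `U i j k` (for `i < j < k`)
says that the point `j` lies above the line `i k`. -/

namespace ET

/-- Signotope of rank 3 on the integers: `U i j k` for `i<j<k` means: `j` is above the line `ik`. -/
structure Sig where
  U : ℤ → ℤ → ℤ → Prop
  p13 : ∀ {a b c d : ℤ}, a < b → b < c → c < d → U a b c → U a c d → U a b d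
  p24 : ∀ {a b c d : ℤ}, a < b → b < c → c < d → U a b d → U b c d → U a c d
  p14 : ∀ {a b c d : ℤ}, a < b → b < c → c < d → U a b c → U b c d → U a b d
  n13 : ∀ {a b c d : ℤ}, a < b → b < c → c < d → ¬ U a b c → ¬ U a c d → ¬ U a b d
  n24 : ∀ {a b c d : ℤ}, a < b → b < c → c < d → ¬ U a b d → ¬ U b c d → ¬ U a c d
  n14 : ∀ {a b c d : ℤ}, a < b → b < c → c < d → ¬ U a b c → ¬ U b c d → ¬ U a b d

namespace Sig

variable (σ : Sig)

/-- counterclockwise orientation of three (distinct) points. -/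
def ccw (a b c : ℤ) : Prop :=
  (a < b ∧ b < c ∧ ¬ σ.U a b c) ∨ (b < c ∧ c < a ∧ ¬ σ.U b c a) ∨ (c < a ∧ a < b ∧ ¬ σ.U c a b) ∨
  (a < c ∧ c < b ∧ σ.U a c b) ∨ (c < b ∧ b < a ∧ σ.U c b a) ∨ (b < a ∧ a < c ∧ σ.U b a c)

variable {σ}

theorem cyc {a b c : ℤ} (h : σ.ccw a b c) : σ.ccw b c a := by
  unfold ccw at *; tauto

theorem cyc' {a b c : ℤ} (h : σ.ccw a b c) : σ.ccw c a b := cyc (cyc h)

theorem asymm {a b c : ℤ} (h : σ.ccw a b c) : ¬ σ.ccw b a c := by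
  unfold ccw at *
  intro h2
  rcases h with h|h|h|h|h|h <;> rcases h2 with h'|h'|h'|h'|h'|h' <;>
    first | (exfalso; omega) | (exact h.2.2 h'.2.2) | (exact h'.2.2 h.2.2)

theorem asymm' {a b c : ℤ} (h : σ.ccw a b c) : ¬ σ.ccw a c b := fun h2 => asymm (cyc h) (cyc h2)

theorem ccw_iff1 {a b c : ℤ} (h1 : a < b) (h2 : b < c) : σ.ccw a b c ↔ ¬ σ.U a b c := by
  unfold ccw
  constructor
  · intro h
    rcases h with h|h|h|h|h|h
    · exact h.2.2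
    all_goals exfalso; omega
  · intro h; exact Or.inl ⟨h1, h2, h⟩

theorem ccw_iff2 {a b c : ℤ} (h1 : a < b) (h2 : b < c) : σ.ccw b c a ↔ ¬ σ.U a b c := by
  rw [← ccw_iff1 h1 h2]; exact ⟨fun h => cyc (cyc h), fun h => cyc h⟩

theorem ccw_iff3 {a b c : ℤ} (h1 : a < b) (h2 : b < c) : σ.ccw c a b ↔ ¬ σ.U a b c := by
  rw [← ccw_iff1 h1 h2]; exact ⟨fun h => cyc h, fun h => cyc (cyc h)⟩

theorem ccw_iff4 {a b c : ℤ} (h1 : a < b) (h2 : b < c) : σ.ccw a c b ↔ σ.U a b c := by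
  unfold ccw
  constructor
  · intro h
    rcases h with h|h|h|h|h|h
    all_goals first | exact h.2.2 | (exfalso; omega)
  · intro h; exact Or.inr (Or.inr (Or.inr (Or.inl ⟨h1, h2, h⟩)))

theorem ccw_iff5 {a b c : ℤ} (h1 : a < b) (h2 : b < c) : σ.ccw c b a ↔ σ.U a b c := by
  rw [← ccw_iff4 h1 h2]; exact ⟨fun h => cyc (cyc h), fun h => cyc h⟩

theorem ccw_iff6 {a b c : ℤ} (h1 : a < b) (h2 : b < c) : σ.ccw b a c ↔ σ.U a b c := by
  rw [← ccw_iff4 h1 h2]; exact ⟨fun h => cyc h, fun h => cyc (cyc h)⟩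

theorem total {a b c : ℤ} (h1 : a ≠ b) (h2 : a ≠ c) (h3 : b ≠ c) : σ.ccw a b c ∨ σ.ccw b a c := by
  rcases lt_or_gt_of_ne h1 with h|h <;> rcases lt_or_gt_of_ne h2 with h'|h' <;> rcases lt_or_gt_of_ne h3 with h''|h''
  · rw [ccw_iff1 h h'', ccw_iff6 h h'']; tauto
  · rw [ccw_iff4 h' h'', ccw_iff3 h' h'']; tauto
  · omega
  · rw [ccw_iff2 h' h, ccw_iff5 h' h]; tauto
  · rw [ccw_iff6 h h', ccw_iff1 h h']; tauto
  · omega
  · rw [ccw_iff3 h'' h', ccw_iff4 h'' h']; tauto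
  · rw [ccw_iff5 h'' h, ccw_iff2 h'' h]; tauto

theorem total' {a b c : ℤ} (h1 : a ≠ b) (h2 : a ≠ c) (h3 : b ≠ c) : σ.ccw a b c ∨ σ.ccw a c b :=
  (total h1 h2 h3).imp id (fun h => cyc h)

theorem not_ccw {a b c : ℤ} (h1 : a ≠ b) (h2 : a ≠ c) (h3 : b ≠ c) : ¬ σ.ccw a b c ↔ σ.ccw b a c :=
  ⟨fun h => (total h1 h2 h3).resolve_left h, fun h h' => asymm h h'⟩

theorem not_ccw' {a b c : ℤ} (h1 : a ≠ b) (h2 : a ≠ c) (h3 : b ≠ c) : ¬ σ.ccw a b c ↔ σ.ccw a c b :=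
  ⟨fun h => (total' h1 h2 h3).resolve_left h, fun h h' => asymm' h h'⟩

theorem ne12 {a b c : ℤ} (h : σ.ccw a b c) : a ≠ b := by
  rintro rfl; exact asymm h h

theorem ne23 {a b c : ℤ} (h : σ.ccw a b c) : b ≠ c := ne12 (cyc h)

theorem ne13 {a b c : ℤ} (h : σ.ccw a b c) : a ≠ c := (ne12 (cyc (cyc h))).symm

/-- all consequences for 4 points in the x-order, as one propositional fact -/
theorem four {a b c d : ℤ} (h1 : a < b) (h2 : b < c) (h3 : c < d) :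
    (σ.U a b c → σ.U a c d → σ.U a b d) ∧ (σ.U a b d → σ.U b c d → σ.U a c d) ∧
    (σ.U a b c → σ.U b c d → σ.U a b d) ∧ (¬ σ.U a b c → ¬ σ.U a c d → ¬ σ.U a b d) ∧
    (¬ σ.U a b d → ¬ σ.U b c d → ¬ σ.U a c d) ∧ (¬ σ.U a b c → ¬ σ.U b c d → ¬ σ.U a b d) :=
  ⟨σ.p13 h1 h2 h3, σ.p24 h1 h2 h3, σ.p14 h1 h2 h3, σ.n13 h1 h2 h3, σ.n24 h1 h2 h3, σ.n14 h1 h2 h3⟩

end Sig
end ET
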