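import Mathlib

set_option autoImplicit false

/-! EMT-BlockA: two pure facts.

block: `R, N` finite sets of integers.  There are `c ≤ d` in `R` with `[c, d] ∩ R ∩ N = ∅` and `#R ≤ #N + (#N + 1) #(R ∩ [c, d])`, if `#N < #R`.
 Proof: colour `x ∈ R \ N` by `#{y ∈ N | y < x} ∈ {0, ..., #N}`.  By pigeonhole (`Finset.exists_le_card_fiber_of_mul_le_card_of_maps_to` or by contradiction with `card_eq_sum_card_fiberwise`) one colour class `C` has
 `(#N + 1) #C ≥ #(R \ N) ≥ #R - #N > 0`.  `c = C.min'`, `d = C.max'`.  If `y ∈ N`, `c ≤ y ≤ d` then (`y ≠ c, d` as `C ∩ N = ∅`) `c < y < d`, and the colour of `d` is larger than the colour of `c` (`y` is counted only for `d`).  Contradiction.  And `C ⊆ R ∩ [c, d]`.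

avg: `L` a finite set, `x, y, z : ℤ → ℝ` nonneg, `∑ x ≥ A`, `∑ y ≤ B`, `∑ z ≤ C`, `A > 0`, weights `u, w ≥ 0` with `u B + w C ≤ A / 2`, `L` has at most `n` elements, `n > 0`: there is `l ∈ L` with
  `A / (2 n) ≤ x l`, `u y l ≤ x l`, `w z l ≤ x l`.  Proof: `∑ (x - u y - w z) ≥ A / 2`, so some `l` has `x l - u y l - w z l ≥ A / (2 n)`, since otherwise the sum is `< A / 2` (`#L ≤ n`; L nonempty). -/

namespace ET
open Finset
open scoped Classical

theorem block (R N : Finset ℤ) (h : N.card < R.card) :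
    ∃ c ∈ R, ∃ d ∈ R, c ≤ d ∧ (∀ y ∈ N, y ∈ R → ¬ (c ≤ y ∧ y ≤ d)) ∧
      R.card ≤ N.card + (N.card + 1) * (R.filter (fun y => c ≤ y ∧ y ≤ d)).card := by
  obtain ⟨P, hP⟩ : ∃ P : Finset ℤ, P = R \ N := ⟨_, rfl⟩
  have hPc : R.card ≤ P.card + N.card := by
    rw [hP]
    exact Finset.card_le_card_sdiff_add_card
  have hP0 : 0 < P.card := by omega
  obtain ⟨f, hf⟩ : ∃ f : ℤ → ℕ, f = fun x => (N.filter (fun y => y < x)).card := ⟨_, rfl⟩
  have hmaps : ∀ x ∈ P, f x ∈ range (N.card + 1) := by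
    intro x _
    rw [hf, Finset.mem_range]
    exact Nat.lt_succ_of_le (Finset.card_filter_le _ _)
  have hsum : P.card = ∑ j ∈ range (N.card + 1), (P.filter (fun x => f x = j)).card :=
    Finset.card_eq_sum_card_fiberwise hmaps
  obtain ⟨j, hj, hcj⟩ : ∃ j ∈ range (N.card + 1),
      P.card ≤ (N.card + 1) * (P.filter (fun x => f x = j)).card := by
    by_contra hcon
    push Not at hcon
    have h1 : ∑ j ∈ range (N.card + 1), (N.card + 1) * (P.filter (fun x => f x = j)).card <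
        ∑ _j ∈ range (N.card + 1), P.card :=
      Finset.sum_lt_sum_of_nonempty ⟨0, by simp⟩ hcon
    rw [← Finset.mul_sum, ← hsum, Finset.sum_const, Finset.card_range, smul_eq_mul] at h1
    exact lt_irrefl _ h1
  obtain ⟨C, hC⟩ : ∃ C : Finset ℤ, C = P.filter (fun x => f x = j) := ⟨_, rfl⟩
  rw [← hC] at hcj
  have hCne : C.Nonempty := by
    rw [← Finset.card_pos]
    by_contra h0
    have : C.card = 0 := by omega
    rw [this, mul_zero] at hcj
    omega
  have hCP : ∀ x ∈ C, x ∈ R ∧ x ∉ N ∧ f x = j := by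
    intro x hx
    rw [hC, Finset.mem_filter, hP, Finset.mem_sdiff] at hx
    exact ⟨hx.1.1, hx.1.2, hx.2⟩
  have hc := hCP _ (C.min'_mem hCne)
  have hd := hCP _ (C.max'_mem hCne)
  refine ⟨C.min' hCne, hc.1, C.max' hCne, hd.1, C.min'_le_max' hCne, ?_, ?_⟩
  · rintro y hyN _ ⟨h1, h2⟩
    have h3 : C.min' hCne ≠ y := fun e => hc.2.1 (e ▸ hyN)
    have h4 : y ≠ C.max' hCne := fun e => hd.2.1 (e ▸ hyN)
    have h5 : C.min' hCne < y := lt_of_le_of_ne h1 h3
    have h6 : y < C.max' hCne := lt_of_le_of_ne h2 h4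
    have h7 : f (C.min' hCne) < f (C.max' hCne) := by
      rw [hf]
      apply Finset.card_lt_card
      rw [Finset.ssubset_iff_of_subset]
      · refine ⟨y, ?_, ?_⟩
        · rw [Finset.mem_filter]
          exact ⟨hyN, h6⟩
        · rw [Finset.mem_filter]
          rintro ⟨_, h8⟩
          omega
      · intro z hz
        rw [Finset.mem_filter] at hz ⊢
        exact ⟨hz.1, by omega⟩
    rw [hc.2.2, hd.2.2] at h7
    exact lt_irrefl _ h7
  · have h1 : C ⊆ R.filter (fun y => C.min' hCne ≤ y ∧ y ≤ C.max' hCne) := by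
      intro x hx
      rw [Finset.mem_filter]
      exact ⟨(hCP x hx).1, C.min'_le x hx, C.le_max' x hx⟩
    have h2 := Finset.card_le_card h1
    have h3 := Nat.mul_le_mul_left (N.card + 1) h2
    omega

end ET
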