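import Mathlib

set_option autoImplicit false

/-! EMT-BlockB: weighted averaging.

avg: `L` a finite set, `x, y, z : ℤ → ℝ` nonneg, `∑ x ≥ A`, `∑ y ≤ B`, `∑ z ≤ C`, `A > 0`, weights `u, w ≥ 0` with `u B + w C ≤ A / 2`, `L` has at most `n` elements, `n > 0`: there is `l ∈ L` with
  `A / (2 n) ≤ x l`, `u y l ≤ x l`, `w z l ≤ x l`.  Proof: `∑ (x - u y - w z) ≥ A / 2`, so some `l` has `x l - u y l - w z l ≥ A / (2 n)`, since otherwise the sum is `< A / 2` (`#L ≤ n`; L nonempty). -/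

namespace ET
open Finset
open scoped Classical

theorem avg (L : Finset ℤ) (x y z : ℤ → ℝ) (hx : ∀ l ∈ L, 0 ≤ x l) (hy : ∀ l ∈ L, 0 ≤ y l) (hz : ∀ l ∈ L, 0 ≤ z l)
    (A B C u w n : ℝ) (hA : 0 < A) (h1 : A ≤ ∑ l ∈ L, x l) (h2 : ∑ l ∈ L, y l ≤ B) (h3 : ∑ l ∈ L, z l ≤ C)
    (hu : 0 ≤ u) (hw : 0 ≤ w) (hn : 0 < n) (hL : (L.card : ℝ) ≤ n) (h : u * B + w * C ≤ A / 2) :
    ∃ l ∈ L, A / (2 * n) ≤ x l ∧ u * y l ≤ x l ∧ w * z l ≤ x l := by
  have hne : L.Nonempty := by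
    rw [Finset.nonempty_iff_ne_empty]
    rintro rfl
    simp only [Finset.sum_empty] at h1
    linarith
  have key : ∃ l ∈ L, A / (2 * n) ≤ x l - u * y l - w * z l := by
    by_contra hcon
    push Not at hcon
    have hlt : ∑ l ∈ L, (x l - u * y l - w * z l) < ∑ _l ∈ L, A / (2 * n) :=
      Finset.sum_lt_sum_of_nonempty hne hcon
    rw [Finset.sum_const, nsmul_eq_mul] at hlt
    have hsum : ∑ l ∈ L, (x l - u * y l - w * z l) =
        ∑ l ∈ L, x l - u * ∑ l ∈ L, y l - w * ∑ l ∈ L, z l := by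
      rw [Finset.sum_sub_distrib, Finset.sum_sub_distrib, Finset.mul_sum, Finset.mul_sum]
    have hpos : 0 < A / (2 * n) := by positivity
    have hc : (L.card : ℝ) * (A / (2 * n)) ≤ n * (A / (2 * n)) :=
      mul_le_mul_of_nonneg_right hL hpos.le
    have he : n * (A / (2 * n)) = A / 2 := by
      field_simp
    have hu' : u * ∑ l ∈ L, y l ≤ u * B := mul_le_mul_of_nonneg_left h2 hu
    have hw' : w * ∑ l ∈ L, z l ≤ w * C := mul_le_mul_of_nonneg_left h3 hw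
    rw [hsum] at hlt
    linarith
  obtain ⟨l, hl, hk⟩ := key
  have hpos : 0 < A / (2 * n) := by positivity
  have hy' : 0 ≤ u * y l := mul_nonneg hu (hy l hl)
  have hz' : 0 ≤ w * z l := mul_nonneg hw (hz l hl)
  exact ⟨l, hl, by linarith, by linarith, by linarith⟩

end ET
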