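import Pool.Agent.Lib.MP_4beb96_co.EMT.ClsDefs

set_option autoImplicit false

/-! EMT-Cls1: first facts on a class `D = D k b l i` at the pivot `l`.  Always use `D_good`: `Good l r i w` with `w = hi l r`, `i < w`.
In particular `l < i`, and `ccw l i r` (`¬ U l i r`, `ccw_iff1`), for every `r ∈ D`.

D1: `r, r' ∈ D`, `ccw l r r'` → `r' < r`.  Otherwise `r < r'`, `¬ U l r r'` (`ccw_iff1`), `r ≠ i` (`ccw l i r`), V-shape of `l r'`: `ccw l r i`, contradiction to `ccw l i r`.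
D2: `r ∈ D`, `l < y`, `ccw l i y`, `ccw l y r` → `r < y`.  Otherwise `y < r` (`y ≠ r`), `¬ U l y r`, `y ≠ i`, V-shape: `ccw l y i`, contradiction.
W facts: for `y ∈ W`: `ccw l i y` (there is `r ∈ Far` with `r = y` or `ccw l r y`; `ccw l i r`; `trL`), so `y ≠ i`.
W_far: `y ∈ W`, `r ∈ D`, `ccw l y r` → `r < y` (D2).
W_mem_D: `y ∈ W`, `y ∈ D` → `y ∈ Far`: there is `r ∈ Far`, `r = y` or `ccw l y r`; D1: `r < y`; so `k ≤ r - l ≤ y - l`.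
W_conv: `y, y' ∈ W`, `l < z`, `z ≤ b`, `ccw l y z`, `ccw l z y'` → `z ∈ W` (`trL`).
W_ge: `y ∈ W` → `k ≤ y - l` (there is `r ∈ Far` with `r = y`, or `ccw l y r` and then `r < y`). -/

namespace ET
open Finset
open scoped Classical

namespace Sig
variable {σ : Sig}

theorem D_ccw {k b l i r : ℤ} (h : r ∈ σ.D k b l i) : σ.ccw l i r ∧ l < i := by
  obtain ⟨⟨h1, h2, _, _, h5, _⟩, _⟩ := D_good h
  exact ⟨(ccw_iff1 h1 h2).2 h5, h1⟩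

theorem D2 {k b l i r y : ℤ} (h : r ∈ σ.D k b l i) (hy : l < y) (h1 : σ.ccw l i y) (h2 : σ.ccw l y r) : r < y := by
  by_contra hlt
  have hyr : y < r := lt_of_le_of_ne (not_lt.1 hlt) (ne23 h2)
  obtain ⟨⟨_, _, _, _, _, _, h7, _⟩, _⟩ := D_good h
  exact asymm' h1 (h7 y hy hyr (ne23 h1).symm ((ccw_iff1 hy hyr).1 h2)).1

theorem D_pos {k b l i r : ℤ} (h : r ∈ σ.D k b l i) : l < r ∧ r ≤ b := (mem_D.1 h).1

theorem D1 {k b l i r r' : ℤ} (h : r ∈ σ.D k b l i) (h' : r' ∈ σ.D k b l i) (hc : σ.ccw l r r') : r' < r :=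
  D2 h' (D_pos h).1 (D_ccw h).1 hc

theorem W_ccw {k b l i y : ℤ} (h : y ∈ σ.W k b l i) : σ.ccw l i y ∧ l < y ∧ y ≤ b := by
  obtain ⟨h1, ⟨r, hr, hry⟩, _⟩ := mem_W.1 h
  refine ⟨?_, h1⟩
  have hrD := (mem_Far.1 hr).1
  rcases hry with rfl | hc
  · exact (D_ccw hrD).1
  · exact trL (D_ccw hrD).2 (D_pos hrD).1 h1.1 (D_ccw hrD).1 hc

theorem W_far {k b l i y r : ℤ} (h : y ∈ σ.W k b l i) (hr : r ∈ σ.D k b l i) (hc : σ.ccw l y r) : r < y :=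
  D2 hr (W_ccw h).2.1 (W_ccw h).1 hc

theorem W_ge {k b l i y : ℤ} (h : y ∈ σ.W k b l i) : k ≤ y - l := by
  obtain ⟨_, _, ⟨r, hr, hry⟩⟩ := mem_W.1 h
  have hr' := mem_Far.1 hr
  rcases hry with rfl | hc
  · exact hr'.2
  · have := W_far h hr'.1 hc
    linarith [hr'.2]

theorem W_mem_D {k b l i y : ℤ} (h : y ∈ σ.W k b l i) (hy : y ∈ σ.D k b l i) : y ∈ σ.Far k b l i :=
  mem_Far.2 ⟨hy, W_ge h⟩

theorem W_conv {k b l i y y' z : ℤ} (h : y ∈ σ.W k b l i) (h' : y' ∈ σ.W k b l i) (hz : l < z) (hzb : z ≤ b)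
    (h1 : σ.ccw l y z) (h2 : σ.ccw l z y') : z ∈ σ.W k b l i := by
  obtain ⟨hy, ⟨r, hr, hry⟩, _⟩ := mem_W.1 h
  obtain ⟨hy', _, ⟨r', hr', hry'⟩⟩ := mem_W.1 h'
  refine mem_W.2 ⟨⟨hz, hzb⟩, ⟨r, hr, Or.inr ?_⟩, r', hr', Or.inr ?_⟩
  · rcases hry with rfl | hc
    · exact h1
    · exact trL (D_pos (mem_Far.1 hr).1).1 hy.1 hz hc h1
  · rcases hry' with rfl | hc
    · exact h2
    · exact trL hz hy'.1 (D_pos (mem_Far.1 hr').1).1 h2 hc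

end Sig
end ET
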