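import Pool.Agent.Lib.MP_4beb96_co.EMT.Cls2A

set_option autoImplicit false

/-! EMT-Cls2: non-members in the cone are improper partners of `l`; the cones of different classes are disjoint.

D3 (`y ∈ W`, `y ∉ D` → neither `PL k l y` nor `σ.flip.PL k l y`).  `l < y ≤ b`, `ccw l i y` (`W_ccw`).  Since `y ∉ Far`, there is `r1 ∈ Far` with `ccw l r1 y` and `r2 ∈ Far` with `ccw l y r2`.  `r2 < y` (D2), `k ≤ r2 - l`.
 Suppose `PL k l y` or `σ.flip.PL k l y`; in both cases `good l y`; let `m = lo l y`, `w = hi l y`, `Good l y m w`.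
 (a) `i < y` (`i < hi l r2 < r2 < y`) and `¬ U l i y`, so `m = i` or `ccw l i m` (V-shape: for `z = i ≠ m`: `ccw l i m`).
 (b) `r2 < y`, `ccw l y r2`, i.e. `U l r2 y` (`ccw_iff4`): so `w = r2` or `ccw l w r2` (V-shape).
 Case `σ.flip.PL k l y`: `lo_flip, hi_flip`: `w < m`, `w - l < k`.  So `w < l + k ≤ r2`, so `w ≠ r2` and `ccw l w r2`.  Also `ccw l y w` (`U l w y`), so `ccw l i w` (`trL`).  D2 for `r2` and `w`: `r2 < w`; contradiction.
 Case `PL k l y`: `m < w`, `m - l < k`, so `m < r2`.  If `m = i`, then `y ∈ D` (`mem_D`), contradiction.  Otherwise `ccw l i m`; `ccw l m y` (`¬ U l m y`), `ccw l y r2`, so `ccw l m r2` (`trL`), and D2 for `r2` gives `r2 < m`; contradiction.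

W_disj: `i ≠ i'` → `W k b l i` and `W k b l i'` are disjoint.  Let `y` be in both.  There are `r1 ∈ Far i`, `r1 = y ∨ ccw l r1 y` and `r1' ∈ Far i'`, `r1' = y ∨ ccw l r1' y`.  `r1 ≠ r1'` (as `lo l r1 = i ≠ i' = lo l r1'`).
  If `ccw l r1 r1'`: then `r1' ∈ W i` (`r1` before, and after it: `y`-side member: there is `r2 ∈ Far i` with `r2 = y` or `ccw l y r2`, so `r1' = r2`
  or `ccw l r1' r2`), and `r1' ∉ D i` (`lo l r1' = i'`), so D3: `¬ PL k l r1'`, contradiction to `r1' ∈ D i'`.  Symmetric if `ccw l r1' r1` (`total'`). -/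

namespace ET
open Finset
open scoped Classical

namespace Sig
variable {σ : Sig}

theorem W_disj_aux {k b l i i' y r1 r1' : ℤ} (hi : i ≠ i') (hr1 : r1 ∈ σ.Far k b l i) (hr1' : r1' ∈ σ.Far k b l i')
    (h1' : r1' = y ∨ σ.ccw l r1' y) (hy : ∃ r ∈ σ.Far k b l i, r = y ∨ σ.ccw l y r) (hly : l < y)
    (hc : σ.ccw l r1 r1') : False := by
  have hD' := (mem_Far.1 hr1').1
  have hD'' := mem_D.1 hD'
  have hD1 := mem_D.1 (mem_Far.1 hr1).1
  obtain ⟨r2, hr2, h2⟩ := hy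
  have hD2 := mem_D.1 (mem_Far.1 hr2).1
  have hW : r1' ∈ σ.W k b l i := by
    refine mem_W.2 ⟨hD''.1, ⟨r1, hr1, Or.inr hc⟩, r2, hr2, ?_⟩
    rcases h1' with h1' | h1'
    · subst h1'; exact h2
    · rcases h2 with h2 | h2
      · subst h2; exact Or.inr h1'
      · exact Or.inr (trL hD''.1.1 hly hD2.1.1 h1' h2)
  have hnD : r1' ∉ σ.D k b l i := by
    intro h
    exact hi ((mem_D.1 h).2.2.symm.trans hD''.2.2)
  exact (D3 hW hnD).1 hD''.2.1

theorem W_disj {k b l i i' : ℤ} (hi : i ≠ i') : Disjoint (σ.W k b l i) (σ.W k b l i') := by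
  rw [Finset.disjoint_left]
  intro y hy hy'
  obtain ⟨⟨hly, _⟩, ⟨r1, hr1, h1⟩, h2⟩ := mem_W.1 hy
  obtain ⟨_, ⟨r1', hr1', h1'⟩, h2'⟩ := mem_W.1 hy'
  have e1 := mem_D.1 (mem_Far.1 hr1).1
  have e1' := mem_D.1 (mem_Far.1 hr1').1
  have hne : r1 ≠ r1' := by
    rintro rfl
    exact hi (e1.2.2.symm.trans e1'.2.2)
  rcases total' (σ := σ) (a := l) (b := r1) (c := r1') (by omega) (by omega) hne with h | h
  · exact W_disj_aux hi hr1 hr1' h1' h2 hly h
  · exact W_disj_aux hi.symm hr1' hr1 h1 h2' hly h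

end Sig
end ET
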