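import Pool.Agent.Lib.MP_4beb96_co.EMT.Cls1

set_option autoImplicit false

/-! EMT-Cls2A: non-members in the cone are improper partners of `l`.

D3 (`y ∈ W`, `y ∉ D` → neither `PL k l y` nor `σ.flip.PL k l y`).  `l < y ≤ b`, `ccw l i y` (`W_ccw`).  Since `y ∉ Far`, there is `r1 ∈ Far` with `ccw l r1 y` and `r2 ∈ Far` with `ccw l y r2`.  `r2 < y` (D2), `k ≤ r2 - l`.
 Suppose `PL k l y` or `σ.flip.PL k l y`; in both cases `good l y`; let `m = lo l y`, `w = hi l y`, `Good l y m w`.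
 (a) `i < y` (`i < hi l r2 < r2 < y`) and `¬ U l i y`, so `m = i` or `ccw l i m` (V-shape: for `z = i ≠ m`: `ccw l i m`).
 (b) `r2 < y`, `ccw l y r2`, i.e. `U l r2 y` (`ccw_iff4`): so `w = r2` or `ccw l w r2` (V-shape).
 Case `σ.flip.PL k l y`: `lo_flip, hi_flip`: `w < m`, `w - l < k`.  So `w < l + k ≤ r2`, so `w ≠ r2` and `ccw l w r2`.  Also `ccw l y w` (`U l w y`), so `ccw l i w` (`trL`).  D2 for `r2` and `w`: `r2 < w`; contradiction.
 Case `PL k l y`: `m < w`, `m - l < k`, so `m < r2`.  If `m = i`, then `y ∈ D` (`mem_D`), contradiction.  Otherwise `ccw l i m`; `ccw l m y` (`¬ U l m y`), `ccw l y r2`, so `ccw l m r2` (`trL`), and D2 for `r2` gives `r2 < m`; contradiction. -/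

namespace ET
open Finset
open scoped Classical

namespace Sig
variable {σ : Sig}

theorem D3 {k b l i y : ℤ} (h : y ∈ σ.W k b l i) (hy : y ∉ σ.D k b l i) : ¬ σ.PL k l y ∧ ¬ σ.flip.PL k l y := by
  obtain ⟨hiy, hly, hyb⟩ := W_ccw h
  obtain ⟨_, _, ⟨r2, hr2, hc2⟩⟩ := mem_W.1 h
  have hr2D := (mem_Far.1 hr2).1
  have hr2k := (mem_Far.1 hr2).2
  have hc : σ.ccw l y r2 := by
    rcases hc2 with rfl | hc
    · exact absurd hr2D hy
    · exact hc
  have hr2y : r2 < y := W_far h hr2D hc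
  obtain ⟨⟨h1, h2, h3, h4, h5, h6, h7, h8⟩, h9, h10, h11⟩ := D_good hr2D
  have hU2 : σ.U l r2 y := (ccw_iff4 (by omega) hr2y).1 hc
  have hUi : ¬ σ.U l i y := (ccw_iff1 h1 (by omega)).1 hiy
  constructor
  · intro hP
    obtain ⟨hg, hlt, hk1, hk2⟩ := hP
    obtain ⟨g1, g2, g3, g4, g5, g6, g7, g8⟩ := Good_choose hg
    by_cases hm : σ.lo l y = i
    · exact hy (mem_D.2 ⟨⟨hly, hyb⟩, ⟨hg, hlt, hk1, hk2⟩, hm⟩)
    · have c1 : σ.ccw l i (σ.lo l y) := (g7 i h1 (by omega) (fun e => hm e.symm) hUi).1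
      have c2 : σ.ccw l (σ.lo l y) y := (ccw_iff1 g1 g2).2 g5
      have c3 : σ.ccw l (σ.lo l y) r2 := trL g1 hly (by omega) c2 hc
      have := D2 hr2D g1 c1 c3
      omega
  · intro hP
    obtain ⟨hg, hlt, hk1, hk2⟩ := hP
    have hg' : σ.good l y := good_flip.1 hg
    rw [lo_flip hg', hi_flip hg'] at hlt
    rw [lo_flip hg'] at hk1
    obtain ⟨g1, g2, g3, g4, g5, g6, g7, g8⟩ := Good_choose hg'
    have c1 : σ.ccw l (σ.hi l y) r2 := (g8 r2 (by omega) hr2y (by omega) hU2).1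
    have c2 : σ.ccw l y (σ.hi l y) := (ccw_iff4 g3 g4).2 g6
    have c3 : σ.ccw l i (σ.hi l y) := trL h1 hly g3 hiy c2
    have := D2 hr2D g3 c3 c1
    omega

end Sig
end ET
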