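import Pool.Agent.Lib.MP_4beb96_co.EMT.Cls1

set_option autoImplicit false

/-! EMT-Cls3: facing edges in the cone `W = W k b l i`; `M`, `M'`.

FarM (`#(Far \ M) ≤ 1 + #Sc`).  Let `r ∈ Far \ M`, and suppose some `z ∈ W` has `ccw l z r` (at most one `r ∈ Far` has no such `z`: two such `r, r'` would be
 comparable, `Far ⊆ W`).  `Pre_exists` (for `W`, `l`, `r`) gives `a` with `Pre W l r a`.  Claim `SE b l a r`:
  * `Emp l a r`: `z` inside: `ccw l a z`, `ccw a r z`, `ccw r l z` (so `ccw l z r`); `l < z` and `z ≤ b` by `Ins_between`; `z ∈ W` (`W_conv`), so `ccw r a z` (`Pre`), contradiction.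
  * earlier near point `i`: `l < i ≤ b`, `ccw l i a` (`W_ccw`), and `ccw a r i`: `Pre_lo` for `Good l r i w` and `z = a` (`a ≠ i`, `ccw l a r`): `ccw r i a`, i.e. `ccw a r i`.
  * later near point: since `r ∉ M`, `FE W l a r` fails: there is `z ∈ W`, `z ≠ a, r`, not `ccw r a z`, so `ccw a r z` (`total`).  If `ccw l z r` this contradicts `Pre`; so `ccw l r z`.
 So `r ↦ (a, r)` is an injection of `(Far \ M)` minus at most one element into `Sc`.
MM' (`#(M \ M') ≤ 1`): two different elements `r, r'` of `M \ M'` are comparable by `<_l`, both in `Far`; the smaller one is in `M'`.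
hiW (`r ∈ M'`, `w = hi l r`): `w ∈ W`, `FE W l r w`, `w < r`.  There is `r' ∈ Far` with `ccw l r r'`; D1: `r' < r`; so `U l r' r` (`ccw_iff4`), hence `r' = w` or (V-shape) `ccw l w r'`.
  `ccw l r w` (`U l w r`).  So `w ∈ W` (`W_conv`, or `w = r' ∈ Far`).  `w < r` from `Good`.
  FE: let `z ∈ W`, `z ≠ r, w`.  If `ccw l r z`: `Suf_hi`: `ccw w r z`.  If `ccw l z r`: let `a` with `FE W l a r`: so `ccw r a w` (`w ∈ W`, `w ≠ r`; `w ≠ a` as `ccw l a r`, `ccw l r w`).
   `z = a`: `ccw r a w` gives `ccw w r a`.  `z ≠ a`: `ccw r a z`.  Compare `z` and `a` at `l`: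
   `ccw l z a`: order `z, a, r, w` at `l`; `L14` (`a` near `z r`: `ccw z r a`, which is `ccw r a z` cyclically; `r` near `a w`: `ccw a w r`, which is `ccw r a w`) gives `ccw z w a`; then `L24` (`a` near `z w`: `ccw z w a`, `r` near `a w`: `ccw a w r`) gives
      `r` near `z w`: `ccw z w r`, i.e. `ccw w r z`.
   `ccw l a z`: order `a, z, r, w`; `ccw r a z` is `ccw a z r` (z far from `a r`).  Claim `ccw z w r` (r near `z w`), cyclically `ccw w r z`.  Otherwise `ccw z r w` (`r` far from `z w`), and with `ccw a z r`, `F14`: `ccw a z w`, and `F24`: from `ccw a z w`, `ccw z r w`: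
      `ccw a r w`, contradiction to `ccw r a w`.
extreme (`z ∈ M`; `q1, q2 ∈ W`, `ccw l q1 z`, `ccw l z q2` → `ccw q1 q2 z`).  Let `FE W l a z`.  `q2 ≠ a, z`: `ccw z a q2`.  If `q1 = a`: `ccw z a q2` is `ccw a q2 z`.  Otherwise `ccw z a q1`.
   `ccw l q1 a`: order `q1, a, z, q2`: `a` near `q1 z` (`ccw q1 z a`), `z` near `a q2` (`ccw a q2 z`): `L14`: `ccw q1 q2 a`, `L24`: `ccw q1 q2 z`.
   `ccw l a q1`: order `a, q1, z, q2`: `q1` far from `a z`: `ccw a q1 z`.  If not `ccw q1 q2 z` then `ccw q1 z q2`; `F14`: `ccw a q1 q2`; `F24`: `ccw a z q2`; contradiction to `ccw z a q2`. -/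

namespace ET
open Finset
open scoped Classical

namespace Sig
variable {σ : Sig}

theorem hiW {k b l i r : ℤ} (h : r ∈ σ.M' k b l i) :
    σ.hi l r ∈ σ.W k b l i ∧ σ.FE (σ.W k b l i) l r (σ.hi l r) ∧ σ.hi l r < r := by
  obtain ⟨hM, r', hr', hrr'⟩ := mem_M'.1 h
  obtain ⟨hFar, a, haW, hrW, har, hFE⟩ := mem_M.1 hM
  have hD := (mem_Far.1 hFar).1
  have hD' := (mem_Far.1 hr').1
  obtain ⟨hGood, -, -, -⟩ := D_good hD
  obtain ⟨w, hw⟩ : ∃ w, w = σ.hi l r := ⟨_, rfl⟩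
  rw [← hw] at hGood ⊢
  have hG := hGood
  obtain ⟨-, -, hlw, hwr, -, hUw, -, hV⟩ := hG
  have hlr := (W_ccw hrW).2.1
  have hrb := (W_ccw hrW).2.2
  have hla := (W_ccw haW).2.1
  have hlrw : σ.ccw l r w := (ccw_iff4 hlw hwr).2 hUw
  have hr'W := Far_sub_W hr'
  have hlr' := (W_ccw hr'W).2.1
  have hr'r : r' < r := D1 hD hD' hrr'
  have hU' : σ.U l r' r := (ccw_iff4 hlr' hr'r).1 hrr'
  have hwW : w ∈ σ.W k b l i := by
    by_cases h1 : r' = w
    · rw [← h1]
      exact hr'W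
    · exact W_conv hrW hr'W hlw (by omega) hlrw (hV r' hlr' hr'r h1 hU').1
  refine ⟨hwW, ⟨hrW, hwW, hlrw, ?_⟩, hwr⟩
  intro z hzW hzr hzw
  have hlz := (W_ccw hzW).2.1
  rcases total' (σ := σ) (a := l) (b := z) (c := r) (by omega) (by omega) hzr with h1 | h1
  · have hwa : w ≠ a := by
      rintro rfl
      exact asymm' har hlrw
    have hraw : σ.ccw r a w := hFE w hwW hwa (by omega)
    by_cases hza : z = a
    · rw [hza]
      exact cyc' hraw
    · have hraz : σ.ccw r a z := hFE z hzW hza hzr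
      rcases total' (σ := σ) (a := l) (b := z) (c := a) (by omega) (by omega) hza with h2 | h2
      · have h3 : σ.ccw z w a := L14 hlz hla hlr hlw h2 har hlrw (cyc' hraz) (cyc hraw)
        have h4 : σ.ccw z w r := L24 hlz hla hlr hlw h2 har hlrw h3 (cyc hraw)
        exact cyc h4
      · by_contra hcon
        have h3 : σ.ccw r w z := (not_ccw (by omega) (Ne.symm hzw) (Ne.symm hzr)).1 hcon
        have h4 : σ.ccw z r w := cyc' h3
        have h5 : σ.ccw a z w := F14 hla hlz hlr hlw h2 h1 hlrw (cyc hraz) h4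
        have h6 : σ.ccw a r w := F24 hla hlz hlr hlw h2 h1 hlrw h5 h4
        exact asymm hraw h6
  · exact Suf_hi hGood hlz hzw h1

theorem extreme {k b l i z q1 q2 : ℤ} (h : z ∈ σ.M k b l i) (h1 : q1 ∈ σ.W k b l i) (h2 : q2 ∈ σ.W k b l i)
    (hc1 : σ.ccw l q1 z) (hc2 : σ.ccw l z q2) : σ.ccw q1 q2 z := by
  obtain ⟨-, a, haW, hzW, haz, hFE⟩ := mem_M.1 h
  have hlz := (W_ccw hzW).2.1
  have hla := (W_ccw haW).2.1
  have hl1 := (W_ccw h1).2.1
  have hl2 := (W_ccw h2).2.1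
  have h2a : q2 ≠ a := by
    rintro rfl
    exact asymm' haz hc2
  have h2z : q2 ≠ z := (ne23 hc2).symm
  have h1z : q1 ≠ z := ne23 hc1
  have h12 : q1 ≠ q2 := by
    rintro rfl
    exact asymm' hc1 hc2
  have hza2 : σ.ccw z a q2 := hFE q2 h2 h2a h2z
  by_cases h1a : q1 = a
  · rw [h1a]
    exact cyc hza2
  · have hza1 : σ.ccw z a q1 := hFE q1 h1 h1a h1z
    rcases total' (σ := σ) (a := l) (b := q1) (c := a) (by omega) (by omega) h1a with h3 | h3
    · have h4 : σ.ccw q1 q2 a := L14 hl1 hla hlz hl2 h3 haz hc2 (cyc' hza1) (cyc hza2)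
      exact L24 hl1 hla hlz hl2 h3 haz hc2 h4 (cyc hza2)
    · by_contra hcon
      have h4 : σ.ccw q1 z q2 := (not_ccw' h12 h1z h2z).1 hcon
      have h5 : σ.ccw a q1 q2 := F14 hla hl1 hlz hl2 h3 hc1 hc2 (cyc hza1) h4
      have h6 : σ.ccw a z q2 := F24 hla hl1 hlz hl2 h3 hc1 hc2 h5 h4
      exact asymm hza2 h6

end Sig
end ET
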