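import Pool.Agent.Lib.MP_4beb96_co.EMT.Cls1

set_option autoImplicit false

/-! EMT-Cls3A: facing edges in the cone `W = W k b l i`; `M`, `M'`.

FarM (`#(Far \ M) ≤ 1 + #Sc`).  Let `r ∈ Far \ M`, and suppose some `z ∈ W` has `ccw l z r` (at most one `r ∈ Far` has no such `z`: two such `r, r'` would be
 comparable, `Far ⊆ W`).  `Pre_exists` (for `W`, `l`, `r`) gives `a` with `Pre W l r a`.  Claim `SE b l a r`:
  * `Emp l a r`: `z` inside: `ccw l a z`, `ccw a r z`, `ccw r l z` (so `ccw l z r`); `l < z` and `z ≤ b` by `Ins_between`; `z ∈ W` (`W_conv`), so `ccw r a z` (`Pre`), contradiction.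
  * earlier near point `i`: `l < i ≤ b`, `ccw l i a` (`W_ccw`), and `ccw a r i`: `Pre_lo` for `Good l r i w` and `z = a` (`a ≠ i`, `ccw l a r`): `ccw r i a`, i.e. `ccw a r i`.
  * later near point: since `r ∉ M`, `FE W l a r` fails: there is `z ∈ W`, `z ≠ a, r`, not `ccw r a z`, so `ccw a r z` (`total`).  If `ccw l z r` this contradicts `Pre`; so `ccw l r z`.
 So `r ↦ (a, r)` is an injection of `(Far \ M)` minus at most one element into `Sc`.
MM' (`#(M \ M') ≤ 1`): two different elements `r, r'` of `M \ M'` are comparable by `<_l`, both in `Far`; the smaller one is in `M'`.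
hiW (`r ∈ M'`, `w = hi l r`): `w ∈ W`, `FE W l r w`, `w < r`.  There is `r' ∈ Far` with `ccw l r r'`; D1: `r' < r`; so `U l r' r` (`ccw_iff4`), hence `r' = w` or (V-shape) `ccw l w r'`.
  `ccw l r w` (`U l w r`).  So `w ∈ W` (`W_conv`, or `w = r' ∈ Far`).  `w < r` from `Good`.
  FE: let `z ∈ W`, `z ≠ r, w`.  If `ccw l r z`: `Suf_hi`: `ccw w r z`.  If `ccw l z r`: let `a` with `FE W l a r`: so `ccw r a w` (`w ∈ W`, `w ≠ r`; `w ≠ a` as `ccw l a r`, `ccw l r w`).
   `z = a`: `ccw r a w` gives `ccw w r a`.  `z ≠ a`: `ccw r a z`.  Compare `z` and `a` at `l`: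
   `ccw l z a`: order `z, a, r, w` at `l`; `L14` (`a` near `z r`: `ccw z r a`, which is `ccw r a z` cyclically; `r` near `a w`: `ccw a w r`, which is `ccw r a w`) gives `ccw z w a`; then `L24` (`a` near `z w`: `ccw z w a`, `r` near `a w`: `ccw a w r`) gives
      `r` near `z w`: `ccw z w r`, i.e. `ccw w r z`.
   `ccw l a z`: order `a, z, r, w`; `ccw r a z` is `ccw a z r` (z far from `a r`).  Claim `ccw z w r` (r near `z w`), cyclically `ccw w r z`.  Otherwise `ccw z r w` (`r` far from `z w`), and with `ccw a z r`, `F14`: `ccw a z w`, and `F24`: from `ccw a z w`, `ccw z r w`: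
      `ccw a r w`, contradiction to `ccw r a w`.
extreme (`z ∈ M`; `q1, q2 ∈ W`, `ccw l q1 z`, `ccw l z q2` → `ccw q1 q2 z`).  Let `FE W l a z`.  `q2 ≠ a, z`: `ccw z a q2`.  If `q1 = a`: `ccw z a q2` is `ccw a q2 z`.  Otherwise `ccw z a q1`.
   `ccw l q1 a`: order `q1, a, z, q2`: `a` near `q1 z` (`ccw q1 z a`), `z` near `a q2` (`ccw a q2 z`): `L14`: `ccw q1 q2 a`, `L24`: `ccw q1 q2 z`.
   `ccw l a q1`: order `a, q1, z, q2`: `q1` far from `a z`: `ccw a q1 z`.  If not `ccw q1 q2 z` then `ccw q1 z q2`; `F14`: `ccw a q1 q2`; `F24`: `ccw a z q2`; contradiction to `ccw z a q2`. -/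

namespace ET
open Finset
open scoped Classical

namespace Sig
variable {σ : Sig}

private theorem FarM_cmp {k b l i r r' : ℤ} (h : r ∈ σ.Far k b l i) (h' : r' ∈ σ.Far k b l i) (hne : r ≠ r') :
    σ.ccw l r r' ∨ σ.ccw l r' r := by
  have h1 : l < r := (mem_D.1 (mem_Far.1 h).1).1.1
  have h2 : l < r' := (mem_D.1 (mem_Far.1 h').1).1.1
  exact total' (by omega) (by omega) hne

private theorem FarM_SE {k b l i r a : ℤ} (hr : r ∈ σ.Far k b l i) (hM : r ∉ σ.M k b l i)
    (ha : σ.Pre (σ.W k b l i) l r a) : σ.SE b l a r := by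
  obtain ⟨haW, hc, hall⟩ := ha
  have hrD := (mem_Far.1 hr).1
  have hrW := Far_sub_W hr
  obtain ⟨hg, hiw, hil, hrw⟩ := D_good hrD
  obtain ⟨ha1, ha2, ha3⟩ := W_ccw haW
  obtain ⟨hr1, hr2, hr3⟩ := W_ccw hrW
  obtain ⟨_, hli⟩ := D_ccw hrD
  refine ⟨ha2, hr2, ha3, hr3, hc, ?_, ?_, ?_⟩
  · rw [Emp_iff hc]
    rintro z ⟨h1, h2, h3⟩
    have hins : σ.Ins l a r z := Or.inl ⟨h1, h2, h3⟩
    have hb := Ins_between hins
    have hlz : l < z := by omega
    have hzb : z ≤ b := by omega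
    have h4 : σ.ccw l z r := cyc h3
    have hzW : z ∈ σ.W k b l i := W_conv haW hrW hlz hzb h1 h4
    have h5 := hall z hzW (ne23 h1).symm h4
    exact asymm h2 h5
  · refine ⟨i, hli, ?_, ha1, ?_⟩
    · have := hg.2.1
      omega
    · exact cyc' (Pre_lo hg ha2 (ne23 ha1).symm hc)
  · have hnFE : ¬ σ.FE (σ.W k b l i) l a r := fun h => hM (mem_M.2 ⟨hr, a, h⟩)
    unfold FE at hnFE
    push Not at hnFE
    obtain ⟨z, hzW, hza, hzr, hz⟩ := hnFE haW hrW hc
    obtain ⟨hz1, hz2, hz3⟩ := W_ccw hzW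
    rw [not_ccw (ne23 hc).symm hzr.symm hza.symm] at hz
    refine ⟨z, hz2, hz3, ?_, hz⟩
    rcases total' (σ := σ) (a := l) (b := r) (c := z) (by omega) (by omega) hzr.symm with h|h
    · exact h
    · exact absurd (hall z hzW hza h) (asymm hz)

theorem FarM {k b l i : ℤ} : (σ.Far k b l i \ σ.M k b l i).card ≤ 1 + (σ.Sc k b l i).card := by
  set B := σ.Far k b l i \ σ.M k b l i with hB
  have h0 : B.card = (B.filter (fun r => ∃ z ∈ σ.W k b l i, σ.ccw l z r)).card +
      (B.filter (fun r => ¬ ∃ z ∈ σ.W k b l i, σ.ccw l z r)).card :=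
    (card_filter_add_card_filter_not _).symm
  have h1 : (B.filter (fun r => ¬ ∃ z ∈ σ.W k b l i, σ.ccw l z r)).card ≤ 1 := by
    rw [card_le_one]
    intro r hr r' hr'
    by_contra hne
    rw [mem_filter, hB, mem_sdiff] at hr hr'
    rcases FarM_cmp hr.1.1 hr'.1.1 hne with h|h
    · exact hr'.2 ⟨r, Far_sub_W hr.1.1, h⟩
    · exact hr.2 ⟨r', Far_sub_W hr'.1.1, h⟩
  have h2 : (B.filter (fun r => ∃ z ∈ σ.W k b l i, σ.ccw l z r)).card ≤ (σ.Sc k b l i).card := by
    have hex : ∀ r ∈ B.filter (fun r => ∃ z ∈ σ.W k b l i, σ.ccw l z r),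
        ∃ a, σ.Pre (σ.W k b l i) l r a := by
      intro r hr
      rw [mem_filter] at hr
      exact Pre_exists (fun z hz => (W_ccw hz).2.1) hr.2
    refine card_le_card_of_injOn
      (fun r => if h : ∃ a, σ.Pre (σ.W k b l i) l r a then (h.choose, r) else (0, r)) ?_ ?_
    · intro r hr
      have hr0 : r ∈ B.filter (fun r => ∃ z ∈ σ.W k b l i, σ.ccw l z r) := hr
      have he := hex r hr0
      have hmem : (he.choose, r) ∈ σ.Sc k b l i := by
        have hp := he.choose_spec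
        rw [mem_filter, hB, mem_sdiff] at hr0
        unfold Sc
        rw [mem_filter, mem_product]
        exact ⟨⟨hp.1, Far_sub_W hr0.1.1⟩, FarM_SE hr0.1.1 hr0.1.2 hp⟩
      simpa only [dif_pos he, mem_coe] using hmem
    · intro r _ r' _ h
      have e : ∀ s : ℤ, (if h : ∃ a, σ.Pre (σ.W k b l i) l s a then (h.choose, s) else ((0 : ℤ), s)).2 = s := by
        intro s; split <;> rfl
      have h3 := congrArg Prod.snd h
      simpa only [e] using h3
  omega

theorem MM' {k b l i : ℤ} : (σ.M k b l i \ σ.M' k b l i).card ≤ 1 := by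
  rw [card_le_one]
  intro r hr r' hr'
  by_contra hne
  rw [mem_sdiff] at hr hr'
  have h1 := (mem_M.1 hr.1).1
  have h2 := (mem_M.1 hr'.1).1
  rcases FarM_cmp h1 h2 hne with h|h
  · exact hr.2 (mem_M'.2 ⟨hr.1, r', h2, h⟩)
  · exact hr'.2 (mem_M'.2 ⟨hr'.1, r, h1, h⟩)

end Sig
end ET
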