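import Pool.Agent.Lib.MP_4beb96_co.EMT.Cls3

set_option autoImplicit false

/-! EMT-Cls4A: S-elements `(p; w, r)` from two members `r, p ∈ M'`, `w = hi l r`.

Setting: `r, p ∈ M'`, `ccw l r p`, `w = hi l r`, `p ≠ w`.  By `hiW`: `w ∈ W`, `FE W l r w`, `w < r`.  `W = W k b l i`; `M' ⊆ M ⊆ Far ⊆ D`, `Far ⊆ W`.
order_facts: (1) `ccw l w p`: otherwise (`total'`, `p ≠ w`) `ccw l p w`; then `p` is between `r` and `w`: `extreme` for `p`: `ccw r w p`; but `FE W l r w` gives `ccw w r p`; contradiction.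
 (2) `p < w` (`W_far` for `y = w`, `r = p`).  (3) `w < r`, so `p < w < r`.  (4) `ccw p w r`: `FE W l r w`: `ccw w r p`, cyclic.
SE_of_Emp: if moreover `¬ FE W l w p` and `Emp p w r` then `SE b p w r`.
  `p < w`, `p < r`, `w ≤ b`, `r ≤ b`, `ccw p w r` (4).
  Earlier near point: let `c` with `FE W l c p` (`p ∈ M`).  `c ≠ w` (hypothesis).  Claim `ccw l w c`: otherwise `ccw l c w` (`total'`), and
    `w ∈ W`, `w ≠ c, p`: `ccw p c w` (w far from `c p`).  Compare `c` and `r`: `FE W l r w`, `p ≠ r, w`: `ccw w r p`.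
     `c = r`: `ccw p r w` contradicts `ccw w r p` (`ccw r p w`, `ccw r w p`... `asymm'`).
     `ccw l c r`: order `c, r, w, p`: `r` is far from `c p`: `ccw p c r` gives `ccw c r p`; also `ccw p c w` gives `ccw c w p`; `c` far from the line `r w`: `ccw w r c`, i.e. `ccw c w r` (r near `c w`: C(c,r,w)); `ccw w r p` is `ccw r p w` (w near `r p`).
        `L14` for `c, r, w, p`: (`ccw c w r`)(`ccw r p w`) → `ccw c p r`; contradiction to `ccw c r p`.
     `ccw l r c`: order `r, c, w, p`: `c` far from `r w`: `ccw w r c`, i.e. `ccw r c w`; `w` far from `c p`: `ccw c w p`.  `F14`: `ccw r c p`; `F24`: (`ccw r c p`)(`ccw c w p`) → `ccw r w p`; contradiction to `ccw w r p`.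
    Now `z = c`: `p < c` (`W_far`, `ccw l c p`), `c ≤ b`; `ccw p c w` (`FE W l c p` for `w`); `ccw w r c` (`FE W l r w` for `c`; `c ≠ r` since `ccw l r w`, `ccw l w c`).
  Later near point: let `v` with `FE W l v r` (`r ∈ M`).  `z = v`: `ccw l v r`, so `ccw l v p` (`trL`), `p < v` (`W_far`), `v ≤ b`; `ccw r v p` (`FE W l v r` for `p`; `p ≠ v, r`), i.e. `ccw p r v`; `ccw w r v` (`FE W l r w` for `v`, `v ≠ w` since `ccw l v r`, `ccw l r w`).
point_of_not_Emp: if `¬ Emp p w r`, there is `z ∈ W`, `z ∉ M`, with `ccw p w z`, `ccw w r z`, `ccw r p z`, and `p < z`.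
  `z` inside, `Emp_iff` with `ccw p w r`.  `p < z` by `Ins_between` (`p` is the smallest).  `z ≤ b` (`z < w` or `z < r`).
  `ccw l r z`: the triangle `p w r` and the ray: `ccw l r w`, `ccw l r p`.  Use `ax5`/`ax5d` at `t = r`: directions from `r`: `ccw r l ?`... : we have `ccw l r p`, `ccw l r w` and `ccw r p z`, `ccw w r z` (`ccw r z w`): `ax5d` with `s = l`, `t = r`, needs `ccw l r z` itself; so
    argue by contradiction: if not `ccw l r z` then `ccw r l z` (`total`; `l < z`, `z ≠ r`).  Use `trL` at `l` and `ax4`: `ccw l r p`; suppose `ccw l z r`; then `ccw l z r`, `ccw l r w`, `ccw l w p`: order `z, r, w, p` at `l`: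
    `r` near or far... from `ccw r p z`: `z r p`: `ccw z r p`, i.e. `r` far from `z p`; from `ccw w r z`, i.e. `ccw z w r`: `r` near `z w`; from `ccw p w z`, i.e. `ccw z p w`: `w` near `z p`.  `L13` for `z, r, w, p`: (`ccw z w r`)(`ccw z p w`) → `ccw z p r`.  Contradiction to `ccw z r p`.
  `ccw l z p`: otherwise `ccw l p z` (`z ≠ p`): order `r, w, p, z`: `ccw r p z`: `p` far from `r z`; `ccw w r z` i.e. `ccw r z w`: `w` near `r z`; `ccw p w z` i.e. `ccw w z p`: `p` near `w z`.  `L24` for `r, w, p, z`: (`ccw r z w`)(`ccw w z p`) → `ccw r z p`.  Contradiction.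
  So `z ∈ W` (`W_conv` with `r, p`).
  `z ∉ M`: if `z ∈ M`: `z ≠ w`.  If `ccw l z w`: `extreme` (`q1 = r`, `q2 = w`): `ccw r w z`, contradiction to `ccw w r z`.  If `ccw l w z`: `extreme` (`q1 = w`, `q2 = p`): `ccw w p z`, contradiction to `ccw p w z`.
one_triangle: for `r, r', p ∈ M'`, `ccw l r r'`, `ccw l r' p`, `w = hi l r`, `w' = hi l r'`, no `z` with `p < z` is inside both triangles in the sense `ccw p w z` and `ccw p z r'`.
  (`z` in the triangle of `r`: `ccw p w z`; `z` in the triangle of `r'`: `ccw r' p z`, i.e. `ccw p z r'`.)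
  First `w = r'` or `ccw l w r'`: otherwise `ccw l r' w`, `extreme` for `r'` (`q1 = r`, `q2 = w`): `ccw r w r'`, but `FE W l r w`: `ccw w r r'`.  If `w = r'`: `ccw p w z` and `ccw p z w`: contradiction.
  If `ccw l w r'`: `extreme` for `r'` with `q1 = w`, `q2 = p`: `ccw w p r'`, i.e. `ccw p r' w`.  At the pivot `p` (`p < r'` by D1; `p < w` by `W_far`; `p < z`): `ccw p r' w`, `ccw p w z`, so `ccw p r' z` (`trL`); contradiction to `ccw p z r'`. -/

namespace ET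
open Finset
open scoped Classical

namespace Sig
variable {σ : Sig}

theorem order_facts {k b l i r p : ℤ} (hr : r ∈ σ.M' k b l i) (hp : p ∈ σ.M' k b l i) (hc : σ.ccw l r p)
    (hpw : p ≠ σ.hi l r) : σ.ccw l (σ.hi l r) p ∧ p < σ.hi l r ∧ σ.hi l r < r ∧ σ.ccw p (σ.hi l r) r := by
  obtain ⟨hwW, ⟨hrW, -, hrw, hFE⟩, hwr⟩ := hiW hr
  obtain ⟨hpM, -⟩ := mem_M'.1 hp
  obtain ⟨hpFar, -⟩ := mem_M.1 hpM
  have hpD := (mem_Far.1 hpFar).1
  have hpW := Far_sub_W hpFar
  obtain ⟨w, hw⟩ : ∃ w, w = σ.hi l r := ⟨_, rfl⟩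
  rw [← hw] at hwW hrw hFE hwr hpw ⊢
  have hpr : p ≠ r := (ne23 hc).symm
  have hwrp : σ.ccw w r p := hFE p hpW hpr hpw
  have hlp := (W_ccw hpW).2.1
  have hlw := (W_ccw hwW).2.1
  have h1 : σ.ccw l w p := by
    rcases total' (σ := σ) (a := l) (b := w) (c := p) (by omega) (by omega) (Ne.symm hpw) with h | h
    · exact h
    · exact absurd hwrp (asymm (extreme hpM hrW hwW hc h))
  exact ⟨h1, W_far hwW hpD h1, hwr, cyc' hwrp⟩

theorem SE_of_Emp {k b l i r p : ℤ} (hr : r ∈ σ.M' k b l i) (hp : p ∈ σ.M' k b l i) (hc : σ.ccw l r p)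
    (hpw : p ≠ σ.hi l r) (hfe : ¬ σ.FE (σ.W k b l i) l (σ.hi l r) p) (he : σ.Emp p (σ.hi l r) r) :
    σ.SE b p (σ.hi l r) r := by
  obtain ⟨h1, h2, h3, h4⟩ := order_facts hr hp hc hpw
  obtain ⟨hwW, ⟨hrW, -, hrw, hFE⟩, -⟩ := hiW hr
  obtain ⟨hpM, -⟩ := mem_M'.1 hp
  obtain ⟨hrM, -⟩ := mem_M'.1 hr
  obtain ⟨hpFar, c, hcFE⟩ := mem_M.1 hpM
  obtain ⟨hrFar, v, hvW, -, hvr, hvFE⟩ := mem_M.1 hrM
  have hpD := (mem_Far.1 hpFar).1
  have hpW := Far_sub_W hpFar
  obtain ⟨w, hw⟩ : ∃ w, w = σ.hi l r := ⟨_, rfl⟩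
  rw [← hw] at h1 h2 h3 h4 hwW hrw hFE hpw hfe he ⊢
  have hcw : c ≠ w := by
    rintro rfl
    exact hfe hcFE
  obtain ⟨hcW, -, hcp, hcF⟩ := hcFE
  have hpr : p ≠ r := (ne23 hc).symm
  have hlp := (W_ccw hpW).2.1
  have hlw := (W_ccw hwW).2.1
  have hlr := (W_ccw hrW).2.1
  have hlc := (W_ccw hcW).2.1
  have hlv := (W_ccw hvW).2.1
  have hwrp : σ.ccw w r p := hFE p hpW hpr hpw
  have hpcw : σ.ccw p c w := hcF w hwW hcw.symm hpw.symm
  have hwc : σ.ccw l w c := by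
    rcases total' (σ := σ) (a := l) (b := w) (c := c) (by omega) (by omega) hcw.symm with h | h
    · exact h
    · exfalso
      by_cases hcr : c = r
      · rw [hcr] at hpcw
        exact asymm' h4 hpcw
      · have hwrc : σ.ccw w r c := hFE c hcW hcr hcw
        rcases total' (σ := σ) (a := l) (b := c) (c := r) (by omega) (by omega) hcr with h' | h'
        · have h5 : σ.ccw c p r := L14 hlc hlr hlw hlp h' hrw h1 (cyc' hwrc) (cyc hwrp)
          have h6 : σ.ccw p c r := hcF r hrW (Ne.symm hcr) hpr.symm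
          exact asymm' h5 (cyc h6)
        · have h5 : σ.ccw r c p := F14 hlr hlc hlw hlp h' h h1 (cyc hwrc) (cyc hpcw)
          have h6 : σ.ccw r w p := F24 hlr hlc hlw hlp h' h h1 h5 (cyc hpcw)
          exact asymm h6 hwrp
  have hcr : c ≠ r := (ne23 (trL hlr hlw hlc hrw hwc)).symm
  have hvp : σ.ccw l v p := trL hlv hlr hlp hvr hc
  have hvw : v ≠ w := ne23 (trL hlv hlr hlw hvr hrw)
  refine ⟨h2, by omega, (W_ccw hwW).2.2, (W_ccw hrW).2.2, h4, he,
    ⟨c, W_far hcW hpD hcp, (W_ccw hcW).2.2, hpcw, hFE c hcW hcr hcw⟩,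
    ⟨v, W_far hvW hpD hvp, (W_ccw hvW).2.2, ?_, hFE v hvW (ne23 hvr) hvw⟩⟩
  exact cyc' (hvFE p hpW (ne23 hvp).symm hpr)

end Sig
end ET
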