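import Mathlib

set_option autoImplicit false

/-! EMT-PureB: three pure facts on finite sets.

1. `exists_greatest`: a nonempty finite set with a transitive total relation has a greatest element
   (Finset.induction: add `x` to `s` with greatest element `m`: if `R x m` (or `x = m`) keep `m`; otherwise `R m x` and
   for `z ∈ s`, `z ≠ m`: `R z m → R m x → R z x`.)

2. `class_count`.  `R` is a strict total order on `M`.  For `r ∈ M` put `N r = #{p ∈ M | R r p}`,
   `b r = #{p ∈ M | R r p ∧ bad r p}`.  Double counting: `∑_{r ∈ M} b r = ∑_{p ∈ M} #{r ∈ M | R r p ∧ bad r p} ≤ |M| t ≤ K t`.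
   If `M` is empty the claim is trivial; otherwise `K ≥ 1`.  Let `16 v r < K`.
   (i) if `16 b r ≤ K`: `8 N r ≤ 8 v r + 16 + 8 b r < K + 16`, and `N` is injective on `M` (for `R r r'`:
       `{p | R r' p} ⊂ {p | R r p}` strictly, as `r'` is in the second set only), so there are at most
       `(K + 15)/8 + 1` such `r` (natural number division), i.e. `8 * # ≤ K + 23`;
   (ii) the number of `r` with `16 b r > K` is at most `16 t`, because `# * K ≤ 16 ∑ b r ≤ 16 K t`.
   Together `8 * # ≤ K + 23 + 128 t`. -/

namespace ET
open Finset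
open scoped Classical

theorem class_count {α : Type*} (M : Finset α) (R bad : α → α → Prop)
    (irr : ∀ x ∈ M, ¬ R x x)
    (tr : ∀ x ∈ M, ∀ y ∈ M, ∀ z ∈ M, R x y → R y z → R x z)
    (tot : ∀ x ∈ M, ∀ y ∈ M, x ≠ y → R x y ∨ R y x)
    (K t : ℕ) (hK : M.card ≤ K)
    (hbad : ∀ p ∈ M, (M.filter (fun r => R r p ∧ bad r p)).card ≤ t)
    (v : α → ℕ)
    (hv : ∀ r ∈ M, (M.filter (fun p => R r p)).card ≤ v r + 2 + (M.filter (fun p => R r p ∧ bad r p)).card) :
    8 * (M.filter (fun r => 16 * v r < K)).card ≤ K + 23 + 128 * t := by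
  classical
  have hsum : ∑ r ∈ M, (M.filter (fun p => R r p ∧ bad r p)).card ≤ M.card * t := by
    have h1 : ∑ r ∈ M, (M.filter (fun p => R r p ∧ bad r p)).card
        = ∑ p ∈ M, (M.filter (fun r => R r p ∧ bad r p)).card := by
      simp only [Finset.card_filter]
      exact Finset.sum_comm
    rw [h1]
    calc ∑ p ∈ M, (M.filter (fun r => R r p ∧ bad r p)).card ≤ ∑ _p ∈ M, t :=
          Finset.sum_le_sum hbad
      _ = M.card * t := by simp
  rcases Nat.eq_zero_or_pos K with hK0 | hKpos
  · have hM : M = ∅ := by
      apply Finset.card_eq_zero.mp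
      omega
    subst hM
    simp
  have hlt : ∀ r ∈ M, ∀ r' ∈ M, R r r' →
      (M.filter (fun p => R r' p)).card < (M.filter (fun p => R r p)).card := by
    intro r hr r' hr' hrr
    apply Finset.card_lt_card
    rw [Finset.ssubset_iff_of_subset]
    · refine ⟨r', ?_, ?_⟩
      · rw [Finset.mem_filter]; exact ⟨hr', hrr⟩
      · rw [Finset.mem_filter]; exact fun h => irr r' hr' h.2
    · intro p hp
      rw [Finset.mem_filter] at hp ⊢
      exact ⟨hp.1, tr r hr r' hr' p hp.1 hrr hp.2⟩
  have hinj : ∀ r ∈ M, ∀ r' ∈ M,
      (M.filter (fun p => R r p)).card = (M.filter (fun p => R r' p)).card → r = r' := by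
    intro r hr r' hr' h
    by_contra hne
    rcases tot r hr r' hr' hne with h1 | h1
    · have := hlt r hr r' hr' h1
      omega
    · have := hlt r' hr' r hr h1
      omega
  -- part (i)
  have hA : (M.filter (fun r => 16 * v r < K ∧
      16 * (M.filter (fun p => R r p ∧ bad r p)).card ≤ K)).card ≤ (K + 15) / 8 + 1 := by
    have h1 : (M.filter (fun r => 16 * v r < K ∧
        16 * (M.filter (fun p => R r p ∧ bad r p)).card ≤ K)).card
        ≤ (Finset.range ((K + 15) / 8 + 1)).card := by
      apply Finset.card_le_card_of_injOn (fun r => (M.filter (fun p => R r p)).card)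
      · intro r hr
        have hr' := Finset.mem_filter.mp (Finset.mem_coe.mp hr)
        have h2 := hv r hr'.1
        have h3 := hr'.2.1
        have h4 := hr'.2.2
        simp only [Finset.coe_range, Set.mem_Iio]
        omega
      · intro r hr r' hr' h
        exact hinj r (Finset.mem_filter.mp (Finset.mem_coe.mp hr)).1 r'
          (Finset.mem_filter.mp (Finset.mem_coe.mp hr')).1 h
    simpa using h1
  -- part (ii)
  have hB : (M.filter (fun r => K < 16 * (M.filter (fun p => R r p ∧ bad r p)).card)).card
      ≤ 16 * t := by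
    have h1 : (M.filter (fun r => K < 16 * (M.filter (fun p => R r p ∧ bad r p)).card)).card * K
        ≤ 16 * (K * t) := by
      calc (M.filter (fun r => K < 16 * (M.filter (fun p => R r p ∧ bad r p)).card)).card * K
          = ∑ _r ∈ M.filter (fun r => K < 16 * (M.filter (fun p => R r p ∧ bad r p)).card), K := by
            simp
        _ ≤ ∑ r ∈ M.filter (fun r => K < 16 * (M.filter (fun p => R r p ∧ bad r p)).card),
            16 * (M.filter (fun p => R r p ∧ bad r p)).card := by
            apply Finset.sum_le_sum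
            intro r hr
            exact (Finset.mem_filter.mp hr).2.le
        _ ≤ ∑ r ∈ M, 16 * (M.filter (fun p => R r p ∧ bad r p)).card := by
            apply Finset.sum_le_sum_of_subset
            exact Finset.filter_subset _ _
        _ = 16 * ∑ r ∈ M, (M.filter (fun p => R r p ∧ bad r p)).card := by
            rw [Finset.mul_sum]
        _ ≤ 16 * (M.card * t) := Nat.mul_le_mul_left _ hsum
        _ ≤ 16 * (K * t) := Nat.mul_le_mul_left _ (Nat.mul_le_mul_right _ hK)
    have h2 : (M.filter (fun r => K < 16 * (M.filter (fun p => R r p ∧ bad r p)).card)).card * K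
        ≤ (16 * t) * K := by
      calc _ ≤ 16 * (K * t) := h1
        _ = (16 * t) * K := by ring
    exact Nat.le_of_mul_le_mul_right h2 hKpos
  have hsub : M.filter (fun r => 16 * v r < K) ⊆
      M.filter (fun r => 16 * v r < K ∧
        16 * (M.filter (fun p => R r p ∧ bad r p)).card ≤ K) ∪
      M.filter (fun r => K < 16 * (M.filter (fun p => R r p ∧ bad r p)).card) := by
    intro r hr
    rw [Finset.mem_filter] at hr
    rw [Finset.mem_union, Finset.mem_filter, Finset.mem_filter]
    by_cases h : 16 * (M.filter (fun p => R r p ∧ bad r p)).card ≤ K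
    · exact Or.inl ⟨hr.1, hr.2, h⟩
    · exact Or.inr ⟨hr.1, not_le.mp h⟩
  have hfin := (Finset.card_le_card hsub).trans (Finset.card_union_le _ _)
  omega

end ET
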