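import Pool.Agent.Lib.MP_4beb96_co.EMT.Cls3A
import Pool.Agent.Lib.MP_4beb96_co.EMT.Cls4A
import Pool.Agent.Lib.MP_4beb96_co.EMT.Cls4B
import Pool.Agent.Lib.MP_4beb96_co.EMT.Cls4C
import Pool.Agent.Lib.MP_4beb96_co.EMT.PureB

set_option autoImplicit false

/-! EMT-Cls5: the class theorem.  `K = #D`, `bad = {r ∈ D | 16 nu (hi l r) r < K}`:  `8 #bad ≤ K + 8 #Near + 136 #Sc + 128 #Yc + 167`.

`D ⊆ Near ∪ Far`, `Far ⊆ (Far \ M) ∪ (M \ M') ∪ M'`.  So `#bad ≤ #Near + (1 + #Sc) + 1 + #(bad ∩ M')` (`FarM`, `MM'`).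
`#(bad ∩ M')`: `class_count` (Pure) for the finset `M'`, `R r p := ccw l r p` (irreflexive, transitive by `trL`, total by `total'`), `K`,
 `t = #Yc + #Sc + 1`, `bad r p := p ≠ hi l r ∧ ¬ FE W l (hi l r) p ∧ ¬ Emp p (hi l r) r`, `v r = nu a b (hi l r) r`:
 * `#M' ≤ K`: `M' ⊆ D`.
 * hbad: for fixed `p ∈ M'`, map each `r ∈ M'` with `ccw l r p` and `bad r p` to a point `z ∈ W \ M` from `point_of_not_Emp` (choose).  It is injective by `one_triangle` (two such `r, r'` are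
   comparable; if `ccw l r r'` with the same `z`: `ccw p (hi l r) z` from `r`, `ccw p z r'` from `r'`).  `#(W \ M) ≤ #Yc + #(Far \ M) ≤ #Yc + 1 + #Sc`: `W \ M ⊆ (W \ D) ∪ (Far \ M)` (`W_mem_D`).
 * hv: for `r ∈ M'`, `w = hi l r`: the elements `p ∈ M'` with `ccw l r p` are: `p = w` (at most one), `FE W l w p` (at most one: `FE W l w p`, `FE W l w p'`, `p ≠ p'`: `ccw p w p'` and `ccw p' w p`; contradiction by `cyc`, `asymm'`), `bad r p`, and
   those with `p ≠ w`, `¬ FE`, `Emp p w r`: for these `SE b p w r` (`SE_of_Emp`) and `w < r` and `a ≤ l < p ≤ b`, so `p` is counted by `nu a b w r`.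
 So `8 #(bad ∩ M') ≤ K + 23 + 128 (#Yc + #Sc + 1)`, and `8 #bad ≤ 8 #Near + 8 (2 + #Sc) + K + 23 + 128 #Yc + 128 #Sc + 128`. -/

namespace ET
open Finset
open scoped Classical

namespace Sig
variable {σ : Sig}

private theorem c5_cmp {k b l i r r' : ℤ} (h : r ∈ σ.M' k b l i) (h' : r' ∈ σ.M' k b l i) (hne : r ≠ r') :
    σ.ccw l r r' ∨ σ.ccw l r' r := by
  have h1 : l < r := (mem_D.1 (mem_Far.1 (mem_M.1 (mem_M'.1 h).1).1).1).1.1
  have h2 : l < r' := (mem_D.1 (mem_Far.1 (mem_M.1 (mem_M'.1 h').1).1).1).1.1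
  exact total' (by omega) (by omega) hne

private theorem c5_WM {k b l i : ℤ} : (σ.W k b l i \ σ.M k b l i).card ≤ (σ.Yc k b l i).card + (1 + (σ.Sc k b l i).card) := by
  have h1 : σ.W k b l i \ σ.M k b l i ⊆ σ.Yc k b l i ∪ (σ.Far k b l i \ σ.M k b l i) := by
    intro z hz
    rw [mem_sdiff] at hz
    rw [mem_union]
    by_cases hD : z ∈ σ.D k b l i
    · exact Or.inr (mem_sdiff.2 ⟨W_mem_D hz.1 hD, hz.2⟩)
    · exact Or.inl (mem_sdiff.2 ⟨hz.1, hD⟩)
  have h2 := (card_le_card h1).trans (card_union_le _ _)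
  have h3 := FarM (σ := σ) (k := k) (b := b) (l := l) (i := i)
  omega

private theorem c5_bad {k b l i p : ℤ} (hp : p ∈ σ.M' k b l i) :
    ((σ.M' k b l i).filter (fun r => σ.ccw l r p ∧ (p ≠ σ.hi l r ∧ ¬ σ.FE (σ.W k b l i) l (σ.hi l r) p ∧
      ¬ σ.Emp p (σ.hi l r) r))).card ≤ (σ.Yc k b l i).card + (σ.Sc k b l i).card + 1 := by
  have h0 := c5_WM (σ := σ) (k := k) (b := b) (l := l) (i := i)
  refine le_trans (card_le_card_of_injOn
    (fun r => if h : ∃ z ∈ σ.W k b l i \ σ.M k b l i, p < z ∧ σ.ccw p (σ.hi l r) z ∧ σ.ccw p z r then h.choose else 0)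
    (t := σ.W k b l i \ σ.M k b l i) ?_ ?_) (by omega)
  · intro r hr
    rw [mem_coe, mem_filter] at hr
    obtain ⟨hr, hc, hpw, -, he⟩ := hr
    have h := point_of_not_Emp hr hp hc hpw he
    have := h.choose_spec.1
    simpa only [dif_pos h, mem_coe] using this
  · intro r hr r' hr' hrr
    rw [mem_coe, mem_filter] at hr hr'
    obtain ⟨hr, hc, hpw, -, he⟩ := hr
    obtain ⟨hr', hc', hpw', -, he'⟩ := hr'
    have h := point_of_not_Emp hr hp hc hpw he
    have h' := point_of_not_Emp hr' hp hc' hpw' he'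
    have hrr2 : h.choose = h'.choose := by
      simpa only [dif_pos h, dif_pos h'] using hrr
    obtain ⟨-, z1, z2, z3⟩ := h.choose_spec
    obtain ⟨-, z1', z2', z3'⟩ := h'.choose_spec
    by_contra hne
    rcases c5_cmp hr hr' hne with hx | hx
    · rw [← hrr2] at z3'
      exact one_triangle hr hr' hp hx hc' z1 z2 z3'
    · rw [hrr2] at z3
      exact one_triangle hr' hr hp hx hc z1' z2' z3

private theorem c5_v {k a b l i r : ℤ} (hal : a ≤ l) (hr : r ∈ σ.M' k b l i) :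
    ((σ.M' k b l i).filter (fun p => σ.ccw l r p)).card ≤ σ.nu a b (σ.hi l r) r + 2 +
      ((σ.M' k b l i).filter (fun p => σ.ccw l r p ∧ (p ≠ σ.hi l r ∧ ¬ σ.FE (σ.W k b l i) l (σ.hi l r) p ∧
      ¬ σ.Emp p (σ.hi l r) r))).card := by
  obtain ⟨hwW, -, hwr⟩ := hiW hr
  have hsub : (σ.M' k b l i).filter (fun p => σ.ccw l r p) ⊆
      (((Icc a b).filter (fun p => σ.SE b p (σ.hi l r) r ∧ σ.hi l r < r) ∪ {σ.hi l r}) ∪
        (σ.M' k b l i).filter (fun p => σ.FE (σ.W k b l i) l (σ.hi l r) p)) ∪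
      (σ.M' k b l i).filter (fun p => σ.ccw l r p ∧ (p ≠ σ.hi l r ∧ ¬ σ.FE (σ.W k b l i) l (σ.hi l r) p ∧
        ¬ σ.Emp p (σ.hi l r) r)) := by
    intro p hp
    rw [mem_filter] at hp
    obtain ⟨hpM, hc⟩ := hp
    have hpl := (mem_D.1 (mem_Far.1 (mem_M.1 (mem_M'.1 hpM).1).1).1).1
    rw [mem_union, mem_union, mem_union, mem_singleton, mem_filter, mem_filter, mem_filter, mem_Icc]
    by_cases hpw : p = σ.hi l r
    · exact Or.inl (Or.inl (Or.inr hpw))
    · by_cases hfe : σ.FE (σ.W k b l i) l (σ.hi l r) p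
      · exact Or.inl (Or.inr ⟨hpM, hfe⟩)
      · by_cases he : σ.Emp p (σ.hi l r) r
        · exact Or.inl (Or.inl (Or.inl ⟨⟨by omega, hpl.2⟩, SE_of_Emp hr hpM hc hpw hfe he, hwr⟩))
        · exact Or.inr ⟨hpM, hc, hpw, hfe, he⟩
  have hfe1 : ((σ.M' k b l i).filter (fun p => σ.FE (σ.W k b l i) l (σ.hi l r) p)).card ≤ 1 := by
    rw [card_le_one]
    intro p hp p' hp'
    by_contra hne
    rw [mem_filter] at hp hp'
    obtain ⟨-, -, hpW, hcp, hF⟩ := hp
    obtain ⟨-, -, hpW', hcp', hF'⟩ := hp'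
    have x1 := hF p' hpW' (ne23 hcp').symm (Ne.symm hne)
    have x2 := hF' p hpW (ne23 hcp).symm hne
    exact asymm (cyc x1) x2
  have h1 := card_le_card hsub
  have h2 := card_union_le (((Icc a b).filter (fun p => σ.SE b p (σ.hi l r) r ∧ σ.hi l r < r) ∪ {σ.hi l r}) ∪
        (σ.M' k b l i).filter (fun p => σ.FE (σ.W k b l i) l (σ.hi l r) p))
      ((σ.M' k b l i).filter (fun p => σ.ccw l r p ∧ (p ≠ σ.hi l r ∧ ¬ σ.FE (σ.W k b l i) l (σ.hi l r) p ∧
        ¬ σ.Emp p (σ.hi l r) r)))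
  have h3 := card_union_le ((Icc a b).filter (fun p => σ.SE b p (σ.hi l r) r ∧ σ.hi l r < r) ∪ {σ.hi l r})
        ((σ.M' k b l i).filter (fun p => σ.FE (σ.W k b l i) l (σ.hi l r) p))
  have h4 := card_union_le ((Icc a b).filter (fun p => σ.SE b p (σ.hi l r) r ∧ σ.hi l r < r)) {σ.hi l r}
  rw [card_singleton] at h4
  unfold nu
  omega

theorem class_thm {k a b l i : ℤ} (hal : a ≤ l) :
    8 * ((σ.D k b l i).filter (fun r => 16 * σ.nu a b (σ.hi l r) r < (σ.D k b l i).card)).card ≤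
      (σ.D k b l i).card + 8 * (σ.Near k b l i).card + 136 * (σ.Sc k b l i).card + 128 * (σ.Yc k b l i).card + 167 := by
  have hl : ∀ x ∈ σ.M' k b l i, l < x := fun x hx => (mem_D.1 (mem_Far.1 (mem_M.1 (mem_M'.1 hx).1).1).1).1.1
  have hMD : σ.M' k b l i ⊆ σ.D k b l i := fun x hx => (mem_Far.1 (mem_M.1 (mem_M'.1 hx).1).1).1
  have hcc := class_count (σ.M' k b l i) (fun r p => σ.ccw l r p)
    (fun r p => p ≠ σ.hi l r ∧ ¬ σ.FE (σ.W k b l i) l (σ.hi l r) p ∧ ¬ σ.Emp p (σ.hi l r) r)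
    (fun x _ h => ne23 h rfl)
    (fun x hx y hy z hz h1 h2 => trL (hl x hx) (hl y hy) (hl z hz) h1 h2)
    (fun x hx y hy h => c5_cmp hx hy h)
    (σ.D k b l i).card ((σ.Yc k b l i).card + (σ.Sc k b l i).card + 1) (card_le_card hMD)
    (fun p hp => by convert c5_bad hp) (fun r => σ.nu a b (σ.hi l r) r) (fun r hr => by convert c5_v hal hr)
  have hsub : (σ.D k b l i).filter (fun r => 16 * σ.nu a b (σ.hi l r) r < (σ.D k b l i).card) ⊆
      ((σ.Near k b l i ∪ (σ.Far k b l i \ σ.M k b l i)) ∪ (σ.M k b l i \ σ.M' k b l i)) ∪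
      (σ.M' k b l i).filter (fun r => 16 * σ.nu a b (σ.hi l r) r < (σ.D k b l i).card) := by
    intro r hr
    rw [mem_filter] at hr
    rw [mem_union, mem_union, mem_union, mem_filter]
    by_cases hM' : r ∈ σ.M' k b l i
    · exact Or.inr ⟨hM', hr.2⟩
    · by_cases hM : r ∈ σ.M k b l i
      · exact Or.inl (Or.inr (mem_sdiff.2 ⟨hM, hM'⟩))
      · by_cases hF : k ≤ r - l
        · exact Or.inl (Or.inl (Or.inr (mem_sdiff.2 ⟨mem_Far.2 ⟨hr.1, hF⟩, hM⟩)))
        · refine Or.inl (Or.inl (Or.inl ?_))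
          unfold Near
          rw [mem_filter]
          exact ⟨hr.1, by omega⟩
  have h1 := card_le_card hsub
  have h2 := card_union_le ((σ.Near k b l i ∪ (σ.Far k b l i \ σ.M k b l i)) ∪ (σ.M k b l i \ σ.M' k b l i))
    ((σ.M' k b l i).filter (fun r => 16 * σ.nu a b (σ.hi l r) r < (σ.D k b l i).card))
  have h3 := card_union_le (σ.Near k b l i ∪ (σ.Far k b l i \ σ.M k b l i)) (σ.M k b l i \ σ.M' k b l i)
  have h4 := card_union_le (σ.Near k b l i) (σ.Far k b l i \ σ.M k b l i)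
  have h5 := FarM (σ := σ) (k := k) (b := b) (l := l) (i := i)
  have h6 := MM' (σ := σ) (k := k) (b := b) (l := l) (i := i)
  omega

end Sig
end ET
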