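import Pool.Agent.Lib.MP_4beb96_co.EMT.Cls5
import Pool.Agent.Lib.MP_4beb96_co.EMT.Cls2

set_option autoImplicit false

/-! EMT-Cls6: sum over all the classes (type L).  `n = b + 1 - a`.

Put `PP = (pairs a b).filter (PL k)`, `bad = {(l, r) ∈ PP | 16 nu (hi l r) r < #(D k b l (lo l r))}`.  For `l ∈ Icc a b` the set `{r | (l, r) ∈ PP}` is the disjoint union of the `D k b l i`,
`i ∈ Ioo l (l + k)` (`lo l r = i`; `l < lo l r` and `lo l r - l < k`).  So, with `∑ = ∑_{l ∈ Icc a b} ∑_{i ∈ Ioo l (l + k)}`: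
 `8 #bad = ∑ 8 #{r ∈ D | ...} ≤ ∑ (#D + 8 #Near + 136 #Sc + 128 #Yc + 167)` (`class_thm`), and
 * `∑ #D = #PP`;
 * `∑ #Near ≤ k n`: for fixed `l` the sets `Near k b l i` are disjoint subsets of `Ioo l (l + k)` ;
 * `∑ #Sc ≤ S`: for fixed `l` the sets `Sc k b l i` are disjoint (`W_disj`: the first entries are in `W k b l i`), and `(l, q, r) ∈ SSet a b` for `(q, r) ∈ Sc`;
 * `∑ #Yc ≤ Imp`: for fixed `l` the sets `Yc` are disjoint (`W_disj`) and `(l, y)` is an improper pair (D3) of `pairs a b`;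
 * `∑ 167 ≤ 167 k n` (`#(Ioo l (l + k)) = k - 1`).
Total: `8 #bad ≤ #PP + 175 k n + 136 S + 128 Imp`.  -/

namespace ET
open Finset
open scoped Classical

namespace Sig
variable {σ : Sig}

/-- proper pairs of type L -/
noncomputable def PP (σ : Sig) (k a b : ℤ) : Finset (ℤ × ℤ) := (pairs a b).filter (fun p => σ.PL k p.1 p.2)

/-- bad pairs of type L -/
noncomputable def Bad (σ : Sig) (k a b : ℤ) : Finset (ℤ × ℤ) :=
  (σ.PP k a b).filter (fun p => 16 * σ.nu a b (σ.hi p.1 p.2) p.2 < (σ.D k b p.1 (σ.lo p.1 p.2)).card)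

private theorem mem_pairs' {a b : ℤ} {p : ℤ × ℤ} : p ∈ pairs a b ↔ (a ≤ p.1 ∧ p.1 ≤ b) ∧ (a ≤ p.2 ∧ p.2 ≤ b) ∧ p.1 < p.2 := by
  simp only [pairs, mem_filter, mem_product, mem_Icc]
  tauto

private theorem lo_mem {k l r : ℤ} (h : σ.PL k l r) : σ.lo l r ∈ Ioo l (l + k) := by
  obtain ⟨h1, h2, h3, h4⟩ := h
  have := Good_choose h1
  have hl := this.1
  rw [mem_Ioo]
  constructor
  · exact hl
  · omega

private theorem s_bad {k a b l : ℤ} :
    ((σ.Bad k a b).filter (fun p => p.1 = l)).card ≤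
      ∑ i ∈ Ioo l (l + k), ((σ.D k b l i).filter (fun r => 16 * σ.nu a b (σ.hi l r) r < (σ.D k b l i).card)).card := by
  refine le_trans (Finset.card_le_card_of_injOn (t := (Ioo l (l + k)).biUnion
    (fun i => (σ.D k b l i).filter (fun r => 16 * σ.nu a b (σ.hi l r) r < (σ.D k b l i).card))) (fun p => p.2) ?_ ?_) card_biUnion_le
  · intro p hp
    rw [mem_coe, mem_filter] at hp
    obtain ⟨hp, hl⟩ := hp
    simp only [Bad, PP, mem_filter] at hp
    obtain ⟨⟨h1, h2⟩, h3⟩ := hp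
    rw [mem_pairs'] at h1
    rw [hl] at h1 h2 h3
    rw [mem_coe, mem_biUnion]
    refine ⟨σ.lo l p.2, lo_mem h2, ?_⟩
    rw [mem_filter]
    refine ⟨mem_D.2 ⟨⟨h1.2.2, h1.2.1.2⟩, h2, rfl⟩, h3⟩
  · intro p hp q hq hpq
    rw [mem_coe, mem_filter] at hp hq
    exact Prod.ext (hp.2.trans hq.2.symm) hpq

private theorem s_D {k a b l : ℤ} (hl : a ≤ l) :
    ∑ i ∈ Ioo l (l + k), (σ.D k b l i).card ≤ ((σ.PP k a b).filter (fun p => p.1 = l)).card := by
  rw [← card_biUnion]
  · refine Finset.card_le_card_of_injOn (fun r => (l, r)) ?_ ?_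
    · intro r hr
      rw [mem_coe, mem_biUnion] at hr
      obtain ⟨i, _, hr⟩ := hr
      obtain ⟨h1, h2, _⟩ := mem_D.1 hr
      rw [mem_coe, mem_filter]
      refine ⟨?_, rfl⟩
      simp only [PP, mem_filter]
      refine ⟨?_, h2⟩
      rw [mem_pairs']
      refine ⟨⟨hl, ?_⟩, ⟨?_, h1.2⟩, h1.1⟩
      · show l ≤ b
        omega
      · show a ≤ r
        omega
    · intro r _ r' _ h
      exact (Prod.mk.inj h).2
  · intro i _ j _ hij
    refine Finset.disjoint_left.2 ?_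
    intro r hr hr'
    exact hij ((mem_D.1 hr).2.2.symm.trans (mem_D.1 hr').2.2)

private theorem s_Near {k b l : ℤ} (hk : 1 ≤ k) :
    ∑ i ∈ Ioo l (l + k), (σ.Near k b l i).card ≤ k.toNat := by
  rw [← card_biUnion]
  · refine le_trans (card_le_card (t := Ioo l (l + k)) ?_) ?_
    · intro r hr
      rw [mem_biUnion] at hr
      obtain ⟨i, _, hr⟩ := hr
      simp only [Near, mem_filter] at hr
      obtain ⟨h1, h2⟩ := hr
      have := (mem_D.1 h1).1
      rw [mem_Ioo]
      omega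
    · rw [Int.card_Ioo]
      omega
  · intro i _ j _ hij
    refine Finset.disjoint_left.2 ?_
    intro r hr hr'
    simp only [Near, mem_filter] at hr hr'
    exact hij ((mem_D.1 hr.1).2.2.symm.trans (mem_D.1 hr'.1).2.2)

private theorem s_Sc {k a b l : ℤ} (hl : a ≤ l) :
    ∑ i ∈ Ioo l (l + k), (σ.Sc k b l i).card ≤ ((σ.SSet a b).filter (fun p => p.1 = l)).card := by
  rw [← card_biUnion]
  · refine Finset.card_le_card_of_injOn (fun p => (l, p.1, p.2)) ?_ ?_
    · intro p hp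
      rw [mem_coe, mem_biUnion] at hp
      obtain ⟨i, _, hp⟩ := hp
      simp only [Sc, mem_filter] at hp
      obtain ⟨_, h⟩ := hp
      have h' := h
      obtain ⟨h1, h2, h3, h4, _⟩ := h
      rw [mem_coe, mem_filter]
      refine ⟨?_, rfl⟩
      simp only [SSet, mem_filter, trip, mem_product, mem_Icc]
      exact ⟨⟨⟨hl, by omega⟩, ⟨by omega, h3⟩, by omega, h4⟩, h'⟩
    · intro p _ q _ h
      have h1 := (Prod.mk.inj h).2
      exact Prod.ext (Prod.mk.inj h1).1 (Prod.mk.inj h1).2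
  · intro i _ j _ hij
    refine Finset.disjoint_left.2 ?_
    intro p hp hp'
    simp only [Sc, mem_filter, mem_product] at hp hp'
    exact Finset.disjoint_left.1 (W_disj (σ := σ) (k := k) (b := b) (l := l) hij) hp.1.1 hp'.1.1

private theorem s_Yc {k a b l : ℤ} (hl : a ≤ l) :
    ∑ i ∈ Ioo l (l + k), (σ.Yc k b l i).card ≤
      (((pairs a b).filter (fun p => ¬ σ.PL k p.1 p.2 ∧ ¬ σ.flip.PL k p.1 p.2)).filter (fun p => p.1 = l)).card := by
  rw [← card_biUnion]
  · refine Finset.card_le_card_of_injOn (fun y => (l, y)) ?_ ?_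
    · intro y hy
      rw [mem_coe, mem_biUnion] at hy
      obtain ⟨i, _, hy⟩ := hy
      simp only [Yc, mem_sdiff] at hy
      obtain ⟨hW, hD⟩ := hy
      have h1 := (mem_W.1 hW).1
      rw [mem_coe, mem_filter, mem_filter]
      refine ⟨⟨?_, D3 hW hD⟩, rfl⟩
      rw [mem_pairs']
      refine ⟨⟨hl, ?_⟩, ⟨?_, h1.2⟩, h1.1⟩
      · show l ≤ b
        omega
      · show a ≤ y
        omega
    · intro r _ r' _ h
      exact (Prod.mk.inj h).2
  · intro i _ j _ hij
    refine Finset.disjoint_left.2 ?_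
    intro y hy hy'
    simp only [Yc, mem_sdiff] at hy hy'
    exact Finset.disjoint_left.1 (W_disj (σ := σ) (k := k) (b := b) (l := l) hij) hy.1 hy'.1

private theorem per_l {k a b l : ℤ} (hk : 1 ≤ k) (hl : a ≤ l) :
    8 * ((σ.Bad k a b).filter (fun p => p.1 = l)).card ≤
      ((σ.PP k a b).filter (fun p => p.1 = l)).card + 175 * k.toNat + 136 * ((σ.SSet a b).filter (fun p => p.1 = l)).card +
      128 * (((pairs a b).filter (fun p => ¬ σ.PL k p.1 p.2 ∧ ¬ σ.flip.PL k p.1 p.2)).filter (fun p => p.1 = l)).card := by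
  have h0 := s_bad (σ := σ) (k := k) (a := a) (b := b) (l := l)
  have h1 := s_D (σ := σ) (k := k) (b := b) hl
  have h2 := s_Near (σ := σ) (k := k) (b := b) (l := l) hk
  have h3 := s_Sc (σ := σ) (k := k) (b := b) hl
  have h4 := s_Yc (σ := σ) (k := k) (b := b) hl
  have h5 : ∑ i ∈ Ioo l (l + k), 8 * ((σ.D k b l i).filter (fun r => 16 * σ.nu a b (σ.hi l r) r < (σ.D k b l i).card)).card ≤
      ∑ i ∈ Ioo l (l + k), ((σ.D k b l i).card + 8 * (σ.Near k b l i).card + 136 * (σ.Sc k b l i).card +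
        128 * (σ.Yc k b l i).card + 167) := Finset.sum_le_sum (fun i _ => class_thm hl)
  rw [Finset.sum_add_distrib, Finset.sum_add_distrib, Finset.sum_add_distrib, Finset.sum_add_distrib,
    ← Finset.mul_sum, ← Finset.mul_sum, ← Finset.mul_sum, ← Finset.mul_sum, Finset.sum_const, Int.card_Ioo, smul_eq_mul] at h5
  have h6 : (l + k - l - 1).toNat ≤ k.toNat := by omega
  have h7 : (l + k - l - 1).toNat * 167 ≤ k.toNat * 167 := Nat.mul_le_mul_right _ h6
  omega

theorem left_bad {k a b : ℤ} (hk : 1 ≤ k) (hab : a ≤ b) :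
    8 * ((σ.Bad k a b).card : ℤ) ≤ (σ.PP k a b).card + 175 * k * (b + 1 - a) + 136 * σ.S a b + 128 * σ.Imp k a b := by
  have e1 : (σ.Bad k a b).card = ∑ l ∈ Icc a b, ((σ.Bad k a b).filter (fun p => p.1 = l)).card := by
    refine Finset.card_eq_sum_card_fiberwise (f := fun p : ℤ × ℤ => p.1) ?_
    intro p hp
    simp only [Bad, PP, mem_coe, mem_filter, mem_pairs'] at hp
    simp only [mem_coe, mem_Icc]
    exact hp.1.1.1
  have e2 : (σ.PP k a b).card = ∑ l ∈ Icc a b, ((σ.PP k a b).filter (fun p => p.1 = l)).card := by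
    refine Finset.card_eq_sum_card_fiberwise (f := fun p : ℤ × ℤ => p.1) ?_
    intro p hp
    simp only [PP, mem_coe, mem_filter, mem_pairs'] at hp
    simp only [mem_coe, mem_Icc]
    exact hp.1.1
  have e3 : σ.S a b = ∑ l ∈ Icc a b, ((σ.SSet a b).filter (fun p => p.1 = l)).card := by
    unfold S
    refine Finset.card_eq_sum_card_fiberwise (f := fun p : ℤ × ℤ × ℤ => p.1) ?_
    intro p hp
    simp only [SSet, trip, mem_coe, mem_filter, mem_product, mem_Icc] at hp
    simp only [mem_coe, mem_Icc]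
    exact hp.1.1
  have e4 : σ.Imp k a b = ∑ l ∈ Icc a b,
      (((pairs a b).filter (fun p => ¬ σ.PL k p.1 p.2 ∧ ¬ σ.flip.PL k p.1 p.2)).filter (fun p => p.1 = l)).card := by
    unfold Imp
    refine Finset.card_eq_sum_card_fiberwise (f := fun p : ℤ × ℤ => p.1) ?_
    intro p hp
    simp only [mem_coe, mem_filter, mem_pairs'] at hp
    simp only [mem_coe, mem_Icc]
    exact hp.1.1
  have h := Finset.sum_le_sum (fun l (hl : l ∈ Icc a b) => per_l (σ := σ) (k := k) (a := a) (b := b) (l := l) hk (mem_Icc.1 hl).1)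
  rw [Finset.sum_add_distrib, Finset.sum_add_distrib, Finset.sum_add_distrib,
    ← Finset.mul_sum, ← Finset.mul_sum (f := fun i => ((σ.SSet a b).filter (fun p => p.1 = i)).card),
    ← Finset.mul_sum (f := fun i => (((pairs a b).filter (fun p => ¬ σ.PL k p.1 p.2 ∧ ¬ σ.flip.PL k p.1 p.2)).filter (fun p => p.1 = i)).card),
    Finset.sum_const, Int.card_Icc, smul_eq_mul, ← e1, ← e2, ← e3, ← e4] at h
  have h' : ((8 * (σ.Bad k a b).card : ℕ) : ℤ) ≤ (((σ.PP k a b).card + (b + 1 - a).toNat * (175 * k.toNat) + 136 * σ.S a b + 128 * σ.Imp k a b : ℕ) : ℤ) := by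
    exact_mod_cast h
  push_cast at h'
  rw [Int.toNat_of_nonneg (by omega), Int.toNat_of_nonneg (by omega)] at h'
  linarith

end Sig
end ET
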