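import Pool.Agent.Lib.MP_4beb96_co.EMT.PreSuf

set_option autoImplicit false

/-! ET-ClsDefs: definitions for one left class `D k b l i` (type L) at the pivot `l`. -/

namespace ET
open Finset
open scoped Classical

namespace Sig

/-- far members -/
noncomputable def Far (σ : Sig) (k b l i : ℤ) : Finset ℤ := (σ.D k b l i).filter (fun r => k ≤ r - l)

/-- near members -/
noncomputable def Near (σ : Sig) (k b l i : ℤ) : Finset ℤ := (σ.D k b l i).filter (fun r => r - l < k)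

/-- the cone (in the order `<_l`) spanned by the far members -/
noncomputable def W (σ : Sig) (k b l i : ℤ) : Finset ℤ :=
  (Ioc l b).filter (fun y => (∃ r ∈ σ.Far k b l i, r = y ∨ σ.ccw l r y) ∧ (∃ r ∈ σ.Far k b l i, r = y ∨ σ.ccw l y r))

/-- the non-members in the cone -/
noncomputable def Yc (σ : Sig) (k b l i : ℤ) : Finset ℤ := σ.W k b l i \ σ.D k b l i

/-- S-elements at `l` inside the cone -/
noncomputable def Sc (σ : Sig) (k b l i : ℤ) : Finset (ℤ × ℤ) :=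
  (σ.W k b l i ×ˢ σ.W k b l i).filter (fun p => σ.SE b l p.1 p.2)

/-- far members with a facing edge before them -/
noncomputable def M (σ : Sig) (k b l i : ℤ) : Finset ℤ :=
  (σ.Far k b l i).filter (fun r => ∃ a, σ.FE (σ.W k b l i) l a r)

/-- the same, not the last far member -/
noncomputable def M' (σ : Sig) (k b l i : ℤ) : Finset ℤ :=
  (σ.M k b l i).filter (fun r => ∃ r' ∈ σ.Far k b l i, σ.ccw l r r')

variable {σ : Sig}

theorem mem_D {k b l i r : ℤ} : r ∈ σ.D k b l i ↔ (l < r ∧ r ≤ b) ∧ σ.PL k l r ∧ σ.lo l r = i := by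
  simp only [D, mem_filter, mem_Ioc]

theorem mem_Far {k b l i r : ℤ} : r ∈ σ.Far k b l i ↔ r ∈ σ.D k b l i ∧ k ≤ r - l := by
  simp only [Far, mem_filter]

theorem mem_W {k b l i y : ℤ} : y ∈ σ.W k b l i ↔ (l < y ∧ y ≤ b) ∧
    (∃ r ∈ σ.Far k b l i, r = y ∨ σ.ccw l r y) ∧ (∃ r ∈ σ.Far k b l i, r = y ∨ σ.ccw l y r) := by
  simp only [W, mem_filter, mem_Ioc]

theorem mem_M {k b l i r : ℤ} : r ∈ σ.M k b l i ↔ r ∈ σ.Far k b l i ∧ ∃ a, σ.FE (σ.W k b l i) l a r := by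
  simp only [M, mem_filter]

theorem mem_M' {k b l i r : ℤ} : r ∈ σ.M' k b l i ↔ r ∈ σ.M k b l i ∧ ∃ r' ∈ σ.Far k b l i, σ.ccw l r r' := by
  simp only [M', mem_filter]

theorem Far_sub_W {k b l i r : ℤ} (h : r ∈ σ.Far k b l i) : r ∈ σ.W k b l i :=
  mem_W.2 ⟨(mem_D.1 (mem_Far.1 h).1).1, ⟨r, h, Or.inl rfl⟩, r, h, Or.inl rfl⟩

/-- for a member `r` of `D k b l i`: the good quadruple -/
theorem D_good {k b l i r : ℤ} (h : r ∈ σ.D k b l i) : σ.Good l r i (σ.hi l r) ∧ i < σ.hi l r ∧ i - l < k ∧ r - σ.hi l r < k := by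
  obtain ⟨_, ⟨h1, h2, h3, h4⟩, h5⟩ := mem_D.1 h
  have := Good_choose h1
  rw [h5] at this h2 h3
  exact ⟨this, h2, h3, h4⟩

end Sig
end ET
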