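import Pool.Agent.Lib.MP_4beb96_co.EMT.GTri

set_option autoImplicit false

/-! EMT-GExc: the exceptional triangles.  `n = b + 1 - a`.

For `t = (l, m, r) ∈ TriSet`:  α: no `z ∈ (l, m)` with `G z r`;  β: no `z ∈ (r, b]` with `G m z`;  α': no `z ∈ (m, r)` with `G l z`;  β': no `z ∈ [a, l)` with `G z m`.
Numbers: `#(¬α ∧ ¬β) ≤ S` (`F1`); `#(¬α' ∧ ¬β') ≤ S(σ.mir) ≤ S + 2 n` (`F1` for `σ.mir`: `(l, m, r) ↦ (-r, -m, -l)`, `G_mir`; `S_mir_le`);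
 `#α ≤ g` (injective to `(m, r)`), `#β ≤ g` (to `(l, m)`), `#α' ≤ g` (to `(l, m)`: if `r < r'` are both possible then `z = r` contradicts α' for `r'`), `#β' ≤ g` (to `(m, r)`), `#(β ∧ β') ≤ n` (to `m`).
Let `t = #TriSet`.  `2 g - 6 n - S ≤ t` (`tri_low`) and `t ≤ 2 g + S` (`tri_up`).
 `#β ≥ t - #α - S ≥ g - 6 n - 2 S`.   `#β' ≥ t - #α' - (S + 2 n) ≥ g - 8 n - 2 S`.
 `#(β ∨ β') ≥ #β + #β' - n ≥ 2 g - 15 n - 4 S`, so `#(¬β ∧ ¬β') ≤ 2 g + S - 2 g + 15 n + 4 S = 15 n + 5 S`.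
 `#(β ∧ ¬α') ≤ #(β ∧ β') + #(¬α' ∧ ¬β') ≤ n + S + 2 n`.
 Exceptional: `(¬β ∧ ¬β') ∨ (β ∧ ¬α')`: at most `18 n + 6 S`. -/

namespace ET
open Finset
open scoped Classical

namespace Sig
variable {σ : Sig}

/-- exceptional triangle of `G` -/
def Exc (σ : Sig) (a b l m r : ℤ) : Prop :=
  σ.TriG l m r ∧
  (((∃ z, r < z ∧ z ≤ b ∧ σ.G m z) ∧ (∃ z, a ≤ z ∧ z < l ∧ σ.G z m)) ∨
   ((¬ ∃ z, r < z ∧ z ≤ b ∧ σ.G m z) ∧ (∃ z, m < z ∧ z < r ∧ σ.G l z)))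

noncomputable def ExcSet (σ : Sig) (a b : ℤ) : Finset (ℤ × ℤ × ℤ) :=
  (trip a b).filter (fun t => σ.Exc a b t.1 t.2.1 t.2.2)

theorem exc_mem_TriSet {a b : ℤ} {t : ℤ × ℤ × ℤ} : t ∈ σ.TriSet a b ↔ a ≤ t.1 ∧ t.2.2 ≤ b ∧ σ.TriG t.1 t.2.1 t.2.2 := by
  simp only [TriSet, mem_filter, mem_trip]
  constructor
  · rintro ⟨⟨⟨h1, _⟩, _, _, h2⟩, h⟩; exact ⟨h1, h2, h⟩
  · rintro ⟨h1, h2, h⟩
    have h3 := h.1.1; have h4 := h.2.1.1
    exact ⟨⟨⟨h1, by omega⟩, ⟨by omega, by omega⟩, by omega, h2⟩, h⟩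

/-- not α -/
def ENA (σ : Sig) (t : ℤ × ℤ × ℤ) : Prop := ∃ z, t.1 < z ∧ z < t.2.1 ∧ σ.G z t.2.2
/-- not β -/
def ENB (σ : Sig) (b : ℤ) (t : ℤ × ℤ × ℤ) : Prop := ∃ z, t.2.2 < z ∧ z ≤ b ∧ σ.G t.2.1 z
/-- not α' -/
def ENA' (σ : Sig) (t : ℤ × ℤ × ℤ) : Prop := ∃ z, t.2.1 < z ∧ z < t.2.2 ∧ σ.G t.1 z
/-- not β' -/
def ENB' (σ : Sig) (a : ℤ) (t : ℤ × ℤ × ℤ) : Prop := ∃ z, a ≤ z ∧ z < t.1 ∧ σ.G z t.2.1

theorem exc_h1 {a b : ℤ} : ((σ.TriSet a b).filter (fun t => σ.ENA t ∧ σ.ENB b t)).card ≤ σ.S a b := by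
  unfold S
  refine card_le_card (fun t ht => ?_)
  rw [mem_filter, exc_mem_TriSet] at ht
  obtain ⟨⟨h1, h2, h3⟩, ⟨z, z1, z2, z3⟩, w, w1, w2, w3⟩ := ht
  rw [mem_SSet]
  exact ⟨h1, F1 h3 h2 z1 z2 z3 w2 w1 w3⟩

theorem exc_h2 {a b : ℤ} : ((σ.TriSet a b).filter (fun t => σ.ENA' t ∧ σ.ENB' a t)).card ≤ σ.mir.S (-b) (-a) := by
  unfold S
  refine card_le_card_of_injOn (fun t => (-t.2.2, -t.2.1, -t.1)) ?_ ?_
  · rintro ⟨l, m, r⟩ ht
    rw [mem_coe, mem_filter, exc_mem_TriSet] at ht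
    obtain ⟨⟨h1, h2, h3⟩, ⟨z, z1, z2, z3⟩, w, w1, w2, w3⟩ := ht
    simp only [] at h1 h2 h3 z1 z2 z3 w1 w2 w3
    rw [mem_coe, mem_SSet]
    show -b ≤ -r ∧ σ.mir.SE (-a) (-r) (-m) (-l)
    refine ⟨by omega, ?_⟩
    exact F1 (σ := σ.mir) (z := -z) (z' := -w) ⟨G_mir.2 h3.2.1, G_mir.2 h3.1, G_mir.2 h3.2.2⟩ (by omega) (by omega) (by omega)
      (G_mir.2 z3) (by omega) (by omega) (G_mir.2 w3)
  · rintro ⟨x, y, z⟩ _ ⟨x', y', z'⟩ _ h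
    simp only [Prod.mk.injEq, neg_inj] at h ⊢; tauto

theorem exc_h3 {a b : ℤ} : ((σ.TriSet a b).filter (fun t => ¬ σ.ENA t)).card ≤ σ.g a b := by
  unfold g
  refine card_le_card_of_injOn (fun t => (t.2.1, t.2.2)) ?_ ?_
  · intro t ht
    rw [mem_coe, mem_filter, exc_mem_TriSet] at ht
    rw [mem_coe, mem_filter, mem_pairs]
    have h3 := ht.1.2.2.1.1; have h4 := ht.1.2.2.2.1.1; have h5 := ht.1.1; have h6 := ht.1.2.1
    exact ⟨⟨by simp only []; omega, h4, h6⟩, ht.1.2.2.2.1⟩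
  · rintro ⟨l, m, r⟩ h1 ⟨l', m', r'⟩ h2 h
    rw [mem_coe, mem_filter, exc_mem_TriSet] at h1 h2
    simp only [Prod.mk.injEq] at h
    obtain ⟨rfl, rfl⟩ := h
    have key : ∀ {l l' m r : ℤ}, l < l' → σ.TriG l' m r → ¬ σ.ENA (l, m, r) → False :=
      fun h g n => n ⟨_, h, g.1.1, g.2.2⟩
    rcases lt_trichotomy l l' with h | h | h
    · exact (key h h2.1.2.2 h1.2).elim
    · rw [h]
    · exact (key h h1.1.2.2 h2.2).elim

theorem exc_h5 {a b : ℤ} : ((σ.TriSet a b).filter (fun t => ¬ σ.ENA' t)).card ≤ σ.g a b := by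
  unfold g
  refine card_le_card_of_injOn (fun t => (t.1, t.2.1)) ?_ ?_
  · intro t ht
    rw [mem_coe, mem_filter, exc_mem_TriSet] at ht
    rw [mem_coe, mem_filter, mem_pairs]
    have h3 := ht.1.2.2.1.1; have h4 := ht.1.2.2.2.1.1; have h5 := ht.1.1; have h6 := ht.1.2.1
    exact ⟨⟨h5, h3, by simp only []; omega⟩, ht.1.2.2.1⟩
  · rintro ⟨l, m, r⟩ h1 ⟨l', m', r'⟩ h2 h
    rw [mem_coe, mem_filter, exc_mem_TriSet] at h1 h2
    simp only [Prod.mk.injEq] at h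
    obtain ⟨rfl, rfl⟩ := h
    have key : ∀ {l m r r' : ℤ}, r < r' → σ.TriG l m r → ¬ σ.ENA' (l, m, r') → False :=
      fun h g n => n ⟨_, g.2.1.1, h, g.2.2⟩
    rcases lt_trichotomy r r' with h | h | h
    · exact (key h h1.1.2.2 h2.2).elim
    · rw [h]
    · exact (key h h2.1.2.2 h1.2).elim

theorem exc_h7 {a b : ℤ} : ((σ.TriSet a b).filter (fun t => ¬ σ.ENB b t ∧ ¬ σ.ENB' a t)).card ≤ (Icc a b).card := by
  refine card_le_card_of_injOn (fun t => t.2.1) ?_ ?_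
  · intro t ht
    rw [mem_coe, mem_filter, exc_mem_TriSet] at ht
    rw [mem_coe, mem_Icc]
    have h3 := ht.1.2.2.1.1; have h4 := ht.1.2.2.2.1.1; have h5 := ht.1.1; have h6 := ht.1.2.1
    exact ⟨by simp only []; omega, by simp only []; omega⟩
  · rintro ⟨l, m, r⟩ h1 ⟨l', m', r'⟩ h2 h
    rw [mem_coe, mem_filter, exc_mem_TriSet] at h1 h2
    simp only [] at h
    subst h
    have key : ∀ {l m r l' r' : ℤ}, r < r' → r' ≤ b → σ.TriG l' m r' → ¬ σ.ENB b (l, m, r) → False :=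
      fun h hb g n => n ⟨_, h, hb, g.2.1⟩
    have key' : ∀ {l m r l' r' : ℤ}, l' < l → a ≤ l' → σ.TriG l' m r' → ¬ σ.ENB' a (l, m, r) → False :=
      fun h ha g n => n ⟨_, ha, h, g.1⟩
    have e1 : r = r' := by
      rcases lt_trichotomy r r' with h | h | h
      · exact (key h h2.1.2.1 h2.1.2.2 h1.2.1).elim
      · exact h
      · exact (key h h1.1.2.1 h1.1.2.2 h2.2.1).elim
    have e2 : l = l' := by
      rcases lt_trichotomy l l' with h | h | h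
      · exact (key' h h1.1.1 h1.1.2.2 h2.2.2).elim
      · exact h
      · exact (key' h h2.1.1 h2.1.2.2 h1.2.2).elim
    rw [e1, e2]

theorem exc_le {a b : ℤ} (hab : a ≤ b) : ((σ.ExcSet a b).card : ℤ) ≤ 18 * (b + 1 - a) + 6 * σ.S a b := by
  have hlow := tri_low (σ := σ) hab
  have hmir := S_mir_le (σ := σ) hab
  have h1 := exc_h1 (σ := σ) (a := a) (b := b)
  have h2 := exc_h2 (σ := σ) (a := a) (b := b)
  have h3 := exc_h3 (σ := σ) (a := a) (b := b)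
  have h5 := exc_h5 (σ := σ) (a := a) (b := b)
  have h7 := exc_h7 (σ := σ) (a := a) (b := b)
  rw [Int.card_Icc] at h7
  have c0 : (σ.ExcSet a b).card ≤ ((σ.TriSet a b).filter (fun t => (σ.ENB b t ∧ σ.ENB' a t) ∨ (¬ σ.ENB b t ∧ σ.ENA' t))).card := by
    refine card_le_card (fun t ht => ?_)
    rw [ExcSet, mem_filter] at ht
    rw [mem_filter, TriSet, mem_filter]
    exact ⟨⟨ht.1, ht.2.1⟩, ht.2.2⟩
  generalize σ.TriSet a b = T at *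
  have c1 : T.card ≤ (T.filter (fun t => ¬ σ.ENA t)).card + (T.filter (fun t => ¬ σ.ENB b t)).card +
      (T.filter (fun t => σ.ENA t ∧ σ.ENB b t)).card := by
    rw [card_eq_sum_ones T]
    simp only [card_filter, ← sum_add_distrib]
    refine sum_le_sum (fun t _ => ?_)
    by_cases p : σ.ENA t <;> by_cases q : σ.ENB b t <;> simp [p, q]
  have c2 : T.card ≤ (T.filter (fun t => ¬ σ.ENA' t)).card + (T.filter (fun t => ¬ σ.ENB' a t)).card +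
      (T.filter (fun t => σ.ENA' t ∧ σ.ENB' a t)).card := by
    rw [card_eq_sum_ones T]
    simp only [card_filter, ← sum_add_distrib]
    refine sum_le_sum (fun t _ => ?_)
    by_cases p : σ.ENA' t <;> by_cases q : σ.ENB' a t <;> simp [p, q]
  have c3 : (T.filter (fun t => (σ.ENB b t ∧ σ.ENB' a t) ∨ (¬ σ.ENB b t ∧ σ.ENA' t))).card +
      (T.filter (fun t => ¬ σ.ENB b t)).card + (T.filter (fun t => ¬ σ.ENB' a t)).card ≤
      T.card + 2 * (T.filter (fun t => ¬ σ.ENB b t ∧ ¬ σ.ENB' a t)).card + (T.filter (fun t => σ.ENA' t ∧ σ.ENB' a t)).card := by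
    rw [card_eq_sum_ones T]
    simp only [card_filter, ← sum_add_distrib, mul_sum]
    refine sum_le_sum (fun t _ => ?_)
    by_cases p : σ.ENB b t <;> by_cases q : σ.ENB' a t <;> by_cases s : σ.ENA' t <;> simp [p, q, s]
  omega

end Sig
end ET
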