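import Pool.Agent.Lib.MP_4beb96_co.EMT.CoverB
import Pool.Agent.Lib.MP_4beb96_co.EMT.GExc

set_option autoImplicit false

/-! EMT-Cover: covered points of a block.

Setting: pivot `l`; `R = {r | G l r}`.  A block: `c ≤ d`, `G l c`, `G l d`, and for all `m` with `G l m`, `c ≤ m ≤ d`: some `z` with `a ≤ z < l`, `G z m` (i.e. `l` is not the last element of `L_m`).  `B = {m | G l m, c ≤ m ≤ d}`.

gap: if `G l x`, `G l y`, `x < y` and no `z ∈ (x, y)` has `G l z`, then `G x y`.  Proof: let `z ∈ (x, y)`.  Let `R x y := ...`: choose `z` in `(x, y)` with greatest slope from `l`; precisely: claim `U l x z` for all `z ∈ (x, y)` (i.e. `z` is below the line `l x` extended):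
   suppose not for some `z`; among the `z ∈ (x, y)` take the `<_l`-greatest, `z0` (`exists_greatest` with `R := ccw l`): `ccw l x z0` (as `ccw l x z`, `z ≤_l z0`).  Then `G l z0`: for `y' ∈ (l, z0)`: `y' < x`: `¬ U l y' x` and `¬ U l x z0`: `¬ U l y' z0` (`n13`); `y' = x` ok; `y' ∈ (x, z0)`: `ccw l y' z0` i.e. `¬ U l y' z0`.  Contradiction to `no z`.
   So `U l x z`.  And `¬ U l x y` (`G l y`).  For `l < x < z < y`: U(l x z) = +, U(l x y) = -, so `¬ U x z y` (if `U x z y`, `p14`: `U l x y`).  Hence `G x y`.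
ext_left: if `G p q`, `c ≤ p`, `q ≤ d`, `v ∈ B`, `p < v < q`, then there is `p' ∈ B`, `p' ≤ p`, `G p' q`.  If `G l p` take `p' = p`.  Otherwise let `x` = the greatest element of `B` below `p` (exists: `c < p`), `y` = the smallest element of `B` above `p` (`y ≤ v`).
   `G x y` (gap).  `¬ U x p y`.  `y < q`, `¬ U p y q` (`G p q`).  For `x < p < y < q`: `n14`: `¬ U x p q`, `n24`: `¬ U x y q`.  For `z ∈ (x, q)`: `z < p`: `¬ U x z y` (`G x y`), `¬ U x y q`, `z < y < q`: `n13`: `¬ U x z q`.  `z = p` ok.  `p < z`: `¬ U x p q`, `¬ U p z q`: `n24` for `x < p < z < q`: `¬ U x z q`.  So `G x q`.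
ext_right: the mirror image: if `G p q`, `p ∈ B`, `q ≤ d`, `v ∈ B`, `p < v < q`: there is `q' ∈ B`, `q ≤ q'`, `G p q'`.  If `G l q` ok.  Otherwise `x < q < y` consecutive in `B` around `q`, `v ≤ x`.  `G x y`, `¬ U x q y`; `¬ U p x q`; for `p < x < q < y`: `n14`:  (`¬ U p x q`, `¬ U x q y`) → `¬ U p x y`, `n24` → `¬ U p q y`.
   `z ∈ (p, y)`: `z < q`: `¬ U p z q`, `¬ U p q y`: `n13`: `¬ U p z y`.  `z = q` ok.  `q < z < y`: `¬ U x z y` (`G x y`), `¬ U p x y`, `p < x < z < y`: `n24`: `¬ U p z y`.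
So every covered `v ∈ B` (there are `p < v < q`, `c ≤ p`, `q ≤ d`, `G p q`) has `p, q ∈ B` with `G p q`, `p < v < q`.
inj: for a covered `v` choose such `(p, q)` with `q - p` minimal.  Then `v` is the `<_p`-greatest element of `B ∩ (p, q)`: let `m` be the greatest one; then `G p m` and `G m q` — proof: let `z ∈ (p, m)`.  if `z ∈ B`: `ccw p z m` ok.  If `z ∉ B`: let `x < z < y` consecutive in `B`, `p ≤ x`, `y ≤ m`: `¬ U x z y` (gap);
    `x = p`: `y = m` fine, or `¬ U p z y`, `¬ U p y m` (`n13`): `¬ U p z m`.  `p < x`: `¬ U p x m`.  If `y = m`: `¬ U x z m`, `¬ U p x m` → `n24`: `¬ U p z m`.  If `y < m`: also `¬ U p y m`; five points `p < x < z < y < m`: claim `¬ U p z m`: suppose `U p z m`.  `U p z m`, `¬ U p y m`: `p < z < y < m`: then `¬ U z y m` ... (if `U z y m`: `p24`: `U p y m`) and `U p z y` (if `¬ U p z y`: `n13` with `¬ U p y m` gives `¬ U p z m`).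
      `U p z y` and `¬ U x z y`: `p < x < z < y`: if `¬ U p x y`.. then `n24`: `¬ U p z y`, contradiction; so `U p x y`, and `¬ U p x m`: `p < x < y < m`: `¬ U p y m`, `¬ U p x m`, `U p x y`: then `¬ U x y m` (if `U x y m`, `p14`: `U p x m`).  `U p z m`, `¬ U p x m`: `p < x < z < m`: `U p x z`?? if `U p x z` then with `U p z m` (`p13`): `U p x m`, contradiction; so `¬ U p x z`, and `U x z m` (if `¬ U x z m`: `n24` with `¬ U p x m`: `¬ U p z m`).
      `x < z < y < m`: `¬ U x z y`, `¬ U x y m`: `n13`: `¬ U x z m`, contradiction. OK.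
    `z ∈ (m, q)`: claim `¬ U m z q`.  If `z ∈ B`: `ccw p z m`, i.e. (`p < m < z`) `U p m z`; `¬ U p m q` (`G p q`): for `p < m < z < q`: `¬ U m z q` (if `U m z q`: `p14`: `U p m q`).  If `z ∉ B`: `x < z < y` consecutive, `m ≤ x`, `y ≤ q`, `¬ U x z y`; `x = m` or `¬ U m x q` (just shown), `y = q` or `¬ U m y q` (shown): the same five point argument (with `m` for `p` and `q` for `m`).
   If `m ≠ v` then `v ∈ (p, m)` or `v ∈ (m, q)`, contradicting minimality.  So `v = m` is determined by `(p, q)`.  (`between` below is the common argument: for `p < x < z < y < m` etc.)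
cover: hence `v ↦ (l, p, q)` is injective from the covered points of `B` to `{t ∈ ExcSet | t.1 = l}`: `TriG l p q` (`p, q ∈ B`); `l` is not last for `p`: there is `z' ∈ [a, l)`, `G z' p`; if some `z ∈ (q, b]` has `G p z` we are in the first alternative; otherwise in the second one with `z = v` (`p < v < q`, `G l v`). -/

namespace ET
open Finset
open scoped Classical

namespace Sig
variable {σ : Sig}

private theorem cv_cons {l p z m : ℤ} (hp : σ.G l p) (hm : σ.G l m) (hpz : p < z) (hzm : z < m)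
    (hz : ¬ σ.G l z) : ∃ x y, σ.G l x ∧ σ.G l y ∧ p ≤ x ∧ x < z ∧ z < y ∧ y ≤ m ∧ ¬ σ.U x z y := by
  obtain ⟨x, ⟨x1, x2, x3⟩, x4⟩ := Int.exists_greatest_of_bdd (P := fun x => σ.G l x ∧ p ≤ x ∧ x < z)
    ⟨z, fun t ht => ht.2.2.le⟩ ⟨p, hp, le_refl _, hpz⟩
  obtain ⟨y, ⟨y1, y2, y3⟩, y4⟩ := Int.exists_least_of_bdd (P := fun y => σ.G l y ∧ z < y ∧ y ≤ m)
    ⟨z, fun t ht => ht.2.1.le⟩ ⟨m, hm, hzm, le_refl _⟩
  refine ⟨x, y, x1, y1, x2, x3, y2, y3, ?_⟩
  have hG : σ.G x y := by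
    refine gap x1 y1 (by omega) (fun t t1 t2 t3 => ?_)
    rcases lt_trichotomy t z with h | h | h
    · have := x4 t ⟨t3, by omega, h⟩
      omega
    · exact hz (h ▸ t3)
    · have := y4 t ⟨t3, h, by omega⟩
      omega
  exact hG.2 z x3 y2

private theorem cv_max {l p q m : ℤ} (hp : σ.G l p) (hq : σ.G l q) (hpq : σ.G p q) (hm : σ.G l m)
    (hpm : p < m) (hmq : m < q)
    (hmax : ∀ z, σ.G l z → p < z → z < q → z ≠ m → σ.ccw p z m) : σ.G p m ∧ σ.G m q := by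
  constructor
  · refine ⟨hpm, fun z z1 z2 => ?_⟩
    by_cases hz : σ.G l z
    · exact (ccw_iff1 z1 z2).1 (hmax z hz z1 (by omega) (by omega))
    · obtain ⟨x, y, x1, y1, x2, x3, y2, y3, h⟩ := cv_cons hp hm z1 z2 hz
      refine between x2 x3 y2 y3 h ?_ ?_
      · rcases eq_or_lt_of_le x2 with h1 | h1
        · exact Or.inl h1.symm
        · exact Or.inr ((ccw_iff1 h1 (by omega)).1 (hmax x x1 h1 (by omega) (by omega)))
      · rcases eq_or_lt_of_le y3 with h1 | h1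
        · exact Or.inl h1
        · exact Or.inr ((ccw_iff1 (by omega) h1).1 (hmax y y1 (by omega) (by omega) (by omega)))
  · have key : ∀ z, σ.G l z → m < z → z < q → ¬ σ.U m z q := by
      intro z hz z1 z2 hU
      have h1 := (ccw_iff4 (a := p) (b := m) (c := z) hpm z1).1 (hmax z hz (by omega) z2 (by omega))
      exact hpq.2 m hpm hmq (σ.p14 hpm z1 z2 h1 hU)
    refine ⟨hmq, fun z z1 z2 => ?_⟩
    by_cases hz : σ.G l z
    · exact key z hz z1 z2
    · obtain ⟨x, y, x1, y1, x2, x3, y2, y3, h⟩ := cv_cons hm hq z1 z2 hz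
      refine between x2 x3 y2 y3 h ?_ ?_
      · rcases eq_or_lt_of_le x2 with h1 | h1
        · exact Or.inl h1.symm
        · exact Or.inr (key x x1 h1 (by omega))
      · rcases eq_or_lt_of_le y3 with h1 | h1
        · exact Or.inl h1
        · exact Or.inr (key y y1 (by omega) h1)

private theorem cv_choose {l c d v : ℤ} (hv : σ.G l v)
    (h : ∃ p q, σ.G l p ∧ σ.G l q ∧ c ≤ p ∧ p < v ∧ v < q ∧ q ≤ d ∧ σ.G p q) :
    ∃ p q, σ.G l p ∧ σ.G l q ∧ c ≤ p ∧ p < v ∧ v < q ∧ q ≤ d ∧ σ.G p q ∧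
      ∀ z, σ.G l z → p < z → z < q → z ≠ v → σ.ccw p z v := by
  have hn : ∃ n : ℕ, ∃ p q, (σ.G l p ∧ σ.G l q ∧ c ≤ p ∧ p < v ∧ v < q ∧ q ≤ d ∧ σ.G p q) ∧
      (q - p).toNat = n := by
    obtain ⟨p, q, h⟩ := h
    exact ⟨_, p, q, h, rfl⟩
  obtain ⟨p, q, ⟨h1, h2, h3, h4, h5, h6, h7⟩, h8⟩ := Nat.find_spec hn
  have hmin : ∀ p' q', (σ.G l p' ∧ σ.G l q' ∧ c ≤ p' ∧ p' < v ∧ v < q' ∧ q' ≤ d ∧ σ.G p' q') →
      (q - p).toNat ≤ (q' - p').toNat := by
    intro p' q' h'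
    rw [h8]
    exact Nat.find_min' hn ⟨p', q', h', rfl⟩
  refine ⟨p, q, h1, h2, h3, h4, h5, h6, h7, ?_⟩
  obtain ⟨m, hm, hmax⟩ := exists_greatest ((Ioo p q).filter (fun z => σ.G l z))
    ⟨v, by rw [mem_filter, mem_Ioo]; exact ⟨⟨h4, h5⟩, hv⟩⟩ (fun x y => σ.ccw p x y)
    (fun x hx y hy z hz a b => by
      rw [mem_filter, mem_Ioo] at hx hy hz
      exact trL hx.1.1 hy.1.1 hz.1.1 a b)
    (fun x hx y hy hxy => by
      rw [mem_filter, mem_Ioo] at hx hy
      exact total' (by omega) (by omega) hxy)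
  rw [mem_filter, mem_Ioo] at hm
  obtain ⟨⟨m1, m2⟩, m3⟩ := hm
  have hmax' : ∀ z, σ.G l z → p < z → z < q → z ≠ m → σ.ccw p z m := fun z a b c e =>
    hmax z (by rw [mem_filter, mem_Ioo]; exact ⟨⟨b, c⟩, a⟩) e
  obtain ⟨g1, g2⟩ := cv_max h1 h2 h7 m3 m1 m2 hmax'
  have hmv : m = v := by
    rcases lt_trichotomy m v with h | h | h
    · have := hmin m q ⟨m3, h2, by omega, h, h5, h6, g2⟩
      omega
    · exact h
    · have := hmin p m ⟨h1, m3, h3, h4, h, by omega, g1⟩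
      omega
  rw [← hmv]
  exact hmax'

theorem cover {a b l c d : ℤ} (hal : a ≤ l) (hdb : d ≤ b) (hc : σ.G l c) (hd : σ.G l d)
    (hB : ∀ m, σ.G l m → c ≤ m → m ≤ d → ∃ z, a ≤ z ∧ z < l ∧ σ.G z m) :
    ((Icc c d).filter (fun v => σ.G l v ∧ ∃ p q, c ≤ p ∧ p < v ∧ v < q ∧ q ≤ d ∧ σ.G p q)).card ≤
      ((σ.ExcSet a b).filter (fun t => t.1 = l)).card := by
  have hch : ∀ v ∈ (Icc c d).filter (fun v => σ.G l v ∧ ∃ p q, c ≤ p ∧ p < v ∧ v < q ∧ q ≤ d ∧
      σ.G p q), ∃ p q, σ.G l p ∧ σ.G l q ∧ c ≤ p ∧ p < v ∧ v < q ∧ q ≤ d ∧ σ.G p q ∧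
      ∀ z, σ.G l z → p < z → z < q → z ≠ v → σ.ccw p z v := by
    intro v hv
    rw [mem_filter] at hv
    obtain ⟨-, hv, p, q, h1, h2, h3, h4, h5⟩ := hv
    exact cv_choose hv (cover_ext hc hd hv h1 h2 h3 h4 h5)
  choose! p q hpq using hch
  refine card_le_card_of_injOn (fun v => (l, p v, q v)) ?_ ?_
  · intro v hv
    obtain ⟨h1, h2, h3, h4, h5, h6, h7, -⟩ := hpq v hv
    have hv' := hv
    rw [mem_coe, mem_filter] at hv'
    have hlp := h1.1
    rw [mem_coe, mem_filter, ExcSet, mem_filter, mem_trip]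
    dsimp only
    refine ⟨⟨⟨⟨hal, by omega⟩, ⟨by omega, by omega⟩, by omega, by omega⟩, ⟨h1, h7, h2⟩, ?_⟩, rfl⟩
    by_cases h : ∃ z, q v < z ∧ z ≤ b ∧ σ.G (p v) z
    · exact Or.inl ⟨h, hB (p v) h1 h3 (by omega)⟩
    · exact Or.inr ⟨h, v, h4, h5, hv'.2.1⟩
  · intro v hv v' hv' h
    simp only [Prod.mk.injEq, true_and] at h
    obtain ⟨h1, h2, h3, h4, h5, h6, h7, h8⟩ := hpq v hv
    obtain ⟨g1, g2, g3, g4, g5, g6, g7, g8⟩ := hpq v' hv'
    have k1 := hv
    have k2 := hv'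
    rw [mem_coe, mem_filter] at k1 k2
    by_contra hne
    have a1 := h8 v' k2.2.1 (by omega) (by omega) (fun e => hne e.symm)
    have a2 := g8 v k1.2.1 (by omega) (by omega) hne
    rw [← h.1] at a2
    exact asymm' a1 a2

end Sig
end ET
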