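import Pool.Agent.Lib.MP_4beb96_co.EMT.Sym
import Pool.Agent.Lib.MP_4beb96_co.EMT.Pure

set_option autoImplicit false

/-! EMT-CoverA: covered points of a block.

Setting: pivot `l`; `R = {r | G l r}`.  A block: `c ≤ d`, `G l c`, `G l d`, and for all `m` with `G l m`, `c ≤ m ≤ d`: some `z` with `a ≤ z < l`, `G z m` (i.e. `l` is not the last element of `L_m`).  `B = {m | G l m, c ≤ m ≤ d}`.

gap: if `G l x`, `G l y`, `x < y` and no `z ∈ (x, y)` has `G l z`, then `G x y`.  Proof: let `z ∈ (x, y)`.  Let `R x y := ...`: choose `z` in `(x, y)` with greatest slope from `l`; precisely: claim `U l x z` for all `z ∈ (x, y)` (i.e. `z` is below the line `l x` extended):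
   suppose not for some `z`; among the `z ∈ (x, y)` take the `<_l`-greatest, `z0` (`exists_greatest` with `R := ccw l`): `ccw l x z0` (as `ccw l x z`, `z ≤_l z0`).  Then `G l z0`: for `y' ∈ (l, z0)`: `y' < x`: `¬ U l y' x` and `¬ U l x z0`: `¬ U l y' z0` (`n13`); `y' = x` ok; `y' ∈ (x, z0)`: `ccw l y' z0` i.e. `¬ U l y' z0`.  Contradiction to `no z`.
   So `U l x z`.  And `¬ U l x y` (`G l y`).  For `l < x < z < y`: U(l x z) = +, U(l x y) = -, so `¬ U x z y` (if `U x z y`, `p14`: `U l x y`).  Hence `G x y`.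
ext_left: if `G p q`, `c ≤ p`, `q ≤ d`, `v ∈ B`, `p < v < q`, then there is `p' ∈ B`, `p' ≤ p`, `G p' q`.  If `G l p` take `p' = p`.  Otherwise let `x` = the greatest element of `B` below `p` (exists: `c < p`), `y` = the smallest element of `B` above `p` (`y ≤ v`).
   `G x y` (gap).  `¬ U x p y`.  `y < q`, `¬ U p y q` (`G p q`).  For `x < p < y < q`: `n14`: `¬ U x p q`, `n24`: `¬ U x y q`.  For `z ∈ (x, q)`: `z < p`: `¬ U x z y` (`G x y`), `¬ U x y q`, `z < y < q`: `n13`: `¬ U x z q`.  `z = p` ok.  `p < z`: `¬ U x p q`, `¬ U p z q`: `n24` for `x < p < z < q`: `¬ U x z q`.  So `G x q`.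
ext_right: the mirror image: if `G p q`, `p ∈ B`, `q ≤ d`, `v ∈ B`, `p < v < q`: there is `q' ∈ B`, `q ≤ q'`, `G p q'`.  If `G l q` ok.  Otherwise `x < q < y` consecutive in `B` around `q`, `v ≤ x`.  `G x y`, `¬ U x q y`; `¬ U p x q`; for `p < x < q < y`: `n14`:  (`¬ U p x q`, `¬ U x q y`) → `¬ U p x y`, `n24` → `¬ U p q y`.
   `z ∈ (p, y)`: `z < q`: `¬ U p z q`, `¬ U p q y`: `n13`: `¬ U p z y`.  `z = q` ok.  `q < z < y`: `¬ U x z y` (`G x y`), `¬ U p x y`, `p < x < z < y`: `n24`: `¬ U p z y`.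
So every covered `v ∈ B` (there are `p < v < q`, `c ≤ p`, `q ≤ d`, `G p q`) has `p, q ∈ B` with `G p q`, `p < v < q`.
inj: for a covered `v` choose such `(p, q)` with `q - p` minimal.  Then `v` is the `<_p`-greatest element of `B ∩ (p, q)`: let `m` be the greatest one; then `G p m` and `G m q` — proof: let `z ∈ (p, m)`.  if `z ∈ B`: `ccw p z m` ok.  If `z ∉ B`: let `x < z < y` consecutive in `B`, `p ≤ x`, `y ≤ m`: `¬ U x z y` (gap);
    `x = p`: `y = m` fine, or `¬ U p z y`, `¬ U p y m` (`n13`): `¬ U p z m`.  `p < x`: `¬ U p x m`.  If `y = m`: `¬ U x z m`, `¬ U p x m` → `n24`: `¬ U p z m`.  If `y < m`: also `¬ U p y m`; five points `p < x < z < y < m`: claim `¬ U p z m`: suppose `U p z m`.  `U p z m`, `¬ U p y m`: `p < z < y < m`: then `¬ U z y m` ... (if `U z y m`: `p24`: `U p y m`) and `U p z y` (if `¬ U p z y`: `n13` with `¬ U p y m` gives `¬ U p z m`).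
      `U p z y` and `¬ U x z y`: `p < x < z < y`: if `¬ U p x y`.. then `n24`: `¬ U p z y`, contradiction; so `U p x y`, and `¬ U p x m`: `p < x < y < m`: `¬ U p y m`, `¬ U p x m`, `U p x y`: then `¬ U x y m` (if `U x y m`, `p14`: `U p x m`).  `U p z m`, `¬ U p x m`: `p < x < z < m`: `U p x z`?? if `U p x z` then with `U p z m` (`p13`): `U p x m`, contradiction; so `¬ U p x z`, and `U x z m` (if `¬ U x z m`: `n24` with `¬ U p x m`: `¬ U p z m`).
      `x < z < y < m`: `¬ U x z y`, `¬ U x y m`: `n13`: `¬ U x z m`, contradiction. OK.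
    `z ∈ (m, q)`: claim `¬ U m z q`.  If `z ∈ B`: `ccw p z m`, i.e. (`p < m < z`) `U p m z`; `¬ U p m q` (`G p q`): for `p < m < z < q`: `¬ U m z q` (if `U m z q`: `p14`: `U p m q`).  If `z ∉ B`: `x < z < y` consecutive, `m ≤ x`, `y ≤ q`, `¬ U x z y`; `x = m` or `¬ U m x q` (just shown), `y = q` or `¬ U m y q` (shown): the same five point argument (with `m` for `p` and `q` for `m`).
   If `m ≠ v` then `v ∈ (p, m)` or `v ∈ (m, q)`, contradicting minimality.  So `v = m` is determined by `(p, q)`.  (`between` below is the common argument: for `p < x < z < y < m` etc.)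
cover: hence `v ↦ (l, p, q)` is injective from the covered points of `B` to `{t ∈ ExcSet | t.1 = l}`: `TriG l p q` (`p, q ∈ B`); `l` is not last for `p`: there is `z' ∈ [a, l)`, `G z' p`; if some `z ∈ (q, b]` has `G p z` we are in the first alternative; otherwise in the second one with `z = v` (`p < v < q`, `G l v`). -/

namespace ET
open Finset
open scoped Classical

namespace Sig
variable {σ : Sig}

theorem gap {l x y : ℤ} (hx : σ.G l x) (hy : σ.G l y) (hxy : x < y) (h : ∀ z, x < z → z < y → ¬ σ.G l z) : σ.G x y := by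
  refine ⟨hxy, fun z hz1 hz2 => ?_⟩
  have hlx := hx.1
  have key : ∀ z, x < z → z < y → σ.U l x z := by
    intro z1 a1 a2
    by_contra hn
    obtain ⟨z0, hz0, hg⟩ := exists_greatest (Ioo x y) ⟨z1, mem_Ioo.2 ⟨a1, a2⟩⟩ (fun u v => σ.ccw l u v)
      (fun u hu v hv w hw h1 h2 => by
        rw [mem_Ioo] at hu hv hw
        exact trL (by omega) (by omega) (by omega) h1 h2)
      (fun u hu v hv huv => by
        rw [mem_Ioo] at hu hv
        exact total' (by omega) (by omega) huv)
    rw [mem_Ioo] at hz0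
    have c1 : σ.ccw l x z1 := (ccw_iff1 hlx a1).2 hn
    have c2 : σ.ccw l x z0 := by
      by_cases he : z1 = z0
      · rw [← he]; exact c1
      · exact trL (by omega) (by omega) (by omega) c1 (hg z1 (mem_Ioo.2 ⟨a1, a2⟩) he)
    have n2 : ¬ σ.U l x z0 := (ccw_iff1 hlx hz0.1).1 c2
    refine h z0 hz0.1 hz0.2 ⟨by omega, fun y' b1 b2 => ?_⟩
    rcases lt_trichotomy y' x with hh | hh | hh
    · exact σ.n13 b1 hh hz0.1 (hx.2 y' b1 hh) n2
    · rw [hh]; exact n2
    · exact (ccw_iff1 b1 b2).1 (hg y' (mem_Ioo.2 ⟨hh, by omega⟩) (by omega))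
  intro hU
  exact hy.2 x hlx hxy (σ.p14 hlx hz1 hz2 (key z hz1 hz2) hU)

/-- points under a polyline `x z y` below the line `p m` -/
theorem between {p x z y m : ℤ} (hpx : p ≤ x) (hxz : x < z) (hzy : z < y) (hym : y ≤ m) (h : ¬ σ.U x z y)
    (h1 : x = p ∨ ¬ σ.U p x m) (h2 : y = m ∨ ¬ σ.U p y m) : ¬ σ.U p z m := by
  rcases hpx.lt_or_eq with hpx | rfl
  · rcases hym.lt_or_eq with hym | rfl
    · have h1 := h1.resolve_left (by omega)
      have h2 := h2.resolve_left (by omega)
      have q1 := four (σ := σ) hpx hxz hzy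
      have q2 := four (σ := σ) hpx hxz (hzy.trans hym)
      have q3 := four (σ := σ) hpx (hxz.trans hzy) hym
      have q4 := four (σ := σ) (hpx.trans hxz) hzy hym
      have q5 := four (σ := σ) hxz hzy hym
      grind
    · exact σ.n24 hpx hxz hzy (h1.resolve_left (by omega)) h
  · rcases hym.lt_or_eq with hym | rfl
    · exact σ.n13 hxz hzy hym h (h2.resolve_left (by omega))
    · exact h

end Sig
end ET
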