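import Pool.Agent.Lib.MP_4beb96_co.EMT.CoverA

set_option autoImplicit false

/-! EMT-CoverB: covering edges of a block have ends in the block. -/

namespace ET
open Finset
open scoped Classical

namespace Sig
variable {σ : Sig}

private theorem cvb_near {σ : Sig} {l c v p : ℤ} (hc : σ.G l c) (hv : σ.G l v) (hcp : c < p) (hpv : p < v) (hnp : ¬ σ.G l p) :
    ∃ x y, σ.G l x ∧ σ.G l y ∧ c ≤ x ∧ x < p ∧ p < y ∧ y ≤ v ∧ σ.G x y := by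
  obtain ⟨x, hx, hxm⟩ : ∃ x, (c ≤ x ∧ x < p ∧ σ.G l x) ∧ ∀ z, c ≤ z → z < p → σ.G l z → z ≤ x := by
    have hsne : ((Icc c (p - 1)).filter (fun z => σ.G l z)).Nonempty :=
      ⟨c, by rw [mem_filter, mem_Icc]; exact ⟨⟨le_refl c, by omega⟩, hc⟩⟩
    obtain ⟨x, h1, h2⟩ := Finset.exists_max_image _ (fun z : ℤ => z) hsne
    rw [mem_filter, mem_Icc] at h1
    refine ⟨x, ⟨h1.1.1, by omega, h1.2⟩, fun z z1 z2 z3 => h2 z ?_⟩
    rw [mem_filter, mem_Icc]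
    exact ⟨⟨z1, by omega⟩, z3⟩
  obtain ⟨y, hy, hym⟩ : ∃ y, (p < y ∧ y ≤ v ∧ σ.G l y) ∧ ∀ z, p < z → z ≤ v → σ.G l z → y ≤ z := by
    have hsne : ((Icc (p + 1) v).filter (fun z => σ.G l z)).Nonempty :=
      ⟨v, by rw [mem_filter, mem_Icc]; exact ⟨⟨by omega, le_refl v⟩, hv⟩⟩
    obtain ⟨x, h1, h2⟩ := Finset.exists_min_image _ (fun z : ℤ => z) hsne
    rw [mem_filter, mem_Icc] at h1
    refine ⟨x, ⟨by omega, h1.1.2, h1.2⟩, fun z z1 z2 z3 => h2 z ?_⟩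
    rw [mem_filter, mem_Icc]
    exact ⟨⟨by omega, z2⟩, z3⟩
  refine ⟨x, y, hx.2.2, hy.2.2, hx.1, hx.2.1, hy.1, hy.2.1, ?_⟩
  refine gap hx.2.2 hy.2.2 (by omega) fun z h1 h2 h3 => ?_
  rcases lt_trichotomy z p with h | h | h
  · have := hxm z (by omega) h h3
    omega
  · exact hnp (h ▸ h3)
  · have := hym z h (by omega) h3
    omega

private theorem cvb_left {σ : Sig} {l c v p q : ℤ} (hc : σ.G l c) (hv : σ.G l v) (hcp : c ≤ p) (hpv : p < v) (hvq : v < q)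
    (hG : σ.G p q) : ∃ p', σ.G l p' ∧ c ≤ p' ∧ p' ≤ p ∧ σ.G p' q := by
  by_cases hp : σ.G l p
  · exact ⟨p, hp, hcp, le_refl p, hG⟩
  have hcp' : c < p := lt_of_le_of_ne hcp (fun h => hp (h ▸ hc))
  obtain ⟨x, y, hx, hy, h1, h2, h3, h4, hxy⟩ := cvb_near hc hv hcp' hpv hp
  refine ⟨x, hx, h1, by omega, by omega, ?_⟩
  have a1 : ¬ σ.U x p y := hxy.2 p h2 h3
  have a2 : ¬ σ.U p y q := hG.2 y h3 (by omega)
  have a3 : ¬ σ.U x p q := σ.n14 h2 h3 (by omega) a1 a2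
  have a4 : ¬ σ.U x y q := σ.n24 h2 h3 (by omega) a3 a2
  intro z hz1 hz2
  rcases lt_trichotomy z p with h | h | h
  · exact σ.n13 hz1 (by omega) (by omega) (hxy.2 z hz1 (by omega)) a4
  · rw [h]; exact a3
  · exact σ.n24 h2 h hz2 a3 (hG.2 z h hz2)

private theorem cvb_right {σ : Sig} {l d v p q : ℤ} (hd : σ.G l d) (hv : σ.G l v) (hpv : p < v) (hvq : v < q)
    (hqd : q ≤ d) (hG : σ.G p q) : ∃ q', σ.G l q' ∧ q ≤ q' ∧ q' ≤ d ∧ σ.G p q' := by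
  by_cases hq : σ.G l q
  · exact ⟨q, hq, le_refl q, hqd, hG⟩
  have hqd' : q < d := lt_of_le_of_ne hqd (fun h => hq (h ▸ hd))
  obtain ⟨x, y, hx, hy, h1, h2, h3, h4, hxy⟩ := cvb_near hv hd hvq hqd' hq
  refine ⟨y, hy, by omega, h4, by omega, ?_⟩
  have a1 : ¬ σ.U x q y := hxy.2 q h2 h3
  have a2 : ¬ σ.U p x q := hG.2 x (by omega) h2
  have a3 : ¬ σ.U p x y := σ.n14 (by omega) h2 h3 a2 a1
  have a4 : ¬ σ.U p q y := σ.n24 (by omega) h2 h3 a3 a1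
  intro z hz1 hz2
  rcases lt_trichotomy z q with h | h | h
  · exact σ.n13 hz1 h h3 (hG.2 z hz1 h) a4
  · rw [h]; exact a4
  · exact σ.n24 (by omega) (by omega) hz2 a3 (hxy.2 z (by omega) hz2)

theorem cover_ext {l c d v p q : ℤ} (hc : σ.G l c) (hd : σ.G l d) (hv : σ.G l v) (hcp : c ≤ p) (hpv : p < v) (hvq : v < q)
    (hqd : q ≤ d) (hG : σ.G p q) : ∃ p' q', σ.G l p' ∧ σ.G l q' ∧ c ≤ p' ∧ p' < v ∧ v < q' ∧ q' ≤ d ∧ σ.G p' q' := by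
  obtain ⟨p', h1, h2, h3, h4⟩ := cvb_left hc hv hcp hpv hvq hG
  obtain ⟨q', h5, h6, h7, h8⟩ := cvb_right hd hv (by omega) hvq hqd h4
  exact ⟨p', q', h1, h5, h2, by omega, by omega, h7, h8⟩

end Sig
end ET
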