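import Pool.Agent.Lib.MP_4beb96_co.EMT.GTriB

set_option autoImplicit false

/-! EMT-GTri: triangles of the graph `G` (pairs `l < r` with no point above).  `n = b + 1 - a`.

tri_iff: for `G l r` and `l < m < r`: `m ∈ AL l r ↔ G l m ∧ G m r`.  (`¬ U l m r` always holds.)
 (→) `z ∈ (l, m)`: `¬ U l z r`; if `U l z m` then `z` is inside the triangle `l m r` (`ccw l m r`): `ccw l m z` (`ccw_iff4`: `ccw l m z ↔ U l z m`), `ccw r l z` (`¬ U l z r`, `ccw_iff3`), and
   `ccw m r z`: otherwise `ccw m z r`... 4 points `l < z < m < r`: `U l z m`, `¬ U l z r`, `¬ U l m r`: `four`: then `¬ U z m r` (if `U z m r` then `p14` from `U l z m`, `U z m r`: `U l z r`). `¬ U z m r` is `ccw z m r`, i.e. `ccw m r z`. OK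
   `z ∈ (m, r)`: if `U m z r` then: `ccw m r z` (`ccw_iff4`), `ccw r l z`, and `ccw l m z`: `four` for `l < m < z < r`: `¬ U l m z` (if `U l m z`, with `U m z r`, `p14`: `U l m r`), i.e. `ccw l m z`.
 (←) `z` inside, `l < z < r` (`Ins_between`): `ccw l m z` and `ccw m r z`.  `z < m`: `ccw l m z` is `U l z m`, contradiction to `G l m`.  `m < z`: `ccw m r z` is `U m z r`, contradiction to `G m r`.
F1: `TriG` = triples with `G l m, G m r, G l r`.  If some `z` with `l < z < m`, `G z r` and some `z'` with `r < z' ≤ b`, `G m z'`, then `SE b l m r` (for `r ≤ b`):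
   `ccw l m r`; `Emp l m r` (tri_iff); earlier: `z`: `¬ U l z m` (`G l m`): `ccw l z m`; `¬ U z m r` (`G z r`): `ccw z m r`, i.e. `ccw m r z`.
   later: `z'`: `¬ U m r z'` (`G m z'`): `ccw m r z'`; `ccw l r z'`: `¬ U l r z'` by `n14`... for `l < m < r < z'`: `¬ U l m r`, `¬ U m r z'` give `¬ U l m z'` (`n14`), and `n24`: `¬ U l m z'`, `¬ U m r z'` → `¬ U l r z'`.
tri_up: `#TriSet ≤ 2 g + S`: a triple `(l, m, r)` of `TriSet` is of type α (no `z` in `(l, m)` with `G z r`), or of type β (no `z' ∈ (r, b]` with `G m z'`), or in `SSet` (F1).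
   Type α injects to `G` by `(m, r)` (if `(l, m, r)`, `(l', m, r)` with `l < l'` are both of type α, then `z = l'` contradicts α for `l`); type β injects to `G` by `(l, m)` (if `r < r'`, then `z' = r'`, `G m r'`).
tri_sum: `#TriSet = ∑_{p ∈ pairs, G p} #(AL p)` (tri_iff; for `r = l + 1` both sides have no `m`).
tri_low: `2 g ≤ #TriSet + S + 6 n`.  From `T_ident`, `X_ge`: `T ≥ P1 + S - 2 n` (`T = X + P1 - (b-a)(b-a-1) ≥ P1 + S - 2n`).  `T` = (sum over the pairs with both sides nonempty) + (sum over the pairs with `NoUp` or `NoLow`), the first is `≤ S` (`L2`).  So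
   `∑_{NoUp or NoLow} ((#AU - 1) + (#AL - 1)) ≥ P1 - 2 n`.  For a pair counted by `P1`: if `NoUp`: `#AU = 0`, `#AL ≥ 1`; so `(#AU - 1) + (#AL - 1) = #AL - 1`; similarly for `NoLow`; pairs with `r = l + 1` contribute 0.  Hence
   `∑_{NoUp} #AL + ∑_{NoLow} #AU ≥ 2 P1 - 2 n`.  `∑_{NoUp} #AL = #TriSet σ`, `∑_{NoLow} #AU = #TriSet σ.flip ≤ 2 g(σ.flip) + S` (tri_up, `S_flip`).
   `P1 = (g - (b - a)) + (g(σ.flip) - (b - a))`.  So `#TriSet ≥ 2 P1 - 2 n - 2 g(σ.flip) - S = 2 g - 4 (b - a) - 2 n - S ≥ 2 g - 6 n - S`. -/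

namespace ET
open Finset
open scoped Classical

namespace Sig
variable {σ : Sig}

theorem tri_sum {a b : ℤ} : (σ.TriSet a b).card = ∑ p ∈ (pairs a b).filter (fun p => σ.G p.1 p.2), (σ.AL p.1 p.2).card := by
  rw [← Finset.card_sigma]
  refine Finset.card_bij (fun t _ => ⟨(t.1, t.2.2), t.2.1⟩) ?_ ?_ ?_
  · rintro ⟨l, m, r⟩ ht
    rw [TriSet, mem_filter, mem_trip] at ht
    obtain ⟨h1, h2, h3, h4⟩ := ht
    simp only [mem_sigma, mem_filter, mem_pairs] at *
    have k1 := h2.1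
    have k2 := h3.1
    refine ⟨⟨⟨by omega, by omega, by omega⟩, h4⟩, (tri_iff h4 k1 k2).2 ⟨h2, h3⟩⟩
  · rintro ⟨l, m, r⟩ _ ⟨l', m', r'⟩ _ h
    simp only [Sigma.mk.injEq, Prod.mk.injEq, heq_eq_eq] at h
    obtain ⟨⟨h1, h2⟩, h3⟩ := h
    rw [h1, h2, h3]
  · rintro ⟨⟨l, r⟩, m⟩ h
    simp only [mem_sigma, mem_filter, mem_pairs] at h
    obtain ⟨⟨⟨h1, h2, h3⟩, h4⟩, h5⟩ := h
    have h5' := h5
    rw [AL, mem_filter, mem_Ioo] at h5'
    have k1 := h5'.1.1
    have k2 := h5'.1.2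
    obtain ⟨h6, h7⟩ := (tri_iff h4 k1 k2).1 h5
    refine ⟨(l, m, r), ?_, rfl⟩
    rw [TriSet, mem_filter, mem_trip]
    simp only [] at *
    exact ⟨by omega, h6, h7, h4⟩

private theorem low_term {l r : ℤ} :
    (if ¬ (¬ σ.NoUp l r ∧ ¬ σ.NoLow l r) then ((σ.AU l r).card - 1) + ((σ.AL l r).card - 1) else 0)
      + (if l + 1 < r ∧ (σ.NoUp l r ∨ σ.NoLow l r) then 1 else 0) ≤
      (if σ.NoUp l r then (σ.AL l r).card else 0) + (if σ.NoLow l r then (σ.AU l r).card else 0) := by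
  have hU : 0 < (σ.AU l r).card ↔ ¬ σ.NoUp l r := by rw [card_pos]; exact AU_nonempty_iff
  have hL : 0 < (σ.AL l r).card ↔ ¬ σ.NoLow l r := by rw [card_pos]; exact AL_nonempty_iff
  by_cases hr : l + 1 < r
  · have hno : ¬ (σ.NoUp l r ∧ σ.NoLow l r) := by
      rintro ⟨h1, h2⟩
      exact h1 (l + 1) (by omega) hr (h2 (l + 1) (by omega) hr)
    by_cases a1 : σ.NoUp l r
    · have a2 : ¬ σ.NoLow l r := fun h' => hno ⟨a1, h'⟩
      have b1 : ¬ 0 < (σ.AU l r).card := fun h' => (hU.1 h') a1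
      have b2 := hL.2 a2
      rw [if_pos (by tauto), if_pos ⟨hr, Or.inl a1⟩, if_pos a1, if_neg a2]
      omega
    · by_cases a2 : σ.NoLow l r
      · have b1 := hU.2 a1
        have b2 : ¬ 0 < (σ.AL l r).card := fun h' => (hL.1 h') a2
        rw [if_pos (by tauto), if_pos ⟨hr, Or.inr a2⟩, if_neg a1, if_pos a2]
        omega
      · rw [if_neg (by tauto), if_neg (by tauto)]
        omega
  · have a1 : σ.NoUp l r := fun z h1 h2 => by omega
    have a2 : σ.NoLow l r := fun z h1 h2 => by omega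
    have b1 : ¬ 0 < (σ.AU l r).card := fun h' => (hU.1 h') a1
    have b2 : ¬ 0 < (σ.AL l r).card := fun h' => (hL.1 h') a2
    rw [if_pos (by tauto), if_neg (by tauto), if_pos a1, if_pos a2]
    omega

private theorem g_term {l r : ℤ} :
    (if l + 1 < r ∧ (σ.NoUp l r ∨ σ.NoLow l r) then 1 else 0) + 2 * (if ¬ (l + 1 < r) then 1 else 0) =
      (if σ.NoUp l r then 1 else 0) + (if σ.NoLow l r then 1 else 0) := by
  by_cases hr : l + 1 < r
  · have hno : ¬ (σ.NoUp l r ∧ σ.NoLow l r) := by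
      rintro ⟨h1, h2⟩
      exact h1 (l + 1) (by omega) hr (h2 (l + 1) (by omega) hr)
    rw [if_neg (not_not.2 hr)]
    by_cases a1 : σ.NoUp l r
    · have a2 : ¬ σ.NoLow l r := fun h' => hno ⟨a1, h'⟩
      rw [if_pos ⟨hr, Or.inl a1⟩, if_pos a1, if_neg a2]
    · by_cases a2 : σ.NoLow l r
      · rw [if_pos ⟨hr, Or.inr a2⟩, if_neg a1, if_pos a2]
      · rw [if_neg (by tauto), if_neg a1, if_neg a2]
  · have a1 : σ.NoUp l r := fun z h1 h2 => by omega
    have a2 : σ.NoLow l r := fun z h1 h2 => by omega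
    rw [if_pos hr, if_neg (by tauto), if_pos a1, if_pos a2]

private theorem near_card {a b : ℤ} (hab : a ≤ b) :
    (((pairs a b).filter (fun p => ¬ (p.1 + 1 < p.2))).card : ℤ) = b - a := by
  have h1 := pairs_card hab
  have h2 := pairs_far_card hab
  have h3 := Finset.card_filter_add_card_filter_not (s := pairs a b) (fun p => p.1 + 1 < p.2)
  have h4 : (((pairs a b).filter (fun p => p.1 + 1 < p.2)).card : ℤ)
      + (((pairs a b).filter (fun p => ¬ (p.1 + 1 < p.2))).card : ℤ) = (pairs a b).card := by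
    exact_mod_cast h3
  nlinarith [h1, h2, h4]

private theorem g_eq {a b : ℤ} : σ.g a b = ∑ p ∈ pairs a b, (if σ.NoUp p.1 p.2 then 1 else 0) := by
  rw [g, card_filter]
  refine sum_congr rfl (fun p hp => ?_)
  rw [mem_pairs] at hp
  have : σ.G p.1 p.2 ↔ σ.NoUp p.1 p.2 := ⟨fun h => h.2, fun h => ⟨hp.2.1, h⟩⟩
  simp only [this]

private theorem P1_eq {a b : ℤ} (hab : a ≤ b) : (σ.P1 a b : ℤ) + 2 * (b - a) = σ.g a b + σ.flip.g a b := by
  have h1 : σ.P1 a b + 2 * ((pairs a b).filter (fun p => ¬ (p.1 + 1 < p.2))).card = σ.g a b + σ.flip.g a b := by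
    rw [g_eq, g_eq]
    unfold P1
    rw [card_filter, card_filter, mul_sum, ← sum_add_distrib, ← sum_add_distrib]
    refine sum_congr rfl (fun p _ => ?_)
    rw [NoUp_flip]
    exact g_term
  have h2 := near_card hab
  have h3 : (σ.P1 a b : ℤ) + 2 * (((pairs a b).filter (fun p => ¬ (p.1 + 1 < p.2))).card : ℤ)
      = σ.g a b + σ.flip.g a b := by
    exact_mod_cast h1
  rw [h2] at h3
  exact h3

private theorem tri_sum' {a b : ℤ} :
    (σ.TriSet a b).card = ∑ p ∈ pairs a b, (if σ.NoUp p.1 p.2 then (σ.AL p.1 p.2).card else 0) := by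
  rw [tri_sum, sum_filter]
  refine sum_congr rfl (fun p hp => ?_)
  rw [mem_pairs] at hp
  have : σ.G p.1 p.2 ↔ σ.NoUp p.1 p.2 := ⟨fun h => h.2, fun h => ⟨hp.2.1, h⟩⟩
  simp only [this]

private theorem low_sum {a b : ℤ} : σ.T a b + σ.P1 a b ≤ σ.S a b + (σ.TriSet a b).card + (σ.flip.TriSet a b).card := by
  have h1 : σ.T a b = (∑ p ∈ (pairs a b).filter (fun p => ¬ σ.NoUp p.1 p.2 ∧ ¬ σ.NoLow p.1 p.2),
      (((σ.AU p.1 p.2).card - 1) + ((σ.AL p.1 p.2).card - 1)))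
      + ∑ p ∈ pairs a b, (if ¬ (¬ σ.NoUp p.1 p.2 ∧ ¬ σ.NoLow p.1 p.2) then
        ((σ.AU p.1 p.2).card - 1) + ((σ.AL p.1 p.2).card - 1) else 0) := by
    unfold T
    rw [sum_filter, ← sum_add_distrib]
    refine sum_congr rfl (fun p _ => ?_)
    by_cases h : ¬ σ.NoUp p.1 p.2 ∧ ¬ σ.NoLow p.1 p.2
    · rw [if_pos h, if_neg (not_not.2 h)]
      rfl
    · rw [if_neg h, if_pos h]
      omega
  have h2 : (∑ p ∈ pairs a b, (if ¬ (¬ σ.NoUp p.1 p.2 ∧ ¬ σ.NoLow p.1 p.2) then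
        ((σ.AU p.1 p.2).card - 1) + ((σ.AL p.1 p.2).card - 1) else 0)) + σ.P1 a b
      ≤ (σ.TriSet a b).card + (σ.flip.TriSet a b).card := by
    rw [tri_sum', tri_sum']
    unfold P1
    rw [card_filter, ← sum_add_distrib, ← sum_add_distrib]
    refine sum_le_sum (fun p _ => ?_)
    rw [NoUp_flip, AL_flip]
    exact low_term
  have h3 := L2 (σ := σ) (a := a) (b := b)
  omega

theorem tri_low {a b : ℤ} (hab : a ≤ b) : 2 * (σ.g a b : ℤ) ≤ (σ.TriSet a b).card + σ.S a b + 6 * (b + 1 - a) := by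
  have h1 := T_ident (σ := σ) hab
  have h2 := X_ge (σ := σ) hab
  have h3 : (σ.T a b : ℤ) + σ.P1 a b ≤ σ.S a b + (σ.TriSet a b).card + (σ.flip.TriSet a b).card := by
    exact_mod_cast low_sum (σ := σ) (a := a) (b := b)
  have h4 := P1_eq (σ := σ) hab
  have h5 : ((σ.flip.TriSet a b).card : ℤ) ≤ 2 * σ.flip.g a b + σ.S a b := by
    have := tri_up (σ := σ.flip) (a := a) (b := b)
    rw [S_flip] at this
    exact_mod_cast this
  linarith

end Sig
end ET
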