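import Pool.Agent.Lib.MP_4beb96_co.EMT.TId

set_option autoImplicit false

/-! EMT-GTriA: triangles of the graph `G` (pairs `l < r` with no point above).  `n = b + 1 - a`.

tri_iff: for `G l r` and `l < m < r`: `m ∈ AL l r ↔ G l m ∧ G m r`.  (`¬ U l m r` always holds.)
 (→) `z ∈ (l, m)`: `¬ U l z r`; if `U l z m` then `z` is inside the triangle `l m r` (`ccw l m r`): `ccw l m z` (`ccw_iff4`: `ccw l m z ↔ U l z m`), `ccw r l z` (`¬ U l z r`, `ccw_iff3`), and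
   `ccw m r z`: otherwise `ccw m z r`... 4 points `l < z < m < r`: `U l z m`, `¬ U l z r`, `¬ U l m r`: `four`: then `¬ U z m r` (if `U z m r` then `p14` from `U l z m`, `U z m r`: `U l z r`). `¬ U z m r` is `ccw z m r`, i.e. `ccw m r z`. OK
   `z ∈ (m, r)`: if `U m z r` then: `ccw m r z` (`ccw_iff4`), `ccw r l z`, and `ccw l m z`: `four` for `l < m < z < r`: `¬ U l m z` (if `U l m z`, with `U m z r`, `p14`: `U l m r`), i.e. `ccw l m z`.
 (←) `z` inside, `l < z < r` (`Ins_between`): `ccw l m z` and `ccw m r z`.  `z < m`: `ccw l m z` is `U l z m`, contradiction to `G l m`.  `m < z`: `ccw m r z` is `U m z r`, contradiction to `G m r`.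
F1: `TriG` = triples with `G l m, G m r, G l r`.  If some `z` with `l < z < m`, `G z r` and some `z'` with `r < z' ≤ b`, `G m z'`, then `SE b l m r` (for `r ≤ b`):
   `ccw l m r`; `Emp l m r` (tri_iff); earlier: `z`: `¬ U l z m` (`G l m`): `ccw l z m`; `¬ U z m r` (`G z r`): `ccw z m r`, i.e. `ccw m r z`.
   later: `z'`: `¬ U m r z'` (`G m z'`): `ccw m r z'`; `ccw l r z'`: `¬ U l r z'` by `n14`... for `l < m < r < z'`: `¬ U l m r`, `¬ U m r z'` give `¬ U l m z'` (`n14`), and `n24`: `¬ U l m z'`, `¬ U m r z'` → `¬ U l r z'`.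
tri_up: `#TriSet ≤ 2 g + S`: a triple `(l, m, r)` of `TriSet` is of type α (no `z` in `(l, m)` with `G z r`), or of type β (no `z' ∈ (r, b]` with `G m z'`), or in `SSet` (F1).
   Type α injects to `G` by `(m, r)` (if `(l, m, r)`, `(l', m, r)` with `l < l'` are both of type α, then `z = l'` contradicts α for `l`); type β injects to `G` by `(l, m)` (if `r < r'`, then `z' = r'`, `G m r'`).
tri_sum: `#TriSet = ∑_{p ∈ pairs, G p} #(AL p)` (tri_iff; for `r = l + 1` both sides have no `m`).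
tri_low: `2 g ≤ #TriSet + S + 6 n`.  From `T_ident`, `X_ge`: `T ≥ P1 + S - 2 n` (`T = X + P1 - (b-a)(b-a-1) ≥ P1 + S - 2n`).  `T` = (sum over the pairs with both sides nonempty) + (sum over the pairs with `NoUp` or `NoLow`), the first is `≤ S` (`L2`).  So
   `∑_{NoUp or NoLow} ((#AU - 1) + (#AL - 1)) ≥ P1 - 2 n`.  For a pair counted by `P1`: if `NoUp`: `#AU = 0`, `#AL ≥ 1`; so `(#AU - 1) + (#AL - 1) = #AL - 1`; similarly for `NoLow`; pairs with `r = l + 1` contribute 0.  Hence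
   `∑_{NoUp} #AL + ∑_{NoLow} #AU ≥ 2 P1 - 2 n`.  `∑_{NoUp} #AL = #TriSet σ`, `∑_{NoLow} #AU = #TriSet σ.flip ≤ 2 g(σ.flip) + S` (tri_up, `S_flip`).
   `P1 = (g - (b - a)) + (g(σ.flip) - (b - a))`.  So `#TriSet ≥ 2 P1 - 2 n - 2 g(σ.flip) - S = 2 g - 4 (b - a) - 2 n - S ≥ 2 g - 6 n - S`. -/

namespace ET
open Finset
open scoped Classical

namespace Sig
variable {σ : Sig}

/-- triangles of `G` -/
def TriG (σ : Sig) (l m r : ℤ) : Prop := σ.G l m ∧ σ.G m r ∧ σ.G l r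

noncomputable def TriSet (σ : Sig) (a b : ℤ) : Finset (ℤ × ℤ × ℤ) :=
  (trip a b).filter (fun t => σ.TriG t.1 t.2.1 t.2.2)

theorem tri_iff {l m r : ℤ} (h : σ.G l r) (h1 : l < m) (h2 : m < r) : m ∈ σ.AL l r ↔ σ.G l m ∧ σ.G m r := by
  have hm : ¬ σ.U l m r := h.2 m h1 h2
  simp only [AL, mem_filter, mem_Ioo]
  constructor
  · rintro ⟨_, _, hE⟩
    refine ⟨⟨h1, ?_⟩, ⟨h2, ?_⟩⟩
    · intro z hz1 hz2 hU
      have hz : ¬ σ.U l z r := h.2 z hz1 (by omega)
      have q := four (σ := σ) (a := l) (b := z) (c := m) (d := r) hz1 hz2 h2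
      refine hE z (Or.inl ⟨?_, ?_, ?_⟩)
      · rw [ccw_iff4 hz1 hz2]; exact hU
      · rw [ccw_iff2 hz2 h2]; intro h3; exact hz (q.2.2.1 hU h3)
      · rw [ccw_iff3 hz1 (by omega)]; exact hz
    · intro z hz1 hz2 hU
      have hz : ¬ σ.U l z r := h.2 z (by omega) hz2
      have q := four (σ := σ) (a := l) (b := m) (c := z) (d := r) h1 hz1 hz2
      refine hE z (Or.inl ⟨?_, ?_, ?_⟩)
      · rw [ccw_iff1 h1 hz1]; intro h3; exact hm (q.2.2.1 h3 hU)
      · rw [ccw_iff4 hz1 hz2]; exact hU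
      · rw [ccw_iff3 (by omega) hz2]; exact hz
  · rintro ⟨hA, hB⟩
    refine ⟨⟨h1, h2⟩, hm, ?_⟩
    intro z hz
    have hb := Ins_between hz
    have hc : σ.ccw l m r := by rw [ccw_iff1 h1 h2]; exact hm
    rw [Ins_iff hc] at hz
    obtain ⟨z1, z2, z3⟩ := hz
    have hmz : m ≠ z := ne23 z1
    rcases lt_or_gt_of_ne hmz with h3 | h3
    · have h4 : z < r := by omega
      rw [ccw_iff4 h3 h4] at z2
      exact hB.2 z h3 h4 z2
    · have h4 : l < z := by omega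
      rw [ccw_iff4 h4 h3] at z1
      exact hA.2 z h4 h3 z1

theorem F1 {b l m r z z' : ℤ} (h : σ.TriG l m r) (hr : r ≤ b) (h1 : l < z) (h2 : z < m) (hz : σ.G z r)
    (h3 : z' ≤ b) (h4 : r < z') (hz' : σ.G m z') : σ.SE b l m r := by
  obtain ⟨hlm, hmr, hlr⟩ := h
  have k1 : l < m := hlm.1
  have k2 : m < r := hmr.1
  have e1 : ¬ σ.U l m r := hlr.2 m k1 k2
  have hE : σ.Emp l m r := by
    have := (tri_iff hlr k1 k2).2 ⟨hlm, hmr⟩
    simp only [AL, mem_filter] at this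
    exact this.2.2
  refine ⟨k1, by omega, by omega, hr, ?_, hE, ⟨z, h1, by omega, ?_, ?_⟩, ⟨z', by omega, h3, ?_, ?_⟩⟩
  · rw [ccw_iff1 k1 k2]; exact e1
  · rw [ccw_iff1 h1 h2]; exact hlm.2 z h1 h2
  · rw [ccw_iff2 h2 k2]; exact hz.2 m h2 k2
  · rw [ccw_iff1 (by omega) h4]
    have e2 : ¬ σ.U m r z' := hz'.2 r k2 h4
    have q := four (σ := σ) (a := l) (b := m) (c := r) (d := z') k1 k2 h4
    have e3 : ¬ σ.U l m z' := q.2.2.2.2.2 e1 e2
    exact q.2.2.2.2.1 e3 e2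
  · rw [ccw_iff1 k2 h4]; exact hz'.2 r k2 h4

end Sig
end ET
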