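import Pool.Agent.Lib.MP_4beb96_co.EMT.GTriA

set_option autoImplicit false

/-! EMT-GTriB: triangles of the graph `G` (pairs `l < r` with no point above).  `n = b + 1 - a`.

tri_iff: for `G l r` and `l < m < r`: `m ∈ AL l r ↔ G l m ∧ G m r`.  (`¬ U l m r` always holds.)
 (→) `z ∈ (l, m)`: `¬ U l z r`; if `U l z m` then `z` is inside the triangle `l m r` (`ccw l m r`): `ccw l m z` (`ccw_iff4`: `ccw l m z ↔ U l z m`), `ccw r l z` (`¬ U l z r`, `ccw_iff3`), and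
   `ccw m r z`: otherwise `ccw m z r`... 4 points `l < z < m < r`: `U l z m`, `¬ U l z r`, `¬ U l m r`: `four`: then `¬ U z m r` (if `U z m r` then `p14` from `U l z m`, `U z m r`: `U l z r`). `¬ U z m r` is `ccw z m r`, i.e. `ccw m r z`. OK
   `z ∈ (m, r)`: if `U m z r` then: `ccw m r z` (`ccw_iff4`), `ccw r l z`, and `ccw l m z`: `four` for `l < m < z < r`: `¬ U l m z` (if `U l m z`, with `U m z r`, `p14`: `U l m r`), i.e. `ccw l m z`.
 (←) `z` inside, `l < z < r` (`Ins_between`): `ccw l m z` and `ccw m r z`.  `z < m`: `ccw l m z` is `U l z m`, contradiction to `G l m`.  `m < z`: `ccw m r z` is `U m z r`, contradiction to `G m r`.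
F1: `TriG` = triples with `G l m, G m r, G l r`.  If some `z` with `l < z < m`, `G z r` and some `z'` with `r < z' ≤ b`, `G m z'`, then `SE b l m r` (for `r ≤ b`):
   `ccw l m r`; `Emp l m r` (tri_iff); earlier: `z`: `¬ U l z m` (`G l m`): `ccw l z m`; `¬ U z m r` (`G z r`): `ccw z m r`, i.e. `ccw m r z`.
   later: `z'`: `¬ U m r z'` (`G m z'`): `ccw m r z'`; `ccw l r z'`: `¬ U l r z'` by `n14`... for `l < m < r < z'`: `¬ U l m r`, `¬ U m r z'` give `¬ U l m z'` (`n14`), and `n24`: `¬ U l m z'`, `¬ U m r z'` → `¬ U l r z'`.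
tri_up: `#TriSet ≤ 2 g + S`: a triple `(l, m, r)` of `TriSet` is of type α (no `z` in `(l, m)` with `G z r`), or of type β (no `z' ∈ (r, b]` with `G m z'`), or in `SSet` (F1).
   Type α injects to `G` by `(m, r)` (if `(l, m, r)`, `(l', m, r)` with `l < l'` are both of type α, then `z = l'` contradicts α for `l`); type β injects to `G` by `(l, m)` (if `r < r'`, then `z' = r'`, `G m r'`).
tri_sum: `#TriSet = ∑_{p ∈ pairs, G p} #(AL p)` (tri_iff; for `r = l + 1` both sides have no `m`).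
tri_low: `2 g ≤ #TriSet + S + 6 n`.  From `T_ident`, `X_ge`: `T ≥ P1 + S - 2 n` (`T = X + P1 - (b-a)(b-a-1) ≥ P1 + S - 2n`).  `T` = (sum over the pairs with both sides nonempty) + (sum over the pairs with `NoUp` or `NoLow`), the first is `≤ S` (`L2`).  So
   `∑_{NoUp or NoLow} ((#AU - 1) + (#AL - 1)) ≥ P1 - 2 n`.  For a pair counted by `P1`: if `NoUp`: `#AU = 0`, `#AL ≥ 1`; so `(#AU - 1) + (#AL - 1) = #AL - 1`; similarly for `NoLow`; pairs with `r = l + 1` contribute 0.  Hence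
   `∑_{NoUp} #AL + ∑_{NoLow} #AU ≥ 2 P1 - 2 n`.  `∑_{NoUp} #AL = #TriSet σ`, `∑_{NoLow} #AU = #TriSet σ.flip ≤ 2 g(σ.flip) + S` (tri_up, `S_flip`).
   `P1 = (g - (b - a)) + (g(σ.flip) - (b - a))`.  So `#TriSet ≥ 2 P1 - 2 n - 2 g(σ.flip) - S = 2 g - 4 (b - a) - 2 n - S ≥ 2 g - 6 n - S`. -/

namespace ET
open Finset
open scoped Classical

namespace Sig
variable {σ : Sig}

theorem mem_TriSet {a b : ℤ} {t : ℤ × ℤ × ℤ} : t ∈ σ.TriSet a b ↔
    a ≤ t.1 ∧ t.2.2 ≤ b ∧ σ.TriG t.1 t.2.1 t.2.2 := by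
  simp only [TriSet, mem_filter, mem_trip]
  constructor
  · rintro ⟨⟨⟨h1, _⟩, _, _, h2⟩, h⟩; exact ⟨h1, h2, h⟩
  · rintro ⟨h1, h2, h⟩
    have e1 := h.1.1
    have e2 := h.2.1.1
    exact ⟨⟨⟨h1, by omega⟩, ⟨by omega, by omega⟩, by omega, h2⟩, h⟩

theorem tri_alpha {a b : ℤ} :
    ((σ.TriSet a b).filter (fun t => ∀ z, t.1 < z → z < t.2.1 → ¬ σ.G z t.2.2)).card ≤ σ.g a b := by
  unfold g
  refine card_le_card_of_injOn (fun t => (t.2.1, t.2.2)) ?_ ?_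
  · rintro ⟨l, m, r⟩ h
    rw [mem_coe, mem_filter, mem_TriSet] at h
    obtain ⟨⟨h1, h2, h3⟩, _⟩ := h
    rw [mem_coe, mem_filter, mem_pairs]
    have e1 := h3.1.1
    have e2 := h3.2.1.1
    simp only [] at *
    exact ⟨⟨by omega, e2, h2⟩, h3.2.1⟩
  · rintro ⟨l, m, r⟩ h ⟨l', m', r'⟩ h' he
    rw [mem_coe, mem_filter, mem_TriSet] at h h'
    obtain ⟨⟨h1, h2, h3⟩, h4⟩ := h
    obtain ⟨⟨h1', h2', h3'⟩, h4'⟩ := h'
    simp only [Prod.mk.injEq] at *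
    obtain ⟨rfl, rfl⟩ := he
    refine ⟨?_, rfl, rfl⟩
    rcases lt_trichotomy l l' with hh | hh | hh
    · exact absurd h3'.2.2 (h4 l' hh h3'.1.1)
    · exact hh
    · exact absurd h3.2.2 (h4' l hh h3.1.1)

theorem tri_beta {a b : ℤ} :
    ((σ.TriSet a b).filter (fun t => ∀ z, t.2.2 < z → z ≤ b → ¬ σ.G t.2.1 z)).card ≤ σ.g a b := by
  unfold g
  refine card_le_card_of_injOn (fun t => (t.1, t.2.1)) ?_ ?_
  · rintro ⟨l, m, r⟩ h
    rw [mem_coe, mem_filter, mem_TriSet] at h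
    obtain ⟨⟨h1, h2, h3⟩, _⟩ := h
    rw [mem_coe, mem_filter, mem_pairs]
    have e1 := h3.1.1
    have e2 := h3.2.1.1
    simp only [] at *
    exact ⟨⟨h1, e1, by omega⟩, h3.1⟩
  · rintro ⟨l, m, r⟩ h ⟨l', m', r'⟩ h' he
    rw [mem_coe, mem_filter, mem_TriSet] at h h'
    obtain ⟨⟨h1, h2, h3⟩, h4⟩ := h
    obtain ⟨⟨h1', h2', h3'⟩, h4'⟩ := h'
    simp only [Prod.mk.injEq] at *
    obtain ⟨rfl, rfl⟩ := he
    refine ⟨rfl, rfl, ?_⟩
    rcases lt_trichotomy r r' with hh | hh | hh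
    · exact absurd h3'.2.1 (h4 r' hh h2')
    · exact hh
    · exact absurd h3.2.1 (h4' r hh h2)

theorem tri_up {a b : ℤ} : (σ.TriSet a b).card ≤ 2 * σ.g a b + σ.S a b := by
  have hsub : σ.TriSet a b ⊆
      ((σ.TriSet a b).filter (fun t => ∀ z, t.1 < z → z < t.2.1 → ¬ σ.G z t.2.2) ∪
       (σ.TriSet a b).filter (fun t => ∀ z, t.2.2 < z → z ≤ b → ¬ σ.G t.2.1 z)) ∪ σ.SSet a b := by
    rintro ⟨l, m, r⟩ h
    have h' := mem_TriSet.1 h
    obtain ⟨h1, h2, h3⟩ := h'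
    by_cases hA : ∀ z, l < z → z < m → ¬ σ.G z r
    · exact mem_union_left _ (mem_union_left _ (mem_filter.2 ⟨h, hA⟩))
    by_cases hB : ∀ z, r < z → z ≤ b → ¬ σ.G m z
    · exact mem_union_left _ (mem_union_right _ (mem_filter.2 ⟨h, hB⟩))
    push Not at hA hB
    obtain ⟨z, z1, z2, z3⟩ := hA
    obtain ⟨z', z1', z2', z3'⟩ := hB
    refine mem_union_right _ (mem_SSet.2 ⟨h1, ?_⟩)
    exact F1 h3 h2 z1 z2 z3 z2' z1' z3'
  have h1 := card_le_card hsub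
  have h2 := card_union_le ((σ.TriSet a b).filter (fun t => ∀ z, t.1 < z → z < t.2.1 → ¬ σ.G z t.2.2) ∪
       (σ.TriSet a b).filter (fun t => ∀ z, t.2.2 < z → z ≤ b → ¬ σ.G t.2.1 z)) (σ.SSet a b)
  have h3 := card_union_le ((σ.TriSet a b).filter (fun t => ∀ z, t.1 < z → z < t.2.1 → ¬ σ.G z t.2.2))
       ((σ.TriSet a b).filter (fun t => ∀ z, t.2.2 < z → z ≤ b → ¬ σ.G t.2.1 z))
  have h4 := σ.tri_alpha (a := a) (b := b)
  have h5 := σ.tri_beta (a := a) (b := b)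
  unfold S
  omega

end Sig
end ET
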