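import Pool.Agent.Lib.MP_4beb96_co.EMT.Base

set_option autoImplicit false

/-! Five point facts of signotopes (generated: one case for each order of the x-coordinates). -/

namespace ET
namespace Sig

variable {σ : Sig}

/-- `<_l` is transitive on the points to the right of `l` (`q <_l q'` means `ccw l q q'`: smaller slope). -/
theorem trL {l a b c : ℤ} (o0 : l < a) (o1 : l < b) (o2 : l < c) (h1 : σ.ccw l a b) (h2 : σ.ccw l b c) : σ.ccw l a c := by
  have n_l_a := ne12 h1
  have n_a_b := ne23 h1
  have n_l_b := ne13 h1
  have n_b_c := ne23 h2
  have n_l_c := ne13 h2
  have n_a_c : a ≠ c := by rintro rfl; exact asymm' h1 h2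
  rcases lt_or_gt_of_ne n_a_b.symm with c1|c1
  · rcases lt_or_gt_of_ne n_b_c.symm with c2|c2
    · rw [ccw_iff4 (a := l) (b := b) (c := a) (by omega) (by omega)] at h1
      rw [ccw_iff4 (a := l) (b := c) (c := b) (by omega) (by omega)] at h2
      rw [ccw_iff4 (a := l) (b := c) (c := a) (by omega) (by omega)]
      have q0 := four (σ := σ) (a := l) (b := c) (c := b) (d := a) (by omega) (by omega) (by omega)
      grind
    · rcases lt_or_gt_of_ne n_a_c.symm with c3|c3
      · rw [ccw_iff4 (a := l) (b := b) (c := a) (by omega) (by omega)] at h1
        rw [ccw_iff1 (a := l) (b := b) (c := c) (by omega) (by omega)] at h2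
        rw [ccw_iff4 (a := l) (b := c) (c := a) (by omega) (by omega)]
        have q0 := four (σ := σ) (a := l) (b := b) (c := c) (d := a) (by omega) (by omega) (by omega)
        grind
      · rw [ccw_iff4 (a := l) (b := b) (c := a) (by omega) (by omega)] at h1
        rw [ccw_iff1 (a := l) (b := b) (c := c) (by omega) (by omega)] at h2
        rw [ccw_iff1 (a := l) (b := a) (c := c) (by omega) (by omega)]
        have q0 := four (σ := σ) (a := l) (b := b) (c := a) (d := c) (by omega) (by omega) (by omega)
        grind
  · rcases lt_or_gt_of_ne n_a_c.symm with c4|c4
    · rw [ccw_iff1 (a := l) (b := a) (c := b) (by omega) (by omega)] at h1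
      rw [ccw_iff4 (a := l) (b := c) (c := b) (by omega) (by omega)] at h2
      rw [ccw_iff4 (a := l) (b := c) (c := a) (by omega) (by omega)]
      have q0 := four (σ := σ) (a := l) (b := c) (c := a) (d := b) (by omega) (by omega) (by omega)
      grind
    · rcases lt_or_gt_of_ne n_b_c.symm with c5|c5
      · rw [ccw_iff1 (a := l) (b := a) (c := b) (by omega) (by omega)] at h1
        rw [ccw_iff4 (a := l) (b := c) (c := b) (by omega) (by omega)] at h2
        rw [ccw_iff1 (a := l) (b := a) (c := c) (by omega) (by omega)]
        have q0 := four (σ := σ) (a := l) (b := a) (c := c) (d := b) (by omega) (by omega) (by omega)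
        grind
      · rw [ccw_iff1 (a := l) (b := a) (c := b) (by omega) (by omega)] at h1
        rw [ccw_iff1 (a := l) (b := b) (c := c) (by omega) (by omega)] at h2
        rw [ccw_iff1 (a := l) (b := a) (c := c) (by omega) (by omega)]
        have q0 := four (σ := σ) (a := l) (b := a) (c := b) (d := c) (by omega) (by omega) (by omega)
        grind

/-- the same for points to the left of `l`. -/
theorem trR {l a b c : ℤ} (o0 : a < l) (o1 : b < l) (o2 : c < l) (h1 : σ.ccw l a b) (h2 : σ.ccw l b c) : σ.ccw l a c := by
  have n_l_a := ne12 h1
  have n_a_b := ne23 h1
  have n_l_b := ne13 h1
  have n_b_c := ne23 h2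
  have n_l_c := ne13 h2
  have n_a_c : a ≠ c := by rintro rfl; exact asymm' h1 h2
  rcases lt_or_gt_of_ne n_a_b.symm with c1|c1
  · rcases lt_or_gt_of_ne n_b_c.symm with c2|c2
    · rw [ccw_iff5 (a := b) (b := a) (c := l) (by omega) (by omega)] at h1
      rw [ccw_iff5 (a := c) (b := b) (c := l) (by omega) (by omega)] at h2
      rw [ccw_iff5 (a := c) (b := a) (c := l) (by omega) (by omega)]
      have q0 := four (σ := σ) (a := c) (b := b) (c := a) (d := l) (by omega) (by omega) (by omega)
      grind
    · rcases lt_or_gt_of_ne n_a_c.symm with c3|c3
      · rw [ccw_iff5 (a := b) (b := a) (c := l) (by omega) (by omega)] at h1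
        rw [ccw_iff3 (a := b) (b := c) (c := l) (by omega) (by omega)] at h2
        rw [ccw_iff5 (a := c) (b := a) (c := l) (by omega) (by omega)]
        have q0 := four (σ := σ) (a := b) (b := c) (c := a) (d := l) (by omega) (by omega) (by omega)
        grind
      · rw [ccw_iff5 (a := b) (b := a) (c := l) (by omega) (by omega)] at h1
        rw [ccw_iff3 (a := b) (b := c) (c := l) (by omega) (by omega)] at h2
        rw [ccw_iff3 (a := a) (b := c) (c := l) (by omega) (by omega)]
        have q0 := four (σ := σ) (a := b) (b := a) (c := c) (d := l) (by omega) (by omega) (by omega)
        grind
  · rcases lt_or_gt_of_ne n_a_c.symm with c4|c4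
    · rw [ccw_iff3 (a := a) (b := b) (c := l) (by omega) (by omega)] at h1
      rw [ccw_iff5 (a := c) (b := b) (c := l) (by omega) (by omega)] at h2
      rw [ccw_iff5 (a := c) (b := a) (c := l) (by omega) (by omega)]
      have q0 := four (σ := σ) (a := c) (b := a) (c := b) (d := l) (by omega) (by omega) (by omega)
      grind
    · rcases lt_or_gt_of_ne n_b_c.symm with c5|c5
      · rw [ccw_iff3 (a := a) (b := b) (c := l) (by omega) (by omega)] at h1
        rw [ccw_iff5 (a := c) (b := b) (c := l) (by omega) (by omega)] at h2
        rw [ccw_iff3 (a := a) (b := c) (c := l) (by omega) (by omega)]
        have q0 := four (σ := σ) (a := a) (b := c) (c := b) (d := l) (by omega) (by omega) (by omega)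
        grind
      · rw [ccw_iff3 (a := a) (b := b) (c := l) (by omega) (by omega)] at h1
        rw [ccw_iff3 (a := b) (b := c) (c := l) (by omega) (by omega)] at h2
        rw [ccw_iff3 (a := a) (b := c) (c := l) (by omega) (by omega)]
        have q0 := four (σ := σ) (a := a) (b := b) (c := c) (d := l) (by omega) (by omega) (by omega)
        grind

/-- Knuth rule 4 (interiority). -/
theorem ax4 {a b c d : ℤ} (h1 : σ.ccw a b d) (h2 : σ.ccw b c d) (h3 : σ.ccw c a d) : σ.ccw a b c := by
  have n_a_b := ne12 h1
  have n_b_d := ne23 h1
  have n_a_d := ne13 h1
  have n_b_c := ne12 h2
  have n_c_d := ne23 h2
  have n_c_a := ne12 h3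
  rcases lt_or_gt_of_ne n_a_b.symm with c1|c1
  · rcases lt_or_gt_of_ne n_b_c.symm with c2|c2
    · rcases lt_or_gt_of_ne n_c_d.symm with c3|c3
      · rw [ccw_iff5 (a := d) (b := b) (c := a) (by omega) (by omega)] at h1
        rw [ccw_iff5 (a := d) (b := c) (c := b) (by omega) (by omega)] at h2
        rw [ccw_iff2 (a := d) (b := c) (c := a) (by omega) (by omega)] at h3
        rw [ccw_iff5 (a := c) (b := b) (c := a) (by omega) (by omega)]
        have q0 := four (σ := σ) (a := d) (b := c) (c := b) (d := a) (by omega) (by omega) (by omega)
        grind
      · rcases lt_or_gt_of_ne n_b_d.symm with c4|c4
        · rw [ccw_iff5 (a := d) (b := b) (c := a) (by omega) (by omega)] at h1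
          rw [ccw_iff3 (a := c) (b := d) (c := b) (by omega) (by omega)] at h2
          rw [ccw_iff4 (a := c) (b := d) (c := a) (by omega) (by omega)] at h3
          rw [ccw_iff5 (a := c) (b := b) (c := a) (by omega) (by omega)]
          have q0 := four (σ := σ) (a := c) (b := d) (c := b) (d := a) (by omega) (by omega) (by omega)
          grind
        · rcases lt_or_gt_of_ne n_a_d.symm with c5|c5
          · rw [ccw_iff3 (a := b) (b := d) (c := a) (by omega) (by omega)] at h1
            rw [ccw_iff6 (a := c) (b := b) (c := d) (by omega) (by omega)] at h2
            rw [ccw_iff4 (a := c) (b := d) (c := a) (by omega) (by omega)] at h3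
            rw [ccw_iff5 (a := c) (b := b) (c := a) (by omega) (by omega)]
            have q0 := four (σ := σ) (a := c) (b := b) (c := d) (d := a) (by omega) (by omega) (by omega)
            grind
          · rw [ccw_iff6 (a := b) (b := a) (c := d) (by omega) (by omega)] at h1
            rw [ccw_iff6 (a := c) (b := b) (c := d) (by omega) (by omega)] at h2
            rw [ccw_iff1 (a := c) (b := a) (c := d) (by omega) (by omega)] at h3
            rw [ccw_iff5 (a := c) (b := b) (c := a) (by omega) (by omega)]
            have q0 := four (σ := σ) (a := c) (b := b) (c := a) (d := d) (by omega) (by omega) (by omega)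
            grind
    · rcases lt_or_gt_of_ne n_c_a with c6|c6
      · rcases lt_or_gt_of_ne n_b_d.symm with c7|c7
        · rw [ccw_iff5 (a := d) (b := b) (c := a) (by omega) (by omega)] at h1
          rw [ccw_iff2 (a := d) (b := b) (c := c) (by omega) (by omega)] at h2
          rw [ccw_iff2 (a := d) (b := c) (c := a) (by omega) (by omega)] at h3
          rw [ccw_iff3 (a := b) (b := c) (c := a) (by omega) (by omega)]
          have q0 := four (σ := σ) (a := d) (b := b) (c := c) (d := a) (by omega) (by omega) (by omega)
          grind
        · rcases lt_or_gt_of_ne n_c_d.symm with c8|c8
          · rw [ccw_iff3 (a := b) (b := d) (c := a) (by omega) (by omega)] at h1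
            rw [ccw_iff4 (a := b) (b := d) (c := c) (by omega) (by omega)] at h2
            rw [ccw_iff2 (a := d) (b := c) (c := a) (by omega) (by omega)] at h3
            rw [ccw_iff3 (a := b) (b := c) (c := a) (by omega) (by omega)]
            have q0 := four (σ := σ) (a := b) (b := d) (c := c) (d := a) (by omega) (by omega) (by omega)
            grind
          · rcases lt_or_gt_of_ne n_a_d.symm with c9|c9
            · rw [ccw_iff3 (a := b) (b := d) (c := a) (by omega) (by omega)] at h1
              rw [ccw_iff1 (a := b) (b := c) (c := d) (by omega) (by omega)] at h2
              rw [ccw_iff4 (a := c) (b := d) (c := a) (by omega) (by omega)] at h3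
              rw [ccw_iff3 (a := b) (b := c) (c := a) (by omega) (by omega)]
              have q0 := four (σ := σ) (a := b) (b := c) (c := d) (d := a) (by omega) (by omega) (by omega)
              grind
            · rw [ccw_iff6 (a := b) (b := a) (c := d) (by omega) (by omega)] at h1
              rw [ccw_iff1 (a := b) (b := c) (c := d) (by omega) (by omega)] at h2
              rw [ccw_iff1 (a := c) (b := a) (c := d) (by omega) (by omega)] at h3
              rw [ccw_iff3 (a := b) (b := c) (c := a) (by omega) (by omega)]
              have q0 := four (σ := σ) (a := b) (b := c) (c := a) (d := d) (by omega) (by omega) (by omega)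
              grind
      · rcases lt_or_gt_of_ne n_b_d.symm with c10|c10
        · rw [ccw_iff5 (a := d) (b := b) (c := a) (by omega) (by omega)] at h1
          rw [ccw_iff2 (a := d) (b := b) (c := c) (by omega) (by omega)] at h2
          rw [ccw_iff5 (a := d) (b := a) (c := c) (by omega) (by omega)] at h3
          rw [ccw_iff6 (a := b) (b := a) (c := c) (by omega) (by omega)]
          have q0 := four (σ := σ) (a := d) (b := b) (c := a) (d := c) (by omega) (by omega) (by omega)
          grind
        · rcases lt_or_gt_of_ne n_a_d.symm with c11|c11
          · rw [ccw_iff3 (a := b) (b := d) (c := a) (by omega) (by omega)] at h1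
            rw [ccw_iff4 (a := b) (b := d) (c := c) (by omega) (by omega)] at h2
            rw [ccw_iff5 (a := d) (b := a) (c := c) (by omega) (by omega)] at h3
            rw [ccw_iff6 (a := b) (b := a) (c := c) (by omega) (by omega)]
            have q0 := four (σ := σ) (a := b) (b := d) (c := a) (d := c) (by omega) (by omega) (by omega)
            grind
          · rcases lt_or_gt_of_ne n_c_d.symm with c12|c12
            · rw [ccw_iff6 (a := b) (b := a) (c := d) (by omega) (by omega)] at h1
              rw [ccw_iff4 (a := b) (b := d) (c := c) (by omega) (by omega)] at h2
              rw [ccw_iff3 (a := a) (b := d) (c := c) (by omega) (by omega)] at h3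
              rw [ccw_iff6 (a := b) (b := a) (c := c) (by omega) (by omega)]
              have q0 := four (σ := σ) (a := b) (b := a) (c := d) (d := c) (by omega) (by omega) (by omega)
              grind
            · rw [ccw_iff6 (a := b) (b := a) (c := d) (by omega) (by omega)] at h1
              rw [ccw_iff1 (a := b) (b := c) (c := d) (by omega) (by omega)] at h2
              rw [ccw_iff6 (a := a) (b := c) (c := d) (by omega) (by omega)] at h3
              rw [ccw_iff6 (a := b) (b := a) (c := c) (by omega) (by omega)]
              have q0 := four (σ := σ) (a := b) (b := a) (c := c) (d := d) (by omega) (by omega) (by omega)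
              grind
  · rcases lt_or_gt_of_ne n_c_a with c13|c13
    · rcases lt_or_gt_of_ne n_c_d.symm with c14|c14
      · rw [ccw_iff2 (a := d) (b := a) (c := b) (by omega) (by omega)] at h1
        rw [ccw_iff5 (a := d) (b := c) (c := b) (by omega) (by omega)] at h2
        rw [ccw_iff2 (a := d) (b := c) (c := a) (by omega) (by omega)] at h3
        rw [ccw_iff2 (a := c) (b := a) (c := b) (by omega) (by omega)]
        have q0 := four (σ := σ) (a := d) (b := c) (c := a) (d := b) (by omega) (by omega) (by omega)
        grind
      · rcases lt_or_gt_of_ne n_a_d.symm with c15|c15
        · rw [ccw_iff2 (a := d) (b := a) (c := b) (by omega) (by omega)] at h1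
          rw [ccw_iff3 (a := c) (b := d) (c := b) (by omega) (by omega)] at h2
          rw [ccw_iff4 (a := c) (b := d) (c := a) (by omega) (by omega)] at h3
          rw [ccw_iff2 (a := c) (b := a) (c := b) (by omega) (by omega)]
          have q0 := four (σ := σ) (a := c) (b := d) (c := a) (d := b) (by omega) (by omega) (by omega)
          grind
        · rcases lt_or_gt_of_ne n_b_d.symm with c16|c16
          · rw [ccw_iff4 (a := a) (b := d) (c := b) (by omega) (by omega)] at h1
            rw [ccw_iff3 (a := c) (b := d) (c := b) (by omega) (by omega)] at h2
            rw [ccw_iff1 (a := c) (b := a) (c := d) (by omega) (by omega)] at h3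
            rw [ccw_iff2 (a := c) (b := a) (c := b) (by omega) (by omega)]
            have q0 := four (σ := σ) (a := c) (b := a) (c := d) (d := b) (by omega) (by omega) (by omega)
            grind
          · rw [ccw_iff1 (a := a) (b := b) (c := d) (by omega) (by omega)] at h1
            rw [ccw_iff6 (a := c) (b := b) (c := d) (by omega) (by omega)] at h2
            rw [ccw_iff1 (a := c) (b := a) (c := d) (by omega) (by omega)] at h3
            rw [ccw_iff2 (a := c) (b := a) (c := b) (by omega) (by omega)]
            have q0 := four (σ := σ) (a := c) (b := a) (c := b) (d := d) (by omega) (by omega) (by omega)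
            grind
    · rcases lt_or_gt_of_ne n_b_c.symm with c17|c17
      · rcases lt_or_gt_of_ne n_a_d.symm with c18|c18
        · rw [ccw_iff2 (a := d) (b := a) (c := b) (by omega) (by omega)] at h1
          rw [ccw_iff5 (a := d) (b := c) (c := b) (by omega) (by omega)] at h2
          rw [ccw_iff5 (a := d) (b := a) (c := c) (by omega) (by omega)] at h3
          rw [ccw_iff4 (a := a) (b := c) (c := b) (by omega) (by omega)]
          have q0 := four (σ := σ) (a := d) (b := a) (c := c) (d := b) (by omega) (by omega) (by omega)
          grind
        · rcases lt_or_gt_of_ne n_c_d.symm with c19|c19
          · rw [ccw_iff4 (a := a) (b := d) (c := b) (by omega) (by omega)] at h1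
            rw [ccw_iff5 (a := d) (b := c) (c := b) (by omega) (by omega)] at h2
            rw [ccw_iff3 (a := a) (b := d) (c := c) (by omega) (by omega)] at h3
            rw [ccw_iff4 (a := a) (b := c) (c := b) (by omega) (by omega)]
            have q0 := four (σ := σ) (a := a) (b := d) (c := c) (d := b) (by omega) (by omega) (by omega)
            grind
          · rcases lt_or_gt_of_ne n_b_d.symm with c20|c20
            · rw [ccw_iff4 (a := a) (b := d) (c := b) (by omega) (by omega)] at h1
              rw [ccw_iff3 (a := c) (b := d) (c := b) (by omega) (by omega)] at h2
              rw [ccw_iff6 (a := a) (b := c) (c := d) (by omega) (by omega)] at h3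
              rw [ccw_iff4 (a := a) (b := c) (c := b) (by omega) (by omega)]
              have q0 := four (σ := σ) (a := a) (b := c) (c := d) (d := b) (by omega) (by omega) (by omega)
              grind
            · rw [ccw_iff1 (a := a) (b := b) (c := d) (by omega) (by omega)] at h1
              rw [ccw_iff6 (a := c) (b := b) (c := d) (by omega) (by omega)] at h2
              rw [ccw_iff6 (a := a) (b := c) (c := d) (by omega) (by omega)] at h3
              rw [ccw_iff4 (a := a) (b := c) (c := b) (by omega) (by omega)]
              have q0 := four (σ := σ) (a := a) (b := c) (c := b) (d := d) (by omega) (by omega) (by omega)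
              grind
      · rcases lt_or_gt_of_ne n_a_d.symm with c21|c21
        · rw [ccw_iff2 (a := d) (b := a) (c := b) (by omega) (by omega)] at h1
          rw [ccw_iff2 (a := d) (b := b) (c := c) (by omega) (by omega)] at h2
          rw [ccw_iff5 (a := d) (b := a) (c := c) (by omega) (by omega)] at h3
          rw [ccw_iff1 (a := a) (b := b) (c := c) (by omega) (by omega)]
          have q0 := four (σ := σ) (a := d) (b := a) (c := b) (d := c) (by omega) (by omega) (by omega)
          grind
        · rcases lt_or_gt_of_ne n_b_d.symm with c22|c22
          · rw [ccw_iff4 (a := a) (b := d) (c := b) (by omega) (by omega)] at h1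
            rw [ccw_iff2 (a := d) (b := b) (c := c) (by omega) (by omega)] at h2
            rw [ccw_iff3 (a := a) (b := d) (c := c) (by omega) (by omega)] at h3
            rw [ccw_iff1 (a := a) (b := b) (c := c) (by omega) (by omega)]
            have q0 := four (σ := σ) (a := a) (b := d) (c := b) (d := c) (by omega) (by omega) (by omega)
            grind
          · rcases lt_or_gt_of_ne n_c_d.symm with c23|c23
            · rw [ccw_iff1 (a := a) (b := b) (c := d) (by omega) (by omega)] at h1
              rw [ccw_iff4 (a := b) (b := d) (c := c) (by omega) (by omega)] at h2
              rw [ccw_iff3 (a := a) (b := d) (c := c) (by omega) (by omega)] at h3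
              rw [ccw_iff1 (a := a) (b := b) (c := c) (by omega) (by omega)]
              have q0 := four (σ := σ) (a := a) (b := b) (c := d) (d := c) (by omega) (by omega) (by omega)
              grind
            · rw [ccw_iff1 (a := a) (b := b) (c := d) (by omega) (by omega)] at h1
              rw [ccw_iff1 (a := b) (b := c) (c := d) (by omega) (by omega)] at h2
              rw [ccw_iff6 (a := a) (b := c) (c := d) (by omega) (by omega)] at h3
              rw [ccw_iff1 (a := a) (b := b) (c := c) (by omega) (by omega)]
              have q0 := four (σ := σ) (a := a) (b := b) (c := c) (d := d) (by omega) (by omega) (by omega)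
              grind

/-- Knuth rule 5 (transitivity). -/
theorem ax5 {t s p q r : ℤ} (h1 : σ.ccw t s p) (h2 : σ.ccw t s q) (h3 : σ.ccw t s r) (h4 : σ.ccw t p q) (h5 : σ.ccw t q r) : σ.ccw t p r := by
  have n_t_s := ne12 h1
  have n_s_p := ne23 h1
  have n_t_p := ne13 h1
  have n_s_q := ne23 h2
  have n_t_q := ne13 h2
  have n_s_r := ne23 h3
  have n_t_r := ne13 h3
  have n_p_q := ne23 h4
  have n_q_r := ne23 h5
  have n_p_r : p ≠ r := by rintro rfl; exact asymm' h4 h5
  rcases lt_or_gt_of_ne n_t_s.symm with c1|c1
  · rcases lt_or_gt_of_ne n_s_p.symm with c2|c2
    · rcases lt_or_gt_of_ne n_p_q.symm with c3|c3
      · rcases lt_or_gt_of_ne n_q_r.symm with c4|c4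
        · rw [ccw_iff5 (a := p) (b := s) (c := t) (by omega) (by omega)] at h1
          rw [ccw_iff5 (a := q) (b := s) (c := t) (by omega) (by omega)] at h2
          rw [ccw_iff5 (a := r) (b := s) (c := t) (by omega) (by omega)] at h3
          rw [ccw_iff5 (a := q) (b := p) (c := t) (by omega) (by omega)] at h4
          rw [ccw_iff5 (a := r) (b := q) (c := t) (by omega) (by omega)] at h5
          rw [ccw_iff5 (a := r) (b := p) (c := t) (by omega) (by omega)]
          have q0 := four (σ := σ) (a := q) (b := p) (c := s) (d := t) (by omega) (by omega) (by omega)
          have q1 := four (σ := σ) (a := r) (b := q) (c := s) (d := t) (by omega) (by omega) (by omega)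
          have q2 := four (σ := σ) (a := r) (b := p) (c := s) (d := t) (by omega) (by omega) (by omega)
          have q3 := four (σ := σ) (a := r) (b := q) (c := p) (d := t) (by omega) (by omega) (by omega)
          have q4 := four (σ := σ) (a := r) (b := q) (c := p) (d := s) (by omega) (by omega) (by omega)
          grind
        · rcases lt_or_gt_of_ne n_p_r.symm with c5|c5
          · rw [ccw_iff5 (a := p) (b := s) (c := t) (by omega) (by omega)] at h1
            rw [ccw_iff5 (a := q) (b := s) (c := t) (by omega) (by omega)] at h2
            rw [ccw_iff5 (a := r) (b := s) (c := t) (by omega) (by omega)] at h3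
            rw [ccw_iff5 (a := q) (b := p) (c := t) (by omega) (by omega)] at h4
            rw [ccw_iff3 (a := q) (b := r) (c := t) (by omega) (by omega)] at h5
            rw [ccw_iff5 (a := r) (b := p) (c := t) (by omega) (by omega)]
            have q0 := four (σ := σ) (a := q) (b := p) (c := s) (d := t) (by omega) (by omega) (by omega)
            have q1 := four (σ := σ) (a := q) (b := r) (c := s) (d := t) (by omega) (by omega) (by omega)
            have q2 := four (σ := σ) (a := r) (b := p) (c := s) (d := t) (by omega) (by omega) (by omega)
            have q3 := four (σ := σ) (a := q) (b := r) (c := p) (d := t) (by omega) (by omega) (by omega)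
            have q4 := four (σ := σ) (a := q) (b := r) (c := p) (d := s) (by omega) (by omega) (by omega)
            grind
          · rcases lt_or_gt_of_ne n_s_r.symm with c6|c6
            · rw [ccw_iff5 (a := p) (b := s) (c := t) (by omega) (by omega)] at h1
              rw [ccw_iff5 (a := q) (b := s) (c := t) (by omega) (by omega)] at h2
              rw [ccw_iff5 (a := r) (b := s) (c := t) (by omega) (by omega)] at h3
              rw [ccw_iff5 (a := q) (b := p) (c := t) (by omega) (by omega)] at h4
              rw [ccw_iff3 (a := q) (b := r) (c := t) (by omega) (by omega)] at h5
              rw [ccw_iff3 (a := p) (b := r) (c := t) (by omega) (by omega)]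
              have q0 := four (σ := σ) (a := q) (b := p) (c := s) (d := t) (by omega) (by omega) (by omega)
              have q1 := four (σ := σ) (a := q) (b := r) (c := s) (d := t) (by omega) (by omega) (by omega)
              have q2 := four (σ := σ) (a := p) (b := r) (c := s) (d := t) (by omega) (by omega) (by omega)
              have q3 := four (σ := σ) (a := q) (b := p) (c := r) (d := t) (by omega) (by omega) (by omega)
              have q4 := four (σ := σ) (a := q) (b := p) (c := r) (d := s) (by omega) (by omega) (by omega)
              grind
            · rcases lt_or_gt_of_ne n_t_r.symm with c7|c7
              · rw [ccw_iff5 (a := p) (b := s) (c := t) (by omega) (by omega)] at h1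
                rw [ccw_iff5 (a := q) (b := s) (c := t) (by omega) (by omega)] at h2
                rw [ccw_iff3 (a := s) (b := r) (c := t) (by omega) (by omega)] at h3
                rw [ccw_iff5 (a := q) (b := p) (c := t) (by omega) (by omega)] at h4
                rw [ccw_iff3 (a := q) (b := r) (c := t) (by omega) (by omega)] at h5
                rw [ccw_iff3 (a := p) (b := r) (c := t) (by omega) (by omega)]
                have q0 := four (σ := σ) (a := q) (b := p) (c := s) (d := t) (by omega) (by omega) (by omega)
                have q1 := four (σ := σ) (a := q) (b := s) (c := r) (d := t) (by omega) (by omega) (by omega)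
                have q2 := four (σ := σ) (a := p) (b := s) (c := r) (d := t) (by omega) (by omega) (by omega)
                have q3 := four (σ := σ) (a := q) (b := p) (c := r) (d := t) (by omega) (by omega) (by omega)
                have q4 := four (σ := σ) (a := q) (b := p) (c := s) (d := r) (by omega) (by omega) (by omega)
                grind
              · rw [ccw_iff5 (a := p) (b := s) (c := t) (by omega) (by omega)] at h1
                rw [ccw_iff5 (a := q) (b := s) (c := t) (by omega) (by omega)] at h2
                rw [ccw_iff6 (a := s) (b := t) (c := r) (by omega) (by omega)] at h3
                rw [ccw_iff5 (a := q) (b := p) (c := t) (by omega) (by omega)] at h4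
                rw [ccw_iff6 (a := q) (b := t) (c := r) (by omega) (by omega)] at h5
                rw [ccw_iff6 (a := p) (b := t) (c := r) (by omega) (by omega)]
                have q0 := four (σ := σ) (a := q) (b := p) (c := s) (d := t) (by omega) (by omega) (by omega)
                have q1 := four (σ := σ) (a := q) (b := s) (c := t) (d := r) (by omega) (by omega) (by omega)
                have q2 := four (σ := σ) (a := p) (b := s) (c := t) (d := r) (by omega) (by omega) (by omega)
                have q3 := four (σ := σ) (a := q) (b := p) (c := t) (d := r) (by omega) (by omega) (by omega)
                have q4 := four (σ := σ) (a := q) (b := p) (c := s) (d := r) (by omega) (by omega) (by omega)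
                grind
      · rcases lt_or_gt_of_ne n_s_q.symm with c8|c8
        · rcases lt_or_gt_of_ne n_p_r.symm with c9|c9
          · rw [ccw_iff5 (a := p) (b := s) (c := t) (by omega) (by omega)] at h1
            rw [ccw_iff5 (a := q) (b := s) (c := t) (by omega) (by omega)] at h2
            rw [ccw_iff5 (a := r) (b := s) (c := t) (by omega) (by omega)] at h3
            rw [ccw_iff3 (a := p) (b := q) (c := t) (by omega) (by omega)] at h4
            rw [ccw_iff5 (a := r) (b := q) (c := t) (by omega) (by omega)] at h5
            rw [ccw_iff5 (a := r) (b := p) (c := t) (by omega) (by omega)]
            have q0 := four (σ := σ) (a := p) (b := q) (c := s) (d := t) (by omega) (by omega) (by omega)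
            have q1 := four (σ := σ) (a := r) (b := q) (c := s) (d := t) (by omega) (by omega) (by omega)
            have q2 := four (σ := σ) (a := r) (b := p) (c := s) (d := t) (by omega) (by omega) (by omega)
            have q3 := four (σ := σ) (a := r) (b := p) (c := q) (d := t) (by omega) (by omega) (by omega)
            have q4 := four (σ := σ) (a := r) (b := p) (c := q) (d := s) (by omega) (by omega) (by omega)
            grind
          · rcases lt_or_gt_of_ne n_q_r.symm with c10|c10
            · rw [ccw_iff5 (a := p) (b := s) (c := t) (by omega) (by omega)] at h1
              rw [ccw_iff5 (a := q) (b := s) (c := t) (by omega) (by omega)] at h2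
              rw [ccw_iff5 (a := r) (b := s) (c := t) (by omega) (by omega)] at h3
              rw [ccw_iff3 (a := p) (b := q) (c := t) (by omega) (by omega)] at h4
              rw [ccw_iff5 (a := r) (b := q) (c := t) (by omega) (by omega)] at h5
              rw [ccw_iff3 (a := p) (b := r) (c := t) (by omega) (by omega)]
              have q0 := four (σ := σ) (a := p) (b := q) (c := s) (d := t) (by omega) (by omega) (by omega)
              have q1 := four (σ := σ) (a := r) (b := q) (c := s) (d := t) (by omega) (by omega) (by omega)
              have q2 := four (σ := σ) (a := p) (b := r) (c := s) (d := t) (by omega) (by omega) (by omega)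
              have q3 := four (σ := σ) (a := p) (b := r) (c := q) (d := t) (by omega) (by omega) (by omega)
              have q4 := four (σ := σ) (a := p) (b := r) (c := q) (d := s) (by omega) (by omega) (by omega)
              grind
            · rcases lt_or_gt_of_ne n_s_r.symm with c11|c11
              · rw [ccw_iff5 (a := p) (b := s) (c := t) (by omega) (by omega)] at h1
                rw [ccw_iff5 (a := q) (b := s) (c := t) (by omega) (by omega)] at h2
                rw [ccw_iff5 (a := r) (b := s) (c := t) (by omega) (by omega)] at h3
                rw [ccw_iff3 (a := p) (b := q) (c := t) (by omega) (by omega)] at h4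
                rw [ccw_iff3 (a := q) (b := r) (c := t) (by omega) (by omega)] at h5
                rw [ccw_iff3 (a := p) (b := r) (c := t) (by omega) (by omega)]
                have q0 := four (σ := σ) (a := p) (b := q) (c := s) (d := t) (by omega) (by omega) (by omega)
                have q1 := four (σ := σ) (a := q) (b := r) (c := s) (d := t) (by omega) (by omega) (by omega)
                have q2 := four (σ := σ) (a := p) (b := r) (c := s) (d := t) (by omega) (by omega) (by omega)
                have q3 := four (σ := σ) (a := p) (b := q) (c := r) (d := t) (by omega) (by omega) (by omega)
                have q4 := four (σ := σ) (a := p) (b := q) (c := r) (d := s) (by omega) (by omega) (by omega)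
                grind
              · rcases lt_or_gt_of_ne n_t_r.symm with c12|c12
                · rw [ccw_iff5 (a := p) (b := s) (c := t) (by omega) (by omega)] at h1
                  rw [ccw_iff5 (a := q) (b := s) (c := t) (by omega) (by omega)] at h2
                  rw [ccw_iff3 (a := s) (b := r) (c := t) (by omega) (by omega)] at h3
                  rw [ccw_iff3 (a := p) (b := q) (c := t) (by omega) (by omega)] at h4
                  rw [ccw_iff3 (a := q) (b := r) (c := t) (by omega) (by omega)] at h5
                  rw [ccw_iff3 (a := p) (b := r) (c := t) (by omega) (by omega)]
                  have q0 := four (σ := σ) (a := p) (b := q) (c := s) (d := t) (by omega) (by omega) (by omega)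
                  have q1 := four (σ := σ) (a := q) (b := s) (c := r) (d := t) (by omega) (by omega) (by omega)
                  have q2 := four (σ := σ) (a := p) (b := s) (c := r) (d := t) (by omega) (by omega) (by omega)
                  have q3 := four (σ := σ) (a := p) (b := q) (c := r) (d := t) (by omega) (by omega) (by omega)
                  have q4 := four (σ := σ) (a := p) (b := q) (c := s) (d := r) (by omega) (by omega) (by omega)
                  grind
                · rw [ccw_iff5 (a := p) (b := s) (c := t) (by omega) (by omega)] at h1
                  rw [ccw_iff5 (a := q) (b := s) (c := t) (by omega) (by omega)] at h2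
                  rw [ccw_iff6 (a := s) (b := t) (c := r) (by omega) (by omega)] at h3
                  rw [ccw_iff3 (a := p) (b := q) (c := t) (by omega) (by omega)] at h4
                  rw [ccw_iff6 (a := q) (b := t) (c := r) (by omega) (by omega)] at h5
                  rw [ccw_iff6 (a := p) (b := t) (c := r) (by omega) (by omega)]
                  have q0 := four (σ := σ) (a := p) (b := q) (c := s) (d := t) (by omega) (by omega) (by omega)
                  have q1 := four (σ := σ) (a := q) (b := s) (c := t) (d := r) (by omega) (by omega) (by omega)
                  have q2 := four (σ := σ) (a := p) (b := s) (c := t) (d := r) (by omega) (by omega) (by omega)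
                  have q3 := four (σ := σ) (a := p) (b := q) (c := t) (d := r) (by omega) (by omega) (by omega)
                  have q4 := four (σ := σ) (a := p) (b := q) (c := s) (d := r) (by omega) (by omega) (by omega)
                  grind
        · rcases lt_or_gt_of_ne n_t_q.symm with c13|c13
          · rcases lt_or_gt_of_ne n_p_r.symm with c14|c14
            · rw [ccw_iff5 (a := p) (b := s) (c := t) (by omega) (by omega)] at h1
              rw [ccw_iff3 (a := s) (b := q) (c := t) (by omega) (by omega)] at h2
              rw [ccw_iff5 (a := r) (b := s) (c := t) (by omega) (by omega)] at h3
              rw [ccw_iff3 (a := p) (b := q) (c := t) (by omega) (by omega)] at h4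
              rw [ccw_iff5 (a := r) (b := q) (c := t) (by omega) (by omega)] at h5
              rw [ccw_iff5 (a := r) (b := p) (c := t) (by omega) (by omega)]
              have q0 := four (σ := σ) (a := p) (b := s) (c := q) (d := t) (by omega) (by omega) (by omega)
              have q1 := four (σ := σ) (a := r) (b := s) (c := q) (d := t) (by omega) (by omega) (by omega)
              have q2 := four (σ := σ) (a := r) (b := p) (c := s) (d := t) (by omega) (by omega) (by omega)
              have q3 := four (σ := σ) (a := r) (b := p) (c := q) (d := t) (by omega) (by omega) (by omega)
              have q4 := four (σ := σ) (a := r) (b := p) (c := s) (d := q) (by omega) (by omega) (by omega)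
              grind
            · rcases lt_or_gt_of_ne n_s_r.symm with c15|c15
              · rw [ccw_iff5 (a := p) (b := s) (c := t) (by omega) (by omega)] at h1
                rw [ccw_iff3 (a := s) (b := q) (c := t) (by omega) (by omega)] at h2
                rw [ccw_iff5 (a := r) (b := s) (c := t) (by omega) (by omega)] at h3
                rw [ccw_iff3 (a := p) (b := q) (c := t) (by omega) (by omega)] at h4
                rw [ccw_iff5 (a := r) (b := q) (c := t) (by omega) (by omega)] at h5
                rw [ccw_iff3 (a := p) (b := r) (c := t) (by omega) (by omega)]
                have q0 := four (σ := σ) (a := p) (b := s) (c := q) (d := t) (by omega) (by omega) (by omega)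
                have q1 := four (σ := σ) (a := r) (b := s) (c := q) (d := t) (by omega) (by omega) (by omega)
                have q2 := four (σ := σ) (a := p) (b := r) (c := s) (d := t) (by omega) (by omega) (by omega)
                have q3 := four (σ := σ) (a := p) (b := r) (c := q) (d := t) (by omega) (by omega) (by omega)
                have q4 := four (σ := σ) (a := p) (b := r) (c := s) (d := q) (by omega) (by omega) (by omega)
                grind
              · rcases lt_or_gt_of_ne n_q_r.symm with c16|c16
                · rw [ccw_iff5 (a := p) (b := s) (c := t) (by omega) (by omega)] at h1
                  rw [ccw_iff3 (a := s) (b := q) (c := t) (by omega) (by omega)] at h2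
                  rw [ccw_iff3 (a := s) (b := r) (c := t) (by omega) (by omega)] at h3
                  rw [ccw_iff3 (a := p) (b := q) (c := t) (by omega) (by omega)] at h4
                  rw [ccw_iff5 (a := r) (b := q) (c := t) (by omega) (by omega)] at h5
                  rw [ccw_iff3 (a := p) (b := r) (c := t) (by omega) (by omega)]
                  have q0 := four (σ := σ) (a := p) (b := s) (c := q) (d := t) (by omega) (by omega) (by omega)
                  have q1 := four (σ := σ) (a := s) (b := r) (c := q) (d := t) (by omega) (by omega) (by omega)
                  have q2 := four (σ := σ) (a := p) (b := s) (c := r) (d := t) (by omega) (by omega) (by omega)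
                  have q3 := four (σ := σ) (a := p) (b := r) (c := q) (d := t) (by omega) (by omega) (by omega)
                  have q4 := four (σ := σ) (a := p) (b := s) (c := r) (d := q) (by omega) (by omega) (by omega)
                  grind
                · rcases lt_or_gt_of_ne n_t_r.symm with c17|c17
                  · rw [ccw_iff5 (a := p) (b := s) (c := t) (by omega) (by omega)] at h1
                    rw [ccw_iff3 (a := s) (b := q) (c := t) (by omega) (by omega)] at h2
                    rw [ccw_iff3 (a := s) (b := r) (c := t) (by omega) (by omega)] at h3
                    rw [ccw_iff3 (a := p) (b := q) (c := t) (by omega) (by omega)] at h4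
                    rw [ccw_iff3 (a := q) (b := r) (c := t) (by omega) (by omega)] at h5
                    rw [ccw_iff3 (a := p) (b := r) (c := t) (by omega) (by omega)]
                    have q0 := four (σ := σ) (a := p) (b := s) (c := q) (d := t) (by omega) (by omega) (by omega)
                    have q1 := four (σ := σ) (a := s) (b := q) (c := r) (d := t) (by omega) (by omega) (by omega)
                    have q2 := four (σ := σ) (a := p) (b := s) (c := r) (d := t) (by omega) (by omega) (by omega)
                    have q3 := four (σ := σ) (a := p) (b := q) (c := r) (d := t) (by omega) (by omega) (by omega)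
                    have q4 := four (σ := σ) (a := p) (b := s) (c := q) (d := r) (by omega) (by omega) (by omega)
                    grind
                  · rw [ccw_iff5 (a := p) (b := s) (c := t) (by omega) (by omega)] at h1
                    rw [ccw_iff3 (a := s) (b := q) (c := t) (by omega) (by omega)] at h2
                    rw [ccw_iff6 (a := s) (b := t) (c := r) (by omega) (by omega)] at h3
                    rw [ccw_iff3 (a := p) (b := q) (c := t) (by omega) (by omega)] at h4
                    rw [ccw_iff6 (a := q) (b := t) (c := r) (by omega) (by omega)] at h5
                    rw [ccw_iff6 (a := p) (b := t) (c := r) (by omega) (by omega)]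
                    have q0 := four (σ := σ) (a := p) (b := s) (c := q) (d := t) (by omega) (by omega) (by omega)
                    have q1 := four (σ := σ) (a := s) (b := q) (c := t) (d := r) (by omega) (by omega) (by omega)
                    have q2 := four (σ := σ) (a := p) (b := s) (c := t) (d := r) (by omega) (by omega) (by omega)
                    have q3 := four (σ := σ) (a := p) (b := q) (c := t) (d := r) (by omega) (by omega) (by omega)
                    have q4 := four (σ := σ) (a := p) (b := s) (c := q) (d := r) (by omega) (by omega) (by omega)
                    grind
          · rcases lt_or_gt_of_ne n_p_r.symm with c18|c18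
            · rw [ccw_iff5 (a := p) (b := s) (c := t) (by omega) (by omega)] at h1
              rw [ccw_iff6 (a := s) (b := t) (c := q) (by omega) (by omega)] at h2
              rw [ccw_iff5 (a := r) (b := s) (c := t) (by omega) (by omega)] at h3
              rw [ccw_iff6 (a := p) (b := t) (c := q) (by omega) (by omega)] at h4
              rw [ccw_iff2 (a := r) (b := t) (c := q) (by omega) (by omega)] at h5
              rw [ccw_iff5 (a := r) (b := p) (c := t) (by omega) (by omega)]
              have q0 := four (σ := σ) (a := p) (b := s) (c := t) (d := q) (by omega) (by omega) (by omega)
              have q1 := four (σ := σ) (a := r) (b := s) (c := t) (d := q) (by omega) (by omega) (by omega)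
              have q2 := four (σ := σ) (a := r) (b := p) (c := s) (d := t) (by omega) (by omega) (by omega)
              have q3 := four (σ := σ) (a := r) (b := p) (c := t) (d := q) (by omega) (by omega) (by omega)
              have q4 := four (σ := σ) (a := r) (b := p) (c := s) (d := q) (by omega) (by omega) (by omega)
              grind
            · rcases lt_or_gt_of_ne n_s_r.symm with c19|c19
              · rw [ccw_iff5 (a := p) (b := s) (c := t) (by omega) (by omega)] at h1
                rw [ccw_iff6 (a := s) (b := t) (c := q) (by omega) (by omega)] at h2
                rw [ccw_iff5 (a := r) (b := s) (c := t) (by omega) (by omega)] at h3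
                rw [ccw_iff6 (a := p) (b := t) (c := q) (by omega) (by omega)] at h4
                rw [ccw_iff2 (a := r) (b := t) (c := q) (by omega) (by omega)] at h5
                rw [ccw_iff3 (a := p) (b := r) (c := t) (by omega) (by omega)]
                have q0 := four (σ := σ) (a := p) (b := s) (c := t) (d := q) (by omega) (by omega) (by omega)
                have q1 := four (σ := σ) (a := r) (b := s) (c := t) (d := q) (by omega) (by omega) (by omega)
                have q2 := four (σ := σ) (a := p) (b := r) (c := s) (d := t) (by omega) (by omega) (by omega)
                have q3 := four (σ := σ) (a := p) (b := r) (c := t) (d := q) (by omega) (by omega) (by omega)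
                have q4 := four (σ := σ) (a := p) (b := r) (c := s) (d := q) (by omega) (by omega) (by omega)
                grind
              · rcases lt_or_gt_of_ne n_t_r.symm with c20|c20
                · rw [ccw_iff5 (a := p) (b := s) (c := t) (by omega) (by omega)] at h1
                  rw [ccw_iff6 (a := s) (b := t) (c := q) (by omega) (by omega)] at h2
                  rw [ccw_iff3 (a := s) (b := r) (c := t) (by omega) (by omega)] at h3
                  rw [ccw_iff6 (a := p) (b := t) (c := q) (by omega) (by omega)] at h4
                  rw [ccw_iff2 (a := r) (b := t) (c := q) (by omega) (by omega)] at h5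
                  rw [ccw_iff3 (a := p) (b := r) (c := t) (by omega) (by omega)]
                  have q0 := four (σ := σ) (a := p) (b := s) (c := t) (d := q) (by omega) (by omega) (by omega)
                  have q1 := four (σ := σ) (a := s) (b := r) (c := t) (d := q) (by omega) (by omega) (by omega)
                  have q2 := four (σ := σ) (a := p) (b := s) (c := r) (d := t) (by omega) (by omega) (by omega)
                  have q3 := four (σ := σ) (a := p) (b := r) (c := t) (d := q) (by omega) (by omega) (by omega)
                  have q4 := four (σ := σ) (a := p) (b := s) (c := r) (d := q) (by omega) (by omega) (by omega)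
                  grind
                · rcases lt_or_gt_of_ne n_q_r.symm with c21|c21
                  · rw [ccw_iff5 (a := p) (b := s) (c := t) (by omega) (by omega)] at h1
                    rw [ccw_iff6 (a := s) (b := t) (c := q) (by omega) (by omega)] at h2
                    rw [ccw_iff6 (a := s) (b := t) (c := r) (by omega) (by omega)] at h3
                    rw [ccw_iff6 (a := p) (b := t) (c := q) (by omega) (by omega)] at h4
                    rw [ccw_iff4 (a := t) (b := r) (c := q) (by omega) (by omega)] at h5
                    rw [ccw_iff6 (a := p) (b := t) (c := r) (by omega) (by omega)]
                    have q0 := four (σ := σ) (a := p) (b := s) (c := t) (d := q) (by omega) (by omega) (by omega)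
                    have q1 := four (σ := σ) (a := s) (b := t) (c := r) (d := q) (by omega) (by omega) (by omega)
                    have q2 := four (σ := σ) (a := p) (b := s) (c := t) (d := r) (by omega) (by omega) (by omega)
                    have q3 := four (σ := σ) (a := p) (b := t) (c := r) (d := q) (by omega) (by omega) (by omega)
                    have q4 := four (σ := σ) (a := p) (b := s) (c := r) (d := q) (by omega) (by omega) (by omega)
                    grind
                  · rw [ccw_iff5 (a := p) (b := s) (c := t) (by omega) (by omega)] at h1
                    rw [ccw_iff6 (a := s) (b := t) (c := q) (by omega) (by omega)] at h2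
                    rw [ccw_iff6 (a := s) (b := t) (c := r) (by omega) (by omega)] at h3
                    rw [ccw_iff6 (a := p) (b := t) (c := q) (by omega) (by omega)] at h4
                    rw [ccw_iff1 (a := t) (b := q) (c := r) (by omega) (by omega)] at h5
                    rw [ccw_iff6 (a := p) (b := t) (c := r) (by omega) (by omega)]
                    have q0 := four (σ := σ) (a := p) (b := s) (c := t) (d := q) (by omega) (by omega) (by omega)
                    have q1 := four (σ := σ) (a := s) (b := t) (c := q) (d := r) (by omega) (by omega) (by omega)
                    have q2 := four (σ := σ) (a := p) (b := s) (c := t) (d := r) (by omega) (by omega) (by omega)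
                    have q3 := four (σ := σ) (a := p) (b := t) (c := q) (d := r) (by omega) (by omega) (by omega)
                    have q4 := four (σ := σ) (a := p) (b := s) (c := q) (d := r) (by omega) (by omega) (by omega)
                    grind
    · rcases lt_or_gt_of_ne n_t_p.symm with c22|c22
      · rcases lt_or_gt_of_ne n_s_q.symm with c23|c23
        · rcases lt_or_gt_of_ne n_q_r.symm with c24|c24
          · rw [ccw_iff3 (a := s) (b := p) (c := t) (by omega) (by omega)] at h1
            rw [ccw_iff5 (a := q) (b := s) (c := t) (by omega) (by omega)] at h2
            rw [ccw_iff5 (a := r) (b := s) (c := t) (by omega) (by omega)] at h3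
            rw [ccw_iff5 (a := q) (b := p) (c := t) (by omega) (by omega)] at h4
            rw [ccw_iff5 (a := r) (b := q) (c := t) (by omega) (by omega)] at h5
            rw [ccw_iff5 (a := r) (b := p) (c := t) (by omega) (by omega)]
            have q0 := four (σ := σ) (a := q) (b := s) (c := p) (d := t) (by omega) (by omega) (by omega)
            have q1 := four (σ := σ) (a := r) (b := q) (c := s) (d := t) (by omega) (by omega) (by omega)
            have q2 := four (σ := σ) (a := r) (b := s) (c := p) (d := t) (by omega) (by omega) (by omega)
            have q3 := four (σ := σ) (a := r) (b := q) (c := p) (d := t) (by omega) (by omega) (by omega)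
            have q4 := four (σ := σ) (a := r) (b := q) (c := s) (d := p) (by omega) (by omega) (by omega)
            grind
          · rcases lt_or_gt_of_ne n_s_r.symm with c25|c25
            · rw [ccw_iff3 (a := s) (b := p) (c := t) (by omega) (by omega)] at h1
              rw [ccw_iff5 (a := q) (b := s) (c := t) (by omega) (by omega)] at h2
              rw [ccw_iff5 (a := r) (b := s) (c := t) (by omega) (by omega)] at h3
              rw [ccw_iff5 (a := q) (b := p) (c := t) (by omega) (by omega)] at h4
              rw [ccw_iff3 (a := q) (b := r) (c := t) (by omega) (by omega)] at h5
              rw [ccw_iff5 (a := r) (b := p) (c := t) (by omega) (by omega)]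
              have q0 := four (σ := σ) (a := q) (b := s) (c := p) (d := t) (by omega) (by omega) (by omega)
              have q1 := four (σ := σ) (a := q) (b := r) (c := s) (d := t) (by omega) (by omega) (by omega)
              have q2 := four (σ := σ) (a := r) (b := s) (c := p) (d := t) (by omega) (by omega) (by omega)
              have q3 := four (σ := σ) (a := q) (b := r) (c := p) (d := t) (by omega) (by omega) (by omega)
              have q4 := four (σ := σ) (a := q) (b := r) (c := s) (d := p) (by omega) (by omega) (by omega)
              grind
            · rcases lt_or_gt_of_ne n_p_r.symm with c26|c26
              · rw [ccw_iff3 (a := s) (b := p) (c := t) (by omega) (by omega)] at h1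
                rw [ccw_iff5 (a := q) (b := s) (c := t) (by omega) (by omega)] at h2
                rw [ccw_iff3 (a := s) (b := r) (c := t) (by omega) (by omega)] at h3
                rw [ccw_iff5 (a := q) (b := p) (c := t) (by omega) (by omega)] at h4
                rw [ccw_iff3 (a := q) (b := r) (c := t) (by omega) (by omega)] at h5
                rw [ccw_iff5 (a := r) (b := p) (c := t) (by omega) (by omega)]
                have q0 := four (σ := σ) (a := q) (b := s) (c := p) (d := t) (by omega) (by omega) (by omega)
                have q1 := four (σ := σ) (a := q) (b := s) (c := r) (d := t) (by omega) (by omega) (by omega)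
                have q2 := four (σ := σ) (a := s) (b := r) (c := p) (d := t) (by omega) (by omega) (by omega)
                have q3 := four (σ := σ) (a := q) (b := r) (c := p) (d := t) (by omega) (by omega) (by omega)
                have q4 := four (σ := σ) (a := q) (b := s) (c := r) (d := p) (by omega) (by omega) (by omega)
                grind
              · rcases lt_or_gt_of_ne n_t_r.symm with c27|c27
                · rw [ccw_iff3 (a := s) (b := p) (c := t) (by omega) (by omega)] at h1
                  rw [ccw_iff5 (a := q) (b := s) (c := t) (by omega) (by omega)] at h2
                  rw [ccw_iff3 (a := s) (b := r) (c := t) (by omega) (by omega)] at h3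
                  rw [ccw_iff5 (a := q) (b := p) (c := t) (by omega) (by omega)] at h4
                  rw [ccw_iff3 (a := q) (b := r) (c := t) (by omega) (by omega)] at h5
                  rw [ccw_iff3 (a := p) (b := r) (c := t) (by omega) (by omega)]
                  have q0 := four (σ := σ) (a := q) (b := s) (c := p) (d := t) (by omega) (by omega) (by omega)
                  have q1 := four (σ := σ) (a := q) (b := s) (c := r) (d := t) (by omega) (by omega) (by omega)
                  have q2 := four (σ := σ) (a := s) (b := p) (c := r) (d := t) (by omega) (by omega) (by omega)
                  have q3 := four (σ := σ) (a := q) (b := p) (c := r) (d := t) (by omega) (by omega) (by omega)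
                  have q4 := four (σ := σ) (a := q) (b := s) (c := p) (d := r) (by omega) (by omega) (by omega)
                  grind
                · rw [ccw_iff3 (a := s) (b := p) (c := t) (by omega) (by omega)] at h1
                  rw [ccw_iff5 (a := q) (b := s) (c := t) (by omega) (by omega)] at h2
                  rw [ccw_iff6 (a := s) (b := t) (c := r) (by omega) (by omega)] at h3
                  rw [ccw_iff5 (a := q) (b := p) (c := t) (by omega) (by omega)] at h4
                  rw [ccw_iff6 (a := q) (b := t) (c := r) (by omega) (by omega)] at h5
                  rw [ccw_iff6 (a := p) (b := t) (c := r) (by omega) (by omega)]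
                  have q0 := four (σ := σ) (a := q) (b := s) (c := p) (d := t) (by omega) (by omega) (by omega)
                  have q1 := four (σ := σ) (a := q) (b := s) (c := t) (d := r) (by omega) (by omega) (by omega)
                  have q2 := four (σ := σ) (a := s) (b := p) (c := t) (d := r) (by omega) (by omega) (by omega)
                  have q3 := four (σ := σ) (a := q) (b := p) (c := t) (d := r) (by omega) (by omega) (by omega)
                  have q4 := four (σ := σ) (a := q) (b := s) (c := p) (d := r) (by omega) (by omega) (by omega)
                  grind
        · rcases lt_or_gt_of_ne n_p_q.symm with c28|c28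
          · rcases lt_or_gt_of_ne n_s_r.symm with c29|c29
            · rw [ccw_iff3 (a := s) (b := p) (c := t) (by omega) (by omega)] at h1
              rw [ccw_iff3 (a := s) (b := q) (c := t) (by omega) (by omega)] at h2
              rw [ccw_iff5 (a := r) (b := s) (c := t) (by omega) (by omega)] at h3
              rw [ccw_iff5 (a := q) (b := p) (c := t) (by omega) (by omega)] at h4
              rw [ccw_iff5 (a := r) (b := q) (c := t) (by omega) (by omega)] at h5
              rw [ccw_iff5 (a := r) (b := p) (c := t) (by omega) (by omega)]
              have q0 := four (σ := σ) (a := s) (b := q) (c := p) (d := t) (by omega) (by omega) (by omega)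
              have q1 := four (σ := σ) (a := r) (b := s) (c := q) (d := t) (by omega) (by omega) (by omega)
              have q2 := four (σ := σ) (a := r) (b := s) (c := p) (d := t) (by omega) (by omega) (by omega)
              have q3 := four (σ := σ) (a := r) (b := q) (c := p) (d := t) (by omega) (by omega) (by omega)
              have q4 := four (σ := σ) (a := r) (b := s) (c := q) (d := p) (by omega) (by omega) (by omega)
              grind
            · rcases lt_or_gt_of_ne n_q_r.symm with c30|c30
              · rw [ccw_iff3 (a := s) (b := p) (c := t) (by omega) (by omega)] at h1
                rw [ccw_iff3 (a := s) (b := q) (c := t) (by omega) (by omega)] at h2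
                rw [ccw_iff3 (a := s) (b := r) (c := t) (by omega) (by omega)] at h3
                rw [ccw_iff5 (a := q) (b := p) (c := t) (by omega) (by omega)] at h4
                rw [ccw_iff5 (a := r) (b := q) (c := t) (by omega) (by omega)] at h5
                rw [ccw_iff5 (a := r) (b := p) (c := t) (by omega) (by omega)]
                have q0 := four (σ := σ) (a := s) (b := q) (c := p) (d := t) (by omega) (by omega) (by omega)
                have q1 := four (σ := σ) (a := s) (b := r) (c := q) (d := t) (by omega) (by omega) (by omega)
                have q2 := four (σ := σ) (a := s) (b := r) (c := p) (d := t) (by omega) (by omega) (by omega)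
                have q3 := four (σ := σ) (a := r) (b := q) (c := p) (d := t) (by omega) (by omega) (by omega)
                have q4 := four (σ := σ) (a := s) (b := r) (c := q) (d := p) (by omega) (by omega) (by omega)
                grind
              · rcases lt_or_gt_of_ne n_p_r.symm with c31|c31
                · rw [ccw_iff3 (a := s) (b := p) (c := t) (by omega) (by omega)] at h1
                  rw [ccw_iff3 (a := s) (b := q) (c := t) (by omega) (by omega)] at h2
                  rw [ccw_iff3 (a := s) (b := r) (c := t) (by omega) (by omega)] at h3
                  rw [ccw_iff5 (a := q) (b := p) (c := t) (by omega) (by omega)] at h4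
                  rw [ccw_iff3 (a := q) (b := r) (c := t) (by omega) (by omega)] at h5
                  rw [ccw_iff5 (a := r) (b := p) (c := t) (by omega) (by omega)]
                  have q0 := four (σ := σ) (a := s) (b := q) (c := p) (d := t) (by omega) (by omega) (by omega)
                  have q1 := four (σ := σ) (a := s) (b := q) (c := r) (d := t) (by omega) (by omega) (by omega)
                  have q2 := four (σ := σ) (a := s) (b := r) (c := p) (d := t) (by omega) (by omega) (by omega)
                  have q3 := four (σ := σ) (a := q) (b := r) (c := p) (d := t) (by omega) (by omega) (by omega)
                  have q4 := four (σ := σ) (a := s) (b := q) (c := r) (d := p) (by omega) (by omega) (by omega)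
                  grind
                · rcases lt_or_gt_of_ne n_t_r.symm with c32|c32
                  · rw [ccw_iff3 (a := s) (b := p) (c := t) (by omega) (by omega)] at h1
                    rw [ccw_iff3 (a := s) (b := q) (c := t) (by omega) (by omega)] at h2
                    rw [ccw_iff3 (a := s) (b := r) (c := t) (by omega) (by omega)] at h3
                    rw [ccw_iff5 (a := q) (b := p) (c := t) (by omega) (by omega)] at h4
                    rw [ccw_iff3 (a := q) (b := r) (c := t) (by omega) (by omega)] at h5
                    rw [ccw_iff3 (a := p) (b := r) (c := t) (by omega) (by omega)]
                    have q0 := four (σ := σ) (a := s) (b := q) (c := p) (d := t) (by omega) (by omega) (by omega)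
                    have q1 := four (σ := σ) (a := s) (b := q) (c := r) (d := t) (by omega) (by omega) (by omega)
                    have q2 := four (σ := σ) (a := s) (b := p) (c := r) (d := t) (by omega) (by omega) (by omega)
                    have q3 := four (σ := σ) (a := q) (b := p) (c := r) (d := t) (by omega) (by omega) (by omega)
                    have q4 := four (σ := σ) (a := s) (b := q) (c := p) (d := r) (by omega) (by omega) (by omega)
                    grind
                  · rw [ccw_iff3 (a := s) (b := p) (c := t) (by omega) (by omega)] at h1
                    rw [ccw_iff3 (a := s) (b := q) (c := t) (by omega) (by omega)] at h2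
                    rw [ccw_iff6 (a := s) (b := t) (c := r) (by omega) (by omega)] at h3
                    rw [ccw_iff5 (a := q) (b := p) (c := t) (by omega) (by omega)] at h4
                    rw [ccw_iff6 (a := q) (b := t) (c := r) (by omega) (by omega)] at h5
                    rw [ccw_iff6 (a := p) (b := t) (c := r) (by omega) (by omega)]
                    have q0 := four (σ := σ) (a := s) (b := q) (c := p) (d := t) (by omega) (by omega) (by omega)
                    have q1 := four (σ := σ) (a := s) (b := q) (c := t) (d := r) (by omega) (by omega) (by omega)
                    have q2 := four (σ := σ) (a := s) (b := p) (c := t) (d := r) (by omega) (by omega) (by omega)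
                    have q3 := four (σ := σ) (a := q) (b := p) (c := t) (d := r) (by omega) (by omega) (by omega)
                    have q4 := four (σ := σ) (a := s) (b := q) (c := p) (d := r) (by omega) (by omega) (by omega)
                    grind
          · rcases lt_or_gt_of_ne n_t_q.symm with c33|c33
            · rcases lt_or_gt_of_ne n_s_r.symm with c34|c34
              · rw [ccw_iff3 (a := s) (b := p) (c := t) (by omega) (by omega)] at h1
                rw [ccw_iff3 (a := s) (b := q) (c := t) (by omega) (by omega)] at h2
                rw [ccw_iff5 (a := r) (b := s) (c := t) (by omega) (by omega)] at h3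
                rw [ccw_iff3 (a := p) (b := q) (c := t) (by omega) (by omega)] at h4
                rw [ccw_iff5 (a := r) (b := q) (c := t) (by omega) (by omega)] at h5
                rw [ccw_iff5 (a := r) (b := p) (c := t) (by omega) (by omega)]
                have q0 := four (σ := σ) (a := s) (b := p) (c := q) (d := t) (by omega) (by omega) (by omega)
                have q1 := four (σ := σ) (a := r) (b := s) (c := q) (d := t) (by omega) (by omega) (by omega)
                have q2 := four (σ := σ) (a := r) (b := s) (c := p) (d := t) (by omega) (by omega) (by omega)
                have q3 := four (σ := σ) (a := r) (b := p) (c := q) (d := t) (by omega) (by omega) (by omega)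
                have q4 := four (σ := σ) (a := r) (b := s) (c := p) (d := q) (by omega) (by omega) (by omega)
                grind
              · rcases lt_or_gt_of_ne n_p_r.symm with c35|c35
                · rw [ccw_iff3 (a := s) (b := p) (c := t) (by omega) (by omega)] at h1
                  rw [ccw_iff3 (a := s) (b := q) (c := t) (by omega) (by omega)] at h2
                  rw [ccw_iff3 (a := s) (b := r) (c := t) (by omega) (by omega)] at h3
                  rw [ccw_iff3 (a := p) (b := q) (c := t) (by omega) (by omega)] at h4
                  rw [ccw_iff5 (a := r) (b := q) (c := t) (by omega) (by omega)] at h5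
                  rw [ccw_iff5 (a := r) (b := p) (c := t) (by omega) (by omega)]
                  have q0 := four (σ := σ) (a := s) (b := p) (c := q) (d := t) (by omega) (by omega) (by omega)
                  have q1 := four (σ := σ) (a := s) (b := r) (c := q) (d := t) (by omega) (by omega) (by omega)
                  have q2 := four (σ := σ) (a := s) (b := r) (c := p) (d := t) (by omega) (by omega) (by omega)
                  have q3 := four (σ := σ) (a := r) (b := p) (c := q) (d := t) (by omega) (by omega) (by omega)
                  have q4 := four (σ := σ) (a := s) (b := r) (c := p) (d := q) (by omega) (by omega) (by omega)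
                  grind
                · rcases lt_or_gt_of_ne n_q_r.symm with c36|c36
                  · rw [ccw_iff3 (a := s) (b := p) (c := t) (by omega) (by omega)] at h1
                    rw [ccw_iff3 (a := s) (b := q) (c := t) (by omega) (by omega)] at h2
                    rw [ccw_iff3 (a := s) (b := r) (c := t) (by omega) (by omega)] at h3
                    rw [ccw_iff3 (a := p) (b := q) (c := t) (by omega) (by omega)] at h4
                    rw [ccw_iff5 (a := r) (b := q) (c := t) (by omega) (by omega)] at h5
                    rw [ccw_iff3 (a := p) (b := r) (c := t) (by omega) (by omega)]
                    have q0 := four (σ := σ) (a := s) (b := p) (c := q) (d := t) (by omega) (by omega) (by omega)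
                    have q1 := four (σ := σ) (a := s) (b := r) (c := q) (d := t) (by omega) (by omega) (by omega)
                    have q2 := four (σ := σ) (a := s) (b := p) (c := r) (d := t) (by omega) (by omega) (by omega)
                    have q3 := four (σ := σ) (a := p) (b := r) (c := q) (d := t) (by omega) (by omega) (by omega)
                    have q4 := four (σ := σ) (a := s) (b := p) (c := r) (d := q) (by omega) (by omega) (by omega)
                    grind
                  · rcases lt_or_gt_of_ne n_t_r.symm with c37|c37
                    · rw [ccw_iff3 (a := s) (b := p) (c := t) (by omega) (by omega)] at h1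
                      rw [ccw_iff3 (a := s) (b := q) (c := t) (by omega) (by omega)] at h2
                      rw [ccw_iff3 (a := s) (b := r) (c := t) (by omega) (by omega)] at h3
                      rw [ccw_iff3 (a := p) (b := q) (c := t) (by omega) (by omega)] at h4
                      rw [ccw_iff3 (a := q) (b := r) (c := t) (by omega) (by omega)] at h5
                      rw [ccw_iff3 (a := p) (b := r) (c := t) (by omega) (by omega)]
                      have q0 := four (σ := σ) (a := s) (b := p) (c := q) (d := t) (by omega) (by omega) (by omega)
                      have q1 := four (σ := σ) (a := s) (b := q) (c := r) (d := t) (by omega) (by omega) (by omega)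
                      have q2 := four (σ := σ) (a := s) (b := p) (c := r) (d := t) (by omega) (by omega) (by omega)
                      have q3 := four (σ := σ) (a := p) (b := q) (c := r) (d := t) (by omega) (by omega) (by omega)
                      have q4 := four (σ := σ) (a := s) (b := p) (c := q) (d := r) (by omega) (by omega) (by omega)
                      grind
                    · rw [ccw_iff3 (a := s) (b := p) (c := t) (by omega) (by omega)] at h1
                      rw [ccw_iff3 (a := s) (b := q) (c := t) (by omega) (by omega)] at h2
                      rw [ccw_iff6 (a := s) (b := t) (c := r) (by omega) (by omega)] at h3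
                      rw [ccw_iff3 (a := p) (b := q) (c := t) (by omega) (by omega)] at h4
                      rw [ccw_iff6 (a := q) (b := t) (c := r) (by omega) (by omega)] at h5
                      rw [ccw_iff6 (a := p) (b := t) (c := r) (by omega) (by omega)]
                      have q0 := four (σ := σ) (a := s) (b := p) (c := q) (d := t) (by omega) (by omega) (by omega)
                      have q1 := four (σ := σ) (a := s) (b := q) (c := t) (d := r) (by omega) (by omega) (by omega)
                      have q2 := four (σ := σ) (a := s) (b := p) (c := t) (d := r) (by omega) (by omega) (by omega)
                      have q3 := four (σ := σ) (a := p) (b := q) (c := t) (d := r) (by omega) (by omega) (by omega)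
                      have q4 := four (σ := σ) (a := s) (b := p) (c := q) (d := r) (by omega) (by omega) (by omega)
                      grind
            · rcases lt_or_gt_of_ne n_s_r.symm with c38|c38
              · rw [ccw_iff3 (a := s) (b := p) (c := t) (by omega) (by omega)] at h1
                rw [ccw_iff6 (a := s) (b := t) (c := q) (by omega) (by omega)] at h2
                rw [ccw_iff5 (a := r) (b := s) (c := t) (by omega) (by omega)] at h3
                rw [ccw_iff6 (a := p) (b := t) (c := q) (by omega) (by omega)] at h4
                rw [ccw_iff2 (a := r) (b := t) (c := q) (by omega) (by omega)] at h5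
                rw [ccw_iff5 (a := r) (b := p) (c := t) (by omega) (by omega)]
                have q0 := four (σ := σ) (a := s) (b := p) (c := t) (d := q) (by omega) (by omega) (by omega)
                have q1 := four (σ := σ) (a := r) (b := s) (c := t) (d := q) (by omega) (by omega) (by omega)
                have q2 := four (σ := σ) (a := r) (b := s) (c := p) (d := t) (by omega) (by omega) (by omega)
                have q3 := four (σ := σ) (a := r) (b := p) (c := t) (d := q) (by omega) (by omega) (by omega)
                have q4 := four (σ := σ) (a := r) (b := s) (c := p) (d := q) (by omega) (by omega) (by omega)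
                grind
              · rcases lt_or_gt_of_ne n_p_r.symm with c39|c39
                · rw [ccw_iff3 (a := s) (b := p) (c := t) (by omega) (by omega)] at h1
                  rw [ccw_iff6 (a := s) (b := t) (c := q) (by omega) (by omega)] at h2
                  rw [ccw_iff3 (a := s) (b := r) (c := t) (by omega) (by omega)] at h3
                  rw [ccw_iff6 (a := p) (b := t) (c := q) (by omega) (by omega)] at h4
                  rw [ccw_iff2 (a := r) (b := t) (c := q) (by omega) (by omega)] at h5
                  rw [ccw_iff5 (a := r) (b := p) (c := t) (by omega) (by omega)]
                  have q0 := four (σ := σ) (a := s) (b := p) (c := t) (d := q) (by omega) (by omega) (by omega)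
                  have q1 := four (σ := σ) (a := s) (b := r) (c := t) (d := q) (by omega) (by omega) (by omega)
                  have q2 := four (σ := σ) (a := s) (b := r) (c := p) (d := t) (by omega) (by omega) (by omega)
                  have q3 := four (σ := σ) (a := r) (b := p) (c := t) (d := q) (by omega) (by omega) (by omega)
                  have q4 := four (σ := σ) (a := s) (b := r) (c := p) (d := q) (by omega) (by omega) (by omega)
                  grind
                · rcases lt_or_gt_of_ne n_t_r.symm with c40|c40
                  · rw [ccw_iff3 (a := s) (b := p) (c := t) (by omega) (by omega)] at h1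
                    rw [ccw_iff6 (a := s) (b := t) (c := q) (by omega) (by omega)] at h2
                    rw [ccw_iff3 (a := s) (b := r) (c := t) (by omega) (by omega)] at h3
                    rw [ccw_iff6 (a := p) (b := t) (c := q) (by omega) (by omega)] at h4
                    rw [ccw_iff2 (a := r) (b := t) (c := q) (by omega) (by omega)] at h5
                    rw [ccw_iff3 (a := p) (b := r) (c := t) (by omega) (by omega)]
                    have q0 := four (σ := σ) (a := s) (b := p) (c := t) (d := q) (by omega) (by omega) (by omega)
                    have q1 := four (σ := σ) (a := s) (b := r) (c := t) (d := q) (by omega) (by omega) (by omega)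
                    have q2 := four (σ := σ) (a := s) (b := p) (c := r) (d := t) (by omega) (by omega) (by omega)
                    have q3 := four (σ := σ) (a := p) (b := r) (c := t) (d := q) (by omega) (by omega) (by omega)
                    have q4 := four (σ := σ) (a := s) (b := p) (c := r) (d := q) (by omega) (by omega) (by omega)
                    grind
                  · rcases lt_or_gt_of_ne n_q_r.symm with c41|c41
                    · rw [ccw_iff3 (a := s) (b := p) (c := t) (by omega) (by omega)] at h1
                      rw [ccw_iff6 (a := s) (b := t) (c := q) (by omega) (by omega)] at h2
                      rw [ccw_iff6 (a := s) (b := t) (c := r) (by omega) (by omega)] at h3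
                      rw [ccw_iff6 (a := p) (b := t) (c := q) (by omega) (by omega)] at h4
                      rw [ccw_iff4 (a := t) (b := r) (c := q) (by omega) (by omega)] at h5
                      rw [ccw_iff6 (a := p) (b := t) (c := r) (by omega) (by omega)]
                      have q0 := four (σ := σ) (a := s) (b := p) (c := t) (d := q) (by omega) (by omega) (by omega)
                      have q1 := four (σ := σ) (a := s) (b := t) (c := r) (d := q) (by omega) (by omega) (by omega)
                      have q2 := four (σ := σ) (a := s) (b := p) (c := t) (d := r) (by omega) (by omega) (by omega)
                      have q3 := four (σ := σ) (a := p) (b := t) (c := r) (d := q) (by omega) (by omega) (by omega)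
                      have q4 := four (σ := σ) (a := s) (b := p) (c := r) (d := q) (by omega) (by omega) (by omega)
                      grind
                    · rw [ccw_iff3 (a := s) (b := p) (c := t) (by omega) (by omega)] at h1
                      rw [ccw_iff6 (a := s) (b := t) (c := q) (by omega) (by omega)] at h2
                      rw [ccw_iff6 (a := s) (b := t) (c := r) (by omega) (by omega)] at h3
                      rw [ccw_iff6 (a := p) (b := t) (c := q) (by omega) (by omega)] at h4
                      rw [ccw_iff1 (a := t) (b := q) (c := r) (by omega) (by omega)] at h5
                      rw [ccw_iff6 (a := p) (b := t) (c := r) (by omega) (by omega)]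
                      have q0 := four (σ := σ) (a := s) (b := p) (c := t) (d := q) (by omega) (by omega) (by omega)
                      have q1 := four (σ := σ) (a := s) (b := t) (c := q) (d := r) (by omega) (by omega) (by omega)
                      have q2 := four (σ := σ) (a := s) (b := p) (c := t) (d := r) (by omega) (by omega) (by omega)
                      have q3 := four (σ := σ) (a := p) (b := t) (c := q) (d := r) (by omega) (by omega) (by omega)
                      have q4 := four (σ := σ) (a := s) (b := p) (c := q) (d := r) (by omega) (by omega) (by omega)
                      grind
      · rcases lt_or_gt_of_ne n_s_q.symm with c42|c42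
        · rcases lt_or_gt_of_ne n_q_r.symm with c43|c43
          · rw [ccw_iff6 (a := s) (b := t) (c := p) (by omega) (by omega)] at h1
            rw [ccw_iff5 (a := q) (b := s) (c := t) (by omega) (by omega)] at h2
            rw [ccw_iff5 (a := r) (b := s) (c := t) (by omega) (by omega)] at h3
            rw [ccw_iff2 (a := q) (b := t) (c := p) (by omega) (by omega)] at h4
            rw [ccw_iff5 (a := r) (b := q) (c := t) (by omega) (by omega)] at h5
            rw [ccw_iff2 (a := r) (b := t) (c := p) (by omega) (by omega)]
            have q0 := four (σ := σ) (a := q) (b := s) (c := t) (d := p) (by omega) (by omega) (by omega)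
            have q1 := four (σ := σ) (a := r) (b := q) (c := s) (d := t) (by omega) (by omega) (by omega)
            have q2 := four (σ := σ) (a := r) (b := s) (c := t) (d := p) (by omega) (by omega) (by omega)
            have q3 := four (σ := σ) (a := r) (b := q) (c := t) (d := p) (by omega) (by omega) (by omega)
            have q4 := four (σ := σ) (a := r) (b := q) (c := s) (d := p) (by omega) (by omega) (by omega)
            grind
          · rcases lt_or_gt_of_ne n_s_r.symm with c44|c44
            · rw [ccw_iff6 (a := s) (b := t) (c := p) (by omega) (by omega)] at h1
              rw [ccw_iff5 (a := q) (b := s) (c := t) (by omega) (by omega)] at h2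
              rw [ccw_iff5 (a := r) (b := s) (c := t) (by omega) (by omega)] at h3
              rw [ccw_iff2 (a := q) (b := t) (c := p) (by omega) (by omega)] at h4
              rw [ccw_iff3 (a := q) (b := r) (c := t) (by omega) (by omega)] at h5
              rw [ccw_iff2 (a := r) (b := t) (c := p) (by omega) (by omega)]
              have q0 := four (σ := σ) (a := q) (b := s) (c := t) (d := p) (by omega) (by omega) (by omega)
              have q1 := four (σ := σ) (a := q) (b := r) (c := s) (d := t) (by omega) (by omega) (by omega)
              have q2 := four (σ := σ) (a := r) (b := s) (c := t) (d := p) (by omega) (by omega) (by omega)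
              have q3 := four (σ := σ) (a := q) (b := r) (c := t) (d := p) (by omega) (by omega) (by omega)
              have q4 := four (σ := σ) (a := q) (b := r) (c := s) (d := p) (by omega) (by omega) (by omega)
              grind
            · rcases lt_or_gt_of_ne n_t_r.symm with c45|c45
              · rw [ccw_iff6 (a := s) (b := t) (c := p) (by omega) (by omega)] at h1
                rw [ccw_iff5 (a := q) (b := s) (c := t) (by omega) (by omega)] at h2
                rw [ccw_iff3 (a := s) (b := r) (c := t) (by omega) (by omega)] at h3
                rw [ccw_iff2 (a := q) (b := t) (c := p) (by omega) (by omega)] at h4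
                rw [ccw_iff3 (a := q) (b := r) (c := t) (by omega) (by omega)] at h5
                rw [ccw_iff2 (a := r) (b := t) (c := p) (by omega) (by omega)]
                have q0 := four (σ := σ) (a := q) (b := s) (c := t) (d := p) (by omega) (by omega) (by omega)
                have q1 := four (σ := σ) (a := q) (b := s) (c := r) (d := t) (by omega) (by omega) (by omega)
                have q2 := four (σ := σ) (a := s) (b := r) (c := t) (d := p) (by omega) (by omega) (by omega)
                have q3 := four (σ := σ) (a := q) (b := r) (c := t) (d := p) (by omega) (by omega) (by omega)
                have q4 := four (σ := σ) (a := q) (b := s) (c := r) (d := p) (by omega) (by omega) (by omega)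
                grind
              · rcases lt_or_gt_of_ne n_p_r.symm with c46|c46
                · rw [ccw_iff6 (a := s) (b := t) (c := p) (by omega) (by omega)] at h1
                  rw [ccw_iff5 (a := q) (b := s) (c := t) (by omega) (by omega)] at h2
                  rw [ccw_iff6 (a := s) (b := t) (c := r) (by omega) (by omega)] at h3
                  rw [ccw_iff2 (a := q) (b := t) (c := p) (by omega) (by omega)] at h4
                  rw [ccw_iff6 (a := q) (b := t) (c := r) (by omega) (by omega)] at h5
                  rw [ccw_iff4 (a := t) (b := r) (c := p) (by omega) (by omega)]
                  have q0 := four (σ := σ) (a := q) (b := s) (c := t) (d := p) (by omega) (by omega) (by omega)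
                  have q1 := four (σ := σ) (a := q) (b := s) (c := t) (d := r) (by omega) (by omega) (by omega)
                  have q2 := four (σ := σ) (a := s) (b := t) (c := r) (d := p) (by omega) (by omega) (by omega)
                  have q3 := four (σ := σ) (a := q) (b := t) (c := r) (d := p) (by omega) (by omega) (by omega)
                  have q4 := four (σ := σ) (a := q) (b := s) (c := r) (d := p) (by omega) (by omega) (by omega)
                  grind
                · rw [ccw_iff6 (a := s) (b := t) (c := p) (by omega) (by omega)] at h1
                  rw [ccw_iff5 (a := q) (b := s) (c := t) (by omega) (by omega)] at h2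
                  rw [ccw_iff6 (a := s) (b := t) (c := r) (by omega) (by omega)] at h3
                  rw [ccw_iff2 (a := q) (b := t) (c := p) (by omega) (by omega)] at h4
                  rw [ccw_iff6 (a := q) (b := t) (c := r) (by omega) (by omega)] at h5
                  rw [ccw_iff1 (a := t) (b := p) (c := r) (by omega) (by omega)]
                  have q0 := four (σ := σ) (a := q) (b := s) (c := t) (d := p) (by omega) (by omega) (by omega)
                  have q1 := four (σ := σ) (a := q) (b := s) (c := t) (d := r) (by omega) (by omega) (by omega)
                  have q2 := four (σ := σ) (a := s) (b := t) (c := p) (d := r) (by omega) (by omega) (by omega)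
                  have q3 := four (σ := σ) (a := q) (b := t) (c := p) (d := r) (by omega) (by omega) (by omega)
                  have q4 := four (σ := σ) (a := q) (b := s) (c := p) (d := r) (by omega) (by omega) (by omega)
                  grind
        · rcases lt_or_gt_of_ne n_t_q.symm with c47|c47
          · rcases lt_or_gt_of_ne n_s_r.symm with c48|c48
            · rw [ccw_iff6 (a := s) (b := t) (c := p) (by omega) (by omega)] at h1
              rw [ccw_iff3 (a := s) (b := q) (c := t) (by omega) (by omega)] at h2
              rw [ccw_iff5 (a := r) (b := s) (c := t) (by omega) (by omega)] at h3
              rw [ccw_iff2 (a := q) (b := t) (c := p) (by omega) (by omega)] at h4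
              rw [ccw_iff5 (a := r) (b := q) (c := t) (by omega) (by omega)] at h5
              rw [ccw_iff2 (a := r) (b := t) (c := p) (by omega) (by omega)]
              have q0 := four (σ := σ) (a := s) (b := q) (c := t) (d := p) (by omega) (by omega) (by omega)
              have q1 := four (σ := σ) (a := r) (b := s) (c := q) (d := t) (by omega) (by omega) (by omega)
              have q2 := four (σ := σ) (a := r) (b := s) (c := t) (d := p) (by omega) (by omega) (by omega)
              have q3 := four (σ := σ) (a := r) (b := q) (c := t) (d := p) (by omega) (by omega) (by omega)
              have q4 := four (σ := σ) (a := r) (b := s) (c := q) (d := p) (by omega) (by omega) (by omega)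
              grind
            · rcases lt_or_gt_of_ne n_q_r.symm with c49|c49
              · rw [ccw_iff6 (a := s) (b := t) (c := p) (by omega) (by omega)] at h1
                rw [ccw_iff3 (a := s) (b := q) (c := t) (by omega) (by omega)] at h2
                rw [ccw_iff3 (a := s) (b := r) (c := t) (by omega) (by omega)] at h3
                rw [ccw_iff2 (a := q) (b := t) (c := p) (by omega) (by omega)] at h4
                rw [ccw_iff5 (a := r) (b := q) (c := t) (by omega) (by omega)] at h5
                rw [ccw_iff2 (a := r) (b := t) (c := p) (by omega) (by omega)]
                have q0 := four (σ := σ) (a := s) (b := q) (c := t) (d := p) (by omega) (by omega) (by omega)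
                have q1 := four (σ := σ) (a := s) (b := r) (c := q) (d := t) (by omega) (by omega) (by omega)
                have q2 := four (σ := σ) (a := s) (b := r) (c := t) (d := p) (by omega) (by omega) (by omega)
                have q3 := four (σ := σ) (a := r) (b := q) (c := t) (d := p) (by omega) (by omega) (by omega)
                have q4 := four (σ := σ) (a := s) (b := r) (c := q) (d := p) (by omega) (by omega) (by omega)
                grind
              · rcases lt_or_gt_of_ne n_t_r.symm with c50|c50
                · rw [ccw_iff6 (a := s) (b := t) (c := p) (by omega) (by omega)] at h1
                  rw [ccw_iff3 (a := s) (b := q) (c := t) (by omega) (by omega)] at h2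
                  rw [ccw_iff3 (a := s) (b := r) (c := t) (by omega) (by omega)] at h3
                  rw [ccw_iff2 (a := q) (b := t) (c := p) (by omega) (by omega)] at h4
                  rw [ccw_iff3 (a := q) (b := r) (c := t) (by omega) (by omega)] at h5
                  rw [ccw_iff2 (a := r) (b := t) (c := p) (by omega) (by omega)]
                  have q0 := four (σ := σ) (a := s) (b := q) (c := t) (d := p) (by omega) (by omega) (by omega)
                  have q1 := four (σ := σ) (a := s) (b := q) (c := r) (d := t) (by omega) (by omega) (by omega)
                  have q2 := four (σ := σ) (a := s) (b := r) (c := t) (d := p) (by omega) (by omega) (by omega)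
                  have q3 := four (σ := σ) (a := q) (b := r) (c := t) (d := p) (by omega) (by omega) (by omega)
                  have q4 := four (σ := σ) (a := s) (b := q) (c := r) (d := p) (by omega) (by omega) (by omega)
                  grind
                · rcases lt_or_gt_of_ne n_p_r.symm with c51|c51
                  · rw [ccw_iff6 (a := s) (b := t) (c := p) (by omega) (by omega)] at h1
                    rw [ccw_iff3 (a := s) (b := q) (c := t) (by omega) (by omega)] at h2
                    rw [ccw_iff6 (a := s) (b := t) (c := r) (by omega) (by omega)] at h3
                    rw [ccw_iff2 (a := q) (b := t) (c := p) (by omega) (by omega)] at h4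
                    rw [ccw_iff6 (a := q) (b := t) (c := r) (by omega) (by omega)] at h5
                    rw [ccw_iff4 (a := t) (b := r) (c := p) (by omega) (by omega)]
                    have q0 := four (σ := σ) (a := s) (b := q) (c := t) (d := p) (by omega) (by omega) (by omega)
                    have q1 := four (σ := σ) (a := s) (b := q) (c := t) (d := r) (by omega) (by omega) (by omega)
                    have q2 := four (σ := σ) (a := s) (b := t) (c := r) (d := p) (by omega) (by omega) (by omega)
                    have q3 := four (σ := σ) (a := q) (b := t) (c := r) (d := p) (by omega) (by omega) (by omega)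
                    have q4 := four (σ := σ) (a := s) (b := q) (c := r) (d := p) (by omega) (by omega) (by omega)
                    grind
                  · rw [ccw_iff6 (a := s) (b := t) (c := p) (by omega) (by omega)] at h1
                    rw [ccw_iff3 (a := s) (b := q) (c := t) (by omega) (by omega)] at h2
                    rw [ccw_iff6 (a := s) (b := t) (c := r) (by omega) (by omega)] at h3
                    rw [ccw_iff2 (a := q) (b := t) (c := p) (by omega) (by omega)] at h4
                    rw [ccw_iff6 (a := q) (b := t) (c := r) (by omega) (by omega)] at h5
                    rw [ccw_iff1 (a := t) (b := p) (c := r) (by omega) (by omega)]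
                    have q0 := four (σ := σ) (a := s) (b := q) (c := t) (d := p) (by omega) (by omega) (by omega)
                    have q1 := four (σ := σ) (a := s) (b := q) (c := t) (d := r) (by omega) (by omega) (by omega)
                    have q2 := four (σ := σ) (a := s) (b := t) (c := p) (d := r) (by omega) (by omega) (by omega)
                    have q3 := four (σ := σ) (a := q) (b := t) (c := p) (d := r) (by omega) (by omega) (by omega)
                    have q4 := four (σ := σ) (a := s) (b := q) (c := p) (d := r) (by omega) (by omega) (by omega)
                    grind
          · rcases lt_or_gt_of_ne n_p_q.symm with c52|c52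
            · rcases lt_or_gt_of_ne n_s_r.symm with c53|c53
              · rw [ccw_iff6 (a := s) (b := t) (c := p) (by omega) (by omega)] at h1
                rw [ccw_iff6 (a := s) (b := t) (c := q) (by omega) (by omega)] at h2
                rw [ccw_iff5 (a := r) (b := s) (c := t) (by omega) (by omega)] at h3
                rw [ccw_iff4 (a := t) (b := q) (c := p) (by omega) (by omega)] at h4
                rw [ccw_iff2 (a := r) (b := t) (c := q) (by omega) (by omega)] at h5
                rw [ccw_iff2 (a := r) (b := t) (c := p) (by omega) (by omega)]
                have q0 := four (σ := σ) (a := s) (b := t) (c := q) (d := p) (by omega) (by omega) (by omega)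
                have q1 := four (σ := σ) (a := r) (b := s) (c := t) (d := q) (by omega) (by omega) (by omega)
                have q2 := four (σ := σ) (a := r) (b := s) (c := t) (d := p) (by omega) (by omega) (by omega)
                have q3 := four (σ := σ) (a := r) (b := t) (c := q) (d := p) (by omega) (by omega) (by omega)
                have q4 := four (σ := σ) (a := r) (b := s) (c := q) (d := p) (by omega) (by omega) (by omega)
                grind
              · rcases lt_or_gt_of_ne n_t_r.symm with c54|c54
                · rw [ccw_iff6 (a := s) (b := t) (c := p) (by omega) (by omega)] at h1
                  rw [ccw_iff6 (a := s) (b := t) (c := q) (by omega) (by omega)] at h2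
                  rw [ccw_iff3 (a := s) (b := r) (c := t) (by omega) (by omega)] at h3
                  rw [ccw_iff4 (a := t) (b := q) (c := p) (by omega) (by omega)] at h4
                  rw [ccw_iff2 (a := r) (b := t) (c := q) (by omega) (by omega)] at h5
                  rw [ccw_iff2 (a := r) (b := t) (c := p) (by omega) (by omega)]
                  have q0 := four (σ := σ) (a := s) (b := t) (c := q) (d := p) (by omega) (by omega) (by omega)
                  have q1 := four (σ := σ) (a := s) (b := r) (c := t) (d := q) (by omega) (by omega) (by omega)
                  have q2 := four (σ := σ) (a := s) (b := r) (c := t) (d := p) (by omega) (by omega) (by omega)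
                  have q3 := four (σ := σ) (a := r) (b := t) (c := q) (d := p) (by omega) (by omega) (by omega)
                  have q4 := four (σ := σ) (a := s) (b := r) (c := q) (d := p) (by omega) (by omega) (by omega)
                  grind
                · rcases lt_or_gt_of_ne n_q_r.symm with c55|c55
                  · rw [ccw_iff6 (a := s) (b := t) (c := p) (by omega) (by omega)] at h1
                    rw [ccw_iff6 (a := s) (b := t) (c := q) (by omega) (by omega)] at h2
                    rw [ccw_iff6 (a := s) (b := t) (c := r) (by omega) (by omega)] at h3
                    rw [ccw_iff4 (a := t) (b := q) (c := p) (by omega) (by omega)] at h4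
                    rw [ccw_iff4 (a := t) (b := r) (c := q) (by omega) (by omega)] at h5
                    rw [ccw_iff4 (a := t) (b := r) (c := p) (by omega) (by omega)]
                    have q0 := four (σ := σ) (a := s) (b := t) (c := q) (d := p) (by omega) (by omega) (by omega)
                    have q1 := four (σ := σ) (a := s) (b := t) (c := r) (d := q) (by omega) (by omega) (by omega)
                    have q2 := four (σ := σ) (a := s) (b := t) (c := r) (d := p) (by omega) (by omega) (by omega)
                    have q3 := four (σ := σ) (a := t) (b := r) (c := q) (d := p) (by omega) (by omega) (by omega)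
                    have q4 := four (σ := σ) (a := s) (b := r) (c := q) (d := p) (by omega) (by omega) (by omega)
                    grind
                  · rcases lt_or_gt_of_ne n_p_r.symm with c56|c56
                    · rw [ccw_iff6 (a := s) (b := t) (c := p) (by omega) (by omega)] at h1
                      rw [ccw_iff6 (a := s) (b := t) (c := q) (by omega) (by omega)] at h2
                      rw [ccw_iff6 (a := s) (b := t) (c := r) (by omega) (by omega)] at h3
                      rw [ccw_iff4 (a := t) (b := q) (c := p) (by omega) (by omega)] at h4
                      rw [ccw_iff1 (a := t) (b := q) (c := r) (by omega) (by omega)] at h5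
                      rw [ccw_iff4 (a := t) (b := r) (c := p) (by omega) (by omega)]
                      have q0 := four (σ := σ) (a := s) (b := t) (c := q) (d := p) (by omega) (by omega) (by omega)
                      have q1 := four (σ := σ) (a := s) (b := t) (c := q) (d := r) (by omega) (by omega) (by omega)
                      have q2 := four (σ := σ) (a := s) (b := t) (c := r) (d := p) (by omega) (by omega) (by omega)
                      have q3 := four (σ := σ) (a := t) (b := q) (c := r) (d := p) (by omega) (by omega) (by omega)
                      have q4 := four (σ := σ) (a := s) (b := q) (c := r) (d := p) (by omega) (by omega) (by omega)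
                      grind
                    · rw [ccw_iff6 (a := s) (b := t) (c := p) (by omega) (by omega)] at h1
                      rw [ccw_iff6 (a := s) (b := t) (c := q) (by omega) (by omega)] at h2
                      rw [ccw_iff6 (a := s) (b := t) (c := r) (by omega) (by omega)] at h3
                      rw [ccw_iff4 (a := t) (b := q) (c := p) (by omega) (by omega)] at h4
                      rw [ccw_iff1 (a := t) (b := q) (c := r) (by omega) (by omega)] at h5
                      rw [ccw_iff1 (a := t) (b := p) (c := r) (by omega) (by omega)]
                      have q0 := four (σ := σ) (a := s) (b := t) (c := q) (d := p) (by omega) (by omega) (by omega)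
                      have q1 := four (σ := σ) (a := s) (b := t) (c := q) (d := r) (by omega) (by omega) (by omega)
                      have q2 := four (σ := σ) (a := s) (b := t) (c := p) (d := r) (by omega) (by omega) (by omega)
                      have q3 := four (σ := σ) (a := t) (b := q) (c := p) (d := r) (by omega) (by omega) (by omega)
                      have q4 := four (σ := σ) (a := s) (b := q) (c := p) (d := r) (by omega) (by omega) (by omega)
                      grind
            · rcases lt_or_gt_of_ne n_s_r.symm with c57|c57
              · rw [ccw_iff6 (a := s) (b := t) (c := p) (by omega) (by omega)] at h1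
                rw [ccw_iff6 (a := s) (b := t) (c := q) (by omega) (by omega)] at h2
                rw [ccw_iff5 (a := r) (b := s) (c := t) (by omega) (by omega)] at h3
                rw [ccw_iff1 (a := t) (b := p) (c := q) (by omega) (by omega)] at h4
                rw [ccw_iff2 (a := r) (b := t) (c := q) (by omega) (by omega)] at h5
                rw [ccw_iff2 (a := r) (b := t) (c := p) (by omega) (by omega)]
                have q0 := four (σ := σ) (a := s) (b := t) (c := p) (d := q) (by omega) (by omega) (by omega)
                have q1 := four (σ := σ) (a := r) (b := s) (c := t) (d := q) (by omega) (by omega) (by omega)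
                have q2 := four (σ := σ) (a := r) (b := s) (c := t) (d := p) (by omega) (by omega) (by omega)
                have q3 := four (σ := σ) (a := r) (b := t) (c := p) (d := q) (by omega) (by omega) (by omega)
                have q4 := four (σ := σ) (a := r) (b := s) (c := p) (d := q) (by omega) (by omega) (by omega)
                grind
              · rcases lt_or_gt_of_ne n_t_r.symm with c58|c58
                · rw [ccw_iff6 (a := s) (b := t) (c := p) (by omega) (by omega)] at h1
                  rw [ccw_iff6 (a := s) (b := t) (c := q) (by omega) (by omega)] at h2
                  rw [ccw_iff3 (a := s) (b := r) (c := t) (by omega) (by omega)] at h3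
                  rw [ccw_iff1 (a := t) (b := p) (c := q) (by omega) (by omega)] at h4
                  rw [ccw_iff2 (a := r) (b := t) (c := q) (by omega) (by omega)] at h5
                  rw [ccw_iff2 (a := r) (b := t) (c := p) (by omega) (by omega)]
                  have q0 := four (σ := σ) (a := s) (b := t) (c := p) (d := q) (by omega) (by omega) (by omega)
                  have q1 := four (σ := σ) (a := s) (b := r) (c := t) (d := q) (by omega) (by omega) (by omega)
                  have q2 := four (σ := σ) (a := s) (b := r) (c := t) (d := p) (by omega) (by omega) (by omega)
                  have q3 := four (σ := σ) (a := r) (b := t) (c := p) (d := q) (by omega) (by omega) (by omega)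
                  have q4 := four (σ := σ) (a := s) (b := r) (c := p) (d := q) (by omega) (by omega) (by omega)
                  grind
                · rcases lt_or_gt_of_ne n_p_r.symm with c59|c59
                  · rw [ccw_iff6 (a := s) (b := t) (c := p) (by omega) (by omega)] at h1
                    rw [ccw_iff6 (a := s) (b := t) (c := q) (by omega) (by omega)] at h2
                    rw [ccw_iff6 (a := s) (b := t) (c := r) (by omega) (by omega)] at h3
                    rw [ccw_iff1 (a := t) (b := p) (c := q) (by omega) (by omega)] at h4
                    rw [ccw_iff4 (a := t) (b := r) (c := q) (by omega) (by omega)] at h5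
                    rw [ccw_iff4 (a := t) (b := r) (c := p) (by omega) (by omega)]
                    have q0 := four (σ := σ) (a := s) (b := t) (c := p) (d := q) (by omega) (by omega) (by omega)
                    have q1 := four (σ := σ) (a := s) (b := t) (c := r) (d := q) (by omega) (by omega) (by omega)
                    have q2 := four (σ := σ) (a := s) (b := t) (c := r) (d := p) (by omega) (by omega) (by omega)
                    have q3 := four (σ := σ) (a := t) (b := r) (c := p) (d := q) (by omega) (by omega) (by omega)
                    have q4 := four (σ := σ) (a := s) (b := r) (c := p) (d := q) (by omega) (by omega) (by omega)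
                    grind
                  · rcases lt_or_gt_of_ne n_q_r.symm with c60|c60
                    · rw [ccw_iff6 (a := s) (b := t) (c := p) (by omega) (by omega)] at h1
                      rw [ccw_iff6 (a := s) (b := t) (c := q) (by omega) (by omega)] at h2
                      rw [ccw_iff6 (a := s) (b := t) (c := r) (by omega) (by omega)] at h3
                      rw [ccw_iff1 (a := t) (b := p) (c := q) (by omega) (by omega)] at h4
                      rw [ccw_iff4 (a := t) (b := r) (c := q) (by omega) (by omega)] at h5
                      rw [ccw_iff1 (a := t) (b := p) (c := r) (by omega) (by omega)]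
                      have q0 := four (σ := σ) (a := s) (b := t) (c := p) (d := q) (by omega) (by omega) (by omega)
                      have q1 := four (σ := σ) (a := s) (b := t) (c := r) (d := q) (by omega) (by omega) (by omega)
                      have q2 := four (σ := σ) (a := s) (b := t) (c := p) (d := r) (by omega) (by omega) (by omega)
                      have q3 := four (σ := σ) (a := t) (b := p) (c := r) (d := q) (by omega) (by omega) (by omega)
                      have q4 := four (σ := σ) (a := s) (b := p) (c := r) (d := q) (by omega) (by omega) (by omega)
                      grind
                    · rw [ccw_iff6 (a := s) (b := t) (c := p) (by omega) (by omega)] at h1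
                      rw [ccw_iff6 (a := s) (b := t) (c := q) (by omega) (by omega)] at h2
                      rw [ccw_iff6 (a := s) (b := t) (c := r) (by omega) (by omega)] at h3
                      rw [ccw_iff1 (a := t) (b := p) (c := q) (by omega) (by omega)] at h4
                      rw [ccw_iff1 (a := t) (b := q) (c := r) (by omega) (by omega)] at h5
                      rw [ccw_iff1 (a := t) (b := p) (c := r) (by omega) (by omega)]
                      have q0 := four (σ := σ) (a := s) (b := t) (c := p) (d := q) (by omega) (by omega) (by omega)
                      have q1 := four (σ := σ) (a := s) (b := t) (c := q) (d := r) (by omega) (by omega) (by omega)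
                      have q2 := four (σ := σ) (a := s) (b := t) (c := p) (d := r) (by omega) (by omega) (by omega)
                      have q3 := four (σ := σ) (a := t) (b := p) (c := q) (d := r) (by omega) (by omega) (by omega)
                      have q4 := four (σ := σ) (a := s) (b := p) (c := q) (d := r) (by omega) (by omega) (by omega)
                      grind
  · rcases lt_or_gt_of_ne n_t_p.symm with c61|c61
    · rcases lt_or_gt_of_ne n_p_q.symm with c62|c62
      · rcases lt_or_gt_of_ne n_q_r.symm with c63|c63
        · rw [ccw_iff2 (a := p) (b := t) (c := s) (by omega) (by omega)] at h1
          rw [ccw_iff2 (a := q) (b := t) (c := s) (by omega) (by omega)] at h2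
          rw [ccw_iff2 (a := r) (b := t) (c := s) (by omega) (by omega)] at h3
          rw [ccw_iff5 (a := q) (b := p) (c := t) (by omega) (by omega)] at h4
          rw [ccw_iff5 (a := r) (b := q) (c := t) (by omega) (by omega)] at h5
          rw [ccw_iff5 (a := r) (b := p) (c := t) (by omega) (by omega)]
          have q0 := four (σ := σ) (a := q) (b := p) (c := t) (d := s) (by omega) (by omega) (by omega)
          have q1 := four (σ := σ) (a := r) (b := q) (c := t) (d := s) (by omega) (by omega) (by omega)
          have q2 := four (σ := σ) (a := r) (b := p) (c := t) (d := s) (by omega) (by omega) (by omega)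
          have q3 := four (σ := σ) (a := r) (b := q) (c := p) (d := t) (by omega) (by omega) (by omega)
          have q4 := four (σ := σ) (a := r) (b := q) (c := p) (d := s) (by omega) (by omega) (by omega)
          grind
        · rcases lt_or_gt_of_ne n_p_r.symm with c64|c64
          · rw [ccw_iff2 (a := p) (b := t) (c := s) (by omega) (by omega)] at h1
            rw [ccw_iff2 (a := q) (b := t) (c := s) (by omega) (by omega)] at h2
            rw [ccw_iff2 (a := r) (b := t) (c := s) (by omega) (by omega)] at h3
            rw [ccw_iff5 (a := q) (b := p) (c := t) (by omega) (by omega)] at h4
            rw [ccw_iff3 (a := q) (b := r) (c := t) (by omega) (by omega)] at h5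
            rw [ccw_iff5 (a := r) (b := p) (c := t) (by omega) (by omega)]
            have q0 := four (σ := σ) (a := q) (b := p) (c := t) (d := s) (by omega) (by omega) (by omega)
            have q1 := four (σ := σ) (a := q) (b := r) (c := t) (d := s) (by omega) (by omega) (by omega)
            have q2 := four (σ := σ) (a := r) (b := p) (c := t) (d := s) (by omega) (by omega) (by omega)
            have q3 := four (σ := σ) (a := q) (b := r) (c := p) (d := t) (by omega) (by omega) (by omega)
            have q4 := four (σ := σ) (a := q) (b := r) (c := p) (d := s) (by omega) (by omega) (by omega)
            grind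
          · rcases lt_or_gt_of_ne n_t_r.symm with c65|c65
            · rw [ccw_iff2 (a := p) (b := t) (c := s) (by omega) (by omega)] at h1
              rw [ccw_iff2 (a := q) (b := t) (c := s) (by omega) (by omega)] at h2
              rw [ccw_iff2 (a := r) (b := t) (c := s) (by omega) (by omega)] at h3
              rw [ccw_iff5 (a := q) (b := p) (c := t) (by omega) (by omega)] at h4
              rw [ccw_iff3 (a := q) (b := r) (c := t) (by omega) (by omega)] at h5
              rw [ccw_iff3 (a := p) (b := r) (c := t) (by omega) (by omega)]
              have q0 := four (σ := σ) (a := q) (b := p) (c := t) (d := s) (by omega) (by omega) (by omega)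
              have q1 := four (σ := σ) (a := q) (b := r) (c := t) (d := s) (by omega) (by omega) (by omega)
              have q2 := four (σ := σ) (a := p) (b := r) (c := t) (d := s) (by omega) (by omega) (by omega)
              have q3 := four (σ := σ) (a := q) (b := p) (c := r) (d := t) (by omega) (by omega) (by omega)
              have q4 := four (σ := σ) (a := q) (b := p) (c := r) (d := s) (by omega) (by omega) (by omega)
              grind
            · rcases lt_or_gt_of_ne n_s_r.symm with c66|c66
              · rw [ccw_iff2 (a := p) (b := t) (c := s) (by omega) (by omega)] at h1
                rw [ccw_iff2 (a := q) (b := t) (c := s) (by omega) (by omega)] at h2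
                rw [ccw_iff4 (a := t) (b := r) (c := s) (by omega) (by omega)] at h3
                rw [ccw_iff5 (a := q) (b := p) (c := t) (by omega) (by omega)] at h4
                rw [ccw_iff6 (a := q) (b := t) (c := r) (by omega) (by omega)] at h5
                rw [ccw_iff6 (a := p) (b := t) (c := r) (by omega) (by omega)]
                have q0 := four (σ := σ) (a := q) (b := p) (c := t) (d := s) (by omega) (by omega) (by omega)
                have q1 := four (σ := σ) (a := q) (b := t) (c := r) (d := s) (by omega) (by omega) (by omega)
                have q2 := four (σ := σ) (a := p) (b := t) (c := r) (d := s) (by omega) (by omega) (by omega)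
                have q3 := four (σ := σ) (a := q) (b := p) (c := t) (d := r) (by omega) (by omega) (by omega)
                have q4 := four (σ := σ) (a := q) (b := p) (c := r) (d := s) (by omega) (by omega) (by omega)
                grind
              · rw [ccw_iff2 (a := p) (b := t) (c := s) (by omega) (by omega)] at h1
                rw [ccw_iff2 (a := q) (b := t) (c := s) (by omega) (by omega)] at h2
                rw [ccw_iff1 (a := t) (b := s) (c := r) (by omega) (by omega)] at h3
                rw [ccw_iff5 (a := q) (b := p) (c := t) (by omega) (by omega)] at h4
                rw [ccw_iff6 (a := q) (b := t) (c := r) (by omega) (by omega)] at h5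
                rw [ccw_iff6 (a := p) (b := t) (c := r) (by omega) (by omega)]
                have q0 := four (σ := σ) (a := q) (b := p) (c := t) (d := s) (by omega) (by omega) (by omega)
                have q1 := four (σ := σ) (a := q) (b := t) (c := s) (d := r) (by omega) (by omega) (by omega)
                have q2 := four (σ := σ) (a := p) (b := t) (c := s) (d := r) (by omega) (by omega) (by omega)
                have q3 := four (σ := σ) (a := q) (b := p) (c := t) (d := r) (by omega) (by omega) (by omega)
                have q4 := four (σ := σ) (a := q) (b := p) (c := s) (d := r) (by omega) (by omega) (by omega)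
                grind
      · rcases lt_or_gt_of_ne n_t_q.symm with c67|c67
        · rcases lt_or_gt_of_ne n_p_r.symm with c68|c68
          · rw [ccw_iff2 (a := p) (b := t) (c := s) (by omega) (by omega)] at h1
            rw [ccw_iff2 (a := q) (b := t) (c := s) (by omega) (by omega)] at h2
            rw [ccw_iff2 (a := r) (b := t) (c := s) (by omega) (by omega)] at h3
            rw [ccw_iff3 (a := p) (b := q) (c := t) (by omega) (by omega)] at h4
            rw [ccw_iff5 (a := r) (b := q) (c := t) (by omega) (by omega)] at h5
            rw [ccw_iff5 (a := r) (b := p) (c := t) (by omega) (by omega)]
            have q0 := four (σ := σ) (a := p) (b := q) (c := t) (d := s) (by omega) (by omega) (by omega)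
            have q1 := four (σ := σ) (a := r) (b := q) (c := t) (d := s) (by omega) (by omega) (by omega)
            have q2 := four (σ := σ) (a := r) (b := p) (c := t) (d := s) (by omega) (by omega) (by omega)
            have q3 := four (σ := σ) (a := r) (b := p) (c := q) (d := t) (by omega) (by omega) (by omega)
            have q4 := four (σ := σ) (a := r) (b := p) (c := q) (d := s) (by omega) (by omega) (by omega)
            grind
          · rcases lt_or_gt_of_ne n_q_r.symm with c69|c69
            · rw [ccw_iff2 (a := p) (b := t) (c := s) (by omega) (by omega)] at h1
              rw [ccw_iff2 (a := q) (b := t) (c := s) (by omega) (by omega)] at h2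
              rw [ccw_iff2 (a := r) (b := t) (c := s) (by omega) (by omega)] at h3
              rw [ccw_iff3 (a := p) (b := q) (c := t) (by omega) (by omega)] at h4
              rw [ccw_iff5 (a := r) (b := q) (c := t) (by omega) (by omega)] at h5
              rw [ccw_iff3 (a := p) (b := r) (c := t) (by omega) (by omega)]
              have q0 := four (σ := σ) (a := p) (b := q) (c := t) (d := s) (by omega) (by omega) (by omega)
              have q1 := four (σ := σ) (a := r) (b := q) (c := t) (d := s) (by omega) (by omega) (by omega)
              have q2 := four (σ := σ) (a := p) (b := r) (c := t) (d := s) (by omega) (by omega) (by omega)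
              have q3 := four (σ := σ) (a := p) (b := r) (c := q) (d := t) (by omega) (by omega) (by omega)
              have q4 := four (σ := σ) (a := p) (b := r) (c := q) (d := s) (by omega) (by omega) (by omega)
              grind
            · rcases lt_or_gt_of_ne n_t_r.symm with c70|c70
              · rw [ccw_iff2 (a := p) (b := t) (c := s) (by omega) (by omega)] at h1
                rw [ccw_iff2 (a := q) (b := t) (c := s) (by omega) (by omega)] at h2
                rw [ccw_iff2 (a := r) (b := t) (c := s) (by omega) (by omega)] at h3
                rw [ccw_iff3 (a := p) (b := q) (c := t) (by omega) (by omega)] at h4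
                rw [ccw_iff3 (a := q) (b := r) (c := t) (by omega) (by omega)] at h5
                rw [ccw_iff3 (a := p) (b := r) (c := t) (by omega) (by omega)]
                have q0 := four (σ := σ) (a := p) (b := q) (c := t) (d := s) (by omega) (by omega) (by omega)
                have q1 := four (σ := σ) (a := q) (b := r) (c := t) (d := s) (by omega) (by omega) (by omega)
                have q2 := four (σ := σ) (a := p) (b := r) (c := t) (d := s) (by omega) (by omega) (by omega)
                have q3 := four (σ := σ) (a := p) (b := q) (c := r) (d := t) (by omega) (by omega) (by omega)
                have q4 := four (σ := σ) (a := p) (b := q) (c := r) (d := s) (by omega) (by omega) (by omega)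
                grind
              · rcases lt_or_gt_of_ne n_s_r.symm with c71|c71
                · rw [ccw_iff2 (a := p) (b := t) (c := s) (by omega) (by omega)] at h1
                  rw [ccw_iff2 (a := q) (b := t) (c := s) (by omega) (by omega)] at h2
                  rw [ccw_iff4 (a := t) (b := r) (c := s) (by omega) (by omega)] at h3
                  rw [ccw_iff3 (a := p) (b := q) (c := t) (by omega) (by omega)] at h4
                  rw [ccw_iff6 (a := q) (b := t) (c := r) (by omega) (by omega)] at h5
                  rw [ccw_iff6 (a := p) (b := t) (c := r) (by omega) (by omega)]
                  have q0 := four (σ := σ) (a := p) (b := q) (c := t) (d := s) (by omega) (by omega) (by omega)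
                  have q1 := four (σ := σ) (a := q) (b := t) (c := r) (d := s) (by omega) (by omega) (by omega)
                  have q2 := four (σ := σ) (a := p) (b := t) (c := r) (d := s) (by omega) (by omega) (by omega)
                  have q3 := four (σ := σ) (a := p) (b := q) (c := t) (d := r) (by omega) (by omega) (by omega)
                  have q4 := four (σ := σ) (a := p) (b := q) (c := r) (d := s) (by omega) (by omega) (by omega)
                  grind
                · rw [ccw_iff2 (a := p) (b := t) (c := s) (by omega) (by omega)] at h1
                  rw [ccw_iff2 (a := q) (b := t) (c := s) (by omega) (by omega)] at h2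
                  rw [ccw_iff1 (a := t) (b := s) (c := r) (by omega) (by omega)] at h3
                  rw [ccw_iff3 (a := p) (b := q) (c := t) (by omega) (by omega)] at h4
                  rw [ccw_iff6 (a := q) (b := t) (c := r) (by omega) (by omega)] at h5
                  rw [ccw_iff6 (a := p) (b := t) (c := r) (by omega) (by omega)]
                  have q0 := four (σ := σ) (a := p) (b := q) (c := t) (d := s) (by omega) (by omega) (by omega)
                  have q1 := four (σ := σ) (a := q) (b := t) (c := s) (d := r) (by omega) (by omega) (by omega)
                  have q2 := four (σ := σ) (a := p) (b := t) (c := s) (d := r) (by omega) (by omega) (by omega)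
                  have q3 := four (σ := σ) (a := p) (b := q) (c := t) (d := r) (by omega) (by omega) (by omega)
                  have q4 := four (σ := σ) (a := p) (b := q) (c := s) (d := r) (by omega) (by omega) (by omega)
                  grind
        · rcases lt_or_gt_of_ne n_s_q.symm with c72|c72
          · rcases lt_or_gt_of_ne n_p_r.symm with c73|c73
            · rw [ccw_iff2 (a := p) (b := t) (c := s) (by omega) (by omega)] at h1
              rw [ccw_iff4 (a := t) (b := q) (c := s) (by omega) (by omega)] at h2
              rw [ccw_iff2 (a := r) (b := t) (c := s) (by omega) (by omega)] at h3
              rw [ccw_iff6 (a := p) (b := t) (c := q) (by omega) (by omega)] at h4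
              rw [ccw_iff2 (a := r) (b := t) (c := q) (by omega) (by omega)] at h5
              rw [ccw_iff5 (a := r) (b := p) (c := t) (by omega) (by omega)]
              have q0 := four (σ := σ) (a := p) (b := t) (c := q) (d := s) (by omega) (by omega) (by omega)
              have q1 := four (σ := σ) (a := r) (b := t) (c := q) (d := s) (by omega) (by omega) (by omega)
              have q2 := four (σ := σ) (a := r) (b := p) (c := t) (d := s) (by omega) (by omega) (by omega)
              have q3 := four (σ := σ) (a := r) (b := p) (c := t) (d := q) (by omega) (by omega) (by omega)
              have q4 := four (σ := σ) (a := r) (b := p) (c := q) (d := s) (by omega) (by omega) (by omega)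
              grind
            · rcases lt_or_gt_of_ne n_t_r.symm with c74|c74
              · rw [ccw_iff2 (a := p) (b := t) (c := s) (by omega) (by omega)] at h1
                rw [ccw_iff4 (a := t) (b := q) (c := s) (by omega) (by omega)] at h2
                rw [ccw_iff2 (a := r) (b := t) (c := s) (by omega) (by omega)] at h3
                rw [ccw_iff6 (a := p) (b := t) (c := q) (by omega) (by omega)] at h4
                rw [ccw_iff2 (a := r) (b := t) (c := q) (by omega) (by omega)] at h5
                rw [ccw_iff3 (a := p) (b := r) (c := t) (by omega) (by omega)]
                have q0 := four (σ := σ) (a := p) (b := t) (c := q) (d := s) (by omega) (by omega) (by omega)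
                have q1 := four (σ := σ) (a := r) (b := t) (c := q) (d := s) (by omega) (by omega) (by omega)
                have q2 := four (σ := σ) (a := p) (b := r) (c := t) (d := s) (by omega) (by omega) (by omega)
                have q3 := four (σ := σ) (a := p) (b := r) (c := t) (d := q) (by omega) (by omega) (by omega)
                have q4 := four (σ := σ) (a := p) (b := r) (c := q) (d := s) (by omega) (by omega) (by omega)
                grind
              · rcases lt_or_gt_of_ne n_q_r.symm with c75|c75
                · rw [ccw_iff2 (a := p) (b := t) (c := s) (by omega) (by omega)] at h1
                  rw [ccw_iff4 (a := t) (b := q) (c := s) (by omega) (by omega)] at h2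
                  rw [ccw_iff4 (a := t) (b := r) (c := s) (by omega) (by omega)] at h3
                  rw [ccw_iff6 (a := p) (b := t) (c := q) (by omega) (by omega)] at h4
                  rw [ccw_iff4 (a := t) (b := r) (c := q) (by omega) (by omega)] at h5
                  rw [ccw_iff6 (a := p) (b := t) (c := r) (by omega) (by omega)]
                  have q0 := four (σ := σ) (a := p) (b := t) (c := q) (d := s) (by omega) (by omega) (by omega)
                  have q1 := four (σ := σ) (a := t) (b := r) (c := q) (d := s) (by omega) (by omega) (by omega)
                  have q2 := four (σ := σ) (a := p) (b := t) (c := r) (d := s) (by omega) (by omega) (by omega)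
                  have q3 := four (σ := σ) (a := p) (b := t) (c := r) (d := q) (by omega) (by omega) (by omega)
                  have q4 := four (σ := σ) (a := p) (b := r) (c := q) (d := s) (by omega) (by omega) (by omega)
                  grind
                · rcases lt_or_gt_of_ne n_s_r.symm with c76|c76
                  · rw [ccw_iff2 (a := p) (b := t) (c := s) (by omega) (by omega)] at h1
                    rw [ccw_iff4 (a := t) (b := q) (c := s) (by omega) (by omega)] at h2
                    rw [ccw_iff4 (a := t) (b := r) (c := s) (by omega) (by omega)] at h3
                    rw [ccw_iff6 (a := p) (b := t) (c := q) (by omega) (by omega)] at h4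
                    rw [ccw_iff1 (a := t) (b := q) (c := r) (by omega) (by omega)] at h5
                    rw [ccw_iff6 (a := p) (b := t) (c := r) (by omega) (by omega)]
                    have q0 := four (σ := σ) (a := p) (b := t) (c := q) (d := s) (by omega) (by omega) (by omega)
                    have q1 := four (σ := σ) (a := t) (b := q) (c := r) (d := s) (by omega) (by omega) (by omega)
                    have q2 := four (σ := σ) (a := p) (b := t) (c := r) (d := s) (by omega) (by omega) (by omega)
                    have q3 := four (σ := σ) (a := p) (b := t) (c := q) (d := r) (by omega) (by omega) (by omega)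
                    have q4 := four (σ := σ) (a := p) (b := q) (c := r) (d := s) (by omega) (by omega) (by omega)
                    grind
                  · rw [ccw_iff2 (a := p) (b := t) (c := s) (by omega) (by omega)] at h1
                    rw [ccw_iff4 (a := t) (b := q) (c := s) (by omega) (by omega)] at h2
                    rw [ccw_iff1 (a := t) (b := s) (c := r) (by omega) (by omega)] at h3
                    rw [ccw_iff6 (a := p) (b := t) (c := q) (by omega) (by omega)] at h4
                    rw [ccw_iff1 (a := t) (b := q) (c := r) (by omega) (by omega)] at h5
                    rw [ccw_iff6 (a := p) (b := t) (c := r) (by omega) (by omega)]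
                    have q0 := four (σ := σ) (a := p) (b := t) (c := q) (d := s) (by omega) (by omega) (by omega)
                    have q1 := four (σ := σ) (a := t) (b := q) (c := s) (d := r) (by omega) (by omega) (by omega)
                    have q2 := four (σ := σ) (a := p) (b := t) (c := s) (d := r) (by omega) (by omega) (by omega)
                    have q3 := four (σ := σ) (a := p) (b := t) (c := q) (d := r) (by omega) (by omega) (by omega)
                    have q4 := four (σ := σ) (a := p) (b := q) (c := s) (d := r) (by omega) (by omega) (by omega)
                    grind
          · rcases lt_or_gt_of_ne n_p_r.symm with c77|c77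
            · rw [ccw_iff2 (a := p) (b := t) (c := s) (by omega) (by omega)] at h1
              rw [ccw_iff1 (a := t) (b := s) (c := q) (by omega) (by omega)] at h2
              rw [ccw_iff2 (a := r) (b := t) (c := s) (by omega) (by omega)] at h3
              rw [ccw_iff6 (a := p) (b := t) (c := q) (by omega) (by omega)] at h4
              rw [ccw_iff2 (a := r) (b := t) (c := q) (by omega) (by omega)] at h5
              rw [ccw_iff5 (a := r) (b := p) (c := t) (by omega) (by omega)]
              have q0 := four (σ := σ) (a := p) (b := t) (c := s) (d := q) (by omega) (by omega) (by omega)
              have q1 := four (σ := σ) (a := r) (b := t) (c := s) (d := q) (by omega) (by omega) (by omega)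
              have q2 := four (σ := σ) (a := r) (b := p) (c := t) (d := s) (by omega) (by omega) (by omega)
              have q3 := four (σ := σ) (a := r) (b := p) (c := t) (d := q) (by omega) (by omega) (by omega)
              have q4 := four (σ := σ) (a := r) (b := p) (c := s) (d := q) (by omega) (by omega) (by omega)
              grind
            · rcases lt_or_gt_of_ne n_t_r.symm with c78|c78
              · rw [ccw_iff2 (a := p) (b := t) (c := s) (by omega) (by omega)] at h1
                rw [ccw_iff1 (a := t) (b := s) (c := q) (by omega) (by omega)] at h2
                rw [ccw_iff2 (a := r) (b := t) (c := s) (by omega) (by omega)] at h3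
                rw [ccw_iff6 (a := p) (b := t) (c := q) (by omega) (by omega)] at h4
                rw [ccw_iff2 (a := r) (b := t) (c := q) (by omega) (by omega)] at h5
                rw [ccw_iff3 (a := p) (b := r) (c := t) (by omega) (by omega)]
                have q0 := four (σ := σ) (a := p) (b := t) (c := s) (d := q) (by omega) (by omega) (by omega)
                have q1 := four (σ := σ) (a := r) (b := t) (c := s) (d := q) (by omega) (by omega) (by omega)
                have q2 := four (σ := σ) (a := p) (b := r) (c := t) (d := s) (by omega) (by omega) (by omega)
                have q3 := four (σ := σ) (a := p) (b := r) (c := t) (d := q) (by omega) (by omega) (by omega)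
                have q4 := four (σ := σ) (a := p) (b := r) (c := s) (d := q) (by omega) (by omega) (by omega)
                grind
              · rcases lt_or_gt_of_ne n_s_r.symm with c79|c79
                · rw [ccw_iff2 (a := p) (b := t) (c := s) (by omega) (by omega)] at h1
                  rw [ccw_iff1 (a := t) (b := s) (c := q) (by omega) (by omega)] at h2
                  rw [ccw_iff4 (a := t) (b := r) (c := s) (by omega) (by omega)] at h3
                  rw [ccw_iff6 (a := p) (b := t) (c := q) (by omega) (by omega)] at h4
                  rw [ccw_iff4 (a := t) (b := r) (c := q) (by omega) (by omega)] at h5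
                  rw [ccw_iff6 (a := p) (b := t) (c := r) (by omega) (by omega)]
                  have q0 := four (σ := σ) (a := p) (b := t) (c := s) (d := q) (by omega) (by omega) (by omega)
                  have q1 := four (σ := σ) (a := t) (b := r) (c := s) (d := q) (by omega) (by omega) (by omega)
                  have q2 := four (σ := σ) (a := p) (b := t) (c := r) (d := s) (by omega) (by omega) (by omega)
                  have q3 := four (σ := σ) (a := p) (b := t) (c := r) (d := q) (by omega) (by omega) (by omega)
                  have q4 := four (σ := σ) (a := p) (b := r) (c := s) (d := q) (by omega) (by omega) (by omega)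
                  grind
                · rcases lt_or_gt_of_ne n_q_r.symm with c80|c80
                  · rw [ccw_iff2 (a := p) (b := t) (c := s) (by omega) (by omega)] at h1
                    rw [ccw_iff1 (a := t) (b := s) (c := q) (by omega) (by omega)] at h2
                    rw [ccw_iff1 (a := t) (b := s) (c := r) (by omega) (by omega)] at h3
                    rw [ccw_iff6 (a := p) (b := t) (c := q) (by omega) (by omega)] at h4
                    rw [ccw_iff4 (a := t) (b := r) (c := q) (by omega) (by omega)] at h5
                    rw [ccw_iff6 (a := p) (b := t) (c := r) (by omega) (by omega)]
                    have q0 := four (σ := σ) (a := p) (b := t) (c := s) (d := q) (by omega) (by omega) (by omega)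
                    have q1 := four (σ := σ) (a := t) (b := s) (c := r) (d := q) (by omega) (by omega) (by omega)
                    have q2 := four (σ := σ) (a := p) (b := t) (c := s) (d := r) (by omega) (by omega) (by omega)
                    have q3 := four (σ := σ) (a := p) (b := t) (c := r) (d := q) (by omega) (by omega) (by omega)
                    have q4 := four (σ := σ) (a := p) (b := s) (c := r) (d := q) (by omega) (by omega) (by omega)
                    grind
                  · rw [ccw_iff2 (a := p) (b := t) (c := s) (by omega) (by omega)] at h1
                    rw [ccw_iff1 (a := t) (b := s) (c := q) (by omega) (by omega)] at h2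
                    rw [ccw_iff1 (a := t) (b := s) (c := r) (by omega) (by omega)] at h3
                    rw [ccw_iff6 (a := p) (b := t) (c := q) (by omega) (by omega)] at h4
                    rw [ccw_iff1 (a := t) (b := q) (c := r) (by omega) (by omega)] at h5
                    rw [ccw_iff6 (a := p) (b := t) (c := r) (by omega) (by omega)]
                    have q0 := four (σ := σ) (a := p) (b := t) (c := s) (d := q) (by omega) (by omega) (by omega)
                    have q1 := four (σ := σ) (a := t) (b := s) (c := q) (d := r) (by omega) (by omega) (by omega)
                    have q2 := four (σ := σ) (a := p) (b := t) (c := s) (d := r) (by omega) (by omega) (by omega)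
                    have q3 := four (σ := σ) (a := p) (b := t) (c := q) (d := r) (by omega) (by omega) (by omega)
                    have q4 := four (σ := σ) (a := p) (b := s) (c := q) (d := r) (by omega) (by omega) (by omega)
                    grind
    · rcases lt_or_gt_of_ne n_s_p.symm with c81|c81
      · rcases lt_or_gt_of_ne n_t_q.symm with c82|c82
        · rcases lt_or_gt_of_ne n_q_r.symm with c83|c83
          · rw [ccw_iff4 (a := t) (b := p) (c := s) (by omega) (by omega)] at h1
            rw [ccw_iff2 (a := q) (b := t) (c := s) (by omega) (by omega)] at h2
            rw [ccw_iff2 (a := r) (b := t) (c := s) (by omega) (by omega)] at h3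
            rw [ccw_iff2 (a := q) (b := t) (c := p) (by omega) (by omega)] at h4
            rw [ccw_iff5 (a := r) (b := q) (c := t) (by omega) (by omega)] at h5
            rw [ccw_iff2 (a := r) (b := t) (c := p) (by omega) (by omega)]
            have q0 := four (σ := σ) (a := q) (b := t) (c := p) (d := s) (by omega) (by omega) (by omega)
            have q1 := four (σ := σ) (a := r) (b := q) (c := t) (d := s) (by omega) (by omega) (by omega)
            have q2 := four (σ := σ) (a := r) (b := t) (c := p) (d := s) (by omega) (by omega) (by omega)
            have q3 := four (σ := σ) (a := r) (b := q) (c := t) (d := p) (by omega) (by omega) (by omega)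
            have q4 := four (σ := σ) (a := r) (b := q) (c := p) (d := s) (by omega) (by omega) (by omega)
            grind
          · rcases lt_or_gt_of_ne n_t_r.symm with c84|c84
            · rw [ccw_iff4 (a := t) (b := p) (c := s) (by omega) (by omega)] at h1
              rw [ccw_iff2 (a := q) (b := t) (c := s) (by omega) (by omega)] at h2
              rw [ccw_iff2 (a := r) (b := t) (c := s) (by omega) (by omega)] at h3
              rw [ccw_iff2 (a := q) (b := t) (c := p) (by omega) (by omega)] at h4
              rw [ccw_iff3 (a := q) (b := r) (c := t) (by omega) (by omega)] at h5
              rw [ccw_iff2 (a := r) (b := t) (c := p) (by omega) (by omega)]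
              have q0 := four (σ := σ) (a := q) (b := t) (c := p) (d := s) (by omega) (by omega) (by omega)
              have q1 := four (σ := σ) (a := q) (b := r) (c := t) (d := s) (by omega) (by omega) (by omega)
              have q2 := four (σ := σ) (a := r) (b := t) (c := p) (d := s) (by omega) (by omega) (by omega)
              have q3 := four (σ := σ) (a := q) (b := r) (c := t) (d := p) (by omega) (by omega) (by omega)
              have q4 := four (σ := σ) (a := q) (b := r) (c := p) (d := s) (by omega) (by omega) (by omega)
              grind
            · rcases lt_or_gt_of_ne n_p_r.symm with c85|c85
              · rw [ccw_iff4 (a := t) (b := p) (c := s) (by omega) (by omega)] at h1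
                rw [ccw_iff2 (a := q) (b := t) (c := s) (by omega) (by omega)] at h2
                rw [ccw_iff4 (a := t) (b := r) (c := s) (by omega) (by omega)] at h3
                rw [ccw_iff2 (a := q) (b := t) (c := p) (by omega) (by omega)] at h4
                rw [ccw_iff6 (a := q) (b := t) (c := r) (by omega) (by omega)] at h5
                rw [ccw_iff4 (a := t) (b := r) (c := p) (by omega) (by omega)]
                have q0 := four (σ := σ) (a := q) (b := t) (c := p) (d := s) (by omega) (by omega) (by omega)
                have q1 := four (σ := σ) (a := q) (b := t) (c := r) (d := s) (by omega) (by omega) (by omega)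
                have q2 := four (σ := σ) (a := t) (b := r) (c := p) (d := s) (by omega) (by omega) (by omega)
                have q3 := four (σ := σ) (a := q) (b := t) (c := r) (d := p) (by omega) (by omega) (by omega)
                have q4 := four (σ := σ) (a := q) (b := r) (c := p) (d := s) (by omega) (by omega) (by omega)
                grind
              · rcases lt_or_gt_of_ne n_s_r.symm with c86|c86
                · rw [ccw_iff4 (a := t) (b := p) (c := s) (by omega) (by omega)] at h1
                  rw [ccw_iff2 (a := q) (b := t) (c := s) (by omega) (by omega)] at h2
                  rw [ccw_iff4 (a := t) (b := r) (c := s) (by omega) (by omega)] at h3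
                  rw [ccw_iff2 (a := q) (b := t) (c := p) (by omega) (by omega)] at h4
                  rw [ccw_iff6 (a := q) (b := t) (c := r) (by omega) (by omega)] at h5
                  rw [ccw_iff1 (a := t) (b := p) (c := r) (by omega) (by omega)]
                  have q0 := four (σ := σ) (a := q) (b := t) (c := p) (d := s) (by omega) (by omega) (by omega)
                  have q1 := four (σ := σ) (a := q) (b := t) (c := r) (d := s) (by omega) (by omega) (by omega)
                  have q2 := four (σ := σ) (a := t) (b := p) (c := r) (d := s) (by omega) (by omega) (by omega)
                  have q3 := four (σ := σ) (a := q) (b := t) (c := p) (d := r) (by omega) (by omega) (by omega)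
                  have q4 := four (σ := σ) (a := q) (b := p) (c := r) (d := s) (by omega) (by omega) (by omega)
                  grind
                · rw [ccw_iff4 (a := t) (b := p) (c := s) (by omega) (by omega)] at h1
                  rw [ccw_iff2 (a := q) (b := t) (c := s) (by omega) (by omega)] at h2
                  rw [ccw_iff1 (a := t) (b := s) (c := r) (by omega) (by omega)] at h3
                  rw [ccw_iff2 (a := q) (b := t) (c := p) (by omega) (by omega)] at h4
                  rw [ccw_iff6 (a := q) (b := t) (c := r) (by omega) (by omega)] at h5
                  rw [ccw_iff1 (a := t) (b := p) (c := r) (by omega) (by omega)]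
                  have q0 := four (σ := σ) (a := q) (b := t) (c := p) (d := s) (by omega) (by omega) (by omega)
                  have q1 := four (σ := σ) (a := q) (b := t) (c := s) (d := r) (by omega) (by omega) (by omega)
                  have q2 := four (σ := σ) (a := t) (b := p) (c := s) (d := r) (by omega) (by omega) (by omega)
                  have q3 := four (σ := σ) (a := q) (b := t) (c := p) (d := r) (by omega) (by omega) (by omega)
                  have q4 := four (σ := σ) (a := q) (b := p) (c := s) (d := r) (by omega) (by omega) (by omega)
                  grind
        · rcases lt_or_gt_of_ne n_p_q.symm with c87|c87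
          · rcases lt_or_gt_of_ne n_t_r.symm with c88|c88
            · rw [ccw_iff4 (a := t) (b := p) (c := s) (by omega) (by omega)] at h1
              rw [ccw_iff4 (a := t) (b := q) (c := s) (by omega) (by omega)] at h2
              rw [ccw_iff2 (a := r) (b := t) (c := s) (by omega) (by omega)] at h3
              rw [ccw_iff4 (a := t) (b := q) (c := p) (by omega) (by omega)] at h4
              rw [ccw_iff2 (a := r) (b := t) (c := q) (by omega) (by omega)] at h5
              rw [ccw_iff2 (a := r) (b := t) (c := p) (by omega) (by omega)]
              have q0 := four (σ := σ) (a := t) (b := q) (c := p) (d := s) (by omega) (by omega) (by omega)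
              have q1 := four (σ := σ) (a := r) (b := t) (c := q) (d := s) (by omega) (by omega) (by omega)
              have q2 := four (σ := σ) (a := r) (b := t) (c := p) (d := s) (by omega) (by omega) (by omega)
              have q3 := four (σ := σ) (a := r) (b := t) (c := q) (d := p) (by omega) (by omega) (by omega)
              have q4 := four (σ := σ) (a := r) (b := q) (c := p) (d := s) (by omega) (by omega) (by omega)
              grind
            · rcases lt_or_gt_of_ne n_q_r.symm with c89|c89
              · rw [ccw_iff4 (a := t) (b := p) (c := s) (by omega) (by omega)] at h1
                rw [ccw_iff4 (a := t) (b := q) (c := s) (by omega) (by omega)] at h2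
                rw [ccw_iff4 (a := t) (b := r) (c := s) (by omega) (by omega)] at h3
                rw [ccw_iff4 (a := t) (b := q) (c := p) (by omega) (by omega)] at h4
                rw [ccw_iff4 (a := t) (b := r) (c := q) (by omega) (by omega)] at h5
                rw [ccw_iff4 (a := t) (b := r) (c := p) (by omega) (by omega)]
                have q0 := four (σ := σ) (a := t) (b := q) (c := p) (d := s) (by omega) (by omega) (by omega)
                have q1 := four (σ := σ) (a := t) (b := r) (c := q) (d := s) (by omega) (by omega) (by omega)
                have q2 := four (σ := σ) (a := t) (b := r) (c := p) (d := s) (by omega) (by omega) (by omega)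
                have q3 := four (σ := σ) (a := t) (b := r) (c := q) (d := p) (by omega) (by omega) (by omega)
                have q4 := four (σ := σ) (a := r) (b := q) (c := p) (d := s) (by omega) (by omega) (by omega)
                grind
              · rcases lt_or_gt_of_ne n_p_r.symm with c90|c90
                · rw [ccw_iff4 (a := t) (b := p) (c := s) (by omega) (by omega)] at h1
                  rw [ccw_iff4 (a := t) (b := q) (c := s) (by omega) (by omega)] at h2
                  rw [ccw_iff4 (a := t) (b := r) (c := s) (by omega) (by omega)] at h3
                  rw [ccw_iff4 (a := t) (b := q) (c := p) (by omega) (by omega)] at h4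
                  rw [ccw_iff1 (a := t) (b := q) (c := r) (by omega) (by omega)] at h5
                  rw [ccw_iff4 (a := t) (b := r) (c := p) (by omega) (by omega)]
                  have q0 := four (σ := σ) (a := t) (b := q) (c := p) (d := s) (by omega) (by omega) (by omega)
                  have q1 := four (σ := σ) (a := t) (b := q) (c := r) (d := s) (by omega) (by omega) (by omega)
                  have q2 := four (σ := σ) (a := t) (b := r) (c := p) (d := s) (by omega) (by omega) (by omega)
                  have q3 := four (σ := σ) (a := t) (b := q) (c := r) (d := p) (by omega) (by omega) (by omega)
                  have q4 := four (σ := σ) (a := q) (b := r) (c := p) (d := s) (by omega) (by omega) (by omega)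
                  grind
                · rcases lt_or_gt_of_ne n_s_r.symm with c91|c91
                  · rw [ccw_iff4 (a := t) (b := p) (c := s) (by omega) (by omega)] at h1
                    rw [ccw_iff4 (a := t) (b := q) (c := s) (by omega) (by omega)] at h2
                    rw [ccw_iff4 (a := t) (b := r) (c := s) (by omega) (by omega)] at h3
                    rw [ccw_iff4 (a := t) (b := q) (c := p) (by omega) (by omega)] at h4
                    rw [ccw_iff1 (a := t) (b := q) (c := r) (by omega) (by omega)] at h5
                    rw [ccw_iff1 (a := t) (b := p) (c := r) (by omega) (by omega)]
                    have q0 := four (σ := σ) (a := t) (b := q) (c := p) (d := s) (by omega) (by omega) (by omega)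
                    have q1 := four (σ := σ) (a := t) (b := q) (c := r) (d := s) (by omega) (by omega) (by omega)
                    have q2 := four (σ := σ) (a := t) (b := p) (c := r) (d := s) (by omega) (by omega) (by omega)
                    have q3 := four (σ := σ) (a := t) (b := q) (c := p) (d := r) (by omega) (by omega) (by omega)
                    have q4 := four (σ := σ) (a := q) (b := p) (c := r) (d := s) (by omega) (by omega) (by omega)
                    grind
                  · rw [ccw_iff4 (a := t) (b := p) (c := s) (by omega) (by omega)] at h1
                    rw [ccw_iff4 (a := t) (b := q) (c := s) (by omega) (by omega)] at h2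
                    rw [ccw_iff1 (a := t) (b := s) (c := r) (by omega) (by omega)] at h3
                    rw [ccw_iff4 (a := t) (b := q) (c := p) (by omega) (by omega)] at h4
                    rw [ccw_iff1 (a := t) (b := q) (c := r) (by omega) (by omega)] at h5
                    rw [ccw_iff1 (a := t) (b := p) (c := r) (by omega) (by omega)]
                    have q0 := four (σ := σ) (a := t) (b := q) (c := p) (d := s) (by omega) (by omega) (by omega)
                    have q1 := four (σ := σ) (a := t) (b := q) (c := s) (d := r) (by omega) (by omega) (by omega)
                    have q2 := four (σ := σ) (a := t) (b := p) (c := s) (d := r) (by omega) (by omega) (by omega)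
                    have q3 := four (σ := σ) (a := t) (b := q) (c := p) (d := r) (by omega) (by omega) (by omega)
                    have q4 := four (σ := σ) (a := q) (b := p) (c := s) (d := r) (by omega) (by omega) (by omega)
                    grind
          · rcases lt_or_gt_of_ne n_s_q.symm with c92|c92
            · rcases lt_or_gt_of_ne n_t_r.symm with c93|c93
              · rw [ccw_iff4 (a := t) (b := p) (c := s) (by omega) (by omega)] at h1
                rw [ccw_iff4 (a := t) (b := q) (c := s) (by omega) (by omega)] at h2
                rw [ccw_iff2 (a := r) (b := t) (c := s) (by omega) (by omega)] at h3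
                rw [ccw_iff1 (a := t) (b := p) (c := q) (by omega) (by omega)] at h4
                rw [ccw_iff2 (a := r) (b := t) (c := q) (by omega) (by omega)] at h5
                rw [ccw_iff2 (a := r) (b := t) (c := p) (by omega) (by omega)]
                have q0 := four (σ := σ) (a := t) (b := p) (c := q) (d := s) (by omega) (by omega) (by omega)
                have q1 := four (σ := σ) (a := r) (b := t) (c := q) (d := s) (by omega) (by omega) (by omega)
                have q2 := four (σ := σ) (a := r) (b := t) (c := p) (d := s) (by omega) (by omega) (by omega)
                have q3 := four (σ := σ) (a := r) (b := t) (c := p) (d := q) (by omega) (by omega) (by omega)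
                have q4 := four (σ := σ) (a := r) (b := p) (c := q) (d := s) (by omega) (by omega) (by omega)
                grind
              · rcases lt_or_gt_of_ne n_p_r.symm with c94|c94
                · rw [ccw_iff4 (a := t) (b := p) (c := s) (by omega) (by omega)] at h1
                  rw [ccw_iff4 (a := t) (b := q) (c := s) (by omega) (by omega)] at h2
                  rw [ccw_iff4 (a := t) (b := r) (c := s) (by omega) (by omega)] at h3
                  rw [ccw_iff1 (a := t) (b := p) (c := q) (by omega) (by omega)] at h4
                  rw [ccw_iff4 (a := t) (b := r) (c := q) (by omega) (by omega)] at h5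
                  rw [ccw_iff4 (a := t) (b := r) (c := p) (by omega) (by omega)]
                  have q0 := four (σ := σ) (a := t) (b := p) (c := q) (d := s) (by omega) (by omega) (by omega)
                  have q1 := four (σ := σ) (a := t) (b := r) (c := q) (d := s) (by omega) (by omega) (by omega)
                  have q2 := four (σ := σ) (a := t) (b := r) (c := p) (d := s) (by omega) (by omega) (by omega)
                  have q3 := four (σ := σ) (a := t) (b := r) (c := p) (d := q) (by omega) (by omega) (by omega)
                  have q4 := four (σ := σ) (a := r) (b := p) (c := q) (d := s) (by omega) (by omega) (by omega)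
                  grind
                · rcases lt_or_gt_of_ne n_q_r.symm with c95|c95
                  · rw [ccw_iff4 (a := t) (b := p) (c := s) (by omega) (by omega)] at h1
                    rw [ccw_iff4 (a := t) (b := q) (c := s) (by omega) (by omega)] at h2
                    rw [ccw_iff4 (a := t) (b := r) (c := s) (by omega) (by omega)] at h3
                    rw [ccw_iff1 (a := t) (b := p) (c := q) (by omega) (by omega)] at h4
                    rw [ccw_iff4 (a := t) (b := r) (c := q) (by omega) (by omega)] at h5
                    rw [ccw_iff1 (a := t) (b := p) (c := r) (by omega) (by omega)]
                    have q0 := four (σ := σ) (a := t) (b := p) (c := q) (d := s) (by omega) (by omega) (by omega)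
                    have q1 := four (σ := σ) (a := t) (b := r) (c := q) (d := s) (by omega) (by omega) (by omega)
                    have q2 := four (σ := σ) (a := t) (b := p) (c := r) (d := s) (by omega) (by omega) (by omega)
                    have q3 := four (σ := σ) (a := t) (b := p) (c := r) (d := q) (by omega) (by omega) (by omega)
                    have q4 := four (σ := σ) (a := p) (b := r) (c := q) (d := s) (by omega) (by omega) (by omega)
                    grind
                  · rcases lt_or_gt_of_ne n_s_r.symm with c96|c96
                    · rw [ccw_iff4 (a := t) (b := p) (c := s) (by omega) (by omega)] at h1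
                      rw [ccw_iff4 (a := t) (b := q) (c := s) (by omega) (by omega)] at h2
                      rw [ccw_iff4 (a := t) (b := r) (c := s) (by omega) (by omega)] at h3
                      rw [ccw_iff1 (a := t) (b := p) (c := q) (by omega) (by omega)] at h4
                      rw [ccw_iff1 (a := t) (b := q) (c := r) (by omega) (by omega)] at h5
                      rw [ccw_iff1 (a := t) (b := p) (c := r) (by omega) (by omega)]
                      have q0 := four (σ := σ) (a := t) (b := p) (c := q) (d := s) (by omega) (by omega) (by omega)
                      have q1 := four (σ := σ) (a := t) (b := q) (c := r) (d := s) (by omega) (by omega) (by omega)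
                      have q2 := four (σ := σ) (a := t) (b := p) (c := r) (d := s) (by omega) (by omega) (by omega)
                      have q3 := four (σ := σ) (a := t) (b := p) (c := q) (d := r) (by omega) (by omega) (by omega)
                      have q4 := four (σ := σ) (a := p) (b := q) (c := r) (d := s) (by omega) (by omega) (by omega)
                      grind
                    · rw [ccw_iff4 (a := t) (b := p) (c := s) (by omega) (by omega)] at h1
                      rw [ccw_iff4 (a := t) (b := q) (c := s) (by omega) (by omega)] at h2
                      rw [ccw_iff1 (a := t) (b := s) (c := r) (by omega) (by omega)] at h3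
                      rw [ccw_iff1 (a := t) (b := p) (c := q) (by omega) (by omega)] at h4
                      rw [ccw_iff1 (a := t) (b := q) (c := r) (by omega) (by omega)] at h5
                      rw [ccw_iff1 (a := t) (b := p) (c := r) (by omega) (by omega)]
                      have q0 := four (σ := σ) (a := t) (b := p) (c := q) (d := s) (by omega) (by omega) (by omega)
                      have q1 := four (σ := σ) (a := t) (b := q) (c := s) (d := r) (by omega) (by omega) (by omega)
                      have q2 := four (σ := σ) (a := t) (b := p) (c := s) (d := r) (by omega) (by omega) (by omega)
                      have q3 := four (σ := σ) (a := t) (b := p) (c := q) (d := r) (by omega) (by omega) (by omega)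
                      have q4 := four (σ := σ) (a := p) (b := q) (c := s) (d := r) (by omega) (by omega) (by omega)
                      grind
            · rcases lt_or_gt_of_ne n_t_r.symm with c97|c97
              · rw [ccw_iff4 (a := t) (b := p) (c := s) (by omega) (by omega)] at h1
                rw [ccw_iff1 (a := t) (b := s) (c := q) (by omega) (by omega)] at h2
                rw [ccw_iff2 (a := r) (b := t) (c := s) (by omega) (by omega)] at h3
                rw [ccw_iff1 (a := t) (b := p) (c := q) (by omega) (by omega)] at h4
                rw [ccw_iff2 (a := r) (b := t) (c := q) (by omega) (by omega)] at h5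
                rw [ccw_iff2 (a := r) (b := t) (c := p) (by omega) (by omega)]
                have q0 := four (σ := σ) (a := t) (b := p) (c := s) (d := q) (by omega) (by omega) (by omega)
                have q1 := four (σ := σ) (a := r) (b := t) (c := s) (d := q) (by omega) (by omega) (by omega)
                have q2 := four (σ := σ) (a := r) (b := t) (c := p) (d := s) (by omega) (by omega) (by omega)
                have q3 := four (σ := σ) (a := r) (b := t) (c := p) (d := q) (by omega) (by omega) (by omega)
                have q4 := four (σ := σ) (a := r) (b := p) (c := s) (d := q) (by omega) (by omega) (by omega)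
                grind
              · rcases lt_or_gt_of_ne n_p_r.symm with c98|c98
                · rw [ccw_iff4 (a := t) (b := p) (c := s) (by omega) (by omega)] at h1
                  rw [ccw_iff1 (a := t) (b := s) (c := q) (by omega) (by omega)] at h2
                  rw [ccw_iff4 (a := t) (b := r) (c := s) (by omega) (by omega)] at h3
                  rw [ccw_iff1 (a := t) (b := p) (c := q) (by omega) (by omega)] at h4
                  rw [ccw_iff4 (a := t) (b := r) (c := q) (by omega) (by omega)] at h5
                  rw [ccw_iff4 (a := t) (b := r) (c := p) (by omega) (by omega)]
                  have q0 := four (σ := σ) (a := t) (b := p) (c := s) (d := q) (by omega) (by omega) (by omega)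
                  have q1 := four (σ := σ) (a := t) (b := r) (c := s) (d := q) (by omega) (by omega) (by omega)
                  have q2 := four (σ := σ) (a := t) (b := r) (c := p) (d := s) (by omega) (by omega) (by omega)
                  have q3 := four (σ := σ) (a := t) (b := r) (c := p) (d := q) (by omega) (by omega) (by omega)
                  have q4 := four (σ := σ) (a := r) (b := p) (c := s) (d := q) (by omega) (by omega) (by omega)
                  grind
                · rcases lt_or_gt_of_ne n_s_r.symm with c99|c99
                  · rw [ccw_iff4 (a := t) (b := p) (c := s) (by omega) (by omega)] at h1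
                    rw [ccw_iff1 (a := t) (b := s) (c := q) (by omega) (by omega)] at h2
                    rw [ccw_iff4 (a := t) (b := r) (c := s) (by omega) (by omega)] at h3
                    rw [ccw_iff1 (a := t) (b := p) (c := q) (by omega) (by omega)] at h4
                    rw [ccw_iff4 (a := t) (b := r) (c := q) (by omega) (by omega)] at h5
                    rw [ccw_iff1 (a := t) (b := p) (c := r) (by omega) (by omega)]
                    have q0 := four (σ := σ) (a := t) (b := p) (c := s) (d := q) (by omega) (by omega) (by omega)
                    have q1 := four (σ := σ) (a := t) (b := r) (c := s) (d := q) (by omega) (by omega) (by omega)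
                    have q2 := four (σ := σ) (a := t) (b := p) (c := r) (d := s) (by omega) (by omega) (by omega)
                    have q3 := four (σ := σ) (a := t) (b := p) (c := r) (d := q) (by omega) (by omega) (by omega)
                    have q4 := four (σ := σ) (a := p) (b := r) (c := s) (d := q) (by omega) (by omega) (by omega)
                    grind
                  · rcases lt_or_gt_of_ne n_q_r.symm with c100|c100
                    · rw [ccw_iff4 (a := t) (b := p) (c := s) (by omega) (by omega)] at h1
                      rw [ccw_iff1 (a := t) (b := s) (c := q) (by omega) (by omega)] at h2
                      rw [ccw_iff1 (a := t) (b := s) (c := r) (by omega) (by omega)] at h3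
                      rw [ccw_iff1 (a := t) (b := p) (c := q) (by omega) (by omega)] at h4
                      rw [ccw_iff4 (a := t) (b := r) (c := q) (by omega) (by omega)] at h5
                      rw [ccw_iff1 (a := t) (b := p) (c := r) (by omega) (by omega)]
                      have q0 := four (σ := σ) (a := t) (b := p) (c := s) (d := q) (by omega) (by omega) (by omega)
                      have q1 := four (σ := σ) (a := t) (b := s) (c := r) (d := q) (by omega) (by omega) (by omega)
                      have q2 := four (σ := σ) (a := t) (b := p) (c := s) (d := r) (by omega) (by omega) (by omega)
                      have q3 := four (σ := σ) (a := t) (b := p) (c := r) (d := q) (by omega) (by omega) (by omega)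
                      have q4 := four (σ := σ) (a := p) (b := s) (c := r) (d := q) (by omega) (by omega) (by omega)
                      grind
                    · rw [ccw_iff4 (a := t) (b := p) (c := s) (by omega) (by omega)] at h1
                      rw [ccw_iff1 (a := t) (b := s) (c := q) (by omega) (by omega)] at h2
                      rw [ccw_iff1 (a := t) (b := s) (c := r) (by omega) (by omega)] at h3
                      rw [ccw_iff1 (a := t) (b := p) (c := q) (by omega) (by omega)] at h4
                      rw [ccw_iff1 (a := t) (b := q) (c := r) (by omega) (by omega)] at h5
                      rw [ccw_iff1 (a := t) (b := p) (c := r) (by omega) (by omega)]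
                      have q0 := four (σ := σ) (a := t) (b := p) (c := s) (d := q) (by omega) (by omega) (by omega)
                      have q1 := four (σ := σ) (a := t) (b := s) (c := q) (d := r) (by omega) (by omega) (by omega)
                      have q2 := four (σ := σ) (a := t) (b := p) (c := s) (d := r) (by omega) (by omega) (by omega)
                      have q3 := four (σ := σ) (a := t) (b := p) (c := q) (d := r) (by omega) (by omega) (by omega)
                      have q4 := four (σ := σ) (a := p) (b := s) (c := q) (d := r) (by omega) (by omega) (by omega)
                      grind
      · rcases lt_or_gt_of_ne n_t_q.symm with c101|c101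
        · rcases lt_or_gt_of_ne n_q_r.symm with c102|c102
          · rw [ccw_iff1 (a := t) (b := s) (c := p) (by omega) (by omega)] at h1
            rw [ccw_iff2 (a := q) (b := t) (c := s) (by omega) (by omega)] at h2
            rw [ccw_iff2 (a := r) (b := t) (c := s) (by omega) (by omega)] at h3
            rw [ccw_iff2 (a := q) (b := t) (c := p) (by omega) (by omega)] at h4
            rw [ccw_iff5 (a := r) (b := q) (c := t) (by omega) (by omega)] at h5
            rw [ccw_iff2 (a := r) (b := t) (c := p) (by omega) (by omega)]
            have q0 := four (σ := σ) (a := q) (b := t) (c := s) (d := p) (by omega) (by omega) (by omega)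
            have q1 := four (σ := σ) (a := r) (b := q) (c := t) (d := s) (by omega) (by omega) (by omega)
            have q2 := four (σ := σ) (a := r) (b := t) (c := s) (d := p) (by omega) (by omega) (by omega)
            have q3 := four (σ := σ) (a := r) (b := q) (c := t) (d := p) (by omega) (by omega) (by omega)
            have q4 := four (σ := σ) (a := r) (b := q) (c := s) (d := p) (by omega) (by omega) (by omega)
            grind
          · rcases lt_or_gt_of_ne n_t_r.symm with c103|c103
            · rw [ccw_iff1 (a := t) (b := s) (c := p) (by omega) (by omega)] at h1
              rw [ccw_iff2 (a := q) (b := t) (c := s) (by omega) (by omega)] at h2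
              rw [ccw_iff2 (a := r) (b := t) (c := s) (by omega) (by omega)] at h3
              rw [ccw_iff2 (a := q) (b := t) (c := p) (by omega) (by omega)] at h4
              rw [ccw_iff3 (a := q) (b := r) (c := t) (by omega) (by omega)] at h5
              rw [ccw_iff2 (a := r) (b := t) (c := p) (by omega) (by omega)]
              have q0 := four (σ := σ) (a := q) (b := t) (c := s) (d := p) (by omega) (by omega) (by omega)
              have q1 := four (σ := σ) (a := q) (b := r) (c := t) (d := s) (by omega) (by omega) (by omega)
              have q2 := four (σ := σ) (a := r) (b := t) (c := s) (d := p) (by omega) (by omega) (by omega)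
              have q3 := four (σ := σ) (a := q) (b := r) (c := t) (d := p) (by omega) (by omega) (by omega)
              have q4 := four (σ := σ) (a := q) (b := r) (c := s) (d := p) (by omega) (by omega) (by omega)
              grind
            · rcases lt_or_gt_of_ne n_s_r.symm with c104|c104
              · rw [ccw_iff1 (a := t) (b := s) (c := p) (by omega) (by omega)] at h1
                rw [ccw_iff2 (a := q) (b := t) (c := s) (by omega) (by omega)] at h2
                rw [ccw_iff4 (a := t) (b := r) (c := s) (by omega) (by omega)] at h3
                rw [ccw_iff2 (a := q) (b := t) (c := p) (by omega) (by omega)] at h4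
                rw [ccw_iff6 (a := q) (b := t) (c := r) (by omega) (by omega)] at h5
                rw [ccw_iff4 (a := t) (b := r) (c := p) (by omega) (by omega)]
                have q0 := four (σ := σ) (a := q) (b := t) (c := s) (d := p) (by omega) (by omega) (by omega)
                have q1 := four (σ := σ) (a := q) (b := t) (c := r) (d := s) (by omega) (by omega) (by omega)
                have q2 := four (σ := σ) (a := t) (b := r) (c := s) (d := p) (by omega) (by omega) (by omega)
                have q3 := four (σ := σ) (a := q) (b := t) (c := r) (d := p) (by omega) (by omega) (by omega)
                have q4 := four (σ := σ) (a := q) (b := r) (c := s) (d := p) (by omega) (by omega) (by omega)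
                grind
              · rcases lt_or_gt_of_ne n_p_r.symm with c105|c105
                · rw [ccw_iff1 (a := t) (b := s) (c := p) (by omega) (by omega)] at h1
                  rw [ccw_iff2 (a := q) (b := t) (c := s) (by omega) (by omega)] at h2
                  rw [ccw_iff1 (a := t) (b := s) (c := r) (by omega) (by omega)] at h3
                  rw [ccw_iff2 (a := q) (b := t) (c := p) (by omega) (by omega)] at h4
                  rw [ccw_iff6 (a := q) (b := t) (c := r) (by omega) (by omega)] at h5
                  rw [ccw_iff4 (a := t) (b := r) (c := p) (by omega) (by omega)]
                  have q0 := four (σ := σ) (a := q) (b := t) (c := s) (d := p) (by omega) (by omega) (by omega)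
                  have q1 := four (σ := σ) (a := q) (b := t) (c := s) (d := r) (by omega) (by omega) (by omega)
                  have q2 := four (σ := σ) (a := t) (b := s) (c := r) (d := p) (by omega) (by omega) (by omega)
                  have q3 := four (σ := σ) (a := q) (b := t) (c := r) (d := p) (by omega) (by omega) (by omega)
                  have q4 := four (σ := σ) (a := q) (b := s) (c := r) (d := p) (by omega) (by omega) (by omega)
                  grind
                · rw [ccw_iff1 (a := t) (b := s) (c := p) (by omega) (by omega)] at h1
                  rw [ccw_iff2 (a := q) (b := t) (c := s) (by omega) (by omega)] at h2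
                  rw [ccw_iff1 (a := t) (b := s) (c := r) (by omega) (by omega)] at h3
                  rw [ccw_iff2 (a := q) (b := t) (c := p) (by omega) (by omega)] at h4
                  rw [ccw_iff6 (a := q) (b := t) (c := r) (by omega) (by omega)] at h5
                  rw [ccw_iff1 (a := t) (b := p) (c := r) (by omega) (by omega)]
                  have q0 := four (σ := σ) (a := q) (b := t) (c := s) (d := p) (by omega) (by omega) (by omega)
                  have q1 := four (σ := σ) (a := q) (b := t) (c := s) (d := r) (by omega) (by omega) (by omega)
                  have q2 := four (σ := σ) (a := t) (b := s) (c := p) (d := r) (by omega) (by omega) (by omega)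
                  have q3 := four (σ := σ) (a := q) (b := t) (c := p) (d := r) (by omega) (by omega) (by omega)
                  have q4 := four (σ := σ) (a := q) (b := s) (c := p) (d := r) (by omega) (by omega) (by omega)
                  grind
        · rcases lt_or_gt_of_ne n_s_q.symm with c106|c106
          · rcases lt_or_gt_of_ne n_t_r.symm with c107|c107
            · rw [ccw_iff1 (a := t) (b := s) (c := p) (by omega) (by omega)] at h1
              rw [ccw_iff4 (a := t) (b := q) (c := s) (by omega) (by omega)] at h2
              rw [ccw_iff2 (a := r) (b := t) (c := s) (by omega) (by omega)] at h3
              rw [ccw_iff4 (a := t) (b := q) (c := p) (by omega) (by omega)] at h4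
              rw [ccw_iff2 (a := r) (b := t) (c := q) (by omega) (by omega)] at h5
              rw [ccw_iff2 (a := r) (b := t) (c := p) (by omega) (by omega)]
              have q0 := four (σ := σ) (a := t) (b := q) (c := s) (d := p) (by omega) (by omega) (by omega)
              have q1 := four (σ := σ) (a := r) (b := t) (c := q) (d := s) (by omega) (by omega) (by omega)
              have q2 := four (σ := σ) (a := r) (b := t) (c := s) (d := p) (by omega) (by omega) (by omega)
              have q3 := four (σ := σ) (a := r) (b := t) (c := q) (d := p) (by omega) (by omega) (by omega)
              have q4 := four (σ := σ) (a := r) (b := q) (c := s) (d := p) (by omega) (by omega) (by omega)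
              grind
            · rcases lt_or_gt_of_ne n_q_r.symm with c108|c108
              · rw [ccw_iff1 (a := t) (b := s) (c := p) (by omega) (by omega)] at h1
                rw [ccw_iff4 (a := t) (b := q) (c := s) (by omega) (by omega)] at h2
                rw [ccw_iff4 (a := t) (b := r) (c := s) (by omega) (by omega)] at h3
                rw [ccw_iff4 (a := t) (b := q) (c := p) (by omega) (by omega)] at h4
                rw [ccw_iff4 (a := t) (b := r) (c := q) (by omega) (by omega)] at h5
                rw [ccw_iff4 (a := t) (b := r) (c := p) (by omega) (by omega)]
                have q0 := four (σ := σ) (a := t) (b := q) (c := s) (d := p) (by omega) (by omega) (by omega)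
                have q1 := four (σ := σ) (a := t) (b := r) (c := q) (d := s) (by omega) (by omega) (by omega)
                have q2 := four (σ := σ) (a := t) (b := r) (c := s) (d := p) (by omega) (by omega) (by omega)
                have q3 := four (σ := σ) (a := t) (b := r) (c := q) (d := p) (by omega) (by omega) (by omega)
                have q4 := four (σ := σ) (a := r) (b := q) (c := s) (d := p) (by omega) (by omega) (by omega)
                grind
              · rcases lt_or_gt_of_ne n_s_r.symm with c109|c109
                · rw [ccw_iff1 (a := t) (b := s) (c := p) (by omega) (by omega)] at h1
                  rw [ccw_iff4 (a := t) (b := q) (c := s) (by omega) (by omega)] at h2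
                  rw [ccw_iff4 (a := t) (b := r) (c := s) (by omega) (by omega)] at h3
                  rw [ccw_iff4 (a := t) (b := q) (c := p) (by omega) (by omega)] at h4
                  rw [ccw_iff1 (a := t) (b := q) (c := r) (by omega) (by omega)] at h5
                  rw [ccw_iff4 (a := t) (b := r) (c := p) (by omega) (by omega)]
                  have q0 := four (σ := σ) (a := t) (b := q) (c := s) (d := p) (by omega) (by omega) (by omega)
                  have q1 := four (σ := σ) (a := t) (b := q) (c := r) (d := s) (by omega) (by omega) (by omega)
                  have q2 := four (σ := σ) (a := t) (b := r) (c := s) (d := p) (by omega) (by omega) (by omega)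
                  have q3 := four (σ := σ) (a := t) (b := q) (c := r) (d := p) (by omega) (by omega) (by omega)
                  have q4 := four (σ := σ) (a := q) (b := r) (c := s) (d := p) (by omega) (by omega) (by omega)
                  grind
                · rcases lt_or_gt_of_ne n_p_r.symm with c110|c110
                  · rw [ccw_iff1 (a := t) (b := s) (c := p) (by omega) (by omega)] at h1
                    rw [ccw_iff4 (a := t) (b := q) (c := s) (by omega) (by omega)] at h2
                    rw [ccw_iff1 (a := t) (b := s) (c := r) (by omega) (by omega)] at h3
                    rw [ccw_iff4 (a := t) (b := q) (c := p) (by omega) (by omega)] at h4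
                    rw [ccw_iff1 (a := t) (b := q) (c := r) (by omega) (by omega)] at h5
                    rw [ccw_iff4 (a := t) (b := r) (c := p) (by omega) (by omega)]
                    have q0 := four (σ := σ) (a := t) (b := q) (c := s) (d := p) (by omega) (by omega) (by omega)
                    have q1 := four (σ := σ) (a := t) (b := q) (c := s) (d := r) (by omega) (by omega) (by omega)
                    have q2 := four (σ := σ) (a := t) (b := s) (c := r) (d := p) (by omega) (by omega) (by omega)
                    have q3 := four (σ := σ) (a := t) (b := q) (c := r) (d := p) (by omega) (by omega) (by omega)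
                    have q4 := four (σ := σ) (a := q) (b := s) (c := r) (d := p) (by omega) (by omega) (by omega)
                    grind
                  · rw [ccw_iff1 (a := t) (b := s) (c := p) (by omega) (by omega)] at h1
                    rw [ccw_iff4 (a := t) (b := q) (c := s) (by omega) (by omega)] at h2
                    rw [ccw_iff1 (a := t) (b := s) (c := r) (by omega) (by omega)] at h3
                    rw [ccw_iff4 (a := t) (b := q) (c := p) (by omega) (by omega)] at h4
                    rw [ccw_iff1 (a := t) (b := q) (c := r) (by omega) (by omega)] at h5
                    rw [ccw_iff1 (a := t) (b := p) (c := r) (by omega) (by omega)]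
                    have q0 := four (σ := σ) (a := t) (b := q) (c := s) (d := p) (by omega) (by omega) (by omega)
                    have q1 := four (σ := σ) (a := t) (b := q) (c := s) (d := r) (by omega) (by omega) (by omega)
                    have q2 := four (σ := σ) (a := t) (b := s) (c := p) (d := r) (by omega) (by omega) (by omega)
                    have q3 := four (σ := σ) (a := t) (b := q) (c := p) (d := r) (by omega) (by omega) (by omega)
                    have q4 := four (σ := σ) (a := q) (b := s) (c := p) (d := r) (by omega) (by omega) (by omega)
                    grind
          · rcases lt_or_gt_of_ne n_p_q.symm with c111|c111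
            · rcases lt_or_gt_of_ne n_t_r.symm with c112|c112
              · rw [ccw_iff1 (a := t) (b := s) (c := p) (by omega) (by omega)] at h1
                rw [ccw_iff1 (a := t) (b := s) (c := q) (by omega) (by omega)] at h2
                rw [ccw_iff2 (a := r) (b := t) (c := s) (by omega) (by omega)] at h3
                rw [ccw_iff4 (a := t) (b := q) (c := p) (by omega) (by omega)] at h4
                rw [ccw_iff2 (a := r) (b := t) (c := q) (by omega) (by omega)] at h5
                rw [ccw_iff2 (a := r) (b := t) (c := p) (by omega) (by omega)]
                have q0 := four (σ := σ) (a := t) (b := s) (c := q) (d := p) (by omega) (by omega) (by omega)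
                have q1 := four (σ := σ) (a := r) (b := t) (c := s) (d := q) (by omega) (by omega) (by omega)
                have q2 := four (σ := σ) (a := r) (b := t) (c := s) (d := p) (by omega) (by omega) (by omega)
                have q3 := four (σ := σ) (a := r) (b := t) (c := q) (d := p) (by omega) (by omega) (by omega)
                have q4 := four (σ := σ) (a := r) (b := s) (c := q) (d := p) (by omega) (by omega) (by omega)
                grind
              · rcases lt_or_gt_of_ne n_s_r.symm with c113|c113
                · rw [ccw_iff1 (a := t) (b := s) (c := p) (by omega) (by omega)] at h1
                  rw [ccw_iff1 (a := t) (b := s) (c := q) (by omega) (by omega)] at h2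
                  rw [ccw_iff4 (a := t) (b := r) (c := s) (by omega) (by omega)] at h3
                  rw [ccw_iff4 (a := t) (b := q) (c := p) (by omega) (by omega)] at h4
                  rw [ccw_iff4 (a := t) (b := r) (c := q) (by omega) (by omega)] at h5
                  rw [ccw_iff4 (a := t) (b := r) (c := p) (by omega) (by omega)]
                  have q0 := four (σ := σ) (a := t) (b := s) (c := q) (d := p) (by omega) (by omega) (by omega)
                  have q1 := four (σ := σ) (a := t) (b := r) (c := s) (d := q) (by omega) (by omega) (by omega)
                  have q2 := four (σ := σ) (a := t) (b := r) (c := s) (d := p) (by omega) (by omega) (by omega)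
                  have q3 := four (σ := σ) (a := t) (b := r) (c := q) (d := p) (by omega) (by omega) (by omega)
                  have q4 := four (σ := σ) (a := r) (b := s) (c := q) (d := p) (by omega) (by omega) (by omega)
                  grind
                · rcases lt_or_gt_of_ne n_q_r.symm with c114|c114
                  · rw [ccw_iff1 (a := t) (b := s) (c := p) (by omega) (by omega)] at h1
                    rw [ccw_iff1 (a := t) (b := s) (c := q) (by omega) (by omega)] at h2
                    rw [ccw_iff1 (a := t) (b := s) (c := r) (by omega) (by omega)] at h3
                    rw [ccw_iff4 (a := t) (b := q) (c := p) (by omega) (by omega)] at h4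
                    rw [ccw_iff4 (a := t) (b := r) (c := q) (by omega) (by omega)] at h5
                    rw [ccw_iff4 (a := t) (b := r) (c := p) (by omega) (by omega)]
                    have q0 := four (σ := σ) (a := t) (b := s) (c := q) (d := p) (by omega) (by omega) (by omega)
                    have q1 := four (σ := σ) (a := t) (b := s) (c := r) (d := q) (by omega) (by omega) (by omega)
                    have q2 := four (σ := σ) (a := t) (b := s) (c := r) (d := p) (by omega) (by omega) (by omega)
                    have q3 := four (σ := σ) (a := t) (b := r) (c := q) (d := p) (by omega) (by omega) (by omega)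
                    have q4 := four (σ := σ) (a := s) (b := r) (c := q) (d := p) (by omega) (by omega) (by omega)
                    grind
                  · rcases lt_or_gt_of_ne n_p_r.symm with c115|c115
                    · rw [ccw_iff1 (a := t) (b := s) (c := p) (by omega) (by omega)] at h1
                      rw [ccw_iff1 (a := t) (b := s) (c := q) (by omega) (by omega)] at h2
                      rw [ccw_iff1 (a := t) (b := s) (c := r) (by omega) (by omega)] at h3
                      rw [ccw_iff4 (a := t) (b := q) (c := p) (by omega) (by omega)] at h4
                      rw [ccw_iff1 (a := t) (b := q) (c := r) (by omega) (by omega)] at h5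
                      rw [ccw_iff4 (a := t) (b := r) (c := p) (by omega) (by omega)]
                      have q0 := four (σ := σ) (a := t) (b := s) (c := q) (d := p) (by omega) (by omega) (by omega)
                      have q1 := four (σ := σ) (a := t) (b := s) (c := q) (d := r) (by omega) (by omega) (by omega)
                      have q2 := four (σ := σ) (a := t) (b := s) (c := r) (d := p) (by omega) (by omega) (by omega)
                      have q3 := four (σ := σ) (a := t) (b := q) (c := r) (d := p) (by omega) (by omega) (by omega)
                      have q4 := four (σ := σ) (a := s) (b := q) (c := r) (d := p) (by omega) (by omega) (by omega)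
                      grind
                    · rw [ccw_iff1 (a := t) (b := s) (c := p) (by omega) (by omega)] at h1
                      rw [ccw_iff1 (a := t) (b := s) (c := q) (by omega) (by omega)] at h2
                      rw [ccw_iff1 (a := t) (b := s) (c := r) (by omega) (by omega)] at h3
                      rw [ccw_iff4 (a := t) (b := q) (c := p) (by omega) (by omega)] at h4
                      rw [ccw_iff1 (a := t) (b := q) (c := r) (by omega) (by omega)] at h5
                      rw [ccw_iff1 (a := t) (b := p) (c := r) (by omega) (by omega)]
                      have q0 := four (σ := σ) (a := t) (b := s) (c := q) (d := p) (by omega) (by omega) (by omega)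
                      have q1 := four (σ := σ) (a := t) (b := s) (c := q) (d := r) (by omega) (by omega) (by omega)
                      have q2 := four (σ := σ) (a := t) (b := s) (c := p) (d := r) (by omega) (by omega) (by omega)
                      have q3 := four (σ := σ) (a := t) (b := q) (c := p) (d := r) (by omega) (by omega) (by omega)
                      have q4 := four (σ := σ) (a := s) (b := q) (c := p) (d := r) (by omega) (by omega) (by omega)
                      grind
            · rcases lt_or_gt_of_ne n_t_r.symm with c116|c116
              · rw [ccw_iff1 (a := t) (b := s) (c := p) (by omega) (by omega)] at h1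
                rw [ccw_iff1 (a := t) (b := s) (c := q) (by omega) (by omega)] at h2
                rw [ccw_iff2 (a := r) (b := t) (c := s) (by omega) (by omega)] at h3
                rw [ccw_iff1 (a := t) (b := p) (c := q) (by omega) (by omega)] at h4
                rw [ccw_iff2 (a := r) (b := t) (c := q) (by omega) (by omega)] at h5
                rw [ccw_iff2 (a := r) (b := t) (c := p) (by omega) (by omega)]
                have q0 := four (σ := σ) (a := t) (b := s) (c := p) (d := q) (by omega) (by omega) (by omega)
                have q1 := four (σ := σ) (a := r) (b := t) (c := s) (d := q) (by omega) (by omega) (by omega)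
                have q2 := four (σ := σ) (a := r) (b := t) (c := s) (d := p) (by omega) (by omega) (by omega)
                have q3 := four (σ := σ) (a := r) (b := t) (c := p) (d := q) (by omega) (by omega) (by omega)
                have q4 := four (σ := σ) (a := r) (b := s) (c := p) (d := q) (by omega) (by omega) (by omega)
                grind
              · rcases lt_or_gt_of_ne n_s_r.symm with c117|c117
                · rw [ccw_iff1 (a := t) (b := s) (c := p) (by omega) (by omega)] at h1
                  rw [ccw_iff1 (a := t) (b := s) (c := q) (by omega) (by omega)] at h2
                  rw [ccw_iff4 (a := t) (b := r) (c := s) (by omega) (by omega)] at h3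
                  rw [ccw_iff1 (a := t) (b := p) (c := q) (by omega) (by omega)] at h4
                  rw [ccw_iff4 (a := t) (b := r) (c := q) (by omega) (by omega)] at h5
                  rw [ccw_iff4 (a := t) (b := r) (c := p) (by omega) (by omega)]
                  have q0 := four (σ := σ) (a := t) (b := s) (c := p) (d := q) (by omega) (by omega) (by omega)
                  have q1 := four (σ := σ) (a := t) (b := r) (c := s) (d := q) (by omega) (by omega) (by omega)
                  have q2 := four (σ := σ) (a := t) (b := r) (c := s) (d := p) (by omega) (by omega) (by omega)
                  have q3 := four (σ := σ) (a := t) (b := r) (c := p) (d := q) (by omega) (by omega) (by omega)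
                  have q4 := four (σ := σ) (a := r) (b := s) (c := p) (d := q) (by omega) (by omega) (by omega)
                  grind
                · rcases lt_or_gt_of_ne n_p_r.symm with c118|c118
                  · rw [ccw_iff1 (a := t) (b := s) (c := p) (by omega) (by omega)] at h1
                    rw [ccw_iff1 (a := t) (b := s) (c := q) (by omega) (by omega)] at h2
                    rw [ccw_iff1 (a := t) (b := s) (c := r) (by omega) (by omega)] at h3
                    rw [ccw_iff1 (a := t) (b := p) (c := q) (by omega) (by omega)] at h4
                    rw [ccw_iff4 (a := t) (b := r) (c := q) (by omega) (by omega)] at h5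
                    rw [ccw_iff4 (a := t) (b := r) (c := p) (by omega) (by omega)]
                    have q0 := four (σ := σ) (a := t) (b := s) (c := p) (d := q) (by omega) (by omega) (by omega)
                    have q1 := four (σ := σ) (a := t) (b := s) (c := r) (d := q) (by omega) (by omega) (by omega)
                    have q2 := four (σ := σ) (a := t) (b := s) (c := r) (d := p) (by omega) (by omega) (by omega)
                    have q3 := four (σ := σ) (a := t) (b := r) (c := p) (d := q) (by omega) (by omega) (by omega)
                    have q4 := four (σ := σ) (a := s) (b := r) (c := p) (d := q) (by omega) (by omega) (by omega)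
                    grind
                  · rcases lt_or_gt_of_ne n_q_r.symm with c119|c119
                    · rw [ccw_iff1 (a := t) (b := s) (c := p) (by omega) (by omega)] at h1
                      rw [ccw_iff1 (a := t) (b := s) (c := q) (by omega) (by omega)] at h2
                      rw [ccw_iff1 (a := t) (b := s) (c := r) (by omega) (by omega)] at h3
                      rw [ccw_iff1 (a := t) (b := p) (c := q) (by omega) (by omega)] at h4
                      rw [ccw_iff4 (a := t) (b := r) (c := q) (by omega) (by omega)] at h5
                      rw [ccw_iff1 (a := t) (b := p) (c := r) (by omega) (by omega)]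
                      have q0 := four (σ := σ) (a := t) (b := s) (c := p) (d := q) (by omega) (by omega) (by omega)
                      have q1 := four (σ := σ) (a := t) (b := s) (c := r) (d := q) (by omega) (by omega) (by omega)
                      have q2 := four (σ := σ) (a := t) (b := s) (c := p) (d := r) (by omega) (by omega) (by omega)
                      have q3 := four (σ := σ) (a := t) (b := p) (c := r) (d := q) (by omega) (by omega) (by omega)
                      have q4 := four (σ := σ) (a := s) (b := p) (c := r) (d := q) (by omega) (by omega) (by omega)
                      grind
                    · rw [ccw_iff1 (a := t) (b := s) (c := p) (by omega) (by omega)] at h1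
                      rw [ccw_iff1 (a := t) (b := s) (c := q) (by omega) (by omega)] at h2
                      rw [ccw_iff1 (a := t) (b := s) (c := r) (by omega) (by omega)] at h3
                      rw [ccw_iff1 (a := t) (b := p) (c := q) (by omega) (by omega)] at h4
                      rw [ccw_iff1 (a := t) (b := q) (c := r) (by omega) (by omega)] at h5
                      rw [ccw_iff1 (a := t) (b := p) (c := r) (by omega) (by omega)]
                      have q0 := four (σ := σ) (a := t) (b := s) (c := p) (d := q) (by omega) (by omega) (by omega)
                      have q1 := four (σ := σ) (a := t) (b := s) (c := q) (d := r) (by omega) (by omega) (by omega)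
                      have q2 := four (σ := σ) (a := t) (b := s) (c := p) (d := r) (by omega) (by omega) (by omega)
                      have q3 := four (σ := σ) (a := t) (b := p) (c := q) (d := r) (by omega) (by omega) (by omega)
                      have q4 := four (σ := σ) (a := s) (b := p) (c := q) (d := r) (by omega) (by omega) (by omega)
                      grind

/-- Knuth rule 5, dual form. -/
theorem ax5d {t s p q r : ℤ} (h1 : σ.ccw s t p) (h2 : σ.ccw s t q) (h3 : σ.ccw s t r) (h4 : σ.ccw t p q) (h5 : σ.ccw t q r) : σ.ccw t p r := by
  have n_s_t := ne12 h1
  have n_t_p := ne23 h1
  have n_s_p := ne13 h1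
  have n_t_q := ne23 h2
  have n_s_q := ne13 h2
  have n_t_r := ne23 h3
  have n_s_r := ne13 h3
  have n_p_q := ne23 h4
  have n_q_r := ne23 h5
  have n_p_r : p ≠ r := by rintro rfl; exact asymm' h4 h5
  rcases lt_or_gt_of_ne n_s_t with c1|c1
  · rcases lt_or_gt_of_ne n_s_p.symm with c2|c2
    · rcases lt_or_gt_of_ne n_p_q.symm with c3|c3
      · rcases lt_or_gt_of_ne n_q_r.symm with c4|c4
        · rw [ccw_iff2 (a := p) (b := s) (c := t) (by omega) (by omega)] at h1
          rw [ccw_iff2 (a := q) (b := s) (c := t) (by omega) (by omega)] at h2
          rw [ccw_iff2 (a := r) (b := s) (c := t) (by omega) (by omega)] at h3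
          rw [ccw_iff5 (a := q) (b := p) (c := t) (by omega) (by omega)] at h4
          rw [ccw_iff5 (a := r) (b := q) (c := t) (by omega) (by omega)] at h5
          rw [ccw_iff5 (a := r) (b := p) (c := t) (by omega) (by omega)]
          have q0 := four (σ := σ) (a := q) (b := p) (c := s) (d := t) (by omega) (by omega) (by omega)
          have q1 := four (σ := σ) (a := r) (b := q) (c := s) (d := t) (by omega) (by omega) (by omega)
          have q2 := four (σ := σ) (a := r) (b := p) (c := s) (d := t) (by omega) (by omega) (by omega)
          have q3 := four (σ := σ) (a := r) (b := q) (c := p) (d := t) (by omega) (by omega) (by omega)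
          have q4 := four (σ := σ) (a := r) (b := q) (c := p) (d := s) (by omega) (by omega) (by omega)
          grind
        · rcases lt_or_gt_of_ne n_p_r.symm with c5|c5
          · rw [ccw_iff2 (a := p) (b := s) (c := t) (by omega) (by omega)] at h1
            rw [ccw_iff2 (a := q) (b := s) (c := t) (by omega) (by omega)] at h2
            rw [ccw_iff2 (a := r) (b := s) (c := t) (by omega) (by omega)] at h3
            rw [ccw_iff5 (a := q) (b := p) (c := t) (by omega) (by omega)] at h4
            rw [ccw_iff3 (a := q) (b := r) (c := t) (by omega) (by omega)] at h5
            rw [ccw_iff5 (a := r) (b := p) (c := t) (by omega) (by omega)]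
            have q0 := four (σ := σ) (a := q) (b := p) (c := s) (d := t) (by omega) (by omega) (by omega)
            have q1 := four (σ := σ) (a := q) (b := r) (c := s) (d := t) (by omega) (by omega) (by omega)
            have q2 := four (σ := σ) (a := r) (b := p) (c := s) (d := t) (by omega) (by omega) (by omega)
            have q3 := four (σ := σ) (a := q) (b := r) (c := p) (d := t) (by omega) (by omega) (by omega)
            have q4 := four (σ := σ) (a := q) (b := r) (c := p) (d := s) (by omega) (by omega) (by omega)
            grind
          · rcases lt_or_gt_of_ne n_s_r.symm with c6|c6
            · rw [ccw_iff2 (a := p) (b := s) (c := t) (by omega) (by omega)] at h1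
              rw [ccw_iff2 (a := q) (b := s) (c := t) (by omega) (by omega)] at h2
              rw [ccw_iff2 (a := r) (b := s) (c := t) (by omega) (by omega)] at h3
              rw [ccw_iff5 (a := q) (b := p) (c := t) (by omega) (by omega)] at h4
              rw [ccw_iff3 (a := q) (b := r) (c := t) (by omega) (by omega)] at h5
              rw [ccw_iff3 (a := p) (b := r) (c := t) (by omega) (by omega)]
              have q0 := four (σ := σ) (a := q) (b := p) (c := s) (d := t) (by omega) (by omega) (by omega)
              have q1 := four (σ := σ) (a := q) (b := r) (c := s) (d := t) (by omega) (by omega) (by omega)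
              have q2 := four (σ := σ) (a := p) (b := r) (c := s) (d := t) (by omega) (by omega) (by omega)
              have q3 := four (σ := σ) (a := q) (b := p) (c := r) (d := t) (by omega) (by omega) (by omega)
              have q4 := four (σ := σ) (a := q) (b := p) (c := r) (d := s) (by omega) (by omega) (by omega)
              grind
            · rcases lt_or_gt_of_ne n_t_r.symm with c7|c7
              · rw [ccw_iff2 (a := p) (b := s) (c := t) (by omega) (by omega)] at h1
                rw [ccw_iff2 (a := q) (b := s) (c := t) (by omega) (by omega)] at h2
                rw [ccw_iff4 (a := s) (b := r) (c := t) (by omega) (by omega)] at h3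
                rw [ccw_iff5 (a := q) (b := p) (c := t) (by omega) (by omega)] at h4
                rw [ccw_iff3 (a := q) (b := r) (c := t) (by omega) (by omega)] at h5
                rw [ccw_iff3 (a := p) (b := r) (c := t) (by omega) (by omega)]
                have q0 := four (σ := σ) (a := q) (b := p) (c := s) (d := t) (by omega) (by omega) (by omega)
                have q1 := four (σ := σ) (a := q) (b := s) (c := r) (d := t) (by omega) (by omega) (by omega)
                have q2 := four (σ := σ) (a := p) (b := s) (c := r) (d := t) (by omega) (by omega) (by omega)
                have q3 := four (σ := σ) (a := q) (b := p) (c := r) (d := t) (by omega) (by omega) (by omega)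
                have q4 := four (σ := σ) (a := q) (b := p) (c := s) (d := r) (by omega) (by omega) (by omega)
                grind
              · rw [ccw_iff2 (a := p) (b := s) (c := t) (by omega) (by omega)] at h1
                rw [ccw_iff2 (a := q) (b := s) (c := t) (by omega) (by omega)] at h2
                rw [ccw_iff1 (a := s) (b := t) (c := r) (by omega) (by omega)] at h3
                rw [ccw_iff5 (a := q) (b := p) (c := t) (by omega) (by omega)] at h4
                rw [ccw_iff6 (a := q) (b := t) (c := r) (by omega) (by omega)] at h5
                rw [ccw_iff6 (a := p) (b := t) (c := r) (by omega) (by omega)]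
                have q0 := four (σ := σ) (a := q) (b := p) (c := s) (d := t) (by omega) (by omega) (by omega)
                have q1 := four (σ := σ) (a := q) (b := s) (c := t) (d := r) (by omega) (by omega) (by omega)
                have q2 := four (σ := σ) (a := p) (b := s) (c := t) (d := r) (by omega) (by omega) (by omega)
                have q3 := four (σ := σ) (a := q) (b := p) (c := t) (d := r) (by omega) (by omega) (by omega)
                have q4 := four (σ := σ) (a := q) (b := p) (c := s) (d := r) (by omega) (by omega) (by omega)
                grind
      · rcases lt_or_gt_of_ne n_s_q.symm with c8|c8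
        · rcases lt_or_gt_of_ne n_p_r.symm with c9|c9
          · rw [ccw_iff2 (a := p) (b := s) (c := t) (by omega) (by omega)] at h1
            rw [ccw_iff2 (a := q) (b := s) (c := t) (by omega) (by omega)] at h2
            rw [ccw_iff2 (a := r) (b := s) (c := t) (by omega) (by omega)] at h3
            rw [ccw_iff3 (a := p) (b := q) (c := t) (by omega) (by omega)] at h4
            rw [ccw_iff5 (a := r) (b := q) (c := t) (by omega) (by omega)] at h5
            rw [ccw_iff5 (a := r) (b := p) (c := t) (by omega) (by omega)]
            have q0 := four (σ := σ) (a := p) (b := q) (c := s) (d := t) (by omega) (by omega) (by omega)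
            have q1 := four (σ := σ) (a := r) (b := q) (c := s) (d := t) (by omega) (by omega) (by omega)
            have q2 := four (σ := σ) (a := r) (b := p) (c := s) (d := t) (by omega) (by omega) (by omega)
            have q3 := four (σ := σ) (a := r) (b := p) (c := q) (d := t) (by omega) (by omega) (by omega)
            have q4 := four (σ := σ) (a := r) (b := p) (c := q) (d := s) (by omega) (by omega) (by omega)
            grind
          · rcases lt_or_gt_of_ne n_q_r.symm with c10|c10
            · rw [ccw_iff2 (a := p) (b := s) (c := t) (by omega) (by omega)] at h1
              rw [ccw_iff2 (a := q) (b := s) (c := t) (by omega) (by omega)] at h2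
              rw [ccw_iff2 (a := r) (b := s) (c := t) (by omega) (by omega)] at h3
              rw [ccw_iff3 (a := p) (b := q) (c := t) (by omega) (by omega)] at h4
              rw [ccw_iff5 (a := r) (b := q) (c := t) (by omega) (by omega)] at h5
              rw [ccw_iff3 (a := p) (b := r) (c := t) (by omega) (by omega)]
              have q0 := four (σ := σ) (a := p) (b := q) (c := s) (d := t) (by omega) (by omega) (by omega)
              have q1 := four (σ := σ) (a := r) (b := q) (c := s) (d := t) (by omega) (by omega) (by omega)
              have q2 := four (σ := σ) (a := p) (b := r) (c := s) (d := t) (by omega) (by omega) (by omega)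
              have q3 := four (σ := σ) (a := p) (b := r) (c := q) (d := t) (by omega) (by omega) (by omega)
              have q4 := four (σ := σ) (a := p) (b := r) (c := q) (d := s) (by omega) (by omega) (by omega)
              grind
            · rcases lt_or_gt_of_ne n_s_r.symm with c11|c11
              · rw [ccw_iff2 (a := p) (b := s) (c := t) (by omega) (by omega)] at h1
                rw [ccw_iff2 (a := q) (b := s) (c := t) (by omega) (by omega)] at h2
                rw [ccw_iff2 (a := r) (b := s) (c := t) (by omega) (by omega)] at h3
                rw [ccw_iff3 (a := p) (b := q) (c := t) (by omega) (by omega)] at h4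
                rw [ccw_iff3 (a := q) (b := r) (c := t) (by omega) (by omega)] at h5
                rw [ccw_iff3 (a := p) (b := r) (c := t) (by omega) (by omega)]
                have q0 := four (σ := σ) (a := p) (b := q) (c := s) (d := t) (by omega) (by omega) (by omega)
                have q1 := four (σ := σ) (a := q) (b := r) (c := s) (d := t) (by omega) (by omega) (by omega)
                have q2 := four (σ := σ) (a := p) (b := r) (c := s) (d := t) (by omega) (by omega) (by omega)
                have q3 := four (σ := σ) (a := p) (b := q) (c := r) (d := t) (by omega) (by omega) (by omega)
                have q4 := four (σ := σ) (a := p) (b := q) (c := r) (d := s) (by omega) (by omega) (by omega)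
                grind
              · rcases lt_or_gt_of_ne n_t_r.symm with c12|c12
                · rw [ccw_iff2 (a := p) (b := s) (c := t) (by omega) (by omega)] at h1
                  rw [ccw_iff2 (a := q) (b := s) (c := t) (by omega) (by omega)] at h2
                  rw [ccw_iff4 (a := s) (b := r) (c := t) (by omega) (by omega)] at h3
                  rw [ccw_iff3 (a := p) (b := q) (c := t) (by omega) (by omega)] at h4
                  rw [ccw_iff3 (a := q) (b := r) (c := t) (by omega) (by omega)] at h5
                  rw [ccw_iff3 (a := p) (b := r) (c := t) (by omega) (by omega)]
                  have q0 := four (σ := σ) (a := p) (b := q) (c := s) (d := t) (by omega) (by omega) (by omega)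
                  have q1 := four (σ := σ) (a := q) (b := s) (c := r) (d := t) (by omega) (by omega) (by omega)
                  have q2 := four (σ := σ) (a := p) (b := s) (c := r) (d := t) (by omega) (by omega) (by omega)
                  have q3 := four (σ := σ) (a := p) (b := q) (c := r) (d := t) (by omega) (by omega) (by omega)
                  have q4 := four (σ := σ) (a := p) (b := q) (c := s) (d := r) (by omega) (by omega) (by omega)
                  grind
                · rw [ccw_iff2 (a := p) (b := s) (c := t) (by omega) (by omega)] at h1
                  rw [ccw_iff2 (a := q) (b := s) (c := t) (by omega) (by omega)] at h2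
                  rw [ccw_iff1 (a := s) (b := t) (c := r) (by omega) (by omega)] at h3
                  rw [ccw_iff3 (a := p) (b := q) (c := t) (by omega) (by omega)] at h4
                  rw [ccw_iff6 (a := q) (b := t) (c := r) (by omega) (by omega)] at h5
                  rw [ccw_iff6 (a := p) (b := t) (c := r) (by omega) (by omega)]
                  have q0 := four (σ := σ) (a := p) (b := q) (c := s) (d := t) (by omega) (by omega) (by omega)
                  have q1 := four (σ := σ) (a := q) (b := s) (c := t) (d := r) (by omega) (by omega) (by omega)
                  have q2 := four (σ := σ) (a := p) (b := s) (c := t) (d := r) (by omega) (by omega) (by omega)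
                  have q3 := four (σ := σ) (a := p) (b := q) (c := t) (d := r) (by omega) (by omega) (by omega)
                  have q4 := four (σ := σ) (a := p) (b := q) (c := s) (d := r) (by omega) (by omega) (by omega)
                  grind
        · rcases lt_or_gt_of_ne n_t_q.symm with c13|c13
          · rcases lt_or_gt_of_ne n_p_r.symm with c14|c14
            · rw [ccw_iff2 (a := p) (b := s) (c := t) (by omega) (by omega)] at h1
              rw [ccw_iff4 (a := s) (b := q) (c := t) (by omega) (by omega)] at h2
              rw [ccw_iff2 (a := r) (b := s) (c := t) (by omega) (by omega)] at h3
              rw [ccw_iff3 (a := p) (b := q) (c := t) (by omega) (by omega)] at h4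
              rw [ccw_iff5 (a := r) (b := q) (c := t) (by omega) (by omega)] at h5
              rw [ccw_iff5 (a := r) (b := p) (c := t) (by omega) (by omega)]
              have q0 := four (σ := σ) (a := p) (b := s) (c := q) (d := t) (by omega) (by omega) (by omega)
              have q1 := four (σ := σ) (a := r) (b := s) (c := q) (d := t) (by omega) (by omega) (by omega)
              have q2 := four (σ := σ) (a := r) (b := p) (c := s) (d := t) (by omega) (by omega) (by omega)
              have q3 := four (σ := σ) (a := r) (b := p) (c := q) (d := t) (by omega) (by omega) (by omega)
              have q4 := four (σ := σ) (a := r) (b := p) (c := s) (d := q) (by omega) (by omega) (by omega)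
              grind
            · rcases lt_or_gt_of_ne n_s_r.symm with c15|c15
              · rw [ccw_iff2 (a := p) (b := s) (c := t) (by omega) (by omega)] at h1
                rw [ccw_iff4 (a := s) (b := q) (c := t) (by omega) (by omega)] at h2
                rw [ccw_iff2 (a := r) (b := s) (c := t) (by omega) (by omega)] at h3
                rw [ccw_iff3 (a := p) (b := q) (c := t) (by omega) (by omega)] at h4
                rw [ccw_iff5 (a := r) (b := q) (c := t) (by omega) (by omega)] at h5
                rw [ccw_iff3 (a := p) (b := r) (c := t) (by omega) (by omega)]
                have q0 := four (σ := σ) (a := p) (b := s) (c := q) (d := t) (by omega) (by omega) (by omega)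
                have q1 := four (σ := σ) (a := r) (b := s) (c := q) (d := t) (by omega) (by omega) (by omega)
                have q2 := four (σ := σ) (a := p) (b := r) (c := s) (d := t) (by omega) (by omega) (by omega)
                have q3 := four (σ := σ) (a := p) (b := r) (c := q) (d := t) (by omega) (by omega) (by omega)
                have q4 := four (σ := σ) (a := p) (b := r) (c := s) (d := q) (by omega) (by omega) (by omega)
                grind
              · rcases lt_or_gt_of_ne n_q_r.symm with c16|c16
                · rw [ccw_iff2 (a := p) (b := s) (c := t) (by omega) (by omega)] at h1
                  rw [ccw_iff4 (a := s) (b := q) (c := t) (by omega) (by omega)] at h2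
                  rw [ccw_iff4 (a := s) (b := r) (c := t) (by omega) (by omega)] at h3
                  rw [ccw_iff3 (a := p) (b := q) (c := t) (by omega) (by omega)] at h4
                  rw [ccw_iff5 (a := r) (b := q) (c := t) (by omega) (by omega)] at h5
                  rw [ccw_iff3 (a := p) (b := r) (c := t) (by omega) (by omega)]
                  have q0 := four (σ := σ) (a := p) (b := s) (c := q) (d := t) (by omega) (by omega) (by omega)
                  have q1 := four (σ := σ) (a := s) (b := r) (c := q) (d := t) (by omega) (by omega) (by omega)
                  have q2 := four (σ := σ) (a := p) (b := s) (c := r) (d := t) (by omega) (by omega) (by omega)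
                  have q3 := four (σ := σ) (a := p) (b := r) (c := q) (d := t) (by omega) (by omega) (by omega)
                  have q4 := four (σ := σ) (a := p) (b := s) (c := r) (d := q) (by omega) (by omega) (by omega)
                  grind
                · rcases lt_or_gt_of_ne n_t_r.symm with c17|c17
                  · rw [ccw_iff2 (a := p) (b := s) (c := t) (by omega) (by omega)] at h1
                    rw [ccw_iff4 (a := s) (b := q) (c := t) (by omega) (by omega)] at h2
                    rw [ccw_iff4 (a := s) (b := r) (c := t) (by omega) (by omega)] at h3
                    rw [ccw_iff3 (a := p) (b := q) (c := t) (by omega) (by omega)] at h4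
                    rw [ccw_iff3 (a := q) (b := r) (c := t) (by omega) (by omega)] at h5
                    rw [ccw_iff3 (a := p) (b := r) (c := t) (by omega) (by omega)]
                    have q0 := four (σ := σ) (a := p) (b := s) (c := q) (d := t) (by omega) (by omega) (by omega)
                    have q1 := four (σ := σ) (a := s) (b := q) (c := r) (d := t) (by omega) (by omega) (by omega)
                    have q2 := four (σ := σ) (a := p) (b := s) (c := r) (d := t) (by omega) (by omega) (by omega)
                    have q3 := four (σ := σ) (a := p) (b := q) (c := r) (d := t) (by omega) (by omega) (by omega)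
                    have q4 := four (σ := σ) (a := p) (b := s) (c := q) (d := r) (by omega) (by omega) (by omega)
                    grind
                  · rw [ccw_iff2 (a := p) (b := s) (c := t) (by omega) (by omega)] at h1
                    rw [ccw_iff4 (a := s) (b := q) (c := t) (by omega) (by omega)] at h2
                    rw [ccw_iff1 (a := s) (b := t) (c := r) (by omega) (by omega)] at h3
                    rw [ccw_iff3 (a := p) (b := q) (c := t) (by omega) (by omega)] at h4
                    rw [ccw_iff6 (a := q) (b := t) (c := r) (by omega) (by omega)] at h5
                    rw [ccw_iff6 (a := p) (b := t) (c := r) (by omega) (by omega)]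
                    have q0 := four (σ := σ) (a := p) (b := s) (c := q) (d := t) (by omega) (by omega) (by omega)
                    have q1 := four (σ := σ) (a := s) (b := q) (c := t) (d := r) (by omega) (by omega) (by omega)
                    have q2 := four (σ := σ) (a := p) (b := s) (c := t) (d := r) (by omega) (by omega) (by omega)
                    have q3 := four (σ := σ) (a := p) (b := q) (c := t) (d := r) (by omega) (by omega) (by omega)
                    have q4 := four (σ := σ) (a := p) (b := s) (c := q) (d := r) (by omega) (by omega) (by omega)
                    grind
          · rcases lt_or_gt_of_ne n_p_r.symm with c18|c18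
            · rw [ccw_iff2 (a := p) (b := s) (c := t) (by omega) (by omega)] at h1
              rw [ccw_iff1 (a := s) (b := t) (c := q) (by omega) (by omega)] at h2
              rw [ccw_iff2 (a := r) (b := s) (c := t) (by omega) (by omega)] at h3
              rw [ccw_iff6 (a := p) (b := t) (c := q) (by omega) (by omega)] at h4
              rw [ccw_iff2 (a := r) (b := t) (c := q) (by omega) (by omega)] at h5
              rw [ccw_iff5 (a := r) (b := p) (c := t) (by omega) (by omega)]
              have q0 := four (σ := σ) (a := p) (b := s) (c := t) (d := q) (by omega) (by omega) (by omega)
              have q1 := four (σ := σ) (a := r) (b := s) (c := t) (d := q) (by omega) (by omega) (by omega)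
              have q2 := four (σ := σ) (a := r) (b := p) (c := s) (d := t) (by omega) (by omega) (by omega)
              have q3 := four (σ := σ) (a := r) (b := p) (c := t) (d := q) (by omega) (by omega) (by omega)
              have q4 := four (σ := σ) (a := r) (b := p) (c := s) (d := q) (by omega) (by omega) (by omega)
              grind
            · rcases lt_or_gt_of_ne n_s_r.symm with c19|c19
              · rw [ccw_iff2 (a := p) (b := s) (c := t) (by omega) (by omega)] at h1
                rw [ccw_iff1 (a := s) (b := t) (c := q) (by omega) (by omega)] at h2
                rw [ccw_iff2 (a := r) (b := s) (c := t) (by omega) (by omega)] at h3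
                rw [ccw_iff6 (a := p) (b := t) (c := q) (by omega) (by omega)] at h4
                rw [ccw_iff2 (a := r) (b := t) (c := q) (by omega) (by omega)] at h5
                rw [ccw_iff3 (a := p) (b := r) (c := t) (by omega) (by omega)]
                have q0 := four (σ := σ) (a := p) (b := s) (c := t) (d := q) (by omega) (by omega) (by omega)
                have q1 := four (σ := σ) (a := r) (b := s) (c := t) (d := q) (by omega) (by omega) (by omega)
                have q2 := four (σ := σ) (a := p) (b := r) (c := s) (d := t) (by omega) (by omega) (by omega)
                have q3 := four (σ := σ) (a := p) (b := r) (c := t) (d := q) (by omega) (by omega) (by omega)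
                have q4 := four (σ := σ) (a := p) (b := r) (c := s) (d := q) (by omega) (by omega) (by omega)
                grind
              · rcases lt_or_gt_of_ne n_t_r.symm with c20|c20
                · rw [ccw_iff2 (a := p) (b := s) (c := t) (by omega) (by omega)] at h1
                  rw [ccw_iff1 (a := s) (b := t) (c := q) (by omega) (by omega)] at h2
                  rw [ccw_iff4 (a := s) (b := r) (c := t) (by omega) (by omega)] at h3
                  rw [ccw_iff6 (a := p) (b := t) (c := q) (by omega) (by omega)] at h4
                  rw [ccw_iff2 (a := r) (b := t) (c := q) (by omega) (by omega)] at h5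
                  rw [ccw_iff3 (a := p) (b := r) (c := t) (by omega) (by omega)]
                  have q0 := four (σ := σ) (a := p) (b := s) (c := t) (d := q) (by omega) (by omega) (by omega)
                  have q1 := four (σ := σ) (a := s) (b := r) (c := t) (d := q) (by omega) (by omega) (by omega)
                  have q2 := four (σ := σ) (a := p) (b := s) (c := r) (d := t) (by omega) (by omega) (by omega)
                  have q3 := four (σ := σ) (a := p) (b := r) (c := t) (d := q) (by omega) (by omega) (by omega)
                  have q4 := four (σ := σ) (a := p) (b := s) (c := r) (d := q) (by omega) (by omega) (by omega)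
                  grind
                · rcases lt_or_gt_of_ne n_q_r.symm with c21|c21
                  · rw [ccw_iff2 (a := p) (b := s) (c := t) (by omega) (by omega)] at h1
                    rw [ccw_iff1 (a := s) (b := t) (c := q) (by omega) (by omega)] at h2
                    rw [ccw_iff1 (a := s) (b := t) (c := r) (by omega) (by omega)] at h3
                    rw [ccw_iff6 (a := p) (b := t) (c := q) (by omega) (by omega)] at h4
                    rw [ccw_iff4 (a := t) (b := r) (c := q) (by omega) (by omega)] at h5
                    rw [ccw_iff6 (a := p) (b := t) (c := r) (by omega) (by omega)]
                    have q0 := four (σ := σ) (a := p) (b := s) (c := t) (d := q) (by omega) (by omega) (by omega)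
                    have q1 := four (σ := σ) (a := s) (b := t) (c := r) (d := q) (by omega) (by omega) (by omega)
                    have q2 := four (σ := σ) (a := p) (b := s) (c := t) (d := r) (by omega) (by omega) (by omega)
                    have q3 := four (σ := σ) (a := p) (b := t) (c := r) (d := q) (by omega) (by omega) (by omega)
                    have q4 := four (σ := σ) (a := p) (b := s) (c := r) (d := q) (by omega) (by omega) (by omega)
                    grind
                  · rw [ccw_iff2 (a := p) (b := s) (c := t) (by omega) (by omega)] at h1
                    rw [ccw_iff1 (a := s) (b := t) (c := q) (by omega) (by omega)] at h2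
                    rw [ccw_iff1 (a := s) (b := t) (c := r) (by omega) (by omega)] at h3
                    rw [ccw_iff6 (a := p) (b := t) (c := q) (by omega) (by omega)] at h4
                    rw [ccw_iff1 (a := t) (b := q) (c := r) (by omega) (by omega)] at h5
                    rw [ccw_iff6 (a := p) (b := t) (c := r) (by omega) (by omega)]
                    have q0 := four (σ := σ) (a := p) (b := s) (c := t) (d := q) (by omega) (by omega) (by omega)
                    have q1 := four (σ := σ) (a := s) (b := t) (c := q) (d := r) (by omega) (by omega) (by omega)
                    have q2 := four (σ := σ) (a := p) (b := s) (c := t) (d := r) (by omega) (by omega) (by omega)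
                    have q3 := four (σ := σ) (a := p) (b := t) (c := q) (d := r) (by omega) (by omega) (by omega)
                    have q4 := four (σ := σ) (a := p) (b := s) (c := q) (d := r) (by omega) (by omega) (by omega)
                    grind
    · rcases lt_or_gt_of_ne n_t_p.symm with c22|c22
      · rcases lt_or_gt_of_ne n_s_q.symm with c23|c23
        · rcases lt_or_gt_of_ne n_q_r.symm with c24|c24
          · rw [ccw_iff4 (a := s) (b := p) (c := t) (by omega) (by omega)] at h1
            rw [ccw_iff2 (a := q) (b := s) (c := t) (by omega) (by omega)] at h2
            rw [ccw_iff2 (a := r) (b := s) (c := t) (by omega) (by omega)] at h3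
            rw [ccw_iff5 (a := q) (b := p) (c := t) (by omega) (by omega)] at h4
            rw [ccw_iff5 (a := r) (b := q) (c := t) (by omega) (by omega)] at h5
            rw [ccw_iff5 (a := r) (b := p) (c := t) (by omega) (by omega)]
            have q0 := four (σ := σ) (a := q) (b := s) (c := p) (d := t) (by omega) (by omega) (by omega)
            have q1 := four (σ := σ) (a := r) (b := q) (c := s) (d := t) (by omega) (by omega) (by omega)
            have q2 := four (σ := σ) (a := r) (b := s) (c := p) (d := t) (by omega) (by omega) (by omega)
            have q3 := four (σ := σ) (a := r) (b := q) (c := p) (d := t) (by omega) (by omega) (by omega)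
            have q4 := four (σ := σ) (a := r) (b := q) (c := s) (d := p) (by omega) (by omega) (by omega)
            grind
          · rcases lt_or_gt_of_ne n_s_r.symm with c25|c25
            · rw [ccw_iff4 (a := s) (b := p) (c := t) (by omega) (by omega)] at h1
              rw [ccw_iff2 (a := q) (b := s) (c := t) (by omega) (by omega)] at h2
              rw [ccw_iff2 (a := r) (b := s) (c := t) (by omega) (by omega)] at h3
              rw [ccw_iff5 (a := q) (b := p) (c := t) (by omega) (by omega)] at h4
              rw [ccw_iff3 (a := q) (b := r) (c := t) (by omega) (by omega)] at h5
              rw [ccw_iff5 (a := r) (b := p) (c := t) (by omega) (by omega)]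
              have q0 := four (σ := σ) (a := q) (b := s) (c := p) (d := t) (by omega) (by omega) (by omega)
              have q1 := four (σ := σ) (a := q) (b := r) (c := s) (d := t) (by omega) (by omega) (by omega)
              have q2 := four (σ := σ) (a := r) (b := s) (c := p) (d := t) (by omega) (by omega) (by omega)
              have q3 := four (σ := σ) (a := q) (b := r) (c := p) (d := t) (by omega) (by omega) (by omega)
              have q4 := four (σ := σ) (a := q) (b := r) (c := s) (d := p) (by omega) (by omega) (by omega)
              grind
            · rcases lt_or_gt_of_ne n_p_r.symm with c26|c26
              · rw [ccw_iff4 (a := s) (b := p) (c := t) (by omega) (by omega)] at h1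
                rw [ccw_iff2 (a := q) (b := s) (c := t) (by omega) (by omega)] at h2
                rw [ccw_iff4 (a := s) (b := r) (c := t) (by omega) (by omega)] at h3
                rw [ccw_iff5 (a := q) (b := p) (c := t) (by omega) (by omega)] at h4
                rw [ccw_iff3 (a := q) (b := r) (c := t) (by omega) (by omega)] at h5
                rw [ccw_iff5 (a := r) (b := p) (c := t) (by omega) (by omega)]
                have q0 := four (σ := σ) (a := q) (b := s) (c := p) (d := t) (by omega) (by omega) (by omega)
                have q1 := four (σ := σ) (a := q) (b := s) (c := r) (d := t) (by omega) (by omega) (by omega)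
                have q2 := four (σ := σ) (a := s) (b := r) (c := p) (d := t) (by omega) (by omega) (by omega)
                have q3 := four (σ := σ) (a := q) (b := r) (c := p) (d := t) (by omega) (by omega) (by omega)
                have q4 := four (σ := σ) (a := q) (b := s) (c := r) (d := p) (by omega) (by omega) (by omega)
                grind
              · rcases lt_or_gt_of_ne n_t_r.symm with c27|c27
                · rw [ccw_iff4 (a := s) (b := p) (c := t) (by omega) (by omega)] at h1
                  rw [ccw_iff2 (a := q) (b := s) (c := t) (by omega) (by omega)] at h2
                  rw [ccw_iff4 (a := s) (b := r) (c := t) (by omega) (by omega)] at h3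
                  rw [ccw_iff5 (a := q) (b := p) (c := t) (by omega) (by omega)] at h4
                  rw [ccw_iff3 (a := q) (b := r) (c := t) (by omega) (by omega)] at h5
                  rw [ccw_iff3 (a := p) (b := r) (c := t) (by omega) (by omega)]
                  have q0 := four (σ := σ) (a := q) (b := s) (c := p) (d := t) (by omega) (by omega) (by omega)
                  have q1 := four (σ := σ) (a := q) (b := s) (c := r) (d := t) (by omega) (by omega) (by omega)
                  have q2 := four (σ := σ) (a := s) (b := p) (c := r) (d := t) (by omega) (by omega) (by omega)
                  have q3 := four (σ := σ) (a := q) (b := p) (c := r) (d := t) (by omega) (by omega) (by omega)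
                  have q4 := four (σ := σ) (a := q) (b := s) (c := p) (d := r) (by omega) (by omega) (by omega)
                  grind
                · rw [ccw_iff4 (a := s) (b := p) (c := t) (by omega) (by omega)] at h1
                  rw [ccw_iff2 (a := q) (b := s) (c := t) (by omega) (by omega)] at h2
                  rw [ccw_iff1 (a := s) (b := t) (c := r) (by omega) (by omega)] at h3
                  rw [ccw_iff5 (a := q) (b := p) (c := t) (by omega) (by omega)] at h4
                  rw [ccw_iff6 (a := q) (b := t) (c := r) (by omega) (by omega)] at h5
                  rw [ccw_iff6 (a := p) (b := t) (c := r) (by omega) (by omega)]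
                  have q0 := four (σ := σ) (a := q) (b := s) (c := p) (d := t) (by omega) (by omega) (by omega)
                  have q1 := four (σ := σ) (a := q) (b := s) (c := t) (d := r) (by omega) (by omega) (by omega)
                  have q2 := four (σ := σ) (a := s) (b := p) (c := t) (d := r) (by omega) (by omega) (by omega)
                  have q3 := four (σ := σ) (a := q) (b := p) (c := t) (d := r) (by omega) (by omega) (by omega)
                  have q4 := four (σ := σ) (a := q) (b := s) (c := p) (d := r) (by omega) (by omega) (by omega)
                  grind
        · rcases lt_or_gt_of_ne n_p_q.symm with c28|c28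
          · rcases lt_or_gt_of_ne n_s_r.symm with c29|c29
            · rw [ccw_iff4 (a := s) (b := p) (c := t) (by omega) (by omega)] at h1
              rw [ccw_iff4 (a := s) (b := q) (c := t) (by omega) (by omega)] at h2
              rw [ccw_iff2 (a := r) (b := s) (c := t) (by omega) (by omega)] at h3
              rw [ccw_iff5 (a := q) (b := p) (c := t) (by omega) (by omega)] at h4
              rw [ccw_iff5 (a := r) (b := q) (c := t) (by omega) (by omega)] at h5
              rw [ccw_iff5 (a := r) (b := p) (c := t) (by omega) (by omega)]
              have q0 := four (σ := σ) (a := s) (b := q) (c := p) (d := t) (by omega) (by omega) (by omega)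
              have q1 := four (σ := σ) (a := r) (b := s) (c := q) (d := t) (by omega) (by omega) (by omega)
              have q2 := four (σ := σ) (a := r) (b := s) (c := p) (d := t) (by omega) (by omega) (by omega)
              have q3 := four (σ := σ) (a := r) (b := q) (c := p) (d := t) (by omega) (by omega) (by omega)
              have q4 := four (σ := σ) (a := r) (b := s) (c := q) (d := p) (by omega) (by omega) (by omega)
              grind
            · rcases lt_or_gt_of_ne n_q_r.symm with c30|c30
              · rw [ccw_iff4 (a := s) (b := p) (c := t) (by omega) (by omega)] at h1
                rw [ccw_iff4 (a := s) (b := q) (c := t) (by omega) (by omega)] at h2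
                rw [ccw_iff4 (a := s) (b := r) (c := t) (by omega) (by omega)] at h3
                rw [ccw_iff5 (a := q) (b := p) (c := t) (by omega) (by omega)] at h4
                rw [ccw_iff5 (a := r) (b := q) (c := t) (by omega) (by omega)] at h5
                rw [ccw_iff5 (a := r) (b := p) (c := t) (by omega) (by omega)]
                have q0 := four (σ := σ) (a := s) (b := q) (c := p) (d := t) (by omega) (by omega) (by omega)
                have q1 := four (σ := σ) (a := s) (b := r) (c := q) (d := t) (by omega) (by omega) (by omega)
                have q2 := four (σ := σ) (a := s) (b := r) (c := p) (d := t) (by omega) (by omega) (by omega)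
                have q3 := four (σ := σ) (a := r) (b := q) (c := p) (d := t) (by omega) (by omega) (by omega)
                have q4 := four (σ := σ) (a := s) (b := r) (c := q) (d := p) (by omega) (by omega) (by omega)
                grind
              · rcases lt_or_gt_of_ne n_p_r.symm with c31|c31
                · rw [ccw_iff4 (a := s) (b := p) (c := t) (by omega) (by omega)] at h1
                  rw [ccw_iff4 (a := s) (b := q) (c := t) (by omega) (by omega)] at h2
                  rw [ccw_iff4 (a := s) (b := r) (c := t) (by omega) (by omega)] at h3
                  rw [ccw_iff5 (a := q) (b := p) (c := t) (by omega) (by omega)] at h4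
                  rw [ccw_iff3 (a := q) (b := r) (c := t) (by omega) (by omega)] at h5
                  rw [ccw_iff5 (a := r) (b := p) (c := t) (by omega) (by omega)]
                  have q0 := four (σ := σ) (a := s) (b := q) (c := p) (d := t) (by omega) (by omega) (by omega)
                  have q1 := four (σ := σ) (a := s) (b := q) (c := r) (d := t) (by omega) (by omega) (by omega)
                  have q2 := four (σ := σ) (a := s) (b := r) (c := p) (d := t) (by omega) (by omega) (by omega)
                  have q3 := four (σ := σ) (a := q) (b := r) (c := p) (d := t) (by omega) (by omega) (by omega)
                  have q4 := four (σ := σ) (a := s) (b := q) (c := r) (d := p) (by omega) (by omega) (by omega)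
                  grind
                · rcases lt_or_gt_of_ne n_t_r.symm with c32|c32
                  · rw [ccw_iff4 (a := s) (b := p) (c := t) (by omega) (by omega)] at h1
                    rw [ccw_iff4 (a := s) (b := q) (c := t) (by omega) (by omega)] at h2
                    rw [ccw_iff4 (a := s) (b := r) (c := t) (by omega) (by omega)] at h3
                    rw [ccw_iff5 (a := q) (b := p) (c := t) (by omega) (by omega)] at h4
                    rw [ccw_iff3 (a := q) (b := r) (c := t) (by omega) (by omega)] at h5
                    rw [ccw_iff3 (a := p) (b := r) (c := t) (by omega) (by omega)]
                    have q0 := four (σ := σ) (a := s) (b := q) (c := p) (d := t) (by omega) (by omega) (by omega)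
                    have q1 := four (σ := σ) (a := s) (b := q) (c := r) (d := t) (by omega) (by omega) (by omega)
                    have q2 := four (σ := σ) (a := s) (b := p) (c := r) (d := t) (by omega) (by omega) (by omega)
                    have q3 := four (σ := σ) (a := q) (b := p) (c := r) (d := t) (by omega) (by omega) (by omega)
                    have q4 := four (σ := σ) (a := s) (b := q) (c := p) (d := r) (by omega) (by omega) (by omega)
                    grind
                  · rw [ccw_iff4 (a := s) (b := p) (c := t) (by omega) (by omega)] at h1
                    rw [ccw_iff4 (a := s) (b := q) (c := t) (by omega) (by omega)] at h2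
                    rw [ccw_iff1 (a := s) (b := t) (c := r) (by omega) (by omega)] at h3
                    rw [ccw_iff5 (a := q) (b := p) (c := t) (by omega) (by omega)] at h4
                    rw [ccw_iff6 (a := q) (b := t) (c := r) (by omega) (by omega)] at h5
                    rw [ccw_iff6 (a := p) (b := t) (c := r) (by omega) (by omega)]
                    have q0 := four (σ := σ) (a := s) (b := q) (c := p) (d := t) (by omega) (by omega) (by omega)
                    have q1 := four (σ := σ) (a := s) (b := q) (c := t) (d := r) (by omega) (by omega) (by omega)
                    have q2 := four (σ := σ) (a := s) (b := p) (c := t) (d := r) (by omega) (by omega) (by omega)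
                    have q3 := four (σ := σ) (a := q) (b := p) (c := t) (d := r) (by omega) (by omega) (by omega)
                    have q4 := four (σ := σ) (a := s) (b := q) (c := p) (d := r) (by omega) (by omega) (by omega)
                    grind
          · rcases lt_or_gt_of_ne n_t_q.symm with c33|c33
            · rcases lt_or_gt_of_ne n_s_r.symm with c34|c34
              · rw [ccw_iff4 (a := s) (b := p) (c := t) (by omega) (by omega)] at h1
                rw [ccw_iff4 (a := s) (b := q) (c := t) (by omega) (by omega)] at h2
                rw [ccw_iff2 (a := r) (b := s) (c := t) (by omega) (by omega)] at h3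
                rw [ccw_iff3 (a := p) (b := q) (c := t) (by omega) (by omega)] at h4
                rw [ccw_iff5 (a := r) (b := q) (c := t) (by omega) (by omega)] at h5
                rw [ccw_iff5 (a := r) (b := p) (c := t) (by omega) (by omega)]
                have q0 := four (σ := σ) (a := s) (b := p) (c := q) (d := t) (by omega) (by omega) (by omega)
                have q1 := four (σ := σ) (a := r) (b := s) (c := q) (d := t) (by omega) (by omega) (by omega)
                have q2 := four (σ := σ) (a := r) (b := s) (c := p) (d := t) (by omega) (by omega) (by omega)
                have q3 := four (σ := σ) (a := r) (b := p) (c := q) (d := t) (by omega) (by omega) (by omega)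
                have q4 := four (σ := σ) (a := r) (b := s) (c := p) (d := q) (by omega) (by omega) (by omega)
                grind
              · rcases lt_or_gt_of_ne n_p_r.symm with c35|c35
                · rw [ccw_iff4 (a := s) (b := p) (c := t) (by omega) (by omega)] at h1
                  rw [ccw_iff4 (a := s) (b := q) (c := t) (by omega) (by omega)] at h2
                  rw [ccw_iff4 (a := s) (b := r) (c := t) (by omega) (by omega)] at h3
                  rw [ccw_iff3 (a := p) (b := q) (c := t) (by omega) (by omega)] at h4
                  rw [ccw_iff5 (a := r) (b := q) (c := t) (by omega) (by omega)] at h5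
                  rw [ccw_iff5 (a := r) (b := p) (c := t) (by omega) (by omega)]
                  have q0 := four (σ := σ) (a := s) (b := p) (c := q) (d := t) (by omega) (by omega) (by omega)
                  have q1 := four (σ := σ) (a := s) (b := r) (c := q) (d := t) (by omega) (by omega) (by omega)
                  have q2 := four (σ := σ) (a := s) (b := r) (c := p) (d := t) (by omega) (by omega) (by omega)
                  have q3 := four (σ := σ) (a := r) (b := p) (c := q) (d := t) (by omega) (by omega) (by omega)
                  have q4 := four (σ := σ) (a := s) (b := r) (c := p) (d := q) (by omega) (by omega) (by omega)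
                  grind
                · rcases lt_or_gt_of_ne n_q_r.symm with c36|c36
                  · rw [ccw_iff4 (a := s) (b := p) (c := t) (by omega) (by omega)] at h1
                    rw [ccw_iff4 (a := s) (b := q) (c := t) (by omega) (by omega)] at h2
                    rw [ccw_iff4 (a := s) (b := r) (c := t) (by omega) (by omega)] at h3
                    rw [ccw_iff3 (a := p) (b := q) (c := t) (by omega) (by omega)] at h4
                    rw [ccw_iff5 (a := r) (b := q) (c := t) (by omega) (by omega)] at h5
                    rw [ccw_iff3 (a := p) (b := r) (c := t) (by omega) (by omega)]
                    have q0 := four (σ := σ) (a := s) (b := p) (c := q) (d := t) (by omega) (by omega) (by omega)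
                    have q1 := four (σ := σ) (a := s) (b := r) (c := q) (d := t) (by omega) (by omega) (by omega)
                    have q2 := four (σ := σ) (a := s) (b := p) (c := r) (d := t) (by omega) (by omega) (by omega)
                    have q3 := four (σ := σ) (a := p) (b := r) (c := q) (d := t) (by omega) (by omega) (by omega)
                    have q4 := four (σ := σ) (a := s) (b := p) (c := r) (d := q) (by omega) (by omega) (by omega)
                    grind
                  · rcases lt_or_gt_of_ne n_t_r.symm with c37|c37
                    · rw [ccw_iff4 (a := s) (b := p) (c := t) (by omega) (by omega)] at h1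
                      rw [ccw_iff4 (a := s) (b := q) (c := t) (by omega) (by omega)] at h2
                      rw [ccw_iff4 (a := s) (b := r) (c := t) (by omega) (by omega)] at h3
                      rw [ccw_iff3 (a := p) (b := q) (c := t) (by omega) (by omega)] at h4
                      rw [ccw_iff3 (a := q) (b := r) (c := t) (by omega) (by omega)] at h5
                      rw [ccw_iff3 (a := p) (b := r) (c := t) (by omega) (by omega)]
                      have q0 := four (σ := σ) (a := s) (b := p) (c := q) (d := t) (by omega) (by omega) (by omega)
                      have q1 := four (σ := σ) (a := s) (b := q) (c := r) (d := t) (by omega) (by omega) (by omega)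
                      have q2 := four (σ := σ) (a := s) (b := p) (c := r) (d := t) (by omega) (by omega) (by omega)
                      have q3 := four (σ := σ) (a := p) (b := q) (c := r) (d := t) (by omega) (by omega) (by omega)
                      have q4 := four (σ := σ) (a := s) (b := p) (c := q) (d := r) (by omega) (by omega) (by omega)
                      grind
                    · rw [ccw_iff4 (a := s) (b := p) (c := t) (by omega) (by omega)] at h1
                      rw [ccw_iff4 (a := s) (b := q) (c := t) (by omega) (by omega)] at h2
                      rw [ccw_iff1 (a := s) (b := t) (c := r) (by omega) (by omega)] at h3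
                      rw [ccw_iff3 (a := p) (b := q) (c := t) (by omega) (by omega)] at h4
                      rw [ccw_iff6 (a := q) (b := t) (c := r) (by omega) (by omega)] at h5
                      rw [ccw_iff6 (a := p) (b := t) (c := r) (by omega) (by omega)]
                      have q0 := four (σ := σ) (a := s) (b := p) (c := q) (d := t) (by omega) (by omega) (by omega)
                      have q1 := four (σ := σ) (a := s) (b := q) (c := t) (d := r) (by omega) (by omega) (by omega)
                      have q2 := four (σ := σ) (a := s) (b := p) (c := t) (d := r) (by omega) (by omega) (by omega)
                      have q3 := four (σ := σ) (a := p) (b := q) (c := t) (d := r) (by omega) (by omega) (by omega)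
                      have q4 := four (σ := σ) (a := s) (b := p) (c := q) (d := r) (by omega) (by omega) (by omega)
                      grind
            · rcases lt_or_gt_of_ne n_s_r.symm with c38|c38
              · rw [ccw_iff4 (a := s) (b := p) (c := t) (by omega) (by omega)] at h1
                rw [ccw_iff1 (a := s) (b := t) (c := q) (by omega) (by omega)] at h2
                rw [ccw_iff2 (a := r) (b := s) (c := t) (by omega) (by omega)] at h3
                rw [ccw_iff6 (a := p) (b := t) (c := q) (by omega) (by omega)] at h4
                rw [ccw_iff2 (a := r) (b := t) (c := q) (by omega) (by omega)] at h5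
                rw [ccw_iff5 (a := r) (b := p) (c := t) (by omega) (by omega)]
                have q0 := four (σ := σ) (a := s) (b := p) (c := t) (d := q) (by omega) (by omega) (by omega)
                have q1 := four (σ := σ) (a := r) (b := s) (c := t) (d := q) (by omega) (by omega) (by omega)
                have q2 := four (σ := σ) (a := r) (b := s) (c := p) (d := t) (by omega) (by omega) (by omega)
                have q3 := four (σ := σ) (a := r) (b := p) (c := t) (d := q) (by omega) (by omega) (by omega)
                have q4 := four (σ := σ) (a := r) (b := s) (c := p) (d := q) (by omega) (by omega) (by omega)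
                grind
              · rcases lt_or_gt_of_ne n_p_r.symm with c39|c39
                · rw [ccw_iff4 (a := s) (b := p) (c := t) (by omega) (by omega)] at h1
                  rw [ccw_iff1 (a := s) (b := t) (c := q) (by omega) (by omega)] at h2
                  rw [ccw_iff4 (a := s) (b := r) (c := t) (by omega) (by omega)] at h3
                  rw [ccw_iff6 (a := p) (b := t) (c := q) (by omega) (by omega)] at h4
                  rw [ccw_iff2 (a := r) (b := t) (c := q) (by omega) (by omega)] at h5
                  rw [ccw_iff5 (a := r) (b := p) (c := t) (by omega) (by omega)]
                  have q0 := four (σ := σ) (a := s) (b := p) (c := t) (d := q) (by omega) (by omega) (by omega)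
                  have q1 := four (σ := σ) (a := s) (b := r) (c := t) (d := q) (by omega) (by omega) (by omega)
                  have q2 := four (σ := σ) (a := s) (b := r) (c := p) (d := t) (by omega) (by omega) (by omega)
                  have q3 := four (σ := σ) (a := r) (b := p) (c := t) (d := q) (by omega) (by omega) (by omega)
                  have q4 := four (σ := σ) (a := s) (b := r) (c := p) (d := q) (by omega) (by omega) (by omega)
                  grind
                · rcases lt_or_gt_of_ne n_t_r.symm with c40|c40
                  · rw [ccw_iff4 (a := s) (b := p) (c := t) (by omega) (by omega)] at h1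
                    rw [ccw_iff1 (a := s) (b := t) (c := q) (by omega) (by omega)] at h2
                    rw [ccw_iff4 (a := s) (b := r) (c := t) (by omega) (by omega)] at h3
                    rw [ccw_iff6 (a := p) (b := t) (c := q) (by omega) (by omega)] at h4
                    rw [ccw_iff2 (a := r) (b := t) (c := q) (by omega) (by omega)] at h5
                    rw [ccw_iff3 (a := p) (b := r) (c := t) (by omega) (by omega)]
                    have q0 := four (σ := σ) (a := s) (b := p) (c := t) (d := q) (by omega) (by omega) (by omega)
                    have q1 := four (σ := σ) (a := s) (b := r) (c := t) (d := q) (by omega) (by omega) (by omega)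
                    have q2 := four (σ := σ) (a := s) (b := p) (c := r) (d := t) (by omega) (by omega) (by omega)
                    have q3 := four (σ := σ) (a := p) (b := r) (c := t) (d := q) (by omega) (by omega) (by omega)
                    have q4 := four (σ := σ) (a := s) (b := p) (c := r) (d := q) (by omega) (by omega) (by omega)
                    grind
                  · rcases lt_or_gt_of_ne n_q_r.symm with c41|c41
                    · rw [ccw_iff4 (a := s) (b := p) (c := t) (by omega) (by omega)] at h1
                      rw [ccw_iff1 (a := s) (b := t) (c := q) (by omega) (by omega)] at h2
                      rw [ccw_iff1 (a := s) (b := t) (c := r) (by omega) (by omega)] at h3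
                      rw [ccw_iff6 (a := p) (b := t) (c := q) (by omega) (by omega)] at h4
                      rw [ccw_iff4 (a := t) (b := r) (c := q) (by omega) (by omega)] at h5
                      rw [ccw_iff6 (a := p) (b := t) (c := r) (by omega) (by omega)]
                      have q0 := four (σ := σ) (a := s) (b := p) (c := t) (d := q) (by omega) (by omega) (by omega)
                      have q1 := four (σ := σ) (a := s) (b := t) (c := r) (d := q) (by omega) (by omega) (by omega)
                      have q2 := four (σ := σ) (a := s) (b := p) (c := t) (d := r) (by omega) (by omega) (by omega)
                      have q3 := four (σ := σ) (a := p) (b := t) (c := r) (d := q) (by omega) (by omega) (by omega)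
                      have q4 := four (σ := σ) (a := s) (b := p) (c := r) (d := q) (by omega) (by omega) (by omega)
                      grind
                    · rw [ccw_iff4 (a := s) (b := p) (c := t) (by omega) (by omega)] at h1
                      rw [ccw_iff1 (a := s) (b := t) (c := q) (by omega) (by omega)] at h2
                      rw [ccw_iff1 (a := s) (b := t) (c := r) (by omega) (by omega)] at h3
                      rw [ccw_iff6 (a := p) (b := t) (c := q) (by omega) (by omega)] at h4
                      rw [ccw_iff1 (a := t) (b := q) (c := r) (by omega) (by omega)] at h5
                      rw [ccw_iff6 (a := p) (b := t) (c := r) (by omega) (by omega)]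
                      have q0 := four (σ := σ) (a := s) (b := p) (c := t) (d := q) (by omega) (by omega) (by omega)
                      have q1 := four (σ := σ) (a := s) (b := t) (c := q) (d := r) (by omega) (by omega) (by omega)
                      have q2 := four (σ := σ) (a := s) (b := p) (c := t) (d := r) (by omega) (by omega) (by omega)
                      have q3 := four (σ := σ) (a := p) (b := t) (c := q) (d := r) (by omega) (by omega) (by omega)
                      have q4 := four (σ := σ) (a := s) (b := p) (c := q) (d := r) (by omega) (by omega) (by omega)
                      grind
      · rcases lt_or_gt_of_ne n_s_q.symm with c42|c42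
        · rcases lt_or_gt_of_ne n_q_r.symm with c43|c43
          · rw [ccw_iff1 (a := s) (b := t) (c := p) (by omega) (by omega)] at h1
            rw [ccw_iff2 (a := q) (b := s) (c := t) (by omega) (by omega)] at h2
            rw [ccw_iff2 (a := r) (b := s) (c := t) (by omega) (by omega)] at h3
            rw [ccw_iff2 (a := q) (b := t) (c := p) (by omega) (by omega)] at h4
            rw [ccw_iff5 (a := r) (b := q) (c := t) (by omega) (by omega)] at h5
            rw [ccw_iff2 (a := r) (b := t) (c := p) (by omega) (by omega)]
            have q0 := four (σ := σ) (a := q) (b := s) (c := t) (d := p) (by omega) (by omega) (by omega)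
            have q1 := four (σ := σ) (a := r) (b := q) (c := s) (d := t) (by omega) (by omega) (by omega)
            have q2 := four (σ := σ) (a := r) (b := s) (c := t) (d := p) (by omega) (by omega) (by omega)
            have q3 := four (σ := σ) (a := r) (b := q) (c := t) (d := p) (by omega) (by omega) (by omega)
            have q4 := four (σ := σ) (a := r) (b := q) (c := s) (d := p) (by omega) (by omega) (by omega)
            grind
          · rcases lt_or_gt_of_ne n_s_r.symm with c44|c44
            · rw [ccw_iff1 (a := s) (b := t) (c := p) (by omega) (by omega)] at h1
              rw [ccw_iff2 (a := q) (b := s) (c := t) (by omega) (by omega)] at h2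
              rw [ccw_iff2 (a := r) (b := s) (c := t) (by omega) (by omega)] at h3
              rw [ccw_iff2 (a := q) (b := t) (c := p) (by omega) (by omega)] at h4
              rw [ccw_iff3 (a := q) (b := r) (c := t) (by omega) (by omega)] at h5
              rw [ccw_iff2 (a := r) (b := t) (c := p) (by omega) (by omega)]
              have q0 := four (σ := σ) (a := q) (b := s) (c := t) (d := p) (by omega) (by omega) (by omega)
              have q1 := four (σ := σ) (a := q) (b := r) (c := s) (d := t) (by omega) (by omega) (by omega)
              have q2 := four (σ := σ) (a := r) (b := s) (c := t) (d := p) (by omega) (by omega) (by omega)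
              have q3 := four (σ := σ) (a := q) (b := r) (c := t) (d := p) (by omega) (by omega) (by omega)
              have q4 := four (σ := σ) (a := q) (b := r) (c := s) (d := p) (by omega) (by omega) (by omega)
              grind
            · rcases lt_or_gt_of_ne n_t_r.symm with c45|c45
              · rw [ccw_iff1 (a := s) (b := t) (c := p) (by omega) (by omega)] at h1
                rw [ccw_iff2 (a := q) (b := s) (c := t) (by omega) (by omega)] at h2
                rw [ccw_iff4 (a := s) (b := r) (c := t) (by omega) (by omega)] at h3
                rw [ccw_iff2 (a := q) (b := t) (c := p) (by omega) (by omega)] at h4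
                rw [ccw_iff3 (a := q) (b := r) (c := t) (by omega) (by omega)] at h5
                rw [ccw_iff2 (a := r) (b := t) (c := p) (by omega) (by omega)]
                have q0 := four (σ := σ) (a := q) (b := s) (c := t) (d := p) (by omega) (by omega) (by omega)
                have q1 := four (σ := σ) (a := q) (b := s) (c := r) (d := t) (by omega) (by omega) (by omega)
                have q2 := four (σ := σ) (a := s) (b := r) (c := t) (d := p) (by omega) (by omega) (by omega)
                have q3 := four (σ := σ) (a := q) (b := r) (c := t) (d := p) (by omega) (by omega) (by omega)
                have q4 := four (σ := σ) (a := q) (b := s) (c := r) (d := p) (by omega) (by omega) (by omega)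
                grind
              · rcases lt_or_gt_of_ne n_p_r.symm with c46|c46
                · rw [ccw_iff1 (a := s) (b := t) (c := p) (by omega) (by omega)] at h1
                  rw [ccw_iff2 (a := q) (b := s) (c := t) (by omega) (by omega)] at h2
                  rw [ccw_iff1 (a := s) (b := t) (c := r) (by omega) (by omega)] at h3
                  rw [ccw_iff2 (a := q) (b := t) (c := p) (by omega) (by omega)] at h4
                  rw [ccw_iff6 (a := q) (b := t) (c := r) (by omega) (by omega)] at h5
                  rw [ccw_iff4 (a := t) (b := r) (c := p) (by omega) (by omega)]
                  have q0 := four (σ := σ) (a := q) (b := s) (c := t) (d := p) (by omega) (by omega) (by omega)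
                  have q1 := four (σ := σ) (a := q) (b := s) (c := t) (d := r) (by omega) (by omega) (by omega)
                  have q2 := four (σ := σ) (a := s) (b := t) (c := r) (d := p) (by omega) (by omega) (by omega)
                  have q3 := four (σ := σ) (a := q) (b := t) (c := r) (d := p) (by omega) (by omega) (by omega)
                  have q4 := four (σ := σ) (a := q) (b := s) (c := r) (d := p) (by omega) (by omega) (by omega)
                  grind
                · rw [ccw_iff1 (a := s) (b := t) (c := p) (by omega) (by omega)] at h1
                  rw [ccw_iff2 (a := q) (b := s) (c := t) (by omega) (by omega)] at h2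
                  rw [ccw_iff1 (a := s) (b := t) (c := r) (by omega) (by omega)] at h3
                  rw [ccw_iff2 (a := q) (b := t) (c := p) (by omega) (by omega)] at h4
                  rw [ccw_iff6 (a := q) (b := t) (c := r) (by omega) (by omega)] at h5
                  rw [ccw_iff1 (a := t) (b := p) (c := r) (by omega) (by omega)]
                  have q0 := four (σ := σ) (a := q) (b := s) (c := t) (d := p) (by omega) (by omega) (by omega)
                  have q1 := four (σ := σ) (a := q) (b := s) (c := t) (d := r) (by omega) (by omega) (by omega)
                  have q2 := four (σ := σ) (a := s) (b := t) (c := p) (d := r) (by omega) (by omega) (by omega)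
                  have q3 := four (σ := σ) (a := q) (b := t) (c := p) (d := r) (by omega) (by omega) (by omega)
                  have q4 := four (σ := σ) (a := q) (b := s) (c := p) (d := r) (by omega) (by omega) (by omega)
                  grind
        · rcases lt_or_gt_of_ne n_t_q.symm with c47|c47
          · rcases lt_or_gt_of_ne n_s_r.symm with c48|c48
            · rw [ccw_iff1 (a := s) (b := t) (c := p) (by omega) (by omega)] at h1
              rw [ccw_iff4 (a := s) (b := q) (c := t) (by omega) (by omega)] at h2
              rw [ccw_iff2 (a := r) (b := s) (c := t) (by omega) (by omega)] at h3
              rw [ccw_iff2 (a := q) (b := t) (c := p) (by omega) (by omega)] at h4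
              rw [ccw_iff5 (a := r) (b := q) (c := t) (by omega) (by omega)] at h5
              rw [ccw_iff2 (a := r) (b := t) (c := p) (by omega) (by omega)]
              have q0 := four (σ := σ) (a := s) (b := q) (c := t) (d := p) (by omega) (by omega) (by omega)
              have q1 := four (σ := σ) (a := r) (b := s) (c := q) (d := t) (by omega) (by omega) (by omega)
              have q2 := four (σ := σ) (a := r) (b := s) (c := t) (d := p) (by omega) (by omega) (by omega)
              have q3 := four (σ := σ) (a := r) (b := q) (c := t) (d := p) (by omega) (by omega) (by omega)
              have q4 := four (σ := σ) (a := r) (b := s) (c := q) (d := p) (by omega) (by omega) (by omega)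
              grind
            · rcases lt_or_gt_of_ne n_q_r.symm with c49|c49
              · rw [ccw_iff1 (a := s) (b := t) (c := p) (by omega) (by omega)] at h1
                rw [ccw_iff4 (a := s) (b := q) (c := t) (by omega) (by omega)] at h2
                rw [ccw_iff4 (a := s) (b := r) (c := t) (by omega) (by omega)] at h3
                rw [ccw_iff2 (a := q) (b := t) (c := p) (by omega) (by omega)] at h4
                rw [ccw_iff5 (a := r) (b := q) (c := t) (by omega) (by omega)] at h5
                rw [ccw_iff2 (a := r) (b := t) (c := p) (by omega) (by omega)]
                have q0 := four (σ := σ) (a := s) (b := q) (c := t) (d := p) (by omega) (by omega) (by omega)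
                have q1 := four (σ := σ) (a := s) (b := r) (c := q) (d := t) (by omega) (by omega) (by omega)
                have q2 := four (σ := σ) (a := s) (b := r) (c := t) (d := p) (by omega) (by omega) (by omega)
                have q3 := four (σ := σ) (a := r) (b := q) (c := t) (d := p) (by omega) (by omega) (by omega)
                have q4 := four (σ := σ) (a := s) (b := r) (c := q) (d := p) (by omega) (by omega) (by omega)
                grind
              · rcases lt_or_gt_of_ne n_t_r.symm with c50|c50
                · rw [ccw_iff1 (a := s) (b := t) (c := p) (by omega) (by omega)] at h1
                  rw [ccw_iff4 (a := s) (b := q) (c := t) (by omega) (by omega)] at h2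
                  rw [ccw_iff4 (a := s) (b := r) (c := t) (by omega) (by omega)] at h3
                  rw [ccw_iff2 (a := q) (b := t) (c := p) (by omega) (by omega)] at h4
                  rw [ccw_iff3 (a := q) (b := r) (c := t) (by omega) (by omega)] at h5
                  rw [ccw_iff2 (a := r) (b := t) (c := p) (by omega) (by omega)]
                  have q0 := four (σ := σ) (a := s) (b := q) (c := t) (d := p) (by omega) (by omega) (by omega)
                  have q1 := four (σ := σ) (a := s) (b := q) (c := r) (d := t) (by omega) (by omega) (by omega)
                  have q2 := four (σ := σ) (a := s) (b := r) (c := t) (d := p) (by omega) (by omega) (by omega)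
                  have q3 := four (σ := σ) (a := q) (b := r) (c := t) (d := p) (by omega) (by omega) (by omega)
                  have q4 := four (σ := σ) (a := s) (b := q) (c := r) (d := p) (by omega) (by omega) (by omega)
                  grind
                · rcases lt_or_gt_of_ne n_p_r.symm with c51|c51
                  · rw [ccw_iff1 (a := s) (b := t) (c := p) (by omega) (by omega)] at h1
                    rw [ccw_iff4 (a := s) (b := q) (c := t) (by omega) (by omega)] at h2
                    rw [ccw_iff1 (a := s) (b := t) (c := r) (by omega) (by omega)] at h3
                    rw [ccw_iff2 (a := q) (b := t) (c := p) (by omega) (by omega)] at h4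
                    rw [ccw_iff6 (a := q) (b := t) (c := r) (by omega) (by omega)] at h5
                    rw [ccw_iff4 (a := t) (b := r) (c := p) (by omega) (by omega)]
                    have q0 := four (σ := σ) (a := s) (b := q) (c := t) (d := p) (by omega) (by omega) (by omega)
                    have q1 := four (σ := σ) (a := s) (b := q) (c := t) (d := r) (by omega) (by omega) (by omega)
                    have q2 := four (σ := σ) (a := s) (b := t) (c := r) (d := p) (by omega) (by omega) (by omega)
                    have q3 := four (σ := σ) (a := q) (b := t) (c := r) (d := p) (by omega) (by omega) (by omega)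
                    have q4 := four (σ := σ) (a := s) (b := q) (c := r) (d := p) (by omega) (by omega) (by omega)
                    grind
                  · rw [ccw_iff1 (a := s) (b := t) (c := p) (by omega) (by omega)] at h1
                    rw [ccw_iff4 (a := s) (b := q) (c := t) (by omega) (by omega)] at h2
                    rw [ccw_iff1 (a := s) (b := t) (c := r) (by omega) (by omega)] at h3
                    rw [ccw_iff2 (a := q) (b := t) (c := p) (by omega) (by omega)] at h4
                    rw [ccw_iff6 (a := q) (b := t) (c := r) (by omega) (by omega)] at h5
                    rw [ccw_iff1 (a := t) (b := p) (c := r) (by omega) (by omega)]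
                    have q0 := four (σ := σ) (a := s) (b := q) (c := t) (d := p) (by omega) (by omega) (by omega)
                    have q1 := four (σ := σ) (a := s) (b := q) (c := t) (d := r) (by omega) (by omega) (by omega)
                    have q2 := four (σ := σ) (a := s) (b := t) (c := p) (d := r) (by omega) (by omega) (by omega)
                    have q3 := four (σ := σ) (a := q) (b := t) (c := p) (d := r) (by omega) (by omega) (by omega)
                    have q4 := four (σ := σ) (a := s) (b := q) (c := p) (d := r) (by omega) (by omega) (by omega)
                    grind
          · rcases lt_or_gt_of_ne n_p_q.symm with c52|c52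
            · rcases lt_or_gt_of_ne n_s_r.symm with c53|c53
              · rw [ccw_iff1 (a := s) (b := t) (c := p) (by omega) (by omega)] at h1
                rw [ccw_iff1 (a := s) (b := t) (c := q) (by omega) (by omega)] at h2
                rw [ccw_iff2 (a := r) (b := s) (c := t) (by omega) (by omega)] at h3
                rw [ccw_iff4 (a := t) (b := q) (c := p) (by omega) (by omega)] at h4
                rw [ccw_iff2 (a := r) (b := t) (c := q) (by omega) (by omega)] at h5
                rw [ccw_iff2 (a := r) (b := t) (c := p) (by omega) (by omega)]
                have q0 := four (σ := σ) (a := s) (b := t) (c := q) (d := p) (by omega) (by omega) (by omega)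
                have q1 := four (σ := σ) (a := r) (b := s) (c := t) (d := q) (by omega) (by omega) (by omega)
                have q2 := four (σ := σ) (a := r) (b := s) (c := t) (d := p) (by omega) (by omega) (by omega)
                have q3 := four (σ := σ) (a := r) (b := t) (c := q) (d := p) (by omega) (by omega) (by omega)
                have q4 := four (σ := σ) (a := r) (b := s) (c := q) (d := p) (by omega) (by omega) (by omega)
                grind
              · rcases lt_or_gt_of_ne n_t_r.symm with c54|c54
                · rw [ccw_iff1 (a := s) (b := t) (c := p) (by omega) (by omega)] at h1
                  rw [ccw_iff1 (a := s) (b := t) (c := q) (by omega) (by omega)] at h2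
                  rw [ccw_iff4 (a := s) (b := r) (c := t) (by omega) (by omega)] at h3
                  rw [ccw_iff4 (a := t) (b := q) (c := p) (by omega) (by omega)] at h4
                  rw [ccw_iff2 (a := r) (b := t) (c := q) (by omega) (by omega)] at h5
                  rw [ccw_iff2 (a := r) (b := t) (c := p) (by omega) (by omega)]
                  have q0 := four (σ := σ) (a := s) (b := t) (c := q) (d := p) (by omega) (by omega) (by omega)
                  have q1 := four (σ := σ) (a := s) (b := r) (c := t) (d := q) (by omega) (by omega) (by omega)
                  have q2 := four (σ := σ) (a := s) (b := r) (c := t) (d := p) (by omega) (by omega) (by omega)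
                  have q3 := four (σ := σ) (a := r) (b := t) (c := q) (d := p) (by omega) (by omega) (by omega)
                  have q4 := four (σ := σ) (a := s) (b := r) (c := q) (d := p) (by omega) (by omega) (by omega)
                  grind
                · rcases lt_or_gt_of_ne n_q_r.symm with c55|c55
                  · rw [ccw_iff1 (a := s) (b := t) (c := p) (by omega) (by omega)] at h1
                    rw [ccw_iff1 (a := s) (b := t) (c := q) (by omega) (by omega)] at h2
                    rw [ccw_iff1 (a := s) (b := t) (c := r) (by omega) (by omega)] at h3
                    rw [ccw_iff4 (a := t) (b := q) (c := p) (by omega) (by omega)] at h4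
                    rw [ccw_iff4 (a := t) (b := r) (c := q) (by omega) (by omega)] at h5
                    rw [ccw_iff4 (a := t) (b := r) (c := p) (by omega) (by omega)]
                    have q0 := four (σ := σ) (a := s) (b := t) (c := q) (d := p) (by omega) (by omega) (by omega)
                    have q1 := four (σ := σ) (a := s) (b := t) (c := r) (d := q) (by omega) (by omega) (by omega)
                    have q2 := four (σ := σ) (a := s) (b := t) (c := r) (d := p) (by omega) (by omega) (by omega)
                    have q3 := four (σ := σ) (a := t) (b := r) (c := q) (d := p) (by omega) (by omega) (by omega)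
                    have q4 := four (σ := σ) (a := s) (b := r) (c := q) (d := p) (by omega) (by omega) (by omega)
                    grind
                  · rcases lt_or_gt_of_ne n_p_r.symm with c56|c56
                    · rw [ccw_iff1 (a := s) (b := t) (c := p) (by omega) (by omega)] at h1
                      rw [ccw_iff1 (a := s) (b := t) (c := q) (by omega) (by omega)] at h2
                      rw [ccw_iff1 (a := s) (b := t) (c := r) (by omega) (by omega)] at h3
                      rw [ccw_iff4 (a := t) (b := q) (c := p) (by omega) (by omega)] at h4
                      rw [ccw_iff1 (a := t) (b := q) (c := r) (by omega) (by omega)] at h5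
                      rw [ccw_iff4 (a := t) (b := r) (c := p) (by omega) (by omega)]
                      have q0 := four (σ := σ) (a := s) (b := t) (c := q) (d := p) (by omega) (by omega) (by omega)
                      have q1 := four (σ := σ) (a := s) (b := t) (c := q) (d := r) (by omega) (by omega) (by omega)
                      have q2 := four (σ := σ) (a := s) (b := t) (c := r) (d := p) (by omega) (by omega) (by omega)
                      have q3 := four (σ := σ) (a := t) (b := q) (c := r) (d := p) (by omega) (by omega) (by omega)
                      have q4 := four (σ := σ) (a := s) (b := q) (c := r) (d := p) (by omega) (by omega) (by omega)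
                      grind
                    · rw [ccw_iff1 (a := s) (b := t) (c := p) (by omega) (by omega)] at h1
                      rw [ccw_iff1 (a := s) (b := t) (c := q) (by omega) (by omega)] at h2
                      rw [ccw_iff1 (a := s) (b := t) (c := r) (by omega) (by omega)] at h3
                      rw [ccw_iff4 (a := t) (b := q) (c := p) (by omega) (by omega)] at h4
                      rw [ccw_iff1 (a := t) (b := q) (c := r) (by omega) (by omega)] at h5
                      rw [ccw_iff1 (a := t) (b := p) (c := r) (by omega) (by omega)]
                      have q0 := four (σ := σ) (a := s) (b := t) (c := q) (d := p) (by omega) (by omega) (by omega)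
                      have q1 := four (σ := σ) (a := s) (b := t) (c := q) (d := r) (by omega) (by omega) (by omega)
                      have q2 := four (σ := σ) (a := s) (b := t) (c := p) (d := r) (by omega) (by omega) (by omega)
                      have q3 := four (σ := σ) (a := t) (b := q) (c := p) (d := r) (by omega) (by omega) (by omega)
                      have q4 := four (σ := σ) (a := s) (b := q) (c := p) (d := r) (by omega) (by omega) (by omega)
                      grind
            · rcases lt_or_gt_of_ne n_s_r.symm with c57|c57
              · rw [ccw_iff1 (a := s) (b := t) (c := p) (by omega) (by omega)] at h1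
                rw [ccw_iff1 (a := s) (b := t) (c := q) (by omega) (by omega)] at h2
                rw [ccw_iff2 (a := r) (b := s) (c := t) (by omega) (by omega)] at h3
                rw [ccw_iff1 (a := t) (b := p) (c := q) (by omega) (by omega)] at h4
                rw [ccw_iff2 (a := r) (b := t) (c := q) (by omega) (by omega)] at h5
                rw [ccw_iff2 (a := r) (b := t) (c := p) (by omega) (by omega)]
                have q0 := four (σ := σ) (a := s) (b := t) (c := p) (d := q) (by omega) (by omega) (by omega)
                have q1 := four (σ := σ) (a := r) (b := s) (c := t) (d := q) (by omega) (by omega) (by omega)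
                have q2 := four (σ := σ) (a := r) (b := s) (c := t) (d := p) (by omega) (by omega) (by omega)
                have q3 := four (σ := σ) (a := r) (b := t) (c := p) (d := q) (by omega) (by omega) (by omega)
                have q4 := four (σ := σ) (a := r) (b := s) (c := p) (d := q) (by omega) (by omega) (by omega)
                grind
              · rcases lt_or_gt_of_ne n_t_r.symm with c58|c58
                · rw [ccw_iff1 (a := s) (b := t) (c := p) (by omega) (by omega)] at h1
                  rw [ccw_iff1 (a := s) (b := t) (c := q) (by omega) (by omega)] at h2
                  rw [ccw_iff4 (a := s) (b := r) (c := t) (by omega) (by omega)] at h3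
                  rw [ccw_iff1 (a := t) (b := p) (c := q) (by omega) (by omega)] at h4
                  rw [ccw_iff2 (a := r) (b := t) (c := q) (by omega) (by omega)] at h5
                  rw [ccw_iff2 (a := r) (b := t) (c := p) (by omega) (by omega)]
                  have q0 := four (σ := σ) (a := s) (b := t) (c := p) (d := q) (by omega) (by omega) (by omega)
                  have q1 := four (σ := σ) (a := s) (b := r) (c := t) (d := q) (by omega) (by omega) (by omega)
                  have q2 := four (σ := σ) (a := s) (b := r) (c := t) (d := p) (by omega) (by omega) (by omega)
                  have q3 := four (σ := σ) (a := r) (b := t) (c := p) (d := q) (by omega) (by omega) (by omega)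
                  have q4 := four (σ := σ) (a := s) (b := r) (c := p) (d := q) (by omega) (by omega) (by omega)
                  grind
                · rcases lt_or_gt_of_ne n_p_r.symm with c59|c59
                  · rw [ccw_iff1 (a := s) (b := t) (c := p) (by omega) (by omega)] at h1
                    rw [ccw_iff1 (a := s) (b := t) (c := q) (by omega) (by omega)] at h2
                    rw [ccw_iff1 (a := s) (b := t) (c := r) (by omega) (by omega)] at h3
                    rw [ccw_iff1 (a := t) (b := p) (c := q) (by omega) (by omega)] at h4
                    rw [ccw_iff4 (a := t) (b := r) (c := q) (by omega) (by omega)] at h5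
                    rw [ccw_iff4 (a := t) (b := r) (c := p) (by omega) (by omega)]
                    have q0 := four (σ := σ) (a := s) (b := t) (c := p) (d := q) (by omega) (by omega) (by omega)
                    have q1 := four (σ := σ) (a := s) (b := t) (c := r) (d := q) (by omega) (by omega) (by omega)
                    have q2 := four (σ := σ) (a := s) (b := t) (c := r) (d := p) (by omega) (by omega) (by omega)
                    have q3 := four (σ := σ) (a := t) (b := r) (c := p) (d := q) (by omega) (by omega) (by omega)
                    have q4 := four (σ := σ) (a := s) (b := r) (c := p) (d := q) (by omega) (by omega) (by omega)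
                    grind
                  · rcases lt_or_gt_of_ne n_q_r.symm with c60|c60
                    · rw [ccw_iff1 (a := s) (b := t) (c := p) (by omega) (by omega)] at h1
                      rw [ccw_iff1 (a := s) (b := t) (c := q) (by omega) (by omega)] at h2
                      rw [ccw_iff1 (a := s) (b := t) (c := r) (by omega) (by omega)] at h3
                      rw [ccw_iff1 (a := t) (b := p) (c := q) (by omega) (by omega)] at h4
                      rw [ccw_iff4 (a := t) (b := r) (c := q) (by omega) (by omega)] at h5
                      rw [ccw_iff1 (a := t) (b := p) (c := r) (by omega) (by omega)]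
                      have q0 := four (σ := σ) (a := s) (b := t) (c := p) (d := q) (by omega) (by omega) (by omega)
                      have q1 := four (σ := σ) (a := s) (b := t) (c := r) (d := q) (by omega) (by omega) (by omega)
                      have q2 := four (σ := σ) (a := s) (b := t) (c := p) (d := r) (by omega) (by omega) (by omega)
                      have q3 := four (σ := σ) (a := t) (b := p) (c := r) (d := q) (by omega) (by omega) (by omega)
                      have q4 := four (σ := σ) (a := s) (b := p) (c := r) (d := q) (by omega) (by omega) (by omega)
                      grind
                    · rw [ccw_iff1 (a := s) (b := t) (c := p) (by omega) (by omega)] at h1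
                      rw [ccw_iff1 (a := s) (b := t) (c := q) (by omega) (by omega)] at h2
                      rw [ccw_iff1 (a := s) (b := t) (c := r) (by omega) (by omega)] at h3
                      rw [ccw_iff1 (a := t) (b := p) (c := q) (by omega) (by omega)] at h4
                      rw [ccw_iff1 (a := t) (b := q) (c := r) (by omega) (by omega)] at h5
                      rw [ccw_iff1 (a := t) (b := p) (c := r) (by omega) (by omega)]
                      have q0 := four (σ := σ) (a := s) (b := t) (c := p) (d := q) (by omega) (by omega) (by omega)
                      have q1 := four (σ := σ) (a := s) (b := t) (c := q) (d := r) (by omega) (by omega) (by omega)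
                      have q2 := four (σ := σ) (a := s) (b := t) (c := p) (d := r) (by omega) (by omega) (by omega)
                      have q3 := four (σ := σ) (a := t) (b := p) (c := q) (d := r) (by omega) (by omega) (by omega)
                      have q4 := four (σ := σ) (a := s) (b := p) (c := q) (d := r) (by omega) (by omega) (by omega)
                      grind
  · rcases lt_or_gt_of_ne n_t_p.symm with c61|c61
    · rcases lt_or_gt_of_ne n_p_q.symm with c62|c62
      · rcases lt_or_gt_of_ne n_q_r.symm with c63|c63
        · rw [ccw_iff5 (a := p) (b := t) (c := s) (by omega) (by omega)] at h1
          rw [ccw_iff5 (a := q) (b := t) (c := s) (by omega) (by omega)] at h2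
          rw [ccw_iff5 (a := r) (b := t) (c := s) (by omega) (by omega)] at h3
          rw [ccw_iff5 (a := q) (b := p) (c := t) (by omega) (by omega)] at h4
          rw [ccw_iff5 (a := r) (b := q) (c := t) (by omega) (by omega)] at h5
          rw [ccw_iff5 (a := r) (b := p) (c := t) (by omega) (by omega)]
          have q0 := four (σ := σ) (a := q) (b := p) (c := t) (d := s) (by omega) (by omega) (by omega)
          have q1 := four (σ := σ) (a := r) (b := q) (c := t) (d := s) (by omega) (by omega) (by omega)
          have q2 := four (σ := σ) (a := r) (b := p) (c := t) (d := s) (by omega) (by omega) (by omega)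
          have q3 := four (σ := σ) (a := r) (b := q) (c := p) (d := t) (by omega) (by omega) (by omega)
          have q4 := four (σ := σ) (a := r) (b := q) (c := p) (d := s) (by omega) (by omega) (by omega)
          grind
        · rcases lt_or_gt_of_ne n_p_r.symm with c64|c64
          · rw [ccw_iff5 (a := p) (b := t) (c := s) (by omega) (by omega)] at h1
            rw [ccw_iff5 (a := q) (b := t) (c := s) (by omega) (by omega)] at h2
            rw [ccw_iff5 (a := r) (b := t) (c := s) (by omega) (by omega)] at h3
            rw [ccw_iff5 (a := q) (b := p) (c := t) (by omega) (by omega)] at h4
            rw [ccw_iff3 (a := q) (b := r) (c := t) (by omega) (by omega)] at h5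
            rw [ccw_iff5 (a := r) (b := p) (c := t) (by omega) (by omega)]
            have q0 := four (σ := σ) (a := q) (b := p) (c := t) (d := s) (by omega) (by omega) (by omega)
            have q1 := four (σ := σ) (a := q) (b := r) (c := t) (d := s) (by omega) (by omega) (by omega)
            have q2 := four (σ := σ) (a := r) (b := p) (c := t) (d := s) (by omega) (by omega) (by omega)
            have q3 := four (σ := σ) (a := q) (b := r) (c := p) (d := t) (by omega) (by omega) (by omega)
            have q4 := four (σ := σ) (a := q) (b := r) (c := p) (d := s) (by omega) (by omega) (by omega)
            grind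
          · rcases lt_or_gt_of_ne n_t_r.symm with c65|c65
            · rw [ccw_iff5 (a := p) (b := t) (c := s) (by omega) (by omega)] at h1
              rw [ccw_iff5 (a := q) (b := t) (c := s) (by omega) (by omega)] at h2
              rw [ccw_iff5 (a := r) (b := t) (c := s) (by omega) (by omega)] at h3
              rw [ccw_iff5 (a := q) (b := p) (c := t) (by omega) (by omega)] at h4
              rw [ccw_iff3 (a := q) (b := r) (c := t) (by omega) (by omega)] at h5
              rw [ccw_iff3 (a := p) (b := r) (c := t) (by omega) (by omega)]
              have q0 := four (σ := σ) (a := q) (b := p) (c := t) (d := s) (by omega) (by omega) (by omega)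
              have q1 := four (σ := σ) (a := q) (b := r) (c := t) (d := s) (by omega) (by omega) (by omega)
              have q2 := four (σ := σ) (a := p) (b := r) (c := t) (d := s) (by omega) (by omega) (by omega)
              have q3 := four (σ := σ) (a := q) (b := p) (c := r) (d := t) (by omega) (by omega) (by omega)
              have q4 := four (σ := σ) (a := q) (b := p) (c := r) (d := s) (by omega) (by omega) (by omega)
              grind
            · rcases lt_or_gt_of_ne n_s_r.symm with c66|c66
              · rw [ccw_iff5 (a := p) (b := t) (c := s) (by omega) (by omega)] at h1
                rw [ccw_iff5 (a := q) (b := t) (c := s) (by omega) (by omega)] at h2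
                rw [ccw_iff3 (a := t) (b := r) (c := s) (by omega) (by omega)] at h3
                rw [ccw_iff5 (a := q) (b := p) (c := t) (by omega) (by omega)] at h4
                rw [ccw_iff6 (a := q) (b := t) (c := r) (by omega) (by omega)] at h5
                rw [ccw_iff6 (a := p) (b := t) (c := r) (by omega) (by omega)]
                have q0 := four (σ := σ) (a := q) (b := p) (c := t) (d := s) (by omega) (by omega) (by omega)
                have q1 := four (σ := σ) (a := q) (b := t) (c := r) (d := s) (by omega) (by omega) (by omega)
                have q2 := four (σ := σ) (a := p) (b := t) (c := r) (d := s) (by omega) (by omega) (by omega)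
                have q3 := four (σ := σ) (a := q) (b := p) (c := t) (d := r) (by omega) (by omega) (by omega)
                have q4 := four (σ := σ) (a := q) (b := p) (c := r) (d := s) (by omega) (by omega) (by omega)
                grind
              · rw [ccw_iff5 (a := p) (b := t) (c := s) (by omega) (by omega)] at h1
                rw [ccw_iff5 (a := q) (b := t) (c := s) (by omega) (by omega)] at h2
                rw [ccw_iff6 (a := t) (b := s) (c := r) (by omega) (by omega)] at h3
                rw [ccw_iff5 (a := q) (b := p) (c := t) (by omega) (by omega)] at h4
                rw [ccw_iff6 (a := q) (b := t) (c := r) (by omega) (by omega)] at h5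
                rw [ccw_iff6 (a := p) (b := t) (c := r) (by omega) (by omega)]
                have q0 := four (σ := σ) (a := q) (b := p) (c := t) (d := s) (by omega) (by omega) (by omega)
                have q1 := four (σ := σ) (a := q) (b := t) (c := s) (d := r) (by omega) (by omega) (by omega)
                have q2 := four (σ := σ) (a := p) (b := t) (c := s) (d := r) (by omega) (by omega) (by omega)
                have q3 := four (σ := σ) (a := q) (b := p) (c := t) (d := r) (by omega) (by omega) (by omega)
                have q4 := four (σ := σ) (a := q) (b := p) (c := s) (d := r) (by omega) (by omega) (by omega)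
                grind
      · rcases lt_or_gt_of_ne n_t_q.symm with c67|c67
        · rcases lt_or_gt_of_ne n_p_r.symm with c68|c68
          · rw [ccw_iff5 (a := p) (b := t) (c := s) (by omega) (by omega)] at h1
            rw [ccw_iff5 (a := q) (b := t) (c := s) (by omega) (by omega)] at h2
            rw [ccw_iff5 (a := r) (b := t) (c := s) (by omega) (by omega)] at h3
            rw [ccw_iff3 (a := p) (b := q) (c := t) (by omega) (by omega)] at h4
            rw [ccw_iff5 (a := r) (b := q) (c := t) (by omega) (by omega)] at h5
            rw [ccw_iff5 (a := r) (b := p) (c := t) (by omega) (by omega)]
            have q0 := four (σ := σ) (a := p) (b := q) (c := t) (d := s) (by omega) (by omega) (by omega)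
            have q1 := four (σ := σ) (a := r) (b := q) (c := t) (d := s) (by omega) (by omega) (by omega)
            have q2 := four (σ := σ) (a := r) (b := p) (c := t) (d := s) (by omega) (by omega) (by omega)
            have q3 := four (σ := σ) (a := r) (b := p) (c := q) (d := t) (by omega) (by omega) (by omega)
            have q4 := four (σ := σ) (a := r) (b := p) (c := q) (d := s) (by omega) (by omega) (by omega)
            grind
          · rcases lt_or_gt_of_ne n_q_r.symm with c69|c69
            · rw [ccw_iff5 (a := p) (b := t) (c := s) (by omega) (by omega)] at h1
              rw [ccw_iff5 (a := q) (b := t) (c := s) (by omega) (by omega)] at h2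
              rw [ccw_iff5 (a := r) (b := t) (c := s) (by omega) (by omega)] at h3
              rw [ccw_iff3 (a := p) (b := q) (c := t) (by omega) (by omega)] at h4
              rw [ccw_iff5 (a := r) (b := q) (c := t) (by omega) (by omega)] at h5
              rw [ccw_iff3 (a := p) (b := r) (c := t) (by omega) (by omega)]
              have q0 := four (σ := σ) (a := p) (b := q) (c := t) (d := s) (by omega) (by omega) (by omega)
              have q1 := four (σ := σ) (a := r) (b := q) (c := t) (d := s) (by omega) (by omega) (by omega)
              have q2 := four (σ := σ) (a := p) (b := r) (c := t) (d := s) (by omega) (by omega) (by omega)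
              have q3 := four (σ := σ) (a := p) (b := r) (c := q) (d := t) (by omega) (by omega) (by omega)
              have q4 := four (σ := σ) (a := p) (b := r) (c := q) (d := s) (by omega) (by omega) (by omega)
              grind
            · rcases lt_or_gt_of_ne n_t_r.symm with c70|c70
              · rw [ccw_iff5 (a := p) (b := t) (c := s) (by omega) (by omega)] at h1
                rw [ccw_iff5 (a := q) (b := t) (c := s) (by omega) (by omega)] at h2
                rw [ccw_iff5 (a := r) (b := t) (c := s) (by omega) (by omega)] at h3
                rw [ccw_iff3 (a := p) (b := q) (c := t) (by omega) (by omega)] at h4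
                rw [ccw_iff3 (a := q) (b := r) (c := t) (by omega) (by omega)] at h5
                rw [ccw_iff3 (a := p) (b := r) (c := t) (by omega) (by omega)]
                have q0 := four (σ := σ) (a := p) (b := q) (c := t) (d := s) (by omega) (by omega) (by omega)
                have q1 := four (σ := σ) (a := q) (b := r) (c := t) (d := s) (by omega) (by omega) (by omega)
                have q2 := four (σ := σ) (a := p) (b := r) (c := t) (d := s) (by omega) (by omega) (by omega)
                have q3 := four (σ := σ) (a := p) (b := q) (c := r) (d := t) (by omega) (by omega) (by omega)
                have q4 := four (σ := σ) (a := p) (b := q) (c := r) (d := s) (by omega) (by omega) (by omega)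
                grind
              · rcases lt_or_gt_of_ne n_s_r.symm with c71|c71
                · rw [ccw_iff5 (a := p) (b := t) (c := s) (by omega) (by omega)] at h1
                  rw [ccw_iff5 (a := q) (b := t) (c := s) (by omega) (by omega)] at h2
                  rw [ccw_iff3 (a := t) (b := r) (c := s) (by omega) (by omega)] at h3
                  rw [ccw_iff3 (a := p) (b := q) (c := t) (by omega) (by omega)] at h4
                  rw [ccw_iff6 (a := q) (b := t) (c := r) (by omega) (by omega)] at h5
                  rw [ccw_iff6 (a := p) (b := t) (c := r) (by omega) (by omega)]
                  have q0 := four (σ := σ) (a := p) (b := q) (c := t) (d := s) (by omega) (by omega) (by omega)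
                  have q1 := four (σ := σ) (a := q) (b := t) (c := r) (d := s) (by omega) (by omega) (by omega)
                  have q2 := four (σ := σ) (a := p) (b := t) (c := r) (d := s) (by omega) (by omega) (by omega)
                  have q3 := four (σ := σ) (a := p) (b := q) (c := t) (d := r) (by omega) (by omega) (by omega)
                  have q4 := four (σ := σ) (a := p) (b := q) (c := r) (d := s) (by omega) (by omega) (by omega)
                  grind
                · rw [ccw_iff5 (a := p) (b := t) (c := s) (by omega) (by omega)] at h1
                  rw [ccw_iff5 (a := q) (b := t) (c := s) (by omega) (by omega)] at h2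
                  rw [ccw_iff6 (a := t) (b := s) (c := r) (by omega) (by omega)] at h3
                  rw [ccw_iff3 (a := p) (b := q) (c := t) (by omega) (by omega)] at h4
                  rw [ccw_iff6 (a := q) (b := t) (c := r) (by omega) (by omega)] at h5
                  rw [ccw_iff6 (a := p) (b := t) (c := r) (by omega) (by omega)]
                  have q0 := four (σ := σ) (a := p) (b := q) (c := t) (d := s) (by omega) (by omega) (by omega)
                  have q1 := four (σ := σ) (a := q) (b := t) (c := s) (d := r) (by omega) (by omega) (by omega)
                  have q2 := four (σ := σ) (a := p) (b := t) (c := s) (d := r) (by omega) (by omega) (by omega)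
                  have q3 := four (σ := σ) (a := p) (b := q) (c := t) (d := r) (by omega) (by omega) (by omega)
                  have q4 := four (σ := σ) (a := p) (b := q) (c := s) (d := r) (by omega) (by omega) (by omega)
                  grind
        · rcases lt_or_gt_of_ne n_s_q.symm with c72|c72
          · rcases lt_or_gt_of_ne n_p_r.symm with c73|c73
            · rw [ccw_iff5 (a := p) (b := t) (c := s) (by omega) (by omega)] at h1
              rw [ccw_iff3 (a := t) (b := q) (c := s) (by omega) (by omega)] at h2
              rw [ccw_iff5 (a := r) (b := t) (c := s) (by omega) (by omega)] at h3
              rw [ccw_iff6 (a := p) (b := t) (c := q) (by omega) (by omega)] at h4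
              rw [ccw_iff2 (a := r) (b := t) (c := q) (by omega) (by omega)] at h5
              rw [ccw_iff5 (a := r) (b := p) (c := t) (by omega) (by omega)]
              have q0 := four (σ := σ) (a := p) (b := t) (c := q) (d := s) (by omega) (by omega) (by omega)
              have q1 := four (σ := σ) (a := r) (b := t) (c := q) (d := s) (by omega) (by omega) (by omega)
              have q2 := four (σ := σ) (a := r) (b := p) (c := t) (d := s) (by omega) (by omega) (by omega)
              have q3 := four (σ := σ) (a := r) (b := p) (c := t) (d := q) (by omega) (by omega) (by omega)
              have q4 := four (σ := σ) (a := r) (b := p) (c := q) (d := s) (by omega) (by omega) (by omega)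
              grind
            · rcases lt_or_gt_of_ne n_t_r.symm with c74|c74
              · rw [ccw_iff5 (a := p) (b := t) (c := s) (by omega) (by omega)] at h1
                rw [ccw_iff3 (a := t) (b := q) (c := s) (by omega) (by omega)] at h2
                rw [ccw_iff5 (a := r) (b := t) (c := s) (by omega) (by omega)] at h3
                rw [ccw_iff6 (a := p) (b := t) (c := q) (by omega) (by omega)] at h4
                rw [ccw_iff2 (a := r) (b := t) (c := q) (by omega) (by omega)] at h5
                rw [ccw_iff3 (a := p) (b := r) (c := t) (by omega) (by omega)]
                have q0 := four (σ := σ) (a := p) (b := t) (c := q) (d := s) (by omega) (by omega) (by omega)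
                have q1 := four (σ := σ) (a := r) (b := t) (c := q) (d := s) (by omega) (by omega) (by omega)
                have q2 := four (σ := σ) (a := p) (b := r) (c := t) (d := s) (by omega) (by omega) (by omega)
                have q3 := four (σ := σ) (a := p) (b := r) (c := t) (d := q) (by omega) (by omega) (by omega)
                have q4 := four (σ := σ) (a := p) (b := r) (c := q) (d := s) (by omega) (by omega) (by omega)
                grind
              · rcases lt_or_gt_of_ne n_q_r.symm with c75|c75
                · rw [ccw_iff5 (a := p) (b := t) (c := s) (by omega) (by omega)] at h1
                  rw [ccw_iff3 (a := t) (b := q) (c := s) (by omega) (by omega)] at h2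
                  rw [ccw_iff3 (a := t) (b := r) (c := s) (by omega) (by omega)] at h3
                  rw [ccw_iff6 (a := p) (b := t) (c := q) (by omega) (by omega)] at h4
                  rw [ccw_iff4 (a := t) (b := r) (c := q) (by omega) (by omega)] at h5
                  rw [ccw_iff6 (a := p) (b := t) (c := r) (by omega) (by omega)]
                  have q0 := four (σ := σ) (a := p) (b := t) (c := q) (d := s) (by omega) (by omega) (by omega)
                  have q1 := four (σ := σ) (a := t) (b := r) (c := q) (d := s) (by omega) (by omega) (by omega)
                  have q2 := four (σ := σ) (a := p) (b := t) (c := r) (d := s) (by omega) (by omega) (by omega)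
                  have q3 := four (σ := σ) (a := p) (b := t) (c := r) (d := q) (by omega) (by omega) (by omega)
                  have q4 := four (σ := σ) (a := p) (b := r) (c := q) (d := s) (by omega) (by omega) (by omega)
                  grind
                · rcases lt_or_gt_of_ne n_s_r.symm with c76|c76
                  · rw [ccw_iff5 (a := p) (b := t) (c := s) (by omega) (by omega)] at h1
                    rw [ccw_iff3 (a := t) (b := q) (c := s) (by omega) (by omega)] at h2
                    rw [ccw_iff3 (a := t) (b := r) (c := s) (by omega) (by omega)] at h3
                    rw [ccw_iff6 (a := p) (b := t) (c := q) (by omega) (by omega)] at h4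
                    rw [ccw_iff1 (a := t) (b := q) (c := r) (by omega) (by omega)] at h5
                    rw [ccw_iff6 (a := p) (b := t) (c := r) (by omega) (by omega)]
                    have q0 := four (σ := σ) (a := p) (b := t) (c := q) (d := s) (by omega) (by omega) (by omega)
                    have q1 := four (σ := σ) (a := t) (b := q) (c := r) (d := s) (by omega) (by omega) (by omega)
                    have q2 := four (σ := σ) (a := p) (b := t) (c := r) (d := s) (by omega) (by omega) (by omega)
                    have q3 := four (σ := σ) (a := p) (b := t) (c := q) (d := r) (by omega) (by omega) (by omega)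
                    have q4 := four (σ := σ) (a := p) (b := q) (c := r) (d := s) (by omega) (by omega) (by omega)
                    grind
                  · rw [ccw_iff5 (a := p) (b := t) (c := s) (by omega) (by omega)] at h1
                    rw [ccw_iff3 (a := t) (b := q) (c := s) (by omega) (by omega)] at h2
                    rw [ccw_iff6 (a := t) (b := s) (c := r) (by omega) (by omega)] at h3
                    rw [ccw_iff6 (a := p) (b := t) (c := q) (by omega) (by omega)] at h4
                    rw [ccw_iff1 (a := t) (b := q) (c := r) (by omega) (by omega)] at h5
                    rw [ccw_iff6 (a := p) (b := t) (c := r) (by omega) (by omega)]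
                    have q0 := four (σ := σ) (a := p) (b := t) (c := q) (d := s) (by omega) (by omega) (by omega)
                    have q1 := four (σ := σ) (a := t) (b := q) (c := s) (d := r) (by omega) (by omega) (by omega)
                    have q2 := four (σ := σ) (a := p) (b := t) (c := s) (d := r) (by omega) (by omega) (by omega)
                    have q3 := four (σ := σ) (a := p) (b := t) (c := q) (d := r) (by omega) (by omega) (by omega)
                    have q4 := four (σ := σ) (a := p) (b := q) (c := s) (d := r) (by omega) (by omega) (by omega)
                    grind
          · rcases lt_or_gt_of_ne n_p_r.symm with c77|c77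
            · rw [ccw_iff5 (a := p) (b := t) (c := s) (by omega) (by omega)] at h1
              rw [ccw_iff6 (a := t) (b := s) (c := q) (by omega) (by omega)] at h2
              rw [ccw_iff5 (a := r) (b := t) (c := s) (by omega) (by omega)] at h3
              rw [ccw_iff6 (a := p) (b := t) (c := q) (by omega) (by omega)] at h4
              rw [ccw_iff2 (a := r) (b := t) (c := q) (by omega) (by omega)] at h5
              rw [ccw_iff5 (a := r) (b := p) (c := t) (by omega) (by omega)]
              have q0 := four (σ := σ) (a := p) (b := t) (c := s) (d := q) (by omega) (by omega) (by omega)
              have q1 := four (σ := σ) (a := r) (b := t) (c := s) (d := q) (by omega) (by omega) (by omega)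
              have q2 := four (σ := σ) (a := r) (b := p) (c := t) (d := s) (by omega) (by omega) (by omega)
              have q3 := four (σ := σ) (a := r) (b := p) (c := t) (d := q) (by omega) (by omega) (by omega)
              have q4 := four (σ := σ) (a := r) (b := p) (c := s) (d := q) (by omega) (by omega) (by omega)
              grind
            · rcases lt_or_gt_of_ne n_t_r.symm with c78|c78
              · rw [ccw_iff5 (a := p) (b := t) (c := s) (by omega) (by omega)] at h1
                rw [ccw_iff6 (a := t) (b := s) (c := q) (by omega) (by omega)] at h2
                rw [ccw_iff5 (a := r) (b := t) (c := s) (by omega) (by omega)] at h3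
                rw [ccw_iff6 (a := p) (b := t) (c := q) (by omega) (by omega)] at h4
                rw [ccw_iff2 (a := r) (b := t) (c := q) (by omega) (by omega)] at h5
                rw [ccw_iff3 (a := p) (b := r) (c := t) (by omega) (by omega)]
                have q0 := four (σ := σ) (a := p) (b := t) (c := s) (d := q) (by omega) (by omega) (by omega)
                have q1 := four (σ := σ) (a := r) (b := t) (c := s) (d := q) (by omega) (by omega) (by omega)
                have q2 := four (σ := σ) (a := p) (b := r) (c := t) (d := s) (by omega) (by omega) (by omega)
                have q3 := four (σ := σ) (a := p) (b := r) (c := t) (d := q) (by omega) (by omega) (by omega)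
                have q4 := four (σ := σ) (a := p) (b := r) (c := s) (d := q) (by omega) (by omega) (by omega)
                grind
              · rcases lt_or_gt_of_ne n_s_r.symm with c79|c79
                · rw [ccw_iff5 (a := p) (b := t) (c := s) (by omega) (by omega)] at h1
                  rw [ccw_iff6 (a := t) (b := s) (c := q) (by omega) (by omega)] at h2
                  rw [ccw_iff3 (a := t) (b := r) (c := s) (by omega) (by omega)] at h3
                  rw [ccw_iff6 (a := p) (b := t) (c := q) (by omega) (by omega)] at h4
                  rw [ccw_iff4 (a := t) (b := r) (c := q) (by omega) (by omega)] at h5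
                  rw [ccw_iff6 (a := p) (b := t) (c := r) (by omega) (by omega)]
                  have q0 := four (σ := σ) (a := p) (b := t) (c := s) (d := q) (by omega) (by omega) (by omega)
                  have q1 := four (σ := σ) (a := t) (b := r) (c := s) (d := q) (by omega) (by omega) (by omega)
                  have q2 := four (σ := σ) (a := p) (b := t) (c := r) (d := s) (by omega) (by omega) (by omega)
                  have q3 := four (σ := σ) (a := p) (b := t) (c := r) (d := q) (by omega) (by omega) (by omega)
                  have q4 := four (σ := σ) (a := p) (b := r) (c := s) (d := q) (by omega) (by omega) (by omega)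
                  grind
                · rcases lt_or_gt_of_ne n_q_r.symm with c80|c80
                  · rw [ccw_iff5 (a := p) (b := t) (c := s) (by omega) (by omega)] at h1
                    rw [ccw_iff6 (a := t) (b := s) (c := q) (by omega) (by omega)] at h2
                    rw [ccw_iff6 (a := t) (b := s) (c := r) (by omega) (by omega)] at h3
                    rw [ccw_iff6 (a := p) (b := t) (c := q) (by omega) (by omega)] at h4
                    rw [ccw_iff4 (a := t) (b := r) (c := q) (by omega) (by omega)] at h5
                    rw [ccw_iff6 (a := p) (b := t) (c := r) (by omega) (by omega)]
                    have q0 := four (σ := σ) (a := p) (b := t) (c := s) (d := q) (by omega) (by omega) (by omega)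
                    have q1 := four (σ := σ) (a := t) (b := s) (c := r) (d := q) (by omega) (by omega) (by omega)
                    have q2 := four (σ := σ) (a := p) (b := t) (c := s) (d := r) (by omega) (by omega) (by omega)
                    have q3 := four (σ := σ) (a := p) (b := t) (c := r) (d := q) (by omega) (by omega) (by omega)
                    have q4 := four (σ := σ) (a := p) (b := s) (c := r) (d := q) (by omega) (by omega) (by omega)
                    grind
                  · rw [ccw_iff5 (a := p) (b := t) (c := s) (by omega) (by omega)] at h1
                    rw [ccw_iff6 (a := t) (b := s) (c := q) (by omega) (by omega)] at h2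
                    rw [ccw_iff6 (a := t) (b := s) (c := r) (by omega) (by omega)] at h3
                    rw [ccw_iff6 (a := p) (b := t) (c := q) (by omega) (by omega)] at h4
                    rw [ccw_iff1 (a := t) (b := q) (c := r) (by omega) (by omega)] at h5
                    rw [ccw_iff6 (a := p) (b := t) (c := r) (by omega) (by omega)]
                    have q0 := four (σ := σ) (a := p) (b := t) (c := s) (d := q) (by omega) (by omega) (by omega)
                    have q1 := four (σ := σ) (a := t) (b := s) (c := q) (d := r) (by omega) (by omega) (by omega)
                    have q2 := four (σ := σ) (a := p) (b := t) (c := s) (d := r) (by omega) (by omega) (by omega)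
                    have q3 := four (σ := σ) (a := p) (b := t) (c := q) (d := r) (by omega) (by omega) (by omega)
                    have q4 := four (σ := σ) (a := p) (b := s) (c := q) (d := r) (by omega) (by omega) (by omega)
                    grind
    · rcases lt_or_gt_of_ne n_s_p.symm with c81|c81
      · rcases lt_or_gt_of_ne n_t_q.symm with c82|c82
        · rcases lt_or_gt_of_ne n_q_r.symm with c83|c83
          · rw [ccw_iff3 (a := t) (b := p) (c := s) (by omega) (by omega)] at h1
            rw [ccw_iff5 (a := q) (b := t) (c := s) (by omega) (by omega)] at h2
            rw [ccw_iff5 (a := r) (b := t) (c := s) (by omega) (by omega)] at h3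
            rw [ccw_iff2 (a := q) (b := t) (c := p) (by omega) (by omega)] at h4
            rw [ccw_iff5 (a := r) (b := q) (c := t) (by omega) (by omega)] at h5
            rw [ccw_iff2 (a := r) (b := t) (c := p) (by omega) (by omega)]
            have q0 := four (σ := σ) (a := q) (b := t) (c := p) (d := s) (by omega) (by omega) (by omega)
            have q1 := four (σ := σ) (a := r) (b := q) (c := t) (d := s) (by omega) (by omega) (by omega)
            have q2 := four (σ := σ) (a := r) (b := t) (c := p) (d := s) (by omega) (by omega) (by omega)
            have q3 := four (σ := σ) (a := r) (b := q) (c := t) (d := p) (by omega) (by omega) (by omega)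
            have q4 := four (σ := σ) (a := r) (b := q) (c := p) (d := s) (by omega) (by omega) (by omega)
            grind
          · rcases lt_or_gt_of_ne n_t_r.symm with c84|c84
            · rw [ccw_iff3 (a := t) (b := p) (c := s) (by omega) (by omega)] at h1
              rw [ccw_iff5 (a := q) (b := t) (c := s) (by omega) (by omega)] at h2
              rw [ccw_iff5 (a := r) (b := t) (c := s) (by omega) (by omega)] at h3
              rw [ccw_iff2 (a := q) (b := t) (c := p) (by omega) (by omega)] at h4
              rw [ccw_iff3 (a := q) (b := r) (c := t) (by omega) (by omega)] at h5
              rw [ccw_iff2 (a := r) (b := t) (c := p) (by omega) (by omega)]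
              have q0 := four (σ := σ) (a := q) (b := t) (c := p) (d := s) (by omega) (by omega) (by omega)
              have q1 := four (σ := σ) (a := q) (b := r) (c := t) (d := s) (by omega) (by omega) (by omega)
              have q2 := four (σ := σ) (a := r) (b := t) (c := p) (d := s) (by omega) (by omega) (by omega)
              have q3 := four (σ := σ) (a := q) (b := r) (c := t) (d := p) (by omega) (by omega) (by omega)
              have q4 := four (σ := σ) (a := q) (b := r) (c := p) (d := s) (by omega) (by omega) (by omega)
              grind
            · rcases lt_or_gt_of_ne n_p_r.symm with c85|c85
              · rw [ccw_iff3 (a := t) (b := p) (c := s) (by omega) (by omega)] at h1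
                rw [ccw_iff5 (a := q) (b := t) (c := s) (by omega) (by omega)] at h2
                rw [ccw_iff3 (a := t) (b := r) (c := s) (by omega) (by omega)] at h3
                rw [ccw_iff2 (a := q) (b := t) (c := p) (by omega) (by omega)] at h4
                rw [ccw_iff6 (a := q) (b := t) (c := r) (by omega) (by omega)] at h5
                rw [ccw_iff4 (a := t) (b := r) (c := p) (by omega) (by omega)]
                have q0 := four (σ := σ) (a := q) (b := t) (c := p) (d := s) (by omega) (by omega) (by omega)
                have q1 := four (σ := σ) (a := q) (b := t) (c := r) (d := s) (by omega) (by omega) (by omega)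
                have q2 := four (σ := σ) (a := t) (b := r) (c := p) (d := s) (by omega) (by omega) (by omega)
                have q3 := four (σ := σ) (a := q) (b := t) (c := r) (d := p) (by omega) (by omega) (by omega)
                have q4 := four (σ := σ) (a := q) (b := r) (c := p) (d := s) (by omega) (by omega) (by omega)
                grind
              · rcases lt_or_gt_of_ne n_s_r.symm with c86|c86
                · rw [ccw_iff3 (a := t) (b := p) (c := s) (by omega) (by omega)] at h1
                  rw [ccw_iff5 (a := q) (b := t) (c := s) (by omega) (by omega)] at h2
                  rw [ccw_iff3 (a := t) (b := r) (c := s) (by omega) (by omega)] at h3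
                  rw [ccw_iff2 (a := q) (b := t) (c := p) (by omega) (by omega)] at h4
                  rw [ccw_iff6 (a := q) (b := t) (c := r) (by omega) (by omega)] at h5
                  rw [ccw_iff1 (a := t) (b := p) (c := r) (by omega) (by omega)]
                  have q0 := four (σ := σ) (a := q) (b := t) (c := p) (d := s) (by omega) (by omega) (by omega)
                  have q1 := four (σ := σ) (a := q) (b := t) (c := r) (d := s) (by omega) (by omega) (by omega)
                  have q2 := four (σ := σ) (a := t) (b := p) (c := r) (d := s) (by omega) (by omega) (by omega)
                  have q3 := four (σ := σ) (a := q) (b := t) (c := p) (d := r) (by omega) (by omega) (by omega)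
                  have q4 := four (σ := σ) (a := q) (b := p) (c := r) (d := s) (by omega) (by omega) (by omega)
                  grind
                · rw [ccw_iff3 (a := t) (b := p) (c := s) (by omega) (by omega)] at h1
                  rw [ccw_iff5 (a := q) (b := t) (c := s) (by omega) (by omega)] at h2
                  rw [ccw_iff6 (a := t) (b := s) (c := r) (by omega) (by omega)] at h3
                  rw [ccw_iff2 (a := q) (b := t) (c := p) (by omega) (by omega)] at h4
                  rw [ccw_iff6 (a := q) (b := t) (c := r) (by omega) (by omega)] at h5
                  rw [ccw_iff1 (a := t) (b := p) (c := r) (by omega) (by omega)]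
                  have q0 := four (σ := σ) (a := q) (b := t) (c := p) (d := s) (by omega) (by omega) (by omega)
                  have q1 := four (σ := σ) (a := q) (b := t) (c := s) (d := r) (by omega) (by omega) (by omega)
                  have q2 := four (σ := σ) (a := t) (b := p) (c := s) (d := r) (by omega) (by omega) (by omega)
                  have q3 := four (σ := σ) (a := q) (b := t) (c := p) (d := r) (by omega) (by omega) (by omega)
                  have q4 := four (σ := σ) (a := q) (b := p) (c := s) (d := r) (by omega) (by omega) (by omega)
                  grind
        · rcases lt_or_gt_of_ne n_p_q.symm with c87|c87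
          · rcases lt_or_gt_of_ne n_t_r.symm with c88|c88
            · rw [ccw_iff3 (a := t) (b := p) (c := s) (by omega) (by omega)] at h1
              rw [ccw_iff3 (a := t) (b := q) (c := s) (by omega) (by omega)] at h2
              rw [ccw_iff5 (a := r) (b := t) (c := s) (by omega) (by omega)] at h3
              rw [ccw_iff4 (a := t) (b := q) (c := p) (by omega) (by omega)] at h4
              rw [ccw_iff2 (a := r) (b := t) (c := q) (by omega) (by omega)] at h5
              rw [ccw_iff2 (a := r) (b := t) (c := p) (by omega) (by omega)]
              have q0 := four (σ := σ) (a := t) (b := q) (c := p) (d := s) (by omega) (by omega) (by omega)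
              have q1 := four (σ := σ) (a := r) (b := t) (c := q) (d := s) (by omega) (by omega) (by omega)
              have q2 := four (σ := σ) (a := r) (b := t) (c := p) (d := s) (by omega) (by omega) (by omega)
              have q3 := four (σ := σ) (a := r) (b := t) (c := q) (d := p) (by omega) (by omega) (by omega)
              have q4 := four (σ := σ) (a := r) (b := q) (c := p) (d := s) (by omega) (by omega) (by omega)
              grind
            · rcases lt_or_gt_of_ne n_q_r.symm with c89|c89
              · rw [ccw_iff3 (a := t) (b := p) (c := s) (by omega) (by omega)] at h1
                rw [ccw_iff3 (a := t) (b := q) (c := s) (by omega) (by omega)] at h2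
                rw [ccw_iff3 (a := t) (b := r) (c := s) (by omega) (by omega)] at h3
                rw [ccw_iff4 (a := t) (b := q) (c := p) (by omega) (by omega)] at h4
                rw [ccw_iff4 (a := t) (b := r) (c := q) (by omega) (by omega)] at h5
                rw [ccw_iff4 (a := t) (b := r) (c := p) (by omega) (by omega)]
                have q0 := four (σ := σ) (a := t) (b := q) (c := p) (d := s) (by omega) (by omega) (by omega)
                have q1 := four (σ := σ) (a := t) (b := r) (c := q) (d := s) (by omega) (by omega) (by omega)
                have q2 := four (σ := σ) (a := t) (b := r) (c := p) (d := s) (by omega) (by omega) (by omega)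
                have q3 := four (σ := σ) (a := t) (b := r) (c := q) (d := p) (by omega) (by omega) (by omega)
                have q4 := four (σ := σ) (a := r) (b := q) (c := p) (d := s) (by omega) (by omega) (by omega)
                grind
              · rcases lt_or_gt_of_ne n_p_r.symm with c90|c90
                · rw [ccw_iff3 (a := t) (b := p) (c := s) (by omega) (by omega)] at h1
                  rw [ccw_iff3 (a := t) (b := q) (c := s) (by omega) (by omega)] at h2
                  rw [ccw_iff3 (a := t) (b := r) (c := s) (by omega) (by omega)] at h3
                  rw [ccw_iff4 (a := t) (b := q) (c := p) (by omega) (by omega)] at h4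
                  rw [ccw_iff1 (a := t) (b := q) (c := r) (by omega) (by omega)] at h5
                  rw [ccw_iff4 (a := t) (b := r) (c := p) (by omega) (by omega)]
                  have q0 := four (σ := σ) (a := t) (b := q) (c := p) (d := s) (by omega) (by omega) (by omega)
                  have q1 := four (σ := σ) (a := t) (b := q) (c := r) (d := s) (by omega) (by omega) (by omega)
                  have q2 := four (σ := σ) (a := t) (b := r) (c := p) (d := s) (by omega) (by omega) (by omega)
                  have q3 := four (σ := σ) (a := t) (b := q) (c := r) (d := p) (by omega) (by omega) (by omega)
                  have q4 := four (σ := σ) (a := q) (b := r) (c := p) (d := s) (by omega) (by omega) (by omega)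
                  grind
                · rcases lt_or_gt_of_ne n_s_r.symm with c91|c91
                  · rw [ccw_iff3 (a := t) (b := p) (c := s) (by omega) (by omega)] at h1
                    rw [ccw_iff3 (a := t) (b := q) (c := s) (by omega) (by omega)] at h2
                    rw [ccw_iff3 (a := t) (b := r) (c := s) (by omega) (by omega)] at h3
                    rw [ccw_iff4 (a := t) (b := q) (c := p) (by omega) (by omega)] at h4
                    rw [ccw_iff1 (a := t) (b := q) (c := r) (by omega) (by omega)] at h5
                    rw [ccw_iff1 (a := t) (b := p) (c := r) (by omega) (by omega)]
                    have q0 := four (σ := σ) (a := t) (b := q) (c := p) (d := s) (by omega) (by omega) (by omega)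
                    have q1 := four (σ := σ) (a := t) (b := q) (c := r) (d := s) (by omega) (by omega) (by omega)
                    have q2 := four (σ := σ) (a := t) (b := p) (c := r) (d := s) (by omega) (by omega) (by omega)
                    have q3 := four (σ := σ) (a := t) (b := q) (c := p) (d := r) (by omega) (by omega) (by omega)
                    have q4 := four (σ := σ) (a := q) (b := p) (c := r) (d := s) (by omega) (by omega) (by omega)
                    grind
                  · rw [ccw_iff3 (a := t) (b := p) (c := s) (by omega) (by omega)] at h1
                    rw [ccw_iff3 (a := t) (b := q) (c := s) (by omega) (by omega)] at h2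
                    rw [ccw_iff6 (a := t) (b := s) (c := r) (by omega) (by omega)] at h3
                    rw [ccw_iff4 (a := t) (b := q) (c := p) (by omega) (by omega)] at h4
                    rw [ccw_iff1 (a := t) (b := q) (c := r) (by omega) (by omega)] at h5
                    rw [ccw_iff1 (a := t) (b := p) (c := r) (by omega) (by omega)]
                    have q0 := four (σ := σ) (a := t) (b := q) (c := p) (d := s) (by omega) (by omega) (by omega)
                    have q1 := four (σ := σ) (a := t) (b := q) (c := s) (d := r) (by omega) (by omega) (by omega)
                    have q2 := four (σ := σ) (a := t) (b := p) (c := s) (d := r) (by omega) (by omega) (by omega)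
                    have q3 := four (σ := σ) (a := t) (b := q) (c := p) (d := r) (by omega) (by omega) (by omega)
                    have q4 := four (σ := σ) (a := q) (b := p) (c := s) (d := r) (by omega) (by omega) (by omega)
                    grind
          · rcases lt_or_gt_of_ne n_s_q.symm with c92|c92
            · rcases lt_or_gt_of_ne n_t_r.symm with c93|c93
              · rw [ccw_iff3 (a := t) (b := p) (c := s) (by omega) (by omega)] at h1
                rw [ccw_iff3 (a := t) (b := q) (c := s) (by omega) (by omega)] at h2
                rw [ccw_iff5 (a := r) (b := t) (c := s) (by omega) (by omega)] at h3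
                rw [ccw_iff1 (a := t) (b := p) (c := q) (by omega) (by omega)] at h4
                rw [ccw_iff2 (a := r) (b := t) (c := q) (by omega) (by omega)] at h5
                rw [ccw_iff2 (a := r) (b := t) (c := p) (by omega) (by omega)]
                have q0 := four (σ := σ) (a := t) (b := p) (c := q) (d := s) (by omega) (by omega) (by omega)
                have q1 := four (σ := σ) (a := r) (b := t) (c := q) (d := s) (by omega) (by omega) (by omega)
                have q2 := four (σ := σ) (a := r) (b := t) (c := p) (d := s) (by omega) (by omega) (by omega)
                have q3 := four (σ := σ) (a := r) (b := t) (c := p) (d := q) (by omega) (by omega) (by omega)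
                have q4 := four (σ := σ) (a := r) (b := p) (c := q) (d := s) (by omega) (by omega) (by omega)
                grind
              · rcases lt_or_gt_of_ne n_p_r.symm with c94|c94
                · rw [ccw_iff3 (a := t) (b := p) (c := s) (by omega) (by omega)] at h1
                  rw [ccw_iff3 (a := t) (b := q) (c := s) (by omega) (by omega)] at h2
                  rw [ccw_iff3 (a := t) (b := r) (c := s) (by omega) (by omega)] at h3
                  rw [ccw_iff1 (a := t) (b := p) (c := q) (by omega) (by omega)] at h4
                  rw [ccw_iff4 (a := t) (b := r) (c := q) (by omega) (by omega)] at h5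
                  rw [ccw_iff4 (a := t) (b := r) (c := p) (by omega) (by omega)]
                  have q0 := four (σ := σ) (a := t) (b := p) (c := q) (d := s) (by omega) (by omega) (by omega)
                  have q1 := four (σ := σ) (a := t) (b := r) (c := q) (d := s) (by omega) (by omega) (by omega)
                  have q2 := four (σ := σ) (a := t) (b := r) (c := p) (d := s) (by omega) (by omega) (by omega)
                  have q3 := four (σ := σ) (a := t) (b := r) (c := p) (d := q) (by omega) (by omega) (by omega)
                  have q4 := four (σ := σ) (a := r) (b := p) (c := q) (d := s) (by omega) (by omega) (by omega)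
                  grind
                · rcases lt_or_gt_of_ne n_q_r.symm with c95|c95
                  · rw [ccw_iff3 (a := t) (b := p) (c := s) (by omega) (by omega)] at h1
                    rw [ccw_iff3 (a := t) (b := q) (c := s) (by omega) (by omega)] at h2
                    rw [ccw_iff3 (a := t) (b := r) (c := s) (by omega) (by omega)] at h3
                    rw [ccw_iff1 (a := t) (b := p) (c := q) (by omega) (by omega)] at h4
                    rw [ccw_iff4 (a := t) (b := r) (c := q) (by omega) (by omega)] at h5
                    rw [ccw_iff1 (a := t) (b := p) (c := r) (by omega) (by omega)]
                    have q0 := four (σ := σ) (a := t) (b := p) (c := q) (d := s) (by omega) (by omega) (by omega)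
                    have q1 := four (σ := σ) (a := t) (b := r) (c := q) (d := s) (by omega) (by omega) (by omega)
                    have q2 := four (σ := σ) (a := t) (b := p) (c := r) (d := s) (by omega) (by omega) (by omega)
                    have q3 := four (σ := σ) (a := t) (b := p) (c := r) (d := q) (by omega) (by omega) (by omega)
                    have q4 := four (σ := σ) (a := p) (b := r) (c := q) (d := s) (by omega) (by omega) (by omega)
                    grind
                  · rcases lt_or_gt_of_ne n_s_r.symm with c96|c96
                    · rw [ccw_iff3 (a := t) (b := p) (c := s) (by omega) (by omega)] at h1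
                      rw [ccw_iff3 (a := t) (b := q) (c := s) (by omega) (by omega)] at h2
                      rw [ccw_iff3 (a := t) (b := r) (c := s) (by omega) (by omega)] at h3
                      rw [ccw_iff1 (a := t) (b := p) (c := q) (by omega) (by omega)] at h4
                      rw [ccw_iff1 (a := t) (b := q) (c := r) (by omega) (by omega)] at h5
                      rw [ccw_iff1 (a := t) (b := p) (c := r) (by omega) (by omega)]
                      have q0 := four (σ := σ) (a := t) (b := p) (c := q) (d := s) (by omega) (by omega) (by omega)
                      have q1 := four (σ := σ) (a := t) (b := q) (c := r) (d := s) (by omega) (by omega) (by omega)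
                      have q2 := four (σ := σ) (a := t) (b := p) (c := r) (d := s) (by omega) (by omega) (by omega)
                      have q3 := four (σ := σ) (a := t) (b := p) (c := q) (d := r) (by omega) (by omega) (by omega)
                      have q4 := four (σ := σ) (a := p) (b := q) (c := r) (d := s) (by omega) (by omega) (by omega)
                      grind
                    · rw [ccw_iff3 (a := t) (b := p) (c := s) (by omega) (by omega)] at h1
                      rw [ccw_iff3 (a := t) (b := q) (c := s) (by omega) (by omega)] at h2
                      rw [ccw_iff6 (a := t) (b := s) (c := r) (by omega) (by omega)] at h3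
                      rw [ccw_iff1 (a := t) (b := p) (c := q) (by omega) (by omega)] at h4
                      rw [ccw_iff1 (a := t) (b := q) (c := r) (by omega) (by omega)] at h5
                      rw [ccw_iff1 (a := t) (b := p) (c := r) (by omega) (by omega)]
                      have q0 := four (σ := σ) (a := t) (b := p) (c := q) (d := s) (by omega) (by omega) (by omega)
                      have q1 := four (σ := σ) (a := t) (b := q) (c := s) (d := r) (by omega) (by omega) (by omega)
                      have q2 := four (σ := σ) (a := t) (b := p) (c := s) (d := r) (by omega) (by omega) (by omega)
                      have q3 := four (σ := σ) (a := t) (b := p) (c := q) (d := r) (by omega) (by omega) (by omega)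
                      have q4 := four (σ := σ) (a := p) (b := q) (c := s) (d := r) (by omega) (by omega) (by omega)
                      grind
            · rcases lt_or_gt_of_ne n_t_r.symm with c97|c97
              · rw [ccw_iff3 (a := t) (b := p) (c := s) (by omega) (by omega)] at h1
                rw [ccw_iff6 (a := t) (b := s) (c := q) (by omega) (by omega)] at h2
                rw [ccw_iff5 (a := r) (b := t) (c := s) (by omega) (by omega)] at h3
                rw [ccw_iff1 (a := t) (b := p) (c := q) (by omega) (by omega)] at h4
                rw [ccw_iff2 (a := r) (b := t) (c := q) (by omega) (by omega)] at h5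
                rw [ccw_iff2 (a := r) (b := t) (c := p) (by omega) (by omega)]
                have q0 := four (σ := σ) (a := t) (b := p) (c := s) (d := q) (by omega) (by omega) (by omega)
                have q1 := four (σ := σ) (a := r) (b := t) (c := s) (d := q) (by omega) (by omega) (by omega)
                have q2 := four (σ := σ) (a := r) (b := t) (c := p) (d := s) (by omega) (by omega) (by omega)
                have q3 := four (σ := σ) (a := r) (b := t) (c := p) (d := q) (by omega) (by omega) (by omega)
                have q4 := four (σ := σ) (a := r) (b := p) (c := s) (d := q) (by omega) (by omega) (by omega)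
                grind
              · rcases lt_or_gt_of_ne n_p_r.symm with c98|c98
                · rw [ccw_iff3 (a := t) (b := p) (c := s) (by omega) (by omega)] at h1
                  rw [ccw_iff6 (a := t) (b := s) (c := q) (by omega) (by omega)] at h2
                  rw [ccw_iff3 (a := t) (b := r) (c := s) (by omega) (by omega)] at h3
                  rw [ccw_iff1 (a := t) (b := p) (c := q) (by omega) (by omega)] at h4
                  rw [ccw_iff4 (a := t) (b := r) (c := q) (by omega) (by omega)] at h5
                  rw [ccw_iff4 (a := t) (b := r) (c := p) (by omega) (by omega)]
                  have q0 := four (σ := σ) (a := t) (b := p) (c := s) (d := q) (by omega) (by omega) (by omega)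
                  have q1 := four (σ := σ) (a := t) (b := r) (c := s) (d := q) (by omega) (by omega) (by omega)
                  have q2 := four (σ := σ) (a := t) (b := r) (c := p) (d := s) (by omega) (by omega) (by omega)
                  have q3 := four (σ := σ) (a := t) (b := r) (c := p) (d := q) (by omega) (by omega) (by omega)
                  have q4 := four (σ := σ) (a := r) (b := p) (c := s) (d := q) (by omega) (by omega) (by omega)
                  grind
                · rcases lt_or_gt_of_ne n_s_r.symm with c99|c99
                  · rw [ccw_iff3 (a := t) (b := p) (c := s) (by omega) (by omega)] at h1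
                    rw [ccw_iff6 (a := t) (b := s) (c := q) (by omega) (by omega)] at h2
                    rw [ccw_iff3 (a := t) (b := r) (c := s) (by omega) (by omega)] at h3
                    rw [ccw_iff1 (a := t) (b := p) (c := q) (by omega) (by omega)] at h4
                    rw [ccw_iff4 (a := t) (b := r) (c := q) (by omega) (by omega)] at h5
                    rw [ccw_iff1 (a := t) (b := p) (c := r) (by omega) (by omega)]
                    have q0 := four (σ := σ) (a := t) (b := p) (c := s) (d := q) (by omega) (by omega) (by omega)
                    have q1 := four (σ := σ) (a := t) (b := r) (c := s) (d := q) (by omega) (by omega) (by omega)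
                    have q2 := four (σ := σ) (a := t) (b := p) (c := r) (d := s) (by omega) (by omega) (by omega)
                    have q3 := four (σ := σ) (a := t) (b := p) (c := r) (d := q) (by omega) (by omega) (by omega)
                    have q4 := four (σ := σ) (a := p) (b := r) (c := s) (d := q) (by omega) (by omega) (by omega)
                    grind
                  · rcases lt_or_gt_of_ne n_q_r.symm with c100|c100
                    · rw [ccw_iff3 (a := t) (b := p) (c := s) (by omega) (by omega)] at h1
                      rw [ccw_iff6 (a := t) (b := s) (c := q) (by omega) (by omega)] at h2
                      rw [ccw_iff6 (a := t) (b := s) (c := r) (by omega) (by omega)] at h3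
                      rw [ccw_iff1 (a := t) (b := p) (c := q) (by omega) (by omega)] at h4
                      rw [ccw_iff4 (a := t) (b := r) (c := q) (by omega) (by omega)] at h5
                      rw [ccw_iff1 (a := t) (b := p) (c := r) (by omega) (by omega)]
                      have q0 := four (σ := σ) (a := t) (b := p) (c := s) (d := q) (by omega) (by omega) (by omega)
                      have q1 := four (σ := σ) (a := t) (b := s) (c := r) (d := q) (by omega) (by omega) (by omega)
                      have q2 := four (σ := σ) (a := t) (b := p) (c := s) (d := r) (by omega) (by omega) (by omega)
                      have q3 := four (σ := σ) (a := t) (b := p) (c := r) (d := q) (by omega) (by omega) (by omega)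
                      have q4 := four (σ := σ) (a := p) (b := s) (c := r) (d := q) (by omega) (by omega) (by omega)
                      grind
                    · rw [ccw_iff3 (a := t) (b := p) (c := s) (by omega) (by omega)] at h1
                      rw [ccw_iff6 (a := t) (b := s) (c := q) (by omega) (by omega)] at h2
                      rw [ccw_iff6 (a := t) (b := s) (c := r) (by omega) (by omega)] at h3
                      rw [ccw_iff1 (a := t) (b := p) (c := q) (by omega) (by omega)] at h4
                      rw [ccw_iff1 (a := t) (b := q) (c := r) (by omega) (by omega)] at h5
                      rw [ccw_iff1 (a := t) (b := p) (c := r) (by omega) (by omega)]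
                      have q0 := four (σ := σ) (a := t) (b := p) (c := s) (d := q) (by omega) (by omega) (by omega)
                      have q1 := four (σ := σ) (a := t) (b := s) (c := q) (d := r) (by omega) (by omega) (by omega)
                      have q2 := four (σ := σ) (a := t) (b := p) (c := s) (d := r) (by omega) (by omega) (by omega)
                      have q3 := four (σ := σ) (a := t) (b := p) (c := q) (d := r) (by omega) (by omega) (by omega)
                      have q4 := four (σ := σ) (a := p) (b := s) (c := q) (d := r) (by omega) (by omega) (by omega)
                      grind
      · rcases lt_or_gt_of_ne n_t_q.symm with c101|c101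
        · rcases lt_or_gt_of_ne n_q_r.symm with c102|c102
          · rw [ccw_iff6 (a := t) (b := s) (c := p) (by omega) (by omega)] at h1
            rw [ccw_iff5 (a := q) (b := t) (c := s) (by omega) (by omega)] at h2
            rw [ccw_iff5 (a := r) (b := t) (c := s) (by omega) (by omega)] at h3
            rw [ccw_iff2 (a := q) (b := t) (c := p) (by omega) (by omega)] at h4
            rw [ccw_iff5 (a := r) (b := q) (c := t) (by omega) (by omega)] at h5
            rw [ccw_iff2 (a := r) (b := t) (c := p) (by omega) (by omega)]
            have q0 := four (σ := σ) (a := q) (b := t) (c := s) (d := p) (by omega) (by omega) (by omega)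
            have q1 := four (σ := σ) (a := r) (b := q) (c := t) (d := s) (by omega) (by omega) (by omega)
            have q2 := four (σ := σ) (a := r) (b := t) (c := s) (d := p) (by omega) (by omega) (by omega)
            have q3 := four (σ := σ) (a := r) (b := q) (c := t) (d := p) (by omega) (by omega) (by omega)
            have q4 := four (σ := σ) (a := r) (b := q) (c := s) (d := p) (by omega) (by omega) (by omega)
            grind
          · rcases lt_or_gt_of_ne n_t_r.symm with c103|c103
            · rw [ccw_iff6 (a := t) (b := s) (c := p) (by omega) (by omega)] at h1
              rw [ccw_iff5 (a := q) (b := t) (c := s) (by omega) (by omega)] at h2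
              rw [ccw_iff5 (a := r) (b := t) (c := s) (by omega) (by omega)] at h3
              rw [ccw_iff2 (a := q) (b := t) (c := p) (by omega) (by omega)] at h4
              rw [ccw_iff3 (a := q) (b := r) (c := t) (by omega) (by omega)] at h5
              rw [ccw_iff2 (a := r) (b := t) (c := p) (by omega) (by omega)]
              have q0 := four (σ := σ) (a := q) (b := t) (c := s) (d := p) (by omega) (by omega) (by omega)
              have q1 := four (σ := σ) (a := q) (b := r) (c := t) (d := s) (by omega) (by omega) (by omega)
              have q2 := four (σ := σ) (a := r) (b := t) (c := s) (d := p) (by omega) (by omega) (by omega)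
              have q3 := four (σ := σ) (a := q) (b := r) (c := t) (d := p) (by omega) (by omega) (by omega)
              have q4 := four (σ := σ) (a := q) (b := r) (c := s) (d := p) (by omega) (by omega) (by omega)
              grind
            · rcases lt_or_gt_of_ne n_s_r.symm with c104|c104
              · rw [ccw_iff6 (a := t) (b := s) (c := p) (by omega) (by omega)] at h1
                rw [ccw_iff5 (a := q) (b := t) (c := s) (by omega) (by omega)] at h2
                rw [ccw_iff3 (a := t) (b := r) (c := s) (by omega) (by omega)] at h3
                rw [ccw_iff2 (a := q) (b := t) (c := p) (by omega) (by omega)] at h4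
                rw [ccw_iff6 (a := q) (b := t) (c := r) (by omega) (by omega)] at h5
                rw [ccw_iff4 (a := t) (b := r) (c := p) (by omega) (by omega)]
                have q0 := four (σ := σ) (a := q) (b := t) (c := s) (d := p) (by omega) (by omega) (by omega)
                have q1 := four (σ := σ) (a := q) (b := t) (c := r) (d := s) (by omega) (by omega) (by omega)
                have q2 := four (σ := σ) (a := t) (b := r) (c := s) (d := p) (by omega) (by omega) (by omega)
                have q3 := four (σ := σ) (a := q) (b := t) (c := r) (d := p) (by omega) (by omega) (by omega)
                have q4 := four (σ := σ) (a := q) (b := r) (c := s) (d := p) (by omega) (by omega) (by omega)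
                grind
              · rcases lt_or_gt_of_ne n_p_r.symm with c105|c105
                · rw [ccw_iff6 (a := t) (b := s) (c := p) (by omega) (by omega)] at h1
                  rw [ccw_iff5 (a := q) (b := t) (c := s) (by omega) (by omega)] at h2
                  rw [ccw_iff6 (a := t) (b := s) (c := r) (by omega) (by omega)] at h3
                  rw [ccw_iff2 (a := q) (b := t) (c := p) (by omega) (by omega)] at h4
                  rw [ccw_iff6 (a := q) (b := t) (c := r) (by omega) (by omega)] at h5
                  rw [ccw_iff4 (a := t) (b := r) (c := p) (by omega) (by omega)]
                  have q0 := four (σ := σ) (a := q) (b := t) (c := s) (d := p) (by omega) (by omega) (by omega)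
                  have q1 := four (σ := σ) (a := q) (b := t) (c := s) (d := r) (by omega) (by omega) (by omega)
                  have q2 := four (σ := σ) (a := t) (b := s) (c := r) (d := p) (by omega) (by omega) (by omega)
                  have q3 := four (σ := σ) (a := q) (b := t) (c := r) (d := p) (by omega) (by omega) (by omega)
                  have q4 := four (σ := σ) (a := q) (b := s) (c := r) (d := p) (by omega) (by omega) (by omega)
                  grind
                · rw [ccw_iff6 (a := t) (b := s) (c := p) (by omega) (by omega)] at h1
                  rw [ccw_iff5 (a := q) (b := t) (c := s) (by omega) (by omega)] at h2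
                  rw [ccw_iff6 (a := t) (b := s) (c := r) (by omega) (by omega)] at h3
                  rw [ccw_iff2 (a := q) (b := t) (c := p) (by omega) (by omega)] at h4
                  rw [ccw_iff6 (a := q) (b := t) (c := r) (by omega) (by omega)] at h5
                  rw [ccw_iff1 (a := t) (b := p) (c := r) (by omega) (by omega)]
                  have q0 := four (σ := σ) (a := q) (b := t) (c := s) (d := p) (by omega) (by omega) (by omega)
                  have q1 := four (σ := σ) (a := q) (b := t) (c := s) (d := r) (by omega) (by omega) (by omega)
                  have q2 := four (σ := σ) (a := t) (b := s) (c := p) (d := r) (by omega) (by omega) (by omega)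
                  have q3 := four (σ := σ) (a := q) (b := t) (c := p) (d := r) (by omega) (by omega) (by omega)
                  have q4 := four (σ := σ) (a := q) (b := s) (c := p) (d := r) (by omega) (by omega) (by omega)
                  grind
        · rcases lt_or_gt_of_ne n_s_q.symm with c106|c106
          · rcases lt_or_gt_of_ne n_t_r.symm with c107|c107
            · rw [ccw_iff6 (a := t) (b := s) (c := p) (by omega) (by omega)] at h1
              rw [ccw_iff3 (a := t) (b := q) (c := s) (by omega) (by omega)] at h2
              rw [ccw_iff5 (a := r) (b := t) (c := s) (by omega) (by omega)] at h3
              rw [ccw_iff4 (a := t) (b := q) (c := p) (by omega) (by omega)] at h4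
              rw [ccw_iff2 (a := r) (b := t) (c := q) (by omega) (by omega)] at h5
              rw [ccw_iff2 (a := r) (b := t) (c := p) (by omega) (by omega)]
              have q0 := four (σ := σ) (a := t) (b := q) (c := s) (d := p) (by omega) (by omega) (by omega)
              have q1 := four (σ := σ) (a := r) (b := t) (c := q) (d := s) (by omega) (by omega) (by omega)
              have q2 := four (σ := σ) (a := r) (b := t) (c := s) (d := p) (by omega) (by omega) (by omega)
              have q3 := four (σ := σ) (a := r) (b := t) (c := q) (d := p) (by omega) (by omega) (by omega)
              have q4 := four (σ := σ) (a := r) (b := q) (c := s) (d := p) (by omega) (by omega) (by omega)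
              grind
            · rcases lt_or_gt_of_ne n_q_r.symm with c108|c108
              · rw [ccw_iff6 (a := t) (b := s) (c := p) (by omega) (by omega)] at h1
                rw [ccw_iff3 (a := t) (b := q) (c := s) (by omega) (by omega)] at h2
                rw [ccw_iff3 (a := t) (b := r) (c := s) (by omega) (by omega)] at h3
                rw [ccw_iff4 (a := t) (b := q) (c := p) (by omega) (by omega)] at h4
                rw [ccw_iff4 (a := t) (b := r) (c := q) (by omega) (by omega)] at h5
                rw [ccw_iff4 (a := t) (b := r) (c := p) (by omega) (by omega)]
                have q0 := four (σ := σ) (a := t) (b := q) (c := s) (d := p) (by omega) (by omega) (by omega)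
                have q1 := four (σ := σ) (a := t) (b := r) (c := q) (d := s) (by omega) (by omega) (by omega)
                have q2 := four (σ := σ) (a := t) (b := r) (c := s) (d := p) (by omega) (by omega) (by omega)
                have q3 := four (σ := σ) (a := t) (b := r) (c := q) (d := p) (by omega) (by omega) (by omega)
                have q4 := four (σ := σ) (a := r) (b := q) (c := s) (d := p) (by omega) (by omega) (by omega)
                grind
              · rcases lt_or_gt_of_ne n_s_r.symm with c109|c109
                · rw [ccw_iff6 (a := t) (b := s) (c := p) (by omega) (by omega)] at h1
                  rw [ccw_iff3 (a := t) (b := q) (c := s) (by omega) (by omega)] at h2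
                  rw [ccw_iff3 (a := t) (b := r) (c := s) (by omega) (by omega)] at h3
                  rw [ccw_iff4 (a := t) (b := q) (c := p) (by omega) (by omega)] at h4
                  rw [ccw_iff1 (a := t) (b := q) (c := r) (by omega) (by omega)] at h5
                  rw [ccw_iff4 (a := t) (b := r) (c := p) (by omega) (by omega)]
                  have q0 := four (σ := σ) (a := t) (b := q) (c := s) (d := p) (by omega) (by omega) (by omega)
                  have q1 := four (σ := σ) (a := t) (b := q) (c := r) (d := s) (by omega) (by omega) (by omega)
                  have q2 := four (σ := σ) (a := t) (b := r) (c := s) (d := p) (by omega) (by omega) (by omega)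
                  have q3 := four (σ := σ) (a := t) (b := q) (c := r) (d := p) (by omega) (by omega) (by omega)
                  have q4 := four (σ := σ) (a := q) (b := r) (c := s) (d := p) (by omega) (by omega) (by omega)
                  grind
                · rcases lt_or_gt_of_ne n_p_r.symm with c110|c110
                  · rw [ccw_iff6 (a := t) (b := s) (c := p) (by omega) (by omega)] at h1
                    rw [ccw_iff3 (a := t) (b := q) (c := s) (by omega) (by omega)] at h2
                    rw [ccw_iff6 (a := t) (b := s) (c := r) (by omega) (by omega)] at h3
                    rw [ccw_iff4 (a := t) (b := q) (c := p) (by omega) (by omega)] at h4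
                    rw [ccw_iff1 (a := t) (b := q) (c := r) (by omega) (by omega)] at h5
                    rw [ccw_iff4 (a := t) (b := r) (c := p) (by omega) (by omega)]
                    have q0 := four (σ := σ) (a := t) (b := q) (c := s) (d := p) (by omega) (by omega) (by omega)
                    have q1 := four (σ := σ) (a := t) (b := q) (c := s) (d := r) (by omega) (by omega) (by omega)
                    have q2 := four (σ := σ) (a := t) (b := s) (c := r) (d := p) (by omega) (by omega) (by omega)
                    have q3 := four (σ := σ) (a := t) (b := q) (c := r) (d := p) (by omega) (by omega) (by omega)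
                    have q4 := four (σ := σ) (a := q) (b := s) (c := r) (d := p) (by omega) (by omega) (by omega)
                    grind
                  · rw [ccw_iff6 (a := t) (b := s) (c := p) (by omega) (by omega)] at h1
                    rw [ccw_iff3 (a := t) (b := q) (c := s) (by omega) (by omega)] at h2
                    rw [ccw_iff6 (a := t) (b := s) (c := r) (by omega) (by omega)] at h3
                    rw [ccw_iff4 (a := t) (b := q) (c := p) (by omega) (by omega)] at h4
                    rw [ccw_iff1 (a := t) (b := q) (c := r) (by omega) (by omega)] at h5
                    rw [ccw_iff1 (a := t) (b := p) (c := r) (by omega) (by omega)]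
                    have q0 := four (σ := σ) (a := t) (b := q) (c := s) (d := p) (by omega) (by omega) (by omega)
                    have q1 := four (σ := σ) (a := t) (b := q) (c := s) (d := r) (by omega) (by omega) (by omega)
                    have q2 := four (σ := σ) (a := t) (b := s) (c := p) (d := r) (by omega) (by omega) (by omega)
                    have q3 := four (σ := σ) (a := t) (b := q) (c := p) (d := r) (by omega) (by omega) (by omega)
                    have q4 := four (σ := σ) (a := q) (b := s) (c := p) (d := r) (by omega) (by omega) (by omega)
                    grind
          · rcases lt_or_gt_of_ne n_p_q.symm with c111|c111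
            · rcases lt_or_gt_of_ne n_t_r.symm with c112|c112
              · rw [ccw_iff6 (a := t) (b := s) (c := p) (by omega) (by omega)] at h1
                rw [ccw_iff6 (a := t) (b := s) (c := q) (by omega) (by omega)] at h2
                rw [ccw_iff5 (a := r) (b := t) (c := s) (by omega) (by omega)] at h3
                rw [ccw_iff4 (a := t) (b := q) (c := p) (by omega) (by omega)] at h4
                rw [ccw_iff2 (a := r) (b := t) (c := q) (by omega) (by omega)] at h5
                rw [ccw_iff2 (a := r) (b := t) (c := p) (by omega) (by omega)]
                have q0 := four (σ := σ) (a := t) (b := s) (c := q) (d := p) (by omega) (by omega) (by omega)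
                have q1 := four (σ := σ) (a := r) (b := t) (c := s) (d := q) (by omega) (by omega) (by omega)
                have q2 := four (σ := σ) (a := r) (b := t) (c := s) (d := p) (by omega) (by omega) (by omega)
                have q3 := four (σ := σ) (a := r) (b := t) (c := q) (d := p) (by omega) (by omega) (by omega)
                have q4 := four (σ := σ) (a := r) (b := s) (c := q) (d := p) (by omega) (by omega) (by omega)
                grind
              · rcases lt_or_gt_of_ne n_s_r.symm with c113|c113
                · rw [ccw_iff6 (a := t) (b := s) (c := p) (by omega) (by omega)] at h1
                  rw [ccw_iff6 (a := t) (b := s) (c := q) (by omega) (by omega)] at h2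
                  rw [ccw_iff3 (a := t) (b := r) (c := s) (by omega) (by omega)] at h3
                  rw [ccw_iff4 (a := t) (b := q) (c := p) (by omega) (by omega)] at h4
                  rw [ccw_iff4 (a := t) (b := r) (c := q) (by omega) (by omega)] at h5
                  rw [ccw_iff4 (a := t) (b := r) (c := p) (by omega) (by omega)]
                  have q0 := four (σ := σ) (a := t) (b := s) (c := q) (d := p) (by omega) (by omega) (by omega)
                  have q1 := four (σ := σ) (a := t) (b := r) (c := s) (d := q) (by omega) (by omega) (by omega)
                  have q2 := four (σ := σ) (a := t) (b := r) (c := s) (d := p) (by omega) (by omega) (by omega)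
                  have q3 := four (σ := σ) (a := t) (b := r) (c := q) (d := p) (by omega) (by omega) (by omega)
                  have q4 := four (σ := σ) (a := r) (b := s) (c := q) (d := p) (by omega) (by omega) (by omega)
                  grind
                · rcases lt_or_gt_of_ne n_q_r.symm with c114|c114
                  · rw [ccw_iff6 (a := t) (b := s) (c := p) (by omega) (by omega)] at h1
                    rw [ccw_iff6 (a := t) (b := s) (c := q) (by omega) (by omega)] at h2
                    rw [ccw_iff6 (a := t) (b := s) (c := r) (by omega) (by omega)] at h3
                    rw [ccw_iff4 (a := t) (b := q) (c := p) (by omega) (by omega)] at h4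
                    rw [ccw_iff4 (a := t) (b := r) (c := q) (by omega) (by omega)] at h5
                    rw [ccw_iff4 (a := t) (b := r) (c := p) (by omega) (by omega)]
                    have q0 := four (σ := σ) (a := t) (b := s) (c := q) (d := p) (by omega) (by omega) (by omega)
                    have q1 := four (σ := σ) (a := t) (b := s) (c := r) (d := q) (by omega) (by omega) (by omega)
                    have q2 := four (σ := σ) (a := t) (b := s) (c := r) (d := p) (by omega) (by omega) (by omega)
                    have q3 := four (σ := σ) (a := t) (b := r) (c := q) (d := p) (by omega) (by omega) (by omega)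
                    have q4 := four (σ := σ) (a := s) (b := r) (c := q) (d := p) (by omega) (by omega) (by omega)
                    grind
                  · rcases lt_or_gt_of_ne n_p_r.symm with c115|c115
                    · rw [ccw_iff6 (a := t) (b := s) (c := p) (by omega) (by omega)] at h1
                      rw [ccw_iff6 (a := t) (b := s) (c := q) (by omega) (by omega)] at h2
                      rw [ccw_iff6 (a := t) (b := s) (c := r) (by omega) (by omega)] at h3
                      rw [ccw_iff4 (a := t) (b := q) (c := p) (by omega) (by omega)] at h4
                      rw [ccw_iff1 (a := t) (b := q) (c := r) (by omega) (by omega)] at h5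
                      rw [ccw_iff4 (a := t) (b := r) (c := p) (by omega) (by omega)]
                      have q0 := four (σ := σ) (a := t) (b := s) (c := q) (d := p) (by omega) (by omega) (by omega)
                      have q1 := four (σ := σ) (a := t) (b := s) (c := q) (d := r) (by omega) (by omega) (by omega)
                      have q2 := four (σ := σ) (a := t) (b := s) (c := r) (d := p) (by omega) (by omega) (by omega)
                      have q3 := four (σ := σ) (a := t) (b := q) (c := r) (d := p) (by omega) (by omega) (by omega)
                      have q4 := four (σ := σ) (a := s) (b := q) (c := r) (d := p) (by omega) (by omega) (by omega)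
                      grind
                    · rw [ccw_iff6 (a := t) (b := s) (c := p) (by omega) (by omega)] at h1
                      rw [ccw_iff6 (a := t) (b := s) (c := q) (by omega) (by omega)] at h2
                      rw [ccw_iff6 (a := t) (b := s) (c := r) (by omega) (by omega)] at h3
                      rw [ccw_iff4 (a := t) (b := q) (c := p) (by omega) (by omega)] at h4
                      rw [ccw_iff1 (a := t) (b := q) (c := r) (by omega) (by omega)] at h5
                      rw [ccw_iff1 (a := t) (b := p) (c := r) (by omega) (by omega)]
                      have q0 := four (σ := σ) (a := t) (b := s) (c := q) (d := p) (by omega) (by omega) (by omega)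
                      have q1 := four (σ := σ) (a := t) (b := s) (c := q) (d := r) (by omega) (by omega) (by omega)
                      have q2 := four (σ := σ) (a := t) (b := s) (c := p) (d := r) (by omega) (by omega) (by omega)
                      have q3 := four (σ := σ) (a := t) (b := q) (c := p) (d := r) (by omega) (by omega) (by omega)
                      have q4 := four (σ := σ) (a := s) (b := q) (c := p) (d := r) (by omega) (by omega) (by omega)
                      grind
            · rcases lt_or_gt_of_ne n_t_r.symm with c116|c116
              · rw [ccw_iff6 (a := t) (b := s) (c := p) (by omega) (by omega)] at h1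
                rw [ccw_iff6 (a := t) (b := s) (c := q) (by omega) (by omega)] at h2
                rw [ccw_iff5 (a := r) (b := t) (c := s) (by omega) (by omega)] at h3
                rw [ccw_iff1 (a := t) (b := p) (c := q) (by omega) (by omega)] at h4
                rw [ccw_iff2 (a := r) (b := t) (c := q) (by omega) (by omega)] at h5
                rw [ccw_iff2 (a := r) (b := t) (c := p) (by omega) (by omega)]
                have q0 := four (σ := σ) (a := t) (b := s) (c := p) (d := q) (by omega) (by omega) (by omega)
                have q1 := four (σ := σ) (a := r) (b := t) (c := s) (d := q) (by omega) (by omega) (by omega)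
                have q2 := four (σ := σ) (a := r) (b := t) (c := s) (d := p) (by omega) (by omega) (by omega)
                have q3 := four (σ := σ) (a := r) (b := t) (c := p) (d := q) (by omega) (by omega) (by omega)
                have q4 := four (σ := σ) (a := r) (b := s) (c := p) (d := q) (by omega) (by omega) (by omega)
                grind
              · rcases lt_or_gt_of_ne n_s_r.symm with c117|c117
                · rw [ccw_iff6 (a := t) (b := s) (c := p) (by omega) (by omega)] at h1
                  rw [ccw_iff6 (a := t) (b := s) (c := q) (by omega) (by omega)] at h2
                  rw [ccw_iff3 (a := t) (b := r) (c := s) (by omega) (by omega)] at h3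
                  rw [ccw_iff1 (a := t) (b := p) (c := q) (by omega) (by omega)] at h4
                  rw [ccw_iff4 (a := t) (b := r) (c := q) (by omega) (by omega)] at h5
                  rw [ccw_iff4 (a := t) (b := r) (c := p) (by omega) (by omega)]
                  have q0 := four (σ := σ) (a := t) (b := s) (c := p) (d := q) (by omega) (by omega) (by omega)
                  have q1 := four (σ := σ) (a := t) (b := r) (c := s) (d := q) (by omega) (by omega) (by omega)
                  have q2 := four (σ := σ) (a := t) (b := r) (c := s) (d := p) (by omega) (by omega) (by omega)
                  have q3 := four (σ := σ) (a := t) (b := r) (c := p) (d := q) (by omega) (by omega) (by omega)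
                  have q4 := four (σ := σ) (a := r) (b := s) (c := p) (d := q) (by omega) (by omega) (by omega)
                  grind
                · rcases lt_or_gt_of_ne n_p_r.symm with c118|c118
                  · rw [ccw_iff6 (a := t) (b := s) (c := p) (by omega) (by omega)] at h1
                    rw [ccw_iff6 (a := t) (b := s) (c := q) (by omega) (by omega)] at h2
                    rw [ccw_iff6 (a := t) (b := s) (c := r) (by omega) (by omega)] at h3
                    rw [ccw_iff1 (a := t) (b := p) (c := q) (by omega) (by omega)] at h4
                    rw [ccw_iff4 (a := t) (b := r) (c := q) (by omega) (by omega)] at h5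
                    rw [ccw_iff4 (a := t) (b := r) (c := p) (by omega) (by omega)]
                    have q0 := four (σ := σ) (a := t) (b := s) (c := p) (d := q) (by omega) (by omega) (by omega)
                    have q1 := four (σ := σ) (a := t) (b := s) (c := r) (d := q) (by omega) (by omega) (by omega)
                    have q2 := four (σ := σ) (a := t) (b := s) (c := r) (d := p) (by omega) (by omega) (by omega)
                    have q3 := four (σ := σ) (a := t) (b := r) (c := p) (d := q) (by omega) (by omega) (by omega)
                    have q4 := four (σ := σ) (a := s) (b := r) (c := p) (d := q) (by omega) (by omega) (by omega)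
                    grind
                  · rcases lt_or_gt_of_ne n_q_r.symm with c119|c119
                    · rw [ccw_iff6 (a := t) (b := s) (c := p) (by omega) (by omega)] at h1
                      rw [ccw_iff6 (a := t) (b := s) (c := q) (by omega) (by omega)] at h2
                      rw [ccw_iff6 (a := t) (b := s) (c := r) (by omega) (by omega)] at h3
                      rw [ccw_iff1 (a := t) (b := p) (c := q) (by omega) (by omega)] at h4
                      rw [ccw_iff4 (a := t) (b := r) (c := q) (by omega) (by omega)] at h5
                      rw [ccw_iff1 (a := t) (b := p) (c := r) (by omega) (by omega)]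
                      have q0 := four (σ := σ) (a := t) (b := s) (c := p) (d := q) (by omega) (by omega) (by omega)
                      have q1 := four (σ := σ) (a := t) (b := s) (c := r) (d := q) (by omega) (by omega) (by omega)
                      have q2 := four (σ := σ) (a := t) (b := s) (c := p) (d := r) (by omega) (by omega) (by omega)
                      have q3 := four (σ := σ) (a := t) (b := p) (c := r) (d := q) (by omega) (by omega) (by omega)
                      have q4 := four (σ := σ) (a := s) (b := p) (c := r) (d := q) (by omega) (by omega) (by omega)
                      grind
                    · rw [ccw_iff6 (a := t) (b := s) (c := p) (by omega) (by omega)] at h1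
                      rw [ccw_iff6 (a := t) (b := s) (c := q) (by omega) (by omega)] at h2
                      rw [ccw_iff6 (a := t) (b := s) (c := r) (by omega) (by omega)] at h3
                      rw [ccw_iff1 (a := t) (b := p) (c := q) (by omega) (by omega)] at h4
                      rw [ccw_iff1 (a := t) (b := q) (c := r) (by omega) (by omega)] at h5
                      rw [ccw_iff1 (a := t) (b := p) (c := r) (by omega) (by omega)]
                      have q0 := four (σ := σ) (a := t) (b := s) (c := p) (d := q) (by omega) (by omega) (by omega)
                      have q1 := four (σ := σ) (a := t) (b := s) (c := q) (d := r) (by omega) (by omega) (by omega)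
                      have q2 := four (σ := σ) (a := t) (b := s) (c := p) (d := r) (by omega) (by omega) (by omega)
                      have q3 := four (σ := σ) (a := t) (b := p) (c := q) (d := r) (by omega) (by omega) (by omega)
                      have q4 := four (σ := σ) (a := s) (b := p) (c := q) (d := r) (by omega) (by omega) (by omega)
                      grind

/-- Pivot `l`, `a <_l b <_l c <_l d`: b near ac, c near ad imply b near ad (near = on the side of l). -/
theorem L13 {l a b c d : ℤ} (o0 : l < a) (o1 : l < b) (o2 : l < c) (o3 : l < d) (h1 : σ.ccw l a b) (h2 : σ.ccw l b c) (h3 : σ.ccw l c d) (h4 : σ.ccw a c b) (h5 : σ.ccw a d c) : σ.ccw a d b := by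
  have n_l_a := ne12 h1
  have n_a_b := ne23 h1
  have n_l_b := ne13 h1
  have n_b_c := ne23 h2
  have n_l_c := ne13 h2
  have n_c_d := ne23 h3
  have n_l_d := ne13 h3
  have n_a_c := ne12 h4
  have n_a_d := ne12 h5
  have n_a_c : a ≠ c := ne23 (trL o0 o1 o2 h1 h2)
  have n_b_d : b ≠ d := ne23 (trL o1 o2 o3 h2 h3)
  have n_a_d : a ≠ d := ne23 (trL o0 o1 o3 h1 (trL o1 o2 o3 h2 h3))
  rcases lt_or_gt_of_ne n_a_b.symm with c1|c1
  · rcases lt_or_gt_of_ne n_b_c.symm with c2|c2
    · rcases lt_or_gt_of_ne n_c_d.symm with c3|c3
      · rw [ccw_iff4 (a := l) (b := b) (c := a) (by omega) (by omega)] at h1
        rw [ccw_iff4 (a := l) (b := c) (c := b) (by omega) (by omega)] at h2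
        rw [ccw_iff4 (a := l) (b := d) (c := c) (by omega) (by omega)] at h3
        rw [ccw_iff3 (a := c) (b := b) (c := a) (by omega) (by omega)] at h4
        rw [ccw_iff3 (a := d) (b := c) (c := a) (by omega) (by omega)] at h5
        rw [ccw_iff3 (a := d) (b := b) (c := a) (by omega) (by omega)]
        have q0 := four (σ := σ) (a := l) (b := c) (c := b) (d := a) (by omega) (by omega) (by omega)
        have q1 := four (σ := σ) (a := l) (b := d) (c := b) (d := a) (by omega) (by omega) (by omega)
        have q2 := four (σ := σ) (a := l) (b := d) (c := c) (d := a) (by omega) (by omega) (by omega)
        have q3 := four (σ := σ) (a := l) (b := d) (c := c) (d := b) (by omega) (by omega) (by omega)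
        have q4 := four (σ := σ) (a := d) (b := c) (c := b) (d := a) (by omega) (by omega) (by omega)
        grind
      · rcases lt_or_gt_of_ne n_b_d.symm with c4|c4
        · rw [ccw_iff4 (a := l) (b := b) (c := a) (by omega) (by omega)] at h1
          rw [ccw_iff4 (a := l) (b := c) (c := b) (by omega) (by omega)] at h2
          rw [ccw_iff1 (a := l) (b := c) (c := d) (by omega) (by omega)] at h3
          rw [ccw_iff3 (a := c) (b := b) (c := a) (by omega) (by omega)] at h4
          rw [ccw_iff5 (a := c) (b := d) (c := a) (by omega) (by omega)] at h5
          rw [ccw_iff3 (a := d) (b := b) (c := a) (by omega) (by omega)]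
          have q0 := four (σ := σ) (a := l) (b := c) (c := b) (d := a) (by omega) (by omega) (by omega)
          have q1 := four (σ := σ) (a := l) (b := d) (c := b) (d := a) (by omega) (by omega) (by omega)
          have q2 := four (σ := σ) (a := l) (b := c) (c := d) (d := a) (by omega) (by omega) (by omega)
          have q3 := four (σ := σ) (a := l) (b := c) (c := d) (d := b) (by omega) (by omega) (by omega)
          have q4 := four (σ := σ) (a := c) (b := d) (c := b) (d := a) (by omega) (by omega) (by omega)
          grind
        · rcases lt_or_gt_of_ne n_a_d.symm with c5|c5
          · rw [ccw_iff4 (a := l) (b := b) (c := a) (by omega) (by omega)] at h1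
            rw [ccw_iff4 (a := l) (b := c) (c := b) (by omega) (by omega)] at h2
            rw [ccw_iff1 (a := l) (b := c) (c := d) (by omega) (by omega)] at h3
            rw [ccw_iff3 (a := c) (b := b) (c := a) (by omega) (by omega)] at h4
            rw [ccw_iff5 (a := c) (b := d) (c := a) (by omega) (by omega)] at h5
            rw [ccw_iff5 (a := b) (b := d) (c := a) (by omega) (by omega)]
            have q0 := four (σ := σ) (a := l) (b := c) (c := b) (d := a) (by omega) (by omega) (by omega)
            have q1 := four (σ := σ) (a := l) (b := b) (c := d) (d := a) (by omega) (by omega) (by omega)
            have q2 := four (σ := σ) (a := l) (b := c) (c := d) (d := a) (by omega) (by omega) (by omega)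
            have q3 := four (σ := σ) (a := l) (b := c) (c := b) (d := d) (by omega) (by omega) (by omega)
            have q4 := four (σ := σ) (a := c) (b := b) (c := d) (d := a) (by omega) (by omega) (by omega)
            grind
          · rw [ccw_iff4 (a := l) (b := b) (c := a) (by omega) (by omega)] at h1
            rw [ccw_iff4 (a := l) (b := c) (c := b) (by omega) (by omega)] at h2
            rw [ccw_iff1 (a := l) (b := c) (c := d) (by omega) (by omega)] at h3
            rw [ccw_iff3 (a := c) (b := b) (c := a) (by omega) (by omega)] at h4
            rw [ccw_iff2 (a := c) (b := a) (c := d) (by omega) (by omega)] at h5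
            rw [ccw_iff2 (a := b) (b := a) (c := d) (by omega) (by omega)]
            have q0 := four (σ := σ) (a := l) (b := c) (c := b) (d := a) (by omega) (by omega) (by omega)
            have q1 := four (σ := σ) (a := l) (b := b) (c := a) (d := d) (by omega) (by omega) (by omega)
            have q2 := four (σ := σ) (a := l) (b := c) (c := a) (d := d) (by omega) (by omega) (by omega)
            have q3 := four (σ := σ) (a := l) (b := c) (c := b) (d := d) (by omega) (by omega) (by omega)
            have q4 := four (σ := σ) (a := c) (b := b) (c := a) (d := d) (by omega) (by omega) (by omega)
            grind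
    · rcases lt_or_gt_of_ne n_a_c.symm with c6|c6
      · rcases lt_or_gt_of_ne n_b_d.symm with c7|c7
        · rw [ccw_iff4 (a := l) (b := b) (c := a) (by omega) (by omega)] at h1
          rw [ccw_iff1 (a := l) (b := b) (c := c) (by omega) (by omega)] at h2
          rw [ccw_iff4 (a := l) (b := d) (c := c) (by omega) (by omega)] at h3
          rw [ccw_iff5 (a := b) (b := c) (c := a) (by omega) (by omega)] at h4
          rw [ccw_iff3 (a := d) (b := c) (c := a) (by omega) (by omega)] at h5
          rw [ccw_iff3 (a := d) (b := b) (c := a) (by omega) (by omega)]
          have q0 := four (σ := σ) (a := l) (b := b) (c := c) (d := a) (by omega) (by omega) (by omega)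
          have q1 := four (σ := σ) (a := l) (b := d) (c := b) (d := a) (by omega) (by omega) (by omega)
          have q2 := four (σ := σ) (a := l) (b := d) (c := c) (d := a) (by omega) (by omega) (by omega)
          have q3 := four (σ := σ) (a := l) (b := d) (c := b) (d := c) (by omega) (by omega) (by omega)
          have q4 := four (σ := σ) (a := d) (b := b) (c := c) (d := a) (by omega) (by omega) (by omega)
          grind
        · rcases lt_or_gt_of_ne n_c_d.symm with c8|c8
          · rw [ccw_iff4 (a := l) (b := b) (c := a) (by omega) (by omega)] at h1
            rw [ccw_iff1 (a := l) (b := b) (c := c) (by omega) (by omega)] at h2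
            rw [ccw_iff4 (a := l) (b := d) (c := c) (by omega) (by omega)] at h3
            rw [ccw_iff5 (a := b) (b := c) (c := a) (by omega) (by omega)] at h4
            rw [ccw_iff3 (a := d) (b := c) (c := a) (by omega) (by omega)] at h5
            rw [ccw_iff5 (a := b) (b := d) (c := a) (by omega) (by omega)]
            have q0 := four (σ := σ) (a := l) (b := b) (c := c) (d := a) (by omega) (by omega) (by omega)
            have q1 := four (σ := σ) (a := l) (b := b) (c := d) (d := a) (by omega) (by omega) (by omega)
            have q2 := four (σ := σ) (a := l) (b := d) (c := c) (d := a) (by omega) (by omega) (by omega)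
            have q3 := four (σ := σ) (a := l) (b := b) (c := d) (d := c) (by omega) (by omega) (by omega)
            have q4 := four (σ := σ) (a := b) (b := d) (c := c) (d := a) (by omega) (by omega) (by omega)
            grind
          · rcases lt_or_gt_of_ne n_a_d.symm with c9|c9
            · rw [ccw_iff4 (a := l) (b := b) (c := a) (by omega) (by omega)] at h1
              rw [ccw_iff1 (a := l) (b := b) (c := c) (by omega) (by omega)] at h2
              rw [ccw_iff1 (a := l) (b := c) (c := d) (by omega) (by omega)] at h3
              rw [ccw_iff5 (a := b) (b := c) (c := a) (by omega) (by omega)] at h4
              rw [ccw_iff5 (a := c) (b := d) (c := a) (by omega) (by omega)] at h5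
              rw [ccw_iff5 (a := b) (b := d) (c := a) (by omega) (by omega)]
              have q0 := four (σ := σ) (a := l) (b := b) (c := c) (d := a) (by omega) (by omega) (by omega)
              have q1 := four (σ := σ) (a := l) (b := b) (c := d) (d := a) (by omega) (by omega) (by omega)
              have q2 := four (σ := σ) (a := l) (b := c) (c := d) (d := a) (by omega) (by omega) (by omega)
              have q3 := four (σ := σ) (a := l) (b := b) (c := c) (d := d) (by omega) (by omega) (by omega)
              have q4 := four (σ := σ) (a := b) (b := c) (c := d) (d := a) (by omega) (by omega) (by omega)
              grind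
            · rw [ccw_iff4 (a := l) (b := b) (c := a) (by omega) (by omega)] at h1
              rw [ccw_iff1 (a := l) (b := b) (c := c) (by omega) (by omega)] at h2
              rw [ccw_iff1 (a := l) (b := c) (c := d) (by omega) (by omega)] at h3
              rw [ccw_iff5 (a := b) (b := c) (c := a) (by omega) (by omega)] at h4
              rw [ccw_iff2 (a := c) (b := a) (c := d) (by omega) (by omega)] at h5
              rw [ccw_iff2 (a := b) (b := a) (c := d) (by omega) (by omega)]
              have q0 := four (σ := σ) (a := l) (b := b) (c := c) (d := a) (by omega) (by omega) (by omega)
              have q1 := four (σ := σ) (a := l) (b := b) (c := a) (d := d) (by omega) (by omega) (by omega)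
              have q2 := four (σ := σ) (a := l) (b := c) (c := a) (d := d) (by omega) (by omega) (by omega)
              have q3 := four (σ := σ) (a := l) (b := b) (c := c) (d := d) (by omega) (by omega) (by omega)
              have q4 := four (σ := σ) (a := b) (b := c) (c := a) (d := d) (by omega) (by omega) (by omega)
              grind
      · rcases lt_or_gt_of_ne n_b_d.symm with c10|c10
        · rw [ccw_iff4 (a := l) (b := b) (c := a) (by omega) (by omega)] at h1
          rw [ccw_iff1 (a := l) (b := b) (c := c) (by omega) (by omega)] at h2
          rw [ccw_iff4 (a := l) (b := d) (c := c) (by omega) (by omega)] at h3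
          rw [ccw_iff2 (a := b) (b := a) (c := c) (by omega) (by omega)] at h4
          rw [ccw_iff6 (a := d) (b := a) (c := c) (by omega) (by omega)] at h5
          rw [ccw_iff3 (a := d) (b := b) (c := a) (by omega) (by omega)]
          have q0 := four (σ := σ) (a := l) (b := b) (c := a) (d := c) (by omega) (by omega) (by omega)
          have q1 := four (σ := σ) (a := l) (b := d) (c := b) (d := a) (by omega) (by omega) (by omega)
          have q2 := four (σ := σ) (a := l) (b := d) (c := a) (d := c) (by omega) (by omega) (by omega)
          have q3 := four (σ := σ) (a := l) (b := d) (c := b) (d := c) (by omega) (by omega) (by omega)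
          have q4 := four (σ := σ) (a := d) (b := b) (c := a) (d := c) (by omega) (by omega) (by omega)
          grind
        · rcases lt_or_gt_of_ne n_a_d.symm with c11|c11
          · rw [ccw_iff4 (a := l) (b := b) (c := a) (by omega) (by omega)] at h1
            rw [ccw_iff1 (a := l) (b := b) (c := c) (by omega) (by omega)] at h2
            rw [ccw_iff4 (a := l) (b := d) (c := c) (by omega) (by omega)] at h3
            rw [ccw_iff2 (a := b) (b := a) (c := c) (by omega) (by omega)] at h4
            rw [ccw_iff6 (a := d) (b := a) (c := c) (by omega) (by omega)] at h5
            rw [ccw_iff5 (a := b) (b := d) (c := a) (by omega) (by omega)]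
            have q0 := four (σ := σ) (a := l) (b := b) (c := a) (d := c) (by omega) (by omega) (by omega)
            have q1 := four (σ := σ) (a := l) (b := b) (c := d) (d := a) (by omega) (by omega) (by omega)
            have q2 := four (σ := σ) (a := l) (b := d) (c := a) (d := c) (by omega) (by omega) (by omega)
            have q3 := four (σ := σ) (a := l) (b := b) (c := d) (d := c) (by omega) (by omega) (by omega)
            have q4 := four (σ := σ) (a := b) (b := d) (c := a) (d := c) (by omega) (by omega) (by omega)
            grind
          · rcases lt_or_gt_of_ne n_c_d.symm with c12|c12
            · rw [ccw_iff4 (a := l) (b := b) (c := a) (by omega) (by omega)] at h1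
              rw [ccw_iff1 (a := l) (b := b) (c := c) (by omega) (by omega)] at h2
              rw [ccw_iff4 (a := l) (b := d) (c := c) (by omega) (by omega)] at h3
              rw [ccw_iff2 (a := b) (b := a) (c := c) (by omega) (by omega)] at h4
              rw [ccw_iff1 (a := a) (b := d) (c := c) (by omega) (by omega)] at h5
              rw [ccw_iff2 (a := b) (b := a) (c := d) (by omega) (by omega)]
              have q0 := four (σ := σ) (a := l) (b := b) (c := a) (d := c) (by omega) (by omega) (by omega)
              have q1 := four (σ := σ) (a := l) (b := b) (c := a) (d := d) (by omega) (by omega) (by omega)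
              have q2 := four (σ := σ) (a := l) (b := a) (c := d) (d := c) (by omega) (by omega) (by omega)
              have q3 := four (σ := σ) (a := l) (b := b) (c := d) (d := c) (by omega) (by omega) (by omega)
              have q4 := four (σ := σ) (a := b) (b := a) (c := d) (d := c) (by omega) (by omega) (by omega)
              grind
            · rw [ccw_iff4 (a := l) (b := b) (c := a) (by omega) (by omega)] at h1
              rw [ccw_iff1 (a := l) (b := b) (c := c) (by omega) (by omega)] at h2
              rw [ccw_iff1 (a := l) (b := c) (c := d) (by omega) (by omega)] at h3
              rw [ccw_iff2 (a := b) (b := a) (c := c) (by omega) (by omega)] at h4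
              rw [ccw_iff4 (a := a) (b := c) (c := d) (by omega) (by omega)] at h5
              rw [ccw_iff2 (a := b) (b := a) (c := d) (by omega) (by omega)]
              have q0 := four (σ := σ) (a := l) (b := b) (c := a) (d := c) (by omega) (by omega) (by omega)
              have q1 := four (σ := σ) (a := l) (b := b) (c := a) (d := d) (by omega) (by omega) (by omega)
              have q2 := four (σ := σ) (a := l) (b := a) (c := c) (d := d) (by omega) (by omega) (by omega)
              have q3 := four (σ := σ) (a := l) (b := b) (c := c) (d := d) (by omega) (by omega) (by omega)
              have q4 := four (σ := σ) (a := b) (b := a) (c := c) (d := d) (by omega) (by omega) (by omega)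
              grind
  · rcases lt_or_gt_of_ne n_a_c.symm with c13|c13
    · rcases lt_or_gt_of_ne n_c_d.symm with c14|c14
      · rw [ccw_iff1 (a := l) (b := a) (c := b) (by omega) (by omega)] at h1
        rw [ccw_iff4 (a := l) (b := c) (c := b) (by omega) (by omega)] at h2
        rw [ccw_iff4 (a := l) (b := d) (c := c) (by omega) (by omega)] at h3
        rw [ccw_iff6 (a := c) (b := a) (c := b) (by omega) (by omega)] at h4
        rw [ccw_iff3 (a := d) (b := c) (c := a) (by omega) (by omega)] at h5
        rw [ccw_iff6 (a := d) (b := a) (c := b) (by omega) (by omega)]
        have q0 := four (σ := σ) (a := l) (b := c) (c := a) (d := b) (by omega) (by omega) (by omega)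
        have q1 := four (σ := σ) (a := l) (b := d) (c := a) (d := b) (by omega) (by omega) (by omega)
        have q2 := four (σ := σ) (a := l) (b := d) (c := c) (d := a) (by omega) (by omega) (by omega)
        have q3 := four (σ := σ) (a := l) (b := d) (c := c) (d := b) (by omega) (by omega) (by omega)
        have q4 := four (σ := σ) (a := d) (b := c) (c := a) (d := b) (by omega) (by omega) (by omega)
        grind
      · rcases lt_or_gt_of_ne n_a_d.symm with c15|c15
        · rw [ccw_iff1 (a := l) (b := a) (c := b) (by omega) (by omega)] at h1
          rw [ccw_iff4 (a := l) (b := c) (c := b) (by omega) (by omega)] at h2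
          rw [ccw_iff1 (a := l) (b := c) (c := d) (by omega) (by omega)] at h3
          rw [ccw_iff6 (a := c) (b := a) (c := b) (by omega) (by omega)] at h4
          rw [ccw_iff5 (a := c) (b := d) (c := a) (by omega) (by omega)] at h5
          rw [ccw_iff6 (a := d) (b := a) (c := b) (by omega) (by omega)]
          have q0 := four (σ := σ) (a := l) (b := c) (c := a) (d := b) (by omega) (by omega) (by omega)
          have q1 := four (σ := σ) (a := l) (b := d) (c := a) (d := b) (by omega) (by omega) (by omega)
          have q2 := four (σ := σ) (a := l) (b := c) (c := d) (d := a) (by omega) (by omega) (by omega)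
          have q3 := four (σ := σ) (a := l) (b := c) (c := d) (d := b) (by omega) (by omega) (by omega)
          have q4 := four (σ := σ) (a := c) (b := d) (c := a) (d := b) (by omega) (by omega) (by omega)
          grind
        · rcases lt_or_gt_of_ne n_b_d.symm with c16|c16
          · rw [ccw_iff1 (a := l) (b := a) (c := b) (by omega) (by omega)] at h1
            rw [ccw_iff4 (a := l) (b := c) (c := b) (by omega) (by omega)] at h2
            rw [ccw_iff1 (a := l) (b := c) (c := d) (by omega) (by omega)] at h3
            rw [ccw_iff6 (a := c) (b := a) (c := b) (by omega) (by omega)] at h4
            rw [ccw_iff2 (a := c) (b := a) (c := d) (by omega) (by omega)] at h5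
            rw [ccw_iff1 (a := a) (b := d) (c := b) (by omega) (by omega)]
            have q0 := four (σ := σ) (a := l) (b := c) (c := a) (d := b) (by omega) (by omega) (by omega)
            have q1 := four (σ := σ) (a := l) (b := a) (c := d) (d := b) (by omega) (by omega) (by omega)
            have q2 := four (σ := σ) (a := l) (b := c) (c := a) (d := d) (by omega) (by omega) (by omega)
            have q3 := four (σ := σ) (a := l) (b := c) (c := d) (d := b) (by omega) (by omega) (by omega)
            have q4 := four (σ := σ) (a := c) (b := a) (c := d) (d := b) (by omega) (by omega) (by omega)
            grind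
          · rw [ccw_iff1 (a := l) (b := a) (c := b) (by omega) (by omega)] at h1
            rw [ccw_iff4 (a := l) (b := c) (c := b) (by omega) (by omega)] at h2
            rw [ccw_iff1 (a := l) (b := c) (c := d) (by omega) (by omega)] at h3
            rw [ccw_iff6 (a := c) (b := a) (c := b) (by omega) (by omega)] at h4
            rw [ccw_iff2 (a := c) (b := a) (c := d) (by omega) (by omega)] at h5
            rw [ccw_iff4 (a := a) (b := b) (c := d) (by omega) (by omega)]
            have q0 := four (σ := σ) (a := l) (b := c) (c := a) (d := b) (by omega) (by omega) (by omega)
            have q1 := four (σ := σ) (a := l) (b := a) (c := b) (d := d) (by omega) (by omega) (by omega)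
            have q2 := four (σ := σ) (a := l) (b := c) (c := a) (d := d) (by omega) (by omega) (by omega)
            have q3 := four (σ := σ) (a := l) (b := c) (c := b) (d := d) (by omega) (by omega) (by omega)
            have q4 := four (σ := σ) (a := c) (b := a) (c := b) (d := d) (by omega) (by omega) (by omega)
            grind
    · rcases lt_or_gt_of_ne n_b_c.symm with c17|c17
      · rcases lt_or_gt_of_ne n_a_d.symm with c18|c18
        · rw [ccw_iff1 (a := l) (b := a) (c := b) (by omega) (by omega)] at h1
          rw [ccw_iff4 (a := l) (b := c) (c := b) (by omega) (by omega)] at h2
          rw [ccw_iff4 (a := l) (b := d) (c := c) (by omega) (by omega)] at h3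
          rw [ccw_iff1 (a := a) (b := c) (c := b) (by omega) (by omega)] at h4
          rw [ccw_iff6 (a := d) (b := a) (c := c) (by omega) (by omega)] at h5
          rw [ccw_iff6 (a := d) (b := a) (c := b) (by omega) (by omega)]
          have q0 := four (σ := σ) (a := l) (b := a) (c := c) (d := b) (by omega) (by omega) (by omega)
          have q1 := four (σ := σ) (a := l) (b := d) (c := a) (d := b) (by omega) (by omega) (by omega)
          have q2 := four (σ := σ) (a := l) (b := d) (c := a) (d := c) (by omega) (by omega) (by omega)
          have q3 := four (σ := σ) (a := l) (b := d) (c := c) (d := b) (by omega) (by omega) (by omega)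
          have q4 := four (σ := σ) (a := d) (b := a) (c := c) (d := b) (by omega) (by omega) (by omega)
          grind
        · rcases lt_or_gt_of_ne n_c_d.symm with c19|c19
          · rw [ccw_iff1 (a := l) (b := a) (c := b) (by omega) (by omega)] at h1
            rw [ccw_iff4 (a := l) (b := c) (c := b) (by omega) (by omega)] at h2
            rw [ccw_iff4 (a := l) (b := d) (c := c) (by omega) (by omega)] at h3
            rw [ccw_iff1 (a := a) (b := c) (c := b) (by omega) (by omega)] at h4
            rw [ccw_iff1 (a := a) (b := d) (c := c) (by omega) (by omega)] at h5
            rw [ccw_iff1 (a := a) (b := d) (c := b) (by omega) (by omega)]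
            have q0 := four (σ := σ) (a := l) (b := a) (c := c) (d := b) (by omega) (by omega) (by omega)
            have q1 := four (σ := σ) (a := l) (b := a) (c := d) (d := b) (by omega) (by omega) (by omega)
            have q2 := four (σ := σ) (a := l) (b := a) (c := d) (d := c) (by omega) (by omega) (by omega)
            have q3 := four (σ := σ) (a := l) (b := d) (c := c) (d := b) (by omega) (by omega) (by omega)
            have q4 := four (σ := σ) (a := a) (b := d) (c := c) (d := b) (by omega) (by omega) (by omega)
            grind
          · rcases lt_or_gt_of_ne n_b_d.symm with c20|c20
            · rw [ccw_iff1 (a := l) (b := a) (c := b) (by omega) (by omega)] at h1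
              rw [ccw_iff4 (a := l) (b := c) (c := b) (by omega) (by omega)] at h2
              rw [ccw_iff1 (a := l) (b := c) (c := d) (by omega) (by omega)] at h3
              rw [ccw_iff1 (a := a) (b := c) (c := b) (by omega) (by omega)] at h4
              rw [ccw_iff4 (a := a) (b := c) (c := d) (by omega) (by omega)] at h5
              rw [ccw_iff1 (a := a) (b := d) (c := b) (by omega) (by omega)]
              have q0 := four (σ := σ) (a := l) (b := a) (c := c) (d := b) (by omega) (by omega) (by omega)
              have q1 := four (σ := σ) (a := l) (b := a) (c := d) (d := b) (by omega) (by omega) (by omega)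
              have q2 := four (σ := σ) (a := l) (b := a) (c := c) (d := d) (by omega) (by omega) (by omega)
              have q3 := four (σ := σ) (a := l) (b := c) (c := d) (d := b) (by omega) (by omega) (by omega)
              have q4 := four (σ := σ) (a := a) (b := c) (c := d) (d := b) (by omega) (by omega) (by omega)
              grind
            · rw [ccw_iff1 (a := l) (b := a) (c := b) (by omega) (by omega)] at h1
              rw [ccw_iff4 (a := l) (b := c) (c := b) (by omega) (by omega)] at h2
              rw [ccw_iff1 (a := l) (b := c) (c := d) (by omega) (by omega)] at h3
              rw [ccw_iff1 (a := a) (b := c) (c := b) (by omega) (by omega)] at h4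
              rw [ccw_iff4 (a := a) (b := c) (c := d) (by omega) (by omega)] at h5
              rw [ccw_iff4 (a := a) (b := b) (c := d) (by omega) (by omega)]
              have q0 := four (σ := σ) (a := l) (b := a) (c := c) (d := b) (by omega) (by omega) (by omega)
              have q1 := four (σ := σ) (a := l) (b := a) (c := b) (d := d) (by omega) (by omega) (by omega)
              have q2 := four (σ := σ) (a := l) (b := a) (c := c) (d := d) (by omega) (by omega) (by omega)
              have q3 := four (σ := σ) (a := l) (b := c) (c := b) (d := d) (by omega) (by omega) (by omega)
              have q4 := four (σ := σ) (a := a) (b := c) (c := b) (d := d) (by omega) (by omega) (by omega)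
              grind
      · rcases lt_or_gt_of_ne n_a_d.symm with c21|c21
        · rw [ccw_iff1 (a := l) (b := a) (c := b) (by omega) (by omega)] at h1
          rw [ccw_iff1 (a := l) (b := b) (c := c) (by omega) (by omega)] at h2
          rw [ccw_iff4 (a := l) (b := d) (c := c) (by omega) (by omega)] at h3
          rw [ccw_iff4 (a := a) (b := b) (c := c) (by omega) (by omega)] at h4
          rw [ccw_iff6 (a := d) (b := a) (c := c) (by omega) (by omega)] at h5
          rw [ccw_iff6 (a := d) (b := a) (c := b) (by omega) (by omega)]
          have q0 := four (σ := σ) (a := l) (b := a) (c := b) (d := c) (by omega) (by omega) (by omega)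
          have q1 := four (σ := σ) (a := l) (b := d) (c := a) (d := b) (by omega) (by omega) (by omega)
          have q2 := four (σ := σ) (a := l) (b := d) (c := a) (d := c) (by omega) (by omega) (by omega)
          have q3 := four (σ := σ) (a := l) (b := d) (c := b) (d := c) (by omega) (by omega) (by omega)
          have q4 := four (σ := σ) (a := d) (b := a) (c := b) (d := c) (by omega) (by omega) (by omega)
          grind
        · rcases lt_or_gt_of_ne n_b_d.symm with c22|c22
          · rw [ccw_iff1 (a := l) (b := a) (c := b) (by omega) (by omega)] at h1
            rw [ccw_iff1 (a := l) (b := b) (c := c) (by omega) (by omega)] at h2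
            rw [ccw_iff4 (a := l) (b := d) (c := c) (by omega) (by omega)] at h3
            rw [ccw_iff4 (a := a) (b := b) (c := c) (by omega) (by omega)] at h4
            rw [ccw_iff1 (a := a) (b := d) (c := c) (by omega) (by omega)] at h5
            rw [ccw_iff1 (a := a) (b := d) (c := b) (by omega) (by omega)]
            have q0 := four (σ := σ) (a := l) (b := a) (c := b) (d := c) (by omega) (by omega) (by omega)
            have q1 := four (σ := σ) (a := l) (b := a) (c := d) (d := b) (by omega) (by omega) (by omega)
            have q2 := four (σ := σ) (a := l) (b := a) (c := d) (d := c) (by omega) (by omega) (by omega)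
            have q3 := four (σ := σ) (a := l) (b := d) (c := b) (d := c) (by omega) (by omega) (by omega)
            have q4 := four (σ := σ) (a := a) (b := d) (c := b) (d := c) (by omega) (by omega) (by omega)
            grind
          · rcases lt_or_gt_of_ne n_c_d.symm with c23|c23
            · rw [ccw_iff1 (a := l) (b := a) (c := b) (by omega) (by omega)] at h1
              rw [ccw_iff1 (a := l) (b := b) (c := c) (by omega) (by omega)] at h2
              rw [ccw_iff4 (a := l) (b := d) (c := c) (by omega) (by omega)] at h3
              rw [ccw_iff4 (a := a) (b := b) (c := c) (by omega) (by omega)] at h4
              rw [ccw_iff1 (a := a) (b := d) (c := c) (by omega) (by omega)] at h5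
              rw [ccw_iff4 (a := a) (b := b) (c := d) (by omega) (by omega)]
              have q0 := four (σ := σ) (a := l) (b := a) (c := b) (d := c) (by omega) (by omega) (by omega)
              have q1 := four (σ := σ) (a := l) (b := a) (c := b) (d := d) (by omega) (by omega) (by omega)
              have q2 := four (σ := σ) (a := l) (b := a) (c := d) (d := c) (by omega) (by omega) (by omega)
              have q3 := four (σ := σ) (a := l) (b := b) (c := d) (d := c) (by omega) (by omega) (by omega)
              have q4 := four (σ := σ) (a := a) (b := b) (c := d) (d := c) (by omega) (by omega) (by omega)
              grind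
            · rw [ccw_iff1 (a := l) (b := a) (c := b) (by omega) (by omega)] at h1
              rw [ccw_iff1 (a := l) (b := b) (c := c) (by omega) (by omega)] at h2
              rw [ccw_iff1 (a := l) (b := c) (c := d) (by omega) (by omega)] at h3
              rw [ccw_iff4 (a := a) (b := b) (c := c) (by omega) (by omega)] at h4
              rw [ccw_iff4 (a := a) (b := c) (c := d) (by omega) (by omega)] at h5
              rw [ccw_iff4 (a := a) (b := b) (c := d) (by omega) (by omega)]
              have q0 := four (σ := σ) (a := l) (b := a) (c := b) (d := c) (by omega) (by omega) (by omega)
              have q1 := four (σ := σ) (a := l) (b := a) (c := b) (d := d) (by omega) (by omega) (by omega)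
              have q2 := four (σ := σ) (a := l) (b := a) (c := c) (d := d) (by omega) (by omega) (by omega)
              have q3 := four (σ := σ) (a := l) (b := b) (c := c) (d := d) (by omega) (by omega) (by omega)
              have q4 := four (σ := σ) (a := a) (b := b) (c := c) (d := d) (by omega) (by omega) (by omega)
              grind

/-- b near ad, c near bd imply c near ad. -/
theorem L24 {l a b c d : ℤ} (o0 : l < a) (o1 : l < b) (o2 : l < c) (o3 : l < d) (h1 : σ.ccw l a b) (h2 : σ.ccw l b c) (h3 : σ.ccw l c d) (h4 : σ.ccw a d b) (h5 : σ.ccw b d c) : σ.ccw a d c := by
  have n_l_a := ne12 h1
  have n_a_b := ne23 h1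
  have n_l_b := ne13 h1
  have n_b_c := ne23 h2
  have n_l_c := ne13 h2
  have n_c_d := ne23 h3
  have n_l_d := ne13 h3
  have n_a_d := ne12 h4
  have n_d_b := ne23 h4
  have n_a_c : a ≠ c := ne23 (trL o0 o1 o2 h1 h2)
  have n_b_d : b ≠ d := ne23 (trL o1 o2 o3 h2 h3)
  have n_a_d : a ≠ d := ne23 (trL o0 o1 o3 h1 (trL o1 o2 o3 h2 h3))
  rcases lt_or_gt_of_ne n_a_b.symm with c1|c1
  · rcases lt_or_gt_of_ne n_b_c.symm with c2|c2
    · rcases lt_or_gt_of_ne n_c_d.symm with c3|c3
      · rw [ccw_iff4 (a := l) (b := b) (c := a) (by omega) (by omega)] at h1
        rw [ccw_iff4 (a := l) (b := c) (c := b) (by omega) (by omega)] at h2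
        rw [ccw_iff4 (a := l) (b := d) (c := c) (by omega) (by omega)] at h3
        rw [ccw_iff3 (a := d) (b := b) (c := a) (by omega) (by omega)] at h4
        rw [ccw_iff3 (a := d) (b := c) (c := b) (by omega) (by omega)] at h5
        rw [ccw_iff3 (a := d) (b := c) (c := a) (by omega) (by omega)]
        have q0 := four (σ := σ) (a := l) (b := c) (c := b) (d := a) (by omega) (by omega) (by omega)
        have q1 := four (σ := σ) (a := l) (b := d) (c := b) (d := a) (by omega) (by omega) (by omega)
        have q2 := four (σ := σ) (a := l) (b := d) (c := c) (d := a) (by omega) (by omega) (by omega)
        have q3 := four (σ := σ) (a := l) (b := d) (c := c) (d := b) (by omega) (by omega) (by omega)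
        have q4 := four (σ := σ) (a := d) (b := c) (c := b) (d := a) (by omega) (by omega) (by omega)
        grind
      · rcases lt_or_gt_of_ne n_d_b with c4|c4
        · rw [ccw_iff4 (a := l) (b := b) (c := a) (by omega) (by omega)] at h1
          rw [ccw_iff4 (a := l) (b := c) (c := b) (by omega) (by omega)] at h2
          rw [ccw_iff1 (a := l) (b := c) (c := d) (by omega) (by omega)] at h3
          rw [ccw_iff3 (a := d) (b := b) (c := a) (by omega) (by omega)] at h4
          rw [ccw_iff5 (a := c) (b := d) (c := b) (by omega) (by omega)] at h5
          rw [ccw_iff5 (a := c) (b := d) (c := a) (by omega) (by omega)]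
          have q0 := four (σ := σ) (a := l) (b := c) (c := b) (d := a) (by omega) (by omega) (by omega)
          have q1 := four (σ := σ) (a := l) (b := d) (c := b) (d := a) (by omega) (by omega) (by omega)
          have q2 := four (σ := σ) (a := l) (b := c) (c := d) (d := a) (by omega) (by omega) (by omega)
          have q3 := four (σ := σ) (a := l) (b := c) (c := d) (d := b) (by omega) (by omega) (by omega)
          have q4 := four (σ := σ) (a := c) (b := d) (c := b) (d := a) (by omega) (by omega) (by omega)
          grind
        · rcases lt_or_gt_of_ne n_a_d.symm with c5|c5
          · rw [ccw_iff4 (a := l) (b := b) (c := a) (by omega) (by omega)] at h1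
            rw [ccw_iff4 (a := l) (b := c) (c := b) (by omega) (by omega)] at h2
            rw [ccw_iff1 (a := l) (b := c) (c := d) (by omega) (by omega)] at h3
            rw [ccw_iff5 (a := b) (b := d) (c := a) (by omega) (by omega)] at h4
            rw [ccw_iff2 (a := c) (b := b) (c := d) (by omega) (by omega)] at h5
            rw [ccw_iff5 (a := c) (b := d) (c := a) (by omega) (by omega)]
            have q0 := four (σ := σ) (a := l) (b := c) (c := b) (d := a) (by omega) (by omega) (by omega)
            have q1 := four (σ := σ) (a := l) (b := b) (c := d) (d := a) (by omega) (by omega) (by omega)
            have q2 := four (σ := σ) (a := l) (b := c) (c := d) (d := a) (by omega) (by omega) (by omega)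
            have q3 := four (σ := σ) (a := l) (b := c) (c := b) (d := d) (by omega) (by omega) (by omega)
            have q4 := four (σ := σ) (a := c) (b := b) (c := d) (d := a) (by omega) (by omega) (by omega)
            grind
          · rw [ccw_iff4 (a := l) (b := b) (c := a) (by omega) (by omega)] at h1
            rw [ccw_iff4 (a := l) (b := c) (c := b) (by omega) (by omega)] at h2
            rw [ccw_iff1 (a := l) (b := c) (c := d) (by omega) (by omega)] at h3
            rw [ccw_iff2 (a := b) (b := a) (c := d) (by omega) (by omega)] at h4
            rw [ccw_iff2 (a := c) (b := b) (c := d) (by omega) (by omega)] at h5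
            rw [ccw_iff2 (a := c) (b := a) (c := d) (by omega) (by omega)]
            have q0 := four (σ := σ) (a := l) (b := c) (c := b) (d := a) (by omega) (by omega) (by omega)
            have q1 := four (σ := σ) (a := l) (b := b) (c := a) (d := d) (by omega) (by omega) (by omega)
            have q2 := four (σ := σ) (a := l) (b := c) (c := a) (d := d) (by omega) (by omega) (by omega)
            have q3 := four (σ := σ) (a := l) (b := c) (c := b) (d := d) (by omega) (by omega) (by omega)
            have q4 := four (σ := σ) (a := c) (b := b) (c := a) (d := d) (by omega) (by omega) (by omega)
            grind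
    · rcases lt_or_gt_of_ne n_a_c.symm with c6|c6
      · rcases lt_or_gt_of_ne n_d_b with c7|c7
        · rw [ccw_iff4 (a := l) (b := b) (c := a) (by omega) (by omega)] at h1
          rw [ccw_iff1 (a := l) (b := b) (c := c) (by omega) (by omega)] at h2
          rw [ccw_iff4 (a := l) (b := d) (c := c) (by omega) (by omega)] at h3
          rw [ccw_iff3 (a := d) (b := b) (c := a) (by omega) (by omega)] at h4
          rw [ccw_iff6 (a := d) (b := b) (c := c) (by omega) (by omega)] at h5
          rw [ccw_iff3 (a := d) (b := c) (c := a) (by omega) (by omega)]
          have q0 := four (σ := σ) (a := l) (b := b) (c := c) (d := a) (by omega) (by omega) (by omega)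
          have q1 := four (σ := σ) (a := l) (b := d) (c := b) (d := a) (by omega) (by omega) (by omega)
          have q2 := four (σ := σ) (a := l) (b := d) (c := c) (d := a) (by omega) (by omega) (by omega)
          have q3 := four (σ := σ) (a := l) (b := d) (c := b) (d := c) (by omega) (by omega) (by omega)
          have q4 := four (σ := σ) (a := d) (b := b) (c := c) (d := a) (by omega) (by omega) (by omega)
          grind
        · rcases lt_or_gt_of_ne n_c_d.symm with c8|c8
          · rw [ccw_iff4 (a := l) (b := b) (c := a) (by omega) (by omega)] at h1
            rw [ccw_iff1 (a := l) (b := b) (c := c) (by omega) (by omega)] at h2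
            rw [ccw_iff4 (a := l) (b := d) (c := c) (by omega) (by omega)] at h3
            rw [ccw_iff5 (a := b) (b := d) (c := a) (by omega) (by omega)] at h4
            rw [ccw_iff1 (a := b) (b := d) (c := c) (by omega) (by omega)] at h5
            rw [ccw_iff3 (a := d) (b := c) (c := a) (by omega) (by omega)]
            have q0 := four (σ := σ) (a := l) (b := b) (c := c) (d := a) (by omega) (by omega) (by omega)
            have q1 := four (σ := σ) (a := l) (b := b) (c := d) (d := a) (by omega) (by omega) (by omega)
            have q2 := four (σ := σ) (a := l) (b := d) (c := c) (d := a) (by omega) (by omega) (by omega)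
            have q3 := four (σ := σ) (a := l) (b := b) (c := d) (d := c) (by omega) (by omega) (by omega)
            have q4 := four (σ := σ) (a := b) (b := d) (c := c) (d := a) (by omega) (by omega) (by omega)
            grind
          · rcases lt_or_gt_of_ne n_a_d.symm with c9|c9
            · rw [ccw_iff4 (a := l) (b := b) (c := a) (by omega) (by omega)] at h1
              rw [ccw_iff1 (a := l) (b := b) (c := c) (by omega) (by omega)] at h2
              rw [ccw_iff1 (a := l) (b := c) (c := d) (by omega) (by omega)] at h3
              rw [ccw_iff5 (a := b) (b := d) (c := a) (by omega) (by omega)] at h4
              rw [ccw_iff4 (a := b) (b := c) (c := d) (by omega) (by omega)] at h5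
              rw [ccw_iff5 (a := c) (b := d) (c := a) (by omega) (by omega)]
              have q0 := four (σ := σ) (a := l) (b := b) (c := c) (d := a) (by omega) (by omega) (by omega)
              have q1 := four (σ := σ) (a := l) (b := b) (c := d) (d := a) (by omega) (by omega) (by omega)
              have q2 := four (σ := σ) (a := l) (b := c) (c := d) (d := a) (by omega) (by omega) (by omega)
              have q3 := four (σ := σ) (a := l) (b := b) (c := c) (d := d) (by omega) (by omega) (by omega)
              have q4 := four (σ := σ) (a := b) (b := c) (c := d) (d := a) (by omega) (by omega) (by omega)
              grind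
            · rw [ccw_iff4 (a := l) (b := b) (c := a) (by omega) (by omega)] at h1
              rw [ccw_iff1 (a := l) (b := b) (c := c) (by omega) (by omega)] at h2
              rw [ccw_iff1 (a := l) (b := c) (c := d) (by omega) (by omega)] at h3
              rw [ccw_iff2 (a := b) (b := a) (c := d) (by omega) (by omega)] at h4
              rw [ccw_iff4 (a := b) (b := c) (c := d) (by omega) (by omega)] at h5
              rw [ccw_iff2 (a := c) (b := a) (c := d) (by omega) (by omega)]
              have q0 := four (σ := σ) (a := l) (b := b) (c := c) (d := a) (by omega) (by omega) (by omega)
              have q1 := four (σ := σ) (a := l) (b := b) (c := a) (d := d) (by omega) (by omega) (by omega)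
              have q2 := four (σ := σ) (a := l) (b := c) (c := a) (d := d) (by omega) (by omega) (by omega)
              have q3 := four (σ := σ) (a := l) (b := b) (c := c) (d := d) (by omega) (by omega) (by omega)
              have q4 := four (σ := σ) (a := b) (b := c) (c := a) (d := d) (by omega) (by omega) (by omega)
              grind
      · rcases lt_or_gt_of_ne n_d_b with c10|c10
        · rw [ccw_iff4 (a := l) (b := b) (c := a) (by omega) (by omega)] at h1
          rw [ccw_iff1 (a := l) (b := b) (c := c) (by omega) (by omega)] at h2
          rw [ccw_iff4 (a := l) (b := d) (c := c) (by omega) (by omega)] at h3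
          rw [ccw_iff3 (a := d) (b := b) (c := a) (by omega) (by omega)] at h4
          rw [ccw_iff6 (a := d) (b := b) (c := c) (by omega) (by omega)] at h5
          rw [ccw_iff6 (a := d) (b := a) (c := c) (by omega) (by omega)]
          have q0 := four (σ := σ) (a := l) (b := b) (c := a) (d := c) (by omega) (by omega) (by omega)
          have q1 := four (σ := σ) (a := l) (b := d) (c := b) (d := a) (by omega) (by omega) (by omega)
          have q2 := four (σ := σ) (a := l) (b := d) (c := a) (d := c) (by omega) (by omega) (by omega)
          have q3 := four (σ := σ) (a := l) (b := d) (c := b) (d := c) (by omega) (by omega) (by omega)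
          have q4 := four (σ := σ) (a := d) (b := b) (c := a) (d := c) (by omega) (by omega) (by omega)
          grind
        · rcases lt_or_gt_of_ne n_a_d.symm with c11|c11
          · rw [ccw_iff4 (a := l) (b := b) (c := a) (by omega) (by omega)] at h1
            rw [ccw_iff1 (a := l) (b := b) (c := c) (by omega) (by omega)] at h2
            rw [ccw_iff4 (a := l) (b := d) (c := c) (by omega) (by omega)] at h3
            rw [ccw_iff5 (a := b) (b := d) (c := a) (by omega) (by omega)] at h4
            rw [ccw_iff1 (a := b) (b := d) (c := c) (by omega) (by omega)] at h5
            rw [ccw_iff6 (a := d) (b := a) (c := c) (by omega) (by omega)]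
            have q0 := four (σ := σ) (a := l) (b := b) (c := a) (d := c) (by omega) (by omega) (by omega)
            have q1 := four (σ := σ) (a := l) (b := b) (c := d) (d := a) (by omega) (by omega) (by omega)
            have q2 := four (σ := σ) (a := l) (b := d) (c := a) (d := c) (by omega) (by omega) (by omega)
            have q3 := four (σ := σ) (a := l) (b := b) (c := d) (d := c) (by omega) (by omega) (by omega)
            have q4 := four (σ := σ) (a := b) (b := d) (c := a) (d := c) (by omega) (by omega) (by omega)
            grind
          · rcases lt_or_gt_of_ne n_c_d.symm with c12|c12
            · rw [ccw_iff4 (a := l) (b := b) (c := a) (by omega) (by omega)] at h1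
              rw [ccw_iff1 (a := l) (b := b) (c := c) (by omega) (by omega)] at h2
              rw [ccw_iff4 (a := l) (b := d) (c := c) (by omega) (by omega)] at h3
              rw [ccw_iff2 (a := b) (b := a) (c := d) (by omega) (by omega)] at h4
              rw [ccw_iff1 (a := b) (b := d) (c := c) (by omega) (by omega)] at h5
              rw [ccw_iff1 (a := a) (b := d) (c := c) (by omega) (by omega)]
              have q0 := four (σ := σ) (a := l) (b := b) (c := a) (d := c) (by omega) (by omega) (by omega)
              have q1 := four (σ := σ) (a := l) (b := b) (c := a) (d := d) (by omega) (by omega) (by omega)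
              have q2 := four (σ := σ) (a := l) (b := a) (c := d) (d := c) (by omega) (by omega) (by omega)
              have q3 := four (σ := σ) (a := l) (b := b) (c := d) (d := c) (by omega) (by omega) (by omega)
              have q4 := four (σ := σ) (a := b) (b := a) (c := d) (d := c) (by omega) (by omega) (by omega)
              grind
            · rw [ccw_iff4 (a := l) (b := b) (c := a) (by omega) (by omega)] at h1
              rw [ccw_iff1 (a := l) (b := b) (c := c) (by omega) (by omega)] at h2
              rw [ccw_iff1 (a := l) (b := c) (c := d) (by omega) (by omega)] at h3
              rw [ccw_iff2 (a := b) (b := a) (c := d) (by omega) (by omega)] at h4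
              rw [ccw_iff4 (a := b) (b := c) (c := d) (by omega) (by omega)] at h5
              rw [ccw_iff4 (a := a) (b := c) (c := d) (by omega) (by omega)]
              have q0 := four (σ := σ) (a := l) (b := b) (c := a) (d := c) (by omega) (by omega) (by omega)
              have q1 := four (σ := σ) (a := l) (b := b) (c := a) (d := d) (by omega) (by omega) (by omega)
              have q2 := four (σ := σ) (a := l) (b := a) (c := c) (d := d) (by omega) (by omega) (by omega)
              have q3 := four (σ := σ) (a := l) (b := b) (c := c) (d := d) (by omega) (by omega) (by omega)
              have q4 := four (σ := σ) (a := b) (b := a) (c := c) (d := d) (by omega) (by omega) (by omega)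
              grind
  · rcases lt_or_gt_of_ne n_a_c.symm with c13|c13
    · rcases lt_or_gt_of_ne n_c_d.symm with c14|c14
      · rw [ccw_iff1 (a := l) (b := a) (c := b) (by omega) (by omega)] at h1
        rw [ccw_iff4 (a := l) (b := c) (c := b) (by omega) (by omega)] at h2
        rw [ccw_iff4 (a := l) (b := d) (c := c) (by omega) (by omega)] at h3
        rw [ccw_iff6 (a := d) (b := a) (c := b) (by omega) (by omega)] at h4
        rw [ccw_iff3 (a := d) (b := c) (c := b) (by omega) (by omega)] at h5
        rw [ccw_iff3 (a := d) (b := c) (c := a) (by omega) (by omega)]
        have q0 := four (σ := σ) (a := l) (b := c) (c := a) (d := b) (by omega) (by omega) (by omega)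
        have q1 := four (σ := σ) (a := l) (b := d) (c := a) (d := b) (by omega) (by omega) (by omega)
        have q2 := four (σ := σ) (a := l) (b := d) (c := c) (d := a) (by omega) (by omega) (by omega)
        have q3 := four (σ := σ) (a := l) (b := d) (c := c) (d := b) (by omega) (by omega) (by omega)
        have q4 := four (σ := σ) (a := d) (b := c) (c := a) (d := b) (by omega) (by omega) (by omega)
        grind
      · rcases lt_or_gt_of_ne n_a_d.symm with c15|c15
        · rw [ccw_iff1 (a := l) (b := a) (c := b) (by omega) (by omega)] at h1
          rw [ccw_iff4 (a := l) (b := c) (c := b) (by omega) (by omega)] at h2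
          rw [ccw_iff1 (a := l) (b := c) (c := d) (by omega) (by omega)] at h3
          rw [ccw_iff6 (a := d) (b := a) (c := b) (by omega) (by omega)] at h4
          rw [ccw_iff5 (a := c) (b := d) (c := b) (by omega) (by omega)] at h5
          rw [ccw_iff5 (a := c) (b := d) (c := a) (by omega) (by omega)]
          have q0 := four (σ := σ) (a := l) (b := c) (c := a) (d := b) (by omega) (by omega) (by omega)
          have q1 := four (σ := σ) (a := l) (b := d) (c := a) (d := b) (by omega) (by omega) (by omega)
          have q2 := four (σ := σ) (a := l) (b := c) (c := d) (d := a) (by omega) (by omega) (by omega)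
          have q3 := four (σ := σ) (a := l) (b := c) (c := d) (d := b) (by omega) (by omega) (by omega)
          have q4 := four (σ := σ) (a := c) (b := d) (c := a) (d := b) (by omega) (by omega) (by omega)
          grind
        · rcases lt_or_gt_of_ne n_d_b with c16|c16
          · rw [ccw_iff1 (a := l) (b := a) (c := b) (by omega) (by omega)] at h1
            rw [ccw_iff4 (a := l) (b := c) (c := b) (by omega) (by omega)] at h2
            rw [ccw_iff1 (a := l) (b := c) (c := d) (by omega) (by omega)] at h3
            rw [ccw_iff1 (a := a) (b := d) (c := b) (by omega) (by omega)] at h4
            rw [ccw_iff5 (a := c) (b := d) (c := b) (by omega) (by omega)] at h5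
            rw [ccw_iff2 (a := c) (b := a) (c := d) (by omega) (by omega)]
            have q0 := four (σ := σ) (a := l) (b := c) (c := a) (d := b) (by omega) (by omega) (by omega)
            have q1 := four (σ := σ) (a := l) (b := a) (c := d) (d := b) (by omega) (by omega) (by omega)
            have q2 := four (σ := σ) (a := l) (b := c) (c := a) (d := d) (by omega) (by omega) (by omega)
            have q3 := four (σ := σ) (a := l) (b := c) (c := d) (d := b) (by omega) (by omega) (by omega)
            have q4 := four (σ := σ) (a := c) (b := a) (c := d) (d := b) (by omega) (by omega) (by omega)
            grind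
          · rw [ccw_iff1 (a := l) (b := a) (c := b) (by omega) (by omega)] at h1
            rw [ccw_iff4 (a := l) (b := c) (c := b) (by omega) (by omega)] at h2
            rw [ccw_iff1 (a := l) (b := c) (c := d) (by omega) (by omega)] at h3
            rw [ccw_iff4 (a := a) (b := b) (c := d) (by omega) (by omega)] at h4
            rw [ccw_iff2 (a := c) (b := b) (c := d) (by omega) (by omega)] at h5
            rw [ccw_iff2 (a := c) (b := a) (c := d) (by omega) (by omega)]
            have q0 := four (σ := σ) (a := l) (b := c) (c := a) (d := b) (by omega) (by omega) (by omega)
            have q1 := four (σ := σ) (a := l) (b := a) (c := b) (d := d) (by omega) (by omega) (by omega)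
            have q2 := four (σ := σ) (a := l) (b := c) (c := a) (d := d) (by omega) (by omega) (by omega)
            have q3 := four (σ := σ) (a := l) (b := c) (c := b) (d := d) (by omega) (by omega) (by omega)
            have q4 := four (σ := σ) (a := c) (b := a) (c := b) (d := d) (by omega) (by omega) (by omega)
            grind
    · rcases lt_or_gt_of_ne n_b_c.symm with c17|c17
      · rcases lt_or_gt_of_ne n_a_d.symm with c18|c18
        · rw [ccw_iff1 (a := l) (b := a) (c := b) (by omega) (by omega)] at h1
          rw [ccw_iff4 (a := l) (b := c) (c := b) (by omega) (by omega)] at h2
          rw [ccw_iff4 (a := l) (b := d) (c := c) (by omega) (by omega)] at h3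
          rw [ccw_iff6 (a := d) (b := a) (c := b) (by omega) (by omega)] at h4
          rw [ccw_iff3 (a := d) (b := c) (c := b) (by omega) (by omega)] at h5
          rw [ccw_iff6 (a := d) (b := a) (c := c) (by omega) (by omega)]
          have q0 := four (σ := σ) (a := l) (b := a) (c := c) (d := b) (by omega) (by omega) (by omega)
          have q1 := four (σ := σ) (a := l) (b := d) (c := a) (d := b) (by omega) (by omega) (by omega)
          have q2 := four (σ := σ) (a := l) (b := d) (c := a) (d := c) (by omega) (by omega) (by omega)
          have q3 := four (σ := σ) (a := l) (b := d) (c := c) (d := b) (by omega) (by omega) (by omega)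
          have q4 := four (σ := σ) (a := d) (b := a) (c := c) (d := b) (by omega) (by omega) (by omega)
          grind
        · rcases lt_or_gt_of_ne n_c_d.symm with c19|c19
          · rw [ccw_iff1 (a := l) (b := a) (c := b) (by omega) (by omega)] at h1
            rw [ccw_iff4 (a := l) (b := c) (c := b) (by omega) (by omega)] at h2
            rw [ccw_iff4 (a := l) (b := d) (c := c) (by omega) (by omega)] at h3
            rw [ccw_iff1 (a := a) (b := d) (c := b) (by omega) (by omega)] at h4
            rw [ccw_iff3 (a := d) (b := c) (c := b) (by omega) (by omega)] at h5
            rw [ccw_iff1 (a := a) (b := d) (c := c) (by omega) (by omega)]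
            have q0 := four (σ := σ) (a := l) (b := a) (c := c) (d := b) (by omega) (by omega) (by omega)
            have q1 := four (σ := σ) (a := l) (b := a) (c := d) (d := b) (by omega) (by omega) (by omega)
            have q2 := four (σ := σ) (a := l) (b := a) (c := d) (d := c) (by omega) (by omega) (by omega)
            have q3 := four (σ := σ) (a := l) (b := d) (c := c) (d := b) (by omega) (by omega) (by omega)
            have q4 := four (σ := σ) (a := a) (b := d) (c := c) (d := b) (by omega) (by omega) (by omega)
            grind
          · rcases lt_or_gt_of_ne n_d_b with c20|c20
            · rw [ccw_iff1 (a := l) (b := a) (c := b) (by omega) (by omega)] at h1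
              rw [ccw_iff4 (a := l) (b := c) (c := b) (by omega) (by omega)] at h2
              rw [ccw_iff1 (a := l) (b := c) (c := d) (by omega) (by omega)] at h3
              rw [ccw_iff1 (a := a) (b := d) (c := b) (by omega) (by omega)] at h4
              rw [ccw_iff5 (a := c) (b := d) (c := b) (by omega) (by omega)] at h5
              rw [ccw_iff4 (a := a) (b := c) (c := d) (by omega) (by omega)]
              have q0 := four (σ := σ) (a := l) (b := a) (c := c) (d := b) (by omega) (by omega) (by omega)
              have q1 := four (σ := σ) (a := l) (b := a) (c := d) (d := b) (by omega) (by omega) (by omega)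
              have q2 := four (σ := σ) (a := l) (b := a) (c := c) (d := d) (by omega) (by omega) (by omega)
              have q3 := four (σ := σ) (a := l) (b := c) (c := d) (d := b) (by omega) (by omega) (by omega)
              have q4 := four (σ := σ) (a := a) (b := c) (c := d) (d := b) (by omega) (by omega) (by omega)
              grind
            · rw [ccw_iff1 (a := l) (b := a) (c := b) (by omega) (by omega)] at h1
              rw [ccw_iff4 (a := l) (b := c) (c := b) (by omega) (by omega)] at h2
              rw [ccw_iff1 (a := l) (b := c) (c := d) (by omega) (by omega)] at h3
              rw [ccw_iff4 (a := a) (b := b) (c := d) (by omega) (by omega)] at h4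
              rw [ccw_iff2 (a := c) (b := b) (c := d) (by omega) (by omega)] at h5
              rw [ccw_iff4 (a := a) (b := c) (c := d) (by omega) (by omega)]
              have q0 := four (σ := σ) (a := l) (b := a) (c := c) (d := b) (by omega) (by omega) (by omega)
              have q1 := four (σ := σ) (a := l) (b := a) (c := b) (d := d) (by omega) (by omega) (by omega)
              have q2 := four (σ := σ) (a := l) (b := a) (c := c) (d := d) (by omega) (by omega) (by omega)
              have q3 := four (σ := σ) (a := l) (b := c) (c := b) (d := d) (by omega) (by omega) (by omega)
              have q4 := four (σ := σ) (a := a) (b := c) (c := b) (d := d) (by omega) (by omega) (by omega)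
              grind
      · rcases lt_or_gt_of_ne n_a_d.symm with c21|c21
        · rw [ccw_iff1 (a := l) (b := a) (c := b) (by omega) (by omega)] at h1
          rw [ccw_iff1 (a := l) (b := b) (c := c) (by omega) (by omega)] at h2
          rw [ccw_iff4 (a := l) (b := d) (c := c) (by omega) (by omega)] at h3
          rw [ccw_iff6 (a := d) (b := a) (c := b) (by omega) (by omega)] at h4
          rw [ccw_iff6 (a := d) (b := b) (c := c) (by omega) (by omega)] at h5
          rw [ccw_iff6 (a := d) (b := a) (c := c) (by omega) (by omega)]
          have q0 := four (σ := σ) (a := l) (b := a) (c := b) (d := c) (by omega) (by omega) (by omega)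
          have q1 := four (σ := σ) (a := l) (b := d) (c := a) (d := b) (by omega) (by omega) (by omega)
          have q2 := four (σ := σ) (a := l) (b := d) (c := a) (d := c) (by omega) (by omega) (by omega)
          have q3 := four (σ := σ) (a := l) (b := d) (c := b) (d := c) (by omega) (by omega) (by omega)
          have q4 := four (σ := σ) (a := d) (b := a) (c := b) (d := c) (by omega) (by omega) (by omega)
          grind
        · rcases lt_or_gt_of_ne n_d_b with c22|c22
          · rw [ccw_iff1 (a := l) (b := a) (c := b) (by omega) (by omega)] at h1
            rw [ccw_iff1 (a := l) (b := b) (c := c) (by omega) (by omega)] at h2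
            rw [ccw_iff4 (a := l) (b := d) (c := c) (by omega) (by omega)] at h3
            rw [ccw_iff1 (a := a) (b := d) (c := b) (by omega) (by omega)] at h4
            rw [ccw_iff6 (a := d) (b := b) (c := c) (by omega) (by omega)] at h5
            rw [ccw_iff1 (a := a) (b := d) (c := c) (by omega) (by omega)]
            have q0 := four (σ := σ) (a := l) (b := a) (c := b) (d := c) (by omega) (by omega) (by omega)
            have q1 := four (σ := σ) (a := l) (b := a) (c := d) (d := b) (by omega) (by omega) (by omega)
            have q2 := four (σ := σ) (a := l) (b := a) (c := d) (d := c) (by omega) (by omega) (by omega)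
            have q3 := four (σ := σ) (a := l) (b := d) (c := b) (d := c) (by omega) (by omega) (by omega)
            have q4 := four (σ := σ) (a := a) (b := d) (c := b) (d := c) (by omega) (by omega) (by omega)
            grind
          · rcases lt_or_gt_of_ne n_c_d.symm with c23|c23
            · rw [ccw_iff1 (a := l) (b := a) (c := b) (by omega) (by omega)] at h1
              rw [ccw_iff1 (a := l) (b := b) (c := c) (by omega) (by omega)] at h2
              rw [ccw_iff4 (a := l) (b := d) (c := c) (by omega) (by omega)] at h3
              rw [ccw_iff4 (a := a) (b := b) (c := d) (by omega) (by omega)] at h4
              rw [ccw_iff1 (a := b) (b := d) (c := c) (by omega) (by omega)] at h5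
              rw [ccw_iff1 (a := a) (b := d) (c := c) (by omega) (by omega)]
              have q0 := four (σ := σ) (a := l) (b := a) (c := b) (d := c) (by omega) (by omega) (by omega)
              have q1 := four (σ := σ) (a := l) (b := a) (c := b) (d := d) (by omega) (by omega) (by omega)
              have q2 := four (σ := σ) (a := l) (b := a) (c := d) (d := c) (by omega) (by omega) (by omega)
              have q3 := four (σ := σ) (a := l) (b := b) (c := d) (d := c) (by omega) (by omega) (by omega)
              have q4 := four (σ := σ) (a := a) (b := b) (c := d) (d := c) (by omega) (by omega) (by omega)
              grind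
            · rw [ccw_iff1 (a := l) (b := a) (c := b) (by omega) (by omega)] at h1
              rw [ccw_iff1 (a := l) (b := b) (c := c) (by omega) (by omega)] at h2
              rw [ccw_iff1 (a := l) (b := c) (c := d) (by omega) (by omega)] at h3
              rw [ccw_iff4 (a := a) (b := b) (c := d) (by omega) (by omega)] at h4
              rw [ccw_iff4 (a := b) (b := c) (c := d) (by omega) (by omega)] at h5
              rw [ccw_iff4 (a := a) (b := c) (c := d) (by omega) (by omega)]
              have q0 := four (σ := σ) (a := l) (b := a) (c := b) (d := c) (by omega) (by omega) (by omega)
              have q1 := four (σ := σ) (a := l) (b := a) (c := b) (d := d) (by omega) (by omega) (by omega)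
              have q2 := four (σ := σ) (a := l) (b := a) (c := c) (d := d) (by omega) (by omega) (by omega)
              have q3 := four (σ := σ) (a := l) (b := b) (c := c) (d := d) (by omega) (by omega) (by omega)
              have q4 := four (σ := σ) (a := a) (b := b) (c := c) (d := d) (by omega) (by omega) (by omega)
              grind

/-- b near ac, c near bd imply b near ad. -/
theorem L14 {l a b c d : ℤ} (o0 : l < a) (o1 : l < b) (o2 : l < c) (o3 : l < d) (h1 : σ.ccw l a b) (h2 : σ.ccw l b c) (h3 : σ.ccw l c d) (h4 : σ.ccw a c b) (h5 : σ.ccw b d c) : σ.ccw a d b := by
  have n_l_a := ne12 h1
  have n_a_b := ne23 h1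
  have n_l_b := ne13 h1
  have n_b_c := ne23 h2
  have n_l_c := ne13 h2
  have n_c_d := ne23 h3
  have n_l_d := ne13 h3
  have n_a_c := ne12 h4
  have n_b_d := ne12 h5
  have n_a_c : a ≠ c := ne23 (trL o0 o1 o2 h1 h2)
  have n_b_d : b ≠ d := ne23 (trL o1 o2 o3 h2 h3)
  have n_a_d : a ≠ d := ne23 (trL o0 o1 o3 h1 (trL o1 o2 o3 h2 h3))
  rcases lt_or_gt_of_ne n_a_b.symm with c1|c1
  · rcases lt_or_gt_of_ne n_b_c.symm with c2|c2
    · rcases lt_or_gt_of_ne n_c_d.symm with c3|c3
      · rw [ccw_iff4 (a := l) (b := b) (c := a) (by omega) (by omega)] at h1
        rw [ccw_iff4 (a := l) (b := c) (c := b) (by omega) (by omega)] at h2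
        rw [ccw_iff4 (a := l) (b := d) (c := c) (by omega) (by omega)] at h3
        rw [ccw_iff3 (a := c) (b := b) (c := a) (by omega) (by omega)] at h4
        rw [ccw_iff3 (a := d) (b := c) (c := b) (by omega) (by omega)] at h5
        rw [ccw_iff3 (a := d) (b := b) (c := a) (by omega) (by omega)]
        have q0 := four (σ := σ) (a := l) (b := c) (c := b) (d := a) (by omega) (by omega) (by omega)
        have q1 := four (σ := σ) (a := l) (b := d) (c := b) (d := a) (by omega) (by omega) (by omega)
        have q2 := four (σ := σ) (a := l) (b := d) (c := c) (d := a) (by omega) (by omega) (by omega)
        have q3 := four (σ := σ) (a := l) (b := d) (c := c) (d := b) (by omega) (by omega) (by omega)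
        have q4 := four (σ := σ) (a := d) (b := c) (c := b) (d := a) (by omega) (by omega) (by omega)
        grind
      · rcases lt_or_gt_of_ne n_b_d.symm with c4|c4
        · rw [ccw_iff4 (a := l) (b := b) (c := a) (by omega) (by omega)] at h1
          rw [ccw_iff4 (a := l) (b := c) (c := b) (by omega) (by omega)] at h2
          rw [ccw_iff1 (a := l) (b := c) (c := d) (by omega) (by omega)] at h3
          rw [ccw_iff3 (a := c) (b := b) (c := a) (by omega) (by omega)] at h4
          rw [ccw_iff5 (a := c) (b := d) (c := b) (by omega) (by omega)] at h5
          rw [ccw_iff3 (a := d) (b := b) (c := a) (by omega) (by omega)]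
          have q0 := four (σ := σ) (a := l) (b := c) (c := b) (d := a) (by omega) (by omega) (by omega)
          have q1 := four (σ := σ) (a := l) (b := d) (c := b) (d := a) (by omega) (by omega) (by omega)
          have q2 := four (σ := σ) (a := l) (b := c) (c := d) (d := a) (by omega) (by omega) (by omega)
          have q3 := four (σ := σ) (a := l) (b := c) (c := d) (d := b) (by omega) (by omega) (by omega)
          have q4 := four (σ := σ) (a := c) (b := d) (c := b) (d := a) (by omega) (by omega) (by omega)
          grind
        · rcases lt_or_gt_of_ne n_a_d.symm with c5|c5
          · rw [ccw_iff4 (a := l) (b := b) (c := a) (by omega) (by omega)] at h1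
            rw [ccw_iff4 (a := l) (b := c) (c := b) (by omega) (by omega)] at h2
            rw [ccw_iff1 (a := l) (b := c) (c := d) (by omega) (by omega)] at h3
            rw [ccw_iff3 (a := c) (b := b) (c := a) (by omega) (by omega)] at h4
            rw [ccw_iff2 (a := c) (b := b) (c := d) (by omega) (by omega)] at h5
            rw [ccw_iff5 (a := b) (b := d) (c := a) (by omega) (by omega)]
            have q0 := four (σ := σ) (a := l) (b := c) (c := b) (d := a) (by omega) (by omega) (by omega)
            have q1 := four (σ := σ) (a := l) (b := b) (c := d) (d := a) (by omega) (by omega) (by omega)
            have q2 := four (σ := σ) (a := l) (b := c) (c := d) (d := a) (by omega) (by omega) (by omega)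
            have q3 := four (σ := σ) (a := l) (b := c) (c := b) (d := d) (by omega) (by omega) (by omega)
            have q4 := four (σ := σ) (a := c) (b := b) (c := d) (d := a) (by omega) (by omega) (by omega)
            grind
          · rw [ccw_iff4 (a := l) (b := b) (c := a) (by omega) (by omega)] at h1
            rw [ccw_iff4 (a := l) (b := c) (c := b) (by omega) (by omega)] at h2
            rw [ccw_iff1 (a := l) (b := c) (c := d) (by omega) (by omega)] at h3
            rw [ccw_iff3 (a := c) (b := b) (c := a) (by omega) (by omega)] at h4
            rw [ccw_iff2 (a := c) (b := b) (c := d) (by omega) (by omega)] at h5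
            rw [ccw_iff2 (a := b) (b := a) (c := d) (by omega) (by omega)]
            have q0 := four (σ := σ) (a := l) (b := c) (c := b) (d := a) (by omega) (by omega) (by omega)
            have q1 := four (σ := σ) (a := l) (b := b) (c := a) (d := d) (by omega) (by omega) (by omega)
            have q2 := four (σ := σ) (a := l) (b := c) (c := a) (d := d) (by omega) (by omega) (by omega)
            have q3 := four (σ := σ) (a := l) (b := c) (c := b) (d := d) (by omega) (by omega) (by omega)
            have q4 := four (σ := σ) (a := c) (b := b) (c := a) (d := d) (by omega) (by omega) (by omega)
            grind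
    · rcases lt_or_gt_of_ne n_a_c.symm with c6|c6
      · rcases lt_or_gt_of_ne n_b_d.symm with c7|c7
        · rw [ccw_iff4 (a := l) (b := b) (c := a) (by omega) (by omega)] at h1
          rw [ccw_iff1 (a := l) (b := b) (c := c) (by omega) (by omega)] at h2
          rw [ccw_iff4 (a := l) (b := d) (c := c) (by omega) (by omega)] at h3
          rw [ccw_iff5 (a := b) (b := c) (c := a) (by omega) (by omega)] at h4
          rw [ccw_iff6 (a := d) (b := b) (c := c) (by omega) (by omega)] at h5
          rw [ccw_iff3 (a := d) (b := b) (c := a) (by omega) (by omega)]
          have q0 := four (σ := σ) (a := l) (b := b) (c := c) (d := a) (by omega) (by omega) (by omega)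
          have q1 := four (σ := σ) (a := l) (b := d) (c := b) (d := a) (by omega) (by omega) (by omega)
          have q2 := four (σ := σ) (a := l) (b := d) (c := c) (d := a) (by omega) (by omega) (by omega)
          have q3 := four (σ := σ) (a := l) (b := d) (c := b) (d := c) (by omega) (by omega) (by omega)
          have q4 := four (σ := σ) (a := d) (b := b) (c := c) (d := a) (by omega) (by omega) (by omega)
          grind
        · rcases lt_or_gt_of_ne n_c_d.symm with c8|c8
          · rw [ccw_iff4 (a := l) (b := b) (c := a) (by omega) (by omega)] at h1
            rw [ccw_iff1 (a := l) (b := b) (c := c) (by omega) (by omega)] at h2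
            rw [ccw_iff4 (a := l) (b := d) (c := c) (by omega) (by omega)] at h3
            rw [ccw_iff5 (a := b) (b := c) (c := a) (by omega) (by omega)] at h4
            rw [ccw_iff1 (a := b) (b := d) (c := c) (by omega) (by omega)] at h5
            rw [ccw_iff5 (a := b) (b := d) (c := a) (by omega) (by omega)]
            have q0 := four (σ := σ) (a := l) (b := b) (c := c) (d := a) (by omega) (by omega) (by omega)
            have q1 := four (σ := σ) (a := l) (b := b) (c := d) (d := a) (by omega) (by omega) (by omega)
            have q2 := four (σ := σ) (a := l) (b := d) (c := c) (d := a) (by omega) (by omega) (by omega)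
            have q3 := four (σ := σ) (a := l) (b := b) (c := d) (d := c) (by omega) (by omega) (by omega)
            have q4 := four (σ := σ) (a := b) (b := d) (c := c) (d := a) (by omega) (by omega) (by omega)
            grind
          · rcases lt_or_gt_of_ne n_a_d.symm with c9|c9
            · rw [ccw_iff4 (a := l) (b := b) (c := a) (by omega) (by omega)] at h1
              rw [ccw_iff1 (a := l) (b := b) (c := c) (by omega) (by omega)] at h2
              rw [ccw_iff1 (a := l) (b := c) (c := d) (by omega) (by omega)] at h3
              rw [ccw_iff5 (a := b) (b := c) (c := a) (by omega) (by omega)] at h4
              rw [ccw_iff4 (a := b) (b := c) (c := d) (by omega) (by omega)] at h5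
              rw [ccw_iff5 (a := b) (b := d) (c := a) (by omega) (by omega)]
              have q0 := four (σ := σ) (a := l) (b := b) (c := c) (d := a) (by omega) (by omega) (by omega)
              have q1 := four (σ := σ) (a := l) (b := b) (c := d) (d := a) (by omega) (by omega) (by omega)
              have q2 := four (σ := σ) (a := l) (b := c) (c := d) (d := a) (by omega) (by omega) (by omega)
              have q3 := four (σ := σ) (a := l) (b := b) (c := c) (d := d) (by omega) (by omega) (by omega)
              have q4 := four (σ := σ) (a := b) (b := c) (c := d) (d := a) (by omega) (by omega) (by omega)
              grind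
            · rw [ccw_iff4 (a := l) (b := b) (c := a) (by omega) (by omega)] at h1
              rw [ccw_iff1 (a := l) (b := b) (c := c) (by omega) (by omega)] at h2
              rw [ccw_iff1 (a := l) (b := c) (c := d) (by omega) (by omega)] at h3
              rw [ccw_iff5 (a := b) (b := c) (c := a) (by omega) (by omega)] at h4
              rw [ccw_iff4 (a := b) (b := c) (c := d) (by omega) (by omega)] at h5
              rw [ccw_iff2 (a := b) (b := a) (c := d) (by omega) (by omega)]
              have q0 := four (σ := σ) (a := l) (b := b) (c := c) (d := a) (by omega) (by omega) (by omega)
              have q1 := four (σ := σ) (a := l) (b := b) (c := a) (d := d) (by omega) (by omega) (by omega)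
              have q2 := four (σ := σ) (a := l) (b := c) (c := a) (d := d) (by omega) (by omega) (by omega)
              have q3 := four (σ := σ) (a := l) (b := b) (c := c) (d := d) (by omega) (by omega) (by omega)
              have q4 := four (σ := σ) (a := b) (b := c) (c := a) (d := d) (by omega) (by omega) (by omega)
              grind
      · rcases lt_or_gt_of_ne n_b_d.symm with c10|c10
        · rw [ccw_iff4 (a := l) (b := b) (c := a) (by omega) (by omega)] at h1
          rw [ccw_iff1 (a := l) (b := b) (c := c) (by omega) (by omega)] at h2
          rw [ccw_iff4 (a := l) (b := d) (c := c) (by omega) (by omega)] at h3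
          rw [ccw_iff2 (a := b) (b := a) (c := c) (by omega) (by omega)] at h4
          rw [ccw_iff6 (a := d) (b := b) (c := c) (by omega) (by omega)] at h5
          rw [ccw_iff3 (a := d) (b := b) (c := a) (by omega) (by omega)]
          have q0 := four (σ := σ) (a := l) (b := b) (c := a) (d := c) (by omega) (by omega) (by omega)
          have q1 := four (σ := σ) (a := l) (b := d) (c := b) (d := a) (by omega) (by omega) (by omega)
          have q2 := four (σ := σ) (a := l) (b := d) (c := a) (d := c) (by omega) (by omega) (by omega)
          have q3 := four (σ := σ) (a := l) (b := d) (c := b) (d := c) (by omega) (by omega) (by omega)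
          have q4 := four (σ := σ) (a := d) (b := b) (c := a) (d := c) (by omega) (by omega) (by omega)
          grind
        · rcases lt_or_gt_of_ne n_a_d.symm with c11|c11
          · rw [ccw_iff4 (a := l) (b := b) (c := a) (by omega) (by omega)] at h1
            rw [ccw_iff1 (a := l) (b := b) (c := c) (by omega) (by omega)] at h2
            rw [ccw_iff4 (a := l) (b := d) (c := c) (by omega) (by omega)] at h3
            rw [ccw_iff2 (a := b) (b := a) (c := c) (by omega) (by omega)] at h4
            rw [ccw_iff1 (a := b) (b := d) (c := c) (by omega) (by omega)] at h5
            rw [ccw_iff5 (a := b) (b := d) (c := a) (by omega) (by omega)]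
            have q0 := four (σ := σ) (a := l) (b := b) (c := a) (d := c) (by omega) (by omega) (by omega)
            have q1 := four (σ := σ) (a := l) (b := b) (c := d) (d := a) (by omega) (by omega) (by omega)
            have q2 := four (σ := σ) (a := l) (b := d) (c := a) (d := c) (by omega) (by omega) (by omega)
            have q3 := four (σ := σ) (a := l) (b := b) (c := d) (d := c) (by omega) (by omega) (by omega)
            have q4 := four (σ := σ) (a := b) (b := d) (c := a) (d := c) (by omega) (by omega) (by omega)
            grind
          · rcases lt_or_gt_of_ne n_c_d.symm with c12|c12
            · rw [ccw_iff4 (a := l) (b := b) (c := a) (by omega) (by omega)] at h1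
              rw [ccw_iff1 (a := l) (b := b) (c := c) (by omega) (by omega)] at h2
              rw [ccw_iff4 (a := l) (b := d) (c := c) (by omega) (by omega)] at h3
              rw [ccw_iff2 (a := b) (b := a) (c := c) (by omega) (by omega)] at h4
              rw [ccw_iff1 (a := b) (b := d) (c := c) (by omega) (by omega)] at h5
              rw [ccw_iff2 (a := b) (b := a) (c := d) (by omega) (by omega)]
              have q0 := four (σ := σ) (a := l) (b := b) (c := a) (d := c) (by omega) (by omega) (by omega)
              have q1 := four (σ := σ) (a := l) (b := b) (c := a) (d := d) (by omega) (by omega) (by omega)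
              have q2 := four (σ := σ) (a := l) (b := a) (c := d) (d := c) (by omega) (by omega) (by omega)
              have q3 := four (σ := σ) (a := l) (b := b) (c := d) (d := c) (by omega) (by omega) (by omega)
              have q4 := four (σ := σ) (a := b) (b := a) (c := d) (d := c) (by omega) (by omega) (by omega)
              grind
            · rw [ccw_iff4 (a := l) (b := b) (c := a) (by omega) (by omega)] at h1
              rw [ccw_iff1 (a := l) (b := b) (c := c) (by omega) (by omega)] at h2
              rw [ccw_iff1 (a := l) (b := c) (c := d) (by omega) (by omega)] at h3
              rw [ccw_iff2 (a := b) (b := a) (c := c) (by omega) (by omega)] at h4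
              rw [ccw_iff4 (a := b) (b := c) (c := d) (by omega) (by omega)] at h5
              rw [ccw_iff2 (a := b) (b := a) (c := d) (by omega) (by omega)]
              have q0 := four (σ := σ) (a := l) (b := b) (c := a) (d := c) (by omega) (by omega) (by omega)
              have q1 := four (σ := σ) (a := l) (b := b) (c := a) (d := d) (by omega) (by omega) (by omega)
              have q2 := four (σ := σ) (a := l) (b := a) (c := c) (d := d) (by omega) (by omega) (by omega)
              have q3 := four (σ := σ) (a := l) (b := b) (c := c) (d := d) (by omega) (by omega) (by omega)
              have q4 := four (σ := σ) (a := b) (b := a) (c := c) (d := d) (by omega) (by omega) (by omega)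
              grind
  · rcases lt_or_gt_of_ne n_a_c.symm with c13|c13
    · rcases lt_or_gt_of_ne n_c_d.symm with c14|c14
      · rw [ccw_iff1 (a := l) (b := a) (c := b) (by omega) (by omega)] at h1
        rw [ccw_iff4 (a := l) (b := c) (c := b) (by omega) (by omega)] at h2
        rw [ccw_iff4 (a := l) (b := d) (c := c) (by omega) (by omega)] at h3
        rw [ccw_iff6 (a := c) (b := a) (c := b) (by omega) (by omega)] at h4
        rw [ccw_iff3 (a := d) (b := c) (c := b) (by omega) (by omega)] at h5
        rw [ccw_iff6 (a := d) (b := a) (c := b) (by omega) (by omega)]
        have q0 := four (σ := σ) (a := l) (b := c) (c := a) (d := b) (by omega) (by omega) (by omega)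
        have q1 := four (σ := σ) (a := l) (b := d) (c := a) (d := b) (by omega) (by omega) (by omega)
        have q2 := four (σ := σ) (a := l) (b := d) (c := c) (d := a) (by omega) (by omega) (by omega)
        have q3 := four (σ := σ) (a := l) (b := d) (c := c) (d := b) (by omega) (by omega) (by omega)
        have q4 := four (σ := σ) (a := d) (b := c) (c := a) (d := b) (by omega) (by omega) (by omega)
        grind
      · rcases lt_or_gt_of_ne n_a_d.symm with c15|c15
        · rw [ccw_iff1 (a := l) (b := a) (c := b) (by omega) (by omega)] at h1
          rw [ccw_iff4 (a := l) (b := c) (c := b) (by omega) (by omega)] at h2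
          rw [ccw_iff1 (a := l) (b := c) (c := d) (by omega) (by omega)] at h3
          rw [ccw_iff6 (a := c) (b := a) (c := b) (by omega) (by omega)] at h4
          rw [ccw_iff5 (a := c) (b := d) (c := b) (by omega) (by omega)] at h5
          rw [ccw_iff6 (a := d) (b := a) (c := b) (by omega) (by omega)]
          have q0 := four (σ := σ) (a := l) (b := c) (c := a) (d := b) (by omega) (by omega) (by omega)
          have q1 := four (σ := σ) (a := l) (b := d) (c := a) (d := b) (by omega) (by omega) (by omega)
          have q2 := four (σ := σ) (a := l) (b := c) (c := d) (d := a) (by omega) (by omega) (by omega)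
          have q3 := four (σ := σ) (a := l) (b := c) (c := d) (d := b) (by omega) (by omega) (by omega)
          have q4 := four (σ := σ) (a := c) (b := d) (c := a) (d := b) (by omega) (by omega) (by omega)
          grind
        · rcases lt_or_gt_of_ne n_b_d.symm with c16|c16
          · rw [ccw_iff1 (a := l) (b := a) (c := b) (by omega) (by omega)] at h1
            rw [ccw_iff4 (a := l) (b := c) (c := b) (by omega) (by omega)] at h2
            rw [ccw_iff1 (a := l) (b := c) (c := d) (by omega) (by omega)] at h3
            rw [ccw_iff6 (a := c) (b := a) (c := b) (by omega) (by omega)] at h4
            rw [ccw_iff5 (a := c) (b := d) (c := b) (by omega) (by omega)] at h5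
            rw [ccw_iff1 (a := a) (b := d) (c := b) (by omega) (by omega)]
            have q0 := four (σ := σ) (a := l) (b := c) (c := a) (d := b) (by omega) (by omega) (by omega)
            have q1 := four (σ := σ) (a := l) (b := a) (c := d) (d := b) (by omega) (by omega) (by omega)
            have q2 := four (σ := σ) (a := l) (b := c) (c := a) (d := d) (by omega) (by omega) (by omega)
            have q3 := four (σ := σ) (a := l) (b := c) (c := d) (d := b) (by omega) (by omega) (by omega)
            have q4 := four (σ := σ) (a := c) (b := a) (c := d) (d := b) (by omega) (by omega) (by omega)
            grind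
          · rw [ccw_iff1 (a := l) (b := a) (c := b) (by omega) (by omega)] at h1
            rw [ccw_iff4 (a := l) (b := c) (c := b) (by omega) (by omega)] at h2
            rw [ccw_iff1 (a := l) (b := c) (c := d) (by omega) (by omega)] at h3
            rw [ccw_iff6 (a := c) (b := a) (c := b) (by omega) (by omega)] at h4
            rw [ccw_iff2 (a := c) (b := b) (c := d) (by omega) (by omega)] at h5
            rw [ccw_iff4 (a := a) (b := b) (c := d) (by omega) (by omega)]
            have q0 := four (σ := σ) (a := l) (b := c) (c := a) (d := b) (by omega) (by omega) (by omega)
            have q1 := four (σ := σ) (a := l) (b := a) (c := b) (d := d) (by omega) (by omega) (by omega)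
            have q2 := four (σ := σ) (a := l) (b := c) (c := a) (d := d) (by omega) (by omega) (by omega)
            have q3 := four (σ := σ) (a := l) (b := c) (c := b) (d := d) (by omega) (by omega) (by omega)
            have q4 := four (σ := σ) (a := c) (b := a) (c := b) (d := d) (by omega) (by omega) (by omega)
            grind
    · rcases lt_or_gt_of_ne n_b_c.symm with c17|c17
      · rcases lt_or_gt_of_ne n_a_d.symm with c18|c18
        · rw [ccw_iff1 (a := l) (b := a) (c := b) (by omega) (by omega)] at h1
          rw [ccw_iff4 (a := l) (b := c) (c := b) (by omega) (by omega)] at h2
          rw [ccw_iff4 (a := l) (b := d) (c := c) (by omega) (by omega)] at h3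
          rw [ccw_iff1 (a := a) (b := c) (c := b) (by omega) (by omega)] at h4
          rw [ccw_iff3 (a := d) (b := c) (c := b) (by omega) (by omega)] at h5
          rw [ccw_iff6 (a := d) (b := a) (c := b) (by omega) (by omega)]
          have q0 := four (σ := σ) (a := l) (b := a) (c := c) (d := b) (by omega) (by omega) (by omega)
          have q1 := four (σ := σ) (a := l) (b := d) (c := a) (d := b) (by omega) (by omega) (by omega)
          have q2 := four (σ := σ) (a := l) (b := d) (c := a) (d := c) (by omega) (by omega) (by omega)
          have q3 := four (σ := σ) (a := l) (b := d) (c := c) (d := b) (by omega) (by omega) (by omega)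
          have q4 := four (σ := σ) (a := d) (b := a) (c := c) (d := b) (by omega) (by omega) (by omega)
          grind
        · rcases lt_or_gt_of_ne n_c_d.symm with c19|c19
          · rw [ccw_iff1 (a := l) (b := a) (c := b) (by omega) (by omega)] at h1
            rw [ccw_iff4 (a := l) (b := c) (c := b) (by omega) (by omega)] at h2
            rw [ccw_iff4 (a := l) (b := d) (c := c) (by omega) (by omega)] at h3
            rw [ccw_iff1 (a := a) (b := c) (c := b) (by omega) (by omega)] at h4
            rw [ccw_iff3 (a := d) (b := c) (c := b) (by omega) (by omega)] at h5
            rw [ccw_iff1 (a := a) (b := d) (c := b) (by omega) (by omega)]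
            have q0 := four (σ := σ) (a := l) (b := a) (c := c) (d := b) (by omega) (by omega) (by omega)
            have q1 := four (σ := σ) (a := l) (b := a) (c := d) (d := b) (by omega) (by omega) (by omega)
            have q2 := four (σ := σ) (a := l) (b := a) (c := d) (d := c) (by omega) (by omega) (by omega)
            have q3 := four (σ := σ) (a := l) (b := d) (c := c) (d := b) (by omega) (by omega) (by omega)
            have q4 := four (σ := σ) (a := a) (b := d) (c := c) (d := b) (by omega) (by omega) (by omega)
            grind
          · rcases lt_or_gt_of_ne n_b_d.symm with c20|c20
            · rw [ccw_iff1 (a := l) (b := a) (c := b) (by omega) (by omega)] at h1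
              rw [ccw_iff4 (a := l) (b := c) (c := b) (by omega) (by omega)] at h2
              rw [ccw_iff1 (a := l) (b := c) (c := d) (by omega) (by omega)] at h3
              rw [ccw_iff1 (a := a) (b := c) (c := b) (by omega) (by omega)] at h4
              rw [ccw_iff5 (a := c) (b := d) (c := b) (by omega) (by omega)] at h5
              rw [ccw_iff1 (a := a) (b := d) (c := b) (by omega) (by omega)]
              have q0 := four (σ := σ) (a := l) (b := a) (c := c) (d := b) (by omega) (by omega) (by omega)
              have q1 := four (σ := σ) (a := l) (b := a) (c := d) (d := b) (by omega) (by omega) (by omega)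
              have q2 := four (σ := σ) (a := l) (b := a) (c := c) (d := d) (by omega) (by omega) (by omega)
              have q3 := four (σ := σ) (a := l) (b := c) (c := d) (d := b) (by omega) (by omega) (by omega)
              have q4 := four (σ := σ) (a := a) (b := c) (c := d) (d := b) (by omega) (by omega) (by omega)
              grind
            · rw [ccw_iff1 (a := l) (b := a) (c := b) (by omega) (by omega)] at h1
              rw [ccw_iff4 (a := l) (b := c) (c := b) (by omega) (by omega)] at h2
              rw [ccw_iff1 (a := l) (b := c) (c := d) (by omega) (by omega)] at h3
              rw [ccw_iff1 (a := a) (b := c) (c := b) (by omega) (by omega)] at h4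
              rw [ccw_iff2 (a := c) (b := b) (c := d) (by omega) (by omega)] at h5
              rw [ccw_iff4 (a := a) (b := b) (c := d) (by omega) (by omega)]
              have q0 := four (σ := σ) (a := l) (b := a) (c := c) (d := b) (by omega) (by omega) (by omega)
              have q1 := four (σ := σ) (a := l) (b := a) (c := b) (d := d) (by omega) (by omega) (by omega)
              have q2 := four (σ := σ) (a := l) (b := a) (c := c) (d := d) (by omega) (by omega) (by omega)
              have q3 := four (σ := σ) (a := l) (b := c) (c := b) (d := d) (by omega) (by omega) (by omega)
              have q4 := four (σ := σ) (a := a) (b := c) (c := b) (d := d) (by omega) (by omega) (by omega)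
              grind
      · rcases lt_or_gt_of_ne n_a_d.symm with c21|c21
        · rw [ccw_iff1 (a := l) (b := a) (c := b) (by omega) (by omega)] at h1
          rw [ccw_iff1 (a := l) (b := b) (c := c) (by omega) (by omega)] at h2
          rw [ccw_iff4 (a := l) (b := d) (c := c) (by omega) (by omega)] at h3
          rw [ccw_iff4 (a := a) (b := b) (c := c) (by omega) (by omega)] at h4
          rw [ccw_iff6 (a := d) (b := b) (c := c) (by omega) (by omega)] at h5
          rw [ccw_iff6 (a := d) (b := a) (c := b) (by omega) (by omega)]
          have q0 := four (σ := σ) (a := l) (b := a) (c := b) (d := c) (by omega) (by omega) (by omega)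
          have q1 := four (σ := σ) (a := l) (b := d) (c := a) (d := b) (by omega) (by omega) (by omega)
          have q2 := four (σ := σ) (a := l) (b := d) (c := a) (d := c) (by omega) (by omega) (by omega)
          have q3 := four (σ := σ) (a := l) (b := d) (c := b) (d := c) (by omega) (by omega) (by omega)
          have q4 := four (σ := σ) (a := d) (b := a) (c := b) (d := c) (by omega) (by omega) (by omega)
          grind
        · rcases lt_or_gt_of_ne n_b_d.symm with c22|c22
          · rw [ccw_iff1 (a := l) (b := a) (c := b) (by omega) (by omega)] at h1
            rw [ccw_iff1 (a := l) (b := b) (c := c) (by omega) (by omega)] at h2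
            rw [ccw_iff4 (a := l) (b := d) (c := c) (by omega) (by omega)] at h3
            rw [ccw_iff4 (a := a) (b := b) (c := c) (by omega) (by omega)] at h4
            rw [ccw_iff6 (a := d) (b := b) (c := c) (by omega) (by omega)] at h5
            rw [ccw_iff1 (a := a) (b := d) (c := b) (by omega) (by omega)]
            have q0 := four (σ := σ) (a := l) (b := a) (c := b) (d := c) (by omega) (by omega) (by omega)
            have q1 := four (σ := σ) (a := l) (b := a) (c := d) (d := b) (by omega) (by omega) (by omega)
            have q2 := four (σ := σ) (a := l) (b := a) (c := d) (d := c) (by omega) (by omega) (by omega)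
            have q3 := four (σ := σ) (a := l) (b := d) (c := b) (d := c) (by omega) (by omega) (by omega)
            have q4 := four (σ := σ) (a := a) (b := d) (c := b) (d := c) (by omega) (by omega) (by omega)
            grind
          · rcases lt_or_gt_of_ne n_c_d.symm with c23|c23
            · rw [ccw_iff1 (a := l) (b := a) (c := b) (by omega) (by omega)] at h1
              rw [ccw_iff1 (a := l) (b := b) (c := c) (by omega) (by omega)] at h2
              rw [ccw_iff4 (a := l) (b := d) (c := c) (by omega) (by omega)] at h3
              rw [ccw_iff4 (a := a) (b := b) (c := c) (by omega) (by omega)] at h4
              rw [ccw_iff1 (a := b) (b := d) (c := c) (by omega) (by omega)] at h5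
              rw [ccw_iff4 (a := a) (b := b) (c := d) (by omega) (by omega)]
              have q0 := four (σ := σ) (a := l) (b := a) (c := b) (d := c) (by omega) (by omega) (by omega)
              have q1 := four (σ := σ) (a := l) (b := a) (c := b) (d := d) (by omega) (by omega) (by omega)
              have q2 := four (σ := σ) (a := l) (b := a) (c := d) (d := c) (by omega) (by omega) (by omega)
              have q3 := four (σ := σ) (a := l) (b := b) (c := d) (d := c) (by omega) (by omega) (by omega)
              have q4 := four (σ := σ) (a := a) (b := b) (c := d) (d := c) (by omega) (by omega) (by omega)
              grind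
            · rw [ccw_iff1 (a := l) (b := a) (c := b) (by omega) (by omega)] at h1
              rw [ccw_iff1 (a := l) (b := b) (c := c) (by omega) (by omega)] at h2
              rw [ccw_iff1 (a := l) (b := c) (c := d) (by omega) (by omega)] at h3
              rw [ccw_iff4 (a := a) (b := b) (c := c) (by omega) (by omega)] at h4
              rw [ccw_iff4 (a := b) (b := c) (c := d) (by omega) (by omega)] at h5
              rw [ccw_iff4 (a := a) (b := b) (c := d) (by omega) (by omega)]
              have q0 := four (σ := σ) (a := l) (b := a) (c := b) (d := c) (by omega) (by omega) (by omega)
              have q1 := four (σ := σ) (a := l) (b := a) (c := b) (d := d) (by omega) (by omega) (by omega)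
              have q2 := four (σ := σ) (a := l) (b := a) (c := c) (d := d) (by omega) (by omega) (by omega)
              have q3 := four (σ := σ) (a := l) (b := b) (c := c) (d := d) (by omega) (by omega) (by omega)
              have q4 := four (σ := σ) (a := a) (b := b) (c := c) (d := d) (by omega) (by omega) (by omega)
              grind

/-- b far from ac, c far from ad imply b far from ad. -/
theorem F13 {l a b c d : ℤ} (o0 : l < a) (o1 : l < b) (o2 : l < c) (o3 : l < d) (h1 : σ.ccw l a b) (h2 : σ.ccw l b c) (h3 : σ.ccw l c d) (h4 : σ.ccw a b c) (h5 : σ.ccw a c d) : σ.ccw a b d := by
  have n_l_a := ne12 h1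
  have n_a_b := ne23 h1
  have n_l_b := ne13 h1
  have n_b_c := ne23 h2
  have n_l_c := ne13 h2
  have n_c_d := ne23 h3
  have n_l_d := ne13 h3
  have n_a_c := ne13 h4
  have n_a_d := ne13 h5
  have n_a_c : a ≠ c := ne23 (trL o0 o1 o2 h1 h2)
  have n_b_d : b ≠ d := ne23 (trL o1 o2 o3 h2 h3)
  have n_a_d : a ≠ d := ne23 (trL o0 o1 o3 h1 (trL o1 o2 o3 h2 h3))
  rcases lt_or_gt_of_ne n_a_b.symm with c1|c1
  · rcases lt_or_gt_of_ne n_b_c.symm with c2|c2
    · rcases lt_or_gt_of_ne n_c_d.symm with c3|c3
      · rw [ccw_iff4 (a := l) (b := b) (c := a) (by omega) (by omega)] at h1
        rw [ccw_iff4 (a := l) (b := c) (c := b) (by omega) (by omega)] at h2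
        rw [ccw_iff4 (a := l) (b := d) (c := c) (by omega) (by omega)] at h3
        rw [ccw_iff5 (a := c) (b := b) (c := a) (by omega) (by omega)] at h4
        rw [ccw_iff5 (a := d) (b := c) (c := a) (by omega) (by omega)] at h5
        rw [ccw_iff5 (a := d) (b := b) (c := a) (by omega) (by omega)]
        have q0 := four (σ := σ) (a := l) (b := c) (c := b) (d := a) (by omega) (by omega) (by omega)
        have q1 := four (σ := σ) (a := l) (b := d) (c := b) (d := a) (by omega) (by omega) (by omega)
        have q2 := four (σ := σ) (a := l) (b := d) (c := c) (d := a) (by omega) (by omega) (by omega)
        have q3 := four (σ := σ) (a := l) (b := d) (c := c) (d := b) (by omega) (by omega) (by omega)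
        have q4 := four (σ := σ) (a := d) (b := c) (c := b) (d := a) (by omega) (by omega) (by omega)
        grind
      · rcases lt_or_gt_of_ne n_b_d.symm with c4|c4
        · rw [ccw_iff4 (a := l) (b := b) (c := a) (by omega) (by omega)] at h1
          rw [ccw_iff4 (a := l) (b := c) (c := b) (by omega) (by omega)] at h2
          rw [ccw_iff1 (a := l) (b := c) (c := d) (by omega) (by omega)] at h3
          rw [ccw_iff5 (a := c) (b := b) (c := a) (by omega) (by omega)] at h4
          rw [ccw_iff3 (a := c) (b := d) (c := a) (by omega) (by omega)] at h5
          rw [ccw_iff5 (a := d) (b := b) (c := a) (by omega) (by omega)]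
          have q0 := four (σ := σ) (a := l) (b := c) (c := b) (d := a) (by omega) (by omega) (by omega)
          have q1 := four (σ := σ) (a := l) (b := d) (c := b) (d := a) (by omega) (by omega) (by omega)
          have q2 := four (σ := σ) (a := l) (b := c) (c := d) (d := a) (by omega) (by omega) (by omega)
          have q3 := four (σ := σ) (a := l) (b := c) (c := d) (d := b) (by omega) (by omega) (by omega)
          have q4 := four (σ := σ) (a := c) (b := d) (c := b) (d := a) (by omega) (by omega) (by omega)
          grind
        · rcases lt_or_gt_of_ne n_a_d.symm with c5|c5
          · rw [ccw_iff4 (a := l) (b := b) (c := a) (by omega) (by omega)] at h1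
            rw [ccw_iff4 (a := l) (b := c) (c := b) (by omega) (by omega)] at h2
            rw [ccw_iff1 (a := l) (b := c) (c := d) (by omega) (by omega)] at h3
            rw [ccw_iff5 (a := c) (b := b) (c := a) (by omega) (by omega)] at h4
            rw [ccw_iff3 (a := c) (b := d) (c := a) (by omega) (by omega)] at h5
            rw [ccw_iff3 (a := b) (b := d) (c := a) (by omega) (by omega)]
            have q0 := four (σ := σ) (a := l) (b := c) (c := b) (d := a) (by omega) (by omega) (by omega)
            have q1 := four (σ := σ) (a := l) (b := b) (c := d) (d := a) (by omega) (by omega) (by omega)
            have q2 := four (σ := σ) (a := l) (b := c) (c := d) (d := a) (by omega) (by omega) (by omega)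
            have q3 := four (σ := σ) (a := l) (b := c) (c := b) (d := d) (by omega) (by omega) (by omega)
            have q4 := four (σ := σ) (a := c) (b := b) (c := d) (d := a) (by omega) (by omega) (by omega)
            grind
          · rw [ccw_iff4 (a := l) (b := b) (c := a) (by omega) (by omega)] at h1
            rw [ccw_iff4 (a := l) (b := c) (c := b) (by omega) (by omega)] at h2
            rw [ccw_iff1 (a := l) (b := c) (c := d) (by omega) (by omega)] at h3
            rw [ccw_iff5 (a := c) (b := b) (c := a) (by omega) (by omega)] at h4
            rw [ccw_iff6 (a := c) (b := a) (c := d) (by omega) (by omega)] at h5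
            rw [ccw_iff6 (a := b) (b := a) (c := d) (by omega) (by omega)]
            have q0 := four (σ := σ) (a := l) (b := c) (c := b) (d := a) (by omega) (by omega) (by omega)
            have q1 := four (σ := σ) (a := l) (b := b) (c := a) (d := d) (by omega) (by omega) (by omega)
            have q2 := four (σ := σ) (a := l) (b := c) (c := a) (d := d) (by omega) (by omega) (by omega)
            have q3 := four (σ := σ) (a := l) (b := c) (c := b) (d := d) (by omega) (by omega) (by omega)
            have q4 := four (σ := σ) (a := c) (b := b) (c := a) (d := d) (by omega) (by omega) (by omega)
            grind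
    · rcases lt_or_gt_of_ne n_a_c.symm with c6|c6
      · rcases lt_or_gt_of_ne n_b_d.symm with c7|c7
        · rw [ccw_iff4 (a := l) (b := b) (c := a) (by omega) (by omega)] at h1
          rw [ccw_iff1 (a := l) (b := b) (c := c) (by omega) (by omega)] at h2
          rw [ccw_iff4 (a := l) (b := d) (c := c) (by omega) (by omega)] at h3
          rw [ccw_iff3 (a := b) (b := c) (c := a) (by omega) (by omega)] at h4
          rw [ccw_iff5 (a := d) (b := c) (c := a) (by omega) (by omega)] at h5
          rw [ccw_iff5 (a := d) (b := b) (c := a) (by omega) (by omega)]
          have q0 := four (σ := σ) (a := l) (b := b) (c := c) (d := a) (by omega) (by omega) (by omega)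
          have q1 := four (σ := σ) (a := l) (b := d) (c := b) (d := a) (by omega) (by omega) (by omega)
          have q2 := four (σ := σ) (a := l) (b := d) (c := c) (d := a) (by omega) (by omega) (by omega)
          have q3 := four (σ := σ) (a := l) (b := d) (c := b) (d := c) (by omega) (by omega) (by omega)
          have q4 := four (σ := σ) (a := d) (b := b) (c := c) (d := a) (by omega) (by omega) (by omega)
          grind
        · rcases lt_or_gt_of_ne n_c_d.symm with c8|c8
          · rw [ccw_iff4 (a := l) (b := b) (c := a) (by omega) (by omega)] at h1
            rw [ccw_iff1 (a := l) (b := b) (c := c) (by omega) (by omega)] at h2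
            rw [ccw_iff4 (a := l) (b := d) (c := c) (by omega) (by omega)] at h3
            rw [ccw_iff3 (a := b) (b := c) (c := a) (by omega) (by omega)] at h4
            rw [ccw_iff5 (a := d) (b := c) (c := a) (by omega) (by omega)] at h5
            rw [ccw_iff3 (a := b) (b := d) (c := a) (by omega) (by omega)]
            have q0 := four (σ := σ) (a := l) (b := b) (c := c) (d := a) (by omega) (by omega) (by omega)
            have q1 := four (σ := σ) (a := l) (b := b) (c := d) (d := a) (by omega) (by omega) (by omega)
            have q2 := four (σ := σ) (a := l) (b := d) (c := c) (d := a) (by omega) (by omega) (by omega)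
            have q3 := four (σ := σ) (a := l) (b := b) (c := d) (d := c) (by omega) (by omega) (by omega)
            have q4 := four (σ := σ) (a := b) (b := d) (c := c) (d := a) (by omega) (by omega) (by omega)
            grind
          · rcases lt_or_gt_of_ne n_a_d.symm with c9|c9
            · rw [ccw_iff4 (a := l) (b := b) (c := a) (by omega) (by omega)] at h1
              rw [ccw_iff1 (a := l) (b := b) (c := c) (by omega) (by omega)] at h2
              rw [ccw_iff1 (a := l) (b := c) (c := d) (by omega) (by omega)] at h3
              rw [ccw_iff3 (a := b) (b := c) (c := a) (by omega) (by omega)] at h4
              rw [ccw_iff3 (a := c) (b := d) (c := a) (by omega) (by omega)] at h5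
              rw [ccw_iff3 (a := b) (b := d) (c := a) (by omega) (by omega)]
              have q0 := four (σ := σ) (a := l) (b := b) (c := c) (d := a) (by omega) (by omega) (by omega)
              have q1 := four (σ := σ) (a := l) (b := b) (c := d) (d := a) (by omega) (by omega) (by omega)
              have q2 := four (σ := σ) (a := l) (b := c) (c := d) (d := a) (by omega) (by omega) (by omega)
              have q3 := four (σ := σ) (a := l) (b := b) (c := c) (d := d) (by omega) (by omega) (by omega)
              have q4 := four (σ := σ) (a := b) (b := c) (c := d) (d := a) (by omega) (by omega) (by omega)
              grind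
            · rw [ccw_iff4 (a := l) (b := b) (c := a) (by omega) (by omega)] at h1
              rw [ccw_iff1 (a := l) (b := b) (c := c) (by omega) (by omega)] at h2
              rw [ccw_iff1 (a := l) (b := c) (c := d) (by omega) (by omega)] at h3
              rw [ccw_iff3 (a := b) (b := c) (c := a) (by omega) (by omega)] at h4
              rw [ccw_iff6 (a := c) (b := a) (c := d) (by omega) (by omega)] at h5
              rw [ccw_iff6 (a := b) (b := a) (c := d) (by omega) (by omega)]
              have q0 := four (σ := σ) (a := l) (b := b) (c := c) (d := a) (by omega) (by omega) (by omega)
              have q1 := four (σ := σ) (a := l) (b := b) (c := a) (d := d) (by omega) (by omega) (by omega)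
              have q2 := four (σ := σ) (a := l) (b := c) (c := a) (d := d) (by omega) (by omega) (by omega)
              have q3 := four (σ := σ) (a := l) (b := b) (c := c) (d := d) (by omega) (by omega) (by omega)
              have q4 := four (σ := σ) (a := b) (b := c) (c := a) (d := d) (by omega) (by omega) (by omega)
              grind
      · rcases lt_or_gt_of_ne n_b_d.symm with c10|c10
        · rw [ccw_iff4 (a := l) (b := b) (c := a) (by omega) (by omega)] at h1
          rw [ccw_iff1 (a := l) (b := b) (c := c) (by omega) (by omega)] at h2
          rw [ccw_iff4 (a := l) (b := d) (c := c) (by omega) (by omega)] at h3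
          rw [ccw_iff6 (a := b) (b := a) (c := c) (by omega) (by omega)] at h4
          rw [ccw_iff2 (a := d) (b := a) (c := c) (by omega) (by omega)] at h5
          rw [ccw_iff5 (a := d) (b := b) (c := a) (by omega) (by omega)]
          have q0 := four (σ := σ) (a := l) (b := b) (c := a) (d := c) (by omega) (by omega) (by omega)
          have q1 := four (σ := σ) (a := l) (b := d) (c := b) (d := a) (by omega) (by omega) (by omega)
          have q2 := four (σ := σ) (a := l) (b := d) (c := a) (d := c) (by omega) (by omega) (by omega)
          have q3 := four (σ := σ) (a := l) (b := d) (c := b) (d := c) (by omega) (by omega) (by omega)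
          have q4 := four (σ := σ) (a := d) (b := b) (c := a) (d := c) (by omega) (by omega) (by omega)
          grind
        · rcases lt_or_gt_of_ne n_a_d.symm with c11|c11
          · rw [ccw_iff4 (a := l) (b := b) (c := a) (by omega) (by omega)] at h1
            rw [ccw_iff1 (a := l) (b := b) (c := c) (by omega) (by omega)] at h2
            rw [ccw_iff4 (a := l) (b := d) (c := c) (by omega) (by omega)] at h3
            rw [ccw_iff6 (a := b) (b := a) (c := c) (by omega) (by omega)] at h4
            rw [ccw_iff2 (a := d) (b := a) (c := c) (by omega) (by omega)] at h5
            rw [ccw_iff3 (a := b) (b := d) (c := a) (by omega) (by omega)]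
            have q0 := four (σ := σ) (a := l) (b := b) (c := a) (d := c) (by omega) (by omega) (by omega)
            have q1 := four (σ := σ) (a := l) (b := b) (c := d) (d := a) (by omega) (by omega) (by omega)
            have q2 := four (σ := σ) (a := l) (b := d) (c := a) (d := c) (by omega) (by omega) (by omega)
            have q3 := four (σ := σ) (a := l) (b := b) (c := d) (d := c) (by omega) (by omega) (by omega)
            have q4 := four (σ := σ) (a := b) (b := d) (c := a) (d := c) (by omega) (by omega) (by omega)
            grind
          · rcases lt_or_gt_of_ne n_c_d.symm with c12|c12
            · rw [ccw_iff4 (a := l) (b := b) (c := a) (by omega) (by omega)] at h1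
              rw [ccw_iff1 (a := l) (b := b) (c := c) (by omega) (by omega)] at h2
              rw [ccw_iff4 (a := l) (b := d) (c := c) (by omega) (by omega)] at h3
              rw [ccw_iff6 (a := b) (b := a) (c := c) (by omega) (by omega)] at h4
              rw [ccw_iff4 (a := a) (b := d) (c := c) (by omega) (by omega)] at h5
              rw [ccw_iff6 (a := b) (b := a) (c := d) (by omega) (by omega)]
              have q0 := four (σ := σ) (a := l) (b := b) (c := a) (d := c) (by omega) (by omega) (by omega)
              have q1 := four (σ := σ) (a := l) (b := b) (c := a) (d := d) (by omega) (by omega) (by omega)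
              have q2 := four (σ := σ) (a := l) (b := a) (c := d) (d := c) (by omega) (by omega) (by omega)
              have q3 := four (σ := σ) (a := l) (b := b) (c := d) (d := c) (by omega) (by omega) (by omega)
              have q4 := four (σ := σ) (a := b) (b := a) (c := d) (d := c) (by omega) (by omega) (by omega)
              grind
            · rw [ccw_iff4 (a := l) (b := b) (c := a) (by omega) (by omega)] at h1
              rw [ccw_iff1 (a := l) (b := b) (c := c) (by omega) (by omega)] at h2
              rw [ccw_iff1 (a := l) (b := c) (c := d) (by omega) (by omega)] at h3
              rw [ccw_iff6 (a := b) (b := a) (c := c) (by omega) (by omega)] at h4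
              rw [ccw_iff1 (a := a) (b := c) (c := d) (by omega) (by omega)] at h5
              rw [ccw_iff6 (a := b) (b := a) (c := d) (by omega) (by omega)]
              have q0 := four (σ := σ) (a := l) (b := b) (c := a) (d := c) (by omega) (by omega) (by omega)
              have q1 := four (σ := σ) (a := l) (b := b) (c := a) (d := d) (by omega) (by omega) (by omega)
              have q2 := four (σ := σ) (a := l) (b := a) (c := c) (d := d) (by omega) (by omega) (by omega)
              have q3 := four (σ := σ) (a := l) (b := b) (c := c) (d := d) (by omega) (by omega) (by omega)
              have q4 := four (σ := σ) (a := b) (b := a) (c := c) (d := d) (by omega) (by omega) (by omega)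
              grind
  · rcases lt_or_gt_of_ne n_a_c.symm with c13|c13
    · rcases lt_or_gt_of_ne n_c_d.symm with c14|c14
      · rw [ccw_iff1 (a := l) (b := a) (c := b) (by omega) (by omega)] at h1
        rw [ccw_iff4 (a := l) (b := c) (c := b) (by omega) (by omega)] at h2
        rw [ccw_iff4 (a := l) (b := d) (c := c) (by omega) (by omega)] at h3
        rw [ccw_iff2 (a := c) (b := a) (c := b) (by omega) (by omega)] at h4
        rw [ccw_iff5 (a := d) (b := c) (c := a) (by omega) (by omega)] at h5
        rw [ccw_iff2 (a := d) (b := a) (c := b) (by omega) (by omega)]
        have q0 := four (σ := σ) (a := l) (b := c) (c := a) (d := b) (by omega) (by omega) (by omega)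
        have q1 := four (σ := σ) (a := l) (b := d) (c := a) (d := b) (by omega) (by omega) (by omega)
        have q2 := four (σ := σ) (a := l) (b := d) (c := c) (d := a) (by omega) (by omega) (by omega)
        have q3 := four (σ := σ) (a := l) (b := d) (c := c) (d := b) (by omega) (by omega) (by omega)
        have q4 := four (σ := σ) (a := d) (b := c) (c := a) (d := b) (by omega) (by omega) (by omega)
        grind
      · rcases lt_or_gt_of_ne n_a_d.symm with c15|c15
        · rw [ccw_iff1 (a := l) (b := a) (c := b) (by omega) (by omega)] at h1
          rw [ccw_iff4 (a := l) (b := c) (c := b) (by omega) (by omega)] at h2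
          rw [ccw_iff1 (a := l) (b := c) (c := d) (by omega) (by omega)] at h3
          rw [ccw_iff2 (a := c) (b := a) (c := b) (by omega) (by omega)] at h4
          rw [ccw_iff3 (a := c) (b := d) (c := a) (by omega) (by omega)] at h5
          rw [ccw_iff2 (a := d) (b := a) (c := b) (by omega) (by omega)]
          have q0 := four (σ := σ) (a := l) (b := c) (c := a) (d := b) (by omega) (by omega) (by omega)
          have q1 := four (σ := σ) (a := l) (b := d) (c := a) (d := b) (by omega) (by omega) (by omega)
          have q2 := four (σ := σ) (a := l) (b := c) (c := d) (d := a) (by omega) (by omega) (by omega)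
          have q3 := four (σ := σ) (a := l) (b := c) (c := d) (d := b) (by omega) (by omega) (by omega)
          have q4 := four (σ := σ) (a := c) (b := d) (c := a) (d := b) (by omega) (by omega) (by omega)
          grind
        · rcases lt_or_gt_of_ne n_b_d.symm with c16|c16
          · rw [ccw_iff1 (a := l) (b := a) (c := b) (by omega) (by omega)] at h1
            rw [ccw_iff4 (a := l) (b := c) (c := b) (by omega) (by omega)] at h2
            rw [ccw_iff1 (a := l) (b := c) (c := d) (by omega) (by omega)] at h3
            rw [ccw_iff2 (a := c) (b := a) (c := b) (by omega) (by omega)] at h4
            rw [ccw_iff6 (a := c) (b := a) (c := d) (by omega) (by omega)] at h5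
            rw [ccw_iff4 (a := a) (b := d) (c := b) (by omega) (by omega)]
            have q0 := four (σ := σ) (a := l) (b := c) (c := a) (d := b) (by omega) (by omega) (by omega)
            have q1 := four (σ := σ) (a := l) (b := a) (c := d) (d := b) (by omega) (by omega) (by omega)
            have q2 := four (σ := σ) (a := l) (b := c) (c := a) (d := d) (by omega) (by omega) (by omega)
            have q3 := four (σ := σ) (a := l) (b := c) (c := d) (d := b) (by omega) (by omega) (by omega)
            have q4 := four (σ := σ) (a := c) (b := a) (c := d) (d := b) (by omega) (by omega) (by omega)
            grind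
          · rw [ccw_iff1 (a := l) (b := a) (c := b) (by omega) (by omega)] at h1
            rw [ccw_iff4 (a := l) (b := c) (c := b) (by omega) (by omega)] at h2
            rw [ccw_iff1 (a := l) (b := c) (c := d) (by omega) (by omega)] at h3
            rw [ccw_iff2 (a := c) (b := a) (c := b) (by omega) (by omega)] at h4
            rw [ccw_iff6 (a := c) (b := a) (c := d) (by omega) (by omega)] at h5
            rw [ccw_iff1 (a := a) (b := b) (c := d) (by omega) (by omega)]
            have q0 := four (σ := σ) (a := l) (b := c) (c := a) (d := b) (by omega) (by omega) (by omega)
            have q1 := four (σ := σ) (a := l) (b := a) (c := b) (d := d) (by omega) (by omega) (by omega)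
            have q2 := four (σ := σ) (a := l) (b := c) (c := a) (d := d) (by omega) (by omega) (by omega)
            have q3 := four (σ := σ) (a := l) (b := c) (c := b) (d := d) (by omega) (by omega) (by omega)
            have q4 := four (σ := σ) (a := c) (b := a) (c := b) (d := d) (by omega) (by omega) (by omega)
            grind
    · rcases lt_or_gt_of_ne n_b_c.symm with c17|c17
      · rcases lt_or_gt_of_ne n_a_d.symm with c18|c18
        · rw [ccw_iff1 (a := l) (b := a) (c := b) (by omega) (by omega)] at h1
          rw [ccw_iff4 (a := l) (b := c) (c := b) (by omega) (by omega)] at h2
          rw [ccw_iff4 (a := l) (b := d) (c := c) (by omega) (by omega)] at h3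
          rw [ccw_iff4 (a := a) (b := c) (c := b) (by omega) (by omega)] at h4
          rw [ccw_iff2 (a := d) (b := a) (c := c) (by omega) (by omega)] at h5
          rw [ccw_iff2 (a := d) (b := a) (c := b) (by omega) (by omega)]
          have q0 := four (σ := σ) (a := l) (b := a) (c := c) (d := b) (by omega) (by omega) (by omega)
          have q1 := four (σ := σ) (a := l) (b := d) (c := a) (d := b) (by omega) (by omega) (by omega)
          have q2 := four (σ := σ) (a := l) (b := d) (c := a) (d := c) (by omega) (by omega) (by omega)
          have q3 := four (σ := σ) (a := l) (b := d) (c := c) (d := b) (by omega) (by omega) (by omega)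
          have q4 := four (σ := σ) (a := d) (b := a) (c := c) (d := b) (by omega) (by omega) (by omega)
          grind
        · rcases lt_or_gt_of_ne n_c_d.symm with c19|c19
          · rw [ccw_iff1 (a := l) (b := a) (c := b) (by omega) (by omega)] at h1
            rw [ccw_iff4 (a := l) (b := c) (c := b) (by omega) (by omega)] at h2
            rw [ccw_iff4 (a := l) (b := d) (c := c) (by omega) (by omega)] at h3
            rw [ccw_iff4 (a := a) (b := c) (c := b) (by omega) (by omega)] at h4
            rw [ccw_iff4 (a := a) (b := d) (c := c) (by omega) (by omega)] at h5
            rw [ccw_iff4 (a := a) (b := d) (c := b) (by omega) (by omega)]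
            have q0 := four (σ := σ) (a := l) (b := a) (c := c) (d := b) (by omega) (by omega) (by omega)
            have q1 := four (σ := σ) (a := l) (b := a) (c := d) (d := b) (by omega) (by omega) (by omega)
            have q2 := four (σ := σ) (a := l) (b := a) (c := d) (d := c) (by omega) (by omega) (by omega)
            have q3 := four (σ := σ) (a := l) (b := d) (c := c) (d := b) (by omega) (by omega) (by omega)
            have q4 := four (σ := σ) (a := a) (b := d) (c := c) (d := b) (by omega) (by omega) (by omega)
            grind
          · rcases lt_or_gt_of_ne n_b_d.symm with c20|c20
            · rw [ccw_iff1 (a := l) (b := a) (c := b) (by omega) (by omega)] at h1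
              rw [ccw_iff4 (a := l) (b := c) (c := b) (by omega) (by omega)] at h2
              rw [ccw_iff1 (a := l) (b := c) (c := d) (by omega) (by omega)] at h3
              rw [ccw_iff4 (a := a) (b := c) (c := b) (by omega) (by omega)] at h4
              rw [ccw_iff1 (a := a) (b := c) (c := d) (by omega) (by omega)] at h5
              rw [ccw_iff4 (a := a) (b := d) (c := b) (by omega) (by omega)]
              have q0 := four (σ := σ) (a := l) (b := a) (c := c) (d := b) (by omega) (by omega) (by omega)
              have q1 := four (σ := σ) (a := l) (b := a) (c := d) (d := b) (by omega) (by omega) (by omega)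
              have q2 := four (σ := σ) (a := l) (b := a) (c := c) (d := d) (by omega) (by omega) (by omega)
              have q3 := four (σ := σ) (a := l) (b := c) (c := d) (d := b) (by omega) (by omega) (by omega)
              have q4 := four (σ := σ) (a := a) (b := c) (c := d) (d := b) (by omega) (by omega) (by omega)
              grind
            · rw [ccw_iff1 (a := l) (b := a) (c := b) (by omega) (by omega)] at h1
              rw [ccw_iff4 (a := l) (b := c) (c := b) (by omega) (by omega)] at h2
              rw [ccw_iff1 (a := l) (b := c) (c := d) (by omega) (by omega)] at h3
              rw [ccw_iff4 (a := a) (b := c) (c := b) (by omega) (by omega)] at h4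
              rw [ccw_iff1 (a := a) (b := c) (c := d) (by omega) (by omega)] at h5
              rw [ccw_iff1 (a := a) (b := b) (c := d) (by omega) (by omega)]
              have q0 := four (σ := σ) (a := l) (b := a) (c := c) (d := b) (by omega) (by omega) (by omega)
              have q1 := four (σ := σ) (a := l) (b := a) (c := b) (d := d) (by omega) (by omega) (by omega)
              have q2 := four (σ := σ) (a := l) (b := a) (c := c) (d := d) (by omega) (by omega) (by omega)
              have q3 := four (σ := σ) (a := l) (b := c) (c := b) (d := d) (by omega) (by omega) (by omega)
              have q4 := four (σ := σ) (a := a) (b := c) (c := b) (d := d) (by omega) (by omega) (by omega)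
              grind
      · rcases lt_or_gt_of_ne n_a_d.symm with c21|c21
        · rw [ccw_iff1 (a := l) (b := a) (c := b) (by omega) (by omega)] at h1
          rw [ccw_iff1 (a := l) (b := b) (c := c) (by omega) (by omega)] at h2
          rw [ccw_iff4 (a := l) (b := d) (c := c) (by omega) (by omega)] at h3
          rw [ccw_iff1 (a := a) (b := b) (c := c) (by omega) (by omega)] at h4
          rw [ccw_iff2 (a := d) (b := a) (c := c) (by omega) (by omega)] at h5
          rw [ccw_iff2 (a := d) (b := a) (c := b) (by omega) (by omega)]
          have q0 := four (σ := σ) (a := l) (b := a) (c := b) (d := c) (by omega) (by omega) (by omega)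
          have q1 := four (σ := σ) (a := l) (b := d) (c := a) (d := b) (by omega) (by omega) (by omega)
          have q2 := four (σ := σ) (a := l) (b := d) (c := a) (d := c) (by omega) (by omega) (by omega)
          have q3 := four (σ := σ) (a := l) (b := d) (c := b) (d := c) (by omega) (by omega) (by omega)
          have q4 := four (σ := σ) (a := d) (b := a) (c := b) (d := c) (by omega) (by omega) (by omega)
          grind
        · rcases lt_or_gt_of_ne n_b_d.symm with c22|c22
          · rw [ccw_iff1 (a := l) (b := a) (c := b) (by omega) (by omega)] at h1
            rw [ccw_iff1 (a := l) (b := b) (c := c) (by omega) (by omega)] at h2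
            rw [ccw_iff4 (a := l) (b := d) (c := c) (by omega) (by omega)] at h3
            rw [ccw_iff1 (a := a) (b := b) (c := c) (by omega) (by omega)] at h4
            rw [ccw_iff4 (a := a) (b := d) (c := c) (by omega) (by omega)] at h5
            rw [ccw_iff4 (a := a) (b := d) (c := b) (by omega) (by omega)]
            have q0 := four (σ := σ) (a := l) (b := a) (c := b) (d := c) (by omega) (by omega) (by omega)
            have q1 := four (σ := σ) (a := l) (b := a) (c := d) (d := b) (by omega) (by omega) (by omega)
            have q2 := four (σ := σ) (a := l) (b := a) (c := d) (d := c) (by omega) (by omega) (by omega)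
            have q3 := four (σ := σ) (a := l) (b := d) (c := b) (d := c) (by omega) (by omega) (by omega)
            have q4 := four (σ := σ) (a := a) (b := d) (c := b) (d := c) (by omega) (by omega) (by omega)
            grind
          · rcases lt_or_gt_of_ne n_c_d.symm with c23|c23
            · rw [ccw_iff1 (a := l) (b := a) (c := b) (by omega) (by omega)] at h1
              rw [ccw_iff1 (a := l) (b := b) (c := c) (by omega) (by omega)] at h2
              rw [ccw_iff4 (a := l) (b := d) (c := c) (by omega) (by omega)] at h3
              rw [ccw_iff1 (a := a) (b := b) (c := c) (by omega) (by omega)] at h4
              rw [ccw_iff4 (a := a) (b := d) (c := c) (by omega) (by omega)] at h5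
              rw [ccw_iff1 (a := a) (b := b) (c := d) (by omega) (by omega)]
              have q0 := four (σ := σ) (a := l) (b := a) (c := b) (d := c) (by omega) (by omega) (by omega)
              have q1 := four (σ := σ) (a := l) (b := a) (c := b) (d := d) (by omega) (by omega) (by omega)
              have q2 := four (σ := σ) (a := l) (b := a) (c := d) (d := c) (by omega) (by omega) (by omega)
              have q3 := four (σ := σ) (a := l) (b := b) (c := d) (d := c) (by omega) (by omega) (by omega)
              have q4 := four (σ := σ) (a := a) (b := b) (c := d) (d := c) (by omega) (by omega) (by omega)
              grind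
            · rw [ccw_iff1 (a := l) (b := a) (c := b) (by omega) (by omega)] at h1
              rw [ccw_iff1 (a := l) (b := b) (c := c) (by omega) (by omega)] at h2
              rw [ccw_iff1 (a := l) (b := c) (c := d) (by omega) (by omega)] at h3
              rw [ccw_iff1 (a := a) (b := b) (c := c) (by omega) (by omega)] at h4
              rw [ccw_iff1 (a := a) (b := c) (c := d) (by omega) (by omega)] at h5
              rw [ccw_iff1 (a := a) (b := b) (c := d) (by omega) (by omega)]
              have q0 := four (σ := σ) (a := l) (b := a) (c := b) (d := c) (by omega) (by omega) (by omega)
              have q1 := four (σ := σ) (a := l) (b := a) (c := b) (d := d) (by omega) (by omega) (by omega)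
              have q2 := four (σ := σ) (a := l) (b := a) (c := c) (d := d) (by omega) (by omega) (by omega)
              have q3 := four (σ := σ) (a := l) (b := b) (c := c) (d := d) (by omega) (by omega) (by omega)
              have q4 := four (σ := σ) (a := a) (b := b) (c := c) (d := d) (by omega) (by omega) (by omega)
              grind

/-- b far from ad, c far from bd imply c far from ad. -/
theorem F24 {l a b c d : ℤ} (o0 : l < a) (o1 : l < b) (o2 : l < c) (o3 : l < d) (h1 : σ.ccw l a b) (h2 : σ.ccw l b c) (h3 : σ.ccw l c d) (h4 : σ.ccw a b d) (h5 : σ.ccw b c d) : σ.ccw a c d := by
  have n_l_a := ne12 h1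
  have n_a_b := ne23 h1
  have n_l_b := ne13 h1
  have n_b_c := ne23 h2
  have n_l_c := ne13 h2
  have n_c_d := ne23 h3
  have n_l_d := ne13 h3
  have n_b_d := ne23 h4
  have n_a_d := ne13 h4
  have n_a_c : a ≠ c := ne23 (trL o0 o1 o2 h1 h2)
  have n_b_d : b ≠ d := ne23 (trL o1 o2 o3 h2 h3)
  have n_a_d : a ≠ d := ne23 (trL o0 o1 o3 h1 (trL o1 o2 o3 h2 h3))
  rcases lt_or_gt_of_ne n_a_b.symm with c1|c1
  · rcases lt_or_gt_of_ne n_b_c.symm with c2|c2
    · rcases lt_or_gt_of_ne n_c_d.symm with c3|c3
      · rw [ccw_iff4 (a := l) (b := b) (c := a) (by omega) (by omega)] at h1
        rw [ccw_iff4 (a := l) (b := c) (c := b) (by omega) (by omega)] at h2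
        rw [ccw_iff4 (a := l) (b := d) (c := c) (by omega) (by omega)] at h3
        rw [ccw_iff5 (a := d) (b := b) (c := a) (by omega) (by omega)] at h4
        rw [ccw_iff5 (a := d) (b := c) (c := b) (by omega) (by omega)] at h5
        rw [ccw_iff5 (a := d) (b := c) (c := a) (by omega) (by omega)]
        have q0 := four (σ := σ) (a := l) (b := c) (c := b) (d := a) (by omega) (by omega) (by omega)
        have q1 := four (σ := σ) (a := l) (b := d) (c := b) (d := a) (by omega) (by omega) (by omega)
        have q2 := four (σ := σ) (a := l) (b := d) (c := c) (d := a) (by omega) (by omega) (by omega)
        have q3 := four (σ := σ) (a := l) (b := d) (c := c) (d := b) (by omega) (by omega) (by omega)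
        have q4 := four (σ := σ) (a := d) (b := c) (c := b) (d := a) (by omega) (by omega) (by omega)
        grind
      · rcases lt_or_gt_of_ne n_b_d.symm with c4|c4
        · rw [ccw_iff4 (a := l) (b := b) (c := a) (by omega) (by omega)] at h1
          rw [ccw_iff4 (a := l) (b := c) (c := b) (by omega) (by omega)] at h2
          rw [ccw_iff1 (a := l) (b := c) (c := d) (by omega) (by omega)] at h3
          rw [ccw_iff5 (a := d) (b := b) (c := a) (by omega) (by omega)] at h4
          rw [ccw_iff3 (a := c) (b := d) (c := b) (by omega) (by omega)] at h5
          rw [ccw_iff3 (a := c) (b := d) (c := a) (by omega) (by omega)]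
          have q0 := four (σ := σ) (a := l) (b := c) (c := b) (d := a) (by omega) (by omega) (by omega)
          have q1 := four (σ := σ) (a := l) (b := d) (c := b) (d := a) (by omega) (by omega) (by omega)
          have q2 := four (σ := σ) (a := l) (b := c) (c := d) (d := a) (by omega) (by omega) (by omega)
          have q3 := four (σ := σ) (a := l) (b := c) (c := d) (d := b) (by omega) (by omega) (by omega)
          have q4 := four (σ := σ) (a := c) (b := d) (c := b) (d := a) (by omega) (by omega) (by omega)
          grind
        · rcases lt_or_gt_of_ne n_a_d.symm with c5|c5
          · rw [ccw_iff4 (a := l) (b := b) (c := a) (by omega) (by omega)] at h1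
            rw [ccw_iff4 (a := l) (b := c) (c := b) (by omega) (by omega)] at h2
            rw [ccw_iff1 (a := l) (b := c) (c := d) (by omega) (by omega)] at h3
            rw [ccw_iff3 (a := b) (b := d) (c := a) (by omega) (by omega)] at h4
            rw [ccw_iff6 (a := c) (b := b) (c := d) (by omega) (by omega)] at h5
            rw [ccw_iff3 (a := c) (b := d) (c := a) (by omega) (by omega)]
            have q0 := four (σ := σ) (a := l) (b := c) (c := b) (d := a) (by omega) (by omega) (by omega)
            have q1 := four (σ := σ) (a := l) (b := b) (c := d) (d := a) (by omega) (by omega) (by omega)
            have q2 := four (σ := σ) (a := l) (b := c) (c := d) (d := a) (by omega) (by omega) (by omega)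
            have q3 := four (σ := σ) (a := l) (b := c) (c := b) (d := d) (by omega) (by omega) (by omega)
            have q4 := four (σ := σ) (a := c) (b := b) (c := d) (d := a) (by omega) (by omega) (by omega)
            grind
          · rw [ccw_iff4 (a := l) (b := b) (c := a) (by omega) (by omega)] at h1
            rw [ccw_iff4 (a := l) (b := c) (c := b) (by omega) (by omega)] at h2
            rw [ccw_iff1 (a := l) (b := c) (c := d) (by omega) (by omega)] at h3
            rw [ccw_iff6 (a := b) (b := a) (c := d) (by omega) (by omega)] at h4
            rw [ccw_iff6 (a := c) (b := b) (c := d) (by omega) (by omega)] at h5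
            rw [ccw_iff6 (a := c) (b := a) (c := d) (by omega) (by omega)]
            have q0 := four (σ := σ) (a := l) (b := c) (c := b) (d := a) (by omega) (by omega) (by omega)
            have q1 := four (σ := σ) (a := l) (b := b) (c := a) (d := d) (by omega) (by omega) (by omega)
            have q2 := four (σ := σ) (a := l) (b := c) (c := a) (d := d) (by omega) (by omega) (by omega)
            have q3 := four (σ := σ) (a := l) (b := c) (c := b) (d := d) (by omega) (by omega) (by omega)
            have q4 := four (σ := σ) (a := c) (b := b) (c := a) (d := d) (by omega) (by omega) (by omega)
            grind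
    · rcases lt_or_gt_of_ne n_a_c.symm with c6|c6
      · rcases lt_or_gt_of_ne n_b_d.symm with c7|c7
        · rw [ccw_iff4 (a := l) (b := b) (c := a) (by omega) (by omega)] at h1
          rw [ccw_iff1 (a := l) (b := b) (c := c) (by omega) (by omega)] at h2
          rw [ccw_iff4 (a := l) (b := d) (c := c) (by omega) (by omega)] at h3
          rw [ccw_iff5 (a := d) (b := b) (c := a) (by omega) (by omega)] at h4
          rw [ccw_iff2 (a := d) (b := b) (c := c) (by omega) (by omega)] at h5
          rw [ccw_iff5 (a := d) (b := c) (c := a) (by omega) (by omega)]
          have q0 := four (σ := σ) (a := l) (b := b) (c := c) (d := a) (by omega) (by omega) (by omega)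
          have q1 := four (σ := σ) (a := l) (b := d) (c := b) (d := a) (by omega) (by omega) (by omega)
          have q2 := four (σ := σ) (a := l) (b := d) (c := c) (d := a) (by omega) (by omega) (by omega)
          have q3 := four (σ := σ) (a := l) (b := d) (c := b) (d := c) (by omega) (by omega) (by omega)
          have q4 := four (σ := σ) (a := d) (b := b) (c := c) (d := a) (by omega) (by omega) (by omega)
          grind
        · rcases lt_or_gt_of_ne n_c_d.symm with c8|c8
          · rw [ccw_iff4 (a := l) (b := b) (c := a) (by omega) (by omega)] at h1
            rw [ccw_iff1 (a := l) (b := b) (c := c) (by omega) (by omega)] at h2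
            rw [ccw_iff4 (a := l) (b := d) (c := c) (by omega) (by omega)] at h3
            rw [ccw_iff3 (a := b) (b := d) (c := a) (by omega) (by omega)] at h4
            rw [ccw_iff4 (a := b) (b := d) (c := c) (by omega) (by omega)] at h5
            rw [ccw_iff5 (a := d) (b := c) (c := a) (by omega) (by omega)]
            have q0 := four (σ := σ) (a := l) (b := b) (c := c) (d := a) (by omega) (by omega) (by omega)
            have q1 := four (σ := σ) (a := l) (b := b) (c := d) (d := a) (by omega) (by omega) (by omega)
            have q2 := four (σ := σ) (a := l) (b := d) (c := c) (d := a) (by omega) (by omega) (by omega)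
            have q3 := four (σ := σ) (a := l) (b := b) (c := d) (d := c) (by omega) (by omega) (by omega)
            have q4 := four (σ := σ) (a := b) (b := d) (c := c) (d := a) (by omega) (by omega) (by omega)
            grind
          · rcases lt_or_gt_of_ne n_a_d.symm with c9|c9
            · rw [ccw_iff4 (a := l) (b := b) (c := a) (by omega) (by omega)] at h1
              rw [ccw_iff1 (a := l) (b := b) (c := c) (by omega) (by omega)] at h2
              rw [ccw_iff1 (a := l) (b := c) (c := d) (by omega) (by omega)] at h3
              rw [ccw_iff3 (a := b) (b := d) (c := a) (by omega) (by omega)] at h4
              rw [ccw_iff1 (a := b) (b := c) (c := d) (by omega) (by omega)] at h5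
              rw [ccw_iff3 (a := c) (b := d) (c := a) (by omega) (by omega)]
              have q0 := four (σ := σ) (a := l) (b := b) (c := c) (d := a) (by omega) (by omega) (by omega)
              have q1 := four (σ := σ) (a := l) (b := b) (c := d) (d := a) (by omega) (by omega) (by omega)
              have q2 := four (σ := σ) (a := l) (b := c) (c := d) (d := a) (by omega) (by omega) (by omega)
              have q3 := four (σ := σ) (a := l) (b := b) (c := c) (d := d) (by omega) (by omega) (by omega)
              have q4 := four (σ := σ) (a := b) (b := c) (c := d) (d := a) (by omega) (by omega) (by omega)
              grind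
            · rw [ccw_iff4 (a := l) (b := b) (c := a) (by omega) (by omega)] at h1
              rw [ccw_iff1 (a := l) (b := b) (c := c) (by omega) (by omega)] at h2
              rw [ccw_iff1 (a := l) (b := c) (c := d) (by omega) (by omega)] at h3
              rw [ccw_iff6 (a := b) (b := a) (c := d) (by omega) (by omega)] at h4
              rw [ccw_iff1 (a := b) (b := c) (c := d) (by omega) (by omega)] at h5
              rw [ccw_iff6 (a := c) (b := a) (c := d) (by omega) (by omega)]
              have q0 := four (σ := σ) (a := l) (b := b) (c := c) (d := a) (by omega) (by omega) (by omega)
              have q1 := four (σ := σ) (a := l) (b := b) (c := a) (d := d) (by omega) (by omega) (by omega)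
              have q2 := four (σ := σ) (a := l) (b := c) (c := a) (d := d) (by omega) (by omega) (by omega)
              have q3 := four (σ := σ) (a := l) (b := b) (c := c) (d := d) (by omega) (by omega) (by omega)
              have q4 := four (σ := σ) (a := b) (b := c) (c := a) (d := d) (by omega) (by omega) (by omega)
              grind
      · rcases lt_or_gt_of_ne n_b_d.symm with c10|c10
        · rw [ccw_iff4 (a := l) (b := b) (c := a) (by omega) (by omega)] at h1
          rw [ccw_iff1 (a := l) (b := b) (c := c) (by omega) (by omega)] at h2
          rw [ccw_iff4 (a := l) (b := d) (c := c) (by omega) (by omega)] at h3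
          rw [ccw_iff5 (a := d) (b := b) (c := a) (by omega) (by omega)] at h4
          rw [ccw_iff2 (a := d) (b := b) (c := c) (by omega) (by omega)] at h5
          rw [ccw_iff2 (a := d) (b := a) (c := c) (by omega) (by omega)]
          have q0 := four (σ := σ) (a := l) (b := b) (c := a) (d := c) (by omega) (by omega) (by omega)
          have q1 := four (σ := σ) (a := l) (b := d) (c := b) (d := a) (by omega) (by omega) (by omega)
          have q2 := four (σ := σ) (a := l) (b := d) (c := a) (d := c) (by omega) (by omega) (by omega)
          have q3 := four (σ := σ) (a := l) (b := d) (c := b) (d := c) (by omega) (by omega) (by omega)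
          have q4 := four (σ := σ) (a := d) (b := b) (c := a) (d := c) (by omega) (by omega) (by omega)
          grind
        · rcases lt_or_gt_of_ne n_a_d.symm with c11|c11
          · rw [ccw_iff4 (a := l) (b := b) (c := a) (by omega) (by omega)] at h1
            rw [ccw_iff1 (a := l) (b := b) (c := c) (by omega) (by omega)] at h2
            rw [ccw_iff4 (a := l) (b := d) (c := c) (by omega) (by omega)] at h3
            rw [ccw_iff3 (a := b) (b := d) (c := a) (by omega) (by omega)] at h4
            rw [ccw_iff4 (a := b) (b := d) (c := c) (by omega) (by omega)] at h5
            rw [ccw_iff2 (a := d) (b := a) (c := c) (by omega) (by omega)]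
            have q0 := four (σ := σ) (a := l) (b := b) (c := a) (d := c) (by omega) (by omega) (by omega)
            have q1 := four (σ := σ) (a := l) (b := b) (c := d) (d := a) (by omega) (by omega) (by omega)
            have q2 := four (σ := σ) (a := l) (b := d) (c := a) (d := c) (by omega) (by omega) (by omega)
            have q3 := four (σ := σ) (a := l) (b := b) (c := d) (d := c) (by omega) (by omega) (by omega)
            have q4 := four (σ := σ) (a := b) (b := d) (c := a) (d := c) (by omega) (by omega) (by omega)
            grind
          · rcases lt_or_gt_of_ne n_c_d.symm with c12|c12
            · rw [ccw_iff4 (a := l) (b := b) (c := a) (by omega) (by omega)] at h1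
              rw [ccw_iff1 (a := l) (b := b) (c := c) (by omega) (by omega)] at h2
              rw [ccw_iff4 (a := l) (b := d) (c := c) (by omega) (by omega)] at h3
              rw [ccw_iff6 (a := b) (b := a) (c := d) (by omega) (by omega)] at h4
              rw [ccw_iff4 (a := b) (b := d) (c := c) (by omega) (by omega)] at h5
              rw [ccw_iff4 (a := a) (b := d) (c := c) (by omega) (by omega)]
              have q0 := four (σ := σ) (a := l) (b := b) (c := a) (d := c) (by omega) (by omega) (by omega)
              have q1 := four (σ := σ) (a := l) (b := b) (c := a) (d := d) (by omega) (by omega) (by omega)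
              have q2 := four (σ := σ) (a := l) (b := a) (c := d) (d := c) (by omega) (by omega) (by omega)
              have q3 := four (σ := σ) (a := l) (b := b) (c := d) (d := c) (by omega) (by omega) (by omega)
              have q4 := four (σ := σ) (a := b) (b := a) (c := d) (d := c) (by omega) (by omega) (by omega)
              grind
            · rw [ccw_iff4 (a := l) (b := b) (c := a) (by omega) (by omega)] at h1
              rw [ccw_iff1 (a := l) (b := b) (c := c) (by omega) (by omega)] at h2
              rw [ccw_iff1 (a := l) (b := c) (c := d) (by omega) (by omega)] at h3
              rw [ccw_iff6 (a := b) (b := a) (c := d) (by omega) (by omega)] at h4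
              rw [ccw_iff1 (a := b) (b := c) (c := d) (by omega) (by omega)] at h5
              rw [ccw_iff1 (a := a) (b := c) (c := d) (by omega) (by omega)]
              have q0 := four (σ := σ) (a := l) (b := b) (c := a) (d := c) (by omega) (by omega) (by omega)
              have q1 := four (σ := σ) (a := l) (b := b) (c := a) (d := d) (by omega) (by omega) (by omega)
              have q2 := four (σ := σ) (a := l) (b := a) (c := c) (d := d) (by omega) (by omega) (by omega)
              have q3 := four (σ := σ) (a := l) (b := b) (c := c) (d := d) (by omega) (by omega) (by omega)
              have q4 := four (σ := σ) (a := b) (b := a) (c := c) (d := d) (by omega) (by omega) (by omega)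
              grind
  · rcases lt_or_gt_of_ne n_a_c.symm with c13|c13
    · rcases lt_or_gt_of_ne n_c_d.symm with c14|c14
      · rw [ccw_iff1 (a := l) (b := a) (c := b) (by omega) (by omega)] at h1
        rw [ccw_iff4 (a := l) (b := c) (c := b) (by omega) (by omega)] at h2
        rw [ccw_iff4 (a := l) (b := d) (c := c) (by omega) (by omega)] at h3
        rw [ccw_iff2 (a := d) (b := a) (c := b) (by omega) (by omega)] at h4
        rw [ccw_iff5 (a := d) (b := c) (c := b) (by omega) (by omega)] at h5
        rw [ccw_iff5 (a := d) (b := c) (c := a) (by omega) (by omega)]
        have q0 := four (σ := σ) (a := l) (b := c) (c := a) (d := b) (by omega) (by omega) (by omega)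
        have q1 := four (σ := σ) (a := l) (b := d) (c := a) (d := b) (by omega) (by omega) (by omega)
        have q2 := four (σ := σ) (a := l) (b := d) (c := c) (d := a) (by omega) (by omega) (by omega)
        have q3 := four (σ := σ) (a := l) (b := d) (c := c) (d := b) (by omega) (by omega) (by omega)
        have q4 := four (σ := σ) (a := d) (b := c) (c := a) (d := b) (by omega) (by omega) (by omega)
        grind
      · rcases lt_or_gt_of_ne n_a_d.symm with c15|c15
        · rw [ccw_iff1 (a := l) (b := a) (c := b) (by omega) (by omega)] at h1
          rw [ccw_iff4 (a := l) (b := c) (c := b) (by omega) (by omega)] at h2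
          rw [ccw_iff1 (a := l) (b := c) (c := d) (by omega) (by omega)] at h3
          rw [ccw_iff2 (a := d) (b := a) (c := b) (by omega) (by omega)] at h4
          rw [ccw_iff3 (a := c) (b := d) (c := b) (by omega) (by omega)] at h5
          rw [ccw_iff3 (a := c) (b := d) (c := a) (by omega) (by omega)]
          have q0 := four (σ := σ) (a := l) (b := c) (c := a) (d := b) (by omega) (by omega) (by omega)
          have q1 := four (σ := σ) (a := l) (b := d) (c := a) (d := b) (by omega) (by omega) (by omega)
          have q2 := four (σ := σ) (a := l) (b := c) (c := d) (d := a) (by omega) (by omega) (by omega)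
          have q3 := four (σ := σ) (a := l) (b := c) (c := d) (d := b) (by omega) (by omega) (by omega)
          have q4 := four (σ := σ) (a := c) (b := d) (c := a) (d := b) (by omega) (by omega) (by omega)
          grind
        · rcases lt_or_gt_of_ne n_b_d.symm with c16|c16
          · rw [ccw_iff1 (a := l) (b := a) (c := b) (by omega) (by omega)] at h1
            rw [ccw_iff4 (a := l) (b := c) (c := b) (by omega) (by omega)] at h2
            rw [ccw_iff1 (a := l) (b := c) (c := d) (by omega) (by omega)] at h3
            rw [ccw_iff4 (a := a) (b := d) (c := b) (by omega) (by omega)] at h4
            rw [ccw_iff3 (a := c) (b := d) (c := b) (by omega) (by omega)] at h5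
            rw [ccw_iff6 (a := c) (b := a) (c := d) (by omega) (by omega)]
            have q0 := four (σ := σ) (a := l) (b := c) (c := a) (d := b) (by omega) (by omega) (by omega)
            have q1 := four (σ := σ) (a := l) (b := a) (c := d) (d := b) (by omega) (by omega) (by omega)
            have q2 := four (σ := σ) (a := l) (b := c) (c := a) (d := d) (by omega) (by omega) (by omega)
            have q3 := four (σ := σ) (a := l) (b := c) (c := d) (d := b) (by omega) (by omega) (by omega)
            have q4 := four (σ := σ) (a := c) (b := a) (c := d) (d := b) (by omega) (by omega) (by omega)
            grind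
          · rw [ccw_iff1 (a := l) (b := a) (c := b) (by omega) (by omega)] at h1
            rw [ccw_iff4 (a := l) (b := c) (c := b) (by omega) (by omega)] at h2
            rw [ccw_iff1 (a := l) (b := c) (c := d) (by omega) (by omega)] at h3
            rw [ccw_iff1 (a := a) (b := b) (c := d) (by omega) (by omega)] at h4
            rw [ccw_iff6 (a := c) (b := b) (c := d) (by omega) (by omega)] at h5
            rw [ccw_iff6 (a := c) (b := a) (c := d) (by omega) (by omega)]
            have q0 := four (σ := σ) (a := l) (b := c) (c := a) (d := b) (by omega) (by omega) (by omega)
            have q1 := four (σ := σ) (a := l) (b := a) (c := b) (d := d) (by omega) (by omega) (by omega)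
            have q2 := four (σ := σ) (a := l) (b := c) (c := a) (d := d) (by omega) (by omega) (by omega)
            have q3 := four (σ := σ) (a := l) (b := c) (c := b) (d := d) (by omega) (by omega) (by omega)
            have q4 := four (σ := σ) (a := c) (b := a) (c := b) (d := d) (by omega) (by omega) (by omega)
            grind
    · rcases lt_or_gt_of_ne n_b_c.symm with c17|c17
      · rcases lt_or_gt_of_ne n_a_d.symm with c18|c18
        · rw [ccw_iff1 (a := l) (b := a) (c := b) (by omega) (by omega)] at h1
          rw [ccw_iff4 (a := l) (b := c) (c := b) (by omega) (by omega)] at h2
          rw [ccw_iff4 (a := l) (b := d) (c := c) (by omega) (by omega)] at h3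
          rw [ccw_iff2 (a := d) (b := a) (c := b) (by omega) (by omega)] at h4
          rw [ccw_iff5 (a := d) (b := c) (c := b) (by omega) (by omega)] at h5
          rw [ccw_iff2 (a := d) (b := a) (c := c) (by omega) (by omega)]
          have q0 := four (σ := σ) (a := l) (b := a) (c := c) (d := b) (by omega) (by omega) (by omega)
          have q1 := four (σ := σ) (a := l) (b := d) (c := a) (d := b) (by omega) (by omega) (by omega)
          have q2 := four (σ := σ) (a := l) (b := d) (c := a) (d := c) (by omega) (by omega) (by omega)
          have q3 := four (σ := σ) (a := l) (b := d) (c := c) (d := b) (by omega) (by omega) (by omega)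
          have q4 := four (σ := σ) (a := d) (b := a) (c := c) (d := b) (by omega) (by omega) (by omega)
          grind
        · rcases lt_or_gt_of_ne n_c_d.symm with c19|c19
          · rw [ccw_iff1 (a := l) (b := a) (c := b) (by omega) (by omega)] at h1
            rw [ccw_iff4 (a := l) (b := c) (c := b) (by omega) (by omega)] at h2
            rw [ccw_iff4 (a := l) (b := d) (c := c) (by omega) (by omega)] at h3
            rw [ccw_iff4 (a := a) (b := d) (c := b) (by omega) (by omega)] at h4
            rw [ccw_iff5 (a := d) (b := c) (c := b) (by omega) (by omega)] at h5
            rw [ccw_iff4 (a := a) (b := d) (c := c) (by omega) (by omega)]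
            have q0 := four (σ := σ) (a := l) (b := a) (c := c) (d := b) (by omega) (by omega) (by omega)
            have q1 := four (σ := σ) (a := l) (b := a) (c := d) (d := b) (by omega) (by omega) (by omega)
            have q2 := four (σ := σ) (a := l) (b := a) (c := d) (d := c) (by omega) (by omega) (by omega)
            have q3 := four (σ := σ) (a := l) (b := d) (c := c) (d := b) (by omega) (by omega) (by omega)
            have q4 := four (σ := σ) (a := a) (b := d) (c := c) (d := b) (by omega) (by omega) (by omega)
            grind
          · rcases lt_or_gt_of_ne n_b_d.symm with c20|c20
            · rw [ccw_iff1 (a := l) (b := a) (c := b) (by omega) (by omega)] at h1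
              rw [ccw_iff4 (a := l) (b := c) (c := b) (by omega) (by omega)] at h2
              rw [ccw_iff1 (a := l) (b := c) (c := d) (by omega) (by omega)] at h3
              rw [ccw_iff4 (a := a) (b := d) (c := b) (by omega) (by omega)] at h4
              rw [ccw_iff3 (a := c) (b := d) (c := b) (by omega) (by omega)] at h5
              rw [ccw_iff1 (a := a) (b := c) (c := d) (by omega) (by omega)]
              have q0 := four (σ := σ) (a := l) (b := a) (c := c) (d := b) (by omega) (by omega) (by omega)
              have q1 := four (σ := σ) (a := l) (b := a) (c := d) (d := b) (by omega) (by omega) (by omega)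
              have q2 := four (σ := σ) (a := l) (b := a) (c := c) (d := d) (by omega) (by omega) (by omega)
              have q3 := four (σ := σ) (a := l) (b := c) (c := d) (d := b) (by omega) (by omega) (by omega)
              have q4 := four (σ := σ) (a := a) (b := c) (c := d) (d := b) (by omega) (by omega) (by omega)
              grind
            · rw [ccw_iff1 (a := l) (b := a) (c := b) (by omega) (by omega)] at h1
              rw [ccw_iff4 (a := l) (b := c) (c := b) (by omega) (by omega)] at h2
              rw [ccw_iff1 (a := l) (b := c) (c := d) (by omega) (by omega)] at h3
              rw [ccw_iff1 (a := a) (b := b) (c := d) (by omega) (by omega)] at h4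
              rw [ccw_iff6 (a := c) (b := b) (c := d) (by omega) (by omega)] at h5
              rw [ccw_iff1 (a := a) (b := c) (c := d) (by omega) (by omega)]
              have q0 := four (σ := σ) (a := l) (b := a) (c := c) (d := b) (by omega) (by omega) (by omega)
              have q1 := four (σ := σ) (a := l) (b := a) (c := b) (d := d) (by omega) (by omega) (by omega)
              have q2 := four (σ := σ) (a := l) (b := a) (c := c) (d := d) (by omega) (by omega) (by omega)
              have q3 := four (σ := σ) (a := l) (b := c) (c := b) (d := d) (by omega) (by omega) (by omega)
              have q4 := four (σ := σ) (a := a) (b := c) (c := b) (d := d) (by omega) (by omega) (by omega)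
              grind
      · rcases lt_or_gt_of_ne n_a_d.symm with c21|c21
        · rw [ccw_iff1 (a := l) (b := a) (c := b) (by omega) (by omega)] at h1
          rw [ccw_iff1 (a := l) (b := b) (c := c) (by omega) (by omega)] at h2
          rw [ccw_iff4 (a := l) (b := d) (c := c) (by omega) (by omega)] at h3
          rw [ccw_iff2 (a := d) (b := a) (c := b) (by omega) (by omega)] at h4
          rw [ccw_iff2 (a := d) (b := b) (c := c) (by omega) (by omega)] at h5
          rw [ccw_iff2 (a := d) (b := a) (c := c) (by omega) (by omega)]
          have q0 := four (σ := σ) (a := l) (b := a) (c := b) (d := c) (by omega) (by omega) (by omega)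
          have q1 := four (σ := σ) (a := l) (b := d) (c := a) (d := b) (by omega) (by omega) (by omega)
          have q2 := four (σ := σ) (a := l) (b := d) (c := a) (d := c) (by omega) (by omega) (by omega)
          have q3 := four (σ := σ) (a := l) (b := d) (c := b) (d := c) (by omega) (by omega) (by omega)
          have q4 := four (σ := σ) (a := d) (b := a) (c := b) (d := c) (by omega) (by omega) (by omega)
          grind
        · rcases lt_or_gt_of_ne n_b_d.symm with c22|c22
          · rw [ccw_iff1 (a := l) (b := a) (c := b) (by omega) (by omega)] at h1
            rw [ccw_iff1 (a := l) (b := b) (c := c) (by omega) (by omega)] at h2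
            rw [ccw_iff4 (a := l) (b := d) (c := c) (by omega) (by omega)] at h3
            rw [ccw_iff4 (a := a) (b := d) (c := b) (by omega) (by omega)] at h4
            rw [ccw_iff2 (a := d) (b := b) (c := c) (by omega) (by omega)] at h5
            rw [ccw_iff4 (a := a) (b := d) (c := c) (by omega) (by omega)]
            have q0 := four (σ := σ) (a := l) (b := a) (c := b) (d := c) (by omega) (by omega) (by omega)
            have q1 := four (σ := σ) (a := l) (b := a) (c := d) (d := b) (by omega) (by omega) (by omega)
            have q2 := four (σ := σ) (a := l) (b := a) (c := d) (d := c) (by omega) (by omega) (by omega)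
            have q3 := four (σ := σ) (a := l) (b := d) (c := b) (d := c) (by omega) (by omega) (by omega)
            have q4 := four (σ := σ) (a := a) (b := d) (c := b) (d := c) (by omega) (by omega) (by omega)
            grind
          · rcases lt_or_gt_of_ne n_c_d.symm with c23|c23
            · rw [ccw_iff1 (a := l) (b := a) (c := b) (by omega) (by omega)] at h1
              rw [ccw_iff1 (a := l) (b := b) (c := c) (by omega) (by omega)] at h2
              rw [ccw_iff4 (a := l) (b := d) (c := c) (by omega) (by omega)] at h3
              rw [ccw_iff1 (a := a) (b := b) (c := d) (by omega) (by omega)] at h4
              rw [ccw_iff4 (a := b) (b := d) (c := c) (by omega) (by omega)] at h5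
              rw [ccw_iff4 (a := a) (b := d) (c := c) (by omega) (by omega)]
              have q0 := four (σ := σ) (a := l) (b := a) (c := b) (d := c) (by omega) (by omega) (by omega)
              have q1 := four (σ := σ) (a := l) (b := a) (c := b) (d := d) (by omega) (by omega) (by omega)
              have q2 := four (σ := σ) (a := l) (b := a) (c := d) (d := c) (by omega) (by omega) (by omega)
              have q3 := four (σ := σ) (a := l) (b := b) (c := d) (d := c) (by omega) (by omega) (by omega)
              have q4 := four (σ := σ) (a := a) (b := b) (c := d) (d := c) (by omega) (by omega) (by omega)
              grind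
            · rw [ccw_iff1 (a := l) (b := a) (c := b) (by omega) (by omega)] at h1
              rw [ccw_iff1 (a := l) (b := b) (c := c) (by omega) (by omega)] at h2
              rw [ccw_iff1 (a := l) (b := c) (c := d) (by omega) (by omega)] at h3
              rw [ccw_iff1 (a := a) (b := b) (c := d) (by omega) (by omega)] at h4
              rw [ccw_iff1 (a := b) (b := c) (c := d) (by omega) (by omega)] at h5
              rw [ccw_iff1 (a := a) (b := c) (c := d) (by omega) (by omega)]
              have q0 := four (σ := σ) (a := l) (b := a) (c := b) (d := c) (by omega) (by omega) (by omega)
              have q1 := four (σ := σ) (a := l) (b := a) (c := b) (d := d) (by omega) (by omega) (by omega)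
              have q2 := four (σ := σ) (a := l) (b := a) (c := c) (d := d) (by omega) (by omega) (by omega)
              have q3 := four (σ := σ) (a := l) (b := b) (c := c) (d := d) (by omega) (by omega) (by omega)
              have q4 := four (σ := σ) (a := a) (b := b) (c := c) (d := d) (by omega) (by omega) (by omega)
              grind

/-- b far from ac, c far from bd imply b far from ad. -/
theorem F14 {l a b c d : ℤ} (o0 : l < a) (o1 : l < b) (o2 : l < c) (o3 : l < d) (h1 : σ.ccw l a b) (h2 : σ.ccw l b c) (h3 : σ.ccw l c d) (h4 : σ.ccw a b c) (h5 : σ.ccw b c d) : σ.ccw a b d := by
  have n_l_a := ne12 h1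
  have n_a_b := ne23 h1
  have n_l_b := ne13 h1
  have n_b_c := ne23 h2
  have n_l_c := ne13 h2
  have n_c_d := ne23 h3
  have n_l_d := ne13 h3
  have n_a_c := ne13 h4
  have n_b_d := ne13 h5
  have n_a_c : a ≠ c := ne23 (trL o0 o1 o2 h1 h2)
  have n_b_d : b ≠ d := ne23 (trL o1 o2 o3 h2 h3)
  have n_a_d : a ≠ d := ne23 (trL o0 o1 o3 h1 (trL o1 o2 o3 h2 h3))
  rcases lt_or_gt_of_ne n_a_b.symm with c1|c1
  · rcases lt_or_gt_of_ne n_b_c.symm with c2|c2
    · rcases lt_or_gt_of_ne n_c_d.symm with c3|c3
      · rw [ccw_iff4 (a := l) (b := b) (c := a) (by omega) (by omega)] at h1
        rw [ccw_iff4 (a := l) (b := c) (c := b) (by omega) (by omega)] at h2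
        rw [ccw_iff4 (a := l) (b := d) (c := c) (by omega) (by omega)] at h3
        rw [ccw_iff5 (a := c) (b := b) (c := a) (by omega) (by omega)] at h4
        rw [ccw_iff5 (a := d) (b := c) (c := b) (by omega) (by omega)] at h5
        rw [ccw_iff5 (a := d) (b := b) (c := a) (by omega) (by omega)]
        have q0 := four (σ := σ) (a := l) (b := c) (c := b) (d := a) (by omega) (by omega) (by omega)
        have q1 := four (σ := σ) (a := l) (b := d) (c := b) (d := a) (by omega) (by omega) (by omega)
        have q2 := four (σ := σ) (a := l) (b := d) (c := c) (d := a) (by omega) (by omega) (by omega)
        have q3 := four (σ := σ) (a := l) (b := d) (c := c) (d := b) (by omega) (by omega) (by omega)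
        have q4 := four (σ := σ) (a := d) (b := c) (c := b) (d := a) (by omega) (by omega) (by omega)
        grind
      · rcases lt_or_gt_of_ne n_b_d.symm with c4|c4
        · rw [ccw_iff4 (a := l) (b := b) (c := a) (by omega) (by omega)] at h1
          rw [ccw_iff4 (a := l) (b := c) (c := b) (by omega) (by omega)] at h2
          rw [ccw_iff1 (a := l) (b := c) (c := d) (by omega) (by omega)] at h3
          rw [ccw_iff5 (a := c) (b := b) (c := a) (by omega) (by omega)] at h4
          rw [ccw_iff3 (a := c) (b := d) (c := b) (by omega) (by omega)] at h5
          rw [ccw_iff5 (a := d) (b := b) (c := a) (by omega) (by omega)]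
          have q0 := four (σ := σ) (a := l) (b := c) (c := b) (d := a) (by omega) (by omega) (by omega)
          have q1 := four (σ := σ) (a := l) (b := d) (c := b) (d := a) (by omega) (by omega) (by omega)
          have q2 := four (σ := σ) (a := l) (b := c) (c := d) (d := a) (by omega) (by omega) (by omega)
          have q3 := four (σ := σ) (a := l) (b := c) (c := d) (d := b) (by omega) (by omega) (by omega)
          have q4 := four (σ := σ) (a := c) (b := d) (c := b) (d := a) (by omega) (by omega) (by omega)
          grind
        · rcases lt_or_gt_of_ne n_a_d.symm with c5|c5
          · rw [ccw_iff4 (a := l) (b := b) (c := a) (by omega) (by omega)] at h1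
            rw [ccw_iff4 (a := l) (b := c) (c := b) (by omega) (by omega)] at h2
            rw [ccw_iff1 (a := l) (b := c) (c := d) (by omega) (by omega)] at h3
            rw [ccw_iff5 (a := c) (b := b) (c := a) (by omega) (by omega)] at h4
            rw [ccw_iff6 (a := c) (b := b) (c := d) (by omega) (by omega)] at h5
            rw [ccw_iff3 (a := b) (b := d) (c := a) (by omega) (by omega)]
            have q0 := four (σ := σ) (a := l) (b := c) (c := b) (d := a) (by omega) (by omega) (by omega)
            have q1 := four (σ := σ) (a := l) (b := b) (c := d) (d := a) (by omega) (by omega) (by omega)
            have q2 := four (σ := σ) (a := l) (b := c) (c := d) (d := a) (by omega) (by omega) (by omega)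
            have q3 := four (σ := σ) (a := l) (b := c) (c := b) (d := d) (by omega) (by omega) (by omega)
            have q4 := four (σ := σ) (a := c) (b := b) (c := d) (d := a) (by omega) (by omega) (by omega)
            grind
          · rw [ccw_iff4 (a := l) (b := b) (c := a) (by omega) (by omega)] at h1
            rw [ccw_iff4 (a := l) (b := c) (c := b) (by omega) (by omega)] at h2
            rw [ccw_iff1 (a := l) (b := c) (c := d) (by omega) (by omega)] at h3
            rw [ccw_iff5 (a := c) (b := b) (c := a) (by omega) (by omega)] at h4
            rw [ccw_iff6 (a := c) (b := b) (c := d) (by omega) (by omega)] at h5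
            rw [ccw_iff6 (a := b) (b := a) (c := d) (by omega) (by omega)]
            have q0 := four (σ := σ) (a := l) (b := c) (c := b) (d := a) (by omega) (by omega) (by omega)
            have q1 := four (σ := σ) (a := l) (b := b) (c := a) (d := d) (by omega) (by omega) (by omega)
            have q2 := four (σ := σ) (a := l) (b := c) (c := a) (d := d) (by omega) (by omega) (by omega)
            have q3 := four (σ := σ) (a := l) (b := c) (c := b) (d := d) (by omega) (by omega) (by omega)
            have q4 := four (σ := σ) (a := c) (b := b) (c := a) (d := d) (by omega) (by omega) (by omega)
            grind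
    · rcases lt_or_gt_of_ne n_a_c.symm with c6|c6
      · rcases lt_or_gt_of_ne n_b_d.symm with c7|c7
        · rw [ccw_iff4 (a := l) (b := b) (c := a) (by omega) (by omega)] at h1
          rw [ccw_iff1 (a := l) (b := b) (c := c) (by omega) (by omega)] at h2
          rw [ccw_iff4 (a := l) (b := d) (c := c) (by omega) (by omega)] at h3
          rw [ccw_iff3 (a := b) (b := c) (c := a) (by omega) (by omega)] at h4
          rw [ccw_iff2 (a := d) (b := b) (c := c) (by omega) (by omega)] at h5
          rw [ccw_iff5 (a := d) (b := b) (c := a) (by omega) (by omega)]
          have q0 := four (σ := σ) (a := l) (b := b) (c := c) (d := a) (by omega) (by omega) (by omega)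
          have q1 := four (σ := σ) (a := l) (b := d) (c := b) (d := a) (by omega) (by omega) (by omega)
          have q2 := four (σ := σ) (a := l) (b := d) (c := c) (d := a) (by omega) (by omega) (by omega)
          have q3 := four (σ := σ) (a := l) (b := d) (c := b) (d := c) (by omega) (by omega) (by omega)
          have q4 := four (σ := σ) (a := d) (b := b) (c := c) (d := a) (by omega) (by omega) (by omega)
          grind
        · rcases lt_or_gt_of_ne n_c_d.symm with c8|c8
          · rw [ccw_iff4 (a := l) (b := b) (c := a) (by omega) (by omega)] at h1
            rw [ccw_iff1 (a := l) (b := b) (c := c) (by omega) (by omega)] at h2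
            rw [ccw_iff4 (a := l) (b := d) (c := c) (by omega) (by omega)] at h3
            rw [ccw_iff3 (a := b) (b := c) (c := a) (by omega) (by omega)] at h4
            rw [ccw_iff4 (a := b) (b := d) (c := c) (by omega) (by omega)] at h5
            rw [ccw_iff3 (a := b) (b := d) (c := a) (by omega) (by omega)]
            have q0 := four (σ := σ) (a := l) (b := b) (c := c) (d := a) (by omega) (by omega) (by omega)
            have q1 := four (σ := σ) (a := l) (b := b) (c := d) (d := a) (by omega) (by omega) (by omega)
            have q2 := four (σ := σ) (a := l) (b := d) (c := c) (d := a) (by omega) (by omega) (by omega)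
            have q3 := four (σ := σ) (a := l) (b := b) (c := d) (d := c) (by omega) (by omega) (by omega)
            have q4 := four (σ := σ) (a := b) (b := d) (c := c) (d := a) (by omega) (by omega) (by omega)
            grind
          · rcases lt_or_gt_of_ne n_a_d.symm with c9|c9
            · rw [ccw_iff4 (a := l) (b := b) (c := a) (by omega) (by omega)] at h1
              rw [ccw_iff1 (a := l) (b := b) (c := c) (by omega) (by omega)] at h2
              rw [ccw_iff1 (a := l) (b := c) (c := d) (by omega) (by omega)] at h3
              rw [ccw_iff3 (a := b) (b := c) (c := a) (by omega) (by omega)] at h4
              rw [ccw_iff1 (a := b) (b := c) (c := d) (by omega) (by omega)] at h5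
              rw [ccw_iff3 (a := b) (b := d) (c := a) (by omega) (by omega)]
              have q0 := four (σ := σ) (a := l) (b := b) (c := c) (d := a) (by omega) (by omega) (by omega)
              have q1 := four (σ := σ) (a := l) (b := b) (c := d) (d := a) (by omega) (by omega) (by omega)
              have q2 := four (σ := σ) (a := l) (b := c) (c := d) (d := a) (by omega) (by omega) (by omega)
              have q3 := four (σ := σ) (a := l) (b := b) (c := c) (d := d) (by omega) (by omega) (by omega)
              have q4 := four (σ := σ) (a := b) (b := c) (c := d) (d := a) (by omega) (by omega) (by omega)
              grind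
            · rw [ccw_iff4 (a := l) (b := b) (c := a) (by omega) (by omega)] at h1
              rw [ccw_iff1 (a := l) (b := b) (c := c) (by omega) (by omega)] at h2
              rw [ccw_iff1 (a := l) (b := c) (c := d) (by omega) (by omega)] at h3
              rw [ccw_iff3 (a := b) (b := c) (c := a) (by omega) (by omega)] at h4
              rw [ccw_iff1 (a := b) (b := c) (c := d) (by omega) (by omega)] at h5
              rw [ccw_iff6 (a := b) (b := a) (c := d) (by omega) (by omega)]
              have q0 := four (σ := σ) (a := l) (b := b) (c := c) (d := a) (by omega) (by omega) (by omega)
              have q1 := four (σ := σ) (a := l) (b := b) (c := a) (d := d) (by omega) (by omega) (by omega)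
              have q2 := four (σ := σ) (a := l) (b := c) (c := a) (d := d) (by omega) (by omega) (by omega)
              have q3 := four (σ := σ) (a := l) (b := b) (c := c) (d := d) (by omega) (by omega) (by omega)
              have q4 := four (σ := σ) (a := b) (b := c) (c := a) (d := d) (by omega) (by omega) (by omega)
              grind
      · rcases lt_or_gt_of_ne n_b_d.symm with c10|c10
        · rw [ccw_iff4 (a := l) (b := b) (c := a) (by omega) (by omega)] at h1
          rw [ccw_iff1 (a := l) (b := b) (c := c) (by omega) (by omega)] at h2
          rw [ccw_iff4 (a := l) (b := d) (c := c) (by omega) (by omega)] at h3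
          rw [ccw_iff6 (a := b) (b := a) (c := c) (by omega) (by omega)] at h4
          rw [ccw_iff2 (a := d) (b := b) (c := c) (by omega) (by omega)] at h5
          rw [ccw_iff5 (a := d) (b := b) (c := a) (by omega) (by omega)]
          have q0 := four (σ := σ) (a := l) (b := b) (c := a) (d := c) (by omega) (by omega) (by omega)
          have q1 := four (σ := σ) (a := l) (b := d) (c := b) (d := a) (by omega) (by omega) (by omega)
          have q2 := four (σ := σ) (a := l) (b := d) (c := a) (d := c) (by omega) (by omega) (by omega)
          have q3 := four (σ := σ) (a := l) (b := d) (c := b) (d := c) (by omega) (by omega) (by omega)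
          have q4 := four (σ := σ) (a := d) (b := b) (c := a) (d := c) (by omega) (by omega) (by omega)
          grind
        · rcases lt_or_gt_of_ne n_a_d.symm with c11|c11
          · rw [ccw_iff4 (a := l) (b := b) (c := a) (by omega) (by omega)] at h1
            rw [ccw_iff1 (a := l) (b := b) (c := c) (by omega) (by omega)] at h2
            rw [ccw_iff4 (a := l) (b := d) (c := c) (by omega) (by omega)] at h3
            rw [ccw_iff6 (a := b) (b := a) (c := c) (by omega) (by omega)] at h4
            rw [ccw_iff4 (a := b) (b := d) (c := c) (by omega) (by omega)] at h5
            rw [ccw_iff3 (a := b) (b := d) (c := a) (by omega) (by omega)]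
            have q0 := four (σ := σ) (a := l) (b := b) (c := a) (d := c) (by omega) (by omega) (by omega)
            have q1 := four (σ := σ) (a := l) (b := b) (c := d) (d := a) (by omega) (by omega) (by omega)
            have q2 := four (σ := σ) (a := l) (b := d) (c := a) (d := c) (by omega) (by omega) (by omega)
            have q3 := four (σ := σ) (a := l) (b := b) (c := d) (d := c) (by omega) (by omega) (by omega)
            have q4 := four (σ := σ) (a := b) (b := d) (c := a) (d := c) (by omega) (by omega) (by omega)
            grind
          · rcases lt_or_gt_of_ne n_c_d.symm with c12|c12
            · rw [ccw_iff4 (a := l) (b := b) (c := a) (by omega) (by omega)] at h1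
              rw [ccw_iff1 (a := l) (b := b) (c := c) (by omega) (by omega)] at h2
              rw [ccw_iff4 (a := l) (b := d) (c := c) (by omega) (by omega)] at h3
              rw [ccw_iff6 (a := b) (b := a) (c := c) (by omega) (by omega)] at h4
              rw [ccw_iff4 (a := b) (b := d) (c := c) (by omega) (by omega)] at h5
              rw [ccw_iff6 (a := b) (b := a) (c := d) (by omega) (by omega)]
              have q0 := four (σ := σ) (a := l) (b := b) (c := a) (d := c) (by omega) (by omega) (by omega)
              have q1 := four (σ := σ) (a := l) (b := b) (c := a) (d := d) (by omega) (by omega) (by omega)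
              have q2 := four (σ := σ) (a := l) (b := a) (c := d) (d := c) (by omega) (by omega) (by omega)
              have q3 := four (σ := σ) (a := l) (b := b) (c := d) (d := c) (by omega) (by omega) (by omega)
              have q4 := four (σ := σ) (a := b) (b := a) (c := d) (d := c) (by omega) (by omega) (by omega)
              grind
            · rw [ccw_iff4 (a := l) (b := b) (c := a) (by omega) (by omega)] at h1
              rw [ccw_iff1 (a := l) (b := b) (c := c) (by omega) (by omega)] at h2
              rw [ccw_iff1 (a := l) (b := c) (c := d) (by omega) (by omega)] at h3
              rw [ccw_iff6 (a := b) (b := a) (c := c) (by omega) (by omega)] at h4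
              rw [ccw_iff1 (a := b) (b := c) (c := d) (by omega) (by omega)] at h5
              rw [ccw_iff6 (a := b) (b := a) (c := d) (by omega) (by omega)]
              have q0 := four (σ := σ) (a := l) (b := b) (c := a) (d := c) (by omega) (by omega) (by omega)
              have q1 := four (σ := σ) (a := l) (b := b) (c := a) (d := d) (by omega) (by omega) (by omega)
              have q2 := four (σ := σ) (a := l) (b := a) (c := c) (d := d) (by omega) (by omega) (by omega)
              have q3 := four (σ := σ) (a := l) (b := b) (c := c) (d := d) (by omega) (by omega) (by omega)
              have q4 := four (σ := σ) (a := b) (b := a) (c := c) (d := d) (by omega) (by omega) (by omega)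
              grind
  · rcases lt_or_gt_of_ne n_a_c.symm with c13|c13
    · rcases lt_or_gt_of_ne n_c_d.symm with c14|c14
      · rw [ccw_iff1 (a := l) (b := a) (c := b) (by omega) (by omega)] at h1
        rw [ccw_iff4 (a := l) (b := c) (c := b) (by omega) (by omega)] at h2
        rw [ccw_iff4 (a := l) (b := d) (c := c) (by omega) (by omega)] at h3
        rw [ccw_iff2 (a := c) (b := a) (c := b) (by omega) (by omega)] at h4
        rw [ccw_iff5 (a := d) (b := c) (c := b) (by omega) (by omega)] at h5
        rw [ccw_iff2 (a := d) (b := a) (c := b) (by omega) (by omega)]
        have q0 := four (σ := σ) (a := l) (b := c) (c := a) (d := b) (by omega) (by omega) (by omega)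
        have q1 := four (σ := σ) (a := l) (b := d) (c := a) (d := b) (by omega) (by omega) (by omega)
        have q2 := four (σ := σ) (a := l) (b := d) (c := c) (d := a) (by omega) (by omega) (by omega)
        have q3 := four (σ := σ) (a := l) (b := d) (c := c) (d := b) (by omega) (by omega) (by omega)
        have q4 := four (σ := σ) (a := d) (b := c) (c := a) (d := b) (by omega) (by omega) (by omega)
        grind
      · rcases lt_or_gt_of_ne n_a_d.symm with c15|c15
        · rw [ccw_iff1 (a := l) (b := a) (c := b) (by omega) (by omega)] at h1
          rw [ccw_iff4 (a := l) (b := c) (c := b) (by omega) (by omega)] at h2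
          rw [ccw_iff1 (a := l) (b := c) (c := d) (by omega) (by omega)] at h3
          rw [ccw_iff2 (a := c) (b := a) (c := b) (by omega) (by omega)] at h4
          rw [ccw_iff3 (a := c) (b := d) (c := b) (by omega) (by omega)] at h5
          rw [ccw_iff2 (a := d) (b := a) (c := b) (by omega) (by omega)]
          have q0 := four (σ := σ) (a := l) (b := c) (c := a) (d := b) (by omega) (by omega) (by omega)
          have q1 := four (σ := σ) (a := l) (b := d) (c := a) (d := b) (by omega) (by omega) (by omega)
          have q2 := four (σ := σ) (a := l) (b := c) (c := d) (d := a) (by omega) (by omega) (by omega)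
          have q3 := four (σ := σ) (a := l) (b := c) (c := d) (d := b) (by omega) (by omega) (by omega)
          have q4 := four (σ := σ) (a := c) (b := d) (c := a) (d := b) (by omega) (by omega) (by omega)
          grind
        · rcases lt_or_gt_of_ne n_b_d.symm with c16|c16
          · rw [ccw_iff1 (a := l) (b := a) (c := b) (by omega) (by omega)] at h1
            rw [ccw_iff4 (a := l) (b := c) (c := b) (by omega) (by omega)] at h2
            rw [ccw_iff1 (a := l) (b := c) (c := d) (by omega) (by omega)] at h3
            rw [ccw_iff2 (a := c) (b := a) (c := b) (by omega) (by omega)] at h4
            rw [ccw_iff3 (a := c) (b := d) (c := b) (by omega) (by omega)] at h5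
            rw [ccw_iff4 (a := a) (b := d) (c := b) (by omega) (by omega)]
            have q0 := four (σ := σ) (a := l) (b := c) (c := a) (d := b) (by omega) (by omega) (by omega)
            have q1 := four (σ := σ) (a := l) (b := a) (c := d) (d := b) (by omega) (by omega) (by omega)
            have q2 := four (σ := σ) (a := l) (b := c) (c := a) (d := d) (by omega) (by omega) (by omega)
            have q3 := four (σ := σ) (a := l) (b := c) (c := d) (d := b) (by omega) (by omega) (by omega)
            have q4 := four (σ := σ) (a := c) (b := a) (c := d) (d := b) (by omega) (by omega) (by omega)
            grind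
          · rw [ccw_iff1 (a := l) (b := a) (c := b) (by omega) (by omega)] at h1
            rw [ccw_iff4 (a := l) (b := c) (c := b) (by omega) (by omega)] at h2
            rw [ccw_iff1 (a := l) (b := c) (c := d) (by omega) (by omega)] at h3
            rw [ccw_iff2 (a := c) (b := a) (c := b) (by omega) (by omega)] at h4
            rw [ccw_iff6 (a := c) (b := b) (c := d) (by omega) (by omega)] at h5
            rw [ccw_iff1 (a := a) (b := b) (c := d) (by omega) (by omega)]
            have q0 := four (σ := σ) (a := l) (b := c) (c := a) (d := b) (by omega) (by omega) (by omega)
            have q1 := four (σ := σ) (a := l) (b := a) (c := b) (d := d) (by omega) (by omega) (by omega)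
            have q2 := four (σ := σ) (a := l) (b := c) (c := a) (d := d) (by omega) (by omega) (by omega)
            have q3 := four (σ := σ) (a := l) (b := c) (c := b) (d := d) (by omega) (by omega) (by omega)
            have q4 := four (σ := σ) (a := c) (b := a) (c := b) (d := d) (by omega) (by omega) (by omega)
            grind
    · rcases lt_or_gt_of_ne n_b_c.symm with c17|c17
      · rcases lt_or_gt_of_ne n_a_d.symm with c18|c18
        · rw [ccw_iff1 (a := l) (b := a) (c := b) (by omega) (by omega)] at h1
          rw [ccw_iff4 (a := l) (b := c) (c := b) (by omega) (by omega)] at h2
          rw [ccw_iff4 (a := l) (b := d) (c := c) (by omega) (by omega)] at h3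
          rw [ccw_iff4 (a := a) (b := c) (c := b) (by omega) (by omega)] at h4
          rw [ccw_iff5 (a := d) (b := c) (c := b) (by omega) (by omega)] at h5
          rw [ccw_iff2 (a := d) (b := a) (c := b) (by omega) (by omega)]
          have q0 := four (σ := σ) (a := l) (b := a) (c := c) (d := b) (by omega) (by omega) (by omega)
          have q1 := four (σ := σ) (a := l) (b := d) (c := a) (d := b) (by omega) (by omega) (by omega)
          have q2 := four (σ := σ) (a := l) (b := d) (c := a) (d := c) (by omega) (by omega) (by omega)
          have q3 := four (σ := σ) (a := l) (b := d) (c := c) (d := b) (by omega) (by omega) (by omega)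
          have q4 := four (σ := σ) (a := d) (b := a) (c := c) (d := b) (by omega) (by omega) (by omega)
          grind
        · rcases lt_or_gt_of_ne n_c_d.symm with c19|c19
          · rw [ccw_iff1 (a := l) (b := a) (c := b) (by omega) (by omega)] at h1
            rw [ccw_iff4 (a := l) (b := c) (c := b) (by omega) (by omega)] at h2
            rw [ccw_iff4 (a := l) (b := d) (c := c) (by omega) (by omega)] at h3
            rw [ccw_iff4 (a := a) (b := c) (c := b) (by omega) (by omega)] at h4
            rw [ccw_iff5 (a := d) (b := c) (c := b) (by omega) (by omega)] at h5
            rw [ccw_iff4 (a := a) (b := d) (c := b) (by omega) (by omega)]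
            have q0 := four (σ := σ) (a := l) (b := a) (c := c) (d := b) (by omega) (by omega) (by omega)
            have q1 := four (σ := σ) (a := l) (b := a) (c := d) (d := b) (by omega) (by omega) (by omega)
            have q2 := four (σ := σ) (a := l) (b := a) (c := d) (d := c) (by omega) (by omega) (by omega)
            have q3 := four (σ := σ) (a := l) (b := d) (c := c) (d := b) (by omega) (by omega) (by omega)
            have q4 := four (σ := σ) (a := a) (b := d) (c := c) (d := b) (by omega) (by omega) (by omega)
            grind
          · rcases lt_or_gt_of_ne n_b_d.symm with c20|c20
            · rw [ccw_iff1 (a := l) (b := a) (c := b) (by omega) (by omega)] at h1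
              rw [ccw_iff4 (a := l) (b := c) (c := b) (by omega) (by omega)] at h2
              rw [ccw_iff1 (a := l) (b := c) (c := d) (by omega) (by omega)] at h3
              rw [ccw_iff4 (a := a) (b := c) (c := b) (by omega) (by omega)] at h4
              rw [ccw_iff3 (a := c) (b := d) (c := b) (by omega) (by omega)] at h5
              rw [ccw_iff4 (a := a) (b := d) (c := b) (by omega) (by omega)]
              have q0 := four (σ := σ) (a := l) (b := a) (c := c) (d := b) (by omega) (by omega) (by omega)
              have q1 := four (σ := σ) (a := l) (b := a) (c := d) (d := b) (by omega) (by omega) (by omega)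
              have q2 := four (σ := σ) (a := l) (b := a) (c := c) (d := d) (by omega) (by omega) (by omega)
              have q3 := four (σ := σ) (a := l) (b := c) (c := d) (d := b) (by omega) (by omega) (by omega)
              have q4 := four (σ := σ) (a := a) (b := c) (c := d) (d := b) (by omega) (by omega) (by omega)
              grind
            · rw [ccw_iff1 (a := l) (b := a) (c := b) (by omega) (by omega)] at h1
              rw [ccw_iff4 (a := l) (b := c) (c := b) (by omega) (by omega)] at h2
              rw [ccw_iff1 (a := l) (b := c) (c := d) (by omega) (by omega)] at h3
              rw [ccw_iff4 (a := a) (b := c) (c := b) (by omega) (by omega)] at h4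
              rw [ccw_iff6 (a := c) (b := b) (c := d) (by omega) (by omega)] at h5
              rw [ccw_iff1 (a := a) (b := b) (c := d) (by omega) (by omega)]
              have q0 := four (σ := σ) (a := l) (b := a) (c := c) (d := b) (by omega) (by omega) (by omega)
              have q1 := four (σ := σ) (a := l) (b := a) (c := b) (d := d) (by omega) (by omega) (by omega)
              have q2 := four (σ := σ) (a := l) (b := a) (c := c) (d := d) (by omega) (by omega) (by omega)
              have q3 := four (σ := σ) (a := l) (b := c) (c := b) (d := d) (by omega) (by omega) (by omega)
              have q4 := four (σ := σ) (a := a) (b := c) (c := b) (d := d) (by omega) (by omega) (by omega)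
              grind
      · rcases lt_or_gt_of_ne n_a_d.symm with c21|c21
        · rw [ccw_iff1 (a := l) (b := a) (c := b) (by omega) (by omega)] at h1
          rw [ccw_iff1 (a := l) (b := b) (c := c) (by omega) (by omega)] at h2
          rw [ccw_iff4 (a := l) (b := d) (c := c) (by omega) (by omega)] at h3
          rw [ccw_iff1 (a := a) (b := b) (c := c) (by omega) (by omega)] at h4
          rw [ccw_iff2 (a := d) (b := b) (c := c) (by omega) (by omega)] at h5
          rw [ccw_iff2 (a := d) (b := a) (c := b) (by omega) (by omega)]
          have q0 := four (σ := σ) (a := l) (b := a) (c := b) (d := c) (by omega) (by omega) (by omega)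
          have q1 := four (σ := σ) (a := l) (b := d) (c := a) (d := b) (by omega) (by omega) (by omega)
          have q2 := four (σ := σ) (a := l) (b := d) (c := a) (d := c) (by omega) (by omega) (by omega)
          have q3 := four (σ := σ) (a := l) (b := d) (c := b) (d := c) (by omega) (by omega) (by omega)
          have q4 := four (σ := σ) (a := d) (b := a) (c := b) (d := c) (by omega) (by omega) (by omega)
          grind
        · rcases lt_or_gt_of_ne n_b_d.symm with c22|c22
          · rw [ccw_iff1 (a := l) (b := a) (c := b) (by omega) (by omega)] at h1
            rw [ccw_iff1 (a := l) (b := b) (c := c) (by omega) (by omega)] at h2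
            rw [ccw_iff4 (a := l) (b := d) (c := c) (by omega) (by omega)] at h3
            rw [ccw_iff1 (a := a) (b := b) (c := c) (by omega) (by omega)] at h4
            rw [ccw_iff2 (a := d) (b := b) (c := c) (by omega) (by omega)] at h5
            rw [ccw_iff4 (a := a) (b := d) (c := b) (by omega) (by omega)]
            have q0 := four (σ := σ) (a := l) (b := a) (c := b) (d := c) (by omega) (by omega) (by omega)
            have q1 := four (σ := σ) (a := l) (b := a) (c := d) (d := b) (by omega) (by omega) (by omega)
            have q2 := four (σ := σ) (a := l) (b := a) (c := d) (d := c) (by omega) (by omega) (by omega)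
            have q3 := four (σ := σ) (a := l) (b := d) (c := b) (d := c) (by omega) (by omega) (by omega)
            have q4 := four (σ := σ) (a := a) (b := d) (c := b) (d := c) (by omega) (by omega) (by omega)
            grind
          · rcases lt_or_gt_of_ne n_c_d.symm with c23|c23
            · rw [ccw_iff1 (a := l) (b := a) (c := b) (by omega) (by omega)] at h1
              rw [ccw_iff1 (a := l) (b := b) (c := c) (by omega) (by omega)] at h2
              rw [ccw_iff4 (a := l) (b := d) (c := c) (by omega) (by omega)] at h3
              rw [ccw_iff1 (a := a) (b := b) (c := c) (by omega) (by omega)] at h4
              rw [ccw_iff4 (a := b) (b := d) (c := c) (by omega) (by omega)] at h5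
              rw [ccw_iff1 (a := a) (b := b) (c := d) (by omega) (by omega)]
              have q0 := four (σ := σ) (a := l) (b := a) (c := b) (d := c) (by omega) (by omega) (by omega)
              have q1 := four (σ := σ) (a := l) (b := a) (c := b) (d := d) (by omega) (by omega) (by omega)
              have q2 := four (σ := σ) (a := l) (b := a) (c := d) (d := c) (by omega) (by omega) (by omega)
              have q3 := four (σ := σ) (a := l) (b := b) (c := d) (d := c) (by omega) (by omega) (by omega)
              have q4 := four (σ := σ) (a := a) (b := b) (c := d) (d := c) (by omega) (by omega) (by omega)
              grind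
            · rw [ccw_iff1 (a := l) (b := a) (c := b) (by omega) (by omega)] at h1
              rw [ccw_iff1 (a := l) (b := b) (c := c) (by omega) (by omega)] at h2
              rw [ccw_iff1 (a := l) (b := c) (c := d) (by omega) (by omega)] at h3
              rw [ccw_iff1 (a := a) (b := b) (c := c) (by omega) (by omega)] at h4
              rw [ccw_iff1 (a := b) (b := c) (c := d) (by omega) (by omega)] at h5
              rw [ccw_iff1 (a := a) (b := b) (c := d) (by omega) (by omega)]
              have q0 := four (σ := σ) (a := l) (b := a) (c := b) (d := c) (by omega) (by omega) (by omega)
              have q1 := four (σ := σ) (a := l) (b := a) (c := b) (d := d) (by omega) (by omega) (by omega)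
              have q2 := four (σ := σ) (a := l) (b := a) (c := c) (d := d) (by omega) (by omega) (by omega)
              have q3 := four (σ := σ) (a := l) (b := b) (c := c) (d := d) (by omega) (by omega) (by omega)
              have q4 := four (σ := σ) (a := a) (b := b) (c := c) (d := d) (by omega) (by omega) (by omega)
              grind

end Sig
end ET
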