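import Pool.Agent.Lib.MP_4beb96_co.EMT.Sym
import Pool.Agent.Lib.MP_4beb96_co.EMT.Pure

set_option autoImplicit false

/-! EMT-PreSuf: prefix and suffix tangents at a pivot `l`.

`z` is FAR from the line `q r` (where `ccw l q r`), i.e. not on the side of `l`, iff `ccw r q z`.

Pre_exists: `s = W.filter (fun z => ccw l z r)` is nonempty.  Apply `exists_greatest` with `R x y := ccw r y x`
(`x` far from the line `y r`).  Transitivity: `R x y`, `R y z`: `ccw r y x`, `ccw r z y`, want `ccw r z x`: this is `ax5`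
with `t = r, s = l, p = z, q = y, r = x`: it needs `ccw r l z, ccw r l y, ccw r l x`, which hold since `ccw l x r` etc.
(`cyc'`).  Totality: `total'`.
Pre_unique: if `q ≠ q'`, then `ccw r q q'` and `ccw r q' q`, contradiction (`asymm'`).
Suf_exists, Suf_unique: the same, with `R x y := ccw y q x` on `W.filter (fun z => ccw l q z)`: transitivity: `ccw y q x`, `ccw z q y`, want
`ccw z q x`, i.e. `ccw q x z` from `ccw q x y`, `ccw q y z`: `ax5d` or `ax5` with `t = q`, `s = l` (`ccw l q x` etc.). Or use `flip`.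

Pre_lo (`Good l r m w`): let `l < z`, `z ≠ m`, `ccw l z r`; claim `ccw r m z`.
  * `z < r`: then `¬ U l z r` (`ccw_iff1`), so it is the V-shape condition in `Good`.
  * `r < z`: `ccw l m r` (`¬ U l m r`) , `m < r < z`.  `ccw l z r` is `U l r z` (`ccw_iff4`).  Use `four` for `l < m < r < z`:
    `¬ U l m r`, `U l r z`, so (sequence U lmr, U lmz, U lrz, U mrz has at most one change, `n14` contrapositive...)
    `U m r z`: if `¬ U m r z` then from `¬ U l m r` and `¬ U m r z`: `n14` gives `¬ U l m z` and then `n24` gives `¬ U l r z`, contradiction.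
    And `U m r z` with `m < r < z` is `ccw r m z` (`ccw_iff6`).
Suf_hi: apply Pre_lo to `flip`?  No: by the same argument: `l < z`, `z ≠ w`, `ccw l r z`; claim `ccw w r z`.
  * `z < r`: `ccw l r z` is `U l z r` (`ccw_iff4`); V-shape: `ccw r z w`, i.e. `ccw w r z`.
  * `r < z`: `ccw l r z` is `¬ U l r z`; `U l w r`; `four` for `l < w < r < z` gives `¬ U w r z`, which is `ccw w r z`. -/

namespace ET
open Finset
open scoped Classical

namespace Sig
variable {σ : Sig}

/-- prefix tangent from `r` to the points of `W` before `r` (order at `l`) -/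
def Pre (σ : Sig) (W : Finset ℤ) (l r q : ℤ) : Prop :=
  q ∈ W ∧ σ.ccw l q r ∧ ∀ z ∈ W, z ≠ q → σ.ccw l z r → σ.ccw r q z

/-- suffix tangent from `q` to the points of `W` after `q` (order at `l`) -/
def Suf (σ : Sig) (W : Finset ℤ) (l q r : ℤ) : Prop :=
  r ∈ W ∧ σ.ccw l q r ∧ ∀ z ∈ W, z ≠ r → σ.ccw l q z → σ.ccw r q z

/-- facing edge: all other points of `W` are on the other side of the line `q r` than `l` -/
def FE (σ : Sig) (W : Finset ℤ) (l q r : ℤ) : Prop :=
  q ∈ W ∧ r ∈ W ∧ σ.ccw l q r ∧ ∀ z ∈ W, z ≠ q → z ≠ r → σ.ccw r q z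

theorem Pre_exists {W : Finset ℤ} {l r : ℤ} (hW : ∀ z ∈ W, l < z) (h : ∃ z ∈ W, σ.ccw l z r) :
    ∃ q, σ.Pre W l r q := by
  have hs : (W.filter (fun z => σ.ccw l z r)).Nonempty := by
    obtain ⟨z, hz, hz'⟩ := h
    exact ⟨z, mem_filter.2 ⟨hz, hz'⟩⟩
  obtain ⟨q, hq, hq'⟩ := exists_greatest (W.filter (fun z => σ.ccw l z r)) hs (fun x y => σ.ccw r y x)
    (fun x hx y hy z hz h1 h2 =>
      ax5 (cyc' (mem_filter.1 hz).2) (cyc' (mem_filter.1 hy).2) (cyc' (mem_filter.1 hx).2) h2 h1)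
    (fun x hx y hy hxy => total' (ne23 (mem_filter.1 hy).2).symm (ne23 (mem_filter.1 hx).2).symm hxy.symm)
  exact ⟨q, (mem_filter.1 hq).1, (mem_filter.1 hq).2, fun z hz hne hc => hq' z (mem_filter.2 ⟨hz, hc⟩) hne⟩

theorem Pre_unique {W : Finset ℤ} {l r q q' : ℤ} (h : σ.Pre W l r q) (h' : σ.Pre W l r q') : q = q' := by
  by_contra hne
  exact asymm' (h.2.2 q' h'.1 (fun e => hne e.symm) h'.2.1) (h'.2.2 q h.1 hne h.2.1)

theorem Suf_exists {W : Finset ℤ} {l q : ℤ} (hW : ∀ z ∈ W, l < z) (h : ∃ z ∈ W, σ.ccw l q z) :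
    ∃ r, σ.Suf W l q r := by
  have hs : (W.filter (fun z => σ.ccw l q z)).Nonempty := by
    obtain ⟨z, hz, hz'⟩ := h
    exact ⟨z, mem_filter.2 ⟨hz, hz'⟩⟩
  obtain ⟨r, hr, hr'⟩ := exists_greatest (W.filter (fun z => σ.ccw l q z)) hs (fun x y => σ.ccw y q x)
    (fun x hx y hy z hz h1 h2 => cyc'
      (ax5d (mem_filter.1 hx).2 (mem_filter.1 hy).2 (mem_filter.1 hz).2 (cyc h1) (cyc h2)))
    (fun x hx y hy hxy => (total (ne23 (mem_filter.1 hy).2).symm hxy.symm (ne23 (mem_filter.1 hx).2)).imp id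
      (fun h => cyc' h))
  exact ⟨r, (mem_filter.1 hr).1, (mem_filter.1 hr).2, fun z hz hne hc => hr' z (mem_filter.2 ⟨hz, hc⟩) hne⟩

theorem Suf_unique {W : Finset ℤ} {l q r r' : ℤ} (h : σ.Suf W l q r) (h' : σ.Suf W l q r') : r = r' := by
  by_contra hne
  have h1 : σ.ccw r q r' := h.2.2 r' h'.1 (fun e => hne e.symm) h'.2.1
  have h2 : σ.ccw r' q r := h'.2.2 r h.1 hne h.2.1
  exact asymm' (cyc h1) (cyc (cyc (cyc (cyc h2))))

theorem Pre_lo {l r m w z : ℤ} (h : σ.Good l r m w) (hz : l < z) (hm : z ≠ m) (hz2 : σ.ccw l z r) :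
    σ.ccw r m z := by
  obtain ⟨h1, h2, h3, h4, h5, h6, h7, h8⟩ := h
  have hzr : z ≠ r := ne23 hz2
  rcases lt_or_gt_of_ne hzr with c|c
  · exact (h7 z hz c hm ((ccw_iff1 hz c).1 hz2)).2
  · rw [ccw_iff4 (by omega) (by omega)] at hz2
    rw [ccw_iff6 (by omega) (by omega)]
    have q := four (σ := σ) (a := l) (b := m) (c := r) (d := z) (by omega) (by omega) (by omega)
    grind

theorem Suf_hi {l r m w z : ℤ} (h : σ.Good l r m w) (hz : l < z) (hw : z ≠ w) (hz2 : σ.ccw l r z) :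
    σ.ccw w r z := by
  obtain ⟨h1, h2, h3, h4, h5, h6, h7, h8⟩ := h
  have hzr : z ≠ r := (ne23 hz2).symm
  rcases lt_or_gt_of_ne hzr with c|c
  · exact cyc' (h8 z hz c hw ((ccw_iff4 hz c).1 hz2)).2
  · rw [ccw_iff1 (by omega) (by omega)] at hz2
    rw [ccw_iff1 (by omega) (by omega)]
    have q := four (σ := σ) (a := l) (b := w) (c := r) (d := z) (by omega) (by omega) (by omega)
    grind

end Sig
end ET
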