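import Pool.Agent.Lib.MP_4beb96_co.EMT.XSum
import Pool.Agent.Lib.MP_4beb96_co.EMT.PreSuf

set_option autoImplicit false

/-! EMT-Hull: the total number of facing hull edges is at most `2 n`.

Let `HE l q r` mean: `l < q, r ≤ b`, `ccw l q r`, and every `z ∈ Ioc l b`, `z ≠ q, r`, is far: `ccw r q z`.
hull_inj.  Let `HE l q r` and `HE l' q' r'`, `min q r = min q' r'` =: `x`, and let the side agree: (`q < r` iff `q' < r'`).
  Then `l = l'` and `(q, r) = (q', r')`.
  Proof: let `y = max q r`, `y' = max q' r'`.  Suppose `q < r` (so `x = q`, `y = r`; `l < x < y`, `ccw l x y`; the other points `z` satisfy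
  `ccw y x z`).  If `y ≠ y'`: `y' > x > l`, so `y' ∈ Ioc l b`, `ccw y x y'`; symmetrically `ccw y' x y`: contradiction, since
  `ccw y x y'` gives `ccw y' y x` and `ccw x y' y`, and `ccw y' x y` gives `ccw x y y'`: `asymm'`.  So `y = y'`.  If `l < l'`: `l' ∈ Ioc l b`, `l' < x` so
  `l' ≠ x, y`: `ccw y x l'`; but `ccw l' x y`, i.e. `ccw x y l'`: contradiction (`asymm`).  The same if `l' < l`.
  The case `r < q` is the same with the roles of `q, r` exchanged (`x = r`, `y = q`, far: `ccw x y z`).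
hull_sum: the map `(l, (q, r)) ↦ (min q r, decide (q < r))` is injective on the set of all triples `(l, q, r)`, `a ≤ l ≤ b`, with `HE l q r`, and has values in
  `Icc a b × Bool`; so there are at most `2 (b + 1 - a)` of them.  (for `a ≤ b + 1`; we assume `a ≤ b`) -/

namespace ET
open Finset
open scoped Classical

namespace Sig
variable {σ : Sig}

/-- facing edges of the hull of the points right of `l` -/
noncomputable def HEAt (σ : Sig) (b l : ℤ) : Finset (ℤ × ℤ) :=
  (Ioc l b ×ˢ Ioc l b).filter (fun p => σ.FE (Ioc l b) l p.1 p.2)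

private theorem hull_left {b l l' x y y' : ℤ} (h : σ.FE (Ioc l b) l x y) (h' : σ.FE (Ioc l' b) l' x y')
    (hxy : x < y) (hxy' : x < y') : l = l' ∧ y = y' := by
  obtain ⟨h1, h2, h3, h4⟩ := h
  obtain ⟨g1, g2, g3, g4⟩ := h'
  rw [mem_Ioc] at h1 h2 g1 g2
  have hy : y = y' := by
    by_contra hne
    have k1 := h4 y' (mem_Ioc.2 ⟨by omega, g2.2⟩) (by omega) (fun e => hne e.symm)
    have k2 := g4 y (mem_Ioc.2 ⟨by omega, h2.2⟩) (by omega) hne
    exact asymm' (cyc k1) (cyc k2)
  subst hy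
  refine ⟨?_, rfl⟩
  by_contra hne
  rcases lt_or_gt_of_ne hne with hl | hl
  · have k1 := h4 l' (mem_Ioc.2 ⟨hl, by omega⟩) (by omega) (by omega)
    exact asymm (cyc g3) k1
  · have k1 := g4 l (mem_Ioc.2 ⟨hl, by omega⟩) (by omega) (by omega)
    exact asymm (cyc h3) k1

private theorem hull_right {b l l' x y y' : ℤ} (h : σ.FE (Ioc l b) l y x) (h' : σ.FE (Ioc l' b) l' y' x)
    (hxy : x < y) (hxy' : x < y') : l = l' ∧ y = y' := by
  obtain ⟨h1, h2, h3, h4⟩ := h
  obtain ⟨g1, g2, g3, g4⟩ := h'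
  rw [mem_Ioc] at h1 h2 g1 g2
  have hy : y = y' := by
    by_contra hne
    have k1 := h4 y' (mem_Ioc.2 ⟨by omega, g1.2⟩) (fun e => hne e.symm) (by omega)
    have k2 := g4 y (mem_Ioc.2 ⟨by omega, h1.2⟩) hne (by omega)
    exact asymm' k1 k2
  subst hy
  refine ⟨?_, rfl⟩
  by_contra hne
  rcases lt_or_gt_of_ne hne with hl | hl
  · have k1 := h4 l' (mem_Ioc.2 ⟨hl, by omega⟩) (by omega) (by omega)
    exact asymm (cyc g3) k1
  · have k1 := g4 l (mem_Ioc.2 ⟨hl, by omega⟩) (by omega) (by omega)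
    exact asymm (cyc h3) k1

theorem hull_sum {a b : ℤ} (hab : a ≤ b) : ∑ l ∈ Icc a b, ((σ.HEAt b l).card : ℤ) ≤ 2 * (b + 1 - a) := by
  have hc : ∑ l ∈ Icc a b, (σ.HEAt b l).card ≤ (Icc a b ×ˢ (univ : Finset Bool)).card := by
    rw [← card_sigma]
    refine card_le_card_of_injOn
      (fun t : (_ : ℤ) × ℤ × ℤ => (min t.2.1 t.2.2, decide (t.2.1 < t.2.2))) ?_ ?_
    · rintro ⟨l, q, r⟩ ht
      rw [mem_coe, mem_sigma] at ht
      simp only [HEAt, mem_filter, mem_product, mem_Ioc, mem_Icc] at ht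
      rw [mem_coe, mem_product]
      refine ⟨mem_Icc.2 ?_, mem_univ _⟩
      show a ≤ min q r ∧ min q r ≤ b
      omega
    · rintro ⟨l, q, r⟩ ht ⟨l', q', r'⟩ ht' he
      rw [mem_coe, mem_sigma] at ht ht'
      simp only [HEAt, mem_filter] at ht ht'
      simp only [Prod.mk.injEq, decide_eq_decide] at he
      obtain ⟨he1, he2⟩ := he
      have f := ht.2.2
      have f' := ht'.2.2
      have n1 : q ≠ r := ne23 f.2.2.1
      have n1' : q' ≠ r' := ne23 f'.2.2.1
      by_cases hq : q < r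
      · have hq' : q' < r' := he2.1 hq
        have e1 : q = q' := by omega
        subst e1
        obtain ⟨e2, e3⟩ := hull_left f f' hq hq'
        subst e2 e3
        rfl
      · have hq' : ¬ q' < r' := fun h => hq (he2.2 h)
        have e1 : r = r' := by omega
        subst e1
        obtain ⟨e2, e3⟩ := hull_right f f' (by omega) (by omega)
        subst e2 e3
        rfl
  have hc2 : (Icc a b ×ˢ (univ : Finset Bool)).card = (b + 1 - a).toNat * 2 := by
    rw [card_product, Int.card_Icc, card_univ, Fintype.card_bool]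
  rw [hc2] at hc
  have hc3 : ((∑ l ∈ Icc a b, (σ.HEAt b l).card : ℕ) : ℤ) ≤ ((b + 1 - a).toNat * 2 : ℕ) := by exact_mod_cast hc
  push_cast at hc3
  have : ((b + 1 - a).toNat : ℤ) = b + 1 - a := Int.toNat_of_nonneg (by omega)
  rw [Int.toNat_of_nonneg (by omega)] at hc3
  linarith

end Sig
end ET
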