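import Pool.Agent.Lib.MP_4beb96_co.EMT.M4

set_option autoImplicit false

/-! EMT-ImpB: the number of `k`-improper pairs: `k Imp ≤ k NG + 2 n (NG + T)`, `n = b + 1 - a`.

A pair `l < r` that is good and improper satisfies `min lo hi - l ≥ k` or `r - max lo hi ≥ k`: for a good pair, `lo ≠ hi` (`¬ U l lo r`, `U l hi r`); if `lo < hi` then not
`PL k l r` gives `lo - l ≥ k` or `r - hi ≥ k`; if `hi < lo` then not `σ.flip.PL k l r` gives (`lo_flip`, `hi_flip`, `good_flip`) `hi - l ≥ k` or `r - lo ≥ k`.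
All the terms `min lo hi - l`, `r - max lo hi` of `disp_i`, `disp_j` are nonnegative (indeed positive), so
`k #{good, min lo hi - l ≥ k} ≤ n (NG + T)` and the same for `j`. -/

namespace ET
open Finset
open scoped Classical

namespace Sig
variable {σ : Sig}

private theorem ImpB_card (F : Finset (ℤ × ℤ)) (f : ℤ × ℤ → ℤ) (k C : ℤ) (h0 : ∀ p ∈ F, 0 ≤ f p)
    (hs : ∑ p ∈ F, f p ≤ C) : k * ((F.filter (fun p => k ≤ f p)).card : ℤ) ≤ C := by
  have h1 : ∑ p ∈ F.filter (fun p => k ≤ f p), k ≤ ∑ p ∈ F.filter (fun p => k ≤ f p), f p :=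
    Finset.sum_le_sum (fun p hp => (Finset.mem_filter.1 hp).2)
  have h2 : ∑ p ∈ F.filter (fun p => k ≤ f p), f p ≤ ∑ p ∈ F, f p :=
    Finset.sum_le_sum_of_subset_of_nonneg (Finset.filter_subset _ _) (fun p hp _ => h0 p hp)
  rw [Finset.sum_const, nsmul_eq_mul] at h1
  have h3 : k * ((F.filter (fun p => k ≤ f p)).card : ℤ) = ((F.filter (fun p => k ≤ f p)).card : ℤ) * k := mul_comm _ _
  rw [h3]
  exact h1.trans (h2.trans hs)

private theorem ImpB_good {l r : ℤ} (h : σ.good l r) :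
    l < σ.lo l r ∧ σ.lo l r < r ∧ l < σ.hi l r ∧ σ.hi l r < r ∧ σ.lo l r ≠ σ.hi l r := by
  have hg := Good_choose h
  obtain ⟨h1, h2, h3, h4, h5, h6, -, -⟩ := hg
  refine ⟨h1, h2, h3, h4, ?_⟩
  intro he
  rw [he] at h5
  exact h5 h6

private theorem ImpB_cases {k l r : ℤ} (h : σ.good l r) (h1 : ¬ σ.PL k l r) (h2 : ¬ σ.flip.PL k l r) :
    k ≤ min (σ.lo l r) (σ.hi l r) - l ∨ k ≤ r - max (σ.lo l r) (σ.hi l r) := by
  obtain ⟨-, -, -, -, hne⟩ := ImpB_good h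
  unfold PL at h1 h2
  rw [good_flip, lo_flip h, hi_flip h] at h2
  rcases lt_or_gt_of_ne hne with hlt | hgt
  · rw [min_eq_left hlt.le, max_eq_right hlt.le]
    by_contra hc
    push Not at hc
    exact h1 ⟨h, hlt, hc.1, hc.2⟩
  · rw [min_eq_right hgt.le, max_eq_left hgt.le]
    by_contra hc
    push Not at hc
    exact h2 ⟨h, hgt, hc.1, hc.2⟩

theorem Imp_le {k a b : ℤ} (hk : 1 ≤ k) (hab : a ≤ b) :
    k * (σ.Imp k a b : ℤ) ≤ k * (σ.NG a b : ℤ) + 2 * (b + 1 - a) * ((σ.NG a b : ℤ) + σ.T a b) := by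
  set F : Finset (ℤ × ℤ) := (pairs a b).filter (fun p => σ.good p.1 p.2) with hF
  have hi1 := ImpB_card F (fun p => min (σ.lo p.1 p.2) (σ.hi p.1 p.2) - p.1) k _
    (fun p hp => by
      have hp2 : σ.good p.1 p.2 := (Finset.mem_filter.1 hp).2
      obtain ⟨u1, u2, u3, u4, u5⟩ := ImpB_good hp2
      have := lt_min u1 u3
      omega) (disp_i (σ := σ) hab)
  have hi2 := ImpB_card F (fun p => p.2 - max (σ.lo p.1 p.2) (σ.hi p.1 p.2)) k _
    (fun p hp => by
      have hp2 : σ.good p.1 p.2 := (Finset.mem_filter.1 hp).2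
      obtain ⟨u1, u2, u3, u4, u5⟩ := ImpB_good hp2
      have := max_lt u2 u4
      omega) (disp_j (σ := σ) hab)
  have hsub : (pairs a b).filter (fun p => ¬ σ.PL k p.1 p.2 ∧ ¬ σ.flip.PL k p.1 p.2) ⊆
      (pairs a b).filter (fun p => ¬ σ.good p.1 p.2) ∪
        (F.filter (fun p => k ≤ min (σ.lo p.1 p.2) (σ.hi p.1 p.2) - p.1) ∪
          F.filter (fun p => k ≤ p.2 - max (σ.lo p.1 p.2) (σ.hi p.1 p.2))) := by
    intro p hp
    obtain ⟨hp0, hp1, hp2⟩ := Finset.mem_filter.1 hp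
    by_cases hg : σ.good p.1 p.2
    · have hpF : p ∈ F := Finset.mem_filter.2 ⟨hp0, hg⟩
      rcases ImpB_cases hg hp1 hp2 with h | h
      · exact Finset.mem_union_right _ (Finset.mem_union_left _ (Finset.mem_filter.2 ⟨hpF, h⟩))
      · exact Finset.mem_union_right _ (Finset.mem_union_right _ (Finset.mem_filter.2 ⟨hpF, h⟩))
    · exact Finset.mem_union_left _ (Finset.mem_filter.2 ⟨hp0, hg⟩)
  have hc := (Finset.card_le_card hsub).trans ((Finset.card_union_le _ _).trans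
    (Nat.add_le_add_left (Finset.card_union_le _ _) _))
  have hImp : (σ.Imp k a b : ℤ) ≤ (σ.NG a b : ℤ) +
      (((F.filter (fun p => k ≤ min (σ.lo p.1 p.2) (σ.hi p.1 p.2) - p.1)).card : ℤ) +
        ((F.filter (fun p => k ≤ p.2 - max (σ.lo p.1 p.2) (σ.hi p.1 p.2))).card : ℤ)) := by
    exact_mod_cast hc
  have hk0 : (0 : ℤ) ≤ k := by omega
  have h3 := mul_le_mul_of_nonneg_left hImp hk0
  rw [mul_add, mul_add] at h3
  beta_reduce at hi1 hi2
  calc k * (σ.Imp k a b : ℤ) ≤ _ := h3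
    _ ≤ k * (σ.NG a b : ℤ) + ((b + 1 - a) * ((σ.NG a b : ℤ) + σ.T a b) + (b + 1 - a) * ((σ.NG a b : ℤ) + σ.T a b)) :=
      add_le_add le_rfl (add_le_add hi1 hi2)
    _ = _ := by ring

end Sig
end ET
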