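import Pool.Agent.Lib.MP_4beb96_co.EMT.XSum

set_option autoImplicit false

/-! EMT-XSumB: three ways to sum.

X_eq_sum_Vis: `X = ∑_l #Vis(l)`.  `XSet a b` is in bijection with the set `V` of the triples `(l, q, r)` in `trip a b` with `l < q`, `l < r`,
`ccw l q r`, `Emp l q r`: send `(l, m, r)` (`l < m < r`) to itself if `ccw l m r` and to `(l, r, m)` otherwise (`total'`);
inverse `(l, q, r) ↦ (l, min q r, max q r)` (`Emp_swap'`).  Then sort `V` by `l` (`card_eq_sum_card_fiberwise` or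
`card_sigma`).  For `l ∈ Icc a b` the fibre is `Vis b l` (its members are in `Ioc l b`).
X_eq_sum_A: sort `XSet` by `(t.1, t.2.2) ∈ pairs a b`; the fibre of `(l, r)` is in bijection with
`(Ioo l r).filter (Emp l · r)`, which is the disjoint union of `AU l r` and `AL l r`.
S_eq_sum: sort `SSet` by the pivot `t.1` (`mem_SSet`). -/

namespace ET
open Finset
open scoped Classical

namespace Sig
variable {σ : Sig}

theorem X_eq_sum_A {a b : ℤ} : σ.X a b = ∑ p ∈ pairs a b, ((σ.AU p.1 p.2).card + (σ.AL p.1 p.2).card) := by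
  have H : Set.MapsTo (fun t : ℤ × ℤ × ℤ => (t.1, t.2.2)) (σ.XSet a b : Set (ℤ × ℤ × ℤ))
      (pairs a b : Set (ℤ × ℤ)) := by
    rintro ⟨x, y, z⟩ h
    rw [mem_coe] at h ⊢
    rw [mem_pairs]
    simp only [XSet, mem_filter, mem_trip] at h
    refine ⟨h.1.1.1, ?_, h.1.2.2.2⟩
    show x < z
    omega
  unfold X
  rw [card_eq_sum_card_fiberwise H]
  refine sum_congr rfl ?_
  rintro ⟨l, r⟩ hp
  rw [mem_pairs] at hp
  simp only [] at hp ⊢
  have h1 : ((Ioo l r).filter (fun m => σ.Emp l m r)).card = (σ.AU l r).card + (σ.AL l r).card := by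
    rw [← card_filter_add_card_filter_not (s := (Ioo l r).filter (fun m => σ.Emp l m r)) (fun m => σ.U l m r)]
    congr 1
    · congr 1
      ext m
      simp only [AU, mem_filter]
      tauto
    · congr 1
      ext m
      simp only [AL, mem_filter]
      tauto
  rw [← h1]
  refine card_bij (fun t _ => t.2.1) ?_ ?_ ?_
  · rintro ⟨x, y, z⟩ h
    simp only [XSet, mem_filter, mem_trip, Prod.mk.injEq] at h
    obtain ⟨⟨_, h2, h3, h4⟩, h5, h6⟩ := h
    subst h5; subst h6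
    simp only [mem_filter, mem_Ioo]
    exact ⟨⟨h2, h3⟩, h4⟩
  · rintro ⟨x, y, z⟩ h ⟨x', y', z'⟩ h' e
    simp only [mem_filter, Prod.mk.injEq] at h h'
    simp only [] at e
    obtain ⟨_, h5, h6⟩ := h
    obtain ⟨_, h5', h6'⟩ := h'
    rw [h5, h6, h5', h6', e]
  · intro m hm
    simp only [mem_filter, mem_Ioo] at hm
    refine ⟨(l, m, r), ?_, rfl⟩
    simp only [XSet, mem_filter, mem_trip]
    exact ⟨⟨⟨⟨hp.1, by omega⟩, ⟨by omega, by omega⟩, by omega, hp.2.2⟩, hm.1.1, hm.1.2, hm.2⟩, trivial⟩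

theorem S_eq_sum {a b : ℤ} : σ.S a b = ∑ l ∈ Icc a b, (σ.SAt b l).card := by
  have H : Set.MapsTo (fun t : ℤ × ℤ × ℤ => t.1) (σ.SSet a b : Set (ℤ × ℤ × ℤ))
      (Icc a b : Set ℤ) := by
    rintro ⟨x, y, z⟩ h
    rw [mem_coe, mem_SSet] at h
    have h2 := h.1
    have h3 := h.2.1
    have h4 := h.2.2.2.1
    simp only [] at h2 h3 h4
    simp only [coe_Icc, Set.mem_Icc]
    omega
  unfold S
  rw [card_eq_sum_card_fiberwise H]
  refine sum_congr rfl (fun l hl => ?_)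
  rw [mem_Icc] at hl
  refine card_bij (fun t _ => t.2) ?_ ?_ ?_
  · rintro ⟨x, y, z⟩ h
    rw [mem_filter, mem_SSet] at h
    obtain ⟨⟨_, h2⟩, h3⟩ := h
    simp only [] at h2 h3 ⊢
    subst h3
    simp only [SAt, mem_filter, mem_product, mem_Ioc]
    have q1 := h2.1; have q2 := h2.2.1; have q3 := h2.2.2.1; have q4 := h2.2.2.2.1
    exact ⟨⟨⟨q1, q3⟩, q2, q4⟩, h2⟩
  · rintro ⟨x, y⟩ h ⟨x', y'⟩ h' e
    rw [mem_filter] at h h'
    have e1 := h.2
    have e2 := h'.2
    simp only [] at e e1 e2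
    rw [e, e1, e2]
  · rintro ⟨y, z⟩ hm
    simp only [SAt, mem_filter, mem_product, mem_Ioc] at hm
    refine ⟨(l, y, z), ?_, rfl⟩
    rw [mem_filter, mem_SSet]
    exact ⟨⟨hl.1, hm.2⟩, rfl⟩

end Sig
end ET
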