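import Pool.Agent.Lib.MP_4beb96_co.EMT.TanB
import Pool.Agent.Lib.MP_4beb96_co.EMT.XSumB
import Pool.Agent.Lib.MP_4beb96_co.EMT.Hull

set_option autoImplicit false

/-! EMT-L1: the basic identity `X = n^2 - O(n) + S`.

At each pivot `l` with `l < b`: by `Vis_split`, `#Vis = #(A0 ∪ B0) + #SAt = #A0 + #B0 - #(A0 ∩ B0) + #SAt
  = 2 (b - l - 1) - #(A0 ∩ B0) + #SAt`; `A0 ∩ B0 ⊆ HEAt` (a visible pair with no near `z` before `q` or after `r`, and none
  between by emptiness: for `z ∈ Ioc l b`, `z ≠ q, r`: if not far then `ccw q r z`; by `total'` for `l, z, q` and `l, z, r`: `z` is before `q`, after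
  `r`, or between (inside the triangle)).  For `l = b`: `Vis = ∅` and `SAt = ∅`.
X_le: sum over `l ∈ Icc a b` (`X_eq_sum_Vis`, `S_eq_sum`) and drop `#(A0 ∩ B0)`: `∑_{l=a}^{b-1} 2 (b - l - 1) = (b - a)(b - a - 1)`
  (induction, e.g. on `n` with `b = a + n`, or `Finset.sum_range_id_mul_two`).
X_ge: the same with `∑ #(A0 ∩ B0) ≤ ∑ #HEAt ≤ 2 (b + 1 - a)` (`hull_sum`).
S_mir_le: `X_ge` for `σ.mir` and `X_le` for `σ`, `X_mir`. -/

namespace ET
open Finset
open scoped Classical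

namespace Sig
variable {σ : Sig}

private theorem L1_sub {b l : ℤ} : σ.A0 b l ∩ σ.B0 b l ⊆ σ.HEAt b l := by
  rintro ⟨q, r⟩ h
  rw [mem_inter] at h
  simp only [A0, B0, Vis, HEAt, mem_filter, mem_product] at h ⊢
  obtain ⟨⟨⟨⟨hq, hr⟩, hc, hE⟩, hA⟩, _, hB⟩ := h
  refine ⟨⟨hq, hr⟩, hq, hr, hc, ?_⟩
  intro z hz hzq hzr
  rw [mem_Ioc] at hz hq hr
  have n1 : q ≠ r := ne23 hc
  rcases total (σ := σ) (a := r) (b := q) (c := z) (fun e => n1 e.symm) (fun e => hzr e.symm)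
    (fun e => hzq e.symm) with h1 | h1
  · exact h1
  exfalso
  rcases total' (σ := σ) (a := l) (b := z) (c := q) (by omega) (by omega) hzq with h2 | h2
  · exact hA ⟨z, hz.1, hz.2, h2, h1⟩
  rcases total' (σ := σ) (a := l) (b := r) (c := z) (by omega) (by omega) (fun e => hzr e.symm) with h3 | h3
  · exact hB ⟨z, hz.1, hz.2, h3, h1⟩
  exact hE z (Or.inl ⟨h2, h1, cyc' h3⟩)

private theorem L1_vis {b l : ℤ} (h : l ≤ b) :
    ((σ.Vis b l).card : ℤ) + ((σ.A0 b l ∩ σ.B0 b l).card : ℤ) =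
      (if l < b then 2 * (b - l - 1) else 0) + ((σ.SAt b l).card : ℤ) := by
  have hs := (Vis_split (σ := σ) (b := b) (l := l))
  have h1 : (σ.Vis b l).card = (σ.A0 b l ∪ σ.B0 b l).card + (σ.SAt b l).card := by
    conv_lhs => rw [hs.1]
    exact card_union_of_disjoint hs.2
  have h2 := card_union_add_card_inter (σ.A0 b l) (σ.B0 b l)
  by_cases hlb : l < b
  · rw [if_pos hlb]
    have h3 := A0_card (σ := σ) hlb
    have h4 := B0_card (σ := σ) hlb
    zify at h1 h2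
    linarith
  · rw [if_neg hlb]
    have hl : l = b := by omega
    subst hl
    have h3 : σ.Vis l l = ∅ := by
      unfold Vis
      rw [Ioc_self]
      simp
    have h4 : (σ.A0 l l).card = 0 := by
      unfold A0
      rw [h3, filter_empty, card_empty]
    have h5 : (σ.B0 l l).card = 0 := by
      unfold B0
      rw [h3, filter_empty, card_empty]
    zify at h1 h2 h4 h5
    have h6 := card_le_card (inter_subset_left (s₁ := σ.A0 l l) (s₂ := σ.B0 l l))
    zify at h6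
    have h7 : (0 : ℤ) ≤ ((σ.A0 l l ∩ σ.B0 l l).card : ℤ) := Int.natCast_nonneg _
    have h8 : (0 : ℤ) ≤ ((σ.A0 l l ∪ σ.B0 l l).card : ℤ) := Int.natCast_nonneg _
    linarith

private theorem L1_sum_aux (n : ℕ) : ∀ a : ℤ, ∑ l ∈ Icc a (a + n), (if l < a + n then 2 * (a + n - l - 1) else 0) =
    (n : ℤ) * (n - 1) := by
  induction n with
  | zero => intro a; simp
  | succ n ih =>
    intro a
    have h1 : Icc a (a + ((n + 1 : ℕ) : ℤ)) = insert a (Icc (a + 1) (a + 1 + n)) := by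
      ext x
      simp only [mem_Icc, mem_insert]
      push_cast
      omega
    rw [h1, sum_insert (by simp only [mem_Icc]; omega)]
    have h2 : a + ((n + 1 : ℕ) : ℤ) = a + 1 + n := by push_cast; ring
    rw [h2, ih (a + 1), if_pos (by omega)]
    push_cast
    ring

private theorem L1_sum {a b : ℤ} (hab : a ≤ b) :
    ∑ l ∈ Icc a b, (if l < b then 2 * (b - l - 1) else 0) = (b - a) * (b - a - 1) := by
  obtain ⟨n, hn⟩ := Int.eq_ofNat_of_zero_le (show 0 ≤ b - a by omega)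
  have hb : b = a + n := by omega
  subst hb
  rw [L1_sum_aux n a]
  ring

private theorem L1_total {a b : ℤ} (hab : a ≤ b) :
    (σ.X a b : ℤ) + ∑ l ∈ Icc a b, ((σ.A0 b l ∩ σ.B0 b l).card : ℤ) = (b - a) * (b - a - 1) + σ.S a b := by
  rw [X_eq_sum_Vis, S_eq_sum, ← L1_sum hab]
  push_cast
  rw [← sum_add_distrib, ← sum_add_distrib]
  refine sum_congr rfl (fun l hl => ?_)
  rw [mem_Icc] at hl
  exact L1_vis hl.2

theorem X_le {a b : ℤ} (hab : a ≤ b) : (σ.X a b : ℤ) ≤ (b - a) * (b - a - 1) + σ.S a b := by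
  have h := L1_total (σ := σ) hab
  have h1 : (0 : ℤ) ≤ ∑ l ∈ Icc a b, ((σ.A0 b l ∩ σ.B0 b l).card : ℤ) :=
    sum_nonneg (fun _ _ => Int.natCast_nonneg _)
  linarith

theorem X_ge {a b : ℤ} (hab : a ≤ b) : (b - a) * (b - a - 1) + σ.S a b ≤ (σ.X a b : ℤ) + 2 * (b + 1 - a) := by
  have h := L1_total (σ := σ) hab
  have h1 : ∑ l ∈ Icc a b, ((σ.A0 b l ∩ σ.B0 b l).card : ℤ) ≤ ∑ l ∈ Icc a b, ((σ.HEAt b l).card : ℤ) :=
    sum_le_sum (fun _ _ => by exact_mod_cast card_le_card L1_sub)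
  have h2 := hull_sum (σ := σ) hab
  linarith

theorem S_mir_le {a b : ℤ} (hab : a ≤ b) : (σ.mir.S (-b) (-a) : ℤ) ≤ σ.S a b + 2 * (b + 1 - a) := by
  have h1 := X_ge (σ := σ.mir) (a := -b) (b := -a) (by omega)
  have h2 := X_le (σ := σ) hab
  rw [X_mir] at h1
  have e1 : (-a - -b) * (-a - -b - 1) = (b - a) * (b - a - 1) := by ring
  rw [e1] at h1
  linarith

end Sig
end ET
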