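import Pool.Agent.Lib.MP_4beb96_co.EMT.L2A

set_option autoImplicit false

/-! EMT-L2: `∑ over the pairs with both sides nonempty of ((u-1) + (d-1)) ≤ S`.

Fix a pair `l < r` in `[a, b]` with both sides nonempty.
(up) Let `m ∈ AU l r` such that some other `m' ∈ AU l r` has `ccw l m m'` (i.e. `m` is not the last one in `<_l`).  Then `SE b l r m`:
  `ccw l r m` (`U l m r`, `ccw_iff4`), `Emp l r m` (`Emp_swap'`);
  earlier near point: a `z` with `l < z < r`, `¬ U l z r` (exists as `¬ NoLow`... careful: `¬ NoLow l r` means exactly that some `z` in between has `¬ U l z r`):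
   `ccw l z r` and near: `ccw r m z`: `z` below `l r` and `m` above.  Proof: `z ≠ m`.  If not, `ccw m r z` (total).  Then `z`: `ccw l z r` i.e. `ccw r l z`, ... :
   4-point fact for `l, z, m, r`, all `z, m` between `l` and `r`: at the pivot `r`, all the points `l, z, m` are to the left; `ccw r m l` (from `ccw l r m`), `ccw r l z` (from `ccw l z r`), hence
   `ccw r m z` by `trR`.  OK.
  later near point: `m'`: `ccw l m m'` and near `ccw r m m'`: otherwise `ccw m r m'`, and with `ccw l m m'`,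
   `ccw r l m'` (from `ccw l r m'`) the point `m'`... : we use emptiness of the triangle `l r m'`: suppose `ccw m r m'`, i.e. `ccw r m' m`.
   Then `m` is inside the triangle `l r m'`: `ccw l r m`, `ccw r m' m`, `ccw m' l m` (from `ccw l m m'`); contradiction to `Emp l r m'` (`Emp_iff`).
  So at least `#AU - 1` elements `m ∈ AU l r` have `SE b l r m` (all but the greatest element for `<_l`, `exists_greatest`).
(low) The same for `AL`: at least `#AL - 1` elements `m ∈ AL l r` have `SE b l m r`: apply (up) to `flip` (`AU_flip`, `SE_flip`, `NoUp_flip`, `NoLow_flip`).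
Sum: the elements `(l, r, m)` (`m < r`, first kind) and `(l, m, r)` (`m < r`, second kind) of `SSet a b` are all different for
different `(l, r)`, `m` and kind: the first kind has `t.2.2 < t.2.1`, the second has `t.2.1 < t.2.2`.  Hence the sum is `≤ S`. -/

namespace ET
open Finset
open scoped Classical

namespace Sig
variable {σ : Sig}

theorem L2_pair_low {b l r : ℤ} (hr : r ≤ b) (hup : ¬ σ.NoUp l r) :
    (σ.AL l r).card - 1 ≤ ((Ioo l r).filter (fun m => σ.SE b l m r)).card := by
  have h := L2_pair (σ := σ.flip) hr (fun h => hup (NoLow_flip.1 h))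
  rw [AU_flip] at h
  simpa only [SE_flip] using h

theorem L2 {a b : ℤ} :
    ∑ p ∈ (pairs a b).filter (fun p => ¬ σ.NoUp p.1 p.2 ∧ ¬ σ.NoLow p.1 p.2),
      (((σ.AU p.1 p.2).card - 1) + ((σ.AL p.1 p.2).card - 1)) ≤ σ.S a b := by
  set Q := (pairs a b).filter (fun p => ¬ σ.NoUp p.1 p.2 ∧ ¬ σ.NoLow p.1 p.2) with hQ
  have hQm : ∀ p ∈ Q, a ≤ p.1 ∧ p.1 < p.2 ∧ p.2 ≤ b ∧ ¬ σ.NoUp p.1 p.2 ∧ ¬ σ.NoLow p.1 p.2 := by
    intro p hp
    rw [hQ, mem_filter, mem_pairs] at hp
    exact ⟨hp.1.1, hp.1.2.1, hp.1.2.2, hp.2.1, hp.2.2⟩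
  have h1 : ∑ p ∈ Q, ((σ.AU p.1 p.2).card - 1) ≤ ((σ.SSet a b).filter (fun t => t.2.2 < t.2.1)).card := by
    calc ∑ p ∈ Q, ((σ.AU p.1 p.2).card - 1)
        ≤ ∑ p ∈ Q, ((Ioo p.1 p.2).filter (fun m => σ.SE b p.1 p.2 m)).card :=
          sum_le_sum (fun p hp => L2_pair (hQm p hp).2.2.1 (hQm p hp).2.2.2.2)
      _ = (Q.sigma (fun p => (Ioo p.1 p.2).filter (fun m => σ.SE b p.1 p.2 m))).card := (card_sigma _ _).symm
      _ ≤ _ := by
          refine card_le_card_of_injOn (fun x => (x.1.1, x.1.2, x.2)) ?_ ?_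
          · rintro ⟨⟨l, r⟩, m⟩ hx
            have hx := mem_coe.1 hx
            rw [mem_sigma] at hx
            have := hQm _ hx.1
            have hx2 := (mem_filter.1 hx.2)
            have hx3 := mem_Ioo.1 hx2.1
            apply mem_coe.2
            rw [mem_filter, mem_SSet]
            exact ⟨⟨this.1, hx2.2⟩, hx3.2⟩
          · rintro ⟨⟨l, r⟩, m⟩ _ ⟨⟨l', r'⟩, m'⟩ _ h
            simp only [Prod.mk.injEq] at h
            obtain ⟨rfl, rfl, rfl⟩ := h
            rfl
  have h2 : ∑ p ∈ Q, ((σ.AL p.1 p.2).card - 1) ≤ ((σ.SSet a b).filter (fun t => ¬ t.2.2 < t.2.1)).card := by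
    calc ∑ p ∈ Q, ((σ.AL p.1 p.2).card - 1)
        ≤ ∑ p ∈ Q, ((Ioo p.1 p.2).filter (fun m => σ.SE b p.1 m p.2)).card :=
          sum_le_sum (fun p hp => L2_pair_low (hQm p hp).2.2.1 (hQm p hp).2.2.2.1)
      _ = (Q.sigma (fun p => (Ioo p.1 p.2).filter (fun m => σ.SE b p.1 m p.2))).card := (card_sigma _ _).symm
      _ ≤ _ := by
          refine card_le_card_of_injOn (fun x => (x.1.1, x.2, x.1.2)) ?_ ?_
          · rintro ⟨⟨l, r⟩, m⟩ hx
            have hx := mem_coe.1 hx
            rw [mem_sigma] at hx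
            have := hQm _ hx.1
            have hx2 := (mem_filter.1 hx.2)
            have hx3 := mem_Ioo.1 hx2.1
            apply mem_coe.2
            rw [mem_filter, mem_SSet]
            have h3 := hx3.2
            exact ⟨⟨this.1, hx2.2⟩, not_lt.2 h3.le⟩
          · rintro ⟨⟨l, r⟩, m⟩ _ ⟨⟨l', r'⟩, m'⟩ _ h
            simp only [Prod.mk.injEq] at h
            obtain ⟨rfl, rfl, rfl⟩ := h
            rfl
  rw [sum_add_distrib]
  unfold S
  rw [← card_filter_add_card_filter_not (s := σ.SSet a b) (fun t => t.2.2 < t.2.1)]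
  exact add_le_add h1 h2

end Sig
end ET
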