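import Pool.Agent.Lib.MP_4beb96_co.EMT.Sym

set_option autoImplicit false

/-! EMT-XSum: three ways to sum.

X_eq_sum_Vis: `X = ∑_l #Vis(l)`.  `XSet a b` is in bijection with the set `V` of the triples `(l, q, r)` in `trip a b` with `l < q`, `l < r`,
`ccw l q r`, `Emp l q r`: send `(l, m, r)` (`l < m < r`) to itself if `ccw l m r` and to `(l, r, m)` otherwise (`total'`);
inverse `(l, q, r) ↦ (l, min q r, max q r)` (`Emp_swap'`).  Then sort `V` by `l` (`card_eq_sum_card_fiberwise` or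
`card_sigma`).  For `l ∈ Icc a b` the fibre is `Vis b l` (its members are in `Ioc l b`).
X_eq_sum_A: sort `XSet` by `(t.1, t.2.2) ∈ pairs a b`; the fibre of `(l, r)` is in bijection with
`(Ioo l r).filter (Emp l · r)`, which is the disjoint union of `AU l r` and `AL l r`.
S_eq_sum: sort `SSet` by the pivot `t.1` (`mem_SSet`). -/

namespace ET
open Finset
open scoped Classical

namespace Sig
variable {σ : Sig}

/-- visible pairs at the pivot `l` -/
noncomputable def Vis (σ : Sig) (b l : ℤ) : Finset (ℤ × ℤ) :=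
  (Ioc l b ×ˢ Ioc l b).filter (fun p => σ.ccw l p.1 p.2 ∧ σ.Emp l p.1 p.2)

/-- S-elements at the pivot `l` -/
noncomputable def SAt (σ : Sig) (b l : ℤ) : Finset (ℤ × ℤ) :=
  (Ioc l b ×ˢ Ioc l b).filter (fun p => σ.SE b l p.1 p.2)

theorem X_eq_sum_Vis {a b : ℤ} : σ.X a b = ∑ l ∈ Icc a b, (σ.Vis b l).card := by
  set V : Finset (ℤ × ℤ × ℤ) := (trip a b).filter
    (fun t => t.1 < t.2.1 ∧ t.1 < t.2.2 ∧ σ.ccw t.1 t.2.1 t.2.2 ∧ σ.Emp t.1 t.2.1 t.2.2) with hV
  have e1 : σ.X a b = V.card := by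
    unfold X XSet
    refine card_bij' (fun t _ => if σ.ccw t.1 t.2.1 t.2.2 then t else (t.1, t.2.2, t.2.1))
      (fun t _ => if t.2.1 < t.2.2 then t else (t.1, t.2.2, t.2.1)) ?_ ?_ ?_ ?_
    · rintro ⟨l, m, r⟩ h
      simp only [hV, mem_filter, mem_trip] at h ⊢
      by_cases hc : σ.ccw l m r
      · rw [if_pos hc]
        exact ⟨h.1, h.2.1, lt_trans h.2.1 h.2.2.1, hc, h.2.2.2⟩
      · rw [if_neg hc]
        have hc' : σ.ccw l r m := (total' (by omega) (by omega) (by omega)).resolve_left hc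
        exact ⟨⟨h.1.1, h.1.2.2, h.1.2.1⟩, by simp only []; omega, h.2.1, hc', Emp_swap'.1 h.2.2.2⟩
    · rintro ⟨l, q, r⟩ h
      simp only [hV, mem_filter, mem_trip] at h ⊢
      have hne : q ≠ r := ne23 h.2.2.2.1
      by_cases hc : q < r
      · rw [if_pos hc]
        exact ⟨h.1, h.2.1, hc, h.2.2.2.2⟩
      · rw [if_neg hc]
        exact ⟨⟨h.1.1, h.1.2.2, h.1.2.1⟩, h.2.2.1, by simp only []; omega, Emp_swap'.1 h.2.2.2.2⟩
    · rintro ⟨l, m, r⟩ h
      simp only [mem_filter, mem_trip] at h ⊢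
      by_cases hc : σ.ccw l m r
      · rw [if_pos hc, if_pos h.2.2.1]
      · rw [if_neg hc]
        have hmr : m < r := h.2.2.1
        have : ¬ (r < m) := by omega
        rw [if_neg this]
    · rintro ⟨l, q, r⟩ h
      simp only [hV, mem_filter, mem_trip] at h ⊢
      have hc' : σ.ccw l q r := h.2.2.2.1
      have hne : q ≠ r := ne23 hc'
      by_cases hc : q < r
      · rw [if_pos hc, if_pos hc']
      · rw [if_neg hc]
        rw [if_neg (asymm' hc')]
  have e2 : V.card = ∑ l ∈ Icc a b, (V.filter (fun t => t.1 = l)).card := by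
    refine card_eq_sum_card_fiberwise (fun t ht => ?_)
    have ht' : t ∈ V := ht
    rw [hV, mem_filter, mem_trip] at ht'
    exact mem_Icc.2 ht'.1.1
  rw [e1, e2]
  refine sum_congr rfl (fun l hl => ?_)
  rw [mem_Icc] at hl
  refine card_bij' (fun t _ => t.2) (fun p _ => (l, p)) ?_ ?_ ?_ ?_
  · rintro ⟨l', q, r⟩ h
    simp only [hV, Vis, mem_filter, mem_trip, mem_product, mem_Ioc] at h ⊢
    obtain ⟨⟨h1, h2, h3, h4, h5⟩, rfl⟩ := h
    exact ⟨⟨⟨h2, h1.2.1.2⟩, h3, h1.2.2.2⟩, h4, h5⟩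
  · rintro ⟨q, r⟩ h
    simp only [hV, Vis, mem_filter, mem_trip, mem_product, mem_Ioc] at h ⊢
    obtain ⟨⟨⟨h1, h2⟩, h3, h4⟩, h5, h6⟩ := h
    exact ⟨⟨⟨hl, ⟨by omega, h2⟩, by omega, h4⟩, h1, h3, h5, h6⟩, trivial⟩
  · rintro ⟨l', q, r⟩ h
    simp only [mem_filter] at h
    obtain ⟨_, rfl⟩ := h
    rfl
  · rintro ⟨q, r⟩ _
    rfl

end Sig
end ET
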