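import Pool.Agent.Lib.MP_4beb96_co.EMT.Apex
import Pool.Agent.Lib.MP_4beb96_co.EMT.XSum

set_option autoImplicit false

/-! EMT-L2A: `∑ over the pairs with both sides nonempty of ((u-1) + (d-1)) ≤ S`.

Fix a pair `l < r` in `[a, b]` with both sides nonempty.
(up) Let `m ∈ AU l r` such that some other `m' ∈ AU l r` has `ccw l m m'` (i.e. `m` is not the last one in `<_l`).  Then `SE b l r m`:
  `ccw l r m` (`U l m r`, `ccw_iff4`), `Emp l r m` (`Emp_swap'`);
  earlier near point: a `z` with `l < z < r`, `¬ U l z r` (exists as `¬ NoLow`... careful: `¬ NoLow l r` means exactly that some `z` in between has `¬ U l z r`):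
   `ccw l z r` and near: `ccw r m z`: `z` below `l r` and `m` above.  Proof: `z ≠ m`.  If not, `ccw m r z` (total).  Then `z`: `ccw l z r` i.e. `ccw r l z`, ... :
   4-point fact for `l, z, m, r`, all `z, m` between `l` and `r`: at the pivot `r`, all the points `l, z, m` are to the left; `ccw r m l` (from `ccw l r m`), `ccw r l z` (from `ccw l z r`), hence
   `ccw r m z` by `trR`.  OK.
  later near point: `m'`: `ccw l m m'` and near `ccw r m m'`: otherwise `ccw m r m'`, and with `ccw l m m'`,
   `ccw r l m'` (from `ccw l r m'`) the point `m'`... : we use emptiness of the triangle `l r m'`: suppose `ccw m r m'`, i.e. `ccw r m' m`.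
   Then `m` is inside the triangle `l r m'`: `ccw l r m`, `ccw r m' m`, `ccw m' l m` (from `ccw l m m'`); contradiction to `Emp l r m'` (`Emp_iff`).
  So at least `#AU - 1` elements `m ∈ AU l r` have `SE b l r m` (all but the greatest element for `<_l`, `exists_greatest`).
(low) The same for `AL`: at least `#AL - 1` elements `m ∈ AL l r` have `SE b l m r`: apply (up) to `flip` (`AU_flip`, `SE_flip`, `NoUp_flip`, `NoLow_flip`).
Sum: the elements `(l, r, m)` (`m < r`, first kind) and `(l, m, r)` (`m < r`, second kind) of `SSet a b` are all different for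
different `(l, r)`, `m` and kind: the first kind has `t.2.2 < t.2.1`, the second has `t.2.1 < t.2.2`.  Hence the sum is `≤ S`. -/

namespace ET
open Finset
open scoped Classical

namespace Sig
variable {σ : Sig}

theorem SE_of_AU {b l r m m' : ℤ} (hr : r ≤ b) (hlow : ¬ σ.NoLow l r) (hm : m ∈ σ.AU l r) (hm' : m' ∈ σ.AU l r)
    (h : σ.ccw l m m') : σ.SE b l r m := by
  unfold AU at hm hm'
  rw [mem_filter, mem_Ioo] at hm hm'
  obtain ⟨⟨h1, h2⟩, hU, hE⟩ := hm
  obtain ⟨⟨h1', h2'⟩, hU', hE'⟩ := hm'
  have hlrm : σ.ccw l r m := (ccw_iff4 h1 h2).2 hU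
  refine ⟨by omega, h1, hr, by omega, hlrm, ?_, ?_, ?_⟩
  · intro z hz
    apply hE z
    unfold Ins at hz ⊢
    tauto
  · unfold NoLow at hlow
    push Not at hlow
    obtain ⟨z, hz1, hz2, hz3⟩ := hlow
    have hlzr : σ.ccw l z r := (ccw_iff1 hz1 hz2).2 hz3
    exact ⟨z, hz1, by omega, hlzr, trR h2 (by omega) hz2 (cyc hlrm) (cyc' hlzr)⟩
  · refine ⟨m', h1', by omega, h, ?_⟩
    rcases total' (σ := σ) (a := r) (b := m) (c := m') (by omega) (by omega) (ne23 h) with h3 | h3
    · exact h3
    · exact absurd (Or.inr ⟨cyc' h, h3, hlrm⟩) (hE' m)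

theorem L2_pair {b l r : ℤ} (hr : r ≤ b) (hlow : ¬ σ.NoLow l r) :
    (σ.AU l r).card - 1 ≤ ((Ioo l r).filter (fun m => σ.SE b l r m)).card := by
  rcases (σ.AU l r).eq_empty_or_nonempty with h0 | h0
  · rw [h0]
    simp
  · obtain ⟨g, hg, hmax⟩ := exists_greatest (σ.AU l r) h0
      (fun x y => σ.ccw l x y)
      (fun x hx y hy z hz h1 h2 => by
        unfold AU at hx hy hz
        rw [mem_filter, mem_Ioo] at hx hy hz
        exact trL hx.1.1 hy.1.1 hz.1.1 h1 h2)
      (fun x hx y hy hxy => by
        unfold AU at hx hy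
        rw [mem_filter, mem_Ioo] at hx hy
        exact total' (ne_of_lt hx.1.1) (ne_of_lt hy.1.1) hxy)
    rw [← card_erase_of_mem hg]
    apply card_le_card
    intro m hm
    rw [mem_erase] at hm
    have hm2 := hm.2
    unfold AU at hm2
    rw [mem_filter, mem_Ioo] at hm2
    rw [mem_filter, mem_Ioo]
    exact ⟨hm2.1, SE_of_AU hr hlow hm.2 hg (hmax m hm.2 hm.1)⟩

end Sig
end ET
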