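import Pool.Agent.Lib.MP_4beb96_co.EMT.Sym

set_option autoImplicit false

/-! EMT-M2: for fixed `r` and `p`, at most one `z` such that `p` is the left one of the two apexes of the good pair `z r`, on a given side.

M2L (side below).  `Good z1 r p w1`, `Good z2 r p w2`, `p < w1`, `p < w2`; suppose `z1 < z2` (symmetric).  So `z1 < z2 < p < w1, w2 < r`.
 p is below `z1 r` and below `z2 r` (`¬ U z1 p r`, `¬ U z2 p r`).
 Case (a) `z2` below `z1 r`: `¬ U z1 z2 r`.  `z2 ≠ p`, so V-shape of `z1 r` gives `ccw r p z2`: with `z2 < p < r`, this is `U z2 p r`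
   (`ccw_iff5`: `ccw r p z2 ↔ U z2 p r`), contradiction.
 Case (b) `z2` above `z1 r`: `U z1 z2 r`.  `z2 ≠ w1` (`z2 < p < w1`).  V-shape of `z1 r` (upper): `ccw r z2 w1`, i.e.
   `¬ U z2 w1 r` for `z2 < w1 < r` (`ccw_iff3`: `ccw r z2 w1 ↔ ¬ U z2 w1 r`).  So `w1` is below `z2 r`, and `w1 ≠ p`, so V-shape of `z2 r` gives
   `ccw r p w1`, i.e. (`p < w1 < r`) `¬ U p w1 r` (`ccw_iff3`).  But `p` is below and `w1` above `z1 r`: `¬ U z1 p r`, `U z1 w1 r`, `z1 < p < w1 < r`: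
   `four`: sequence U(z1 p w1), U(z1 p r), U(z1 w1 r), U(p w1 r) = ?, -, +, -: from `¬ U z1 p r` and `¬ U p w1 r` `n24` gives `¬ U z1 w1 r`, contradiction.
M2U (side above): apply M2L to `flip` (`Good_flip`). -/

namespace ET
namespace Sig
variable {σ : Sig}

private theorem M2L_lt {r z1 z2 p w1 w2 : ℤ} (h1 : σ.Good z1 r p w1) (h2 : σ.Good z2 r p w2) (hp1 : p < w1)
    (hlt : z1 < z2) : False := by
  obtain ⟨a1, a2, a3, a4, a5, a6, a7, a8⟩ := h1
  obtain ⟨b1, b2, b3, b4, b5, b6, b7, b8⟩ := h2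
  by_cases hc : σ.U z1 z2 r
  · have e1 := (a8 z2 hlt (by omega) (by omega) hc).2
    have e2 : ¬ σ.U z2 w1 r := (ccw_iff3 (by omega) (by omega)).1 e1
    have e3 := (b7 w1 (by omega) a4 (by omega) e2).2
    have e4 : ¬ σ.U p w1 r := (ccw_iff3 hp1 a4).1 e3
    exact σ.n24 a1 hp1 a4 a5 e4 a6
  · have e1 := (a7 z2 hlt (by omega) (by omega) hc).2
    exact b5 ((ccw_iff5 (by omega) (by omega)).1 e1)

theorem M2L {r z1 z2 p w1 w2 : ℤ} (h1 : σ.Good z1 r p w1) (h2 : σ.Good z2 r p w2) (hp1 : p < w1) (hp2 : p < w2) :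
    z1 = z2 := by
  rcases lt_trichotomy z1 z2 with h | h | h
  · exact (M2L_lt h1 h2 hp1 h).elim
  · exact h
  · exact (M2L_lt h2 h1 hp2 h).elim

theorem M2U {r z1 z2 p m1 m2 : ℤ} (h1 : σ.Good z1 r m1 p) (h2 : σ.Good z2 r m2 p) (hp1 : p < m1) (hp2 : p < m2) :
    z1 = z2 :=
  M2L (σ := σ.flip) (Good_flip.2 h1) (Good_flip.2 h2) hp1 hp2

end Sig
end ET
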