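import Pool.Agent.Lib.MP_4beb96_co.EMT.M3A

set_option autoImplicit false

/-! EMT-M3: the number of doubly hit `(p, r)` is at most `T`.

M3_geo.  `Good z1 r p q1`, `p < q1`, `Good z2 r m2 p`, `p < m2`, `z1 < z2`.  So `z1 < z2 < p < q1 < r`, `p < m2`.  `p` is below `z1 r`, above `z2 r`; `q1` is above `z1 r`.
 (1) `¬ U z1 z2 r`: from `¬ U z1 p r`, `U z2 p r` (`four` for `z1 < z2 < p < r`: sequence U(z1 z2 p), U(z1 z2 r), U(z1 p r) = -, U(z2 p r) = +: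
     if `U z1 z2 r` then with `U z2 p r`, `p24`: `U z1 p r`, contradiction).
 (2) `¬ U z1 p q1`: `four` for `z1 < p < q1 < r`: U(z1 p q1), U(z1 p r) = -, U(z1 q1 r) = +, U(p q1 r): if `U z1 p q1` then with `U z1 q1 r`, `p13`: `U z1 p r`. Contradiction.
 (3) `Emp z1 p q1`: (`ccw z1 p q1` by (2)).  Let `y` be inside: `ccw z1 p y`, `ccw p q1 y`, `ccw q1 z1 y`; `z1 < y < q1` by `Ins_between`.
     If `U z1 y r` (`y ≠ q1`): V-shape of `z1 r`: `ccw z1 q1 y`, contradiction to `ccw q1 z1 y`.  If `¬ U z1 y r` (`y ≠ p`): V-shape: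
     `ccw z1 y p`, contradiction to `ccw z1 p y` (`asymm'`).
 (4) `¬ U z1 z2 q1`: `four` for `z1 < z2 < q1 < r`: `¬ U z1 z2 r` and `U z1 q1 r`: if `U z1 z2 q1` then `p13`: `U z1 z2 r`, contradiction.
 (5) `ccw q1 z2 p`: `q1` is above `z2 r`: (`four` for `z1 < z2 < q1 < r`: U(z1 z2 q1) = - , U(z1 z2 r) = -, U(z1 q1 r) = +, so `U z2 q1 r`: otherwise `n24` gives `¬ U z1 q1 r`), `q1 ≠ p`,
     so the V-shape of `z2 r` (upper apex `p`) gives `ccw z2 p q1`; cyclic.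
card_far.  For `l < r'`: `#{p ∈ AL l r' | ∃ z, l < z < r', ¬ U l z r', z ≠ p, ccw r' z p} ≤ #AL - 1`: if the set is nonempty, then by
 `exists_AL_right` there is `m ∈ AL l r'` with `ccw r' m z` for all `z ≠ m` below; `m` is not in the set (`ccw r' z m` contradicts `ccw r' m z`).
E_le.  Let `E1` = the `(p, r) ∈ ESet` for which the (unique or chosen) `z1`, `z2` satisfy `z1 < z2`, `E2` = those with `z2 < z1` (`z1 ≠ z2` since `¬ U z1 p r`, `U z2 p r`).  For `(p, r) ∈ E1` choose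
 `z1, q1, z2, m2`; by M3_geo the triple `((z1, q1), p)` belongs to `F = ` the set of all `((l, r'), p)`, `(l, r') ∈ pairs a b`, `p ∈ AL l r'`, `∃ z ...` as in card_far (with
 `z = z2`).  The map `(p, r) ↦ ((z1, q1), p)` is injective: if `Good z1 r p q1` and `Good z1 r' p q1` then `r = r'`: let `r < r'`.
   `r` lies below `z1 r'` (`¬ U z1 r r'`): then `r ≠ p`, so V-shape: `ccw z1 r p`, but `¬ U z1 p r` is `ccw z1 p r`; contradiction.
   `r` lies above `z1 r'`: `r ≠ q1`, V-shape: `ccw z1 q1 r`, but `U z1 q1 r` is `ccw z1 r q1`; contradiction.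
 So `#E1 ≤ #F ≤ ∑_{pairs} (#AL - 1)`.  By `flip` (`Good_flip`, `AL_flip`): `#E2 ≤ ∑_{pairs} (#AU - 1)`.  (Formally: prove the bound for E1 for every σ; E2 of σ is E1 of `σ.flip`.) -/

namespace ET
open Finset
open scoped Classical

namespace Sig
variable {σ : Sig}

/-- `(p, r)` such that `p` is the left apex of two good pairs `z r`, once from below and once from above -/
noncomputable def ESet (σ : Sig) (a b : ℤ) : Finset (ℤ × ℤ) :=
  (pairs a b).filter (fun t => (∃ z w, a ≤ z ∧ σ.Good z t.2 t.1 w ∧ t.1 < w) ∧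
    (∃ z m, a ≤ z ∧ σ.Good z t.2 m t.1 ∧ t.1 < m))

/-- the doubly hit pairs with the lower hit first -/
noncomputable def E1Set (σ : Sig) (a b : ℤ) : Finset (ℤ × ℤ) :=
  (pairs a b).filter (fun t => ∃ s : ℤ × ℤ, ∃ z2 m2, a ≤ s.1 ∧ σ.Good s.1 t.2 t.1 s.2 ∧ t.1 < s.2 ∧
    σ.Good z2 t.2 m2 t.1 ∧ t.1 < m2 ∧ s.1 < z2)

theorem E1_le {a b : ℤ} : (σ.E1Set a b).card ≤ ∑ p ∈ pairs a b, ((σ.AL p.1 p.2).card - 1) := by
  have hex : ∀ t ∈ σ.E1Set a b, ∃ s : ℤ × ℤ, ∃ z2 m2, a ≤ s.1 ∧ σ.Good s.1 t.2 t.1 s.2 ∧ t.1 < s.2 ∧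
    σ.Good z2 t.2 m2 t.1 ∧ t.1 < m2 ∧ s.1 < z2 := fun t ht => (mem_filter.1 ht).2
  choose! g hg using hex
  have h1 : (σ.E1Set a b).card ≤ ((pairs a b).sigma (fun q => (σ.AL q.1 q.2).filter
      (fun p => ∃ z, q.1 < z ∧ z < q.2 ∧ ¬ σ.U q.1 z q.2 ∧ z ≠ p ∧ σ.ccw q.2 z p))).card := by
    refine card_le_card_of_injOn (fun t => (⟨g t, t.1⟩ : Σ _ : ℤ × ℤ, ℤ)) ?_ ?_
    · intro t ht
      have ht' := Finset.mem_coe.1 ht
      obtain ⟨z2, m2, c1, c2, c3, c4, c5, c6⟩ := hg t ht'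
      have hp := mem_pairs.1 (mem_filter.1 ht').1
      obtain ⟨d1, d2, d3, d4⟩ := M3_geo c2 c3 c4 c5 c6
      have e1 := c2.1
      have e2 := c2.2.2.2.1
      have e3 := c2.2.2.1
      refine Finset.mem_coe.2 (mem_sigma.2 ⟨mem_pairs.2 ?_, mem_filter.2 ⟨d1, z2, c6, ?_, d3, ?_, d4⟩⟩)
      · simp only []
        omega
      · simp only []
        omega
      · simp only []
        omega
    · intro t ht t' ht' h
      obtain ⟨z2, m2, c1, c2, c3, c4, c5, c6⟩ := hg t (Finset.mem_coe.1 ht)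
      obtain ⟨z2', m2', c1', c2', c3', c4', c5', c6'⟩ := hg t' (Finset.mem_coe.1 ht')
      have h2 : g t = g t' := congrArg (fun x : (Σ _ : ℤ × ℤ, ℤ) => x.1) h
      have h3 : t.1 = t'.1 := congrArg (fun x : (Σ _ : ℤ × ℤ, ℤ) => x.2) h
      rw [← h2, ← h3] at c2'
      exact Prod.ext h3 (r_unique c2 c2')
  refine h1.trans ?_
  rw [card_sigma]
  exact sum_le_sum (fun q _ => card_far)

theorem E_le {a b : ℤ} : (σ.ESet a b).card ≤ σ.T a b := by
  have hsub : σ.ESet a b ⊆ σ.E1Set a b ∪ σ.flip.E1Set a b := by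
    intro t ht
    obtain ⟨hp, ⟨z1, w, c1, c2, c3⟩, z2, m, d1, d2, d3⟩ := mem_filter.1 ht
    have hne : z1 ≠ z2 := by
      rintro rfl
      exact c2.2.2.2.2.1 d2.2.2.2.2.2.1
    rw [mem_union]
    rcases lt_or_gt_of_ne hne with h | h
    · left
      exact mem_filter.2 ⟨hp, (z1, w), z2, m, c1, c2, c3, d2, d3, h⟩
    · right
      exact mem_filter.2 ⟨hp, (z2, m), z1, w, d1, Good_flip.2 d2, d3, Good_flip.2 c2, c3, h⟩
  have hT : σ.T a b = (∑ p ∈ pairs a b, ((σ.AL p.1 p.2).card - 1)) +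
      ∑ p ∈ pairs a b, ((σ.flip.AL p.1 p.2).card - 1) := by
    unfold T
    rw [← sum_add_distrib]
    refine sum_congr rfl (fun p _ => ?_)
    rw [AL_flip, add_comm]
  rw [hT]
  calc (σ.ESet a b).card ≤ (σ.E1Set a b ∪ σ.flip.E1Set a b).card := card_le_card hsub
    _ ≤ (σ.E1Set a b).card + (σ.flip.E1Set a b).card := card_union_le _ _
    _ ≤ _ := Nat.add_le_add E1_le E1_le

end Sig
end ET
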