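import Pool.Agent.Lib.MP_4beb96_co.EMT.Apex

set_option autoImplicit false

/-! EMT-M3A: the number of doubly hit `(p, r)` is at most `T`.

M3_geo.  `Good z1 r p q1`, `p < q1`, `Good z2 r m2 p`, `p < m2`, `z1 < z2`.  So `z1 < z2 < p < q1 < r`, `p < m2`.  `p` is below `z1 r`, above `z2 r`; `q1` is above `z1 r`.
 (1) `¬ U z1 z2 r`: from `¬ U z1 p r`, `U z2 p r` (`four` for `z1 < z2 < p < r`: sequence U(z1 z2 p), U(z1 z2 r), U(z1 p r) = -, U(z2 p r) = +:
     if `U z1 z2 r` then with `U z2 p r`, `p24`: `U z1 p r`, contradiction).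
 (2) `¬ U z1 p q1`: `four` for `z1 < p < q1 < r`: U(z1 p q1), U(z1 p r) = -, U(z1 q1 r) = +, U(p q1 r): if `U z1 p q1` then with `U z1 q1 r`, `p13`: `U z1 p r`. Contradiction.
 (3) `Emp z1 p q1`: (`ccw z1 p q1` by (2)).  Let `y` be inside: `ccw z1 p y`, `ccw p q1 y`, `ccw q1 z1 y`; `z1 < y < q1` by `Ins_between`.
     If `U z1 y r` (`y ≠ q1`): V-shape of `z1 r`: `ccw z1 q1 y`, contradiction to `ccw q1 z1 y`.  If `¬ U z1 y r` (`y ≠ p`): V-shape:
     `ccw z1 y p`, contradiction to `ccw z1 p y` (`asymm'`).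
 (4) `¬ U z1 z2 q1`: `four` for `z1 < z2 < q1 < r`: `¬ U z1 z2 r` and `U z1 q1 r`: if `U z1 z2 q1` then `p13`: `U z1 z2 r`, contradiction.
 (5) `ccw q1 z2 p`: `q1` is above `z2 r`: (`four` for `z1 < z2 < q1 < r`: U(z1 z2 q1) = - , U(z1 z2 r) = -, U(z1 q1 r) = +, so `U z2 q1 r`: otherwise `n24` gives `¬ U z1 q1 r`), `q1 ≠ p`,
     so the V-shape of `z2 r` (upper apex `p`) gives `ccw z2 p q1`; cyclic.
card_far.  For `l < r'`: `#{p ∈ AL l r' | ∃ z, l < z < r', ¬ U l z r', z ≠ p, ccw r' z p} ≤ #AL - 1`: if the set is nonempty, then by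
 `exists_AL_right` there is `m ∈ AL l r'` with `ccw r' m z` for all `z ≠ m` below; `m` is not in the set (`ccw r' z m` contradicts `ccw r' m z`).
E_le.  Let `E1` = the `(p, r) ∈ ESet` for which the (unique or chosen) `z1`, `z2` satisfy `z1 < z2`, `E2` = those with `z2 < z1` (`z1 ≠ z2` since `¬ U z1 p r`, `U z2 p r`).  For `(p, r) ∈ E1` choose
 `z1, q1, z2, m2`; by M3_geo the triple `((z1, q1), p)` belongs to `F = ` the set of all `((l, r'), p)`, `(l, r') ∈ pairs a b`, `p ∈ AL l r'`, `∃ z ...` as in card_far (with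
 `z = z2`).  The map `(p, r) ↦ ((z1, q1), p)` is injective: if `Good z1 r p q1` and `Good z1 r' p q1` then `r = r'`: let `r < r'`.
   `r` lies below `z1 r'` (`¬ U z1 r r'`): then `r ≠ p`, so V-shape: `ccw z1 r p`, but `¬ U z1 p r` is `ccw z1 p r`; contradiction.
   `r` lies above `z1 r'`: `r ≠ q1`, V-shape: `ccw z1 q1 r`, but `U z1 q1 r` is `ccw z1 r q1`; contradiction.
 So `#E1 ≤ #F ≤ ∑_{pairs} (#AL - 1)`.  By `flip` (`Good_flip`, `AL_flip`): `#E2 ≤ ∑_{pairs} (#AU - 1)`.  (Formally: prove the bound for E1 for every σ; E2 of σ is E1 of `σ.flip`.) -/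

namespace ET
open Finset
open scoped Classical

namespace Sig
variable {σ : Sig}

theorem M3_geo {z1 z2 p q1 m2 r : ℤ} (h1 : σ.Good z1 r p q1) (hp : p < q1) (h2 : σ.Good z2 r m2 p) (hp2 : p < m2)
    (hz : z1 < z2) : p ∈ σ.AL z1 q1 ∧ z2 < p ∧ ¬ σ.U z1 z2 q1 ∧ σ.ccw q1 z2 p := by
  obtain ⟨a1, a2, a3, a4, a5, a6, a7, a8⟩ := h1
  obtain ⟨b1, b2, b3, b4, b5, b6, b7, b8⟩ := h2
  -- (1)
  have e1 : ¬ σ.U z1 z2 r := by
    intro h
    exact a5 ((four (σ := σ) (a := z1) (b := z2) (c := p) (d := r) hz b3 a2).2.1 h b6)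
  -- (2)
  have e2 : ¬ σ.U z1 p q1 := by
    intro h
    exact a5 ((four (σ := σ) (a := z1) (b := p) (c := q1) (d := r) a1 hp a4).1 h a6)
  -- (4)
  have e4 : ¬ σ.U z1 z2 q1 := by
    intro h
    exact e1 ((four (σ := σ) (a := z1) (b := z2) (c := q1) (d := r) hz (by omega) a4).1 h a6)
  have e5 : σ.U z2 q1 r := by
    by_contra h
    exact (four (σ := σ) (a := z1) (b := z2) (c := q1) (d := r) hz (by omega) a4).2.2.2.2.1 e1 h a6
  have c1 : σ.ccw z1 p q1 := (ccw_iff1 a1 hp).2 e2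
  refine ⟨?_, b3, e4, ?_⟩
  · unfold AL
    rw [mem_filter, mem_Ioo]
    refine ⟨⟨a1, hp⟩, e2, ?_⟩
    intro y hy
    have hb := Ins_between hy
    rw [Ins_iff c1] at hy
    obtain ⟨y1, y2, y3⟩ := hy
    have g1 : z1 < y := by
      rcases hb.1 with h | h | h <;> omega
    have g2 : y < q1 := by
      rcases hb.2 with h | h | h <;> omega
    by_cases hU : σ.U z1 y r
    · have := (a8 y g1 (by omega) (by omega) hU).1
      exact asymm (cyc this) (cyc (cyc y3))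
    · have hne : y ≠ p := fun h => (ne23 y1) h.symm
      have := (a7 y g1 (by omega) hne hU).1
      exact asymm' this y1
  · have := (b8 q1 (by omega) a4 (by omega) e5).1
    exact cyc' this

theorem card_far {l r : ℤ} :
    ((σ.AL l r).filter (fun p => ∃ z, l < z ∧ z < r ∧ ¬ σ.U l z r ∧ z ≠ p ∧ σ.ccw r z p)).card ≤ (σ.AL l r).card - 1 := by
  rcases ((σ.AL l r).filter (fun p => ∃ z, l < z ∧ z < r ∧ ¬ σ.U l z r ∧ z ≠ p ∧ σ.ccw r z p)).eq_empty_or_nonempty with h | h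
  · rw [h]; simp
  · obtain ⟨p, hp⟩ := h
    rw [mem_filter] at hp
    obtain ⟨hp1, z, hz1, hz2, hz3, hz4, hz5⟩ := hp
    obtain ⟨m, hm, hm2⟩ := exists_AL_right (σ := σ) ⟨z, hz1, hz2, hz3⟩
    have hsub : (σ.AL l r).filter (fun p => ∃ z, l < z ∧ z < r ∧ ¬ σ.U l z r ∧ z ≠ p ∧ σ.ccw r z p) ⊆ (σ.AL l r).erase m := by
      intro q hq
      rw [mem_filter] at hq
      obtain ⟨hq1, y, hy1, hy2, hy3, hy4, hy5⟩ := hq
      rw [mem_erase]
      refine ⟨?_, hq1⟩
      rintro rfl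
      exact asymm' (hm2 y hy1 hy2 hy3 hy4) hy5
    calc _ ≤ ((σ.AL l r).erase m).card := card_le_card hsub
      _ = _ := card_erase_of_mem hm

theorem r_unique_aux {z p q r r' : ℤ} (h : σ.Good z r p q) (h' : σ.Good z r' p q) : ¬ r < r' := by
  obtain ⟨a1, a2, a3, a4, a5, a6, a7, a8⟩ := h
  obtain ⟨b1, b2, b3, b4, b5, b6, b7, b8⟩ := h'
  intro hlt
  by_cases hU : σ.U z r r'
  · have := (b8 r (by omega) hlt (by omega) hU).1
    have h2 : σ.ccw z r q := (ccw_iff4 a3 a4).2 a6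
    exact asymm' this h2
  · have := (b7 r (by omega) hlt (by omega) hU).1
    have h2 : σ.ccw z p r := (ccw_iff1 a1 a2).2 a5
    exact asymm' this h2

theorem r_unique {z p q r r' : ℤ} (h : σ.Good z r p q) (h' : σ.Good z r' p q) : r = r' := by
  have h1 := r_unique_aux h h'
  have h2 := r_unique_aux h' h
  omega

end Sig
end ET
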