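import Pool.Agent.Lib.MP_4beb96_co.EMT.M4A

set_option autoImplicit false

/-! EMT-M4: the total displacement.  Let `n = b + 1 - a`, `i (z, r) = min (lo z r) (hi z r)` for good pairs.

disp_fix (fixed `r ∈ [a, b]`).  Let `Z = {z ∈ Ico a r | good z r}`, `ZL = {z ∈ Z | lo < hi}` and `ZU = {z ∈ Z | hi < lo}` (`lo ≠ hi` since `¬ U z lo r`, `U z hi r`).
 `i` is injective on `ZL` (M2L with `Good_choose`) and on `ZU` (M2U), with values in `Ico a r` (`z < i < r`).  Let `IL, IU` be the images.  Then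
 `∑_{z ∈ Z} (i z - a) = ∑_{p ∈ IL} (p - a) + ∑_{p ∈ IU} (p - a) = ∑_{IL ∪ IU} (p - a) + ∑_{IL ∩ IU} (p - a)
    ≤ ∑_{p ∈ Ico a r} (p - a) + n #(IL ∩ IU)`  and  `∑_{z ∈ Z} (z - a) ≥ ∑_{p ∈ Ico a r} (p - a) - n #(Ico a r \ Z)`  as `0 ≤ p - a ≤ n`.
 `IL ∩ IU` injects into `ESet` by `p ↦ (p, r)`.  So `∑_{z ∈ Z} (i z - z) ≤ n (#(Ico a r \ Z) + #{p | (p, r) ∈ ESet})`.
disp_i: sum over `r ∈ Icc a b`: `∑_r #(Ico a r \ Z_r) = NG`, `∑_r #{p | (p, r) ∈ ESet} = #ESet ≤ T` (`E_le`).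
disp_j: apply disp_i to `σ.mir` on `[-b, -a]`: the pair `(l, r)` corresponds to `(-r, -l)`, `lo_mir`, `hi_mir`: `min (-x) (-y) = - max x y`; `NG_mir`, `T_mir`. -/

namespace ET
open Finset
open scoped Classical

namespace Sig
variable {σ : Sig}

private theorem M4_sum {a b : ℤ} (P : ℤ × ℤ → Prop) [DecidablePred P] (Q : ℤ → ℤ → Prop)
    [∀ r, DecidablePred (Q r)] (hPQ : ∀ z r, P (z, r) ↔ Q r z) (F : ℤ × ℤ → ℤ) :
    ∑ p ∈ (pairs a b).filter P, F p =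
      ∑ r ∈ Icc a b, ∑ z ∈ (Ico a r).filter (Q r), F (z, r) := by
  refine Finset.sum_finset_product_right _ _ _ ?_
  rintro ⟨x, y⟩
  simp only [mem_filter, mem_pairs, mem_Icc, mem_Ico, hPQ]
  constructor
  · rintro ⟨⟨h1, h2, h3⟩, h4⟩
    exact ⟨⟨by omega, h3⟩, ⟨h1, h2⟩, h4⟩
  · rintro ⟨⟨h1, h2⟩, ⟨h3, h4⟩, h5⟩
    exact ⟨⟨h3, h4, h2⟩, h5⟩

private theorem M4_card {a b : ℤ} (P : ℤ × ℤ → Prop) [DecidablePred P] (Q : ℤ → ℤ → Prop)
    [∀ r, DecidablePred (Q r)] (hPQ : ∀ z r, P (z, r) ↔ Q r z) :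
    (((pairs a b).filter P).card : ℤ) =
      ∑ r ∈ Icc a b, (((Ico a r).filter (Q r)).card : ℤ) := by
  have h := M4_sum (a := a) (b := b) P Q hPQ (fun _ => 1)
  simp only [Finset.sum_const, nsmul_eq_mul, mul_one] at h
  exact h

theorem disp_i {a b : ℤ} (hab : a ≤ b) :
    ∑ p ∈ (pairs a b).filter (fun p => σ.good p.1 p.2), (min (σ.lo p.1 p.2) (σ.hi p.1 p.2) - p.1) ≤
      (b + 1 - a) * ((σ.NG a b : ℤ) + σ.T a b) := by
  have hE : (σ.ESet a b).card ≤ σ.T a b := E_le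
  have e1 : (σ.NG a b : ℤ) = ∑ r ∈ Icc a b, (((Ico a r).filter (fun z => ¬ σ.good z r)).card : ℤ) :=
    M4_card (a := a) (b := b) (fun p => ¬ σ.good p.1 p.2) (fun r z => ¬ σ.good z r) (fun _ _ => Iff.rfl)
  have e2 : ((σ.ESet a b).card : ℤ) =
      ∑ r ∈ Icc a b, (((Ico a r).filter (fun p => (p, r) ∈ σ.ESet a b)).card : ℤ) := by
    rw [← M4_card (a := a) (b := b) (fun p => p ∈ σ.ESet a b) (fun r z => (z, r) ∈ σ.ESet a b) (fun _ _ => Iff.rfl)]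
    congr 2
    ext p
    simp only [mem_filter]
    constructor
    · intro h
      refine ⟨?_, h⟩
      unfold ESet at h
      exact (mem_filter.1 h).1
    · exact fun h => h.2
  have e3 : ∑ p ∈ (pairs a b).filter (fun p => σ.good p.1 p.2), (min (σ.lo p.1 p.2) (σ.hi p.1 p.2) - p.1) =
      ∑ r ∈ Icc a b, ∑ z ∈ (Ico a r).filter (fun z => σ.good z r), (min (σ.lo z r) (σ.hi z r) - z) :=
    M4_sum (a := a) (b := b) (fun p => σ.good p.1 p.2) (fun r z => σ.good z r) (fun _ _ => Iff.rfl) (fun p => min (σ.lo p.1 p.2) (σ.hi p.1 p.2) - p.1)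
  rw [e3]
  calc ∑ r ∈ Icc a b, ∑ z ∈ (Ico a r).filter (fun z => σ.good z r), (min (σ.lo z r) (σ.hi z r) - z)
      ≤ ∑ r ∈ Icc a b, (b + 1 - a) * ((((Ico a r).filter (fun z => ¬ σ.good z r)).card : ℤ) +
        (((Ico a r).filter (fun p => (p, r) ∈ σ.ESet a b)).card : ℤ)) :=
        Finset.sum_le_sum (fun r hr => disp_fix (mem_Icc.1 hr).2 (mem_Icc.1 hr).1)
    _ = (b + 1 - a) * ((σ.NG a b : ℤ) + ((σ.ESet a b).card : ℤ)) := by
        rw [← Finset.mul_sum, Finset.sum_add_distrib, ← e1, ← e2]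
    _ ≤ (b + 1 - a) * ((σ.NG a b : ℤ) + σ.T a b) := by
        apply mul_le_mul_of_nonneg_left _ (by omega)
        have : ((σ.ESet a b).card : ℤ) ≤ (σ.T a b : ℤ) := by exact_mod_cast hE
        linarith

theorem disp_j {a b : ℤ} (hab : a ≤ b) :
    ∑ p ∈ (pairs a b).filter (fun p => σ.good p.1 p.2), (p.2 - max (σ.lo p.1 p.2) (σ.hi p.1 p.2)) ≤
      (b + 1 - a) * ((σ.NG a b : ℤ) + σ.T a b) := by
  have h := disp_i (σ := σ.mir) (a := -b) (b := -a) (by omega)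
  rw [NG_mir, T_mir] at h
  have e : (-a + 1 - -b : ℤ) = b + 1 - a := by ring
  rw [e] at h
  refine le_trans (le_of_eq ?_) h
  refine Finset.sum_bij' (fun p _ => (-p.2, -p.1)) (fun p _ => (-p.2, -p.1)) ?_ ?_ ?_ ?_ ?_
  · rintro ⟨x, y⟩ hp
    simp only [mem_filter, mem_pairs] at hp ⊢
    refine ⟨⟨by omega, by omega, by omega⟩, ?_⟩
    exact good_mir.2 hp.2
  · rintro ⟨x, y⟩ hp
    simp only [mem_filter, mem_pairs] at hp ⊢
    refine ⟨⟨by omega, by omega, by omega⟩, ?_⟩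
    have := hp.2
    rw [← good_mir (σ := σ), neg_neg, neg_neg]
    exact this
  · rintro ⟨x, y⟩ hp
    simp only [neg_neg]
  · rintro ⟨x, y⟩ hp
    simp only [neg_neg]
  · rintro ⟨x, y⟩ hp
    simp only [mem_filter, mem_pairs] at hp
    simp only [lo_mir hp.2, hi_mir hp.2]
    rw [min_neg_neg]
    ring

end Sig
end ET
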