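import Pool.Agent.Lib.MP_4beb96_co.EMT.M2
import Pool.Agent.Lib.MP_4beb96_co.EMT.M3

set_option autoImplicit false

/-! EMT-M4A: the total displacement for fixed `r`. -/

namespace ET
open Finset
open scoped Classical

namespace Sig
variable {σ : Sig}

theorem disp_fix {a b r : ℤ} (hr : r ≤ b) (har : a ≤ r) :
    ∑ z ∈ (Ico a r).filter (fun z => σ.good z r), (min (σ.lo z r) (σ.hi z r) - z) ≤
      (b + 1 - a) * ((((Ico a r).filter (fun z => ¬ σ.good z r)).card : ℤ) +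
        (((Ico a r).filter (fun p => (p, r) ∈ σ.ESet a b)).card : ℤ)) := by
  set I := Ico a r with hI
  set Z := I.filter (fun z => σ.good z r) with hZ
  set Zc := I.filter (fun z => ¬ σ.good z r) with hZc
  set E := I.filter (fun p => (p, r) ∈ σ.ESet a b) with hE
  set ZL := Z.filter (fun z => σ.lo z r < σ.hi z r) with hZL
  set ZU := Z.filter (fun z => ¬ σ.lo z r < σ.hi z r) with hZU
  have hG : ∀ z ∈ Z, σ.Good z r (σ.lo z r) (σ.hi z r) := by
    intro z hz
    exact Good_choose (mem_filter.1 hz).2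
  have hne : ∀ z ∈ Z, σ.lo z r ≠ σ.hi z r := by
    intro z hz h
    obtain ⟨_, _, _, _, h5, h6, _, _⟩ := hG z hz
    rw [h] at h5
    exact h5 h6
  have hIz : ∀ z ∈ Z, a ≤ z ∧ z < r := by
    intro z hz
    exact mem_Ico.1 (mem_filter.1 hz).1
  -- sum of the displaced positions
  have hL : ∑ z ∈ ZL, (min (σ.lo z r) (σ.hi z r) - a) = ∑ p ∈ ZL.image (fun z => σ.lo z r), (p - a) := by
    rw [sum_image]
    · apply sum_congr rfl
      intro z hz
      rw [min_eq_left (mem_filter.1 hz).2.le]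
    · intro z1 h1 z2 h2 h12
      have h1' := mem_filter.1 (mem_coe.1 h1)
      have h2' := mem_filter.1 (mem_coe.1 h2)
      have g1 := hG z1 h1'.1
      have g2 := hG z2 h2'.1
      simp only at h12
      rw [← h12] at g2
      exact M2L g1 g2 h1'.2 (by rw [h12]; exact h2'.2)
  have hU : ∑ z ∈ ZU, (min (σ.lo z r) (σ.hi z r) - a) = ∑ p ∈ ZU.image (fun z => σ.hi z r), (p - a) := by
    rw [sum_image]
    · apply sum_congr rfl
      intro z hz
      rw [min_eq_right (not_lt.1 (mem_filter.1 hz).2)]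
    · intro z1 h1 z2 h2 h12
      have h1' := mem_filter.1 (mem_coe.1 h1)
      have h2' := mem_filter.1 (mem_coe.1 h2)
      have g1 := hG z1 h1'.1
      have g2 := hG z2 h2'.1
      simp only at h12
      have n1 := hne z1 h1'.1
      have n2 := hne z2 h2'.1
      have l1 := not_lt.1 h1'.2
      have l2 := not_lt.1 h2'.2
      rw [← h12] at g2
      exact M2U g1 g2 (lt_of_le_of_ne l1 (Ne.symm n1)) (by rw [h12]; exact lt_of_le_of_ne l2 (Ne.symm n2))
  have hILs : ZL.image (fun z => σ.lo z r) ⊆ I := by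
    intro p hp
    obtain ⟨z, hz, rfl⟩ := mem_image.1 hp
    have hz' := (mem_filter.1 hz).1
    obtain ⟨h1, h2, _⟩ := hG z hz'
    have := hIz z hz'
    exact mem_Ico.2 ⟨by omega, h2⟩
  have hIUs : ZU.image (fun z => σ.hi z r) ⊆ I := by
    intro p hp
    obtain ⟨z, hz, rfl⟩ := mem_image.1 hp
    have hz' := (mem_filter.1 hz).1
    obtain ⟨_, _, h1, h2, _⟩ := hG z hz'
    have := hIz z hz'
    exact mem_Ico.2 ⟨by omega, h2⟩
  have hEs : ZL.image (fun z => σ.lo z r) ∩ ZU.image (fun z => σ.hi z r) ⊆ E := by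
    intro p hp
    obtain ⟨hp1, hp2⟩ := mem_inter.1 hp
    have hpI := hILs hp1
    obtain ⟨z1, hz1, e1⟩ := mem_image.1 hp1
    obtain ⟨z2, hz2, e2⟩ := mem_image.1 hp2
    have z1' := mem_filter.1 hz1
    have z2' := mem_filter.1 hz2
    have g1 := hG z1 z1'.1
    have g2 := hG z2 z2'.1
    have hpI' := mem_Ico.1 hpI
    have n2 := hne z2 z2'.1
    have l2 := not_lt.1 z2'.2
    refine mem_filter.2 ⟨hpI, ?_⟩
    unfold ESet
    refine mem_filter.2 ⟨mem_pairs.2 ⟨hpI'.1, hpI'.2, hr⟩, ⟨z1, σ.hi z1 r, (hIz z1 z1'.1).1, ?_, ?_⟩,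
      ⟨z2, σ.lo z2 r, (hIz z2 z2'.1).1, ?_, ?_⟩⟩
    · show σ.Good z1 r p (σ.hi z1 r)
      rw [← e1]; exact g1
    · show p < σ.hi z1 r
      rw [← e1]; exact z1'.2
    · show σ.Good z2 r (σ.lo z2 r) p
      rw [← e2]; exact g2
    · show p < σ.lo z2 r
      rw [← e2]; exact lt_of_le_of_ne l2 (Ne.symm n2)
  have hnn : ∀ p ∈ I, 0 ≤ p - a := by
    intro p hp
    have := mem_Ico.1 hp
    omega
  have hle : ∀ p ∈ I, p - a ≤ b + 1 - a := by
    intro p hp
    have := mem_Ico.1 hp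
    omega
  have s1 : ∑ z ∈ Z, (min (σ.lo z r) (σ.hi z r) - a) ≤ ∑ p ∈ I, (p - a) + (b + 1 - a) * (E.card : ℤ) := by
    rw [← sum_filter_add_sum_filter_not Z (fun z => σ.lo z r < σ.hi z r), ← hZL, ← hZU, hL, hU,
      ← sum_union_inter]
    have t1 : ∑ p ∈ ZL.image (fun z => σ.lo z r) ∪ ZU.image (fun z => σ.hi z r), (p - a) ≤ ∑ p ∈ I, (p - a) :=
      sum_le_sum_of_subset_of_nonneg (union_subset hILs hIUs) (fun i hi _ => hnn i hi)
    have t2 : ∑ p ∈ ZL.image (fun z => σ.lo z r) ∩ ZU.image (fun z => σ.hi z r), (p - a) ≤ ∑ p ∈ E, (p - a) :=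
      sum_le_sum_of_subset_of_nonneg hEs (fun i hi _ => hnn i (mem_filter.1 hi).1)
    have t3 : ∑ p ∈ E, (p - a) ≤ E.card • (b + 1 - a) :=
      sum_le_card_nsmul E _ _ (fun i hi => hle i (mem_filter.1 hi).1)
    rw [nsmul_eq_mul] at t3
    linarith [t1, t2, t3]
  have s2 : ∑ p ∈ I, (p - a) - (b + 1 - a) * (Zc.card : ℤ) ≤ ∑ z ∈ Z, (z - a) := by
    have := sum_filter_add_sum_filter_not I (fun z => σ.good z r) (fun p => p - a)
    have t3 : ∑ p ∈ Zc, (p - a) ≤ Zc.card • (b + 1 - a) :=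
      sum_le_card_nsmul Zc _ _ (fun i hi => hle i (mem_filter.1 hi).1)
    rw [nsmul_eq_mul] at t3
    rw [← hZ, ← hZc] at this
    linarith [this, t3]
  have s3 : ∑ z ∈ Z, (min (σ.lo z r) (σ.hi z r) - z) =
      ∑ z ∈ Z, (min (σ.lo z r) (σ.hi z r) - a) - ∑ z ∈ Z, (z - a) := by
    rw [← sum_sub_distrib]
    apply sum_congr rfl
    intro z _
    ring
  rw [s3]
  linarith [s1, s2]

end Sig
end ET
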