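import Pool.Agent.Lib.MP_4beb96_co.EMT.PropMA
import Pool.Agent.Lib.MP_4beb96_co.EMT.ImpB

set_option autoImplicit false

/-! EMT-PropM: the main proposition.  `n = b + 1 - a`.

propM: take `k = n / 1000 + 1` (so `n ≤ 1000 k` and `1000 k ≤ n + 1000`).  `Imp_le`: `k Imp ≤ k NG + 2 n (NG + T)`, and `2 n ≤ 2000 k`, so `Imp ≤ NG + 2000 (NG + T)`; `NG ≤ n + P1 + S`, `T ≤ S + P1`:
 `Imp ≤ 4001 (S + P1) + 2001 n`.  `final_ineq` times 1000: `3000 n^2 ≤ 672000 S + 518000 Imp + 700 (n + 1000) n + 675000 n`, so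
 `2300 n^2 ≤ 672000 S + 518000 (4001 (S + P1) + 2001 n) + 1375000 n`.  With `n ≥ 10^7` and `4·10^6 P1 ≤ n^2` this gives `n^2 ≤ 2·10^6 S`
  (`518000 * 4001 = 2072518000`, `518000 * 2001 = 1036518000`: `2300 n^2 ≤ 2073190000 S + 2072518000 P1 + 1037893000 n`, `1037893000 n ≤ 103.8 n^2`, `2072518000 P1 ≤ 518.2 n^2`, so `1678 n^2 ≤ 2073190000 S`). -/

namespace ET
open Finset
open scoped Classical

namespace Sig
variable {σ : Sig}

theorem propM {a b : ℤ} (hn : 10 ^ 7 ≤ b + 1 - a) (hP : 4 * 10 ^ 6 * (σ.P1 a b : ℤ) ≤ (b + 1 - a) ^ 2) :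
    (b + 1 - a) ^ 2 ≤ 2 * 10 ^ 6 * (σ.S a b : ℤ) := by
  have hab : a ≤ b := by linarith
  obtain ⟨n, hnn⟩ : ∃ n : ℤ, n = b + 1 - a := ⟨_, rfl⟩
  obtain ⟨k, hk⟩ : ∃ k : ℤ, k = n / 1000 + 1 := ⟨_, rfl⟩
  have hk0 : 1 ≤ k := by omega
  have hk1 : n ≤ 1000 * k := by omega
  have hk2 : 1000 * k ≤ n + 1000 := by omega
  have i1 := Imp_le (σ := σ) hk0 hab
  have i2 := NG_le (σ := σ) hab
  have i3 := T_le (σ := σ) hab
  have i4 := final_ineq (σ := σ) hk0 hab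
  rw [← hnn] at i1 i4 hP hn ⊢
  have i5 : (σ.Imp k a b : ℤ) ≤ (σ.NG a b : ℤ) + 2000 * ((σ.NG a b : ℤ) + σ.T a b) := by
    have h0 : (0 : ℤ) ≤ (σ.NG a b : ℤ) + σ.T a b := by positivity
    have h1 : 2 * n * ((σ.NG a b : ℤ) + σ.T a b) ≤ 2000 * k * ((σ.NG a b : ℤ) + σ.T a b) :=
      mul_le_mul_of_nonneg_right (by linarith) h0
    have h2 : k * (σ.Imp k a b : ℤ) ≤ k * ((σ.NG a b : ℤ) + 2000 * ((σ.NG a b : ℤ) + σ.T a b)) := by
      calc k * (σ.Imp k a b : ℤ) ≤ k * (σ.NG a b : ℤ) + 2 * n * ((σ.NG a b : ℤ) + σ.T a b) := i1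
        _ ≤ k * (σ.NG a b : ℤ) + 2000 * k * ((σ.NG a b : ℤ) + σ.T a b) := by linarith
        _ = _ := by ring
    exact le_of_mul_le_mul_left h2 (by linarith)
  have i6 : (1000 * k) * n ≤ (n + 1000) * n := mul_le_mul_of_nonneg_right hk2 (by linarith)
  have i7 : 10 ^ 7 * n ≤ n ^ 2 := by nlinarith
  have i8 : 700 * k * n * 1000 = 700 * ((1000 * k) * n) := by ring
  have i9 : (n + 1000) * n = n ^ 2 + 1000 * n := by ring
  have i10 : (0 : ℤ) ≤ (σ.P1 a b : ℤ) := by positivity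
  have i11 : (0 : ℤ) ≤ (σ.S a b : ℤ) := by positivity
  have i12 : b - a = n - 1 := by omega
  rw [i12] at i2
  nlinarith

end Sig
end ET
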