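import Pool.Agent.Lib.MP_4beb96_co.EMT.TIdA
import Pool.Agent.Lib.MP_4beb96_co.EMT.L1
import Pool.Agent.Lib.MP_4beb96_co.EMT.L2

set_option autoImplicit false

/-! EMT-TId: bookkeeping.  All for `a ≤ b`, sums over `pairs a b`.

T_ident: `#AU + #AL = (#AU - 1) + (#AL - 1) + [AU ≠ ∅] + [AL ≠ ∅]` (truncated subtraction) and `[AU ≠ ∅] = [¬ NoUp]`,
 `[AL ≠ ∅] = [¬ NoLow]` (`AU_nonempty_iff`).  For a pair with `r = l + 1`: both are 0 (`NoUp`, `NoLow` hold vacuously).  For `l + 1 < r`: `NoUp` and `NoLow` do not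
 hold both (take `z = l + 1`), so `[¬ NoUp] + [¬ NoLow] = 2 - [NoUp ∨ NoLow]`.  Hence, with `X_eq_sum_A`,
 `X = T + 2 #{p ∈ pairs | p.1 + 1 < p.2} - P1`, and `2 #{p | p.1 + 1 < p.2} = (b - a)(b - a - 1)`.
T_le: `T = X + P1 - (b-a)(b-a-1) ≤ S + P1` by `X_le`.
NG_le: a pair which is not good has `r = l + 1` (there are `b - a` such pairs), or is counted by `P1`, or has both sides nonempty; in the last case `#AU ≥ 1`,
 `#AL ≥ 1` and not both are `1` (`good_of_card`), so its term in `L2` is at least 1.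
pairs_card: `2 #pairs = (b + 1 - a)(b - a)`. -/

namespace ET
open Finset
open scoped Classical

namespace Sig
variable {σ : Sig}

theorem T_le {a b : ℤ} (hab : a ≤ b) : (σ.T a b : ℤ) ≤ σ.S a b + σ.P1 a b := by
  have h1 := T_ident (σ := σ) hab
  have h2 := X_le (σ := σ) hab
  linarith

theorem near_card_le {a b : ℤ} (hab : a ≤ b) :
    (((pairs a b).filter (fun p => p.2 = p.1 + 1)).card : ℤ) ≤ b - a := by
  have h1 : ((pairs a b).filter (fun p => p.2 = p.1 + 1)).card ≤ (Ico a b).card := by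
    apply card_le_card_of_injOn (fun p => p.1)
    · rintro ⟨x, y⟩ hp
      have hp' := mem_filter.1 (mem_coe.1 hp)
      rw [mem_pairs] at hp'
      simp only [] at hp'
      rw [mem_coe, mem_Ico]
      simp only []
      omega
    · rintro ⟨x, y⟩ hp ⟨x', y'⟩ hp' h
      have hq := (mem_filter.1 (mem_coe.1 hp)).2
      have hq' := (mem_filter.1 (mem_coe.1 hp')).2
      simp only [] at hq hq' h
      rw [Prod.mk.injEq]
      omega
  rw [Int.card_Ico] at h1
  omega

theorem NG_le {a b : ℤ} (hab : a ≤ b) : (σ.NG a b : ℤ) ≤ (b - a) + σ.P1 a b + σ.S a b := by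
  set A := (pairs a b).filter (fun p => p.2 = p.1 + 1) with hA
  set B := (pairs a b).filter (fun p => p.1 + 1 < p.2 ∧ (σ.NoUp p.1 p.2 ∨ σ.NoLow p.1 p.2)) with hB
  set C := ((pairs a b).filter (fun p => ¬ σ.NoUp p.1 p.2 ∧ ¬ σ.NoLow p.1 p.2)).filter
    (fun p => ¬ σ.good p.1 p.2) with hC
  have hsub : (pairs a b).filter (fun p => ¬ σ.good p.1 p.2) ⊆ (A ∪ B) ∪ C := by
    intro p hp
    rw [mem_filter] at hp
    obtain ⟨hp1, hp2⟩ := hp
    have hp1' := hp1
    rw [mem_pairs] at hp1'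
    rw [mem_union, mem_union]
    by_cases h1 : p.2 = p.1 + 1
    · exact Or.inl (Or.inl (mem_filter.2 ⟨hp1, h1⟩))
    · by_cases h2 : σ.NoUp p.1 p.2 ∨ σ.NoLow p.1 p.2
      · exact Or.inl (Or.inr (mem_filter.2 ⟨hp1, by omega, h2⟩))
      · rw [not_or] at h2
        exact Or.inr (mem_filter.2 ⟨mem_filter.2 ⟨hp1, h2⟩, hp2⟩)
  have hCle : C.card ≤ σ.S a b := by
    calc C.card = ∑ _p ∈ C, 1 := by simp
      _ ≤ ∑ p ∈ C, (((σ.AU p.1 p.2).card - 1) + ((σ.AL p.1 p.2).card - 1)) := by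
          apply sum_le_sum
          intro p hp
          rw [hC, mem_filter, mem_filter] at hp
          obtain ⟨⟨_, hU, hL⟩, hg⟩ := hp
          have c1 := card_pos.2 (AU_nonempty_iff.2 hU)
          have c2 := card_pos.2 (AL_nonempty_iff.2 hL)
          by_contra hcon
          exact hg (good_of_card (by omega) (by omega))
      _ ≤ ∑ p ∈ (pairs a b).filter (fun p => ¬ σ.NoUp p.1 p.2 ∧ ¬ σ.NoLow p.1 p.2),
            (((σ.AU p.1 p.2).card - 1) + ((σ.AL p.1 p.2).card - 1)) := by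
          apply sum_le_sum_of_subset
          exact filter_subset _ _
      _ ≤ σ.S a b := L2
  have hAle : (A.card : ℤ) ≤ b - a := near_card_le hab
  have h1 : σ.NG a b ≤ A.card + B.card + C.card := (card_le_card hsub).trans
    ((card_union_le _ _).trans (Nat.add_le_add_right (card_union_le _ _) _))
  have hBe : σ.P1 a b = B.card := rfl
  rw [hBe]
  clear_value A B C
  omega

end Sig
end ET
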