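import Pool.Agent.Lib.MP_4beb96_co.EMT.Wt
import Pool.Agent.Lib.MP_4beb96_co.EMT.TId

set_option autoImplicit false

/-! EMT-PropMA: the main proposition, first part.  `n = b + 1 - a`.

final_ineq: add `typeL` for `σ` and for `σ.flip`: `SL σ + SL σ.flip = S` (`S_eq`), `σ.flip.rot = σ.rot.flip` (`rot_flip`), so `SL σ.rot + SL σ.flip.rot = S σ.rot`, `S σ.flip = S`, `S σ.rot.flip = S σ.rot` (`S_flip`), `S σ.rot = S σ.mir` (`rot = mir.flip`) `≤ S + 2 n` (`S_mir_le`), `Imp_flip`.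
 `#PP σ + #PP σ.flip + Imp = #pairs` (`PL_excl`), `2 #pairs = n (n - 1)`.  So
 `3 n (n-1) - 6 Imp = 6 (#PP + #PP flip) ≤ 64 (S + S') + 700 k n + 272 S + 272 S' + 512 Imp`, `S' ≤ S + 2 n`. -/

namespace ET
open Finset
open scoped Classical

namespace Sig
variable {σ : Sig}

theorem PP_split {k a b : ℤ} :
    ((σ.PP k a b).card : ℤ) + (σ.flip.PP k a b).card + σ.Imp k a b = (pairs a b).card := by
  have h1 := Finset.card_filter_add_card_filter_not (s := pairs a b) (fun p : ℤ × ℤ => σ.PL k p.1 p.2)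
  have h2 := Finset.card_filter_add_card_filter_not
    (s := (pairs a b).filter (fun p : ℤ × ℤ => ¬ σ.PL k p.1 p.2)) (fun p : ℤ × ℤ => σ.flip.PL k p.1 p.2)
  have h3 : ((pairs a b).filter (fun p : ℤ × ℤ => ¬ σ.PL k p.1 p.2)).filter
      (fun p : ℤ × ℤ => σ.flip.PL k p.1 p.2) = σ.flip.PP k a b := by
    unfold PP
    rw [filter_filter]
    apply filter_congr
    intro p _
    constructor
    · exact fun h => h.2
    · exact fun h => ⟨fun h' => PL_excl h' h, h⟩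
  have h4 : ((pairs a b).filter (fun p : ℤ × ℤ => ¬ σ.PL k p.1 p.2)).filter
      (fun p : ℤ × ℤ => ¬ σ.flip.PL k p.1 p.2) =
      (pairs a b).filter (fun p => ¬ σ.PL k p.1 p.2 ∧ ¬ σ.flip.PL k p.1 p.2) := by
    rw [filter_filter]
  rw [h3, h4] at h2
  unfold Imp
  rw [← h1, ← h2]
  unfold PP
  push_cast
  ring

theorem final_ineq {k a b : ℤ} (hk : 1 ≤ k) (hab : a ≤ b) :
    3 * (b + 1 - a) ^ 2 ≤ 672 * (σ.S a b : ℤ) + 518 * σ.Imp k a b + 700 * k * (b + 1 - a) + 675 * (b + 1 - a) := by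
  have t1 := typeL (σ := σ) hk hab
  have t2 := typeL (σ := σ.flip) hk hab
  rw [S_flip, rot_flip, S_flip, Imp_flip] at t2
  have e1 : (σ.S a b : ℤ) = σ.SL a b + σ.flip.SL a b := by
    exact_mod_cast S_eq (σ := σ) (a := a) (b := b)
  have e2 : (σ.rot.S (-b) (-a) : ℤ) = σ.rot.SL (-b) (-a) + σ.rot.flip.SL (-b) (-a) := by
    exact_mod_cast S_eq (σ := σ.rot) (a := -b) (b := -a)
  have e3 : σ.rot.S (-b) (-a) = σ.mir.S (-b) (-a) := S_flip (σ := σ.mir)
  have e4 := S_mir_le (σ := σ) hab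
  have e5 := PP_split (σ := σ) (k := k) (a := a) (b := b)
  have e6 := pairs_card hab
  rw [← e3] at e4
  have e7 : (b + 1 - a) * (b - a) = (b + 1 - a) ^ 2 - (b + 1 - a) := by ring
  rw [e7] at e6
  generalize (b + 1 - a) ^ 2 = N2 at *
  have e8 : 350 * k * (b + 1 - a) + 350 * k * (b + 1 - a) = 700 * k * (b + 1 - a) := by ring
  generalize 350 * k * (b + 1 - a) = kn at *
  generalize 700 * k * (b + 1 - a) = kn' at *
  linarith

end Sig
end ET
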