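import Pool.Agent.Lib.MP_4beb96_co.EMT.Geo

set_option autoImplicit false

/-! Definitions for the count of empty triangles. -/

namespace ET
open Finset
open scoped Classical

namespace Sig

/-- `z` lies inside the triangle `a b c`. -/
def Ins (σ : Sig) (a b c z : ℤ) : Prop :=
  (σ.ccw a b z ∧ σ.ccw b c z ∧ σ.ccw c a z) ∨ (σ.ccw b a z ∧ σ.ccw c b z ∧ σ.ccw a c z)

/-- the triangle `a b c` is empty. -/
def Emp (σ : Sig) (a b c : ℤ) : Prop := ∀ z, ¬ σ.Ins a b c z

/-- reflection in the x-axis -/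
def flip (σ : Sig) : Sig where
  U a b c := ¬ σ.U a b c
  p13 h1 h2 h3 := σ.n13 h1 h2 h3
  p24 h1 h2 h3 := σ.n24 h1 h2 h3
  p14 h1 h2 h3 := σ.n14 h1 h2 h3
  n13 h1 h2 h3 a b := by rw [not_not] at *; exact σ.p13 h1 h2 h3 a b
  n24 h1 h2 h3 a b := by rw [not_not] at *; exact σ.p24 h1 h2 h3 a b
  n14 h1 h2 h3 a b := by rw [not_not] at *; exact σ.p14 h1 h2 h3 a b

/-- reflection in the y-axis -/
def mir (σ : Sig) : Sig where
  U a b c := σ.U (-c) (-b) (-a)
  p13 h1 h2 h3 a b := σ.p24 (by omega) (by omega) (by omega) b a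
  p24 h1 h2 h3 a b := σ.p13 (by omega) (by omega) (by omega) b a
  p14 {x y z w} h1 h2 h3 a b :=
    (four (σ := σ) (a := -w) (b := -z) (c := -y) (d := -x) (by omega) (by omega) (by omega)).2.1
      ((four (σ := σ) (a := -w) (b := -z) (c := -y) (d := -x) (by omega) (by omega) (by omega)).2.2.1 b a) a
  n13 h1 h2 h3 a b := σ.n24 (by omega) (by omega) (by omega) b a
  n24 h1 h2 h3 a b := σ.n13 (by omega) (by omega) (by omega) b a
  n14 {x y z w} h1 h2 h3 a b :=
    (four (σ := σ) (a := -w) (b := -z) (c := -y) (d := -x) (by omega) (by omega) (by omega)).2.2.2.2.1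
      ((four (σ := σ) (a := -w) (b := -z) (c := -y) (d := -x) (by omega) (by omega) (by omega)).2.2.2.2.2 b a) a

/-- rotation by 180 degrees -/
def rot (σ : Sig) : Sig := σ.mir.flip

/-- S-element: pivot `l` (leftmost), `q <_l r`, triangle `l q r` empty, and both an earlier and a later
point of the points right of `l` (up to `b`) on the side of `l` of the line `q r`. -/
def SE (σ : Sig) (b l q r : ℤ) : Prop :=
  l < q ∧ l < r ∧ q ≤ b ∧ r ≤ b ∧ σ.ccw l q r ∧ σ.Emp l q r ∧
    (∃ z, l < z ∧ z ≤ b ∧ σ.ccw l z q ∧ σ.ccw q r z) ∧ (∃ z, l < z ∧ z ≤ b ∧ σ.ccw l r z ∧ σ.ccw q r z)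

end Sig

/-- pairs `l < r` of points of `[a,b]` -/
noncomputable def pairs (a b : ℤ) : Finset (ℤ × ℤ) := (Icc a b ×ˢ Icc a b).filter (fun p => p.1 < p.2)

/-- all triples of points of `[a,b]` -/
noncomputable def trip (a b : ℤ) : Finset (ℤ × ℤ × ℤ) := Icc a b ×ˢ Icc a b ×ˢ Icc a b

namespace Sig

/-- S-elements in `[a,b]` as triples (pivot, q, r) with `q <_pivot r` -/
noncomputable def SSet (σ : Sig) (a b : ℤ) : Finset (ℤ × ℤ × ℤ) :=
  (trip a b).filter (fun t => σ.SE b t.1 t.2.1 t.2.2)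

noncomputable def S (σ : Sig) (a b : ℤ) : ℕ := (σ.SSet a b).card

/-- S-elements whose apex is below: `q < r` also in the x-order. -/
noncomputable def SL (σ : Sig) (a b : ℤ) : ℕ := ((σ.SSet a b).filter (fun t => t.2.1 < t.2.2)).card

/-- empty triangles with vertices in `[a,b]` -/
noncomputable def XSet (σ : Sig) (a b : ℤ) : Finset (ℤ × ℤ × ℤ) :=
  (trip a b).filter (fun t => t.1 < t.2.1 ∧ t.2.1 < t.2.2 ∧ σ.Emp t.1 t.2.1 t.2.2)

noncomputable def X (σ : Sig) (a b : ℤ) : ℕ := (σ.XSet a b).card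

/-- apexes above (`AU`) / below (`AL`) of empty triangles over the pair `l r` -/
noncomputable def AU (σ : Sig) (l r : ℤ) : Finset ℤ := (Ioo l r).filter (fun m => σ.U l m r ∧ σ.Emp l m r)
noncomputable def AL (σ : Sig) (l r : ℤ) : Finset ℤ := (Ioo l r).filter (fun m => ¬ σ.U l m r ∧ σ.Emp l m r)

/-- no point above / below the segment `l r` -/
def NoUp (σ : Sig) (l r : ℤ) : Prop := ∀ z, l < z → z < r → ¬ σ.U l z r
def NoLow (σ : Sig) (l r : ℤ) : Prop := ∀ z, l < z → z < r → σ.U l z r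

/-- number of pairs with exactly one empty side -/
noncomputable def P1 (σ : Sig) (a b : ℤ) : ℕ :=
  ((pairs a b).filter (fun p => p.1 + 1 < p.2 ∧ (σ.NoUp p.1 p.2 ∨ σ.NoLow p.1 p.2))).card

/-- the graph `G` of the pairs with no point above -/
def G (σ : Sig) (l r : ℤ) : Prop := l < r ∧ σ.NoUp l r

noncomputable def g (σ : Sig) (a b : ℤ) : ℕ := ((pairs a b).filter (fun p => σ.G p.1 p.2)).card

/-- total excess -/
noncomputable def T (σ : Sig) (a b : ℤ) : ℕ :=
  ∑ p ∈ pairs a b, (((σ.AU p.1 p.2).card - 1) + ((σ.AL p.1 p.2).card - 1))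

/-- good pair `l r` with unique lower apex `m`, unique upper apex `w` (V-shape form) -/
def Good (σ : Sig) (l r m w : ℤ) : Prop :=
  l < m ∧ m < r ∧ l < w ∧ w < r ∧ ¬ σ.U l m r ∧ σ.U l w r ∧
  (∀ z, l < z → z < r → z ≠ m → ¬ σ.U l z r → σ.ccw l z m ∧ σ.ccw r m z) ∧
  (∀ z, l < z → z < r → z ≠ w → σ.U l z r → σ.ccw l w z ∧ σ.ccw r z w)

/-- the pair `l r` is good -/
def good (σ : Sig) (l r : ℤ) : Prop := ∃ m w, σ.Good l r m w

/-- lower / upper apex of a good pair -/
noncomputable def lo (σ : Sig) (l r : ℤ) : ℤ := if h : ∃ m w, σ.Good l r m w then h.choose else 0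
noncomputable def hi (σ : Sig) (l r : ℤ) : ℤ := if h : ∃ m w, σ.Good l r m w then h.choose_spec.choose else 0

/-- `k`-proper pair of type L: good, lower apex left of the upper apex, both apexes `k`-near to the ends -/
def PL (σ : Sig) (k l r : ℤ) : Prop := σ.good l r ∧ σ.lo l r < σ.hi l r ∧ σ.lo l r - l < k ∧ r - σ.hi l r < k

/-- number of pairs of `[a,b]` which are not good -/
noncomputable def NG (σ : Sig) (a b : ℤ) : ℕ := ((pairs a b).filter (fun p => ¬ σ.good p.1 p.2)).card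

/-- number of `k`-improper pairs -/
noncomputable def Imp (σ : Sig) (k a b : ℤ) : ℕ :=
  ((pairs a b).filter (fun p => ¬ σ.PL k p.1 p.2 ∧ ¬ σ.flip.PL k p.1 p.2)).card

/-- number of the S-elements with last two points `w r` -/
noncomputable def nu (σ : Sig) (a b w r : ℤ) : ℕ := ((Icc a b).filter (fun p => σ.SE b p w r ∧ w < r)).card

/-- left class at `l` with lower apex `i` (type L) -/
noncomputable def D (σ : Sig) (k b l i : ℤ) : Finset ℤ :=
  (Ioc l b).filter (fun r => σ.PL k l r ∧ σ.lo l r = i)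

/-- right class at `r` with upper apex `w` (type L) -/
noncomputable def DR (σ : Sig) (k a r w : ℤ) : Finset ℤ :=
  (Ico a r).filter (fun l => σ.PL k l r ∧ σ.hi l r = w)

end Sig
end ET
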