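import Pool.Agent.Lib.MP_4beb96_co.EMT.SlabD
import Pool.Agent.Lib.MP_4beb96_co.EMT.PropM

set_option autoImplicit false

/-! EMT-Slab: both sides, and the main combinatorial theorem.

P1_le: `P1 ≤ g σ + g σ.flip` on `[a, b]` (`NoUp_flip`).
slab: given `0 < δ ≤ 1`.  Let `(c2, ε2, N2)` be from `slab_up (δ/2)`; let `(c1, ε1, N1)` be from `slab_up (c2^2 δ / 2)`.  Let `n` be large and `S ≤ ε n^2`.  First `slab_up (c2^2 δ/2)` for `σ`: `[a1, b1]`, `n1 ≥ c1 n`,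
  `g σ a1 b1 ≤ c2^2 (δ/2) n1^2`.  Then `slab_up (δ/2)` for `σ.flip` on `[a1, b1]`: `S σ.flip a1 b1 = S σ a1 b1 ≤ S σ a b ≤ ε n^2 ≤ (ε / c1^2) n1^2 ≤ ε2 n1^2` if `ε ≤ c1^2 ε2`; `[a2, b2]`, `n2 ≥ c2 n1`, `g σ.flip a2 b2 ≤ (δ/2) n2^2`.
  `g σ a2 b2 ≤ g σ a1 b1 ≤ c2^2 (δ/2) n1^2 ≤ (δ/2) n2^2` (g is monotone).  So `P1 σ a2 b2 ≤ δ n2^2`.  `c = c1 c2`.
main_comb: there are `δ0 > 0` and `N` with `S σ a b ≥ δ0 n^2` for all `σ`, `n ≥ N`.  Apply slab with `δ = 1/(4·10^6)`: `(c, ε, N)`.  If `S ≤ ε n^2`, the slab `[a', b']` satisfies `n' ≥ c n ≥ 10^7` and `4·10^6 P1 ≤ n'^2`, so `propM`: `n'^2 ≤ 2·10^6 S(a', b') ≤ 2·10^6 S`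
  (`S_mono`), so `S ≥ c^2 n^2 / (2·10^6)`.  `δ0 = min ε (c^2/(2·10^6))`.
main_X: there are `ε > 0` and `N : ℕ` such that for all `σ` and natural `n ≥ N`: `(1 + ε) n^2 ≤ X σ 0 (n - 1)`.  By `X_ge`: `X ≥ (n-1)(n-2) + S - 2 n ≥ n^2 - 5 n + δ0 n^2`; `ε = δ0/2`, `N ≥ 10/δ0`. -/

namespace ET
open Finset
open scoped Classical

namespace Sig

theorem main_comb : ∃ δ0 : ℝ, 0 < δ0 ∧ ∃ N : ℝ, ∀ (σ : Sig) (a b : ℤ), a ≤ b → N ≤ ((b + 1 - a : ℤ) : ℝ) →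
    δ0 * ((b + 1 - a : ℤ) : ℝ) ^ 2 ≤ (σ.S a b : ℝ) := by
  obtain ⟨c, hc, ε, hε, N, h⟩ := slab (1 / (4 * 10 ^ 6)) (by norm_num) (by norm_num)
  refine ⟨min ε (c ^ 2 / (2 * 10 ^ 6)), lt_min hε (by positivity), max N (10 ^ 7 / c), ?_⟩
  intro σ a b hab hN
  have hn0 : (0 : ℝ) < ((b + 1 - a : ℤ) : ℝ) := by
    have : (0 : ℤ) < b + 1 - a := by omega
    exact_mod_cast this
  by_cases hS : (σ.S a b : ℝ) ≤ ε * ((b + 1 - a : ℤ) : ℝ) ^ 2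
  · obtain ⟨a', b', ha, hab', hb, hcn, hP⟩ := h σ a b hab ((le_max_left _ _).trans hN) hS
    have h1 : (10 : ℝ) ^ 7 ≤ c * ((b + 1 - a : ℤ) : ℝ) := by
      have h2 := (le_max_right N (10 ^ 7 / c)).trans hN
      rw [div_le_iff₀ hc] at h2
      linarith
    have h3 : (10 : ℝ) ^ 7 ≤ ((b' + 1 - a' : ℤ) : ℝ) := h1.trans hcn
    have h4 : (10 : ℤ) ^ 7 ≤ b' + 1 - a' := by exact_mod_cast h3
    have h5 : 4 * 10 ^ 6 * (σ.P1 a' b' : ℤ) ≤ (b' + 1 - a') ^ 2 := by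
      have h6 : 4 * 10 ^ 6 * (σ.P1 a' b' : ℝ) ≤ ((b' + 1 - a' : ℤ) : ℝ) ^ 2 := by
        have h7 := mul_le_mul_of_nonneg_left hP (by norm_num : (0 : ℝ) ≤ 4 * 10 ^ 6)
        refine h7.trans (le_of_eq ?_)
        ring
      exact_mod_cast h6
    have h8 := propM h4 h5
    have h9 : ((b' + 1 - a' : ℤ) : ℝ) ^ 2 ≤ 2 * 10 ^ 6 * (σ.S a' b' : ℝ) := by exact_mod_cast h8
    have h10 : (σ.S a' b' : ℝ) ≤ (σ.S a b : ℝ) := by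
      exact_mod_cast S_mono (σ := σ) ha hb
    have h11 : (c * ((b + 1 - a : ℤ) : ℝ)) ^ 2 ≤ ((b' + 1 - a' : ℤ) : ℝ) ^ 2 :=
      pow_le_pow_left₀ (by positivity) hcn 2
    calc min ε (c ^ 2 / (2 * 10 ^ 6)) * ((b + 1 - a : ℤ) : ℝ) ^ 2
        ≤ (c ^ 2 / (2 * 10 ^ 6)) * ((b + 1 - a : ℤ) : ℝ) ^ 2 :=
          mul_le_mul_of_nonneg_right (min_le_right _ _) (by positivity)
      _ = (c * ((b + 1 - a : ℤ) : ℝ)) ^ 2 / (2 * 10 ^ 6) := by ring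
      _ ≤ (2 * 10 ^ 6 * (σ.S a b : ℝ)) / (2 * 10 ^ 6) := by
          apply div_le_div_of_nonneg_right _ (by norm_num)
          linarith
      _ = (σ.S a b : ℝ) := by ring
  · push Not at hS
    exact (mul_le_mul_of_nonneg_right (min_le_left _ _) (by positivity)).trans hS.le

theorem main_X : ∃ ε : ℝ, 0 < ε ∧ ∃ N : ℕ, ∀ (σ : Sig) (n : ℕ), N ≤ n → (1 + ε) * (n : ℝ) ^ 2 ≤ (σ.X 0 ((n : ℤ) - 1) : ℝ) := by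
  obtain ⟨δ0, h0, N, h⟩ := main_comb
  refine ⟨δ0 / 2, by positivity, max 1 (⌈max N (10 / δ0)⌉₊), ?_⟩
  intro σ n hn
  have hn1 : 1 ≤ n := (le_max_left _ _).trans hn
  have hn2 : max N (10 / δ0) ≤ (n : ℝ) := Nat.le_of_ceil_le ((le_max_right _ _).trans hn)
  have e : (((n : ℤ) - 1 + 1 - 0 : ℤ) : ℝ) = (n : ℝ) := by push_cast; ring
  have h1 := h σ 0 ((n : ℤ) - 1) (by omega) (by rw [e]; exact (le_max_left _ _).trans hn2)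
  rw [e] at h1
  have h2 := X_ge (σ := σ) (a := 0) (b := (n : ℤ) - 1) (by omega)
  have h3 : ((n : ℝ) - 1) * ((n : ℝ) - 2) + (σ.S 0 ((n : ℤ) - 1) : ℝ) ≤ (σ.X 0 ((n : ℤ) - 1) : ℝ) + 2 * (n : ℝ) := by
    have h4 : (((n : ℤ) - 1 - 0) * ((n : ℤ) - 1 - 0 - 1) + (σ.S 0 ((n : ℤ) - 1) : ℤ) : ℤ) =
        (((n : ℤ) - 1) * ((n : ℤ) - 2) + (σ.S 0 ((n : ℤ) - 1) : ℤ) : ℤ) := by ring
    have h5 : ((σ.X 0 ((n : ℤ) - 1) : ℤ) + 2 * ((n : ℤ) - 1 + 1 - 0) : ℤ) =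
        ((σ.X 0 ((n : ℤ) - 1) : ℤ) + 2 * (n : ℤ) : ℤ) := by ring
    rw [h4, h5] at h2
    exact_mod_cast h2
  have h6 : 10 ≤ (n : ℝ) * δ0 := by
    have h7 := (le_max_right N (10 / δ0)).trans hn2
    rwa [div_le_iff₀ h0] at h7
  have hn0 : (0 : ℝ) ≤ (n : ℝ) := Nat.cast_nonneg n
  nlinarith [mul_le_mul_of_nonneg_right h6 hn0]

end Sig
end ET
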