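import Pool.Agent.Lib.MP_4beb96_co.EMT.GExc
import Pool.Agent.Lib.MP_4beb96_co.EMT.BlockB

set_option autoImplicit false

/-! EMT-SlabA: a slab with few `G`-pairs.

Given `0 < δ ≤ 1`.  Let `n = b + 1 - a` (as a real number).  If `g σ a b ≤ δ n^2` take the whole interval.  Otherwise `g > δ n^2`.
Step 1 (choice of `l`), `exists_l`.  For `l ∈ L = Icc a b` let `x l = #{r ∈ Icc a b | G l r}`, `y l = #{m ∈ Icc a b | G l m ∧ ¬ ∃ z, a ≤ z ∧ z < l ∧ G z m}`, `z l = #{t ∈ ExcSet | t.1 = l}`.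
  `∑ x = g > δ n^2 = A`, `∑ y ≤ n = B` (each `m` has at most one such `l`), `∑ z = #ExcSet ≤ 18 n + 6 S ≤ C := 18 n + 6 ε n^2`.
  `avg` with `u = δ n / 4`, `w = δ^2 n / (200 ε... )`: choose `w = 8 / δ`: `w C = 144 n/δ + 48 ε n^2/δ`; with `ε = δ^2/400` and `n ≥ 1200/δ^2`: `w C ≤ 0.12 δ n^2 + 0.12 δ n^2 ≤ A / 4`, `u B = δ n^2 / 4`.  So there is `l` with
    `x l ≥ δ n / 2`, `(δ n / 4) y l ≤ x l ≤ n` i.e. `y l ≤ 4 / δ`, and `z l ≤ (δ/8) x l`... we need `z l` small compared with the block: block size `k ≥ (x l - y l)/(y l + 1)`, `y l + 1 ≤ 5/δ`.  So use `w = 80/δ^2`... (general: choose `w = W/δ` and `ε` accordingly.)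
   We state: for every `δ ∈ (0, 1]` there are `ε > 0`, `N` such that for `n ≥ N`, `S ≤ ε n^2`, `g > δ n^2`: there is `l ∈ [a, b]` with `x l ≥ δ n / 2`, `y l ≤ 4 / δ`, `z l ≤ δ^2 n / 100`.
   (`avg` with `u = δ n / 4`, `w = 100/δ^2` (then `w z l ≤ x l ≤ n` gives the last one), `u B = A/4`, `w C = (100/δ^2)(18 n + 6 ε n^2) ≤ δ n^2/4` if `ε = δ^3/4800`, `n ≥ 14400/δ^3`.)
Step 2 (block).  `R = {r ∈ Icc a b | G l r}`, `N = {m ∈ R | l is last for m}` (`y l` elements), `block`: `c ≤ d` in `R`, no element of `N` in `[c, d]`, `#(R ∩ [c, d]) ≥ (x l - y l)/(y l + 1) ≥ (δ n/2 - 4/δ)/(4/δ + 1) ≥ δ^2 n / 20` for `n ≥ 160/δ^2`  (`(δ n/2 - 4/δ) ≥ δ n/4 + ...`: `4/δ + 1 ≤ 5/δ`; `(δ n / 2 - 4/δ) δ/5 ≥ δ^2 n/20` iff `δ^2 n/10 - 4/5 ≥ δ^2 n/20` iff `n ≥ 16/δ^2`).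
Step 3 (cover).  `H = {v ∈ R ∩ [c, d] | not covered}`: `#H ≥ δ^2 n/20 - z l ≥ δ^2 n / 25`.  `cover` (hB: elements of `R ∩ [c,d]` are not in `N`).
Step 4 (spread) for the interval `[c, d]`, `H`, density `#H / (d + 1 - c) ≥ δ^2/25` (as `d + 1 - c ≤ n`), `η = δ/2`: there is `[a', b'] ⊆ [c, d]`, `n' = b' + 1 - a' ≥ c' (d + 1 - c) ≥ c' #H ≥ c' δ^2 n / 25`, and every subinterval with at least `η n'` points meets `H`.
  Let `(p, q)` be counted by `g σ a' b'`: `G p q`.  No `v ∈ H` is in `(p, q)` (uncovered).  So `q - p - 1 < η n'` (otherwise apply it to `[p + 1, q - 1]`; if `q = p + 1` the inequality `0 < η n'` is clear).  So the number of such pairs is at most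
  `n' (η n' + 1) ≤ δ n'^2` if `n' ≥ 2/δ`, which holds for `n ≥ N`. -/

namespace ET
open Finset
open scoped Classical

namespace Sig

private theorem SlabA_x (σ : Sig) (a b : ℤ) :
    (∑ l ∈ Icc a b, (((Icc a b).filter (fun r => σ.G l r)).card : ℝ)) = (σ.g a b : ℝ) := by
  rw [← Nat.cast_sum]
  congr 1
  unfold g
  rw [card_eq_sum_card_fiberwise (f := fun p : ℤ × ℤ => p.1) (t := Icc a b)]
  · refine sum_congr rfl (fun l hl => ?_)
    refine card_bij (fun r _ => (l, r)) ?_ ?_ ?_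
    · intro r hr
      rw [mem_filter] at hr
      rw [mem_filter, mem_filter, mem_pairs]
      rw [mem_Icc] at hl hr
      exact ⟨⟨⟨hl.1, hr.2.1, hr.1.2⟩, hr.2⟩, rfl⟩
    · intro r _ r' _ h
      simpa using h
    · rintro ⟨l', r⟩ h
      rw [mem_filter, mem_filter, mem_pairs] at h
      obtain ⟨⟨⟨h1, h2, h3⟩, h4⟩, h5⟩ := h
      simp only [] at h1 h2 h3 h4 h5
      subst h5
      refine ⟨r, ?_, rfl⟩
      rw [mem_filter, mem_Icc]
      exact ⟨⟨by omega, h3⟩, h4⟩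
  · intro p hp
    rw [mem_coe, mem_filter, mem_pairs] at hp
    rw [mem_coe, mem_Icc]
    have h1 := hp.1.1; have h2 := hp.1.2.1; have h3 := hp.1.2.2
    exact ⟨h1, by show p.1 ≤ b; omega⟩

private theorem SlabA_y (σ : Sig) (a b : ℤ) :
    (∑ l ∈ Icc a b, (((Icc a b).filter (fun m => σ.G l m ∧ ¬ ∃ z, a ≤ z ∧ z < l ∧ σ.G z m)).card : ℝ)) ≤
      ((Icc a b).card : ℝ) := by
  rw [← Nat.cast_sum]
  have h : ∑ l ∈ Icc a b, ((Icc a b).filter (fun m => σ.G l m ∧ ¬ ∃ z, a ≤ z ∧ z < l ∧ σ.G z m)).card ≤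
      (Icc a b).card := by
    simp_rw [card_filter]
    rw [sum_comm, card_eq_sum_ones]
    refine sum_le_sum (fun m _ => ?_)
    rw [← card_filter]
    refine card_le_one.2 (fun l hl l' hl' => ?_)
    rw [mem_filter, mem_Icc] at hl hl'
    rcases lt_trichotomy l l' with h | h | h
    · exact (hl'.2.2 ⟨l, hl.1.1, h, hl.2.1⟩).elim
    · exact h
    · exact (hl.2.2 ⟨l', hl'.1.1, h, hl'.2.1⟩).elim
  exact_mod_cast h

private theorem SlabA_z (σ : Sig) (a b : ℤ) :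
    (∑ l ∈ Icc a b, (((σ.ExcSet a b).filter (fun t => t.1 = l)).card : ℝ)) = ((σ.ExcSet a b).card : ℝ) := by
  rw [← Nat.cast_sum]
  congr 1
  symm
  refine card_eq_sum_card_fiberwise (f := fun t : ℤ × ℤ × ℤ => t.1) (t := Icc a b) ?_
  intro t ht
  rw [mem_coe, ExcSet, mem_filter, mem_trip] at ht
  rw [mem_coe, mem_Icc]
  exact ht.1.1

private theorem SlabA_aux {δ n Y : ℝ} (hδ : 0 < δ) (hn : 0 < n) (h : δ * n / 4 * Y ≤ n) : Y ≤ 4 / δ := by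
  rw [le_div_iff₀ hδ]
  by_contra hc
  push Not at hc
  have := mul_lt_mul_of_pos_left hc hn
  nlinarith

private theorem SlabA_aux2 {δ n Y : ℝ} (hδ : 0 < δ) (h : 100 / δ ^ 2 * Y ≤ n) : Y ≤ δ ^ 2 * n / 100 := by
  rw [div_mul_eq_mul_div, div_le_iff₀ (by positivity)] at h
  rw [le_div_iff₀ (by norm_num)]
  linarith

theorem exists_l (δ : ℝ) (hδ : 0 < δ) (hδ1 : δ ≤ 1) : ∃ ε : ℝ, 0 < ε ∧ ∃ N : ℝ, ∀ (σ : Sig) (a b : ℤ), a ≤ b →
    N ≤ ((b + 1 - a : ℤ) : ℝ) → (σ.S a b : ℝ) ≤ ε * ((b + 1 - a : ℤ) : ℝ) ^ 2 → δ * ((b + 1 - a : ℤ) : ℝ) ^ 2 < (σ.g a b : ℝ) →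
    ∃ l ∈ Icc a b, δ * ((b + 1 - a : ℤ) : ℝ) / 2 ≤ (((Icc a b).filter (fun r => σ.G l r)).card : ℝ) ∧
      (((Icc a b).filter (fun m => σ.G l m ∧ ¬ ∃ z, a ≤ z ∧ z < l ∧ σ.G z m)).card : ℝ) ≤ 4 / δ ∧
      (((σ.ExcSet a b).filter (fun t => t.1 = l)).card : ℝ) ≤ δ ^ 2 * ((b + 1 - a : ℤ) : ℝ) / 100 := by
  refine ⟨δ ^ 3 / 4800, by positivity, 14400 / δ ^ 3, ?_⟩
  intro σ a b hab hN hS hg
  obtain ⟨n, hn⟩ : ∃ n : ℝ, n = ((b + 1 - a : ℤ) : ℝ) := ⟨_, rfl⟩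
  rw [← hn] at hN hS hg ⊢
  have hcard : ((Icc a b).card : ℝ) = n := by
    rw [Int.card_Icc, hn]
    have : ((b + 1 - a).toNat : ℤ) = b + 1 - a := Int.toNat_of_nonneg (by omega)
    exact_mod_cast this
  have hnpos : 0 < n := by
    have : (0 : ℝ) < 14400 / δ ^ 3 := by positivity
    linarith
  have hExc : ((σ.ExcSet a b).card : ℝ) ≤ 18 * n + 6 * (δ ^ 3 / 4800 * n ^ 2) := by
    have h1 := exc_le (σ := σ) hab
    have h2 : ((σ.ExcSet a b).card : ℝ) ≤ 18 * n + 6 * (σ.S a b : ℝ) := by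
      rw [hn]
      exact_mod_cast h1
    linarith
  have hkey : δ * n / 4 * n + 100 / δ ^ 2 * (18 * n + 6 * (δ ^ 3 / 4800 * n ^ 2)) ≤ δ * n ^ 2 / 2 := by
    have h1 : 14400 ≤ δ ^ 3 * n := by
      rw [div_le_iff₀ (by positivity)] at hN
      linarith
    have h2 : 100 / δ ^ 2 * (18 * n + 6 * (δ ^ 3 / 4800 * n ^ 2)) = 1800 * n / δ ^ 2 + δ * n ^ 2 / 8 := by
      field_simp
      ring
    have h3 : 1800 * n / δ ^ 2 ≤ δ * n ^ 2 / 8 := by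
      rw [div_le_iff₀ (by positivity)]
      have h4 : 14400 * n ≤ δ ^ 3 * n * n := mul_le_mul_of_nonneg_right h1 hnpos.le
      nlinarith [h4]
    rw [h2]
    have h5 : δ * n / 4 * n = δ * n ^ 2 / 4 := by ring
    rw [h5]
    linarith
  obtain ⟨l, hl, h1, h2, h3⟩ := avg (Icc a b) (fun l => (((Icc a b).filter (fun r => σ.G l r)).card : ℝ))
    (fun l => (((Icc a b).filter (fun m => σ.G l m ∧ ¬ ∃ z, a ≤ z ∧ z < l ∧ σ.G z m)).card : ℝ))
    (fun l => (((σ.ExcSet a b).filter (fun t => t.1 = l)).card : ℝ))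
    (fun _ _ => Nat.cast_nonneg _) (fun _ _ => Nat.cast_nonneg _) (fun _ _ => Nat.cast_nonneg _)
    (δ * n ^ 2) n (18 * n + 6 * (δ ^ 3 / 4800 * n ^ 2)) (δ * n / 4) (100 / δ ^ 2) n (by positivity)
    (by rw [SlabA_x]; exact hg.le) ((SlabA_y σ a b).trans hcard.le) ((SlabA_z σ a b).le.trans hExc)
    (by positivity) (by positivity) hnpos hcard.le hkey
  refine ⟨l, hl, ?_, ?_, ?_⟩
  · refine le_trans (le_of_eq ?_) h1
    field_simp
  · have hx : (((Icc a b).filter (fun r => σ.G l r)).card : ℝ) ≤ n := by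
      rw [← hcard]
      exact_mod_cast card_filter_le _ _
    exact SlabA_aux hδ hnpos (h2.trans hx)
  · have hx : (((Icc a b).filter (fun r => σ.G l r)).card : ℝ) ≤ n := by
      rw [← hcard]
      exact_mod_cast card_filter_le _ _
    exact SlabA_aux2 hδ (h3.trans hx)

end Sig
end ET
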