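import Pool.Agent.Lib.MP_4beb96_co.EMT.SlabA
import Pool.Agent.Lib.MP_4beb96_co.EMT.Cover
import Pool.Agent.Lib.MP_4beb96_co.EMT.BlockA

set_option autoImplicit false

/-! EMT-SlabB: a slab with few `G`-pairs.

Given `0 < δ ≤ 1`.  Let `n = b + 1 - a` (as a real number).  If `g σ a b ≤ δ n^2` take the whole interval.  Otherwise `g > δ n^2`.
Step 1 (choice of `l`), `exists_l`.  For `l ∈ L = Icc a b` let `x l = #{r ∈ Icc a b | G l r}`, `y l = #{m ∈ Icc a b | G l m ∧ ¬ ∃ z, a ≤ z ∧ z < l ∧ G z m}`, `z l = #{t ∈ ExcSet | t.1 = l}`.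
  `∑ x = g > δ n^2 = A`, `∑ y ≤ n = B` (each `m` has at most one such `l`), `∑ z = #ExcSet ≤ 18 n + 6 S ≤ C := 18 n + 6 ε n^2`.
  `avg` with `u = δ n / 4`, `w = δ^2 n / (200 ε... )`: choose `w = 8 / δ`: `w C = 144 n/δ + 48 ε n^2/δ`; with `ε = δ^2/400` and `n ≥ 1200/δ^2`: `w C ≤ 0.12 δ n^2 + 0.12 δ n^2 ≤ A / 4`, `u B = δ n^2 / 4`.  So there is `l` with
    `x l ≥ δ n / 2`, `(δ n / 4) y l ≤ x l ≤ n` i.e. `y l ≤ 4 / δ`, and `z l ≤ (δ/8) x l`... we need `z l` small compared with the block: block size `k ≥ (x l - y l)/(y l + 1)`, `y l + 1 ≤ 5/δ`.  So use `w = 80/δ^2`... (general: choose `w = W/δ` and `ε` accordingly.)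
   We state: for every `δ ∈ (0, 1]` there are `ε > 0`, `N` such that for `n ≥ N`, `S ≤ ε n^2`, `g > δ n^2`: there is `l ∈ [a, b]` with `x l ≥ δ n / 2`, `y l ≤ 4 / δ`, `z l ≤ δ^2 n / 100`.
   (`avg` with `u = δ n / 4`, `w = 100/δ^2` (then `w z l ≤ x l ≤ n` gives the last one), `u B = A/4`, `w C = (100/δ^2)(18 n + 6 ε n^2) ≤ δ n^2/4` if `ε = δ^3/4800`, `n ≥ 14400/δ^3`.)
Step 2 (block).  `R = {r ∈ Icc a b | G l r}`, `N = {m ∈ R | l is last for m}` (`y l` elements), `block`: `c ≤ d` in `R`, no element of `N` in `[c, d]`, `#(R ∩ [c, d]) ≥ (x l - y l)/(y l + 1) ≥ (δ n/2 - 4/δ)/(4/δ + 1) ≥ δ^2 n / 20` for `n ≥ 160/δ^2`  (`(δ n/2 - 4/δ) ≥ δ n/4 + ...`: `4/δ + 1 ≤ 5/δ`; `(δ n / 2 - 4/δ) δ/5 ≥ δ^2 n/20` iff `δ^2 n/10 - 4/5 ≥ δ^2 n/20` iff `n ≥ 16/δ^2`).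
Step 3 (cover).  `H = {v ∈ R ∩ [c, d] | not covered}`: `#H ≥ δ^2 n/20 - z l ≥ δ^2 n / 25`.  `cover` (hB: elements of `R ∩ [c,d]` are not in `N`).
Step 4 (spread) for the interval `[c, d]`, `H`, density `#H / (d + 1 - c) ≥ δ^2/25` (as `d + 1 - c ≤ n`), `η = δ/2`: there is `[a', b'] ⊆ [c, d]`, `n' = b' + 1 - a' ≥ c' (d + 1 - c) ≥ c' #H ≥ c' δ^2 n / 25`, and every subinterval with at least `η n'` points meets `H`.
  Let `(p, q)` be counted by `g σ a' b'`: `G p q`.  No `v ∈ H` is in `(p, q)` (uncovered).  So `q - p - 1 < η n'` (otherwise apply it to `[p + 1, q - 1]`; if `q = p + 1` the inequality `0 < η n'` is clear).  So the number of such pairs is at most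
  `n' (η n' + 1) ≤ δ n'^2` if `n' ≥ 2/δ`, which holds for `n ≥ N`. -/

namespace ET
open Finset
open scoped Classical

namespace Sig

/-- many uncovered points in an interval -/
theorem exists_H (δ : ℝ) (hδ : 0 < δ) (hδ1 : δ ≤ 1) : ∃ ε : ℝ, 0 < ε ∧ ∃ N : ℝ, ∀ (σ : Sig) (a b : ℤ), a ≤ b →
    N ≤ ((b + 1 - a : ℤ) : ℝ) → (σ.S a b : ℝ) ≤ ε * ((b + 1 - a : ℤ) : ℝ) ^ 2 → δ * ((b + 1 - a : ℤ) : ℝ) ^ 2 < (σ.g a b : ℝ) →
    ∃ c d : ℤ, a ≤ c ∧ c ≤ d ∧ d ≤ b ∧ ∃ H : Finset ℤ, H ⊆ Icc c d ∧ δ ^ 2 * ((b + 1 - a : ℤ) : ℝ) / 25 ≤ (H.card : ℝ) ∧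
      ∀ v ∈ H, ∀ p q : ℤ, c ≤ p → p < v → v < q → q ≤ d → ¬ σ.G p q := by
  obtain ⟨ε, hε, N0, hN0⟩ := exists_l δ hδ hδ1
  refine ⟨ε, hε, max N0 (160 / δ ^ 2), ?_⟩
  intro σ a b hab hN hS hg
  obtain ⟨l, hl, hx, hy, hz⟩ := hN0 σ a b hab (le_trans (le_max_left _ _) hN) hS hg
  have hn : 160 ≤ δ ^ 2 * ((b + 1 - a : ℤ) : ℝ) := by
    have h1 : 160 / δ ^ 2 ≤ ((b + 1 - a : ℤ) : ℝ) := le_trans (le_max_right _ _) hN
    have h2 : 0 < δ ^ 2 := by positivity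
    rw [div_le_iff₀ h2] at h1
    linarith [mul_comm (δ ^ 2) ((b + 1 - a : ℤ) : ℝ)]
  obtain ⟨n, hnn⟩ : ∃ n : ℝ, n = ((b + 1 - a : ℤ) : ℝ) := ⟨_, rfl⟩
  rw [← hnn] at hx hz hn ⊢
  obtain ⟨R, hR⟩ : ∃ R : Finset ℤ, R = (Icc a b).filter (fun r => σ.G l r) := ⟨_, rfl⟩
  obtain ⟨M, hM⟩ : ∃ M : Finset ℤ, M = (Icc a b).filter
    (fun m => σ.G l m ∧ ¬ ∃ z, a ≤ z ∧ z < l ∧ σ.G z m) := ⟨_, rfl⟩
  rw [← hR] at hx
  rw [← hM] at hy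
  -- multiply through by δ
  have hx' : δ ^ 2 * n / 2 ≤ δ * (R.card : ℝ) := by
    have := mul_le_mul_of_nonneg_left hx hδ.le
    nlinarith [this]
  have hy' : δ * (M.card : ℝ) ≤ 4 := by
    rw [le_div_iff₀ hδ] at hy
    linarith [mul_comm δ (M.card : ℝ)]
  have hMR : M.card < R.card := by
    have h1 : δ * (M.card : ℝ) < δ * (R.card : ℝ) := by linarith
    have h2 := lt_of_mul_lt_mul_left h1 hδ.le
    exact_mod_cast h2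
  obtain ⟨c, hc, d, hd, hcd, hno, hcard⟩ := block R M hMR
  obtain ⟨K, hK⟩ : ∃ K : Finset ℤ, K = R.filter (fun y => c ≤ y ∧ y ≤ d) := ⟨_, rfl⟩
  rw [← hK] at hcard
  rw [hR, mem_filter, mem_Icc] at hc hd
  obtain ⟨⟨hc1, hc2⟩, hc3⟩ := hc
  obtain ⟨⟨hd1, hd2⟩, hd3⟩ := hd
  rw [mem_Icc] at hl
  have hcard' : (R.card : ℝ) ≤ (M.card : ℝ) + ((M.card : ℝ) + 1) * (K.card : ℝ) := by
    exact_mod_cast hcard
  have hKc : δ ^ 2 * n / 20 ≤ (K.card : ℝ) := by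
    have h0 : (0 : ℝ) ≤ (K.card : ℝ) := Nat.cast_nonneg _
    have h1 : δ * (R.card : ℝ) ≤ δ * (M.card : ℝ) + (δ * (M.card : ℝ) + δ) * (K.card : ℝ) := by
      have := mul_le_mul_of_nonneg_left hcard' hδ.le
      nlinarith [this]
    have h2 : (δ * (M.card : ℝ) + δ) * (K.card : ℝ) ≤ 5 * (K.card : ℝ) :=
      mul_le_mul_of_nonneg_right (by linarith) h0
    linarith
  have hcov := cover (σ := σ) (a := a) (b := b) (l := l) (c := c) (d := d) hl.1 hd2 hc3 hd3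
    (fun m hm hm1 hm2 => by
      by_contra hcon
      refine hno m ?_ ?_ ⟨hm1, hm2⟩
      · rw [hM, mem_filter, mem_Icc]
        exact ⟨⟨by omega, by omega⟩, hm, hcon⟩
      · rw [hR, mem_filter, mem_Icc]
        exact ⟨⟨by omega, by omega⟩, hm⟩)
  have hcov' : ((((Icc c d).filter (fun v => σ.G l v ∧ ∃ p q, c ≤ p ∧ p < v ∧ v < q ∧ q ≤ d ∧
      σ.G p q)).card : ℕ) : ℝ) ≤ δ ^ 2 * n / 100 := le_trans (by exact_mod_cast hcov) hz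
  refine ⟨c, d, hc1, hcd, hd2,
    K.filter (fun v => ¬ ∃ p q, c ≤ p ∧ p < v ∧ v < q ∧ q ≤ d ∧ σ.G p q), ?_, ?_, ?_⟩
  · intro v hv
    rw [mem_filter, hK, mem_filter] at hv
    rw [mem_Icc]
    exact hv.1.2
  · have h1 := card_filter_add_card_filter_not (s := K)
      (fun v => ∃ p q, c ≤ p ∧ p < v ∧ v < q ∧ q ≤ d ∧ σ.G p q)
    have h2 : (K.filter (fun v => ∃ p q, c ≤ p ∧ p < v ∧ v < q ∧ q ≤ d ∧ σ.G p q)).card ≤
        ((Icc c d).filter (fun v => σ.G l v ∧ ∃ p q, c ≤ p ∧ p < v ∧ v < q ∧ q ≤ d ∧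
          σ.G p q)).card := by
      refine card_le_card ?_
      intro v hv
      rw [mem_filter, hK, mem_filter, hR, mem_filter] at hv
      rw [mem_filter, mem_Icc]
      exact ⟨hv.1.2, hv.1.1.2, hv.2⟩
    have h1' : ((K.filter (fun v => ∃ p q, c ≤ p ∧ p < v ∧ v < q ∧ q ≤ d ∧ σ.G p q)).card : ℝ) +
        ((K.filter (fun v => ¬ ∃ p q, c ≤ p ∧ p < v ∧ v < q ∧ q ≤ d ∧ σ.G p q)).card : ℝ) =
        (K.card : ℝ) := by exact_mod_cast h1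
    have h2' : ((K.filter (fun v => ∃ p q, c ≤ p ∧ p < v ∧ v < q ∧ q ≤ d ∧ σ.G p q)).card : ℝ) ≤
        ((((Icc c d).filter (fun v => σ.G l v ∧ ∃ p q, c ≤ p ∧ p < v ∧ v < q ∧ q ≤ d ∧
          σ.G p q)).card : ℕ) : ℝ) := by exact_mod_cast h2
    linarith
  · intro v hv p q h1 h2 h3 h4 h5
    rw [mem_filter] at hv
    exact hv.2 ⟨p, q, h1, h2, h3, h4, h5⟩

end Sig
end ET
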