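import Pool.Agent.Lib.MP_4beb96_co.EMT.SlabUp

set_option autoImplicit false

/-! EMT-SlabD: both sides, and the main combinatorial theorem.

P1_le: `P1 ≤ g σ + g σ.flip` on `[a, b]` (`NoUp_flip`).
slab: given `0 < δ ≤ 1`.  Let `(c2, ε2, N2)` be from `slab_up (δ/2)`; let `(c1, ε1, N1)` be from `slab_up (c2^2 δ / 2)`.  Let `n` be large and `S ≤ ε n^2`.  First `slab_up (c2^2 δ/2)` for `σ`: `[a1, b1]`, `n1 ≥ c1 n`,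
  `g σ a1 b1 ≤ c2^2 (δ/2) n1^2`.  Then `slab_up (δ/2)` for `σ.flip` on `[a1, b1]`: `S σ.flip a1 b1 = S σ a1 b1 ≤ S σ a b ≤ ε n^2 ≤ (ε / c1^2) n1^2 ≤ ε2 n1^2` if `ε ≤ c1^2 ε2`; `[a2, b2]`, `n2 ≥ c2 n1`, `g σ.flip a2 b2 ≤ (δ/2) n2^2`.
  `g σ a2 b2 ≤ g σ a1 b1 ≤ c2^2 (δ/2) n1^2 ≤ (δ/2) n2^2` (g is monotone).  So `P1 σ a2 b2 ≤ δ n2^2`.  `c = c1 c2`.
main_comb: there are `δ0 > 0` and `N` with `S σ a b ≥ δ0 n^2` for all `σ`, `n ≥ N`.  Apply slab with `δ = 1/(4·10^6)`: `(c, ε, N)`.  If `S ≤ ε n^2`, the slab `[a', b']` satisfies `n' ≥ c n ≥ 10^7` and `4·10^6 P1 ≤ n'^2`, so `propM`: `n'^2 ≤ 2·10^6 S(a', b') ≤ 2·10^6 S`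
  (`S_mono`), so `S ≥ c^2 n^2 / (2·10^6)`.  `δ0 = min ε (c^2/(2·10^6))`.
main_X: there are `ε > 0` and `N : ℕ` such that for all `σ` and natural `n ≥ N`: `(1 + ε) n^2 ≤ X σ 0 (n - 1)`.  By `X_ge`: `X ≥ (n-1)(n-2) + S - 2 n ≥ n^2 - 5 n + δ0 n^2`; `ε = δ0/2`, `N ≥ 10/δ0`. -/

namespace ET
open Finset
open scoped Classical

namespace Sig

theorem P1_le {σ : Sig} {a b : ℤ} : σ.P1 a b ≤ σ.g a b + σ.flip.g a b := by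
  unfold P1 g
  refine le_trans (card_le_card (t := ((pairs a b).filter (fun p => σ.G p.1 p.2)) ∪
    ((pairs a b).filter (fun p => σ.flip.G p.1 p.2))) ?_) (card_union_le _ _)
  intro p hp
  rw [mem_filter] at hp
  obtain ⟨hp1, hp2, hp3⟩ := hp
  rw [mem_union, mem_filter, mem_filter]
  have hlt : p.1 < p.2 := by omega
  rcases hp3 with h | h
  · exact Or.inl ⟨hp1, hlt, h⟩
  · exact Or.inr ⟨hp1, hlt, NoUp_flip.mpr h⟩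

theorem g_mono {σ : Sig} {a b a' b' : ℤ} (ha : a ≤ a') (hb : b' ≤ b) : σ.g a' b' ≤ σ.g a b := by
  unfold g
  refine card_le_card ?_
  intro p hp
  rw [mem_filter, mem_pairs] at hp
  rw [mem_filter, mem_pairs]
  exact ⟨⟨by omega, hp.1.2.1, by omega⟩, hp.2⟩

theorem slab (δ : ℝ) (hδ : 0 < δ) (hδ1 : δ ≤ 1) : ∃ c : ℝ, 0 < c ∧ ∃ ε : ℝ, 0 < ε ∧ ∃ N : ℝ, ∀ (σ : Sig) (a b : ℤ), a ≤ b →
    N ≤ ((b + 1 - a : ℤ) : ℝ) → (σ.S a b : ℝ) ≤ ε * ((b + 1 - a : ℤ) : ℝ) ^ 2 →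
    ∃ a' b' : ℤ, a ≤ a' ∧ a' ≤ b' ∧ b' ≤ b ∧ c * ((b + 1 - a : ℤ) : ℝ) ≤ ((b' + 1 - a' : ℤ) : ℝ) ∧
      (σ.P1 a' b' : ℝ) ≤ δ * ((b' + 1 - a' : ℤ) : ℝ) ^ 2 := by
  obtain ⟨c2, hc2, hc21, ε2, hε2, N2, H2⟩ := slab_up (δ / 2) (by linarith) (by linarith)
  have hd1 : 0 < c2 ^ 2 * (δ / 2) := by positivity
  have hd2 : c2 ^ 2 * (δ / 2) ≤ 1 := by
    have h1 : c2 ^ 2 ≤ 1 := by nlinarith
    nlinarith
  obtain ⟨c1, hc1, hc11, ε1, hε1, N1, H1⟩ := slab_up (c2 ^ 2 * (δ / 2)) hd1 hd2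
  refine ⟨c2 * c1, by positivity, min ε1 (c1 ^ 2 * ε2), lt_min hε1 (by positivity),
    max N1 (N2 / c1), ?_⟩
  intro σ a b hab hN hS
  set n : ℝ := ((b + 1 - a : ℤ) : ℝ) with hn
  have hn0 : 0 ≤ n := by
    rw [hn]
    have : (0 : ℤ) ≤ b + 1 - a := by omega
    exact_mod_cast this
  have hS1 : (σ.S a b : ℝ) ≤ ε1 * n ^ 2 :=
    le_trans hS (mul_le_mul_of_nonneg_right (min_le_left _ _) (by positivity))
  obtain ⟨a1, b1, ha1, hab1, hb1, hn1, hg1⟩ := H1 σ a b hab (le_trans (le_max_left _ _) hN) hS1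
  set n1 : ℝ := ((b1 + 1 - a1 : ℤ) : ℝ) with hn1def
  have hN1 : N2 ≤ n1 := by
    have h1 : N2 / c1 ≤ n := le_trans (le_max_right _ _) hN
    rw [div_le_iff₀ hc1] at h1
    linarith [mul_comm n c1]
  have hS2 : (σ.flip.S a1 b1 : ℝ) ≤ ε2 * n1 ^ 2 := by
    rw [S_flip]
    have h1 : (σ.S a1 b1 : ℝ) ≤ σ.S a b := by exact_mod_cast S_mono ha1 hb1
    have h2 : (σ.S a b : ℝ) ≤ c1 ^ 2 * ε2 * n ^ 2 :=
      le_trans hS (mul_le_mul_of_nonneg_right (min_le_right _ _) (by positivity))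
    have h3 : (c1 * n) ^ 2 ≤ n1 ^ 2 := pow_le_pow_left₀ (by positivity) hn1 2
    have h4 : ε2 * (c1 * n) ^ 2 ≤ ε2 * n1 ^ 2 := mul_le_mul_of_nonneg_left h3 hε2.le
    nlinarith
  obtain ⟨a2, b2, ha2, hab2, hb2, hn2, hg2⟩ := H2 σ.flip a1 b1 hab1 hN1 hS2
  set n2 : ℝ := ((b2 + 1 - a2 : ℤ) : ℝ) with hn2def
  refine ⟨a2, b2, by omega, hab2, by omega, ?_, ?_⟩
  · calc c2 * c1 * n = c2 * (c1 * n) := by ring
      _ ≤ c2 * n1 := mul_le_mul_of_nonneg_left hn1 hc2.le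
      _ ≤ n2 := hn2
  · have h1 : (σ.P1 a2 b2 : ℝ) ≤ σ.g a2 b2 + σ.flip.g a2 b2 := by exact_mod_cast P1_le
    have h2 : (σ.g a2 b2 : ℝ) ≤ σ.g a1 b1 := by exact_mod_cast g_mono ha2 hb2
    have hn1' : 0 ≤ n1 := le_trans (by positivity) hn1
    have h3 : (c2 * n1) ^ 2 ≤ n2 ^ 2 := pow_le_pow_left₀ (by positivity) hn2 2
    have h4 : (δ / 2) * (c2 * n1) ^ 2 ≤ (δ / 2) * n2 ^ 2 := mul_le_mul_of_nonneg_left h3 (by positivity)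
    have h5 : (σ.g a2 b2 : ℝ) ≤ (δ / 2) * n2 ^ 2 := by
      calc (σ.g a2 b2 : ℝ) ≤ c2 ^ 2 * (δ / 2) * n1 ^ 2 := le_trans h2 hg1
        _ = (δ / 2) * (c2 * n1) ^ 2 := by ring
        _ ≤ _ := h4
    linarith

end Sig
end ET
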