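import Mathlib

set_option autoImplicit false

/-! EMT-Spread: the spread lemma (density increment in one extremal step).

Given `0 < η ≤ 1`, `0 < c ≤ 1` there is `c' > 0` such that for all integers `a ≤ b` and every finite `H ⊆ [a, b]` with `#H ≥ c (b + 1 - a)` there are `a ≤ a' ≤ b' ≤ b`
with `b' + 1 - a' ≥ c' (b + 1 - a)` and every subinterval `[x, y] ⊆ [a', b']` (`x ≤ y`) with `y + 1 - x ≥ η (b' + 1 - a')` contains a point of `H`.

Proof.  Let `s = 1 - η/2` (so `1/2 ≤ s < 1`), and for integers `a ≤ x ≤ y ≤ b` let `Φ(x, y) = #(H ∩ [x, y]) / (y + 1 - x)^s` (real power).  Choose `(a', b')` maximizing `Φ` over the finite nonempty set of these pairs.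
 Let `h = #(H ∩ [a', b'])`, `N = b' + 1 - a'`, `Φ = h / N^s`.
 (1) `Φ ≥ Φ(a, b) ≥ c (b+1-a)^(1-s) > 0`; and `h ≤ N` so `Φ ≤ N^(1-s)`.  So `N ≥ c^(1/(1-s)) (b + 1 - a)`.  `c' = c^(1/(1-s))`.
 (2) suppose `[x, y] ⊆ [a', b']`, `m := y + 1 - x ≥ η N`, has no point of `H`.  Let `N1 = x - a' ≥ 0`, `N2 = b' - y ≥ 0`, `h1 = #(H ∩ [a', x-1])`, `h2 = #(H ∩ [y+1, b'])`.  `N1 + N2 = N - m ≤ (1 - η) N`, `h1 + h2 = h > 0`.
   By maximality `h_i ≤ Φ N_i^s` (if `N_i = 0` then `h_i = 0`, also fine as `0^s = 0`).  So with `x_i = N_i / N`: `h_i / h ≤ x_i^s`, so `1 ≤ x_1^s + x_2^s` where `x_1 + x_2 ≤ 1 - η`, `x_i ≥ 0`.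
   Concavity (`Real.concaveOn_rpow`, or the power mean inequality `inner_le...`): `x_1^s + x_2^s ≤ 2 ((x_1+x_2)/2)^s ≤ 2^(1-s) (1-η)^s`.
   With `1 - s = η/2`: `2^(η/2) (1-η)^(1 - η/2) < 1`: logarithm: `(η/2) log 2 + (1 - η/2) log (1 - η) ≤ (η/2) log 2 - (1 - η/2) η < 0` since `log 2 < 1`, `1 - η/2 ≥ 1/2` (`η = 1`: then `x_1 = x_2 = 0`, contradiction directly, as `0^s = 0`).
   Contradiction.  (Alternative for the last step: from `h_i/h =: y_i`, `y_1 + y_2 = 1`, `x_i ≥ y_i^(1/s)`, `x_1 + x_2 ≥ y_1^(1/s) + y_2^(1/s) ≥ 2 (1/2)^(1/s) = 2^(1 - 1/s)`.) -/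

namespace ET
open Finset
open scoped Classical

private theorem spread_num {η : ℝ} (hη : 0 < η) (hη1 : η ≤ 1) :
    (2 : ℝ) ^ (η / 2) * (1 - η) ^ (1 - η / 2) < 1 := by
  have h1 : (1 - η) ^ (1 - η / 2) ≤ Real.exp (-(η * (1 - η / 2))) := by
    have h2 : 1 - η ≤ Real.exp (-η) := by
      have := Real.add_one_le_exp (-η)
      linarith
    calc (1 - η) ^ (1 - η / 2) ≤ (Real.exp (-η)) ^ (1 - η / 2) :=
          Real.rpow_le_rpow (by linarith) h2 (by linarith)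
      _ = Real.exp (-(η * (1 - η / 2))) := by
          rw [← Real.exp_mul]
          congr 1
          ring
  have h3 : (2 : ℝ) ^ (η / 2) = Real.exp (Real.log 2 * (η / 2)) :=
    Real.rpow_def_of_pos (by norm_num) _
  calc (2 : ℝ) ^ (η / 2) * (1 - η) ^ (1 - η / 2)
      ≤ Real.exp (Real.log 2 * (η / 2)) * Real.exp (-(η * (1 - η / 2))) := by
        rw [h3]
        exact mul_le_mul_of_nonneg_left h1 (Real.exp_pos _).le
    _ = Real.exp (Real.log 2 * (η / 2) + -(η * (1 - η / 2))) := (Real.exp_add _ _).symm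
    _ < 1 := by
        rw [Real.exp_lt_one_iff]
        have hl : Real.log 2 < 0.6931471808 := Real.log_two_lt_d9
        nlinarith

private theorem spread_conc {s : ℝ} (h0 : 0 ≤ s) (h1 : s ≤ 1) {u v : ℝ} (hu : 0 ≤ u)
    (hv : 0 ≤ v) : u ^ s + v ^ s ≤ 2 ^ (1 - s) * (u + v) ^ s := by
  have h2 := (Real.concaveOn_rpow h0 h1).2 (Set.mem_Ici.2 hu) (Set.mem_Ici.2 hv)
    (show (0 : ℝ) ≤ 1 / 2 by norm_num) (show (0 : ℝ) ≤ 1 / 2 by norm_num)
    (show (1 / 2 : ℝ) + 1 / 2 = 1 by norm_num)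
  simp only [smul_eq_mul] at h2
  have h3 : (1 / 2 * u + 1 / 2 * v : ℝ) = (1 / 2) * (u + v) := by ring
  rw [h3, Real.mul_rpow (by norm_num) (by linarith)] at h2
  have h4 : (2 : ℝ) ^ (1 - s) = 2 * (1 / 2) ^ s := by
    rw [Real.rpow_sub (by norm_num), Real.rpow_one, one_div, Real.inv_rpow (by norm_num)]
    rfl
  rw [h4]
  nlinarith


theorem spread (η c : ℝ) (hη : 0 < η) (hη1 : η ≤ 1) (hc : 0 < c) (hc1 : c ≤ 1) :
    ∃ c' : ℝ, 0 < c' ∧ ∀ (a b : ℤ) (H : Finset ℤ), a ≤ b → H ⊆ Icc a b → c * ((b + 1 - a : ℤ) : ℝ) ≤ (H.card : ℝ) →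
      ∃ a' b' : ℤ, a ≤ a' ∧ a' ≤ b' ∧ b' ≤ b ∧ c' * ((b + 1 - a : ℤ) : ℝ) ≤ ((b' + 1 - a' : ℤ) : ℝ) ∧
        ∀ x y : ℤ, a' ≤ x → x ≤ y → y ≤ b' → η * ((b' + 1 - a' : ℤ) : ℝ) ≤ ((y + 1 - x : ℤ) : ℝ) →
          ∃ v ∈ H, x ≤ v ∧ v ≤ y := by
  have hs0 : 0 < η / 2 := by linarith
  refine ⟨c ^ (1 / (η / 2)), Real.rpow_pos_of_pos hc _, fun a b H hab hH hcard => ?_⟩
  set s : ℝ := 1 - η / 2 with hs
  have hspos : 0 < s := by rw [hs]; linarith
  let cnt : ℤ → ℤ → ℕ := fun x y => (H.filter (fun v => x ≤ v ∧ v ≤ y)).card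
  let Φ : ℤ × ℤ → ℝ := fun p => (cnt p.1 p.2 : ℝ) / (((p.2 + 1 - p.1 : ℤ) : ℝ)) ^ s
  obtain ⟨p, hpP, hmax⟩ := Finset.exists_max_image
    (((Icc a b) ×ˢ (Icc a b)).filter (fun p : ℤ × ℤ => p.1 ≤ p.2)) Φ
    ⟨(a, b), by simp [hab]⟩
  obtain ⟨a', b'⟩ := p
  simp only [mem_filter, mem_product, mem_Icc] at hpP hmax
  obtain ⟨⟨⟨ha1, -⟩, -, hb2⟩, hab'⟩ := hpP
  have hL : (0 : ℝ) < ((b + 1 - a : ℤ) : ℝ) := by
    have : (0 : ℤ) < b + 1 - a := by omega
    exact_mod_cast this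
  have hN : (0 : ℝ) < ((b' + 1 - a' : ℤ) : ℝ) := by
    have : (0 : ℤ) < b' + 1 - a' := by omega
    exact_mod_cast this
  have hcntab : cnt a b = H.card := by
    show (H.filter (fun v => a ≤ v ∧ v ≤ b)).card = H.card
    rw [Finset.filter_true_of_mem]
    exact fun v hv => Finset.mem_Icc.1 (hH hv)
  have hcntN : (cnt a' b' : ℝ) ≤ ((b' + 1 - a' : ℤ) : ℝ) := by
    have h1 : cnt a' b' ≤ (Icc a' b').card := by
      refine Finset.card_le_card fun v hv => ?_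
      rw [Finset.mem_filter] at hv
      exact Finset.mem_Icc.2 hv.2
    rw [Int.card_Icc] at h1
    have h2 : ((cnt a' b' : ℕ) : ℤ) ≤ b' + 1 - a' := by omega
    exact_mod_cast h2
  have hΦab : c * (((b + 1 - a : ℤ) : ℝ)) ^ (η / 2) ≤ Φ (a, b) := by
    show c * (((b + 1 - a : ℤ) : ℝ)) ^ (η / 2) ≤ (cnt a b : ℝ) / (((b + 1 - a : ℤ) : ℝ)) ^ s
    rw [le_div_iff₀ (Real.rpow_pos_of_pos hL _), mul_assoc, ← Real.rpow_add hL, hcntab]
    have : η / 2 + s = 1 := by rw [hs]; ring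
    rw [this, Real.rpow_one]
    exact hcard
  have hΦle : Φ (a', b') ≤ (((b' + 1 - a' : ℤ) : ℝ)) ^ (η / 2) := by
    show (cnt a' b' : ℝ) / (((b' + 1 - a' : ℤ) : ℝ)) ^ s ≤ _
    rw [div_le_iff₀ (Real.rpow_pos_of_pos hN _), ← Real.rpow_add hN]
    have : η / 2 + s = 1 := by rw [hs]; ring
    rw [this, Real.rpow_one]
    exact hcntN
  have hm1 := hmax (a, b) ⟨⟨⟨le_refl a, hab⟩, hab, le_refl b⟩, hab⟩
  have hΦpos : 0 < Φ (a', b') :=
    lt_of_lt_of_le (mul_pos hc (Real.rpow_pos_of_pos hL _)) (hΦab.trans hm1)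
  have hkey : c * (((b + 1 - a : ℤ) : ℝ)) ^ (η / 2) ≤ (((b' + 1 - a' : ℤ) : ℝ)) ^ (η / 2) :=
    (hΦab.trans hm1).trans hΦle
  refine ⟨a', b', ha1, hab', hb2, ?_, ?_⟩
  · have h1 := Real.rpow_le_rpow (by positivity) hkey (z := 1 / (η / 2)) (by positivity)
    rw [Real.mul_rpow hc.le (by positivity), ← Real.rpow_mul hL.le, ← Real.rpow_mul hN.le,
      mul_one_div_cancel hs0.ne', Real.rpow_one, Real.rpow_one] at h1
    exact h1
  · intro x y hx hxy hy hm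
    by_contra hcon
    push Not at hcon
    have hsub : ∀ u w : ℤ, a' ≤ u → w ≤ b' →
        (cnt u w : ℝ) ≤ Φ (a', b') * (max ((w + 1 - u : ℤ) : ℝ) 0) ^ s := by
      intro u w hu hw
      by_cases huw : u ≤ w
      · have h1 := hmax (u, w) ⟨⟨⟨by omega, by omega⟩, by omega, by omega⟩, huw⟩
        have hpos : (0 : ℝ) < ((w + 1 - u : ℤ) : ℝ) := by
          have : (0 : ℤ) < w + 1 - u := by omega
          exact_mod_cast this
        have h2 : (cnt u w : ℝ) / (((w + 1 - u : ℤ) : ℝ)) ^ s ≤ Φ (a', b') := h1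
        rw [div_le_iff₀ (Real.rpow_pos_of_pos hpos _)] at h2
        rwa [max_eq_left hpos.le]
      · have h1 : cnt u w = 0 := by
          refine Finset.card_eq_zero.2 (Finset.filter_eq_empty_iff.2 fun v _ hv => ?_)
          omega
        rw [h1]
        have : (0 : ℝ) ≤ (max ((w + 1 - u : ℤ) : ℝ) 0) ^ s :=
          Real.rpow_nonneg (le_max_right _ _) _
        simpa using mul_nonneg hΦpos.le this
    have hsum : cnt a' b' = cnt a' (x - 1) + cnt (y + 1) b' := by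
      have h1 : H.filter (fun v => a' ≤ v ∧ v ≤ b') =
          H.filter (fun v => a' ≤ v ∧ v ≤ x - 1) ∪ H.filter (fun v => y + 1 ≤ v ∧ v ≤ b') := by
        ext v
        simp only [Finset.mem_filter, Finset.mem_union]
        constructor
        · rintro ⟨hv, h2, h3⟩
          by_cases hvx : x ≤ v
          · have := hcon v hv hvx
            exact Or.inr ⟨hv, by omega, h3⟩
          · exact Or.inl ⟨hv, h2, by omega⟩
        · rintro (⟨hv, h2, h3⟩ | ⟨hv, h2, h3⟩)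
          · exact ⟨hv, h2, by omega⟩
          · exact ⟨hv, by omega, h3⟩
      show (H.filter (fun v => a' ≤ v ∧ v ≤ b')).card = _
      rw [h1, Finset.card_union_of_disjoint]
      rw [Finset.disjoint_left]
      intro v hv hv2
      simp only [Finset.mem_filter] at hv hv2
      omega
    have hA := hsub a' (x - 1) le_rfl (by omega)
    have hB := hsub (y + 1) b' (by omega) le_rfl
    set N1 : ℝ := ((x - 1 + 1 - a' : ℤ) : ℝ) with hN1
    set N2 : ℝ := ((b' + 1 - (y + 1) : ℤ) : ℝ) with hN2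
    have hN1' : 0 ≤ N1 := by
      have : (0 : ℤ) ≤ x - 1 + 1 - a' := by omega
      rw [hN1]
      exact_mod_cast this
    have hN2' : 0 ≤ N2 := by
      have : (0 : ℤ) ≤ b' + 1 - (y + 1) := by omega
      rw [hN2]
      exact_mod_cast this
    rw [max_eq_left hN1'] at hA
    rw [max_eq_left hN2'] at hB
    set N : ℝ := ((b' + 1 - a' : ℤ) : ℝ) with hNdef
    have hNN : N1 + N2 ≤ (1 - η) * N := by
      have h1 : N1 + N2 = N - ((y + 1 - x : ℤ) : ℝ) := by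
        rw [hN1, hN2, hNdef]
        push_cast
        ring
      rw [h1]
      linarith
    have hcN : (cnt a' b' : ℝ) = Φ (a', b') * N ^ s := by
      show (cnt a' b' : ℝ) = (cnt a' b' : ℝ) / N ^ s * N ^ s
      rw [div_mul_cancel₀ _ (Real.rpow_pos_of_pos hN _).ne']
    have h5 : Φ (a', b') * N ^ s ≤ Φ (a', b') * (N1 ^ s + N2 ^ s) := by
      rw [← hcN, hsum, mul_add]
      push_cast
      exact add_le_add hA hB
    have h6 : N ^ s ≤ N1 ^ s + N2 ^ s := le_of_mul_le_mul_left h5 hΦpos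
    have h7 := spread_conc hspos.le (by rw [hs]; linarith) hN1' hN2'
    have h8 : (N1 + N2) ^ s ≤ ((1 - η) * N) ^ s :=
      Real.rpow_le_rpow (by linarith) hNN hspos.le
    rw [Real.mul_rpow (by linarith) hN.le] at h8
    have h9 : 1 - s = η / 2 := by rw [hs]; ring
    rw [h9] at h7
    have h10 := spread_num hη hη1
    rw [← hs] at h10
    have h11 : N ^ s ≤ 2 ^ (η / 2) * ((1 - η) ^ s * N ^ s) :=
      h6.trans (h7.trans (mul_le_mul_of_nonneg_left h8 (by positivity)))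
    have h12 : (0 : ℝ) < N ^ s := Real.rpow_pos_of_pos hN _
    nlinarith

end ET
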