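import Pool.Agent.Lib.MP_4beb96_co.EMT.SlabB
import Pool.Agent.Lib.MP_4beb96_co.EMT.Spread

set_option autoImplicit false

/-! EMT-SlabUp: a slab with few `G`-pairs.

Given `0 < δ ≤ 1`.  Let `n = b + 1 - a` (as a real number).  If `g σ a b ≤ δ n^2` take the whole interval.  Otherwise `g > δ n^2`.
Step 1 (choice of `l`), `exists_l`.  For `l ∈ L = Icc a b` let `x l = #{r ∈ Icc a b | G l r}`, `y l = #{m ∈ Icc a b | G l m ∧ ¬ ∃ z, a ≤ z ∧ z < l ∧ G z m}`, `z l = #{t ∈ ExcSet | t.1 = l}`.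
  `∑ x = g > δ n^2 = A`, `∑ y ≤ n = B` (each `m` has at most one such `l`), `∑ z = #ExcSet ≤ 18 n + 6 S ≤ C := 18 n + 6 ε n^2`.
  `avg` with `u = δ n / 4`, `w = δ^2 n / (200 ε... )`: choose `w = 8 / δ`: `w C = 144 n/δ + 48 ε n^2/δ`; with `ε = δ^2/400` and `n ≥ 1200/δ^2`: `w C ≤ 0.12 δ n^2 + 0.12 δ n^2 ≤ A / 4`, `u B = δ n^2 / 4`.  So there is `l` with
    `x l ≥ δ n / 2`, `(δ n / 4) y l ≤ x l ≤ n` i.e. `y l ≤ 4 / δ`, and `z l ≤ (δ/8) x l`... we need `z l` small compared with the block: block size `k ≥ (x l - y l)/(y l + 1)`, `y l + 1 ≤ 5/δ`.  So use `w = 80/δ^2`... (general: choose `w = W/δ` and `ε` accordingly.)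
   We state: for every `δ ∈ (0, 1]` there are `ε > 0`, `N` such that for `n ≥ N`, `S ≤ ε n^2`, `g > δ n^2`: there is `l ∈ [a, b]` with `x l ≥ δ n / 2`, `y l ≤ 4 / δ`, `z l ≤ δ^2 n / 100`.
   (`avg` with `u = δ n / 4`, `w = 100/δ^2` (then `w z l ≤ x l ≤ n` gives the last one), `u B = A/4`, `w C = (100/δ^2)(18 n + 6 ε n^2) ≤ δ n^2/4` if `ε = δ^3/4800`, `n ≥ 14400/δ^3`.)
Step 2 (block).  `R = {r ∈ Icc a b | G l r}`, `N = {m ∈ R | l is last for m}` (`y l` elements), `block`: `c ≤ d` in `R`, no element of `N` in `[c, d]`, `#(R ∩ [c, d]) ≥ (x l - y l)/(y l + 1) ≥ (δ n/2 - 4/δ)/(4/δ + 1) ≥ δ^2 n / 20` for `n ≥ 160/δ^2`  (`(δ n/2 - 4/δ) ≥ δ n/4 + ...`: `4/δ + 1 ≤ 5/δ`; `(δ n / 2 - 4/δ) δ/5 ≥ δ^2 n/20` iff `δ^2 n/10 - 4/5 ≥ δ^2 n/20` iff `n ≥ 16/δ^2`).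
Step 3 (cover).  `H = {v ∈ R ∩ [c, d] | not covered}`: `#H ≥ δ^2 n/20 - z l ≥ δ^2 n / 25`.  `cover` (hB: elements of `R ∩ [c,d]` are not in `N`).
Step 4 (spread) for the interval `[c, d]`, `H`, density `#H / (d + 1 - c) ≥ δ^2/25` (as `d + 1 - c ≤ n`), `η = δ/2`: there is `[a', b'] ⊆ [c, d]`, `n' = b' + 1 - a' ≥ c' (d + 1 - c) ≥ c' #H ≥ c' δ^2 n / 25`, and every subinterval with at least `η n'` points meets `H`.
  Let `(p, q)` be counted by `g σ a' b'`: `G p q`.  No `v ∈ H` is in `(p, q)` (uncovered).  So `q - p - 1 < η n'` (otherwise apply it to `[p + 1, q - 1]`; if `q = p + 1` the inequality `0 < η n'` is clear).  So the number of such pairs is at most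
  `n' (η n' + 1) ≤ δ n'^2` if `n' ≥ 2/δ`, which holds for `n ≥ N`. -/

namespace ET
open Finset
open scoped Classical

namespace Sig

theorem slab_up (δ : ℝ) (hδ : 0 < δ) (hδ1 : δ ≤ 1) : ∃ c : ℝ, 0 < c ∧ c ≤ 1 ∧ ∃ ε : ℝ, 0 < ε ∧ ∃ N : ℝ, ∀ (σ : Sig) (a b : ℤ), a ≤ b →
    N ≤ ((b + 1 - a : ℤ) : ℝ) → (σ.S a b : ℝ) ≤ ε * ((b + 1 - a : ℤ) : ℝ) ^ 2 →
    ∃ a' b' : ℤ, a ≤ a' ∧ a' ≤ b' ∧ b' ≤ b ∧ c * ((b + 1 - a : ℤ) : ℝ) ≤ ((b' + 1 - a' : ℤ) : ℝ) ∧
      (σ.g a' b' : ℝ) ≤ δ * ((b' + 1 - a' : ℤ) : ℝ) ^ 2 := by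
  obtain ⟨ε, hε, N1, hH⟩ := exists_H δ hδ hδ1
  have hd2 : 0 < δ ^ 2 / 25 := by positivity
  have hd2' : δ ^ 2 / 25 ≤ 1 := by nlinarith
  obtain ⟨c0, hc0, hsp⟩ := spread (δ / 2) (δ ^ 2 / 25) (by positivity) (by linarith) hd2 hd2'
  refine ⟨min 1 (c0 * (δ ^ 2 / 25)), lt_min one_pos (by positivity), min_le_left _ _, ε, hε,
    max N1 (50 / (c0 * δ ^ 3)), ?_⟩
  intro σ a b hab hN hS
  set n : ℝ := ((b + 1 - a : ℤ) : ℝ) with hn
  have hn0 : 0 < n := by
    rw [hn]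
    have : (0 : ℤ) < b + 1 - a := by omega
    exact_mod_cast this
  by_cases hg : (σ.g a b : ℝ) ≤ δ * n ^ 2
  · refine ⟨a, b, le_rfl, hab, le_rfl, ?_, hg⟩
    have := mul_le_mul_of_nonneg_right (min_le_left 1 (c0 * (δ ^ 2 / 25))) hn0.le
    rwa [one_mul] at this
  · push Not at hg
    obtain ⟨c, d, hac, hcd, hdb, H, hHs, hHc, hHu⟩ := hH σ a b hab ((le_max_left _ _).trans hN) hS hg
    rw [← hn] at hHc
    set m : ℝ := ((d + 1 - c : ℤ) : ℝ) with hm
    have hmn : m ≤ n := by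
      rw [hm, hn]
      have : d + 1 - c ≤ b + 1 - a := by omega
      exact_mod_cast this
    have hHm : (H.card : ℝ) ≤ m := by
      have h1 := Finset.card_le_card hHs
      rw [Int.card_Icc] at h1
      have h2 : (H.card : ℤ) ≤ d + 1 - c := by
        have h3 : (0 : ℤ) ≤ d + 1 - c := by omega
        omega
      rw [hm]
      exact_mod_cast h2
    obtain ⟨a', b', ha', hab', hb', hc', hpt⟩ := hsp c d H hcd hHs (by
      rw [← hm]
      calc δ ^ 2 / 25 * m ≤ δ ^ 2 / 25 * n := mul_le_mul_of_nonneg_left hmn hd2.le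
        _ = δ ^ 2 * n / 25 := by ring
        _ ≤ _ := hHc)
    rw [← hm] at hc'
    set n' : ℝ := ((b' + 1 - a' : ℤ) : ℝ) with hn'
    have hn1 : c0 * (δ ^ 2 / 25) * n ≤ n' := by
      calc c0 * (δ ^ 2 / 25) * n = c0 * (δ ^ 2 * n / 25) := by ring
        _ ≤ c0 * m := mul_le_mul_of_nonneg_left (hHc.trans hHm) hc0.le
        _ ≤ n' := hc'
    have hn2 : 2 / δ ≤ n' := by
      refine le_trans ?_ hn1
      have h1 : 50 / (c0 * δ ^ 3) ≤ n := (le_max_right _ _).trans hN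
      rw [div_le_iff₀ (by positivity)] at h1
      rw [div_le_iff₀ hδ]
      nlinarith
    have hn'0 : 0 < n' := lt_of_lt_of_le (by positivity) hn2
    refine ⟨a', b', hac.trans ha', hab', hb'.trans hdb, ?_, ?_⟩
    · exact (mul_le_mul_of_nonneg_right (min_le_right _ _) hn0.le).trans hn1
    · -- counting
      have hshort : ∀ p ∈ Icc a' b', ∀ q ∈ Icc a' b', σ.G p q → ((q - p - 1 : ℤ) : ℝ) < δ / 2 * n' := by
        intro p hp q hq hG
        rw [Finset.mem_Icc] at hp hq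
        by_contra hcon
        push Not at hcon
        have hpos : (0 : ℝ) < ((q - p - 1 : ℤ) : ℝ) := lt_of_lt_of_le (by positivity) hcon
        have hpos' : 0 < q - p - 1 := by exact_mod_cast hpos
        obtain ⟨v, hv, hv1, hv2⟩ := hpt (p + 1) (q - 1) (by omega) (by omega) (by omega) (by
          have e : (q - 1 + 1 - (p + 1) : ℤ) = q - p - 1 := by ring
          rw [e]
          exact hcon)
        exact hHu v hv p q (by omega) (by omega) (by omega) (by omega) hG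
      have hsub : (pairs a' b').filter (fun p => σ.G p.1 p.2) ⊆
          (Icc a' b').biUnion (fun p => (Ioc p (p + 1 + ⌊δ / 2 * n'⌋)).image (fun q => (p, q))) := by
        rintro ⟨p, q⟩ hpq
        simp only [pairs, Finset.mem_filter, Finset.mem_product] at hpq
        obtain ⟨⟨⟨hp, hq⟩, hlt⟩, hG⟩ := hpq
        rw [Finset.mem_biUnion]
        refine ⟨p, hp, ?_⟩
        rw [Finset.mem_image]
        refine ⟨q, ?_, rfl⟩
        rw [Finset.mem_Ioc]
        refine ⟨hlt, ?_⟩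
        have h1 := (hshort p hp q hq hG).le
        have h2 := Int.le_floor.2 h1
        omega
      have hfl : (0 : ℤ) ≤ ⌊δ / 2 * n'⌋ := Int.floor_nonneg.2 (by positivity)
      have hcard : (σ.g a' b' : ℝ) ≤ n' * (1 + δ / 2 * n') := by
        have h1 : σ.g a' b' ≤ (Icc a' b').card * (1 + ⌊δ / 2 * n'⌋).toNat := by
          refine (Finset.card_le_card hsub).trans ?_
          refine Finset.card_biUnion_le_card_mul _ _ _ fun p _ => ?_
          refine Finset.card_image_le.trans ?_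
          rw [Int.card_Ioc]
          apply le_of_eq
          congr 1
          ring
        have h2 : ((Icc a' b').card : ℝ) = n' := by
          rw [Int.card_Icc, hn']
          have h3 : ((b' + 1 - a').toNat : ℤ) = b' + 1 - a' := Int.toNat_of_nonneg (by omega)
          exact_mod_cast h3
        have h4 : (((1 + ⌊δ / 2 * n'⌋).toNat : ℕ) : ℝ) ≤ 1 + δ / 2 * n' := by
          have h5 : (((1 + ⌊δ / 2 * n'⌋).toNat : ℕ) : ℤ) = 1 + ⌊δ / 2 * n'⌋ :=
            Int.toNat_of_nonneg (by omega)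
          have h6 : (((1 + ⌊δ / 2 * n'⌋).toNat : ℕ) : ℝ) = 1 + (⌊δ / 2 * n'⌋ : ℝ) := by
            exact_mod_cast h5
          rw [h6]
          linarith [Int.floor_le (δ / 2 * n')]
        calc (σ.g a' b' : ℝ) ≤ ((Icc a' b').card * (1 + ⌊δ / 2 * n'⌋).toNat : ℕ) := by exact_mod_cast h1
          _ = n' * ((1 + ⌊δ / 2 * n'⌋).toNat : ℕ) := by rw [Nat.cast_mul, h2]
          _ ≤ n' * (1 + δ / 2 * n') := mul_le_mul_of_nonneg_left h4 hn'0.le
      refine hcard.trans ?_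
      rw [div_le_iff₀ hδ] at hn2
      nlinarith

end Sig
end ET
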