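import Pool.Agent.Lib.MP_4beb96_co.EMT.SDefs

set_option autoImplicit false

namespace ET
open Finset
open scoped Classical

theorem mem_pairs {a b : ℤ} {p : ℤ × ℤ} : p ∈ pairs a b ↔ a ≤ p.1 ∧ p.1 < p.2 ∧ p.2 ≤ b := by
  simp only [pairs, mem_filter, mem_product, mem_Icc]
  constructor
  · rintro ⟨⟨⟨h1, h2⟩, h3, h4⟩, h5⟩; exact ⟨h1, h5, h4⟩
  · rintro ⟨h1, h2, h3⟩; exact ⟨⟨⟨h1, by omega⟩, by omega, h3⟩, h2⟩

theorem mem_trip {a b : ℤ} {t : ℤ × ℤ × ℤ} : t ∈ trip a b ↔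
    (a ≤ t.1 ∧ t.1 ≤ b) ∧ (a ≤ t.2.1 ∧ t.2.1 ≤ b) ∧ (a ≤ t.2.2 ∧ t.2.2 ≤ b) := by
  simp only [trip, mem_product, mem_Icc]

namespace Sig
variable {σ : Sig}

theorem ccw_flip {a b c : ℤ} : σ.flip.ccw a b c ↔ σ.ccw b a c := by
  simp only [ccw, flip, not_not]; tauto

theorem ccw_mir {a b c : ℤ} : σ.mir.ccw a b c ↔ σ.ccw (-b) (-a) (-c) := by
  simp only [ccw, mir, neg_lt_neg_iff]; tauto

theorem ccw_rot {a b c : ℤ} : σ.rot.ccw a b c ↔ σ.ccw (-a) (-b) (-c) := by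
  rw [rot, ccw_flip, ccw_mir]

theorem ccw_cyc {a b c : ℤ} : σ.ccw a b c ↔ σ.ccw b c a := ⟨cyc, cyc'⟩

theorem Ins_cyc {a b c z : ℤ} : σ.Ins a b c z ↔ σ.Ins b c a z := by
  unfold Ins; tauto

theorem Ins_swap {a b c z : ℤ} : σ.Ins a b c z ↔ σ.Ins b a c z := by
  unfold Ins; tauto

theorem Emp_cyc {a b c : ℤ} : σ.Emp a b c ↔ σ.Emp b c a := by
  unfold Emp; simp only [Ins_cyc (a := a)]

theorem Emp_swap {a b c : ℤ} : σ.Emp a b c ↔ σ.Emp b a c := by
  unfold Emp; simp only [Ins_swap (a := a)]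

theorem Emp_swap' {a b c : ℤ} : σ.Emp a b c ↔ σ.Emp a c b := by
  rw [Emp_cyc, Emp_swap, Emp_cyc, Emp_cyc, Emp_cyc, Emp_cyc, ← Emp_cyc]

theorem Emp_flip {a b c : ℤ} : σ.flip.Emp a b c ↔ σ.Emp a b c := by
  unfold Emp Ins; simp only [ccw_flip]
  constructor <;> intro h z <;> have := h z <;> tauto

theorem Emp_mir {a b c : ℤ} : σ.mir.Emp a b c ↔ σ.Emp (-a) (-b) (-c) := by
  unfold Emp Ins; simp only [ccw_mir]
  constructor
  · intro h z
    have := h (-z)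
    rw [neg_neg] at this
    tauto
  · intro h z
    have := h (-z)
    tauto


theorem flip_flip : σ.flip.flip = σ := by
  cases σ; simp only [flip, not_not]

theorem mir_mir : σ.mir.mir = σ := by
  cases σ; simp only [mir, neg_neg]

theorem mir_flip : σ.flip.mir = σ.mir.flip := rfl

theorem rot_flip : σ.flip.rot = σ.rot.flip := rfl

theorem rot_rot : σ.rot.rot = σ := by
  rw [rot, rot, mir_flip, mir_mir, flip_flip]

/-- for a counterclockwise triangle the inside is given by one disjunct -/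
theorem Ins_iff {a b c z : ℤ} (h : σ.ccw a b c) :
    σ.Ins a b c z ↔ (σ.ccw a b z ∧ σ.ccw b c z ∧ σ.ccw c a z) := by
  unfold Ins
  constructor
  · rintro (h'|⟨h1, h2, h3⟩)
    · exact h'
    · exfalso
      -- reversed triangle b a c is ccw by rule 4
      have := ax4 (a := b) (b := a) (c := c) (d := z) h1 h3 h2
      exact asymm h this
  · exact Or.inl

theorem Ins_between {a b c z : ℤ} (h : σ.Ins a b c z) : (a < z ∨ b < z ∨ c < z) ∧ (z < a ∨ z < b ∨ z < c) := by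
  have key : ∀ {a b c z : ℤ}, σ.ccw a b z → σ.ccw b c z → σ.ccw c a z →
      (a < z ∨ b < z ∨ c < z) ∧ (z < a ∨ z < b ∨ z < c) := by
    intro a b c z h1 h2 h3
    have n1 := ne23 h1; have n2 := ne23 h2; have n3 := ne23 h3
    constructor
    · by_contra hn
      push Not at hn
      have := trL (σ := σ) (l := z) (a := a) (b := b) (c := c) (by omega) (by omega) (by omega) (cyc' h1) (cyc' h2)
      exact asymm' this (cyc' h3)
    · by_contra hn
      push Not at hn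
      have := trR (σ := σ) (l := z) (a := a) (b := b) (c := c) (by omega) (by omega) (by omega) (cyc' h1) (cyc' h2)
      exact asymm' this (cyc' h3)
  rcases h with ⟨h1, h2, h3⟩|⟨h1, h2, h3⟩
  · exact key h1 h2 h3
  · have := key h1 h3 h2
    tauto

theorem Emp_iff {a b c : ℤ} (h : σ.ccw a b c) :
    σ.Emp a b c ↔ ∀ z, ¬ (σ.ccw a b z ∧ σ.ccw b c z ∧ σ.ccw c a z) := by
  unfold Emp; simp only [Ins_iff h]

theorem SE_flip {b l q r : ℤ} : σ.flip.SE b l q r ↔ σ.SE b l r q := by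
  unfold SE
  simp only [ccw_flip, Emp_flip]
  constructor
  · rintro ⟨h1, h2, h3, h4, h5, h6, ⟨z, z1, z2, z3, z4⟩, w, w1, w2, w3, w4⟩
    exact ⟨h2, h1, h4, h3, cyc h5, Emp_swap'.1 h6, ⟨w, w1, w2, cyc w3, w4⟩, z, z1, z2, cyc z3, z4⟩
  · rintro ⟨h1, h2, h3, h4, h5, h6, ⟨z, z1, z2, z3, z4⟩, w, w1, w2, w3, w4⟩
    exact ⟨h2, h1, h4, h3, cyc' h5, Emp_swap'.1 h6, ⟨w, w1, w2, cyc' w3, w4⟩, z, z1, z2, cyc' z3, z4⟩

theorem flip_U {a b c : ℤ} : σ.flip.U a b c ↔ ¬ σ.U a b c := Iff.rfl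

theorem mir_U {a b c : ℤ} : σ.mir.U a b c ↔ σ.U (-c) (-b) (-a) := Iff.rfl

theorem Emp_rev {a b c : ℤ} : σ.Emp a b c ↔ σ.Emp c b a := by
  have h1 : σ.Emp a b c ↔ σ.Emp b a c := Emp_swap
  have h2 : σ.Emp c b a ↔ σ.Emp b a c := Emp_cyc
  rw [h1, h2]

theorem mem_SSet {a b : ℤ} {t : ℤ × ℤ × ℤ} : t ∈ σ.SSet a b ↔ a ≤ t.1 ∧ σ.SE b t.1 t.2.1 t.2.2 := by
  simp only [SSet, mem_filter, mem_trip]
  constructor
  · rintro ⟨⟨⟨h1, _⟩, _⟩, h⟩; exact ⟨h1, h⟩
  · rintro ⟨h1, h⟩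
    have h2 := h.1; have h3 := h.2.1; have h4 := h.2.2.1; have h5 := h.2.2.2.1
    exact ⟨⟨⟨h1, by omega⟩, ⟨by omega, h4⟩, by omega, h5⟩, h⟩

theorem S_flip {a b : ℤ} : σ.flip.S a b = σ.S a b := by
  unfold S
  refine card_bij (fun t _ => (t.1, t.2.2, t.2.1)) ?_ ?_ ?_
  · rintro ⟨x, y, z⟩ h
    rw [mem_SSet] at h ⊢
    exact ⟨h.1, SE_flip.1 h.2⟩
  · rintro ⟨x, y, z⟩ _ ⟨x', y', z'⟩ _ h
    simp only [Prod.mk.injEq] at h ⊢; tauto
  · rintro ⟨x, y, z⟩ h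
    rw [mem_SSet] at h
    exact ⟨(x, z, y), mem_SSet.2 ⟨h.1, SE_flip.2 h.2⟩, rfl⟩

theorem S_eq {a b : ℤ} : σ.S a b = σ.SL a b + σ.flip.SL a b := by
  have h1 : σ.S a b = ((σ.SSet a b).filter (fun t => t.2.1 < t.2.2)).card +
      ((σ.SSet a b).filter (fun t => ¬ t.2.1 < t.2.2)).card := by
    unfold S; exact (card_filter_add_card_filter_not _).symm
  rw [h1]
  unfold SL
  congr 1
  refine card_bij (fun t _ => (t.1, t.2.2, t.2.1)) ?_ ?_ ?_
  · rintro ⟨x, y, z⟩ h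
    rw [mem_filter, mem_SSet] at h
    rw [mem_filter, mem_SSet]
    refine ⟨⟨h.1.1, SE_flip.2 h.1.2⟩, ?_⟩
    have := ne23 h.1.2.2.2.2.2.1
    have h2 := h.2
    simp only [] at *
    omega
  · rintro ⟨x, y, z⟩ _ ⟨x', y', z'⟩ _ h
    simp only [Prod.mk.injEq] at h ⊢; tauto
  · rintro ⟨x, y, z⟩ h
    rw [mem_filter, mem_SSet] at h
    refine ⟨(x, z, y), ?_, rfl⟩
    rw [mem_filter, mem_SSet]
    refine ⟨⟨h.1.1, SE_flip.1 h.1.2⟩, ?_⟩
    have h2 := h.2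
    simp only [] at *
    omega

theorem S_mono {a b a' b' : ℤ} (ha : a ≤ a') (hb : b' ≤ b) : σ.S a' b' ≤ σ.S a b := by
  unfold S
  refine card_le_card (fun t ht => ?_)
  rw [mem_SSet] at ht ⊢
  obtain ⟨h1, h2, h3, h4, h5, h6, h7, ⟨z, z1, z2, z3⟩, w, w1, w2, w3⟩ := ht
  exact ⟨by omega, h2, h3, by omega, by omega, h6, h7, ⟨z, z1, by omega, z3⟩, w, w1, by omega, w3⟩

theorem AU_flip {l r : ℤ} : σ.flip.AU l r = σ.AL l r := by
  unfold AU AL
  ext m
  simp only [mem_filter, Emp_flip, flip_U]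

theorem AL_flip {l r : ℤ} : σ.flip.AL l r = σ.AU l r := by
  unfold AU AL
  ext m
  simp only [mem_filter, Emp_flip, flip_U, not_not]

theorem AU_mir {l r : ℤ} : (σ.mir.AU (-r) (-l)).card = (σ.AU l r).card := by
  refine card_bij (fun t _ => -t) ?_ ?_ ?_
  · intro t h
    simp only [AU, mem_filter, mem_Ioo, Emp_mir, mir_U, neg_neg] at *
    exact ⟨by omega, h.2.1, Emp_rev.1 h.2.2⟩
  · intro x _ y _ h; simpa using h
  · intro t h
    refine ⟨-t, ?_, neg_neg t⟩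
    simp only [AU, mem_filter, mem_Ioo, Emp_mir, mir_U, neg_neg] at *
    exact ⟨by omega, h.2.1, Emp_rev.1 h.2.2⟩

theorem AL_mir {l r : ℤ} : (σ.mir.AL (-r) (-l)).card = (σ.AL l r).card := by
  rw [← AU_flip, ← AU_flip, ← mir_flip, AU_mir]

theorem sum_pairs_neg {a b : ℤ} (f : ℤ × ℤ → ℕ) :
    ∑ p ∈ pairs (-b) (-a), f p = ∑ p ∈ pairs a b, f (-p.2, -p.1) := by
  refine sum_bij (fun p _ => (-p.2, -p.1)) ?_ ?_ ?_ ?_
  · intro p h; rw [mem_pairs] at *; simp only []; omega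
  · rintro ⟨x, y⟩ _ ⟨x', y'⟩ _ h
    simp only [Prod.mk.injEq, neg_inj] at h ⊢; tauto
  · rintro ⟨x, y⟩ h
    refine ⟨(-y, -x), ?_, by simp⟩
    rw [mem_pairs] at *; simp only [] at *; omega
  · rintro ⟨x, y⟩ _; simp

theorem card_pairs_neg {a b : ℤ} (P Q : ℤ × ℤ → Prop) [DecidablePred P] [DecidablePred Q] (h : ∀ x y, a ≤ x → x < y → y ≤ b → (P (-y, -x) ↔ Q (x, y))) :
    ((pairs (-b) (-a)).filter P).card = ((pairs a b).filter Q).card := by
  refine card_bij (fun p _ => (-p.2, -p.1)) ?_ ?_ ?_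
  · rintro ⟨x, y⟩ hp; rw [mem_filter, mem_pairs] at *; simp only [] at *
    refine ⟨by omega, (h _ _ (by omega) (by omega) (by omega)).1 ?_⟩
    rw [neg_neg, neg_neg]; exact hp.2
  · rintro ⟨x, y⟩ _ ⟨x', y'⟩ _ h
    simp only [Prod.mk.injEq, neg_inj] at h ⊢; tauto
  · rintro ⟨x, y⟩ hp
    refine ⟨(-y, -x), ?_, by simp⟩
    rw [mem_filter, mem_pairs] at *; simp only [] at *
    exact ⟨by omega, (h _ _ (by omega) (by omega) (by omega)).2 hp.2⟩

theorem T_flip {a b : ℤ} : σ.flip.T a b = σ.T a b := by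
  unfold T
  refine sum_congr rfl (fun p _ => ?_)
  rw [AU_flip, AL_flip, add_comm]

theorem T_mir {a b : ℤ} : σ.mir.T (-b) (-a) = σ.T a b := by
  unfold T
  rw [sum_pairs_neg]
  refine sum_congr rfl (fun p _ => ?_)
  simp only [AU_mir, AL_mir]

theorem NoUp_flip {l r : ℤ} : σ.flip.NoUp l r ↔ σ.NoLow l r := by
  unfold NoUp NoLow; simp only [flip_U, not_not]

theorem NoLow_flip {l r : ℤ} : σ.flip.NoLow l r ↔ σ.NoUp l r := by
  unfold NoUp NoLow; simp only [flip_U]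

theorem NoUp_mir {l r : ℤ} : σ.mir.NoUp (-r) (-l) ↔ σ.NoUp l r := by
  unfold NoUp; simp only [mir_U, neg_neg]
  constructor
  · intro h z h1 h2
    have := h (-z) (by omega) (by omega)
    rwa [neg_neg] at this
  · intro h z h1 h2
    exact h (-z) (by omega) (by omega)

theorem NoLow_mir {l r : ℤ} : σ.mir.NoLow (-r) (-l) ↔ σ.NoLow l r := by
  rw [← NoUp_flip, ← NoUp_flip, ← mir_flip, NoUp_mir]

theorem P1_flip {a b : ℤ} : σ.flip.P1 a b = σ.P1 a b := by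
  unfold P1; simp only [NoUp_flip, NoLow_flip]
  congr 1; ext p; simp only [mem_filter]; tauto

theorem P1_mir {a b : ℤ} : σ.mir.P1 (-b) (-a) = σ.P1 a b := by
  unfold P1
  refine card_pairs_neg _ _ (fun x y _ _ _ => ?_)
  simp only [NoUp_mir, NoLow_mir]
  constructor <;> rintro ⟨h1, h2⟩ <;> exact ⟨by omega, h2⟩

theorem G_mir {l r : ℤ} : σ.mir.G (-r) (-l) ↔ σ.G l r := by
  unfold G; rw [NoUp_mir]
  constructor <;> rintro ⟨h1, h2⟩ <;> exact ⟨by omega, h2⟩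

theorem g_mir {a b : ℤ} : σ.mir.g (-b) (-a) = σ.g a b := by
  unfold g
  exact card_pairs_neg _ _ (fun x y _ _ _ => G_mir)

theorem X_flip {a b : ℤ} : σ.flip.X a b = σ.X a b := by
  unfold X XSet; simp only [Emp_flip]

theorem X_mir {a b : ℤ} : σ.mir.X (-b) (-a) = σ.X a b := by
  unfold X
  refine card_bij (fun t _ => (-t.2.2, -t.2.1, -t.1)) ?_ ?_ ?_
  · rintro ⟨x, y, z⟩ h
    simp only [XSet, mem_filter, mem_trip, Emp_mir] at *
    exact ⟨by omega, by omega, by omega, Emp_rev.1 h.2.2.2⟩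
  · rintro ⟨x, y, z⟩ _ ⟨x', y', z'⟩ _ h
    simp only [Prod.mk.injEq, neg_inj] at h ⊢; tauto
  · rintro ⟨x, y, z⟩ h
    refine ⟨(-z, -y, -x), ?_, by simp⟩
    simp only [XSet, mem_filter, mem_trip, Emp_mir, neg_neg] at *
    exact ⟨by omega, by omega, by omega, Emp_rev.1 h.2.2.2⟩

/-! good pairs -/

theorem Good_flip {l r m w : ℤ} : σ.flip.Good l r m w ↔ σ.Good l r w m := by
  unfold Good
  simp only [flip_U, ccw_flip, not_not]
  constructor
  · rintro ⟨h1, h2, h3, h4, h5, h6, h7, h8⟩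
    refine ⟨h3, h4, h1, h2, h6, h5, fun z a b c d => ?_, fun z a b c d => ?_⟩
    · have := h8 z a b c d; exact ⟨cyc this.1, cyc this.2⟩
    · have := h7 z a b c d; exact ⟨cyc this.1, cyc this.2⟩
  · rintro ⟨h1, h2, h3, h4, h5, h6, h7, h8⟩
    refine ⟨h3, h4, h1, h2, h6, h5, fun z a b c d => ?_, fun z a b c d => ?_⟩
    · have := h8 z a b c d; exact ⟨cyc' this.1, cyc' this.2⟩
    · have := h7 z a b c d; exact ⟨cyc' this.1, cyc' this.2⟩

theorem Good_mir {l r m w : ℤ} : σ.mir.Good (-r) (-l) (-m) (-w) ↔ σ.Good l r m w := by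
  have key : ∀ {σ : Sig} {l r m w : ℤ}, σ.Good l r m w → σ.mir.Good (-r) (-l) (-m) (-w) := by
    intro σ l r m w ⟨h1, h2, h3, h4, h5, h6, h7, h8⟩
    refine ⟨by omega, by omega, by omega, by omega, ?_, ?_, fun z a b c d => ?_, fun z a b c d => ?_⟩
    · rw [mir_U]; simpa using h5
    · rw [mir_U]; simpa using h6
    · rw [mir_U] at d
      simp only [ccw_mir, neg_neg] at *
      have := h7 (-z) (by omega) (by omega) (by omega) (by simpa using d)
      exact ⟨cyc' this.2, cyc' this.1⟩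
    · rw [mir_U] at d
      simp only [ccw_mir, neg_neg] at *
      have := h8 (-z) (by omega) (by omega) (by omega) (by simpa using d)
      exact ⟨cyc' this.2, cyc' this.1⟩
  constructor
  · intro h
    have := key h
    rwa [mir_mir, neg_neg, neg_neg, neg_neg, neg_neg] at this
  · exact key

theorem Good_unique {l r m w m' w' : ℤ} (h : σ.Good l r m w) (h' : σ.Good l r m' w') : m = m' ∧ w = w' := by
  obtain ⟨h1, h2, h3, h4, h5, h6, h7, h8⟩ := h
  obtain ⟨g1, g2, g3, g4, g5, g6, g7, g8⟩ := h'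
  constructor
  · by_contra hn
    have a := (h7 m' g1 g2 (fun h => hn h.symm) g5).1
    have b := (g7 m h1 h2 hn h5).1
    exact asymm' a b
  · by_contra hn
    have a := (h8 w' g3 g4 (fun h => hn h.symm) g6).1
    have b := (g8 w h3 h4 hn h6).1
    exact asymm' a b

theorem Good_choose {l r : ℤ} (h : σ.good l r) : σ.Good l r (σ.lo l r) (σ.hi l r) := by
  unfold lo hi
  have h' : ∃ m w, σ.Good l r m w := h
  rw [dif_pos h', dif_pos h']
  exact h'.choose_spec.choose_spec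

theorem lo_eq {l r m w : ℤ} (h : σ.Good l r m w) : σ.lo l r = m :=
  (Good_unique (Good_choose ⟨m, w, h⟩) h).1

theorem hi_eq {l r m w : ℤ} (h : σ.Good l r m w) : σ.hi l r = w :=
  (Good_unique (Good_choose ⟨m, w, h⟩) h).2

theorem good_flip {l r : ℤ} : σ.flip.good l r ↔ σ.good l r := by
  constructor
  · rintro ⟨m, w, h⟩; exact ⟨w, m, Good_flip.1 h⟩
  · rintro ⟨m, w, h⟩; exact ⟨w, m, Good_flip.2 h⟩

theorem good_mir {l r : ℤ} : σ.mir.good (-r) (-l) ↔ σ.good l r := by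
  constructor
  · rintro ⟨m, w, h⟩
    refine ⟨-m, -w, ?_⟩
    rw [← Good_mir, neg_neg, neg_neg]; exact h
  · rintro ⟨m, w, h⟩; exact ⟨-m, -w, Good_mir.2 h⟩

theorem lo_flip {l r : ℤ} (h : σ.good l r) : σ.flip.lo l r = σ.hi l r :=
  lo_eq (Good_flip.2 (Good_choose h))

theorem hi_flip {l r : ℤ} (h : σ.good l r) : σ.flip.hi l r = σ.lo l r :=
  hi_eq (Good_flip.2 (Good_choose h))

theorem lo_mir {l r : ℤ} (h : σ.good l r) : σ.mir.lo (-r) (-l) = - σ.lo l r :=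
  lo_eq (Good_mir.2 (Good_choose h))

theorem hi_mir {l r : ℤ} (h : σ.good l r) : σ.mir.hi (-r) (-l) = - σ.hi l r :=
  hi_eq (Good_mir.2 (Good_choose h))

theorem good_rot {l r : ℤ} : σ.rot.good (-r) (-l) ↔ σ.good l r := by
  rw [rot, good_flip, good_mir]

theorem lo_rot {l r : ℤ} (h : σ.good l r) : σ.rot.lo (-r) (-l) = - σ.hi l r := by
  rw [rot, lo_flip (good_mir.2 h), hi_mir h]

theorem hi_rot {l r : ℤ} (h : σ.good l r) : σ.rot.hi (-r) (-l) = - σ.lo l r := by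
  rw [rot, hi_flip (good_mir.2 h), lo_mir h]

theorem NG_flip {a b : ℤ} : σ.flip.NG a b = σ.NG a b := by
  unfold NG; simp only [good_flip]

theorem NG_mir {a b : ℤ} : σ.mir.NG (-b) (-a) = σ.NG a b := by
  unfold NG
  exact card_pairs_neg _ _ (fun x y _ _ _ => not_congr good_mir)

theorem PL_rot {k l r : ℤ} : σ.rot.PL k (-r) (-l) ↔ σ.PL k l r := by
  unfold PL
  rw [good_rot]
  constructor
  · rintro ⟨h, h1, h2, h3⟩
    rw [lo_rot h, hi_rot h] at *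
    exact ⟨h, by omega, by omega, by omega⟩
  · rintro ⟨h, h1, h2, h3⟩
    rw [lo_rot h, hi_rot h]
    exact ⟨h, by omega, by omega, by omega⟩

theorem Imp_flip {k a b : ℤ} : σ.flip.Imp k a b = σ.Imp k a b := by
  unfold Imp; rw [flip_flip]
  congr 1; ext p; simp only [mem_filter]; tauto

theorem Imp_rot {k a b : ℤ} : σ.rot.Imp k (-b) (-a) = σ.Imp k a b := by
  unfold Imp
  refine card_pairs_neg _ _ (fun x y _ _ _ => ?_)
  simp only [← rot_flip, PL_rot]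

/-- a pair cannot be proper of both types -/
theorem PL_excl {k l r : ℤ} (h : σ.PL k l r) : ¬ σ.flip.PL k l r := by
  rintro ⟨h1, h2, h3, h4⟩
  have := h.2.1
  rw [lo_flip h.1, hi_flip h.1] at h2
  omega

end Sig
end ET
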