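import Pool.Agent.Lib.MP_4beb96_co.EMT.XSumB
import Pool.Agent.Lib.MP_4beb96_co.EMT.Apex

set_option autoImplicit false

/-! EMT-TIdA: bookkeeping.  All for `a ≤ b`, sums over `pairs a b`.

T_ident: `#AU + #AL = (#AU - 1) + (#AL - 1) + [AU ≠ ∅] + [AL ≠ ∅]` (truncated subtraction) and `[AU ≠ ∅] = [¬ NoUp]`,
 `[AL ≠ ∅] = [¬ NoLow]` (`AU_nonempty_iff`).  For a pair with `r = l + 1`: both are 0 (`NoUp`, `NoLow` hold vacuously).  For `l + 1 < r`: `NoUp` and `NoLow` do not
 hold both (take `z = l + 1`), so `[¬ NoUp] + [¬ NoLow] = 2 - [NoUp ∨ NoLow]`.  Hence, with `X_eq_sum_A`,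
 `X = T + 2 #{p ∈ pairs | p.1 + 1 < p.2} - P1`, and `2 #{p | p.1 + 1 < p.2} = (b - a)(b - a - 1)`.
T_le: `T = X + P1 - (b-a)(b-a-1) ≤ S + P1` by `X_le`.
NG_le: a pair which is not good has `r = l + 1` (there are `b - a` such pairs), or is counted by `P1`, or has both sides nonempty; in the last case `#AU ≥ 1`,
 `#AL ≥ 1` and not both are `1` (`good_of_card`), so its term in `L2` is at least 1.
pairs_card: `2 #pairs = (b + 1 - a)(b - a)`. -/

namespace ET
open Finset
open scoped Classical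

theorem pairs_card {a b : ℤ} (hab : a ≤ b) : 2 * ((pairs a b).card : ℤ) = (b + 1 - a) * (b - a) := by
  have h1 : (Icc a b).offDiag = pairs a b ∪ (pairs a b).image Prod.swap := by
    ext ⟨x, y⟩
    simp only [mem_offDiag, mem_union, mem_image, mem_pairs, mem_Icc, Prod.exists, Prod.swap_prod_mk, Prod.mk.injEq]
    constructor
    · rintro ⟨⟨h1, h2⟩, ⟨h3, h4⟩, h5⟩
      rcases lt_or_gt_of_ne h5 with h|h
      · exact Or.inl ⟨h1, h, h4⟩
      · exact Or.inr ⟨y, x, ⟨h3, h, h2⟩, rfl, rfl⟩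
    · rintro (⟨h1, h2, h3⟩|⟨u, v, ⟨h1, h2, h3⟩, rfl, rfl⟩)
      · exact ⟨⟨by omega, by omega⟩, ⟨by omega, by omega⟩, by omega⟩
      · exact ⟨⟨by omega, by omega⟩, ⟨by omega, by omega⟩, by omega⟩
  have h2 : Disjoint (pairs a b) ((pairs a b).image Prod.swap) := by
    rw [Finset.disjoint_left]
    rintro ⟨x, y⟩ hx hy
    simp only [mem_image, mem_pairs, Prod.exists, Prod.swap_prod_mk, Prod.mk.injEq] at hx hy
    obtain ⟨u, v, ⟨g1, g2, g3⟩, rfl, rfl⟩ := hy
    omega
  have h3 : ((pairs a b).image Prod.swap).card = (pairs a b).card :=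
    card_image_of_injective _ Prod.swap_injective
  have h4 := congrArg Finset.card h1
  rw [card_union_of_disjoint h2, h3, offDiag_card, Int.card_Icc] at h4
  have h5 : ((b + 1 - a).toNat : ℤ) = b + 1 - a := Int.toNat_of_nonneg (by omega)
  generalize (b + 1 - a).toNat = N at h4 h5
  have hN : 1 ≤ N := by omega
  have h6 : N ≤ N * N := Nat.le_mul_self N
  have h7 : (((N * N - N : ℕ)) : ℤ) = (N : ℤ) * N - N := by
    rw [Nat.cast_sub h6]; push_cast; ring
  have h8 : ((N * N - N : ℕ) : ℤ) = (pairs a b).card + (pairs a b).card := by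
    rw [h4]; push_cast; ring
  rw [h7, h5] at h8
  nlinarith [h8]

theorem pairs_far_card {a b : ℤ} (hab : a ≤ b) :
    2 * (((pairs a b).filter (fun p => p.1 + 1 < p.2)).card : ℤ) = (b - a) * (b - a - 1) := by
  rcases eq_or_lt_of_le hab with h | h
  · have h0 : (pairs a b).filter (fun p => p.1 + 1 < p.2) = ∅ := by
      rw [filter_eq_empty_iff]
      rintro ⟨x, y⟩ hx
      rw [mem_pairs] at hx
      simp only [] at *
      omega
    rw [h0]
    subst h
    simp
  · have h1 : ((pairs a b).filter (fun p => p.1 + 1 < p.2)).card = (pairs a (b - 1)).card := by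
      refine card_bij (fun p _ => (p.1, p.2 - 1)) ?_ ?_ ?_
      · rintro ⟨x, y⟩ hp
        rw [mem_filter, mem_pairs] at hp
        rw [mem_pairs]
        simp only [] at *
        omega
      · rintro ⟨x, y⟩ _ ⟨x', y'⟩ _ h
        simp only [Prod.mk.injEq] at h ⊢
        omega
      · rintro ⟨x, y⟩ hp
        rw [mem_pairs] at hp
        refine ⟨(x, y + 1), ?_, ?_⟩
        · rw [mem_filter, mem_pairs]
          simp only [] at *
          omega
        · simp
    rw [h1, pairs_card (by omega)]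
    ring

namespace Sig
variable {σ : Sig}

theorem T_term {l r : ℤ} (h : l < r) :
    ((σ.AU l r).card - 1) + ((σ.AL l r).card - 1) + 2 * (if l + 1 < r then 1 else 0) =
      ((σ.AU l r).card + (σ.AL l r).card) + (if l + 1 < r ∧ (σ.NoUp l r ∨ σ.NoLow l r) then 1 else 0) := by
  have hU : 0 < (σ.AU l r).card ↔ ¬ σ.NoUp l r := by rw [card_pos]; exact AU_nonempty_iff
  have hL : 0 < (σ.AL l r).card ↔ ¬ σ.NoLow l r := by rw [card_pos]; exact AL_nonempty_iff
  by_cases hr : l + 1 < r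
  · have hno : ¬ (σ.NoUp l r ∧ σ.NoLow l r) := by
      rintro ⟨h1, h2⟩
      exact h1 (l + 1) (by omega) hr (h2 (l + 1) (by omega) hr)
    by_cases a1 : σ.NoUp l r
    · have a2 : ¬ σ.NoLow l r := fun h' => hno ⟨a1, h'⟩
      have b1 : ¬ 0 < (σ.AU l r).card := fun h' => (hU.1 h') a1
      have b2 := hL.2 a2
      rw [if_pos hr, if_pos ⟨hr, Or.inl a1⟩]
      omega
    · by_cases a2 : σ.NoLow l r
      · have b1 := hU.2 a1
        have b2 : ¬ 0 < (σ.AL l r).card := fun h' => (hL.1 h') a2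
        rw [if_pos hr, if_pos ⟨hr, Or.inr a2⟩]
        omega
      · have b1 := hU.2 a1
        have b2 := hL.2 a2
        rw [if_pos hr, if_neg (by tauto)]
        omega
  · have a1 : σ.NoUp l r := fun z h1 h2 => by omega
    have a2 : σ.NoLow l r := fun z h1 h2 => by omega
    have b1 : ¬ 0 < (σ.AU l r).card := fun h' => (hU.1 h') a1
    have b2 : ¬ 0 < (σ.AL l r).card := fun h' => (hL.1 h') a2
    rw [if_neg hr, if_neg (by tauto)]
    omega

theorem T_ident {a b : ℤ} (hab : a ≤ b) : (σ.T a b : ℤ) + (b - a) * (b - a - 1) = σ.X a b + σ.P1 a b := by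
  have h1 : σ.T a b + 2 * ((pairs a b).filter (fun p => p.1 + 1 < p.2)).card = σ.X a b + σ.P1 a b := by
    rw [X_eq_sum_A]
    unfold T P1
    rw [card_filter, card_filter, mul_sum, ← sum_add_distrib, ← sum_add_distrib]
    refine sum_congr rfl (fun p hp => ?_)
    rw [mem_pairs] at hp
    exact T_term hp.2.1
  have h2 := pairs_far_card hab
  have h3 : (σ.T a b : ℤ) + 2 * (((pairs a b).filter (fun p => p.1 + 1 < p.2)).card : ℤ) = σ.X a b + σ.P1 a b := by
    exact_mod_cast h1
  rw [h2] at h3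
  exact h3

end Sig
end ET
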