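import Pool.Agent.Lib.MP_4beb96_co.EMT.XSum
import Pool.Agent.Lib.MP_4beb96_co.EMT.PreSuf

set_option autoImplicit false

/-! EMT-Tan: numbers of prefix and suffix tangents at a pivot `l`, `W = Ioc l b`.

A0 = visible pairs `(q, r)` with no `z` before `q` near the line `q r`; B0 = visible pairs with no `z` after `r` near the line.
First the dictionary: for `q, r ∈ Ioc l b`:  `(q, r) ∈ A0 ↔ Pre (Ioc l b) l r q`.
 (→) let `z ∈ W`, `z ≠ q`, `ccw l z r`.  Claim `ccw r q z`.  If not, `ccw q r z` (`total`, `z ≠ r` by `ne23`).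
   If `ccw l z q`: contradiction to A0.  If `ccw l q z`: `z` is inside the triangle: `ccw l q z, ccw q r z, ccw r l z`, contradiction to `Emp`
   (`Emp_iff`).
 (←) `Emp`: `z` inside: `ccw l q z, ccw q r z, ccw r l z`; by `Ins_between` (`l` is smaller than `q, r`): `l < z` and `z < q ∨ z < r` so `z ∈ W`
   (`z ≠ q`), `ccw l z r`: so `ccw r q z`, contradiction to `ccw q r z`.  No `z` before `q`: `ccw l z q`, `ccw q r z`: then `ccw l z r` (`trL`), `z ≠ q`, `ccw r q z`, contradiction.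
A0_card: the map `(q, r) ↦ r` is injective on `A0` (`Pre_unique`), its image is the set of all `r ∈ W` that are not the `<_l`-smallest element of `W`
  (`Pre_exists`); the smallest element exists since `l < b` (`exists_greatest` for the reversed relation `R x y := ccw l y x`), and it is unique.
  So the image has `b - l - 1` elements.
B0_card: apply A0_card to `flip`: `(q, r) ∈ B0 σ ↔ (r, q) ∈ A0 σ.flip` (`ccw_flip`, `Emp_flip`, `Emp_swap'`, `cyc`), a bijection.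
Vis_split: `Vis \ (A0 ∪ B0) = SAt` (unfold `SE`). -/

namespace ET
open Finset
open scoped Classical

namespace Sig
variable {σ : Sig}

noncomputable def A0 (σ : Sig) (b l : ℤ) : Finset (ℤ × ℤ) :=
  (σ.Vis b l).filter (fun p => ¬ ∃ z, l < z ∧ z ≤ b ∧ σ.ccw l z p.1 ∧ σ.ccw p.1 p.2 z)

noncomputable def B0 (σ : Sig) (b l : ℤ) : Finset (ℤ × ℤ) :=
  (σ.Vis b l).filter (fun p => ¬ ∃ z, l < z ∧ z ≤ b ∧ σ.ccw l p.2 z ∧ σ.ccw p.1 p.2 z)

theorem mem_Vis' {b l q r : ℤ} : (q, r) ∈ σ.Vis b l ↔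
    (l < q ∧ q ≤ b) ∧ (l < r ∧ r ≤ b) ∧ σ.ccw l q r ∧ σ.Emp l q r := by
  simp only [Vis, mem_filter, mem_product, mem_Ioc]
  tauto

theorem mem_A0 {b l q r : ℤ} (hq : l < q) (hq' : q ≤ b) (hr : l < r) (hr' : r ≤ b) :
    (q, r) ∈ σ.A0 b l ↔ σ.Pre (Ioc l b) l r q := by
  rw [A0, mem_filter, mem_Vis']
  constructor
  · rintro ⟨⟨_, _, h1, h2⟩, h3⟩
    refine ⟨mem_Ioc.mpr ⟨hq, hq'⟩, h1, ?_⟩
    intro z hz hzq hzr
    rw [mem_Ioc] at hz
    have hzr' : z ≠ r := ne23 hzr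
    have hqr : q ≠ r := ne23 h1
    rcases total (σ := σ) (a := r) (b := q) (c := z) hqr.symm hzr'.symm hzq.symm with h | h
    · exact h
    · exfalso
      rcases total (σ := σ) (a := l) (b := z) (c := q) (by omega) (by omega) hzq with h4 | h4
      · exact h3 ⟨z, hz.1, hz.2, h4, h⟩
      · exact (Emp_iff h1).mp h2 z ⟨cyc h4, h, cyc' hzr⟩
  · rintro ⟨_, h1, h2⟩
    refine ⟨⟨⟨hq, hq'⟩, ⟨hr, hr'⟩, h1, ?_⟩, ?_⟩
    · rw [Emp_iff h1]
      rintro z ⟨h3, h4, h5⟩
      have h6 := Ins_between ((Ins_iff h1).mpr ⟨h3, h4, h5⟩)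
      have hlz : l < z := by
        rcases h6.1 with h | h | h <;> omega
      have hzb : z ≤ b := by
        rcases h6.2 with h | h | h <;> omega
      have h7 := h2 z (mem_Ioc.mpr ⟨hlz, hzb⟩) (ne23 h3).symm (cyc h5)
      exact asymm h7 h4
    · rintro ⟨z, hz1, hz2, h3, h4⟩
      have h5 : σ.ccw l z r := trL hz1 hq hr h3 h1
      have h7 := h2 z (mem_Ioc.mpr ⟨hz1, hz2⟩) (ne23 h3) h5
      exact asymm h7 h4

theorem Vis_split {b l : ℤ} : σ.Vis b l = (σ.A0 b l ∪ σ.B0 b l) ∪ σ.SAt b l ∧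
    Disjoint (σ.A0 b l ∪ σ.B0 b l) (σ.SAt b l) := by
  have hS : ∀ q r : ℤ, (q, r) ∈ σ.SAt b l ↔ (q, r) ∈ σ.Vis b l ∧
      (∃ z, l < z ∧ z ≤ b ∧ σ.ccw l z q ∧ σ.ccw q r z) ∧
      (∃ z, l < z ∧ z ≤ b ∧ σ.ccw l r z ∧ σ.ccw q r z) := by
    intro q r
    rw [mem_Vis']
    simp only [SAt, SE, mem_filter, mem_product, mem_Ioc]
    constructor
    · rintro ⟨⟨h1, h2⟩, _, _, _, _, h3, h4, h5, h6⟩
      exact ⟨⟨h1, h2, h3, h4⟩, h5, h6⟩
    · rintro ⟨⟨h1, h2, h3, h4⟩, h5, h6⟩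
      exact ⟨⟨h1, h2⟩, h1.1, h2.1, h1.2, h2.2, h3, h4, h5, h6⟩
  constructor
  · ext ⟨q, r⟩
    rw [mem_union, mem_union, hS, A0, B0, mem_filter, mem_filter]
    by_cases h1 : ∃ z, l < z ∧ z ≤ b ∧ σ.ccw l z q ∧ σ.ccw q r z
    · by_cases h2 : ∃ z, l < z ∧ z ≤ b ∧ σ.ccw l r z ∧ σ.ccw q r z
      · constructor
        · intro h
          exact Or.inr ⟨h, h1, h2⟩
        · rintro ((h | h) | h)
          · exact h.1
          · exact h.1
          · exact h.1
      · constructor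
        · intro h
          exact Or.inl (Or.inr ⟨h, h2⟩)
        · rintro ((h | h) | h)
          · exact h.1
          · exact h.1
          · exact h.1
    · constructor
      · intro h
        exact Or.inl (Or.inl ⟨h, h1⟩)
      · rintro ((h | h) | h)
        · exact h.1
        · exact h.1
        · exact h.1
  · rw [Finset.disjoint_left]
    rintro ⟨q, r⟩ h h'
    rw [hS] at h'
    rw [mem_union, A0, B0, mem_filter, mem_filter] at h
    rcases h with h | h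
    · exact h.2 h'.2.1
    · exact h.2 h'.2.2

end Sig
end ET
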