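import Pool.Agent.Lib.MP_4beb96_co.EMT.Tan

set_option autoImplicit false

/-! EMT-TanB: numbers of prefix and suffix tangents at a pivot `l`, `W = Ioc l b`.

A0 = visible pairs `(q, r)` with no `z` before `q` near the line `q r`; B0 = visible pairs with no `z` after `r` near the line.
First the dictionary: for `q, r ∈ Ioc l b`:  `(q, r) ∈ A0 ↔ Pre (Ioc l b) l r q`.
 (→) let `z ∈ W`, `z ≠ q`, `ccw l z r`.  Claim `ccw r q z`.  If not, `ccw q r z` (`total`, `z ≠ r` by `ne23`).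
   If `ccw l z q`: contradiction to A0.  If `ccw l q z`: `z` is inside the triangle: `ccw l q z, ccw q r z, ccw r l z`, contradiction to `Emp`
   (`Emp_iff`).
 (←) `Emp`: `z` inside: `ccw l q z, ccw q r z, ccw r l z`; by `Ins_between` (`l` is smaller than `q, r`): `l < z` and `z < q ∨ z < r` so `z ∈ W`
   (`z ≠ q`), `ccw l z r`: so `ccw r q z`, contradiction to `ccw q r z`.  No `z` before `q`: `ccw l z q`, `ccw q r z`: then `ccw l z r` (`trL`), `z ≠ q`, `ccw r q z`, contradiction.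
A0_card: the map `(q, r) ↦ r` is injective on `A0` (`Pre_unique`), its image is the set of all `r ∈ W` that are not the `<_l`-smallest element of `W`
  (`Pre_exists`); the smallest element exists since `l < b` (`exists_greatest` for the reversed relation `R x y := ccw l y x`), and it is unique.
  So the image has `b - l - 1` elements.
B0_card: apply A0_card to `flip`: `(q, r) ∈ B0 σ ↔ (r, q) ∈ A0 σ.flip` (`ccw_flip`, `Emp_flip`, `Emp_swap'`, `cyc`), a bijection.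
Vis_split: `Vis \ (A0 ∪ B0) = SAt` (unfold `SE`). -/

namespace ET
open Finset
open scoped Classical

namespace Sig
variable {σ : Sig}

private lemma tanb_least {b l : ℤ} (h : l < b) :
    ∃ m ∈ Ioc l b, ∀ z ∈ Ioc l b, z ≠ m → σ.ccw l m z := by
  refine exists_greatest (Ioc l b) ⟨b, mem_Ioc.2 ⟨h, le_refl b⟩⟩ (fun x y => σ.ccw l y x) ?_ ?_
  · intro x hx y hy z hz h1 h2
    rw [mem_Ioc] at hx hy hz
    exact trL (σ := σ) (l := l) (a := z) (b := y) (c := x) hz.1 hy.1 hx.1 h2 h1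
  · intro x hx y hy hxy
    rw [mem_Ioc] at hx hy
    exact total' (σ := σ) (by omega) (by omega) (fun h => hxy h.symm)

private lemma tanb_mem {b l : ℤ} {p : ℤ × ℤ} (hp : p ∈ σ.A0 b l) : p.1 ∈ Ioc l b ∧ p.2 ∈ Ioc l b := by
  unfold A0 Vis at hp
  simp only [mem_filter, mem_product] at hp
  exact hp.1.1

theorem A0_card {b l : ℤ} (h : l < b) : ((σ.A0 b l).card : ℤ) = b - l - 1 := by
  obtain ⟨m, hm, hmz⟩ := tanb_least (σ := σ) h
  have hW : ∀ z ∈ Ioc l b, l < z := fun z hz => (mem_Ioc.1 hz).1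
  have hcard : (σ.A0 b l).card = ((Ioc l b).erase m).card := by
    refine card_bij (fun p _ => p.2) ?_ ?_ ?_
    · intro p hp
      obtain ⟨h1, h2⟩ := tanb_mem hp
      have hPre : σ.Pre (Ioc l b) l p.2 p.1 := by
        rw [← mem_A0 (mem_Ioc.1 h1).1 (mem_Ioc.1 h1).2 (mem_Ioc.1 h2).1 (mem_Ioc.1 h2).2]
        exact hp
      refine mem_erase.2 ⟨?_, h2⟩
      intro hpm
      have h3 := hPre.2.1
      have h4 : p.1 ≠ m := by rw [← hpm]; exact ne23 h3
      have h5 := hmz p.1 h1 h4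
      rw [hpm] at h3
      exact asymm' h3 h5
    · intro p hp p' hp' he
      obtain ⟨h1, h2⟩ := tanb_mem hp
      obtain ⟨h1', h2'⟩ := tanb_mem hp'
      have hPre : σ.Pre (Ioc l b) l p.2 p.1 := by
        rw [← mem_A0 (mem_Ioc.1 h1).1 (mem_Ioc.1 h1).2 (mem_Ioc.1 h2).1 (mem_Ioc.1 h2).2]
        exact hp
      have hPre' : σ.Pre (Ioc l b) l p'.2 p'.1 := by
        rw [← mem_A0 (mem_Ioc.1 h1').1 (mem_Ioc.1 h1').2 (mem_Ioc.1 h2').1 (mem_Ioc.1 h2').2]
        exact hp'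
      rw [← he] at hPre'
      exact Prod.ext (Pre_unique hPre hPre') he
    · intro r hr
      obtain ⟨hrm, hr⟩ := mem_erase.1 hr
      obtain ⟨q, hq⟩ := Pre_exists (σ := σ) (W := Ioc l b) (l := l) (r := r) hW ⟨m, hm, hmz r hr hrm⟩
      have hq1 := hq.1
      exact ⟨(q, r), (mem_A0 (mem_Ioc.1 hq1).1 (mem_Ioc.1 hq1).2 (mem_Ioc.1 hr).1 (mem_Ioc.1 hr).2).2 hq, rfl⟩
  rw [hcard, card_erase_of_mem hm, Int.card_Ioc]
  omega

private lemma tanb_flip {b l q r : ℤ} : (q, r) ∈ σ.B0 b l ↔ (r, q) ∈ σ.flip.A0 b l := by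
  unfold A0 B0 Vis
  simp only [mem_filter, mem_product, ccw_flip, Emp_flip]
  constructor
  · rintro ⟨⟨⟨h1, h2⟩, h3, h4⟩, h5⟩
    refine ⟨⟨⟨h2, h1⟩, cyc' h3, Emp_swap'.1 h4⟩, ?_⟩
    rintro ⟨z, z1, z2, z3, z4⟩
    exact h5 ⟨z, z1, z2, cyc z3, z4⟩
  · rintro ⟨⟨⟨h1, h2⟩, h3, h4⟩, h5⟩
    refine ⟨⟨⟨h2, h1⟩, cyc h3, Emp_swap'.1 h4⟩, ?_⟩
    rintro ⟨z, z1, z2, z3, z4⟩
    exact h5 ⟨z, z1, z2, cyc' z3, z4⟩

theorem B0_card {b l : ℤ} (h : l < b) : ((σ.B0 b l).card : ℤ) = b - l - 1 := by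
  rw [← A0_card (σ := σ.flip) h]
  congr 1
  refine card_bij (fun p _ => (p.2, p.1)) ?_ ?_ ?_
  · rintro ⟨x, y⟩ hp
    exact tanb_flip.1 hp
  · rintro ⟨x, y⟩ _ ⟨x', y'⟩ _ he
    simp only [Prod.mk.injEq] at he ⊢
    tauto
  · rintro ⟨x, y⟩ hp
    exact ⟨(y, x), tanb_flip.2 hp, rfl⟩

end Sig
end ET
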