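import Pool.Agent.Lib.MP_4beb96_co.EMT.Sym

set_option autoImplicit false

/-! EMT-TrA: from planar point sets to signotopes.

det: `det a b c = (b.1 - a.1) * (c.2 - a.2) - (b.2 - a.2) * (c.1 - a.1)`.
exists_t: there is a real `t` with `f(x, y) = x + t y` injective on `P`: for two different points `p ≠ q` at most one `t` has `f p = f q` (if `p.2 ≠ q.2`: `t = (p.1 - q.1)/(q.2 - p.2)`; if `p.2 = q.2` none); `P × P` is finite and `ℝ` is infinite
   (`Set.Finite` union, `Set.Infinite.exists_notMem_finite`/`Set.Finite.exists_notMem`...).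
enumerate: let `n = P.card`, `F = P.image f` (`card = n`), `F.orderEmbOfFin`; let `e : ℕ → ℝ × ℝ`/`ℤ → ℝ × ℝ` give for `0 ≤ i < n` the point of `P` whose `f`-value is the `i`-th smallest; so `e i ∈ P`, `f (e i) < f (e j)` for `0 ≤ i < j < n`, and every point of `P` is some `e i`.
sigOf: given `e : ℤ → ℝ × ℝ`, `f` with `f (e i) < f (e j)` for `0 ≤ i < j < n` and `det (e i) (e j) (e k) ≠ 0` for `0 ≤ i < j < k < n`: the signotope `U i j k := 0 ≤ i ∧ i < j ∧ j < k ∧ k < n ∧ det (e i) (e j) (e k) < 0`.
   Rules.  If a conclusion `U` (or its negation) involves indices out of range: the positive rules have hypotheses which put `a` and `d` in range (`0 ≤ a`, `d < n`); for the negative ones, suppose the conclusion fails, i.e. `U a b d` (or `U a c d`) holds, so `0 ≤ a`, `d < n`.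
   So in all cases everything is in range, all dets are nonzero, and one has: with `x_i = f (e i)`, `x_a < x_b < x_c < x_d`,
   (13) `(x_c - x_a) det a b d = (x_d - x_a) det a b c + (x_b - x_a) det a c d`;
   (24) `(x_d - x_b) det a c d = (x_d - x_c) det a b d + (x_d - x_a) det b c d`;
   (14) `(x_c - x_b) det a b d = (x_d - x_b) det a b c + (x_b - x_a) det b c d`
   (all three are polynomial identities for `x_i = p_i.1 + t p_i.2`; `ring` after unfolding).  The signs follow (`nlinarith` / `pos_of_mul_pos`).
   Then `ccw i j k ↔ det (e i) (e j) (e k) > 0` for distinct `i, j, k` in range (six cases, det is alternating).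
transfer: map each `(l, m, r) ∈ XSet 0 (n - 1)` to `{e l, e m, e r}`: injective (`l < m < r`, `e` injective on the range), it is a subset of `P` with 3 elements, and if `p = e z ∈ P` is another point in `convexHull {e l, e m, e r}` then
   (`convexHull_insert`, `segment`, or: write `p` as a convex combination `α e_l + β e_m + γ e_r`, `α + β + γ = 1`, all `≥ 0`):  `det e_l e_m p = γ D`, `det e_m e_r p = α D`, `det e_r e_l p = β D` with `D = det e_l e_m e_r ≠ 0`;
   `α, β, γ ≠ 0` as no three points are collinear (`det = 0` would make three points of `P` collinear); so all three have the sign of `D` and `Ins l m r z` holds, contradiction to `Emp`.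
   The target set is finite (subsets of `P`), so `ncard ≥ card` of the image (`Set.ncard_le_ncard`, `Set.ncard_coe_finset`). -/

namespace ET
open Finset
open scoped Classical

def det (a b c : ℝ × ℝ) : ℝ := (b.1 - a.1) * (c.2 - a.2) - (b.2 - a.2) * (c.1 - a.1)

theorem det_ne_zero {a b c : ℝ × ℝ} (h : ¬ Collinear ℝ ({a, b, c} : Set (ℝ × ℝ))) : det a b c ≠ 0 := by
  intro hd
  apply h
  by_cases hab : a = b
  · subst hab
    have : ({a, a, c} : Set (ℝ × ℝ)) = {a, c} := by simp
    rw [this]
    exact collinear_pair ℝ a c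
  · rw [collinear_iff_of_mem (p₀ := a) (by simp)]
    refine ⟨b - a, ?_⟩
    intro p hp
    simp only [Set.mem_insert_iff, Set.mem_singleton_iff] at hp
    rcases hp with rfl | rfl | rfl
    · exact ⟨0, by simp⟩
    · exact ⟨1, by simp⟩
    · unfold det at hd
      by_cases h1 : b.1 - a.1 = 0
      · have h2 : b.2 - a.2 ≠ 0 := by
          intro h2
          exact hab (Prod.ext (by linarith) (by linarith))
        have h3 : p.1 - a.1 = 0 := by
          rw [h1, zero_mul, zero_sub, neg_eq_zero] at hd
          exact (mul_eq_zero.1 hd).resolve_left h2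
        refine ⟨(p.2 - a.2) / (b.2 - a.2), ?_⟩
        refine Prod.ext ?_ ?_
        · simp only [vadd_eq_add, Prod.fst_add, Prod.smul_fst, Prod.fst_sub, smul_eq_mul, h1, mul_zero, zero_add]
          linarith
        · simp only [vadd_eq_add, Prod.snd_add, Prod.smul_snd, Prod.snd_sub, smul_eq_mul]
          rw [div_mul_cancel₀ _ h2]
          ring
      · refine ⟨(p.1 - a.1) / (b.1 - a.1), ?_⟩
        refine Prod.ext ?_ ?_
        · simp only [vadd_eq_add, Prod.fst_add, Prod.smul_fst, Prod.fst_sub, smul_eq_mul]
          rw [div_mul_cancel₀ _ h1]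
          ring
        · simp only [vadd_eq_add, Prod.snd_add, Prod.smul_snd, Prod.snd_sub, smul_eq_mul]
          field_simp
          linarith

theorem exists_t (P : Finset (ℝ × ℝ)) : ∃ t : ℝ, ∀ p ∈ P, ∀ q ∈ P, p.1 + t * p.2 = q.1 + t * q.2 → p = q := by
  obtain ⟨t, ht⟩ := Infinite.exists_notMem_finset
    ((P ×ˢ P).image fun x : (ℝ × ℝ) × (ℝ × ℝ) => (x.1.1 - x.2.1) / (x.2.2 - x.1.2))
  refine ⟨t, fun p hp q hq h => ?_⟩
  by_cases h2 : q.2 - p.2 = 0
  · have h3 : p.2 = q.2 := by linarith
    rw [h3] at h
    exact Prod.ext (by linarith) h3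
  · exfalso
    apply ht
    rw [Finset.mem_image]
    refine ⟨(p, q), Finset.mem_product.2 ⟨hp, hq⟩, ?_⟩
    rw [div_eq_iff h2]
    linarith

end ET
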