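import Pool.Agent.Lib.MP_4beb96_co.EMT.TrA

set_option autoImplicit false

/-! EMT-TrB: from planar point sets to signotopes.

det: `det a b c = (b.1 - a.1) * (c.2 - a.2) - (b.2 - a.2) * (c.1 - a.1)`.
exists_t: there is a real `t` with `f(x, y) = x + t y` injective on `P`: for two different points `p ≠ q` at most one `t` has `f p = f q` (if `p.2 ≠ q.2`: `t = (p.1 - q.1)/(q.2 - p.2)`; if `p.2 = q.2` none); `P × P` is finite and `ℝ` is infinite
   (`Set.Finite` union, `Set.Infinite.exists_notMem_finite`/`Set.Finite.exists_notMem`...).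
enumerate: let `n = P.card`, `F = P.image f` (`card = n`), `F.orderEmbOfFin`; let `e : ℕ → ℝ × ℝ`/`ℤ → ℝ × ℝ` give for `0 ≤ i < n` the point of `P` whose `f`-value is the `i`-th smallest; so `e i ∈ P`, `f (e i) < f (e j)` for `0 ≤ i < j < n`, and every point of `P` is some `e i`.
sigOf: given `e : ℤ → ℝ × ℝ`, `f` with `f (e i) < f (e j)` for `0 ≤ i < j < n` and `det (e i) (e j) (e k) ≠ 0` for `0 ≤ i < j < k < n`: the signotope `U i j k := 0 ≤ i ∧ i < j ∧ j < k ∧ k < n ∧ det (e i) (e j) (e k) < 0`.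
   Rules.  If a conclusion `U` (or its negation) involves indices out of range: the positive rules have hypotheses which put `a` and `d` in range (`0 ≤ a`, `d < n`); for the negative ones, suppose the conclusion fails, i.e. `U a b d` (or `U a c d`) holds, so `0 ≤ a`, `d < n`.
   So in all cases everything is in range, all dets are nonzero, and one has: with `x_i = f (e i)`, `x_a < x_b < x_c < x_d`,
   (13) `(x_c - x_a) det a b d = (x_d - x_a) det a b c + (x_b - x_a) det a c d`;
   (24) `(x_d - x_b) det a c d = (x_d - x_c) det a b d + (x_d - x_a) det b c d`;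
   (14) `(x_c - x_b) det a b d = (x_d - x_b) det a b c + (x_b - x_a) det b c d`
   (all three are polynomial identities for `x_i = p_i.1 + t p_i.2`; `ring` after unfolding).  The signs follow (`nlinarith` / `pos_of_mul_pos`).
   Then `ccw i j k ↔ det (e i) (e j) (e k) > 0` for distinct `i, j, k` in range (six cases, det is alternating).
transfer: map each `(l, m, r) ∈ XSet 0 (n - 1)` to `{e l, e m, e r}`: injective (`l < m < r`, `e` injective on the range), it is a subset of `P` with 3 elements, and if `p = e z ∈ P` is another point in `convexHull {e l, e m, e r}` then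
   (`convexHull_insert`, `segment`, or: write `p` as a convex combination `α e_l + β e_m + γ e_r`, `α + β + γ = 1`, all `≥ 0`):  `det e_l e_m p = γ D`, `det e_m e_r p = α D`, `det e_r e_l p = β D` with `D = det e_l e_m e_r ≠ 0`;
   `α, β, γ ≠ 0` as no three points are collinear (`det = 0` would make three points of `P` collinear); so all three have the sign of `D` and `Ins l m r z` holds, contradiction to `Emp`.
   The target set is finite (subsets of `P`), so `ncard ≥ card` of the image (`Set.ncard_le_ncard`, `Set.ncard_coe_finset`). -/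

namespace ET
open Finset
open scoped Classical

theorem exists_enum (P : Finset (ℝ × ℝ)) (t : ℝ) (ht : ∀ p ∈ P, ∀ q ∈ P, p.1 + t * p.2 = q.1 + t * q.2 → p = q) :
    ∃ e : ℤ → ℝ × ℝ, (∀ i, 0 ≤ i → i < (P.card : ℤ) → e i ∈ P) ∧ (∀ p ∈ P, ∃ i, 0 ≤ i ∧ i < (P.card : ℤ) ∧ e i = p) ∧
      ∀ i j, 0 ≤ i → i < j → j < (P.card : ℤ) → (e i).1 + t * (e i).2 < (e j).1 + t * (e j).2 := by
  set n := P.card with hn
  set F : Finset ℝ := P.image (fun p => p.1 + t * p.2) with hF
  have hcard : F.card = n := by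
    rw [hF, Finset.card_image_of_injOn]
    intro p hp q hq h
    exact ht p hp q hq h
  have hex : ∀ i : Fin n, ∃ p ∈ P, p.1 + t * p.2 = F.orderEmbOfFin hcard i := by
    intro i
    have hi := Finset.orderEmbOfFin_mem F hcard i
    obtain ⟨p, hp, hpi⟩ := Finset.mem_image.1 hi
    exact ⟨p, hp, hpi⟩
  choose g hg1 hg2 using hex
  have hlt : ∀ i : ℤ, 0 ≤ i → i < (n : ℤ) → i.toNat < n := by
    intro i h1 h2
    omega
  refine ⟨fun i => if h : 0 ≤ i ∧ i < (n : ℤ) then g ⟨i.toNat, hlt i h.1 h.2⟩ else (0, 0), ?_, ?_, ?_⟩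
  · intro i h1 h2
    have h : 0 ≤ i ∧ i < (n : ℤ) := ⟨h1, h2⟩
    beta_reduce
    rw [dif_pos h]
    exact hg1 _
  · intro p hp
    have hpF : p.1 + t * p.2 ∈ F := Finset.mem_image.2 ⟨p, hp, rfl⟩
    have hr : p.1 + t * p.2 ∈ Set.range (F.orderEmbOfFin hcard) := by
      rw [Finset.range_orderEmbOfFin]
      exact Finset.mem_coe.2 hpF
    obtain ⟨j, hj⟩ := hr
    refine ⟨(j.1 : ℤ), Int.natCast_nonneg _, by exact_mod_cast j.2, ?_⟩
    have h : (0 : ℤ) ≤ (j.1 : ℤ) ∧ (j.1 : ℤ) < (n : ℤ) := ⟨Int.natCast_nonneg _, by exact_mod_cast j.2⟩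
    beta_reduce
    rw [dif_pos h]
    have hjj : (⟨((j.1 : ℤ)).toNat, hlt _ h.1 h.2⟩ : Fin n) = j := by
      apply Fin.ext
      exact Int.toNat_natCast j.1
    rw [hjj]
    exact ht _ (hg1 j) _ hp (by rw [hg2 j]; exact hj)
  · intro i j h1 h2 h3
    have hi : 0 ≤ i ∧ i < (n : ℤ) := ⟨h1, by omega⟩
    have hj : 0 ≤ j ∧ j < (n : ℤ) := ⟨by omega, h3⟩
    beta_reduce
    rw [dif_pos hi, dif_pos hj, hg2, hg2]
    apply (F.orderEmbOfFin hcard).strictMono
    rw [Fin.lt_def]
    show i.toNat < j.toNat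
    omega

end ET
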