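import Pool.Agent.Lib.MP_4beb96_co.EMT.TrA

set_option autoImplicit false

/-! EMT-TrC: from planar point sets to signotopes.

det: `det a b c = (b.1 - a.1) * (c.2 - a.2) - (b.2 - a.2) * (c.1 - a.1)`.
exists_t: there is a real `t` with `f(x, y) = x + t y` injective on `P`: for two different points `p ≠ q` at most one `t` has `f p = f q` (if `p.2 ≠ q.2`: `t = (p.1 - q.1)/(q.2 - p.2)`; if `p.2 = q.2` none); `P × P` is finite and `ℝ` is infinite
   (`Set.Finite` union, `Set.Infinite.exists_notMem_finite`/`Set.Finite.exists_notMem`...).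
enumerate: let `n = P.card`, `F = P.image f` (`card = n`), `F.orderEmbOfFin`; let `e : ℕ → ℝ × ℝ`/`ℤ → ℝ × ℝ` give for `0 ≤ i < n` the point of `P` whose `f`-value is the `i`-th smallest; so `e i ∈ P`, `f (e i) < f (e j)` for `0 ≤ i < j < n`, and every point of `P` is some `e i`.
sigOf: given `e : ℤ → ℝ × ℝ`, `f` with `f (e i) < f (e j)` for `0 ≤ i < j < n` and `det (e i) (e j) (e k) ≠ 0` for `0 ≤ i < j < k < n`: the signotope `U i j k := 0 ≤ i ∧ i < j ∧ j < k ∧ k < n ∧ det (e i) (e j) (e k) < 0`.
   Rules.  If a conclusion `U` (or its negation) involves indices out of range: the positive rules have hypotheses which put `a` and `d` in range (`0 ≤ a`, `d < n`); for the negative ones, suppose the conclusion fails, i.e. `U a b d` (or `U a c d`) holds, so `0 ≤ a`, `d < n`.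
   So in all cases everything is in range, all dets are nonzero, and one has: with `x_i = f (e i)`, `x_a < x_b < x_c < x_d`,
   (13) `(x_c - x_a) det a b d = (x_d - x_a) det a b c + (x_b - x_a) det a c d`;
   (24) `(x_d - x_b) det a c d = (x_d - x_c) det a b d + (x_d - x_a) det b c d`;
   (14) `(x_c - x_b) det a b d = (x_d - x_b) det a b c + (x_b - x_a) det b c d`
   (all three are polynomial identities for `x_i = p_i.1 + t p_i.2`; `ring` after unfolding).  The signs follow (`nlinarith` / `pos_of_mul_pos`).
   Then `ccw i j k ↔ det (e i) (e j) (e k) > 0` for distinct `i, j, k` in range (six cases, det is alternating).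
transfer: map each `(l, m, r) ∈ XSet 0 (n - 1)` to `{e l, e m, e r}`: injective (`l < m < r`, `e` injective on the range), it is a subset of `P` with 3 elements, and if `p = e z ∈ P` is another point in `convexHull {e l, e m, e r}` then
   (`convexHull_insert`, `segment`, or: write `p` as a convex combination `α e_l + β e_m + γ e_r`, `α + β + γ = 1`, all `≥ 0`):  `det e_l e_m p = γ D`, `det e_m e_r p = α D`, `det e_r e_l p = β D` with `D = det e_l e_m e_r ≠ 0`;
   `α, β, γ ≠ 0` as no three points are collinear (`det = 0` would make three points of `P` collinear); so all three have the sign of `D` and `Ins l m r z` holds, contradiction to `Emp`.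
   The target set is finite (subsets of `P`), so `ncard ≥ card` of the image (`Set.ncard_le_ncard`, `Set.ncard_coe_finset`). -/

namespace ET
open Finset
open scoped Classical

private theorem TrC_neg {u v w X Y Z : ℝ} (hu : 0 < u) (hv : 0 < v) (hw : 0 < w)
    (h : u * X = v * Y + w * Z) (hY : Y < 0) (hZ : Z < 0) : X < 0 := by
  by_contra hX
  have h1 := mul_nonneg hu.le (not_lt.1 hX)
  have h2 := mul_neg_of_pos_of_neg hv hY
  have h3 := mul_neg_of_pos_of_neg hw hZ
  linarith

private theorem TrC_pos {u v w X Y Z : ℝ} (hu : 0 < u) (hv : 0 < v) (hw : 0 < w)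
    (h : u * X = v * Y + w * Z) (hY : 0 < Y) (hZ : 0 < Z) : 0 < X := by
  by_contra hX
  have h1 := mul_nonpos_of_nonneg_of_nonpos hu.le (not_lt.1 hX)
  have h2 := mul_pos hv hY
  have h3 := mul_pos hw hZ
  linarith

private theorem TrC_13 (t : ℝ) (a b c d : ℝ × ℝ) :
    ((c.1 + t * c.2) - (a.1 + t * a.2)) * det a b d =
      ((d.1 + t * d.2) - (a.1 + t * a.2)) * det a b c +
      ((b.1 + t * b.2) - (a.1 + t * a.2)) * det a c d := by
  unfold det; ring

private theorem TrC_24 (t : ℝ) (a b c d : ℝ × ℝ) :
    ((d.1 + t * d.2) - (b.1 + t * b.2)) * det a c d =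
      ((d.1 + t * d.2) - (c.1 + t * c.2)) * det a b d +
      ((d.1 + t * d.2) - (a.1 + t * a.2)) * det b c d := by
  unfold det; ring

private theorem TrC_14 (t : ℝ) (a b c d : ℝ × ℝ) :
    ((c.1 + t * c.2) - (b.1 + t * b.2)) * det a b d =
      ((d.1 + t * d.2) - (b.1 + t * b.2)) * det a b c +
      ((b.1 + t * b.2) - (a.1 + t * a.2)) * det b c d := by
  unfold det; ring

theorem exists_sig (n : ℤ) (t : ℝ) (e : ℤ → ℝ × ℝ)
    (he : ∀ i j, 0 ≤ i → i < j → j < n → (e i).1 + t * (e i).2 < (e j).1 + t * (e j).2)
    (hd : ∀ i j k, 0 ≤ i → i < j → j < k → k < n → det (e i) (e j) (e k) ≠ 0) :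
    ∃ σ : Sig, ∀ i j k, 0 ≤ i → i < n → 0 ≤ j → j < n → 0 ≤ k → k < n → (σ.ccw i j k ↔ 0 < det (e i) (e j) (e k)) := by
  have hx : ∀ i j, 0 ≤ i → i < j → j < n →
      0 < ((e j).1 + t * (e j).2) - ((e i).1 + t * (e i).2) := fun i j h1 h2 h3 => by
    have := he i j h1 h2 h3
    linarith
  have hpos : ∀ i j k, 0 ≤ i → i < j → j < k → k < n →
      ¬ (0 ≤ i ∧ i < j ∧ j < k ∧ k < n ∧ det (e i) (e j) (e k) < 0) →
      0 < det (e i) (e j) (e k) := by
    intro i j k h1 h2 h3 h4 h5
    rcases lt_or_gt_of_ne (hd i j k h1 h2 h3 h4) with h | h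
    · exact absurd ⟨h1, h2, h3, h4, h⟩ h5
    · exact h
  let σ : Sig :=
    { U := fun i j k => 0 ≤ i ∧ i < j ∧ j < k ∧ k < n ∧ det (e i) (e j) (e k) < 0
      p13 := by
        intro a b c d hab hbc hcd h1 h2
        have ha := h1.1
        have hdn := h2.2.2.2.1
        exact ⟨ha, hab, by omega, hdn, TrC_neg (hx a c ha (by omega) (by omega))
          (hx a d ha (by omega) (by omega)) (hx a b ha (by omega) (by omega))
          (TrC_13 t _ _ _ _) h1.2.2.2.2 h2.2.2.2.2⟩
      p24 := by
        intro a b c d hab hbc hcd h1 h2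
        have ha := h1.1
        have hdn := h1.2.2.2.1
        exact ⟨ha, by omega, by omega, hdn, TrC_neg (hx b d (by omega) (by omega) (by omega))
          (hx c d (by omega) (by omega) (by omega)) (hx a d ha (by omega) (by omega))
          (TrC_24 t _ _ _ _) h1.2.2.2.2 h2.2.2.2.2⟩
      p14 := by
        intro a b c d hab hbc hcd h1 h2
        have ha := h1.1
        have hdn := h2.2.2.2.1
        exact ⟨ha, by omega, by omega, hdn, TrC_neg (hx b c (by omega) (by omega) (by omega))
          (hx b d (by omega) (by omega) (by omega)) (hx a b ha (by omega) (by omega))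
          (TrC_14 t _ _ _ _) h1.2.2.2.2 h2.2.2.2.2⟩
      n13 := by
        intro a b c d hab hbc hcd h1 h2 h3
        have ha := h3.1
        have hdn := h3.2.2.2.1
        have g1 := hpos a b c ha hab hbc (by omega) h1
        have g2 := hpos a c d ha (by omega) hcd hdn h2
        have g3 := TrC_pos (hx a c ha (by omega) (by omega))
          (hx a d ha (by omega) (by omega)) (hx a b ha (by omega) (by omega))
          (TrC_13 t _ _ _ _) g1 g2
        exact absurd h3.2.2.2.2 (not_lt.2 g3.le)
      n24 := by
        intro a b c d hab hbc hcd h1 h2 h3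
        have ha := h3.1
        have hdn := h3.2.2.2.1
        have g1 := hpos a b d ha hab (by omega) hdn h1
        have g2 := hpos b c d (by omega) hbc hcd hdn h2
        have g3 := TrC_pos (hx b d (by omega) (by omega) (by omega))
          (hx c d (by omega) (by omega) (by omega)) (hx a d ha (by omega) (by omega))
          (TrC_24 t _ _ _ _) g1 g2
        exact absurd h3.2.2.2.2 (not_lt.2 g3.le)
      n14 := by
        intro a b c d hab hbc hcd h1 h2 h3
        have ha := h3.1
        have hdn := h3.2.2.2.1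
        have g1 := hpos a b c ha hab hbc (by omega) h1
        have g2 := hpos b c d (by omega) hbc hcd hdn h2
        have g3 := TrC_pos (hx b c (by omega) (by omega) (by omega))
          (hx b d (by omega) (by omega) (by omega)) (hx a b ha (by omega) (by omega))
          (TrC_14 t _ _ _ _) g1 g2
        exact absurd h3.2.2.2.2 (not_lt.2 g3.le) }
  have hU : ∀ i j k, 0 ≤ i → i < j → j < k → k < n →
      (σ.U i j k ↔ det (e i) (e j) (e k) < 0) := fun i j k h1 h2 h3 h4 =>
    ⟨fun h => h.2.2.2.2, fun h => ⟨h1, h2, h3, h4, h⟩⟩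
  have hN : ∀ i j k, 0 ≤ i → i < j → j < k → k < n →
      (¬ σ.U i j k ↔ 0 < det (e i) (e j) (e k)) := fun i j k h1 h2 h3 h4 =>
    ⟨fun h => hpos i j k h1 h2 h3 h4 h, fun h h' => absurd h'.2.2.2.2 (not_lt.2 h.le)⟩
  have s1 : ∀ a b c : ℝ × ℝ, det b c a = det a b c := fun a b c => by unfold det; ring
  have s2 : ∀ a b c : ℝ × ℝ, det a c b = - det a b c := fun a b c => by unfold det; ring
  have s3 : ∀ a b c : ℝ × ℝ, det c a b = det a b c := fun a b c => by unfold det; ring
  have s4 : ∀ a b c : ℝ × ℝ, det c b a = - det a b c := fun a b c => by unfold det; ring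
  have s5 : ∀ a b c : ℝ × ℝ, det b a c = - det a b c := fun a b c => by unfold det; ring
  refine ⟨σ, fun i j k hi hi' hj hj' hk hk' => ?_⟩
  rcases lt_trichotomy i j with h1 | h1 | h1
  · rcases lt_trichotomy j k with h2 | h2 | h2
    · rw [Sig.ccw_iff1 h1 h2]
      exact hN i j k hi h1 h2 hk'
    · subst h2
      refine ⟨fun h => absurd rfl (Sig.ne23 h), fun h => ?_⟩
      have : det (e i) (e j) (e j) = 0 := by unfold det; ring
      linarith
    · rcases lt_trichotomy i k with h3 | h3 | h3
      · rw [Sig.ccw_iff4 h3 h2, hU i k j hi h3 h2 hj', s2 (e i) (e j) (e k)]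
        constructor <;> intro h <;> linarith
      · subst h3
        refine ⟨fun h => absurd rfl (Sig.ne13 h), fun h => ?_⟩
        have : det (e i) (e j) (e i) = 0 := by unfold det; ring
        linarith
      · rw [Sig.ccw_iff2 h3 h1, hN k i j hk h3 h1 hj', s3 (e i) (e j) (e k)]
  · subst h1
    refine ⟨fun h => absurd rfl (Sig.ne12 h), fun h => ?_⟩
    have : det (e i) (e i) (e k) = 0 := by unfold det; ring
    linarith
  · rcases lt_trichotomy i k with h2 | h2 | h2
    · rw [Sig.ccw_iff6 h1 h2, hU j i k hj h1 h2 hk', s5 (e i) (e j) (e k)]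
      constructor <;> intro h <;> linarith
    · subst h2
      refine ⟨fun h => absurd rfl (Sig.ne13 h), fun h => ?_⟩
      have : det (e i) (e j) (e i) = 0 := by unfold det; ring
      linarith
    · rcases lt_trichotomy j k with h3 | h3 | h3
      · rw [Sig.ccw_iff3 h3 h2, hN j k i hj h3 h2 hi', s1 (e i) (e j) (e k)]
      · subst h3
        refine ⟨fun h => absurd rfl (Sig.ne23 h), fun h => ?_⟩
        have : det (e i) (e j) (e j) = 0 := by unfold det; ring
        linarith
      · rw [Sig.ccw_iff5 h3 h1, hU k j i hk h3 h1 hi', s4 (e i) (e j) (e k)]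
        constructor <;> intro h <;> linarith

end ET
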