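import Pool.Agent.Lib.MP_4beb96_co.EMT.TrB
import Pool.Agent.Lib.MP_4beb96_co.EMT.TrC

set_option autoImplicit false

/-! EMT-Transfer: from planar point sets to signotopes.

det: `det a b c = (b.1 - a.1) * (c.2 - a.2) - (b.2 - a.2) * (c.1 - a.1)`.
exists_t: there is a real `t` with `f(x, y) = x + t y` injective on `P`: for two different points `p ≠ q` at most one `t` has `f p = f q` (if `p.2 ≠ q.2`: `t = (p.1 - q.1)/(q.2 - p.2)`; if `p.2 = q.2` none); `P × P` is finite and `ℝ` is infinite
   (`Set.Finite` union, `Set.Infinite.exists_notMem_finite`/`Set.Finite.exists_notMem`...).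
enumerate: let `n = P.card`, `F = P.image f` (`card = n`), `F.orderEmbOfFin`; let `e : ℕ → ℝ × ℝ`/`ℤ → ℝ × ℝ` give for `0 ≤ i < n` the point of `P` whose `f`-value is the `i`-th smallest; so `e i ∈ P`, `f (e i) < f (e j)` for `0 ≤ i < j < n`, and every point of `P` is some `e i`.
sigOf: given `e : ℤ → ℝ × ℝ`, `f` with `f (e i) < f (e j)` for `0 ≤ i < j < n` and `det (e i) (e j) (e k) ≠ 0` for `0 ≤ i < j < k < n`: the signotope `U i j k := 0 ≤ i ∧ i < j ∧ j < k ∧ k < n ∧ det (e i) (e j) (e k) < 0`.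
   Rules.  If a conclusion `U` (or its negation) involves indices out of range: the positive rules have hypotheses which put `a` and `d` in range (`0 ≤ a`, `d < n`); for the negative ones, suppose the conclusion fails, i.e. `U a b d` (or `U a c d`) holds, so `0 ≤ a`, `d < n`.
   So in all cases everything is in range, all dets are nonzero, and one has: with `x_i = f (e i)`, `x_a < x_b < x_c < x_d`,
   (13) `(x_c - x_a) det a b d = (x_d - x_a) det a b c + (x_b - x_a) det a c d`;
   (24) `(x_d - x_b) det a c d = (x_d - x_c) det a b d + (x_d - x_a) det b c d`;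
   (14) `(x_c - x_b) det a b d = (x_d - x_b) det a b c + (x_b - x_a) det b c d`
   (all three are polynomial identities for `x_i = p_i.1 + t p_i.2`; `ring` after unfolding).  The signs follow (`nlinarith` / `pos_of_mul_pos`).
   Then `ccw i j k ↔ det (e i) (e j) (e k) > 0` for distinct `i, j, k` in range (six cases, det is alternating).
transfer: map each `(l, m, r) ∈ XSet 0 (n - 1)` to `{e l, e m, e r}`: injective (`l < m < r`, `e` injective on the range), it is a subset of `P` with 3 elements, and if `p = e z ∈ P` is another point in `convexHull {e l, e m, e r}` then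
   (`convexHull_insert`, `segment`, or: write `p` as a convex combination `α e_l + β e_m + γ e_r`, `α + β + γ = 1`, all `≥ 0`):  `det e_l e_m p = γ D`, `det e_m e_r p = α D`, `det e_r e_l p = β D` with `D = det e_l e_m e_r ≠ 0`;
   `α, β, γ ≠ 0` as no three points are collinear (`det = 0` would make three points of `P` collinear); so all three have the sign of `D` and `Ins l m r z` holds, contradiction to `Emp`.
   The target set is finite (subsets of `P`), so `ncard ≥ card` of the image (`Set.ncard_le_ncard`, `Set.ncard_coe_finset`). -/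

namespace ET
open Finset
open scoped Classical

private theorem tr_hull {a b c p : ℝ × ℝ} (h : p ∈ convexHull ℝ ({a, b, c} : Set (ℝ × ℝ))) :
    ∃ α β γ : ℝ, 0 ≤ α ∧ 0 ≤ β ∧ 0 ≤ γ ∧ α + β + γ = 1 ∧
      det a b p = γ * det a b c ∧ det b c p = α * det a b c ∧ det c a p = β * det a b c := by
  rw [convexHull_insert (by simp), mem_convexJoin] at h
  obtain ⟨x, hx, y, hy, hp⟩ := h
  rw [Set.mem_singleton_iff] at hx
  rw [convexHull_pair] at hy
  obtain ⟨u, v, hu, hv, huv, rfl⟩ := hy
  obtain ⟨w, s, hw, hs, hws, rfl⟩ := hp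
  subst hx
  refine ⟨w, s * u, s * v, hw, mul_nonneg hs hu, mul_nonneg hs hv, ?_, ?_, ?_, ?_⟩
  · have : s * u + s * v = s := by rw [← mul_add, huv, mul_one]
    linarith
  · have e1 : w = 1 - s := by linarith
    have e2 : u = 1 - v := by linarith
    subst e1 e2
    simp only [det, Prod.fst_add, Prod.snd_add, Prod.smul_fst, Prod.smul_snd, smul_eq_mul]
    ring
  · have e1 : w = 1 - s := by linarith
    have e2 : u = 1 - v := by linarith
    subst e1 e2
    simp only [det, Prod.fst_add, Prod.snd_add, Prod.smul_fst, Prod.smul_snd, smul_eq_mul]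
    ring
  · have e1 : w = 1 - s := by linarith
    have e2 : u = 1 - v := by linarith
    subst e1 e2
    simp only [det, Prod.fst_add, Prod.snd_add, Prod.smul_fst, Prod.smul_snd, smul_eq_mul]
    ring

private theorem det_swap (a b c : ℝ × ℝ) : det b a c = - det a b c := by
  simp only [det]
  ring

theorem transfer (P : Finset (ℝ × ℝ)) (hP : ∀ a ∈ P, ∀ b ∈ P, ∀ c ∈ P, a ≠ b → a ≠ c → b ≠ c →
        ¬ Collinear ℝ ({a, b, c} : Set (ℝ × ℝ))) :
    ∃ σ : Sig, (σ.X 0 ((P.card : ℤ) - 1) : ℝ) ≤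
        (({T : Finset (ℝ × ℝ) | T ⊆ P ∧ T.card = 3 ∧
            ∀ p ∈ P, p ∉ T → p ∉ convexHull ℝ (T : Set (ℝ × ℝ))}.ncard : ℕ) : ℝ) := by
  obtain ⟨t, ht⟩ := exists_t P
  obtain ⟨e, e1, e2, e3⟩ := exists_enum P t ht
  have inj : ∀ i j, 0 ≤ i → i < (P.card : ℤ) → 0 ≤ j → j < (P.card : ℤ) → e i = e j → i = j := by
    intro i j hi hi' hj hj' h
    rcases lt_trichotomy i j with h' | h' | h'
    · have := e3 i j hi h' hj'
      rw [h] at this
      exact absurd this (lt_irrefl _)
    · exact h'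
    · have := e3 j i hj h' hi'
      rw [h] at this
      exact absurd this (lt_irrefl _)
  have hd : ∀ i j k, 0 ≤ i → i < (P.card : ℤ) → 0 ≤ j → j < (P.card : ℤ) → 0 ≤ k →
      k < (P.card : ℤ) → i ≠ j → i ≠ k → j ≠ k → det (e i) (e j) (e k) ≠ 0 := by
    intro i j k a b c d f g h1 h2 h3
    exact det_ne_zero (hP _ (e1 i a b) _ (e1 j c d) _ (e1 k f g)
      (fun h => h1 (inj i j a b c d h)) (fun h => h2 (inj i k a b f g h))
      (fun h => h3 (inj j k c d f g h)))
  obtain ⟨σ, hσ⟩ := exists_sig (P.card : ℤ) t e e3 (fun i j k a b c d =>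
    hd i j k a (by omega) (by omega) (by omega) (by omega) d (by omega) (by omega) (by omega))
  refine ⟨σ, ?_⟩
  rw [Nat.cast_le]
  have hfin : {T : Finset (ℝ × ℝ) | T ⊆ P ∧ T.card = 3 ∧
      ∀ p ∈ P, p ∉ T → p ∉ convexHull ℝ (T : Set (ℝ × ℝ))}.Finite := by
    refine (Finset.finite_toSet P.powerset).subset ?_
    intro T hT
    exact mem_coe.2 (mem_powerset.2 hT.1)
  have hinj : Set.InjOn (fun x : ℤ × ℤ × ℤ => ({e x.1, e x.2.1, e x.2.2} : Finset (ℝ × ℝ)))
      (σ.XSet 0 ((P.card : ℤ) - 1) : Set (ℤ × ℤ × ℤ)) := by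
    rintro ⟨l, m, r⟩ h ⟨l', m', r'⟩ h' hh
    simp only [mem_coe, Sig.XSet, mem_filter, mem_trip] at h h'
    obtain ⟨⟨⟨a1, a2⟩, ⟨a3, a4⟩, a5, a6⟩, a7, a8, a9⟩ := h
    obtain ⟨⟨⟨b1, b2⟩, ⟨b3, b4⟩, b5, b6⟩, b7, b8, b9⟩ := h'
    dsimp only at hh
    have key : ∀ i, 0 ≤ i → i < (P.card : ℤ) →
        ((i = l ∨ i = m ∨ i = r) ↔ (i = l' ∨ i = m' ∨ i = r')) := by
      intro i hi hi'
      have h1 : e i ∈ ({e l, e m, e r} : Finset (ℝ × ℝ)) ↔
          e i ∈ ({e l', e m', e r'} : Finset (ℝ × ℝ)) := by rw [hh]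
      simp only [mem_insert, mem_singleton] at h1
      have k : ∀ j, 0 ≤ j → j < (P.card : ℤ) → (e i = e j ↔ i = j) := fun j hj hj' =>
        ⟨inj i j hi hi' hj hj', fun h => by rw [h]⟩
      rwa [k l a1 (by omega), k m a3 (by omega), k r a5 (by omega), k l' b1 (by omega),
        k m' b3 (by omega), k r' b5 (by omega)] at h1
    have k1 := key l a1 (by omega)
    have k2 := key m a3 (by omega)
    have k3 := key r a5 (by omega)
    have k4 := key l' b1 (by omega)
    have k5 := key m' b3 (by omega)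
    have k6 := key r' b5 (by omega)
    simp only [Prod.mk.injEq]
    omega
  have hsub : (((σ.XSet 0 ((P.card : ℤ) - 1)).image
      (fun x : ℤ × ℤ × ℤ => ({e x.1, e x.2.1, e x.2.2} : Finset (ℝ × ℝ))) :
        Finset (Finset (ℝ × ℝ))) : Set (Finset (ℝ × ℝ))) ⊆
      {T : Finset (ℝ × ℝ) | T ⊆ P ∧ T.card = 3 ∧
      ∀ p ∈ P, p ∉ T → p ∉ convexHull ℝ (T : Set (ℝ × ℝ))} := by
    intro T hT
    rw [mem_coe, mem_image] at hT
    obtain ⟨⟨l, m, r⟩, h, rfl⟩ := hT
    simp only [Sig.XSet, mem_filter, mem_trip] at h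
    obtain ⟨⟨⟨a1, a2⟩, ⟨a3, a4⟩, a5, a6⟩, a7, a8, a9⟩ := h
    have hlm : e l ≠ e m := fun h => by
      have := inj l m a1 (by omega) a3 (by omega) h
      omega
    have hlr : e l ≠ e r := fun h => by
      have := inj l r a1 (by omega) a5 (by omega) h
      omega
    have hmr : e m ≠ e r := fun h => by
      have := inj m r a3 (by omega) a5 (by omega) h
      omega
    refine ⟨?_, ?_, ?_⟩
    · intro p hp
      simp only [mem_insert, mem_singleton] at hp
      rcases hp with rfl | rfl | rfl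
      · exact e1 l a1 (by omega)
      · exact e1 m a3 (by omega)
      · exact e1 r a5 (by omega)
    · exact card_eq_three.2 ⟨_, _, _, hlm, hlr, hmr, rfl⟩
    · intro p hp hpT hpc
      obtain ⟨z, z1, z2, rfl⟩ := e2 p hp
      simp only [mem_insert, mem_singleton, not_or] at hpT
      obtain ⟨n1, n2, n3⟩ := hpT
      have zl : z ≠ l := fun h => n1 (by rw [h])
      have zm : z ≠ m := fun h => n2 (by rw [h])
      have zr : z ≠ r := fun h => n3 (by rw [h])
      have hpc' : e z ∈ convexHull ℝ ({e l, e m, e r} : Set (ℝ × ℝ)) := by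
        simpa using hpc
      obtain ⟨α, β, γ, hα, hβ, hγ, -, d1, d2, d3⟩ := tr_hull hpc'
      have hln : l < (P.card : ℤ) := by omega
      have hmn : m < (P.card : ℤ) := by omega
      have hrn : r < (P.card : ℤ) := by omega
      have c1 := hd l m z a1 hln a3 hmn z1 z2 (by omega) (Ne.symm zl) (Ne.symm zm)
      have c2 := hd m r z a3 hmn a5 hrn z1 z2 (by omega) (Ne.symm zm) (Ne.symm zr)
      have c3 := hd r l z a5 hrn a1 hln z1 z2 (by omega) (Ne.symm zr) (Ne.symm zl)
      rw [d1] at c1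
      rw [d2] at c2
      rw [d3] at c3
      have hγ' : 0 < γ := lt_of_le_of_ne hγ (fun h => c1 (by rw [← h, zero_mul]))
      have hα' : 0 < α := lt_of_le_of_ne hα (fun h => c2 (by rw [← h, zero_mul]))
      have hβ' : 0 < β := lt_of_le_of_ne hβ (fun h => c3 (by rw [← h, zero_mul]))
      have hD : det (e l) (e m) (e r) ≠ 0 := fun h => c1 (by rw [h, mul_zero])
      refine a9 z ?_
      rcases lt_or_gt_of_ne hD with hD' | hD'
      · right
        refine ⟨(hσ m l z a3 hmn a1 hln z1 z2).2 ?_, (hσ r m z a5 hrn a3 hmn z1 z2).2 ?_,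
          (hσ l r z a1 hln a5 hrn z1 z2).2 ?_⟩
        · rw [det_swap, d1]
          nlinarith
        · rw [det_swap, d2]
          nlinarith
        · rw [det_swap, d3]
          nlinarith
      · left
        refine ⟨(hσ l m z a1 hln a3 hmn z1 z2).2 ?_, (hσ m r z a3 hmn a5 hrn z1 z2).2 ?_,
          (hσ r l z a5 hrn a1 hln z1 z2).2 ?_⟩
        · rw [d1]
          positivity
        · rw [d2]
          positivity
        · rw [d3]
          positivity
  have h1 := Set.ncard_le_ncard hsub hfin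
  rw [Set.ncard_coe_finset, card_image_of_injOn hinj] at h1
  exact h1

end ET
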