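import Pool.Agent.Lib.MP_4beb96_co.EMT.Cls6

set_option autoImplicit false

/-! EMT-WtB: weights and the inequality for the type L.   `n = b + 1 - a`.

wt_sum: `∑_{(l, r) ∈ PP} nu (hi l r) r / #DR(r, hi l r) ≤ SL`.  Sort the pairs of `PP` by `(w, r) = (hi l r, r)`: the fibre over `(w, r)` is in bijection with `DR k a r w` (`l ∈ Ico a r`, `PL k l r`, `hi l r = w`), so
 its contribution is `#DR * (nu w r / #DR) = nu w r` if the fibre is nonempty.  And `∑_{(w, r)} nu a b w r ≤ SL`: the triples `(p, w, r)` with `SE b p w r`, `w < r`, `p ∈ Icc a b`, are the elements counted by `SL` (`mem_SSet`).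
rot_fibre: for `(l, r) ∈ PP k a b`: `#(σ.rot.D k (-a) (-r) (σ.rot.lo (-r) (-l))) = #(DR k a r (hi l r))` and `#(σ.rot.DR k (-b) (-l) (σ.rot.hi (-r) (-l))) = #(D k b l (lo l r))`: bijection `x ↦ -x`, `PL_rot`, `lo_rot`, `hi_rot`.
typeL: let `GB` = the pairs `(l, r) ∈ PP` with `(l, r) ∉ Bad σ` and `(-r, -l) ∉ Bad σ.rot` (parameters `-b, -a`).  `#GB ≥ #PP - #Bad σ - #Bad σ.rot` (`PL_rot`: `(l, r) ↦ (-r, -l)` is a bijection `PP σ → PP σ.rot`).
 For `(l, r) ∈ GB` with `K = #(D k b l (lo l r)) ≥ 1`, `K' = #(DR k a r (hi l r)) ≥ 1` (both contain the pair itself): `nu (hi l r) r ≥ K / 16` and `ν' := σ.rot.nu (-b) (-a) (σ.rot.hi (-r) (-l)) (-l) ≥ K' / 16`.  Therefore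
 `nu / K' + ν' / K ≥ (K/K' + K'/K) / 16 ≥ 1/8`.  Summing over `GB` and using wt_sum for `σ` and for `σ.rot`: `#GB / 8 ≤ SL σ + SL σ.rot`.
 With `left_bad` for `σ` and for `σ.rot` (`Imp_rot`, `#PP σ.rot = #PP σ`):
 `64 (SL σ + SL σ.rot) ≥ 8 #GB ≥ 8 #PP - 8 #Bad σ - 8 #Bad σ.rot ≥ 6 #PP - 350 k n - 136 S - 136 S(σ.rot) - 256 Imp`. -/

namespace ET
open Finset
open scoped Classical

namespace Sig
variable {σ : Sig}

theorem rot_fibre {k a b l r : ℤ} (h : (l, r) ∈ σ.PP k a b) :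
    (σ.rot.D k (-a) (-r) (σ.rot.lo (-r) (-l))).card = (σ.DR k a r (σ.hi l r)).card ∧
    (σ.rot.DR k (-b) (-l) (σ.rot.hi (-r) (-l))).card = (σ.D k b l (σ.lo l r)).card := by
  rw [PP, mem_filter, mem_pairs] at h
  have h0 : σ.good l r := h.2.1
  constructor
  · symm
    refine card_bij (fun x _ => -x) ?_ ?_ ?_
    · intro x hx
      rw [DR, mem_filter, mem_Ico] at hx
      obtain ⟨⟨h1, h2⟩, h3, h4⟩ := hx
      rw [D, mem_filter, mem_Ioc, PL_rot, lo_rot h3.1, lo_rot h0, h4]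
      exact ⟨⟨by omega, by omega⟩, h3, rfl⟩
    · intro x _ y _ he
      exact neg_injective he
    · intro y hy
      rw [D, mem_filter, mem_Ioc] at hy
      obtain ⟨⟨h1, h2⟩, h3, h4⟩ := hy
      refine ⟨-y, ?_, neg_neg y⟩
      have h5 : σ.PL k (-y) r := by
        rw [← PL_rot, neg_neg]; exact h3
      rw [DR, mem_filter, mem_Ico]
      refine ⟨⟨by omega, by omega⟩, h5, ?_⟩
      have h6 := lo_rot h5.1
      rw [neg_neg] at h6
      rw [h6, lo_rot h0] at h4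
      exact neg_injective h4
  · symm
    refine card_bij (fun x _ => -x) ?_ ?_ ?_
    · intro x hx
      rw [D, mem_filter, mem_Ioc] at hx
      obtain ⟨⟨h1, h2⟩, h3, h4⟩ := hx
      rw [DR, mem_filter, mem_Ico, PL_rot, hi_rot h3.1, hi_rot h0, h4]
      exact ⟨⟨by omega, by omega⟩, h3, rfl⟩
    · intro x _ y _ he
      exact neg_injective he
    · intro y hy
      rw [DR, mem_filter, mem_Ico] at hy
      obtain ⟨⟨h1, h2⟩, h3, h4⟩ := hy
      refine ⟨-y, ?_, neg_neg y⟩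
      have h5 : σ.PL k l (-y) := by
        rw [← PL_rot, neg_neg]; exact h3
      rw [D, mem_filter, mem_Ioc]
      refine ⟨⟨by omega, by omega⟩, h5, ?_⟩
      have h6 := hi_rot h5.1
      rw [neg_neg] at h6
      rw [h6, hi_rot h0] at h4
      exact neg_injective h4

theorem PP_rot {k a b : ℤ} : (σ.rot.PP k (-b) (-a)).card = (σ.PP k a b).card := by
  symm
  refine card_bij (fun p _ => (-p.2, -p.1)) ?_ ?_ ?_
  · rintro ⟨x, y⟩ hx
    rw [PP, mem_filter, mem_pairs] at hx ⊢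
    obtain ⟨⟨h1, h2, h3⟩, h4⟩ := hx
    simp only at h1 h2 h3 h4 ⊢
    exact ⟨⟨by omega, by omega, by omega⟩, PL_rot.2 h4⟩
  · rintro ⟨x, y⟩ _ ⟨x', y'⟩ _ he
    simp only [Prod.mk.injEq, neg_inj] at he ⊢
    exact ⟨he.2, he.1⟩
  · rintro ⟨x, y⟩ hx
    rw [PP, mem_filter, mem_pairs] at hx
    obtain ⟨⟨h1, h2, h3⟩, h4⟩ := hx
    simp only at h1 h2 h3 h4
    refine ⟨(-y, -x), ?_, by simp only [neg_neg]⟩
    rw [PP, mem_filter, mem_pairs]
    simp only
    refine ⟨⟨by omega, by omega, by omega⟩, ?_⟩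
    rw [← PL_rot, neg_neg, neg_neg]
    exact h4

end Sig
end ET
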