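import Pool.Agent.Lib.MP_4beb96_co.EMT.WtA
import Pool.Agent.Lib.MP_4beb96_co.EMT.WtB
import Pool.Agent.Lib.MP_4beb96_co.EMT.L1

set_option autoImplicit false

/-! EMT-Wt: weights and the inequality for the type L.   `n = b + 1 - a`.

wt_sum: `∑_{(l, r) ∈ PP} nu (hi l r) r / #DR(r, hi l r) ≤ SL`.  Sort the pairs of `PP` by `(w, r) = (hi l r, r)`: the fibre over `(w, r)` is in bijection with `DR k a r w` (`l ∈ Ico a r`, `PL k l r`, `hi l r = w`), so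
 its contribution is `#DR * (nu w r / #DR) = nu w r` if the fibre is nonempty.  And `∑_{(w, r)} nu a b w r ≤ SL`: the triples `(p, w, r)` with `SE b p w r`, `w < r`, `p ∈ Icc a b`, are the elements counted by `SL` (`mem_SSet`).
rot_fibre: for `(l, r) ∈ PP k a b`: `#(σ.rot.D k (-a) (-r) (σ.rot.lo (-r) (-l))) = #(DR k a r (hi l r))` and `#(σ.rot.DR k (-b) (-l) (σ.rot.hi (-r) (-l))) = #(D k b l (lo l r))`: bijection `x ↦ -x`, `PL_rot`, `lo_rot`, `hi_rot`.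
typeL: let `GB` = the pairs `(l, r) ∈ PP` with `(l, r) ∉ Bad σ` and `(-r, -l) ∉ Bad σ.rot` (parameters `-b, -a`).  `#GB ≥ #PP - #Bad σ - #Bad σ.rot` (`PL_rot`: `(l, r) ↦ (-r, -l)` is a bijection `PP σ → PP σ.rot`).
 For `(l, r) ∈ GB` with `K = #(D k b l (lo l r)) ≥ 1`, `K' = #(DR k a r (hi l r)) ≥ 1` (both contain the pair itself): `nu (hi l r) r ≥ K / 16` and `ν' := σ.rot.nu (-b) (-a) (σ.rot.hi (-r) (-l)) (-l) ≥ K' / 16`.  Therefore
 `nu / K' + ν' / K ≥ (K/K' + K'/K) / 16 ≥ 1/8`.  Summing over `GB` and using wt_sum for `σ` and for `σ.rot`: `#GB / 8 ≤ SL σ + SL σ.rot`.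
 With `left_bad` for `σ` and for `σ.rot` (`Imp_rot`, `#PP σ.rot = #PP σ`):
 `64 (SL σ + SL σ.rot) ≥ 8 #GB ≥ 8 #PP - 8 #Bad σ - 8 #Bad σ.rot ≥ 6 #PP - 350 k n - 136 S - 136 S(σ.rot) - 256 Imp`. -/

namespace ET
open Finset
open scoped Classical

namespace Sig
variable {σ : Sig}

private theorem wt_term {K K' ν ν' : ℝ} (hK : 1 ≤ K) (hK' : 1 ≤ K') (h1 : K ≤ 16 * ν)
    (h2 : K' ≤ 16 * ν') : 1 / 8 ≤ ν / K' + ν' / K := by
  have hKp : 0 < K := by linarith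
  have hKp' : 0 < K' := by linarith
  have e1 : K / 16 / K' ≤ ν / K' := div_le_div_of_nonneg_right (by linarith) hKp'.le
  have e2 : K' / 16 / K ≤ ν' / K := div_le_div_of_nonneg_right (by linarith) hKp.le
  have e3 : K / 16 / K' + K' / 16 / K - 1 / 8 = (K - K') ^ 2 / (16 * K * K') := by
    field_simp
    ring
  have e4 : 0 ≤ (K - K') ^ 2 / (16 * K * K') := by positivity
  linarith

theorem typeL {k a b : ℤ} (hk : 1 ≤ k) (hab : a ≤ b) :
    6 * ((σ.PP k a b).card : ℤ) ≤ 64 * (σ.SL a b + σ.rot.SL (-b) (-a)) + 350 * k * (b + 1 - a) +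
      136 * σ.S a b + 136 * σ.rot.S (-b) (-a) + 256 * σ.Imp k a b := by
  have h1 := left_bad (σ := σ) hk hab
  have h2 := left_bad (σ := σ.rot) (k := k) (a := -b) (b := -a) hk (by omega)
  rw [PP_rot, Imp_rot] at h2
  obtain ⟨GB, hGB⟩ : ∃ GB : Finset (ℤ × ℤ), GB = (σ.PP k a b).filter
    (fun p => p ∉ σ.Bad k a b ∧ (-p.2, -p.1) ∉ σ.rot.Bad k (-b) (-a)) := ⟨_, rfl⟩
  have memPP : ∀ {τ : Sig} {a b l r : ℤ}, (l, r) ∈ τ.PP k a b ↔
      a ≤ l ∧ l < r ∧ r ≤ b ∧ τ.PL k l r := by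
    intro τ a b l r
    rw [PP, mem_filter, mem_pairs]
    dsimp only
    tauto
  have hrot : ∀ l r, (l, r) ∈ σ.PP k a b → (-r, -l) ∈ σ.rot.PP k (-b) (-a) := by
    intro l r h
    rw [memPP] at h ⊢
    exact ⟨by omega, by omega, by omega, PL_rot.2 h.2.2.2⟩
  have h3 : (σ.PP k a b).card ≤ GB.card + (σ.Bad k a b).card + (σ.rot.Bad k (-b) (-a)).card := by
    have hsub : σ.PP k a b ⊆ (GB ∪ σ.Bad k a b) ∪
        (σ.rot.Bad k (-b) (-a)).image (fun p : ℤ × ℤ => (-p.2, -p.1)) := by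
      rintro ⟨l, r⟩ h
      rw [mem_union, mem_union, hGB, mem_filter, mem_image]
      by_cases c1 : (l, r) ∈ σ.Bad k a b
      · exact Or.inl (Or.inr c1)
      · by_cases c2 : (-r, -l) ∈ σ.rot.Bad k (-b) (-a)
        · exact Or.inr ⟨(-r, -l), c2, by simp⟩
        · exact Or.inl (Or.inl ⟨h, c1, c2⟩)
    have := (card_le_card hsub).trans (card_union_le _ _)
    have h4 := card_union_le GB (σ.Bad k a b)
    have h5 := card_image_le (s := σ.rot.Bad k (-b) (-a)) (f := fun p : ℤ × ℤ => (-p.2, -p.1))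
    omega
  have hterm : ∀ p ∈ GB, (1 / 8 : ℝ) ≤
      (σ.nu a b (σ.hi p.1 p.2) p.2 : ℝ) / ((σ.DR k a p.2 (σ.hi p.1 p.2)).card : ℝ) +
      (σ.rot.nu (-b) (-a) (σ.rot.hi (-p.2) (-p.1)) (-p.1) : ℝ) /
        ((σ.rot.DR k (-b) (-p.1) (σ.rot.hi (-p.2) (-p.1))).card : ℝ) := by
    rintro ⟨l, r⟩ hp
    rw [hGB, mem_filter] at hp
    obtain ⟨hp, c1, c2⟩ := hp
    dsimp only at c2 ⊢
    obtain ⟨f1, f2⟩ := rot_fibre hp
    have hp' := hrot l r hp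
    have hpl := memPP.1 hp
    rw [Bad, mem_filter, not_and, not_lt] at c1 c2
    have d1 := c1 hp
    have d2 := c2 hp'
    dsimp only at d1 d2
    rw [f1] at d2
    rw [f2]
    have e1 : 1 ≤ (σ.D k b l (σ.lo l r)).card := by
      apply card_pos.2
      refine ⟨r, ?_⟩
      rw [D, mem_filter, mem_Ioc]
      exact ⟨⟨hpl.2.1, hpl.2.2.1⟩, hpl.2.2.2, rfl⟩
    have e2 : 1 ≤ (σ.DR k a r (σ.hi l r)).card := by
      apply card_pos.2
      refine ⟨l, ?_⟩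
      rw [DR, mem_filter, mem_Ico]
      exact ⟨⟨hpl.1, hpl.2.1⟩, hpl.2.2.2, rfl⟩
    exact wt_term (by exact_mod_cast e1) (by exact_mod_cast e2) (by exact_mod_cast d1)
      (by exact_mod_cast d2)
  have hs1 : ∑ p ∈ GB, (σ.nu a b (σ.hi p.1 p.2) p.2 : ℝ) /
      ((σ.DR k a p.2 (σ.hi p.1 p.2)).card : ℝ) ≤ σ.SL a b := by
    refine le_trans (sum_le_sum_of_subset_of_nonneg ?_ (fun p _ _ => by positivity)) wt_sum
    rw [hGB]
    exact filter_subset _ _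
  have hs2 : ∑ p ∈ GB, (σ.rot.nu (-b) (-a) (σ.rot.hi (-p.2) (-p.1)) (-p.1) : ℝ) /
        ((σ.rot.DR k (-b) (-p.1) (σ.rot.hi (-p.2) (-p.1))).card : ℝ) ≤ σ.rot.SL (-b) (-a) := by
    refine le_trans ?_ (wt_sum (σ := σ.rot) (k := k) (a := -b) (b := -a))
    have hi : Set.InjOn (fun p : ℤ × ℤ => (-p.2, -p.1)) (GB : Set (ℤ × ℤ)) := by
      rintro ⟨x, y⟩ _ ⟨x', y'⟩ _ h
      simp only [Prod.mk.injEq, neg_inj] at h ⊢
      tauto
    have e := sum_image (f := fun q : ℤ × ℤ => (σ.rot.nu (-b) (-a) (σ.rot.hi q.1 q.2) q.2 : ℝ) /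
      ((σ.rot.DR k (-b) q.2 (σ.rot.hi q.1 q.2)).card : ℝ)) hi
    rw [← e]
    refine sum_le_sum_of_subset_of_nonneg ?_ (fun p _ _ => by positivity)
    intro q hq
    rw [mem_image] at hq
    obtain ⟨⟨l, r⟩, hp, rfl⟩ := hq
    rw [hGB, mem_filter] at hp
    exact hrot l r hp.1
  have hs3 := sum_le_sum hterm
  rw [sum_add_distrib, sum_const, nsmul_eq_mul] at hs3
  have h4 : (GB.card : ℝ) ≤ 8 * (σ.SL a b + σ.rot.SL (-b) (-a)) := by linarith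
  have h5 : (GB.card : ℤ) ≤ 8 * (σ.SL a b + σ.rot.SL (-b) (-a)) := by exact_mod_cast h4
  have h6 : ((σ.PP k a b).card : ℤ) ≤ GB.card + (σ.Bad k a b).card +
    (σ.rot.Bad k (-b) (-a)).card := by exact_mod_cast h3
  have h7 : 175 * k * (-a + 1 - -b) = 175 * k * (b + 1 - a) := by ring
  rw [h7] at h2
  linarith

end Sig
end ET
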