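import Pool.Agent.Lib.MP_4beb96_co.EMT.Cls6

set_option autoImplicit false

/-! EMT-WtA: weights and the inequality for the type L.   `n = b + 1 - a`.

wt_sum: `∑_{(l, r) ∈ PP} nu (hi l r) r / #DR(r, hi l r) ≤ SL`.  Sort the pairs of `PP` by `(w, r) = (hi l r, r)`: the fibre over `(w, r)` is in bijection with `DR k a r w` (`l ∈ Ico a r`, `PL k l r`, `hi l r = w`), so
 its contribution is `#DR * (nu w r / #DR) = nu w r` if the fibre is nonempty.  And `∑_{(w, r)} nu a b w r ≤ SL`: the triples `(p, w, r)` with `SE b p w r`, `w < r`, `p ∈ Icc a b`, are the elements counted by `SL` (`mem_SSet`).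
rot_fibre: for `(l, r) ∈ PP k a b`: `#(σ.rot.D k (-a) (-r) (σ.rot.lo (-r) (-l))) = #(DR k a r (hi l r))` and `#(σ.rot.DR k (-b) (-l) (σ.rot.hi (-r) (-l))) = #(D k b l (lo l r))`: bijection `x ↦ -x`, `PL_rot`, `lo_rot`, `hi_rot`.
typeL: let `GB` = the pairs `(l, r) ∈ PP` with `(l, r) ∉ Bad σ` and `(-r, -l) ∉ Bad σ.rot` (parameters `-b, -a`).  `#GB ≥ #PP - #Bad σ - #Bad σ.rot` (`PL_rot`: `(l, r) ↦ (-r, -l)` is a bijection `PP σ → PP σ.rot`).
 For `(l, r) ∈ GB` with `K = #(D k b l (lo l r)) ≥ 1`, `K' = #(DR k a r (hi l r)) ≥ 1` (both contain the pair itself): `nu (hi l r) r ≥ K / 16` and `ν' := σ.rot.nu (-b) (-a) (σ.rot.hi (-r) (-l)) (-l) ≥ K' / 16`.  Therefore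
 `nu / K' + ν' / K ≥ (K/K' + K'/K) / 16 ≥ 1/8`.  Summing over `GB` and using wt_sum for `σ` and for `σ.rot`: `#GB / 8 ≤ SL σ + SL σ.rot`.
 With `left_bad` for `σ` and for `σ.rot` (`Imp_rot`, `#PP σ.rot = #PP σ`):
 `64 (SL σ + SL σ.rot) ≥ 8 #GB ≥ 8 #PP - 8 #Bad σ - 8 #Bad σ.rot ≥ 6 #PP - 350 k n - 136 S - 136 S(σ.rot) - 256 Imp`. -/

namespace ET
open Finset
open scoped Classical

namespace Sig
variable {σ : Sig}

theorem wt_sum {k a b : ℤ} :
    ∑ p ∈ σ.PP k a b, (σ.nu a b (σ.hi p.1 p.2) p.2 : ℝ) / ((σ.DR k a p.2 (σ.hi p.1 p.2)).card : ℝ) ≤ σ.SL a b := by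
  set f : ℤ × ℤ → ℤ × ℤ := fun p => (σ.hi p.1 p.2, p.2) with hf
  set F : ℤ × ℤ → ℝ := fun q => (σ.nu a b q.1 q.2 : ℝ) / ((σ.DR k a q.2 q.1).card : ℝ) with hF
  have h1 : ∑ p ∈ σ.PP k a b, (σ.nu a b (σ.hi p.1 p.2) p.2 : ℝ) / ((σ.DR k a p.2 (σ.hi p.1 p.2)).card : ℝ) =
      ∑ p ∈ σ.PP k a b, F (f p) := rfl
  rw [h1, Finset.sum_comp F f]
  set I := (σ.PP k a b).image f with hI
  have h2 : ∀ q ∈ I, ((σ.PP k a b).filter (fun p => f p = q)).card ≤ (σ.DR k a q.2 q.1).card := by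
    rintro ⟨w, r⟩ _
    refine card_le_card_of_injOn (fun p => p.1) ?_ ?_
    · rintro ⟨l, r'⟩ h
      rw [mem_coe, mem_filter, PP, mem_filter, mem_pairs] at h
      obtain ⟨⟨⟨h3, h4, h5⟩, h6⟩, h7⟩ := h
      simp only [hf, Prod.mk.injEq] at h7
      obtain ⟨h7, h8⟩ := h7
      simp only at h3 h4 h5 h6
      subst h8
      rw [mem_coe, DR, mem_filter, mem_Ico]
      exact ⟨⟨h3, h4⟩, h6, h7⟩
    · rintro ⟨l, r'⟩ h ⟨l2, r2⟩ h' he
      rw [mem_coe, mem_filter] at h h'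
      have h7 := h.2
      have h8 := h'.2
      simp only [hf, Prod.mk.injEq] at h7 h8 he ⊢
      exact ⟨he, h7.2.trans h8.2.symm⟩
  have h3 : ∑ q ∈ I, ((σ.PP k a b).filter (fun p => f p = q)).card • F q ≤ ∑ q ∈ I, (σ.nu a b q.1 q.2 : ℝ) := by
    refine sum_le_sum fun q hq => ?_
    have h4 := h2 q hq
    rw [nsmul_eq_mul]
    simp only [hF]
    have h5 : (((σ.PP k a b).filter (fun p => f p = q)).card : ℝ) ≤ ((σ.DR k a q.2 q.1).card : ℝ) := by exact_mod_cast h4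
    rcases Nat.eq_zero_or_pos (σ.DR k a q.2 q.1).card with h6 | h6
    · rw [h6]; simp
    · have h7 : (0 : ℝ) < ((σ.DR k a q.2 q.1).card : ℝ) := by exact_mod_cast h6
      rw [mul_div_assoc', div_le_iff₀ h7, mul_comm]
      exact mul_le_mul_of_nonneg_left h5 (Nat.cast_nonneg _)
  refine h3.trans ?_
  have h4 : ∑ q ∈ I, σ.nu a b q.1 q.2 ≤ σ.SL a b := by
    set T := ((σ.SSet a b).filter (fun t => t.2.1 < t.2.2)).filter (fun t => t.2 ∈ I) with hT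
    have h5 : T.card = ∑ q ∈ I, (T.filter (fun t => t.2 = q)).card :=
      card_eq_sum_card_fiberwise (fun t ht => by rw [mem_coe, hT, mem_filter] at ht; exact ht.2)
    have h6 : ∑ q ∈ I, σ.nu a b q.1 q.2 ≤ ∑ q ∈ I, (T.filter (fun t => t.2 = q)).card := by
      refine sum_le_sum fun q hq => ?_
      rw [nu]
      refine card_le_card_of_injOn (fun p => (p, q)) ?_ ?_
      · intro p hp
        rw [mem_coe, mem_filter, mem_Icc] at hp
        rw [mem_coe, mem_filter, hT, mem_filter, mem_filter, mem_SSet]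
        exact ⟨⟨⟨⟨hp.1.1, hp.2.1⟩, hp.2.2⟩, hq⟩, rfl⟩
      · intro p _ p' _ he
        exact (Prod.mk.injEq _ _ _ _ ▸ he : p = p' ∧ q = q).1
    calc ∑ q ∈ I, σ.nu a b q.1 q.2 ≤ ∑ q ∈ I, (T.filter (fun t => t.2 = q)).card := h6
      _ = T.card := h5.symm
      _ ≤ ((σ.SSet a b).filter (fun t => t.2.1 < t.2.2)).card := card_filter_le _ _
      _ = σ.SL a b := rfl
  exact_mod_cast h4

end Sig
end ET
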